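import Pool.Agent.T2H34.Prd

/-!
The quadratic polynomials of discriminant `-4` and the pair correlations.
-/

set_option autoImplicit false

namespace Pool.Agent.T2H34.Prd

open Finset Filter
open ArithmeticFunction (cardFactors)
open Pool.Agent.T2H34.Dh (mem_DD Om Sg Ls null_dd sml_mt norm_root)
open Pool.Agent.TH890.DV (LogNull)

/-- the coefficients `(a, b, c)` of the polynomials with `b² - 4ac = -4` -/
def Q4 (X : ℕ) : Finset (ℕ × ℕ × ℕ) :=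
  ((Icc 1 X) ×ˢ (range (2 * X)) ×ˢ (Icc 1 X)).filter
    (fun f => f.2.1 < 2 * f.1 ∧ f.2.1 ^ 2 + 4 = 4 * f.1 * f.2.2)

/-- the value at `t` -/
def qv (f : ℕ × ℕ × ℕ) (t : ℕ) : ℕ := f.1 * t ^ 2 + f.2.1 * t + f.2.2

lemma mem_Q4 {X : ℕ} {f : ℕ × ℕ × ℕ} : f ∈ Q4 X ↔ 1 ≤ f.1 ∧ f.1 ≤ X ∧ f.2.1 < 2 * f.1 ∧
    f.2.1 ^ 2 + 4 = 4 * f.1 * f.2.2 := by
  obtain ⟨a, b, c⟩ := f
  unfold Q4
  simp only [mem_filter, mem_product, mem_Icc, mem_range]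
  constructor
  · rintro ⟨⟨⟨h1, h2⟩, h3, h4, h5⟩, h6, h7⟩
    exact ⟨h1, h2, h6, h7⟩
  · rintro ⟨h1, h2, h3, h4⟩
    have hc : 1 ≤ c := by
      rcases Nat.eq_zero_or_pos c with h | h
      · rw [h, mul_zero] at h4
        omega
      · exact h
    have hca : c ≤ a := by
      by_contra hcon
      push Not at hcon
      have h5 : b + 1 ≤ 2 * a := h3
      nlinarith
    exact ⟨⟨⟨h1, h2⟩, by omega, hc, by omega⟩, h3, h4⟩

lemma half {a b c : ℕ} (h : b ^ 2 + 4 = 4 * a * c) : ∃ n, b = 2 * n ∧ n ^ 2 + 1 = a * c := by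
  have h1 : 2 ∣ b ^ 2 := by
    have h2 : b ^ 2 = 2 * (2 * (a * c) - 2) := by
      have : 2 ≤ 2 * (a * c) := by nlinarith
      zify [this]
      have h' : (b : ℤ) ^ 2 + 4 = 4 * a * c := by exact_mod_cast h
      linarith
    exact ⟨_, h2⟩
  obtain ⟨n, hn⟩ := Nat.prime_two.dvd_of_dvd_pow h1
  refine ⟨n, hn, ?_⟩
  rw [hn] at h
  nlinarith

lemma Q4_sum {M : Type*} [AddCommMonoid M] (X : ℕ) (G : ℕ × ℕ × ℕ → M) :
    ∑ f ∈ Q4 X, G f = ∑ p ∈ Dh.DD X, G (p.1, 2 * p.2, (p.2 ^ 2 + 1) / p.1) := by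
  refine sum_nbij' (fun f => (f.1, f.2.1 / 2)) (fun p => (p.1, 2 * p.2, (p.2 ^ 2 + 1) / p.1))
    ?_ ?_ ?_ ?_ ?_
  · rintro ⟨a, b, c⟩ hf
    rw [mem_Q4] at hf
    obtain ⟨h1, h2, h3, h4⟩ := hf
    obtain ⟨n, hn, hn2⟩ := half h4
    rw [mem_DD]
    simp only at *
    have e : b / 2 = n := by omega
    rw [e]
    exact ⟨h1, h2, by omega, ⟨c, hn2⟩⟩
  · rintro ⟨d, n⟩ hp
    rw [mem_DD] at hp
    obtain ⟨h1, h2, h3, c, hc⟩ := hp
    rw [mem_Q4]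
    simp only at *
    refine ⟨h1, h2, by omega, ?_⟩
    rw [hc, Nat.mul_div_cancel_left _ (by omega)]
    nlinarith
  · rintro ⟨a, b, c⟩ hf
    rw [mem_Q4] at hf
    obtain ⟨h1, h2, h3, h4⟩ := hf
    obtain ⟨n, hn, hn2⟩ := half h4
    simp only at *
    have e : b / 2 = n := by omega
    rw [e, hn2, Nat.mul_div_cancel_left _ (by omega), ← hn]
  · rintro ⟨d, n⟩ hp
    simp only
    rw [Nat.mul_div_cancel_left _ (by norm_num)]
  · rintro ⟨a, b, c⟩ hf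
    rw [mem_Q4] at hf
    obtain ⟨h1, h2, h3, h4⟩ := hf
    obtain ⟨n, hn, hn2⟩ := half h4
    simp only at *
    have e : b / 2 = n := by omega
    rw [e, hn2, Nat.mul_div_cancel_left _ (by omega), ← hn]

lemma Q4_card (X : ℕ) : (Q4 X).card = (Dh.DD X).card := by
  have h := Q4_sum X (fun _ => (1 : ℕ))
  simpa using h

lemma qv_mt {X : ℕ} {p : ℕ × ℕ} (hp : p ∈ Dh.DD X) (t : ℕ) :
    qv (p.1, 2 * p.2, (p.2 ^ 2 + 1) / p.1) t = Dh.mt t p := by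
  rw [mem_DD] at hp
  obtain ⟨h1, h2, h3, c, hc⟩ := hp
  unfold qv Dh.mt
  simp only
  rw [hc, Nat.mul_div_cancel_left _ (by omega)]
  have : (p.2 + t * p.1) ^ 2 + 1 = p.1 * (p.1 * t ^ 2 + 2 * p.2 * t + c) := by nlinarith
  rw [this, Nat.mul_div_cancel_left _ (by omega)]

/-- number of prime factors of the value at `t` -/
def oq (t : ℕ) (f : ℕ × ℕ × ℕ) : ℕ := cardFactors (qv f t)

/-- the sum of the pair correlations -/
noncomputable def Df (ζ : ℂ) (k : ℕ) (S : Finset ℕ) (γ : ℕ → ℕ) (X : ℕ) : ℝ :=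
  ∑ l ∈ (range k).erase 0, ∑ f ∈ S.offDiag,
    ‖Sg (ζ ^ l) ((ζ ^ l) ^ (k - 1)) (Om (γ f.1)) (Om (γ f.2)) X‖

lemma Df_nn (ζ : ℂ) (k : ℕ) (S : Finset ℕ) (γ : ℕ → ℕ) (X : ℕ) : 0 ≤ Df ζ k S γ X :=
  sum_nonneg fun _ _ => sum_nonneg fun _ _ => norm_nonneg _

lemma Df_ls {k : ℕ} (hk : 1 ≤ k) {ζ : ℂ} (hζ : IsPrimitiveRoot ζ k) (S : Finset ℕ) (γ : ℕ → ℕ)
    (hγ : ∀ t ∈ S, ∀ s ∈ S, γ t = γ s → t = s) : Ls (Df ζ k S γ) := by
  have hζk : ∀ l, (ζ ^ l) ^ k = 1 := fun l => by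
    rw [← pow_mul, mul_comm, pow_mul, hζ.pow_eq_one, one_pow]
  refine Ls.sum _ fun l hl => Ls.sum _ fun f hf => ?_
  rw [mem_offDiag] at hf
  refine sml_mt hk (fun h => hf.2.2 (hγ _ hf.1 _ hf.2.1 h)) _ _ (hζk l) ?_ (Or.inl ?_)
  · rw [← pow_mul, mul_comm (k - 1) k, pow_mul, hζk, one_pow]
  · rw [mem_erase, mem_range] at hl
    intro h4
    exact hl.1 (Nat.eq_zero_of_dvd_of_lt ((hζ.pow_eq_one_iff_dvd _).1 h4) hl.2)

lemma Df_pcs {k : ℕ} (hk : 1 ≤ k) {ζ : ℂ} (hζ : IsPrimitiveRoot ζ k) (S : Finset ℕ) (γ : ℕ → ℕ)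
    {X : ℕ} (h : Df ζ k S γ X ≤ ((Dh.DD X).card : ℝ)) : Pcs k S (fun t => oq (γ t)) (Q4 X) := by
  intro b hb hb1
  have : NeZero k := ⟨by omega⟩
  obtain ⟨l, hl, rfl⟩ := hζ.eq_pow_of_pow_eq_one hb
  have hl0 : l ≠ 0 := by
    rintro rfl
    exact hb1 (pow_zero ζ)
  rw [Q4_card]
  refine le_trans ?_ h
  unfold Df
  refine le_trans (le_of_eq ?_) (single_le_sum (f := fun l => ∑ f ∈ S.offDiag,
    ‖Sg (ζ ^ l) ((ζ ^ l) ^ (k - 1)) (Om (γ f.1)) (Om (γ f.2)) X‖)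
    (fun l _ => sum_nonneg fun f _ => norm_nonneg _) (mem_erase.2 ⟨hl0, mem_range.2 hl⟩))
  refine sum_congr rfl fun e _ => ?_
  congr 1
  rw [Q4_sum]
  unfold Sg
  refine sum_congr rfl fun p hp => ?_
  simp only [oq, Om]
  rw [qv_mt hp, qv_mt hp]

/-- the exceptional scales are few -/
theorem null4 {k : ℕ} (hk : 1 ≤ k) (S : Finset ℕ) (Γ : Finset (Polynomial ℕ))
    (hΓ : ∀ g ∈ Γ, ∀ t ∈ S, ∀ s ∈ S, g.eval t = g.eval s → t = s) :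
    LogNull (fun X => ¬ ∀ g ∈ Γ, Pcs k S (fun t => oq (g.eval t)) (Q4 X)) := by
  obtain ⟨ζ, hζ⟩ : ∃ ζ : ℂ, IsPrimitiveRoot ζ k :=
    ⟨_, Complex.isPrimitiveRoot_exp k (by omega)⟩
  have hL : Ls (fun X => ∑ g ∈ Γ, Df ζ k S (fun t => g.eval t) X) :=
    Ls.sum _ fun g hg => Df_ls hk hζ S _ (hΓ g hg)
  have hD0 : ∀ X, 0 ≤ ∑ g ∈ Γ, Df ζ k S (fun t => g.eval t) X := fun X =>
    sum_nonneg fun g _ => Df_nn _ _ _ _ _
  refine LogNull.of_ev 0 ?_ (null_dd hD0 hL (ε := 1) one_pos)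
  intro X _ h1
  by_contra hcon
  apply h1
  rw [one_mul, not_lt] at hcon
  intro g hg
  refine Df_pcs hk hζ S _ (le_trans ?_ hcon)
  exact single_le_sum (f := fun g : Polynomial ℕ => Df ζ k S (fun t => g.eval t) X)
    (fun g _ => Df_nn _ _ _ _ _) hg

/-- a non-constant polynomial with coefficients in `ℕ` is strictly increasing -/
lemma poly_inj {g : Polynomial ℕ} (hg : g.natDegree ≠ 0) : StrictMono (fun t : ℕ => g.eval t) := by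
  apply strictMono_nat_of_lt_succ
  intro t
  show g.eval t < g.eval (t + 1)
  rw [Polynomial.eval_eq_sum_range, Polynomial.eval_eq_sum_range]
  apply Finset.sum_lt_sum
  · intro i _
    exact Nat.mul_le_mul_left _ (Nat.pow_le_pow_left (Nat.le_succ t) i)
  · refine ⟨g.natDegree, Finset.self_mem_range_succ _, ?_⟩
    have h1 : 0 < g.coeff g.natDegree := by
      rw [Polynomial.coeff_natDegree]
      apply Nat.pos_of_ne_zero
      rw [Polynomial.leadingCoeff_ne_zero]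
      rintro rfl
      simp at hg
    exact Nat.mul_lt_mul_of_pos_left (Nat.pow_lt_pow_left (Nat.lt_succ_self t) hg) h1

end Pool.Agent.T2H34.Prd
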