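import Pool.Agent.T2H34.Low
import Pool.Agent.Helper602.PNT

/-!
Sets of primes with a positive proportion at all logarithmic scales: residue classes.
-/

set_option autoImplicit false

namespace Pool.Agent.T2H34

open Finset Filter Topology
open ArithmeticFunction
open Pool.Agent.Helper602.PNT (pnt_residueClass)

theorem thick_of_blocks {P : Set ℕ} {C δ x₀ : ℝ} (hC : 1 < C) (hδ : 0 < δ)
    (h : ∀ x : ℝ, x₀ ≤ x → δ / Real.log x ≤ ∑ p ∈ PT P x (C * x), 1 / (p : ℝ)) : Thick P := by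
  classical
  intro lam hlam
  have hlC : 0 < Real.log C := Real.log_pos hC
  refine ⟨δ * (lam - 1) / (2 * lam * Real.log C), by
    apply div_pos (mul_pos hδ (by linarith)) (by positivity), ?_⟩
  have hlim : Tendsto (fun y : ℝ => Real.log y) atTop atTop := Real.tendsto_log_atTop
  obtain ⟨y₁, hy₁⟩ := (hlim.eventually_ge_atTop (2 * Real.log C / (lam - 1) + 1)).exists_forall_of_atTop
  refine ⟨max (max x₀ y₁) 2, fun y hy => ?_⟩
  have g1 : x₀ ≤ y := ((le_max_left _ _).trans (le_max_left _ _)).trans hy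
  have g2 : y₁ ≤ y := ((le_max_right _ _).trans (le_max_left _ _)).trans hy
  have g3 : 2 ≤ y := (le_max_right _ _).trans hy
  have hy0 : 0 < y := by linarith
  have hl := hy₁ y g2
  have hl0 : 0 < Real.log y := Real.log_pos (by linarith)
  obtain ⟨I, hI⟩ : ∃ I : ℕ, I = ⌊(lam - 1) * Real.log y / Real.log C⌋₊ := ⟨_, rfl⟩
  have hq0 : 0 ≤ (lam - 1) * Real.log y / Real.log C := by
    apply div_nonneg (mul_nonneg (by linarith) hl0.le) hlC.le
  have hI1 : (I : ℝ) ≤ (lam - 1) * Real.log y / Real.log C := by rw [hI]; exact Nat.floor_le hq0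
  have hI2 : (lam - 1) * Real.log y / Real.log C < I + 1 := by rw [hI]; exact Nat.lt_floor_add_one _
  have hpow : ∀ i : ℕ, i ≤ I → y * C ^ i ≤ y ^ lam := by
    intro i hi
    have e1 : y ^ lam = y * y ^ (lam - 1) := by
      rw [← Real.rpow_one_add' hy0.le (by linarith)]
      congr 1
      ring
    rw [e1]
    refine mul_le_mul_of_nonneg_left ?_ hy0.le
    have e2 : C ^ i = Real.exp (i * Real.log C) := by
      rw [Real.exp_nat_mul, Real.exp_log (by linarith)]
    rw [e2, Real.rpow_def_of_pos hy0]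
    apply Real.exp_le_exp.2
    have e3 : (i : ℝ) ≤ I := by exact_mod_cast hi
    have e4 := e3.trans hI1
    rw [le_div_iff₀ hlC] at e4
    linarith
  have hC0 : 0 < C := by linarith
  have hge : ∀ i : ℕ, y ≤ y * C ^ i := fun i => by
    have := one_le_pow₀ (n := i) hC.le
    nlinarith
  -- the blocks are disjoint
  have hsub : (range I).biUnion (fun i => PT P (y * C ^ i) (C * (y * C ^ i))) ⊆ PT P y (y ^ lam) := by
    intro p hp
    rw [mem_biUnion] at hp
    obtain ⟨i, hi, hp⟩ := hp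
    rw [mem_range] at hi
    have h1 := mem_PT.1 hp
    rw [mem_PT]
    refine ⟨h1.1, h1.2.1, lt_of_le_of_lt (hge i) h1.2.2.1, ?_⟩
    refine h1.2.2.2.trans (Nat.floor_le_floor ?_)
    have := hpow (i + 1) (by omega)
    rw [pow_succ] at this
    linarith
  have hdisj : ∀ i ∈ range I, ∀ j ∈ range I, i ≠ j →
      Disjoint (PT P (y * C ^ i) (C * (y * C ^ i))) (PT P (y * C ^ j) (C * (y * C ^ j))) := by
    have key : ∀ i j : ℕ, i < j → ∀ p, p ∈ PT P (y * C ^ i) (C * (y * C ^ i)) →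
        p ∉ PT P (y * C ^ j) (C * (y * C ^ j)) := by
      intro i j hij p hp hp'
      have h1 := le_of_PT hp
      have h2 := (mem_PT.1 hp').2.2.1
      have h3 : C * (y * C ^ i) ≤ y * C ^ j := by
        have h4 : C ^ (i + 1) ≤ C ^ j := pow_le_pow_right₀ hC.le hij
        rw [pow_succ] at h4
        have h5 := mul_le_mul_of_nonneg_left h4 hy0.le
        linarith
      linarith
    intro i _ j _ hij
    rw [Finset.disjoint_left]
    intro p hp hp'
    rcases lt_or_gt_of_ne hij with h1 | h1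
    · exact key i j h1 p hp hp'
    · exact key j i h1 p hp' hp
  have h1 : ∑ i ∈ range I, ∑ p ∈ PT P (y * C ^ i) (C * (y * C ^ i)), 1 / (p : ℝ) ≤
      ∑ p ∈ PT P y (y ^ lam), 1 / (p : ℝ) := by
    rw [← Finset.sum_biUnion (fun i hi j hj hij => hdisj i hi j hj hij)]
    exact Finset.sum_le_sum_of_subset_of_nonneg hsub fun _ _ _ => by positivity
  refine le_trans ?_ h1
  have h2 : ∀ i ∈ range I, δ / (lam * Real.log y) ≤
      ∑ p ∈ PT P (y * C ^ i) (C * (y * C ^ i)), 1 / (p : ℝ) := by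
    intro i hi
    rw [mem_range] at hi
    refine le_trans ?_ (h (y * C ^ i) (g1.trans (hge i)))
    have h3 : Real.log (y * C ^ i) ≤ lam * Real.log y := by
      rw [← Real.log_rpow hy0]
      exact Real.log_le_log (by positivity) (hpow i hi.le)
    have h4 : 0 < Real.log (y * C ^ i) := Real.log_pos (by linarith [hge i])
    exact div_le_div_of_nonneg_left hδ.le h4 h3
  refine le_trans ?_ (Finset.card_nsmul_le_sum _ _ _ h2)
  rw [nsmul_eq_mul, card_range]
  have h5 : (lam - 1) * Real.log y / (2 * Real.log C) ≤ I := by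
    have h6 : 1 ≤ (lam - 1) * Real.log y / (2 * Real.log C) := by
      rw [le_div_iff₀ (by positivity)]
      have h7 : 2 * Real.log C / (lam - 1) ≤ Real.log y := by linarith
      rw [div_le_iff₀ (by linarith)] at h7
      linarith
    have h8 : (lam - 1) * Real.log y / Real.log C = 2 * ((lam - 1) * Real.log y / (2 * Real.log C)) := by
      field_simp
    linarith
  have h6 : δ * (lam - 1) / (2 * lam * Real.log C) =
      (lam - 1) * Real.log y / (2 * Real.log C) * (δ / (lam * Real.log y)) := by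
    have : lam ≠ 0 := by linarith
    field_simp
  rw [h6]
  refine mul_le_mul_of_nonneg_right h5 ?_
  apply div_nonneg hδ.le
  apply mul_nonneg (by linarith) hl0.le

open scoped Classical in
/-- `θ(x; q, a)` -/
noncomputable def tha (q a : ℕ) (x : ℝ) : ℝ :=
  ∑ p ∈ (Ioc 0 ⌊x⌋₊).filter (fun p => p.Prime ∧ p ≡ a [MOD q]), Real.log p

theorem tha_res (q a : ℕ) (x : ℝ) :
    |(∑ k ∈ Icc 1 ⌊x⌋₊, vonMangoldt.residueClass (a : ZMod q) k) - tha q a x| ≤
      Chebyshev.psi x - Chebyshev.theta x := by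
  classical
  have e0 : Icc 1 ⌊x⌋₊ = Ioc 0 ⌊x⌋₊ := by ext; simp [Finset.mem_Icc, Finset.mem_Ioc]; omega
  rw [e0]
  have h1 : (∑ k ∈ Ioc 0 ⌊x⌋₊, vonMangoldt.residueClass (a : ZMod q) k) - tha q a x =
      ∑ k ∈ (Ioc 0 ⌊x⌋₊).filter (fun r => ¬ r.Prime), vonMangoldt.residueClass (a : ZMod q) k := by
    rw [← Finset.sum_filter_add_sum_filter_not (Ioc 0 ⌊x⌋₊) (fun r => r.Prime)
      (fun k => vonMangoldt.residueClass (a : ZMod q) k)]
    have h2 : ∑ r ∈ (Ioc 0 ⌊x⌋₊).filter (fun r => r.Prime),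
        vonMangoldt.residueClass (a : ZMod q) r = tha q a x := by
      rw [tha, ← Finset.filter_filter, Finset.sum_filter (p := fun r : ℕ => r ≡ a [MOD q])]
      apply Finset.sum_congr rfl
      intro r hr
      rw [Finset.mem_filter] at hr
      split_ifs with h
      · rw [vonMangoldt.residueClass, Set.indicator_of_mem]
        · exact vonMangoldt_apply_prime hr.2
        · exact (ZMod.natCast_eq_natCast_iff _ _ _).2 h
      · rw [vonMangoldt.residueClass, Set.indicator_of_notMem]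
        exact fun h' => h ((ZMod.natCast_eq_natCast_iff _ _ _).1 h')
    rw [h2]
    ring
  rw [h1, Chebyshev.psi_sub_theta_eq_sum_not_prime, abs_of_nonneg]
  · apply Finset.sum_le_sum
    intro r _
    exact vonMangoldt.residueClass_le _ _
  · exact Finset.sum_nonneg fun n _ => vonMangoldt.residueClass_nonneg _ n

theorem psi_theta :
    Tendsto (fun x : ℝ => (Chebyshev.psi x - Chebyshev.theta x) / x) atTop (𝓝 0) := by
  obtain ⟨C, hC⟩ := Chebyshev.psi_sub_theta_le_mul_sqrt
  have h2 : Tendsto (fun x : ℝ => C * (Real.sqrt x)⁻¹) atTop (𝓝 0) := by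
    have := (tendsto_inv_atTop_zero.comp Real.tendsto_sqrt_atTop).const_mul C
    simpa [Function.comp_def] using this
  refine squeeze_zero' ?_ ?_ h2
  · filter_upwards [eventually_gt_atTop 0] with x hx
    exact div_nonneg (sub_nonneg.mpr (Chebyshev.theta_le_psi x)) hx.le
  · filter_upwards [eventually_gt_atTop 0] with x hx
    rw [div_le_iff₀ hx]
    refine (hC x).trans (le_of_eq ?_)
    have hs : 0 < Real.sqrt x := Real.sqrt_pos.mpr hx
    have hx2 : Real.sqrt x * Real.sqrt x = x := Real.mul_self_sqrt hx.le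
    field_simp
    rw [sq, hx2]

theorem tha_tendsto (q a : ℕ) (hq : 0 < q) (ha : a.Coprime q) :
    Tendsto (fun x : ℝ => tha q a x / x) atTop (𝓝 ((q.totient : ℝ)⁻¹)) := by
  have : NeZero q := ⟨hq.ne'⟩
  have h1 := pnt_residueClass (q := q) (a := (a : ZMod q)) ((ZMod.isUnit_iff_coprime a q).2 ha)
  have h3 : Tendsto (fun x : ℝ => ((∑ k ∈ Icc 1 ⌊x⌋₊,
      vonMangoldt.residueClass (a : ZMod q) k) - tha q a x) / x) atTop (𝓝 0) := by
    refine squeeze_zero_norm' ?_ psi_theta
    filter_upwards [eventually_gt_atTop 0] with x hx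
    rw [Real.norm_eq_abs, abs_div, abs_of_pos hx]
    exact div_le_div_of_nonneg_right (tha_res q a x) hx.le
  have h4 := h1.sub h3
  rw [sub_zero] at h4
  refine h4.congr fun x => ?_
  ring

/-- residue classes are thick -/
theorem thick_ap (q a : ℕ) (hq : 0 < q) (h4 : 4 ∣ q) (ha : a.Coprime q) (ha4 : a % 4 = 1) :
    Thick {p | p ≡ a [MOD q]} := by
  classical
  obtain ⟨φ, hφ⟩ : ∃ φ : ℝ, φ = ((q.totient : ℝ)⁻¹) := ⟨_, rfl⟩
  have hφ0 : 0 < φ := by
    rw [hφ]
    have : (0 : ℝ) < q.totient := by exact_mod_cast Nat.totient_pos.2 hq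
    positivity
  have ht := tha_tendsto q a hq ha
  rw [← hφ, Metric.tendsto_atTop] at ht
  obtain ⟨x₁, hx₁⟩ := ht (φ / 8) (by positivity)
  refine thick_of_blocks (C := 2) (δ := φ / 8) (x₀ := max (max x₁ 2) 2) (by norm_num) (by positivity) ?_
  intro x hx
  have g1 : x₁ ≤ x := ((le_max_left _ _).trans (le_max_left _ _)).trans hx
  have g2 : 2 ≤ x := (le_max_right _ _).trans hx
  have hx0 : 0 < x := by linarith
  have e1 := hx₁ x g1
  have e2 := hx₁ (2 * x) (by linarith)
  rw [Real.dist_eq, abs_lt] at e1 e2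
  have f1 : tha q a x ≤ (φ + φ / 8) * x := by
    have : tha q a x / x ≤ φ + φ / 8 := by linarith
    rwa [div_le_iff₀ hx0] at this
  have f2 : (φ - φ / 8) * (2 * x) ≤ tha q a (2 * x) := by
    have : φ - φ / 8 ≤ tha q a (2 * x) / (2 * x) := by linarith
    rwa [le_div_iff₀ (by linarith)] at this
  have hl : 0 < Real.log x := Real.log_pos (by linarith)
  have hl2 : Real.log (2 * x) ≤ 2 * Real.log x := by
    rw [Real.log_mul (by norm_num) hx0.ne']
    have := Real.log_le_log (by norm_num) g2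
    linarith
  have hl3 : 0 < Real.log (2 * x) := Real.log_pos (by linarith)
  -- the primes in the block
  have f3 : tha q a (2 * x) - tha q a x ≤ ∑ p ∈ PT {p | p ≡ a [MOD q]} x (2 * x), Real.log p := by
    unfold tha
    have hsub : (Ioc 0 ⌊2 * x⌋₊).filter (fun p => p.Prime ∧ p ≡ a [MOD q]) ⊆
        PT {p | p ≡ a [MOD q]} x (2 * x) ∪ (Ioc 0 ⌊x⌋₊).filter (fun p => p.Prime ∧ p ≡ a [MOD q]) := by
      intro p hp
      rw [mem_filter, mem_Ioc] at hp
      obtain ⟨⟨h1, h2⟩, h3, h5⟩ := hp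
      rw [mem_union, mem_filter, mem_Ioc, mem_PT]
      by_cases h6 : p ≤ ⌊x⌋₊
      · right; exact ⟨⟨h1, h6⟩, h3, h5⟩
      · left
        refine ⟨⟨h3, ?_⟩, h5, ?_, h2⟩
        · have h7 : p ≡ a [MOD 4] := h5.of_dvd h4
          unfold Nat.ModEq at h7
          omega
        · rw [not_le, Nat.floor_lt hx0.le] at h6
          exact h6
    have h8 := (Finset.sum_le_sum_of_subset_of_nonneg hsub (fun p _ _ => Real.log_natCast_nonneg p))
    have h9 := Finset.sum_union_inter (s₁ := PT {p | p ≡ a [MOD q]} x (2 * x))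
      (s₂ := (Ioc 0 ⌊x⌋₊).filter (fun p => p.Prime ∧ p ≡ a [MOD q])) (f := fun p : ℕ => Real.log p)
    have h10 : 0 ≤ ∑ p ∈ PT {p | p ≡ a [MOD q]} x (2 * x) ∩
      (Ioc 0 ⌊x⌋₊).filter (fun p => p.Prime ∧ p ≡ a [MOD q]), Real.log p :=
      Finset.sum_nonneg fun p _ => Real.log_natCast_nonneg p
    linarith
  have f4 : ∑ p ∈ PT {p | p ≡ a [MOD q]} x (2 * x), Real.log p ≤
      (2 * x * (2 * Real.log x)) * ∑ p ∈ PT {p | p ≡ a [MOD q]} x (2 * x), 1 / (p : ℝ) := by
    rw [mul_sum]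
    refine sum_le_sum fun p hp => ?_
    have h5 := le_of_PT hp
    have h6 := (mem_PT.1 hp).2.2.1
    have hp0 : (0 : ℝ) < p := by linarith
    have h7 : Real.log p ≤ 2 * Real.log x := (Real.log_le_log hp0 h5).trans hl2
    rw [mul_one_div, le_div_iff₀ hp0]
    have h8 : Real.log p * p ≤ 2 * Real.log x * p := mul_le_mul_of_nonneg_right h7 hp0.le
    have h9 : 2 * Real.log x * p ≤ 2 * Real.log x * (2 * x) :=
      mul_le_mul_of_nonneg_left h5 (by positivity)
    linarith
  rw [div_le_iff₀ hl]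
  have f5 : φ / 2 * x ≤ (2 * x * (2 * Real.log x)) * ∑ p ∈ PT {p | p ≡ a [MOD q]} x (2 * x), 1 / (p : ℝ) := by
    have : φ / 2 * x ≤ (φ - φ / 8) * (2 * x) - (φ + φ / 8) * x := by nlinarith
    linarith
  have f6 : φ / 2 ≤ 4 * (Real.log x * ∑ p ∈ PT {p | p ≡ a [MOD q]} x (2 * x), 1 / (p : ℝ)) := by
    have h5 : φ / 2 * x ≤ 4 * (Real.log x * ∑ p ∈ PT {p | p ≡ a [MOD q]} x (2 * x), 1 / (p : ℝ)) * x := by
      linarith
    exact le_of_mul_le_mul_right h5 hx0
  linarith

end Pool.Agent.T2H34
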