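import Pool.Agent.T2H34.Cnt
import Pool.Agent.T2H34.Thk

/-!
The statements in terms of integers.
-/

set_option autoImplicit false

namespace Pool.Agent.T2H34

open Finset Filter
open Pool.Agent.W78.GA (Qd nm ball mem_ball)
open Pool.Agent.W78.EC (Gi SP)
open Pool.Agent.W991.EC (hD)
open Pool.Agent.TH890.DV (LogNull)

open scoped Classical in
/-- the number of the integer points `(x, y)` with `1 ≤ x ^ 2 + y ^ 2 ≤ X` and `Q (x ^ 2 + y ^ 2)` -/
noncomputable def dc (Q : ℕ → Prop) (X : ℕ) : ℕ :=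
  ((Icc (-(X : ℤ)) X ×ˢ Icc (-(X : ℤ)) X).filter (fun z : ℤ × ℤ => 1 ≤ z.1 ^ 2 + z.2 ^ 2 ∧
    z.1 ^ 2 + z.2 ^ 2 ≤ X ∧ Q (z.1 ^ 2 + z.2 ^ 2).toNat)).card

open scoped Classical in
theorem dc_eq (Q : ℕ → Prop) (X : ℕ) :
    dc Q X = ((ball 0 1 (X : ℝ)).filter (fun z : Gi => Q (nm z))).card := by
  unfold dc
  symm
  refine Finset.card_bij (fun (z : Gi) _ => ((z.re, z.im) : ℤ × ℤ)) ?_ ?_ ?_
  · intro z hz
    rw [mem_filter, mem_ball hD] at hz
    obtain ⟨⟨h1, h2⟩, h3⟩ := hz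
    have h4 : (nm z : ℤ) = z.re ^ 2 + z.im ^ 2 := nmZ z
    have h5 : nm z ≤ X := by exact_mod_cast h2
    rw [mem_filter, mem_product, mem_Icc, mem_Icc]
    have h6 : z.re ^ 2 + z.im ^ 2 ≤ X := by rw [← h4]; exact_mod_cast h5
    have hX0 : (0 : ℤ) ≤ X := by positivity
    have h7 : ∀ w : ℤ, w ^ 2 ≤ X → -(X : ℤ) ≤ w ∧ w ≤ X := by
      intro w hw
      constructor <;> nlinarith [sq_nonneg (w - 1), sq_nonneg (w + 1), sq_nonneg w]
    refine ⟨⟨h7 _ (by nlinarith [sq_nonneg z.im]), h7 _ (by nlinarith [sq_nonneg z.re])⟩, ?_, h6, ?_⟩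
    · rw [← h4]; exact_mod_cast h1
    · rw [← h4]
      exact h3
  · intro z _ w _ h
    simp only [Prod.mk.injEq] at h
    exact QuadraticAlgebra.ext h.1 h.2
  · rintro ⟨x, y⟩ hxy
    rw [mem_filter] at hxy
    obtain ⟨-, h1, h2, h3⟩ := hxy
    refine ⟨⟨x, y⟩, ?_, rfl⟩
    have h4 : (nm (⟨x, y⟩ : Gi) : ℤ) = x ^ 2 + y ^ 2 := nmZ _
    rw [mem_filter, mem_ball hD]
    refine ⟨⟨?_, ?_⟩, ?_⟩
    · simp only at h1
      rw [← h4] at h1
      exact_mod_cast h1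
    · simp only at h2
      rw [← h4] at h2
      exact_mod_cast h2
    · simp only at h3
      rw [← h4] at h3
      exact h3

open scoped Classical in
theorem av_eq {ι : Type} (b : ι → ℝ) (E : Set (ι → Finset ℕ)) (X : ℕ) :
    av (ev b E) X = (dc (fun m => (fun j => Lf (b j) m) ∈ E) X : ℝ) / (dc (fun _ => True) X : ℝ) := by
  rw [dc_eq, dc_eq]
  unfold av avg ev
  rw [Finset.sum_boole]
  congr 2
  simp

theorem ev_one {ι : Type} (b : ι → ℝ) (E : Set (ι → Finset ℕ)) (m : ℕ) :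
    ev b E m = 1 ↔ (fun j => Lf (b j) m) ∈ E := by
  classical
  unfold ev
  split_ifs with h1
  · exact ⟨fun _ => h1, fun _ => rfl⟩
  · exact ⟨fun h2 => absurd h2 zero_ne_one, fun h2 => absurd h2 h1⟩

end Pool.Agent.T2H34
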