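import Pool.Agent.T2H34.OutA

/-!
The cofactor.
-/

set_option autoImplicit false

namespace Pool.Agent.T2H34

open Finset Filter
open Pool.Agent.TH890.DV (LogNull)

/-- the cofactor of the prescribed primes -/
theorem cofac {r s : ℕ} {u v : Fin r → ℝ} {P : Fin r → Set ℕ} {u' v' : Fin s → ℝ}
    {P' : Fin s → Set ℕ} {k j X n : ℕ} (hX : 1 ≤ X) (hn : n ≤ X) (h : Gd u v P u' v' P' k j X n) :
    ArithmeticFunction.cardFactors (n ^ 2 + 1) ≡ j [MOD k] ∧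
    ∃ (p : Fin r → ℕ) (q : Fin s → ℕ) (w : ℕ), Function.Injective p ∧ Function.Injective q ∧
      n ^ 2 + 1 = w * (∏ i, p i) * (∏ i, q i) ∧
      (w : ℝ) ≤ 2 * (X : ℝ) ^ (2 - ∑ i, u i - ∑ i, u' i) ∧
      (∀ i, (p i).Prime ∧ p i ∈ P i ∧ (X : ℝ) ^ u i < p i ∧ (p i : ℝ) ≤ (X : ℝ) ^ v i) ∧
      (∀ i, (q i).Prime ∧ q i ∈ P' i ∧ (X : ℝ) ^ u' i < q i ∧ (q i : ℝ) ≤ (X : ℝ) ^ v' i) := by
  obtain ⟨h1, p, q, h2, h3, h4, h5, w, h6⟩ := h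
  refine ⟨h1, p, q, w, h2, h3, by rw [h6]; ring, ?_, h4, h5⟩
  have hX1 : (1 : ℝ) ≤ X := by exact_mod_cast hX
  have hX0 : (0 : ℝ) < X := by linarith
  have hp : (X : ℝ) ^ (∑ i, u i) ≤ ∏ i, (p i : ℝ) := by
    rw [Real.rpow_sum_of_pos hX0]
    exact Finset.prod_le_prod (fun i _ => by positivity) (fun i _ => (h4 i).2.2.1.le)
  have hq : (X : ℝ) ^ (∑ i, u' i) ≤ ∏ i, (q i : ℝ) := by
    rw [Real.rpow_sum_of_pos hX0]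
    exact Finset.prod_le_prod (fun i _ => by positivity) (fun i _ => (h5 i).2.2.1.le)
  have hn' : (n : ℝ) ≤ X := by exact_mod_cast hn
  have e1 : ((n : ℝ) ^ 2 + 1) = (∏ i, (p i : ℝ)) * (∏ i, (q i : ℝ)) * w := by exact_mod_cast h6
  have e2 : (n : ℝ) ^ 2 + 1 ≤ 2 * (X : ℝ) ^ (2 : ℝ) := by
    rw [Real.rpow_two]
    have : (0 : ℝ) ≤ n := Nat.cast_nonneg _
    nlinarith
  have e3 : (X : ℝ) ^ (2 - ∑ i, u i - ∑ i, u' i) * (X : ℝ) ^ (∑ i, u i) * (X : ℝ) ^ (∑ i, u' i) =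
      (X : ℝ) ^ (2 : ℝ) := by
    rw [← Real.rpow_add hX0, ← Real.rpow_add hX0]
    congr 1
    ring
  have e4 : (X : ℝ) ^ (∑ i, u i) * (X : ℝ) ^ (∑ i, u' i) ≤ (∏ i, (p i : ℝ)) * (∏ i, (q i : ℝ)) :=
    mul_le_mul hp hq (by positivity) (le_trans (by positivity) hp)
  have e5 : 0 < (X : ℝ) ^ (∑ i, u i) * (X : ℝ) ^ (∑ i, u' i) := by positivity
  have e6 : (w : ℝ) * ((X : ℝ) ^ (∑ i, u i) * (X : ℝ) ^ (∑ i, u' i)) ≤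
      2 * (X : ℝ) ^ (2 - ∑ i, u i - ∑ i, u' i) * ((X : ℝ) ^ (∑ i, u i) * (X : ℝ) ^ (∑ i, u' i)) := by
    calc (w : ℝ) * ((X : ℝ) ^ (∑ i, u i) * (X : ℝ) ^ (∑ i, u' i)) ≤
        w * ((∏ i, (p i : ℝ)) * (∏ i, (q i : ℝ))) :=
          mul_le_mul_of_nonneg_left e4 (Nat.cast_nonneg _)
      _ = (n : ℝ) ^ 2 + 1 := by rw [e1]; ring
      _ ≤ 2 * (X : ℝ) ^ (2 : ℝ) := e2
      _ = _ := by rw [← e3]; ring
  exact le_of_mul_le_mul_right e6 e5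

end Pool.Agent.T2H34
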