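import Pool.Agent.T2H34.DhRg2

/-!
The numbers of prime factors of `(n + t d)² + 1`.
-/

set_option autoImplicit false

namespace Pool.Agent.T2H34.Dh

open Finset Filter
open ArithmeticFunction (cardFactors)
open Pool.Agent.TH890.DV (LogNull)

/-- number of prime factors of `(n + t d)² + 1` -/
def Wt (t : ℕ) (p : ℕ × ℕ) : ℕ := cardFactors ((p.2 + t * p.1) ^ 2 + 1)

lemma Wt_eq {X t : ℕ} {p : ℕ × ℕ} (hp : p ∈ DD X) : Wt t p = Od p + Om t p := by
  obtain ⟨h1, h2, h3, h4⟩ := mem_DD.1 hp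
  have h5 : p.1 ∣ (p.2 + t * p.1) ^ 2 + 1 := by
    obtain ⟨c, hc⟩ := h4
    refine ⟨c + 2 * t * p.2 + t ^ 2 * p.1, ?_⟩
    have : (p.2 + t * p.1) ^ 2 + 1 = (p.2 ^ 2 + 1) + p.1 * (2 * t * p.2 + t ^ 2 * p.1) := by ring
    rw [this, hc]
    ring
  obtain ⟨m, hm⟩ := h5
  unfold Wt Od Om mt
  have h6 : m ≠ 0 := by
    rintro rfl
    simp at hm
  rw [hm, Nat.mul_div_cancel_left m (by omega), ArithmeticFunction.cardFactors_mul (by omega) h6]

/-- the parities of the numbers of prime factors of `(n + t d)² + 1`, `(n + s d)² + 1` -/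
theorem sml_W {t s : ℕ} (hts : t ≠ s) : Sml 2 (Wt t) (Wt s) := by
  intro b₁ b₂ h1 h2 h3
  have hneg : ((-1 : ℂ)) ^ 2 = 1 := by norm_num
  have hne : ((-1 : ℂ)) ≠ 1 := by norm_num
  have hpp : ∀ a : ℕ, ((-1 : ℂ)) ^ a * ((-1 : ℂ)) ^ a = 1 := by
    intro a
    rw [← mul_pow]
    norm_num
  rcases sq_eq_one_iff.1 h1 with rfl | rfl
  · rcases sq_eq_one_iff.1 h2 with rfl | rfl
    · rcases h3 with h3 | h3 <;> exact absurd rfl h3
    · have h4 := sml_md (k := 2) (by norm_num) s (-1) (-1) hneg hneg (Or.inl hne)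
      refine Ls.mono (fun X => le_of_eq ?_) h4
      congr 1
      unfold Sg
      refine sum_congr rfl fun p hp => ?_
      rw [Wt_eq (t := s) hp, pow_add, one_pow]
      ring
  · rcases sq_eq_one_iff.1 h2 with rfl | rfl
    · have h4 := sml_md (k := 2) (by norm_num) t (-1) (-1) hneg hneg (Or.inl hne)
      refine Ls.mono (fun X => le_of_eq ?_) h4
      congr 1
      unfold Sg
      refine sum_congr rfl fun p hp => ?_
      rw [Wt_eq hp, pow_add, one_pow]
      ring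
    · have h4 := sml_mt (k := 2) (by norm_num) hts (-1) (-1) hneg hneg (Or.inl hne)
      refine Ls.mono (fun X => le_of_eq ?_) h4
      congr 1
      unfold Sg
      refine sum_congr rfl fun p hp => ?_
      rw [Wt_eq hp, Wt_eq hp, pow_add, pow_add]
      linear_combination ((-1 : ℂ)) ^ Om t p * ((-1 : ℂ)) ^ Om s p * hpp (Od p)

open scoped Classical in
/-- almost all bounded progressions -/
theorem aaW {k : ℕ} (hk : 1 ≤ k) (S : Finset ℕ) {ε : ℝ} (hε : 0 < ε)
    (hS : 2 * k / ε ^ 3 ≤ (S.card : ℝ)) :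
    LogNull (fun X => ε * ((DD X).card : ℝ) < (((DD X).filter (fun p => ∃ j : ℕ,
      ε * S.card < |((S.filter (fun t => Wt t p ≡ j [MOD k])).card : ℝ) -
        (S.card : ℝ) / k|)).card : ℝ)) := by
  have h := aa hk S Od Om (fun t _ s _ hts => sml_mt hk hts) hε hS
  refine LogNull.of_ev 0 ?_ h
  intro X _ h1
  refine lt_of_lt_of_le h1 (le_of_eq ?_)
  congr 2
  apply filter_congr
  intro p hp
  constructor
  · rintro ⟨j, hj⟩
    refine ⟨j, ?_⟩
    simp only [Wt_eq hp] at hj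
    exact hj
  · rintro ⟨j, hj⟩
    refine ⟨j, ?_⟩
    simp only [Wt_eq hp]
    exact hj

end Pool.Agent.T2H34.Dh
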