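import Pool.Agent.T2H34.DhMany

/-!
Bessel's inequality: a bounded function correlates with few of the shifts.
-/

set_option autoImplicit false

namespace Pool.Agent.T2H34.Dh

open Finset Filter
open ArithmeticFunction (cardFactors)
open Pool.Agent.TH890.DV (LogNull)

lemma bess (x : ℕ → ℕ × ℕ → ℕ) (F : ℕ × ℕ → ℝ) (hF : ∀ p, |F p| ≤ 1) (C : Finset ℕ) (X : ℕ)
    (hX : (0 : ℝ) < (DD X).card) {η : ℝ} (hη : 0 < η)
    (hC : ∀ c ∈ C, η * ((DD X).card : ℝ) < |∑ p ∈ DD X, F p * sg (x c p)|)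
    (hD : ∑ e ∈ C.offDiag, |∑ p ∈ DD X, sg (x e.1 p) * sg (x e.2 p)| ≤ (DD X).card) :
    (C.card : ℝ) ≤ 2 / η ^ 2 := by
  classical
  rcases Nat.eq_zero_or_pos C.card with h0 | h0
  · rw [h0]
    push_cast
    positivity
  have hC1 : (1 : ℝ) ≤ C.card := by exact_mod_cast h0
  obtain ⟨s, hs⟩ : ∃ s : ℕ → ℝ, s = fun c => if 0 ≤ ∑ p ∈ DD X, F p * sg (x c p) then 1 else -1 :=
    ⟨_, rfl⟩
  have hs1 : ∀ c, s c = 1 ∨ s c = -1 := by
    intro c
    rw [hs]
    simp only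
    split_ifs
    · exact Or.inl rfl
    · exact Or.inr rfl
  have hs2 : ∀ c, |∑ p ∈ DD X, F p * sg (x c p)| = s c * ∑ p ∈ DD X, F p * sg (x c p) := by
    intro c
    rw [hs]
    simp only
    split_ifs with h
    · rw [abs_of_nonneg h, one_mul]
    · rw [abs_of_neg (not_le.1 h)]
      ring
  have h1 : (C.card : ℝ) * (η * (DD X).card) ≤ ∑ p ∈ DD X, F p * ∑ c ∈ C, s c * sg (x c p) := by
    have h2 : ∑ p ∈ DD X, F p * ∑ c ∈ C, s c * sg (x c p) =
        ∑ c ∈ C, |∑ p ∈ DD X, F p * sg (x c p)| := by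
      rw [sum_congr rfl fun c _ => hs2 c]
      simp only [mul_sum]
      rw [sum_comm]
      refine sum_congr rfl fun c _ => sum_congr rfl fun p _ => ?_
      ring
    rw [h2, ← nsmul_eq_mul, ← sum_const]
    exact sum_le_sum fun c hc => (hC c hc).le
  have h2 : (∑ p ∈ DD X, F p * ∑ c ∈ C, s c * sg (x c p)) ^ 2 ≤
      (∑ p ∈ DD X, F p ^ 2) * ∑ p ∈ DD X, (∑ c ∈ C, s c * sg (x c p)) ^ 2 :=
    sum_mul_sq_le_sq_mul_sq _ _ _
  have h3 : ∑ p ∈ DD X, F p ^ 2 ≤ (DD X).card := by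
    have : ∀ p ∈ DD X, F p ^ 2 ≤ 1 := by
      intro p _
      rw [← sq_abs]
      exact pow_le_one₀ (abs_nonneg _) (hF p)
    refine (sum_le_sum this).trans ?_
    simp
  have h4 : ∑ p ∈ DD X, (∑ c ∈ C, s c * sg (x c p)) ^ 2 ≤ (C.card : ℝ) * (DD X).card +
      (DD X).card := by
    have e1 : ∀ p : ℕ × ℕ, (∑ c ∈ C, s c * sg (x c p)) ^ 2 = ∑ e ∈ C ×ˢ C,
        (s e.1 * s e.2) * (sg (x e.1 p) * sg (x e.2 p)) := by
      intro p
      rw [sq, sum_mul_sum, ← sum_product']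
      exact sum_congr rfl fun e _ => by ring
    rw [sum_congr rfl fun p _ => e1 p, sum_comm, ← diag_union_offDiag,
      sum_union (disjoint_diag_offDiag C)]
    apply add_le_add
    · have : ∀ e ∈ C.diag, ∑ p ∈ DD X, s e.1 * s e.2 * (sg (x e.1 p) * sg (x e.2 p)) =
          (DD X).card := by
        intro e he
        rw [mem_diag] at he
        have : ∀ p ∈ DD X, s e.1 * s e.2 * (sg (x e.1 p) * sg (x e.2 p)) = 1 := by
          intro p _
          rw [← he.2, sg_mul_self]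
          rcases hs1 e.1 with h | h <;> rw [h] <;> norm_num
        rw [sum_congr rfl this]
        simp
      rw [sum_congr rfl this, sum_const, nsmul_eq_mul, diag_card]
    · refine le_trans (sum_le_sum fun e _ => ?_) hD
      rw [← mul_sum]
      have h5 : s e.1 * s e.2 = 1 ∨ s e.1 * s e.2 = -1 := by
        rcases hs1 e.1 with h | h <;> rcases hs1 e.2 with h' | h' <;> rw [h, h'] <;> norm_num
      rcases h5 with h5 | h5 <;> rw [h5]
      · rw [one_mul]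
        exact le_abs_self _
      · rw [neg_one_mul]
        exact neg_le_abs _
  have h5 : ((C.card : ℝ) * (η * (DD X).card)) ^ 2 ≤
      ((DD X).card : ℝ) * ((C.card : ℝ) * (DD X).card + (DD X).card) := by
    refine (pow_le_pow_left₀ (by positivity) h1 2).trans (h2.trans ?_)
    exact mul_le_mul h3 h4 (sum_nonneg fun p _ => by positivity) (Nat.cast_nonneg _)
  have h6 : ((C.card : ℝ) * η ^ 2) * (C.card * ((DD X).card : ℝ) ^ 2) ≤
      2 * (C.card * ((DD X).card : ℝ) ^ 2) := by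
    have : ((DD X).card : ℝ) ^ 2 ≤ C.card * ((DD X).card : ℝ) ^ 2 := by
      nlinarith [sq_nonneg ((DD X).card : ℝ)]
    nlinarith
  rw [le_div_iff₀ (by positivity)]
  exact le_of_mul_le_mul_right h6 (by positivity)

open scoped Classical in
/-- three shifts: two arbitrary, almost all third shifts -/
theorem third (x : ℕ → ℕ × ℕ → ℕ) (hx : ∀ t s : ℕ, t ≠ s → Sml 2 (x t) (x s)) {a b : ℕ}
    (hab : a ≠ b) (S : Finset ℕ) {η : ℝ} (hη : 0 < η) :
    LogNull (fun X => 2 / η ^ 2 < ((S.filter (fun c => c ≠ a ∧ c ≠ b ∧ ∃ i₀ i₁ i₂ : ℕ,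
      η * ((DD X).card : ℝ) < |(((DD X).filter (fun p => x a p ≡ i₀ [MOD 2] ∧
        x b p ≡ i₁ [MOD 2] ∧ x c p ≡ i₂ [MOD 2])).card : ℝ) - (DD X).card / 8|)).card : ℝ)) := by
  obtain ⟨D₁, hD₁⟩ : ∃ D : ℕ → ℝ, D = fun X => ∑ e ∈ S.offDiag,
    |∑ p ∈ DD X, sg (x e.1 p) * sg (x e.2 p)| := ⟨_, rfl⟩
  obtain ⟨S', hS'⟩ : ∃ S' : Finset ℕ, S' = S.filter (fun c => c ≠ a ∧ c ≠ b) := ⟨_, rfl⟩
  obtain ⟨D₂, hD₂⟩ : ∃ D : ℕ → ℝ, D = fun X => ∑ c ∈ S',
    ((|∑ p ∈ DD X, sg (x a p)| + |∑ p ∈ DD X, sg (x b p)| + |∑ p ∈ DD X, sg (x c p)|) +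
    (|∑ p ∈ DD X, sg (x a p) * sg (x b p)| + |∑ p ∈ DD X, sg (x a p) * sg (x c p)| +
      |∑ p ∈ DD X, sg (x b p) * sg (x c p)|)) := ⟨_, rfl⟩
  have hL₁ : Ls D₁ := by
    rw [hD₁]
    refine Ls.sum _ fun e he => ?_
    rw [mem_offDiag] at he
    exact (hx _ _ he.2.2).two
  have hL₂ : Ls D₂ := by
    rw [hD₂]
    refine Ls.sum _ fun c hc => ?_
    rw [hS', mem_filter] at hc
    have a1 := hx a b hab
    have a2 := hx a c hc.2.1.symm
    have a3 := hx b c hc.2.2.symm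
    exact ((a1.one.add a1.symm.one).add a2.symm.one).add ((a1.two.add a2.two).add a3.two)
  have h01 : ∀ X, 0 ≤ D₁ X := by
    intro X
    rw [hD₁]
    exact sum_nonneg fun e _ => abs_nonneg _
  have h02 : ∀ X, 0 ≤ D₂ X := by
    intro X
    rw [hD₂]
    exact sum_nonneg fun e _ => by positivity
  refine LogNull.of_ev 1 ?_ (LogNull.of_or (R := fun X => (1 : ℝ) * ((DD X).card : ℝ) < D₁ X ∨
    7 * η * ((DD X).card : ℝ) < D₂ X) (fun X h => h) (null_dd h01 hL₁ (ε := 1) one_pos)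
    (null_dd h02 hL₂ (ε := 7 * η) (by positivity)))
  intro X hX1 h1
  by_contra hcon
  push Not at hcon
  obtain ⟨c1, c2⟩ := hcon
  rw [one_mul] at c1
  have hDD0 : (0 : ℝ) < (DD X).card := by
    have : (1, 0) ∈ DD X := by
      rw [mem_DD]
      exact ⟨le_rfl, hX1, by norm_num, by norm_num⟩
    exact_mod_cast card_pos.2 ⟨_, this⟩
  obtain ⟨C, hC⟩ : ∃ C : Finset ℕ, C = S.filter (fun c => c ≠ a ∧ c ≠ b ∧ ∃ i₀ i₁ i₂ : ℕ,
      η * ((DD X).card : ℝ) < |(((DD X).filter (fun p => x a p ≡ i₀ [MOD 2] ∧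
        x b p ≡ i₁ [MOD 2] ∧ x c p ≡ i₂ [MOD 2])).card : ℝ) - (DD X).card / 8|) := ⟨_, rfl⟩
  rw [← hC] at h1
  have hCS : C ⊆ S := by
    rw [hC]
    exact filter_subset _ _
  have hb := bess x (fun p => sg (x a p) * sg (x b p)) (fun p => by
      rw [abs_mul]
      rcases sg_cases (x a p) with h | h <;> rcases sg_cases (x b p) with h' | h' <;>
        rw [h, h'] <;> norm_num) C X hDD0 hη (by
      intro c hc
      rw [hC, mem_filter] at hc
      obtain ⟨hcS, hca, hcb, i₀, i₁, i₂, hi⟩ := hc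
      have e1 := cnt3 (x a) (x b) (x c) i₀ i₁ i₂ X
      have hc' : c ∈ S' := by
        rw [hS', mem_filter]
        exact ⟨hcS, hca, hcb⟩
      have h2 : (|∑ p ∈ DD X, sg (x a p)| + |∑ p ∈ DD X, sg (x b p)| + |∑ p ∈ DD X, sg (x c p)|) +
          (|∑ p ∈ DD X, sg (x a p) * sg (x b p)| + |∑ p ∈ DD X, sg (x a p) * sg (x c p)| +
          |∑ p ∈ DD X, sg (x b p) * sg (x c p)|) ≤ 7 * η * ((DD X).card : ℝ) := by
        refine le_trans ?_ c2
        rw [hD₂]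
        exact single_le_sum (f := fun c =>
          ((|∑ p ∈ DD X, sg (x a p)| + |∑ p ∈ DD X, sg (x b p)| + |∑ p ∈ DD X, sg (x c p)|) +
          (|∑ p ∈ DD X, sg (x a p) * sg (x b p)| + |∑ p ∈ DD X, sg (x a p) * sg (x c p)| +
          |∑ p ∈ DD X, sg (x b p) * sg (x c p)|))) (fun c _ => by positivity) hc'
      by_contra hcon2
      push Not at hcon2
      have e2 : 8 * ((((DD X).filter (fun p => x a p ≡ i₀ [MOD 2] ∧
        x b p ≡ i₁ [MOD 2] ∧ x c p ≡ i₂ [MOD 2])).card : ℝ) - (DD X).card / 8) =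
        sg i₀ * ∑ p ∈ DD X, sg (x a p) + sg i₁ * ∑ p ∈ DD X, sg (x b p) +
        sg i₂ * ∑ p ∈ DD X, sg (x c p) +
        sg i₀ * sg i₁ * ∑ p ∈ DD X, sg (x a p) * sg (x b p) +
        sg i₀ * sg i₂ * ∑ p ∈ DD X, sg (x a p) * sg (x c p) +
        sg i₁ * sg i₂ * ∑ p ∈ DD X, sg (x b p) * sg (x c p) +
        sg i₀ * sg i₁ * sg i₂ * ∑ p ∈ DD X, sg (x a p) * sg (x b p) * sg (x c p) := by
        linear_combination e1
      have hab' : ∀ s y : ℝ, (s = 1 ∨ s = -1) → |s * y| ≤ |y| := by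
        rintro s y (rfl | rfl)
        · rw [one_mul]
        · rw [neg_one_mul, abs_neg]
      have hss : ∀ m n : ℕ, sg m * sg n = 1 ∨ sg m * sg n = -1 := by
        intro m n
        rw [← sg_add]
        exact sg_cases _
      have hsss : sg i₀ * sg i₁ * sg i₂ = 1 ∨ sg i₀ * sg i₁ * sg i₂ = -1 := by
        rw [← sg_add, ← sg_add]
        exact sg_cases _
      have r1 := hab' _ (∑ p ∈ DD X, sg (x a p)) (sg_cases i₀)
      have r2 := hab' _ (∑ p ∈ DD X, sg (x b p)) (sg_cases i₁)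
      have r3 := hab' _ (∑ p ∈ DD X, sg (x c p)) (sg_cases i₂)
      have r4 := hab' _ (∑ p ∈ DD X, sg (x a p) * sg (x b p)) (hss i₀ i₁)
      have r5 := hab' _ (∑ p ∈ DD X, sg (x a p) * sg (x c p)) (hss i₀ i₂)
      have r6 := hab' _ (∑ p ∈ DD X, sg (x b p) * sg (x c p)) (hss i₁ i₂)
      have r7 := hab' _ (∑ p ∈ DD X, sg (x a p) * sg (x b p) * sg (x c p)) hsss
      have h8 : |8 * ((((DD X).filter (fun p => x a p ≡ i₀ [MOD 2] ∧
        x b p ≡ i₁ [MOD 2] ∧ x c p ≡ i₂ [MOD 2])).card : ℝ) - (DD X).card / 8)| ≤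
        8 * (η * ((DD X).card : ℝ)) := by
        rw [e2]
        refine (abs_add_le _ _).trans ?_
        refine (add_le_add ((abs_add_le _ _).trans (add_le_add ((abs_add_le _ _).trans (add_le_add
          ((abs_add_le _ _).trans (add_le_add ((abs_add_le _ _).trans (add_le_add
          ((abs_add_le _ _).trans (add_le_add r1 r2)) r3)) r4)) r5)) r6)) r7).trans ?_
        linarith
      rw [abs_mul, abs_of_pos (by norm_num : (0 : ℝ) < 8)] at h8
      linarith) (by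
      refine le_trans ?_ c1
      rw [hD₁]
      refine sum_le_sum_of_subset_of_nonneg (offDiag_mono hCS) fun e _ _ => abs_nonneg _)
  linarith

end Pool.Agent.T2H34.Dh
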