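import Mathlib
import Pool.Agent.H376R2.MR.Defs

/-!
A uniform boundedness principle: a bound which holds for every bounded sequence holds uniformly.
-/

set_option autoImplicit false

namespace Pool.Agent.T2H34

open Finset
open Pool.Agent.H376R2.MR (FK)

theorem FKm {a b : ℕ} (h : a ≤ b) : FK a ⊆ FK b := by
  unfold FK
  intro x hx
  rw [mem_Ioo] at hx ⊢
  omega

theorem FKe {Y a b : ℝ} (hY : 0 ≤ Y) (ha : 0 < a) (h : a ≤ b) :
    (FK ⌊Y / b⌋₊).erase 0 ⊆ (FK ⌊Y / a⌋₊).erase 0 :=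
  Finset.erase_subset_erase _ (FKm (Nat.floor_le_floor (div_le_div_of_nonneg_left hY ha h)))

/-- the space of the sequences bounded by `1` -/
abbrev BX := ℕ → Metric.closedBall (0 : ℂ) 1

/-- the sequence -/
def toF (x : BX) : ℕ → ℂ := fun n => (x n : ℂ)

theorem toF_le (x : BX) (n : ℕ) : ‖toF x n‖ ≤ 1 := by
  have := (x n).2
  rw [Metric.mem_closedBall, dist_zero_right] at this
  exact this

theorem baire_uni (T : (ℕ → ℂ) → ℝ → ℤ → ℂ)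
    (hlin : ∀ (a b : ℂ) (g g' : ℕ → ℂ) (Y : ℝ) (k : ℤ),
      T (fun n => a * g n + b * g' n) Y k = a * T g Y k + b * T g' Y k)
    (hcont : ∀ (Y : ℝ) (k : ℤ), Continuous (fun g => T g Y k))
    (h : ∀ g : ℕ → ℂ, (∀ n, ‖g n‖ ≤ 1) → ∀ η : ℝ, 0 < η → ∃ h : ℝ, 1 ≤ h ∧ ∃ Y₀ : ℝ, ∀ Y : ℝ,
      Y₀ ≤ Y → ∑ k ∈ (FK ⌊Y / h⌋₊).erase 0, ‖T g Y k‖ ^ 2 ≤ η) (η : ℝ) (hη : 0 < η) :
    ∃ h : ℝ, 1 ≤ h ∧ ∃ Y₀ : ℝ, ∀ g : ℕ → ℂ, (∀ n, ‖g n‖ ≤ 1) → ∀ Y : ℝ, Y₀ ≤ Y →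
      ∑ k ∈ (FK ⌊Y / h⌋₊).erase 0, ‖T g Y k‖ ^ 2 ≤ η := by
  classical
  have hη1 : 0 < η / 16 := by positivity
  obtain ⟨E, hEd⟩ : ∃ E : ℕ → Set BX, E = fun (n : ℕ) => {x : BX | ∀ Y : ℝ, (n : ℝ) + 1 ≤ Y →
    ∑ k ∈ (FK ⌊Y / ((n : ℝ) + 1)⌋₊).erase 0, ‖T (toF x) Y k‖ ^ 2 ≤ η / 16} := ⟨_, rfl⟩
  have hclosed : ∀ n, IsClosed (E n) := by
    intro n
    have e : E n = ⋂ Y : ℝ, ⋂ _ : (n : ℝ) + 1 ≤ Y, {x : BX |
        ∑ k ∈ (FK ⌊Y / ((n : ℝ) + 1)⌋₊).erase 0, ‖T (toF x) Y k‖ ^ 2 ≤ η / 16} := by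
      rw [hEd]
      ext x
      simp only [Set.mem_setOf_eq, Set.mem_iInter]
    rw [e]
    refine isClosed_iInter fun Y => isClosed_iInter fun _ => ?_
    refine isClosed_le ?_ continuous_const
    refine continuous_finsetSum _ fun k _ => ?_
    refine Continuous.pow (Continuous.norm ?_) 2
    refine (hcont Y k).comp ?_
    unfold toF
    fun_prop
  have hunion : ⋃ n, E n = Set.univ := by
    rw [Set.eq_univ_iff_forall]
    intro x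
    rw [Set.mem_iUnion]
    obtain ⟨h₀, hh₀, Y₀, hY₀⟩ := h (toF x) (toF_le x) (η / 16) hη1
    refine ⟨max ⌈h₀⌉₊ ⌈Y₀⌉₊, ?_⟩
    rw [hEd]
    intro Y hY
    have e1 : h₀ ≤ (((max ⌈h₀⌉₊ ⌈Y₀⌉₊ : ℕ) : ℝ)) + 1 := by
      have a1 := Nat.le_ceil h₀
      have a2 : ((⌈h₀⌉₊ : ℕ) : ℝ) ≤ ((max ⌈h₀⌉₊ ⌈Y₀⌉₊ : ℕ) : ℝ) := by
        exact_mod_cast le_max_left _ _
      linarith
    have e2 : Y₀ ≤ (((max ⌈h₀⌉₊ ⌈Y₀⌉₊ : ℕ) : ℝ)) + 1 := by
      have a1 := Nat.le_ceil Y₀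
      have a2 : ((⌈Y₀⌉₊ : ℕ) : ℝ) ≤ ((max ⌈h₀⌉₊ ⌈Y₀⌉₊ : ℕ) : ℝ) := by
        exact_mod_cast le_max_right _ _
      linarith
    have hYn : (0 : ℝ) ≤ Y := by
      have : (0 : ℝ) ≤ ((max ⌈h₀⌉₊ ⌈Y₀⌉₊ : ℕ) : ℝ) := Nat.cast_nonneg _
      linarith
    refine le_trans (Finset.sum_le_sum_of_subset_of_nonneg (FKe hYn (by linarith) e1)
      (fun _ _ _ => by positivity)) (hY₀ Y (e2.trans hY))
  obtain ⟨n, x₀, hx₀⟩ := nonempty_interior_of_iUnion_of_closed hclosed hunion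
  rw [mem_interior] at hx₀
  obtain ⟨U, hUE, hUo, hxU⟩ := hx₀
  obtain ⟨I, u, hu, hIu⟩ := isOpen_pi_iff.1 hUo x₀ hxU
  -- the coordinates in `I`
  obtain ⟨η₂, hη₂⟩ : ∃ η₂ : ℝ, η₂ = η / (4 * ((I.card : ℝ) + 1) ^ 2) := ⟨_, rfl⟩
  have hη₂0 : 0 < η₂ := by rw [hη₂]; positivity
  have hsing : ∀ i : ℕ, ∃ h : ℝ, 1 ≤ h ∧ ∃ Y₀ : ℝ, ∀ Y : ℝ, Y₀ ≤ Y →
      ∑ k ∈ (FK ⌊Y / h⌋₊).erase 0, ‖T (fun n => if n = i then 1 else 0) Y k‖ ^ 2 ≤ η₂ := by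
    intro i
    refine h _ ?_ η₂ hη₂0
    intro m
    split_ifs <;> simp
  choose hs hs1 Ys hYs using hsing
  refine ⟨(n : ℝ) + 1 + ∑ i ∈ I, hs i, ?_, (n : ℝ) + 1 + ∑ i ∈ I, |Ys i|, ?_⟩
  · have : 0 ≤ ∑ i ∈ I, hs i := sum_nonneg fun i _ => by linarith [hs1 i]
    have : (0 : ℝ) ≤ n := Nat.cast_nonneg _
    linarith
  intro g hg Y hY
  have hsum0 : 0 ≤ ∑ i ∈ I, hs i := sum_nonneg fun i _ => by linarith [hs1 i]
  have hsum1 : 0 ≤ ∑ i ∈ I, |Ys i| := sum_nonneg fun i _ => abs_nonneg _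
  have hn0 : (0 : ℝ) ≤ n := Nat.cast_nonneg _
  have hY0 : 0 ≤ Y := by linarith
  obtain ⟨H, hH⟩ : ∃ H : ℝ, H = (n : ℝ) + 1 + ∑ i ∈ I, hs i := ⟨_, rfl⟩
  rw [← hH]
  -- the two points of the neighbourhood
  obtain ⟨x₁, hx₁⟩ : ∃ x₁ : BX, x₁ = fun i => if i ∈ I then x₀ i else
      ⟨g i, by rw [Metric.mem_closedBall, dist_zero_right]; exact hg i⟩ := ⟨_, rfl⟩
  obtain ⟨x₂, hx₂⟩ : ∃ x₂ : BX, x₂ = fun i => if i ∈ I then x₀ i else
      ⟨0, by rw [Metric.mem_closedBall, dist_zero_right, norm_zero]; exact zero_le_one⟩ :=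
    ⟨_, rfl⟩
  have hx₁E : x₁ ∈ E n := by
    refine hUE (hIu ?_)
    intro i hi
    have : x₁ i = x₀ i := by rw [hx₁]; exact if_pos hi
    rw [this]
    exact (hu i hi).2
  have hx₂E : x₂ ∈ E n := by
    refine hUE (hIu ?_)
    intro i hi
    have : x₂ i = x₀ i := by rw [hx₂]; exact if_pos hi
    rw [this]
    exact (hu i hi).2
  rw [hEd] at hx₁E hx₂E
  have b1 := hx₁E Y (by linarith)
  have b2 := hx₂E Y (by linarith)
  have hsub : (FK ⌊Y / H⌋₊).erase 0 ⊆ (FK ⌊Y / ((n : ℝ) + 1)⌋₊).erase 0 :=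
    FKe hY0 (by linarith) (by rw [hH]; linarith)
  have c1 := (Finset.sum_le_sum_of_subset_of_nonneg hsub (fun k _ _ =>
    (by positivity : (0 : ℝ) ≤ ‖T (toF x₁) Y k‖ ^ 2))).trans b1
  have c2 := (Finset.sum_le_sum_of_subset_of_nonneg hsub (fun k _ _ =>
    (by positivity : (0 : ℝ) ≤ ‖T (toF x₂) Y k‖ ^ 2))).trans b2
  have c3 : ∀ i ∈ I, ∑ k ∈ (FK ⌊Y / H⌋₊).erase 0,
      ‖T (fun n => if n = i then 1 else 0) Y k‖ ^ 2 ≤ η₂ := by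
    intro i hi
    have e1 : hs i ≤ ∑ i ∈ I, hs i := single_le_sum (f := hs)
      (fun j _ => by linarith [hs1 j]) hi
    have e2 : |Ys i| ≤ ∑ i ∈ I, |Ys i| := single_le_sum (f := fun i => |Ys i|)
      (fun j _ => abs_nonneg _) hi
    have e3 := le_abs_self (Ys i)
    refine (Finset.sum_le_sum_of_subset_of_nonneg (FKe hY0 (by linarith [hs1 i])
      (by rw [hH]; linarith)) (fun k _ _ => by positivity)).trans (hYs i Y (by linarith))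
  -- decomposition
  have hzero : ∀ k, T (fun _ => 0) Y k = 0 := by
    intro k
    have := hlin 0 0 (fun _ => 0) (fun _ => 0) Y k
    simpa using this
  have hsumT : ∀ (J : Finset ℕ) (k : ℤ), T (fun n => if n ∈ J then g n else 0) Y k =
      ∑ i ∈ J, g i * T (fun n => if n = i then 1 else 0) Y k := by
    intro J k
    induction J using Finset.induction_on with
    | empty =>
      simp only [notMem_empty, if_false, sum_empty]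
      exact hzero k
    | insert a J ha ih =>
      rw [sum_insert ha, ← ih]
      have e : (fun n => if n ∈ insert a J then g n else 0) =
          (fun n => g a * (if n = a then 1 else 0) + 1 * (if n ∈ J then g n else 0)) := by
        funext m
        by_cases h1 : m = a
        · subst h1
          simp [ha]
        · simp [h1]
      rw [e, hlin, one_mul]
  have hdec : ∀ k, T g Y k = (T (toF x₁) Y k - T (toF x₂) Y k) +
      ∑ i ∈ I, g i * T (fun n => if n = i then 1 else 0) Y k := by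
    intro k
    have e1 : g = fun m => 1 * (1 * toF x₁ m + (-1) * toF x₂ m) +
        1 * (if m ∈ I then g m else 0) := by
      funext m
      unfold toF
      rw [hx₁, hx₂]
      by_cases hm : m ∈ I
      · simp [hm]
      · simp [hm]
    rw [← hsumT I k]
    conv_lhs => rw [e1]
    rw [hlin 1 1 (fun m => 1 * toF x₁ m + (-1) * toF x₂ m) (fun m => if m ∈ I then g m else 0),
      hlin]
    ring
  have hpt : ∀ k, ‖T g Y k‖ ^ 2 ≤ 4 * ‖T (toF x₁) Y k‖ ^ 2 + 4 * ‖T (toF x₂) Y k‖ ^ 2 +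
      2 * (I.card * ∑ i ∈ I, ‖T (fun n => if n = i then 1 else 0) Y k‖ ^ 2) := by
    intro k
    have e1 : ‖T g Y k‖ ≤ ‖T (toF x₁) Y k‖ + ‖T (toF x₂) Y k‖ +
        ∑ i ∈ I, ‖T (fun n => if n = i then 1 else 0) Y k‖ := by
      rw [hdec]
      refine (norm_add_le _ _).trans (add_le_add (norm_sub_le _ _) ?_)
      refine (norm_sum_le _ _).trans (sum_le_sum fun i _ => ?_)
      rw [norm_mul]
      exact mul_le_of_le_one_left (norm_nonneg _) (hg i)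
    have e2 := sq_sum_le_card_mul_sum_sq (s := I)
      (f := fun i => ‖T (fun n => if n = i then 1 else 0) Y k‖)
    have e3 := pow_le_pow_left₀ (norm_nonneg _) e1 2
    obtain ⟨p, hp⟩ : ∃ p, p = ‖T (toF x₁) Y k‖ := ⟨_, rfl⟩
    obtain ⟨q, hq⟩ : ∃ q, q = ‖T (toF x₂) Y k‖ := ⟨_, rfl⟩
    obtain ⟨r, hr⟩ : ∃ r, r = ∑ i ∈ I, ‖T (fun n => if n = i then 1 else 0) Y k‖ := ⟨_, rfl⟩
    rw [← hp, ← hq, ← hr] at e3
    rw [← hr] at e2
    rw [← hp, ← hq]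
    refine e3.trans ?_
    nlinarith [sq_nonneg (p - q), sq_nonneg (p + q - r)]
  calc ∑ k ∈ (FK ⌊Y / H⌋₊).erase 0, ‖T g Y k‖ ^ 2
      ≤ ∑ k ∈ (FK ⌊Y / H⌋₊).erase 0, (4 * ‖T (toF x₁) Y k‖ ^ 2 + 4 * ‖T (toF x₂) Y k‖ ^ 2 +
        2 * (I.card * ∑ i ∈ I, ‖T (fun n => if n = i then 1 else 0) Y k‖ ^ 2)) :=
        sum_le_sum fun k _ => hpt k
    _ = 4 * ∑ k ∈ (FK ⌊Y / H⌋₊).erase 0, ‖T (toF x₁) Y k‖ ^ 2 +
        4 * ∑ k ∈ (FK ⌊Y / H⌋₊).erase 0, ‖T (toF x₂) Y k‖ ^ 2 +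
        2 * (I.card * ∑ i ∈ I, ∑ k ∈ (FK ⌊Y / H⌋₊).erase 0,
          ‖T (fun n => if n = i then 1 else 0) Y k‖ ^ 2) := by
        rw [sum_add_distrib, sum_add_distrib, ← mul_sum, ← mul_sum, ← mul_sum, ← mul_sum]
        rw [sum_comm]
    _ ≤ 4 * (η / 16) + 4 * (η / 16) + 2 * (I.card * ∑ i ∈ I, η₂) := by
        have := sum_le_sum c3
        have h2 : (I.card : ℝ) * ∑ i ∈ I, ∑ k ∈ (FK ⌊Y / H⌋₊).erase 0,
          ‖T (fun n => if n = i then 1 else 0) Y k‖ ^ 2 ≤ I.card * ∑ i ∈ I, η₂ :=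
          mul_le_mul_of_nonneg_left this (Nat.cast_nonneg _)
        linarith
    _ ≤ η := by
        rw [sum_const, nsmul_eq_mul, hη₂]
        obtain ⟨c, hc⟩ : ∃ c : ℝ, c = (I.card : ℝ) := ⟨_, rfl⟩
        have hc0 : 0 ≤ c := by rw [hc]; exact Nat.cast_nonneg _
        rw [← hc]
        have h3 : c * (c * (η / (4 * (c + 1) ^ 2))) ≤ η / 4 := by
          have h4 : c * (c * (η / (4 * (c + 1) ^ 2))) = (c ^ 2 / (c + 1) ^ 2) * (η / 4) := by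
            field_simp
          rw [h4]
          have h5 : c ^ 2 / (c + 1) ^ 2 ≤ 1 := by
            rw [div_le_one (by positivity)]
            nlinarith
          have h6 : (0 : ℝ) ≤ η / 4 := by positivity
          nlinarith
        linarith

end Pool.Agent.T2H34
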