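import Pool.Agent.W78.EC.Fix3
import Pool.Agent.W991.EC.MW0

/-!
Gaussian elements of prime norm, and products of them.
-/

set_option autoImplicit false

namespace Pool.Agent.T2H34

open Finset
open Pool.Agent.W78.GA
open Pool.Agent.W78.EC (Gi)
open Pool.Agent.W991.EC (hD mul_inj)

open scoped Classical in
/-- an element of norm `p` -/
noncomputable def gq (p : ℕ) : Gi := if h : ∃ z : Gi, nm z = p then h.choose else 1

/-- the two elements of norm `p` -/
noncomputable def gp (i : ℕ × Bool) : Gi := if i.2 then gq i.1 else star (gq i.1)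

/-- the primes which are `1` modulo `4` -/
def G4 (p : ℕ) : Prop := p.Prime ∧ p % 4 = 1

theorem nm_gq {p : ℕ} (h : G4 p) : nm (gq p) = p := by
  classical
  obtain ⟨π, r, h1, -, -⟩ := Pool.Agent.W78.EC.Fx.exists_pi h.1 h.2
  have hex : ∃ z : Gi, nm z = p := ⟨π, h1⟩
  unfold gq
  rw [dif_pos hex]
  exact hex.choose_spec

theorem nm_gp {i : ℕ × Bool} (h : G4 i.1) : nm (gp i) = i.1 := by
  unfold gp
  split_ifs
  · exact nm_gq h
  · rw [nm_star]; exact nm_gq h

theorem gp_ne {i : ℕ × Bool} (h : G4 i.1) : gp i ≠ 0 := by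
  intro h0
  have h1 := nm_gp h
  rw [h0, nm_zero] at h1
  exact h.1.ne_zero h1.symm

theorem gi_cancel {w x y : Gi} (hw : w ≠ 0) (h : w * x = w * y) : x = y := by
  have h1 : (nm w : Gi) * x = (nm w : Gi) * y := by
    rw [← star_mul_self' hD, mul_assoc, mul_assoc, h]
  exact mul_inj ((one_le_nm hD).2 hw) h1

theorem nmZ (z : Gi) : (nm z : ℤ) = z.re ^ 2 + z.im ^ 2 := by
  rw [nm_cast hD]
  ring

theorem gp_dvd {p : ℕ} (h : G4 p) {z : Gi} (hz : p ∣ nm z) :
    gp (p, true) ∣ z ∨ gp (p, false) ∣ z := by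
  have hpp : Prime (p : ℤ) := Nat.prime_iff_prime_int.1 h.1
  obtain ⟨π, hπ⟩ : ∃ π : Gi, π = gq p := ⟨_, rfl⟩
  have hn := nmZ π
  have h0 : (nm π : ℤ) = p := by rw [hπ, nm_gq h]
  rw [h0] at hn
  have hz1 : (p : ℤ) ∣ z.re ^ 2 + z.im ^ 2 := by
    rw [← nmZ]
    exact_mod_cast hz
  have hprod : (p : ℤ) ∣ (π.re * z.re + π.im * z.im) * (π.re * z.re - π.im * z.im) := by
    have e : (π.re * z.re + π.im * z.im) * (π.re * z.re - π.im * z.im) =
        π.re ^ 2 * (z.re ^ 2 + z.im ^ 2) - p * z.im ^ 2 := by rw [hn]; ring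
    rw [e]
    exact dvd_sub (hz1.mul_left _) (dvd_mul_right _ _)
  have hπ0 : π ≠ 0 := by
    intro h1
    rw [h1, nm_zero] at h0
    have := h.1.ne_zero
    omega
  rcases hpp.dvd_or_dvd hprod with h1 | h1
  · left
    have h2 : (p : ℤ) ∣ π.re * z.im - π.im * z.re := by
      apply hpp.dvd_of_dvd_pow (n := 2)
      have e : (π.re * z.im - π.im * z.re) ^ 2 = p * (z.re ^ 2 + z.im ^ 2) -
          (π.re * z.re + π.im * z.im) ^ 2 := by rw [hn]; ring
      rw [e]
      exact dvd_sub (dvd_mul_right _ _) (dvd_pow h1 two_ne_zero)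
    have h3 : (p : Gi) ∣ star π * z := by
      rw [natCast_dvd, star_mul_eq]
      unfold ip dt
      constructor
      · have e : π.re * z.re + 0 * π.im * z.re + 1 * π.im * z.im = π.re * z.re + π.im * z.im := by
          ring
        simp only [e]
        exact h1
      · exact h2
    obtain ⟨u, hu⟩ := h3
    refine ⟨u, ?_⟩
    have e : gp (p, true) = π := by unfold gp; rw [if_pos rfl, hπ]
    rw [e]
    have h4 : star π ≠ 0 := by
      intro h5
      apply hπ0
      have := congrArg star h5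
      rwa [star_star, star_zero] at this
    apply gi_cancel h4
    rw [hu, ← mul_assoc, star_mul_self' hD]
    congr 1
    exact_mod_cast congrArg (fun n : ℤ => (n : Gi)) h0.symm
  · right
    have h2 : (p : ℤ) ∣ π.re * z.im + π.im * z.re := by
      apply hpp.dvd_of_dvd_pow (n := 2)
      have e : (π.re * z.im + π.im * z.re) ^ 2 = p * (z.re ^ 2 + z.im ^ 2) -
          (π.re * z.re - π.im * z.im) ^ 2 := by rw [hn]; ring
      rw [e]
      exact dvd_sub (dvd_mul_right _ _) (dvd_pow h1 two_ne_zero)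
    have h3 : (p : Gi) ∣ π * z := by
      rw [natCast_dvd]
      simp only [QuadraticAlgebra.re_mul, QuadraticAlgebra.im_mul]
      constructor
      · have e : π.re * z.re + -1 * π.im * z.im = π.re * z.re - π.im * z.im := by ring
        rw [e]
        exact h1
      · have e : π.re * z.im + π.im * z.re + 0 * π.im * z.im = π.re * z.im + π.im * z.re := by
          ring
        rw [e]
        exact h2
    obtain ⟨u, hu⟩ := h3
    refine ⟨u, ?_⟩
    have e : gp (p, false) = star π := by unfold gp; rw [hπ]; simp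
    rw [e]
    apply gi_cancel hπ0
    rw [hu, ← mul_assoc, mul_star_self' hD]
    congr 1
    exact_mod_cast congrArg (fun n : ℤ => (n : Gi)) h0.symm

theorem dvd_iff {p : ℕ} (h : G4 p) {z : Gi} :
    p ∣ nm z ↔ ∃ b : Bool, gp (p, b) ∣ z := by
  constructor
  · intro hz
    rcases gp_dvd h hz with h1 | h1
    · exact ⟨true, h1⟩
    · exact ⟨false, h1⟩
  · rintro ⟨b, hb⟩
    have h1 := nm_dvd hb
    rw [nm_gp (i := (p, b)) h] at h1
    exact h1

theorem cop_aux {p : ℕ} (h : G4 p) : IsCoprime (gq p) (star (gq p)) := by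
  obtain ⟨π, hπ⟩ : ∃ π : Gi, π = gq p := ⟨_, rfl⟩
  rw [← hπ]
  have hn := nmZ π
  have h0 : (nm π : ℤ) = p := by rw [hπ, nm_gq h]
  rw [h0] at hn
  have hp2 : 2 ≤ p := h.1.two_le
  have hre : ¬ p ∣ (2 * π.re).natAbs := by
    intro h1
    have h2 : p ∣ 2 * π.re.natAbs := by
      rw [Int.natAbs_mul] at h1
      exact h1
    rcases (Nat.Prime.dvd_mul h.1).1 h2 with h3 | h3
    · have := Nat.le_of_dvd (by norm_num) h3
      have h4 := h.2
      have : p = 2 := by omega
      omega
    · by_cases hr : π.re = 0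
      · rw [hr] at hn
        have h4 : (p : ℤ) = π.im ^ 2 := by rw [hn]; ring
        have h5 : p = π.im.natAbs ^ 2 := by
          have : ((π.im.natAbs ^ 2 : ℕ) : ℤ) = π.im ^ 2 := by
            push_cast
            exact sq_abs _
          omega
        have h6 := h.1
        rw [h5] at h6
        exact (Nat.Prime.not_prime_pow (le_refl 2)) h6
      · have h4 : p ≤ π.re.natAbs := Nat.le_of_dvd (Int.natAbs_pos.2 hr) h3
        have h5 : (p : ℤ) ≤ |π.re| := by
          rw [Int.abs_eq_natAbs]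
          exact_mod_cast h4
        have h6 : |π.re| ^ 2 = π.re ^ 2 := sq_abs _
        nlinarith [sq_nonneg π.im]
  have hcop : IsCoprime (p : ℤ) (2 * π.re) := by
    rw [Int.isCoprime_iff_gcd_eq_one]
    have : Nat.Coprime p (2 * π.re).natAbs := (Nat.Prime.coprime_iff_not_dvd h.1).2 hre
    rw [Int.gcd, Int.natAbs_natCast]
    exact this
  obtain ⟨u, v, huv⟩ := hcop
  refine ⟨(u : Gi) * star π + (v : Gi), (v : Gi), ?_⟩
  have e1 : star π * π = ((p : ℤ) : Gi) := by
    rw [star_mul_self' hD]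
    exact_mod_cast congrArg (fun n : ℤ => (n : Gi)) h0
  have e2 : π + star π = ((2 * π.re : ℤ) : Gi) := by
    apply QuadraticAlgebra.ext
    · simp only [QuadraticAlgebra.re_add, QuadraticAlgebra.re_star, QuadraticAlgebra.re_intCast,
        Int.cast_id]
      ring
    · simp only [QuadraticAlgebra.im_add, QuadraticAlgebra.im_star, QuadraticAlgebra.im_intCast]
      ring
  have e3 : ((u * p + v * (2 * π.re) : ℤ) : Gi) = 1 := by rw [huv]; exact Int.cast_one
  rw [Int.cast_add, Int.cast_mul, Int.cast_mul, ← e1, ← e2] at e3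
  rw [← e3]
  ring

theorem gp_cop {i j : ℕ × Bool} (hi : G4 i.1) (hj : G4 j.1) (hij : i ≠ j) :
    IsCoprime (gp i) (gp j) := by
  obtain ⟨p, b⟩ := i
  obtain ⟨q, c⟩ := j
  simp only at hi hj
  by_cases hpq : p = q
  · subst hpq
    have hbc : b ≠ c := fun h => hij (by rw [h])
    have h1 := cop_aux hi
    unfold gp
    cases b <;> cases c
    · exact absurd rfl hbc
    · simpa using h1.symm
    · simpa using h1
    · exact absurd rfl hbc
  · have h1 : IsCoprime (p : ℤ) (q : ℤ) := by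
      rw [Nat.isCoprime_iff_coprime]
      exact (Nat.coprime_primes hi.1 hj.1).2 hpq
    obtain ⟨u, v, huv⟩ := h1
    have e1 : star (gp (p, b)) * gp (p, b) = ((p : ℤ) : Gi) := by
      rw [star_mul_self' hD, nm_gp (i := (p, b)) hi]
      norm_cast
    have e2 : star (gp (q, c)) * gp (q, c) = ((q : ℤ) : Gi) := by
      rw [star_mul_self' hD, nm_gp (i := (q, c)) hj]
      norm_cast
    refine ⟨(u : Gi) * star (gp (p, b)), (v : Gi) * star (gp (q, c)), ?_⟩
    rw [mul_assoc, mul_assoc, e1, e2]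
    exact_mod_cast congrArg (fun n : ℤ => (n : Gi)) huv

/-- products -/
noncomputable def gP (S : Finset (ℕ × Bool)) : Gi := ∏ i ∈ S, gp i

/-- the norm of the product -/
def gN (S : Finset (ℕ × Bool)) : ℕ := ∏ i ∈ S, i.1

theorem nm_gP {S : Finset (ℕ × Bool)} (hS : ∀ i ∈ S, G4 i.1) : nm (gP S) = gN S := by
  classical
  induction S using Finset.induction_on with
  | empty =>
    unfold gP gN
    rw [prod_empty, prod_empty]
    exact nm_one
  | insert a S ha ih =>
    unfold gP gN at ih ⊢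
    rw [prod_insert ha, prod_insert ha, nm_mul, ih (fun i hi => hS i (mem_insert_of_mem hi)),
      nm_gp (hS a (mem_insert_self a S))]

theorem gN_pos {S : Finset (ℕ × Bool)} (hS : ∀ i ∈ S, G4 i.1) : 0 < gN S := by
  unfold gN
  exact prod_pos fun i hi => (hS i hi).1.pos

theorem gP_ne {S : Finset (ℕ × Bool)} (hS : ∀ i ∈ S, G4 i.1) : gP S ≠ 0 := by
  intro h0
  have h1 := nm_gP hS
  rw [h0, nm_zero] at h1
  have := gN_pos hS
  omega

theorem gP_dvd {S : Finset (ℕ × Bool)} (hS : ∀ i ∈ S, G4 i.1) {z : Gi} :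
    gP S ∣ z ↔ ∀ i ∈ S, gp i ∣ z := by
  constructor
  · intro h i hi
    exact (Finset.dvd_prod_of_mem _ hi).trans h
  · intro h
    refine Finset.prod_dvd_of_coprime ?_ h
    intro i hi j hj hij
    exact gp_cop (hS i hi) (hS j hj) hij

theorem gP_cop {S : Finset (ℕ × Bool)} (hS : ∀ i ∈ S, G4 i.1) {j : ℕ × Bool} (hj : G4 j.1)
    (hjS : j ∉ S) : IsCoprime (gp j) (gP S) := by
  unfold gP
  refine IsCoprime.prod_right fun i hi => ?_
  exact gp_cop hj (hS i hi) (by rintro rfl; exact hjS hi)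

theorem not_unit_gp {j : ℕ × Bool} (hj : G4 j.1) : ¬ IsUnit (gp j) := by
  intro h
  obtain ⟨u, hu⟩ := h.exists_right_inv
  have h1 := congrArg nm hu
  rw [nm_mul, nm_one, nm_gp hj] at h1
  have := Nat.eq_one_of_mul_eq_one_right h1
  exact hj.1.one_lt.ne' this

theorem gP_inj {S T : Finset (ℕ × Bool)} (hS : ∀ i ∈ S, G4 i.1) (hT : ∀ i ∈ T, G4 i.1)
    (h : gP S = gP T) : S = T := by
  have key : ∀ {S T : Finset (ℕ × Bool)}, (∀ i ∈ S, G4 i.1) → (∀ i ∈ T, G4 i.1) →
      gP S = gP T → S ⊆ T := by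
    intro S T hS hT h i hi
    by_contra hiT
    have h1 := gP_cop hT (hS i hi) hiT
    have h2 : gp i ∣ gP T := by
      rw [← h]
      exact Finset.dvd_prod_of_mem _ hi
    exact not_unit_gp (hS i hi) (h1.isUnit_of_dvd' dvd_rfl h2)
  exact subset_antisymm (key hS hT h) (key hT hS h.symm)

open scoped Classical in
/-- sums over multiples -/
theorem sum_mult {A : Type} [AddCommMonoid A] {w : Gi} (hw : w ≠ 0) (X : ℝ) (S : Gi → Prop)
    (f : Gi → A) : ∑ z ∈ (ball 0 1 X).filter (fun z => S z ∧ w ∣ z), f z =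
      ∑ u ∈ (ball 0 1 (X / nm w)).filter (fun u => S (w * u)), f (w * u) := by
  have hw0 : (0 : ℝ) < nm w := nm_posR hD hw
  have h1 : (ball 0 1 X).filter (fun z => S z ∧ w ∣ z) =
      ((ball 0 1 (X / nm w)).filter (fun u => S (w * u))).image (fun u => w * u) := by
    ext z
    rw [Finset.mem_filter, Finset.mem_image]
    constructor
    · rintro ⟨hz, hS, u, rfl⟩
      rw [mem_ball hD] at hz
      refine ⟨u, ?_, rfl⟩
      rw [Finset.mem_filter, mem_ball hD]
      have hu : u ≠ 0 := by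
        rintro rfl
        have := (one_le_nm hD).1 hz.1
        simp at this
      refine ⟨⟨(one_le_nm hD).2 hu, ?_⟩, hS⟩
      rw [le_div_iff₀ hw0]
      have h2 : (nm (w * u) : ℝ) = nm w * nm u := by
        rw [nm_mul]; push_cast; ring
      rw [h2] at hz
      linarith [hz.2]
    · rintro ⟨u, hu, rfl⟩
      rw [Finset.mem_filter, mem_ball hD] at hu
      refine ⟨?_, hu.2, dvd_mul_right _ _⟩
      rw [mem_ball hD, nm_mul]
      refine ⟨Nat.mul_pos ((one_le_nm hD).2 hw) hu.1.1, ?_⟩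
      have := hu.1.2
      rw [le_div_iff₀ hw0] at this
      push_cast
      linarith
  rw [h1, Finset.sum_image (fun x _ y _ h => gi_cancel hw h)]

open scoped Classical in
theorem card_mult {w : Gi} (hw : w ≠ 0) (X : ℝ) (S : Gi → Prop) :
    ((ball 0 1 X).filter (fun z => S z ∧ w ∣ z)).card =
      ((ball 0 1 (X / nm w)).filter (fun u => S (w * u))).card := by
  have := sum_mult (A := ℕ) hw X S (fun _ => 1)
  simpa using this

end Pool.Agent.T2H34
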