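import Pool.Agent.W45.GA.Lat
import Pool.Agent.T2H34.Gp

/-!
The number of Gaussian integers in a disc and in a residue class.
-/

set_option autoImplicit false

namespace Pool.Agent.T2H34

open Finset
open Pool.Agent.W78.GA
open Pool.Agent.W78.EC (Gi)
open Pool.Agent.W991.EC (hD mul_inj card_ball)

/-- the area of the unit disc -/
noncomputable def kp : ℝ := kap 0 1

theorem kp_pos : 0 < kp := by
  unfold kp kap
  have hpi := Real.pi_pos
  have : 0 < Real.sqrt (4 * ((1 : ℤ) : ℝ) - ((0 : ℤ) : ℝ) ^ 2) := by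
    apply Real.sqrt_pos.2
    norm_num
  positivity

theorem ball_mono {X Y : ℝ} (h : X ≤ Y) : ball 0 1 X ⊆ ball 0 1 Y := by
  intro z hz
  rw [mem_ball hD] at hz ⊢
  exact ⟨hz.1, hz.2.trans h⟩

theorem ball_empty {X : ℝ} (h : X < 1) : ball 0 1 X = ∅ := by
  rw [Finset.eq_empty_iff_forall_notMem]
  intro z hz
  rw [mem_ball hD] at hz
  have h1 : (1:ℝ) ≤ nm z := by exact_mod_cast hz.1
  linarith [hz.2]

theorem ball_cnt : ∃ C : ℝ, 0 < C ∧ ∀ X : ℝ, 1 ≤ X →
    |((ball 0 1 X).card : ℝ) - kp * X| ≤ C * Real.sqrt X := by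
  obtain ⟨C, hC, h, -⟩ := Pool.Agent.W45.GA.lat hD
  refine ⟨C, hC, fun X hX => ?_⟩
  have h1 := h X 1 0 hX le_rfl
  have h2 : (ball 0 1 X).filter (lat 1 0) = ball 0 1 X := by
    rw [Finset.filter_true_of_mem]
    intro z _
    unfold lat
    exact one_dvd _
  rw [h2, Nat.cast_one, div_one] at h1
  exact h1

theorem sqrt_nm_add (z w : Gi) : Real.sqrt (nm (z + w)) ≤ Real.sqrt (nm z) + Real.sqrt (nm w) := by
  rw [← norm_tc hD, ← norm_tc hD, ← norm_tc hD]
  have : tc (z + w) = tc z + tc w := by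
    apply Complex.ext
    · simp only [tc_re, Complex.add_re, QuadraticAlgebra.re_add, QuadraticAlgebra.im_add]
      push_cast
      ring
    · simp only [tc_im, Complex.add_im, QuadraticAlgebra.im_add]
      push_cast
      ring
  rw [this]
  exact norm_add_le _ _

open scoped Classical in
/-- few points leave the disc -/
theorem leave (g : Gi) : ∃ C : ℝ, 0 < C ∧ ∀ X : ℝ, 1 ≤ X →
    (((ball 0 1 X).filter (fun z => z + g ∉ ball 0 1 X)).card : ℝ) ≤ C * Real.sqrt X := by
  obtain ⟨C, hC, hcnt⟩ := ball_cnt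
  have hk := kp_pos
  obtain ⟨G, hG⟩ : ∃ G : ℝ, G = Real.sqrt (nm g) := ⟨_, rfl⟩
  have hG0 : 0 ≤ G := by rw [hG]; exact Real.sqrt_nonneg _
  refine ⟨1 + 9 * G + 2 * kp * G + kp + 2 * C, by positivity, fun X hX => ?_⟩
  have hX0 : 0 ≤ X := by linarith
  have hs1 : 1 ≤ Real.sqrt X := by rw [Real.one_le_sqrt]; exact hX
  have hss : Real.sqrt X * Real.sqrt X = X := Real.mul_self_sqrt hX0
  rcases lt_or_ge (Real.sqrt X) G with hlt | hge
  · have h1 : (((ball 0 1 X).filter (fun z => z + g ∉ ball 0 1 X)).card : ℝ) ≤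
        ((ball 0 1 X).card : ℝ) := by exact_mod_cast Finset.card_filter_le _ _
    have h2 := card_ball hX0
    have h3 : X ≤ G * Real.sqrt X := by nlinarith
    have h4 : 0 ≤ (1 + 2 * kp * G + kp + 2 * C) * Real.sqrt X := by positivity
    linarith
  · obtain ⟨X', hX'⟩ : ∃ X' : ℝ, X' = (Real.sqrt X - G) ^ 2 := ⟨_, rfl⟩
    have hX'0 : 0 ≤ X' := by rw [hX']; positivity
    have hX'X : X' ≤ X := by
      rw [hX']
      nlinarith
    have hsub : (ball 0 1 X).filter (fun z => z + g ∉ ball 0 1 X) ⊆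
        insert (-g) (ball 0 1 X \ ball 0 1 X') := by
      intro z hz
      rw [mem_filter] at hz
      rw [mem_insert, mem_sdiff]
      by_cases hzg : z = -g
      · left; exact hzg
      · right
        refine ⟨hz.1, fun hz' => hz.2 ?_⟩
        rw [mem_ball hD] at hz' ⊢
        refine ⟨(one_le_nm hD).2 (fun h => hzg (eq_neg_of_add_eq_zero_left h)), ?_⟩
        have h1 : Real.sqrt (nm (z + g)) ≤ Real.sqrt X := by
          refine (sqrt_nm_add z g).trans ?_
          have h2 : Real.sqrt (nm z) ≤ Real.sqrt X' := Real.sqrt_le_sqrt hz'.2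
          have h3 : Real.sqrt X' = Real.sqrt X - G := by
            rw [hX']
            exact Real.sqrt_sq (by linarith)
          rw [h3] at h2
          rw [← hG]
          linarith
        exact (Real.sqrt_le_sqrt_iff hX0).1 h1
    have hc1 : (((ball 0 1 X).filter (fun z => z + g ∉ ball 0 1 X)).card : ℝ) ≤
        1 + ((ball 0 1 X \ ball 0 1 X').card : ℝ) := by
      have := (Finset.card_le_card hsub).trans (Finset.card_insert_le _ _)
      have h2 : (((ball 0 1 X).filter (fun z => z + g ∉ ball 0 1 X)).card : ℝ) ≤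
        ((ball 0 1 X \ ball 0 1 X').card : ℝ) + 1 := by exact_mod_cast this
      linarith
    have hc2 : ((ball 0 1 X \ ball 0 1 X').card : ℝ) = ((ball 0 1 X).card : ℝ) -
        ((ball 0 1 X').card : ℝ) := by
      rw [Finset.card_sdiff_of_subset (ball_mono hX'X),
        Nat.cast_sub (Finset.card_le_card (ball_mono hX'X))]
    have hc3 := (abs_le.1 (hcnt X hX)).2
    have hc4 : kp * X' - kp - C * Real.sqrt X ≤ ((ball 0 1 X').card : ℝ) := by
      rcases lt_or_ge X' 1 with h1 | h1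
      · have : (0 : ℝ) ≤ ((ball 0 1 X').card : ℝ) := Nat.cast_nonneg _
        have h2 : 0 ≤ C * Real.sqrt X := by positivity
        nlinarith
      · have h2 := (abs_le.1 (hcnt X' h1)).1
        have h3 : C * Real.sqrt X' ≤ C * Real.sqrt X :=
          mul_le_mul_of_nonneg_left (Real.sqrt_le_sqrt hX'X) hC.le
        linarith
    have hc5 : X - X' ≤ 2 * G * Real.sqrt X := by
      rw [hX']
      nlinarith [sq_nonneg G]
    have hc6 : kp * (X - X') ≤ kp * (2 * G * Real.sqrt X) := mul_le_mul_of_nonneg_left hc5 hk.le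
    have hc7 : 0 ≤ 9 * G * Real.sqrt X := by positivity
    have hc8 : kp ≤ kp * Real.sqrt X := le_mul_of_one_le_right hk.le hs1
    rw [hc2] at hc1
    have hc9 : (1 + 9 * G + 2 * kp * G + kp + 2 * C) * Real.sqrt X = Real.sqrt X +
      9 * G * Real.sqrt X + kp * (2 * G * Real.sqrt X) + kp * Real.sqrt X +
        2 * (C * Real.sqrt X) := by ring
    rw [hc9]
    linarith

open scoped Classical in
/-- the elements of a disc in a residue class -/
noncomputable def cb (M : ℕ) (X : ℝ) (r : Gi) : Finset Gi :=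
  (ball 0 1 X).filter (fun z => (M : Gi) ∣ z - r)

open scoped Classical in
theorem cb_shift (M : ℕ) (r g : Gi) : ∃ C : ℝ, 0 < C ∧ ∀ X : ℝ, 1 ≤ X →
    ((cb M X r).card : ℝ) ≤ ((cb M X (r + g)).card : ℝ) + C * Real.sqrt X := by
  obtain ⟨C, hC, h⟩ := leave g
  refine ⟨C, hC, fun X hX => ?_⟩
  refine le_trans ?_ (add_le_add le_rfl (h X hX))
  rw [← Nat.cast_add, Nat.cast_le]
  have e := Finset.card_filter_add_card_filter_not (s := cb M X r) (fun z => z + g ∈ ball 0 1 X)
  rw [← e]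
  refine add_le_add ?_ ?_
  · refine Finset.card_le_card_of_injOn (fun z => z + g) ?_ ?_
    · intro z hz
      rw [mem_coe, mem_filter] at hz
      unfold cb at hz ⊢
      rw [mem_coe, mem_filter]
      rw [mem_filter] at hz
      refine ⟨hz.2, ?_⟩
      have : z + g - (r + g) = z - r := by ring
      rw [this]
      exact hz.1.2
    · intro z _ z' _ hzz
      exact add_right_cancel hzz
  · refine Finset.card_le_card ?_
    intro z hz
    rw [mem_filter] at hz ⊢
    unfold cb at hz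
    rw [mem_filter] at hz
    exact ⟨hz.1.1, hz.2⟩

/-- the Gaussian integer of a pair -/
def gz (s : ℕ × ℕ) : Gi := ⟨(s.1 : ℤ), (s.2 : ℤ)⟩

open scoped Classical in
theorem cb_part {M : ℕ} (hM : 1 ≤ M) (X : ℝ) (r : Gi) :
    ∑ s ∈ range M ×ˢ range M, (cb M X (r + gz s)).card = (ball 0 1 X).card := by
  have hM0 : (0:ℤ) < M := by omega
  rw [Finset.card_eq_sum_card_fiberwise (s := ball 0 1 X) (t := range M ×ˢ range M)
    (f := fun z : Gi => (((z.re - r.re) % M).toNat, ((z.im - r.im) % M).toNat))]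
  · refine sum_congr rfl fun s hs => ?_
    unfold cb
    congr 1
    refine filter_congr fun z _ => ?_
    rw [mem_product, mem_range, mem_range] at hs
    have key : ∀ (x : ℤ) (s : ℕ), s < M → ((x % M).toNat = s ↔ (M : ℤ) ∣ x - s) := by
      intro x s hs
      have hs' : ((s:ℤ) % M) = s := Int.emod_eq_of_lt (by omega) (by exact_mod_cast hs)
      constructor
      · intro h2
        have h3 : x % M = s := by
          have := Int.emod_nonneg x hM0.ne'
          omega
        exact Int.dvd_of_emod_eq_zero (Int.emod_eq_emod_iff_emod_sub_eq_zero.1 (by rw [h3, hs']))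
      · intro h2
        have h3 : x % M = (s:ℤ) % M := (Int.emod_eq_emod_iff_emod_sub_eq_zero).2
          (Int.emod_eq_zero_of_dvd h2)
        rw [h3, hs']
        simp
    rw [natCast_dvd]
    obtain ⟨s1, s2⟩ := s
    rw [Prod.mk.injEq, key _ _ hs.1, key _ _ hs.2]
    have e1 : (z - (r + gz (s1, s2))).re = z.re - r.re - s1 := by
      simp only [QuadraticAlgebra.re_sub, QuadraticAlgebra.re_add, gz]
      ring
    have e2 : (z - (r + gz (s1, s2))).im = z.im - r.im - s2 := by
      simp only [QuadraticAlgebra.im_sub, QuadraticAlgebra.im_add, gz]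
      ring
    rw [e1, e2]
  · intro z _
    rw [mem_coe, mem_product, mem_range, mem_range]
    have h1 := Int.emod_nonneg (z.re - r.re) hM0.ne'
    have h2 := Int.emod_lt_of_pos (z.re - r.re) hM0
    have h3 := Int.emod_nonneg (z.im - r.im) hM0.ne'
    have h4 := Int.emod_lt_of_pos (z.im - r.im) hM0
    constructor
    · simp only; omega
    · simp only; omega

/-- reduction modulo `M` -/
theorem cb_congr {M : ℕ} {X : ℝ} {r r' : Gi} (h : (M : Gi) ∣ r - r') : cb M X r = cb M X r' := by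
  classical
  unfold cb
  refine filter_congr fun z _ => ?_
  constructor
  · intro h1
    have : z - r' = (z - r) + (r - r') := by ring
    rw [this]
    exact dvd_add h1 h
  · intro h1
    have : z - r = (z - r') - (r - r') := by ring
    rw [this]
    exact dvd_sub h1 h

theorem red {M : ℕ} (hM : 1 ≤ M) (r : Gi) : ∃ s ∈ range M ×ˢ range M, (M : Gi) ∣ r - gz s := by
  have hM0 : (0:ℤ) < M := by omega
  have h1 := Int.emod_nonneg r.re hM0.ne'
  have h2 := Int.emod_lt_of_pos r.re hM0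
  have h3 := Int.emod_nonneg r.im hM0.ne'
  have h4 := Int.emod_lt_of_pos r.im hM0
  refine ⟨((r.re % M).toNat, (r.im % M).toNat), ?_, ?_⟩
  · rw [mem_product, mem_range, mem_range]
    constructor
    · simp only; omega
    · simp only; omega
  · rw [natCast_dvd]
    constructor
    · simp only [QuadraticAlgebra.re_sub, gz]
      rw [Int.toNat_of_nonneg h1]
      exact Int.dvd_self_sub_emod
    · simp only [QuadraticAlgebra.im_sub, gz]
      rw [Int.toNat_of_nonneg h3]
      exact Int.dvd_self_sub_emod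

/-- the number of elements in a residue class -/
theorem cls {M : ℕ} (hM : 1 ≤ M) : ∃ C : ℝ, 0 < C ∧ ∀ X : ℝ, 1 ≤ X → ∀ r : Gi,
    |((cb M X r).card : ℝ) - kp * X / (M : ℝ) ^ 2| ≤ C * Real.sqrt X := by
  classical
  obtain ⟨C₀, hC₀, hcnt⟩ := ball_cnt
  have hsh := fun (s s' : ℕ × ℕ) => cb_shift M (gz s) (gz s')
  choose C₁ hC₁ h₁ using hsh
  have hsh2 := fun (s s' : ℕ × ℕ) => cb_shift M (gz s + gz s') (-gz s')
  choose C₂ hC₂ h₂ using hsh2
  obtain ⟨R, hR⟩ : ∃ R : Finset (ℕ × ℕ), R = range M ×ˢ range M := ⟨_, rfl⟩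
  obtain ⟨D, hD'⟩ : ∃ D : ℝ, D = ∑ s ∈ R, ∑ s' ∈ R, (C₁ s s' + C₂ s s') := ⟨_, rfl⟩
  have hD0 : 0 ≤ D := by
    rw [hD']
    exact sum_nonneg fun s _ => sum_nonneg fun s' _ => by linarith [hC₁ s s', hC₂ s s']
  have hDle : ∀ s ∈ R, ∀ s' ∈ R, C₁ s s' ≤ D ∧ C₂ s s' ≤ D := by
    intro s hs s' hs'
    have e1 : C₁ s s' + C₂ s s' ≤ ∑ s' ∈ R, (C₁ s s' + C₂ s s') :=
      single_le_sum (f := fun s' => C₁ s s' + C₂ s s')
        (fun t _ => by linarith [hC₁ s t, hC₂ s t]) hs'
    have e2 : ∑ s' ∈ R, (C₁ s s' + C₂ s s') ≤ D := by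
      rw [hD']
      exact single_le_sum (f := fun s => ∑ s' ∈ R, (C₁ s s' + C₂ s s'))
        (fun t _ => sum_nonneg fun s' _ => by linarith [hC₁ t s', hC₂ t s']) hs
    constructor
    · linarith [hC₂ s s']
    · linarith [hC₁ s s']
  have hM0 : (0 : ℝ) < M := by exact_mod_cast hM
  have hM1 : (1 : ℝ) ≤ M := by exact_mod_cast hM
  refine ⟨D + C₀, by positivity, fun X hX r => ?_⟩
  obtain ⟨s, hs, hrs⟩ := red hM r
  rw [cb_congr hrs]
  have hs0 : 0 ≤ Real.sqrt X := Real.sqrt_nonneg _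
  have hpart := cb_part hM X (gz s)
  have hpartR : ∑ s' ∈ R, ((cb M X (gz s + gz s')).card : ℝ) = ((ball 0 1 X).card : ℝ) := by
    rw [hR]
    exact_mod_cast hpart
  have hcardR : (R.card : ℝ) = (M : ℝ) ^ 2 := by
    rw [hR, card_product, card_range]
    push_cast
    ring
  rw [← hR] at hs
  have hup : (M : ℝ) ^ 2 * ((cb M X (gz s)).card : ℝ) ≤ ((ball 0 1 X).card : ℝ) +
      (M : ℝ) ^ 2 * (D * Real.sqrt X) := by
    have h3 : ∑ s' ∈ R, ((cb M X (gz s)).card : ℝ) ≤
        ∑ s' ∈ R, (((cb M X (gz s + gz s')).card : ℝ) + D * Real.sqrt X) := by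
      refine sum_le_sum fun s' hs' => (h₁ s s' X hX).trans ?_
      exact add_le_add le_rfl (mul_le_mul_of_nonneg_right (hDle s hs s' hs').1 hs0)
    rw [sum_add_distrib, hpartR, sum_const, sum_const, nsmul_eq_mul, nsmul_eq_mul, hcardR] at h3
    exact h3
  have hlo : ((ball 0 1 X).card : ℝ) ≤ (M : ℝ) ^ 2 * ((cb M X (gz s)).card : ℝ) +
      (M : ℝ) ^ 2 * (D * Real.sqrt X) := by
    have h3 : ∑ s' ∈ R, ((cb M X (gz s + gz s')).card : ℝ) ≤
        ∑ s' ∈ R, (((cb M X (gz s)).card : ℝ) + D * Real.sqrt X) := by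
      refine sum_le_sum fun s' hs' => ?_
      have h4 := h₂ s s' X hX
      rw [add_neg_cancel_right] at h4
      refine h4.trans ?_
      exact add_le_add le_rfl (mul_le_mul_of_nonneg_right (hDle s hs s' hs').2 hs0)
    rw [sum_add_distrib, hpartR, sum_const, sum_const, nsmul_eq_mul, nsmul_eq_mul, hcardR] at h3
    exact h3
  have hb := abs_le.1 (hcnt X hX)
  have hM2 : (0 : ℝ) < (M : ℝ) ^ 2 := by positivity
  have hM3 : (1 : ℝ) ≤ (M : ℝ) ^ 2 := one_le_pow₀ hM1
  have hC0s : C₀ * Real.sqrt X ≤ (M : ℝ) ^ 2 * (C₀ * Real.sqrt X) :=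
    le_mul_of_one_le_left (by positivity) hM3
  have hmul : (M : ℝ) ^ 2 * (kp * X / (M : ℝ) ^ 2) = kp * X := by field_simp
  rw [abs_le]
  constructor
  · have : (M : ℝ) ^ 2 * (-((D + C₀) * Real.sqrt X)) ≤ (M : ℝ) ^ 2 *
        (((cb M X (gz s)).card : ℝ) - kp * X / (M : ℝ) ^ 2) := by
      rw [mul_sub, hmul]
      linarith [hb.1]
    exact le_of_mul_le_mul_left this hM2
  · have : (M : ℝ) ^ 2 * (((cb M X (gz s)).card : ℝ) - kp * X / (M : ℝ) ^ 2) ≤
        (M : ℝ) ^ 2 * ((D + C₀) * Real.sqrt X) := by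
      rw [mul_sub, hmul]
      linarith [hb.2]
    exact le_of_mul_le_mul_left this hM2

end Pool.Agent.T2H34
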