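import Pool.Agent.T2H34.Pat
import Pool.Agent.W251.EX.Out

/-!
From pairs to integers: many `n` with prescribed large prime factors of `n ^ 2 + 1`.
-/

set_option autoImplicit false

namespace Pool.Agent.T2H34

open Finset Filter
open Pool.Agent.W78.EC (SP)
open Pool.Agent.W681.EC (mem_SP)
open Pool.Agent.TH890.DV (LogNull)

open scoped Classical in
/-- the pairs with prescribed patterns -/
noncomputable def SB (k j : ℕ) (u₁ u₂ : ℕ → ℝ) (t : ℝ) (X : ℕ) : Finset (ℕ × ℕ) :=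
  (SP X).filter (fun p => (t * X < p.1 ∧ t * X < p.2) ∧ u₁ p.1 = 1 ∧ u₂ p.2 = 1 ∧
      ArithmeticFunction.cardFactors p.1 ≡ 0 [MOD k] ∧
      ArithmeticFunction.cardFactors p.2 ≡ j [MOD k])

/-- a positive proportion of the pairs, at almost all scales -/
theorem pairs_null {k : ℕ} (hk : 1 ≤ k) (j : ℕ) {u₁ u₂ : ℕ → ℝ} (h1 : Ad u₁) (h2 : Ad u₂)
    (l1 : ∃ c : ℝ, 0 < c ∧ ∃ X₁ : ℝ, ∀ X : ℝ, X₁ ≤ X → c ≤ av u₁ X)
    (l2 : ∃ c : ℝ, 0 < c ∧ ∃ X₁ : ℝ, ∀ X : ℝ, X₁ ≤ X → c ≤ av u₂ X) :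
    ∃ b t : ℝ, 0 < b ∧ 0 < t ∧ LogNull (fun X => ((SB k j u₁ u₂ t X).card : ℝ) < b * X) := by
  classical
  obtain ⟨c₁, hc₁, X₁, l1⟩ := l1
  obtain ⟨c₂, hc₂, X₂, l2⟩ := l2
  obtain ⟨c₃, hc₃, X₃, l3⟩ := Pool.Agent.W251.EX.outP 1 0 le_rfl
  obtain ⟨C, hC⟩ := Pool.Agent.W368.EC.scnt
  have hC0 : 0 ≤ C := by
    have h := hC 1 1 le_rfl le_rfl
    have h4 : (0 : ℝ) ≤ C * Real.sqrt ((1 : ℕ) * (1 : ℕ)) := le_trans (Nat.cast_nonneg _) h
    simpa using h4
  have hk0 : (0 : ℝ) < k := by exact_mod_cast (by omega : 0 < k)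
  obtain ⟨b, hb⟩ : ∃ b : ℝ, b = c₁ * c₂ * c₃ / (4 * (k : ℝ) ^ 2) := ⟨_, rfl⟩
  have hb0 : 0 < b := by rw [hb]; positivity
  obtain ⟨t, ht⟩ : ∃ t : ℝ, t = min 1 (b / (2 * (C + 1))) := ⟨_, rfl⟩
  have ht0 : 0 < t := by rw [ht]; exact lt_min one_pos (by positivity)
  have ht1 : t ≤ 1 := by rw [ht]; exact min_le_left _ _
  have ht2 : 2 * C * t ≤ b := by
    have h5 : t ≤ b / (2 * (C + 1)) := by rw [ht]; exact min_le_right _ _
    rw [le_div_iff₀ (by positivity)] at h5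
    nlinarith
  refine ⟨b, t ^ 2, hb0, by positivity, ?_⟩
  have hlaw := law hk h1 h2 0 j b hb0
  refine LogNull.of_ev (max (max ⌈X₁⌉₊ ⌈X₂⌉₊) (max X₃ 1)) ?_ hlaw
  intro X hX hlt
  by_contra hcon
  push Not at hcon
  have g1 : X₁ ≤ (X : ℝ) := (Nat.le_ceil _).trans (by
    exact_mod_cast ((le_max_left _ _).trans (le_max_left _ _)).trans hX)
  have g2 : X₂ ≤ (X : ℝ) := (Nat.le_ceil _).trans (by
    exact_mod_cast ((le_max_right _ _).trans (le_max_left _ _)).trans hX)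
  have g3 : X₃ ≤ X := ((le_max_left _ _).trans (le_max_right _ _)).trans hX
  have g4 : 1 ≤ X := ((le_max_right _ _).trans (le_max_right _ _)).trans hX
  have hX0 : (0 : ℝ) < X := by exact_mod_cast (by omega : 0 < X)
  have a1 := l1 X g1
  have a2 := l2 X g2
  have a3 : c₃ * X ≤ ((SP X).card : ℝ) := by
    refine (l3 X g3).trans ?_
    apply Nat.cast_le.2
    apply Finset.card_le_card
    intro p hp
    rw [mem_filter, mem_product, mem_Icc, mem_Icc] at hp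
    rw [mem_SP]
    obtain ⟨⟨b1, b2⟩, n, b3, -⟩ := hp
    exact ⟨⟨b1, b2⟩, n, b3⟩
  have a4 : c₁ * c₂ * (c₃ * X) ≤ av u₁ X * av u₂ X * ((SP X).card : ℝ) := by
    have e1 : c₁ * c₂ ≤ av u₁ X * av u₂ X := mul_le_mul a1 a2 hc₂.le (hc₁.le.trans a1)
    exact mul_le_mul e1 a3 (by positivity) ((by positivity : 0 ≤ c₁ * c₂).trans e1)
  have a5 : 4 * (b * X) ≤ 1 / (k : ℝ) ^ 2 * (av u₁ X * av u₂ X * ((SP X).card : ℝ)) := by
    refine le_trans (le_of_eq ?_) (mul_le_mul_of_nonneg_left a4 (by positivity))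
    rw [hb]
    field_simp
  unfold dv at hcon
  have a6 := (abs_le.1 hcon).1
  -- the pairs outside of the window
  have a7 := Pool.Agent.W692.EX.card3 C hC hC0 t ht0 ht1 X g4
  have a8 : (((SP X).filter (fun p => u₁ p.1 = 1 ∧ u₂ p.2 = 1 ∧
      ArithmeticFunction.cardFactors p.1 ≡ 0 [MOD k] ∧
      ArithmeticFunction.cardFactors p.2 ≡ j [MOD k])).card : ℝ) ≤
      ((SB k j u₁ u₂ (t ^ 2) X).card : ℝ) +
      (((SP X).filter (fun p => ¬ (t ^ 2 * X < p.1 ∧ t ^ 2 * X < p.2))).card : ℝ) := by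
    have hsub : (SP X).filter (fun p => u₁ p.1 = 1 ∧ u₂ p.2 = 1 ∧
      ArithmeticFunction.cardFactors p.1 ≡ 0 [MOD k] ∧
      ArithmeticFunction.cardFactors p.2 ≡ j [MOD k]) ⊆ SB k j u₁ u₂ (t ^ 2) X ∪
      (SP X).filter (fun p => ¬ (t ^ 2 * X < p.1 ∧ t ^ 2 * X < p.2)) := by
      intro p hp
      unfold SB
      rw [mem_filter] at hp
      rw [mem_union, mem_filter, mem_filter]
      by_cases hw : t ^ 2 * X < p.1 ∧ t ^ 2 * X < p.2
      · left; exact ⟨hp.1, hw, hp.2⟩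
      · right; exact ⟨hp.1, hw⟩
    exact_mod_cast (Finset.card_le_card hsub).trans (Finset.card_union_le _ _)
  have a9 : 2 * C * t * X ≤ b * X := mul_le_mul_of_nonneg_right ht2 hX0.le
  have a10 : 0 < b * X := by positivity
  linarith

/-- `n ^ 2 + 1` has primes of the given sets in the given ranges -/
def Gd {r s : ℕ} (u v : Fin r → ℝ) (P : Fin r → Set ℕ) (u' v' : Fin s → ℝ) (P' : Fin s → Set ℕ)
    (k j X n : ℕ) : Prop :=
  ArithmeticFunction.cardFactors (n ^ 2 + 1) ≡ j [MOD k] ∧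
  ∃ (p : Fin r → ℕ) (q : Fin s → ℕ), Function.Injective p ∧ Function.Injective q ∧
    (∀ i, (p i).Prime ∧ p i ∈ P i ∧ (X : ℝ) ^ u i < p i ∧ (p i : ℝ) ≤ (X : ℝ) ^ v i) ∧
    (∀ i, (q i).Prime ∧ q i ∈ P' i ∧ (X : ℝ) ^ u' i < q i ∧ (q i : ℝ) ≤ (X : ℝ) ^ v' i) ∧
    (∏ i, p i) * (∏ i, q i) ∣ n ^ 2 + 1

open scoped Classical in
/-- the number of these `n ≤ X` -/
noncomputable def cG {r s : ℕ} (u v : Fin r → ℝ) (P : Fin r → Set ℕ) (u' v' : Fin s → ℝ)
    (P' : Fin s → Set ℕ) (k j X : ℕ) : ℕ := ((Icc 1 X).filter (Gd u v P u' v' P' k j X)).card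

theorem prod_dvd_of {r : ℕ} {p : Fin r → ℕ} (hp : Function.Injective p) {m : ℕ}
    (h : ∀ i, (p i).Prime ∧ p i ∣ m) : ∏ i, p i ∣ m := by
  rw [← Finset.prod_image (s := univ) (g := p) (f := fun x => x) (fun x _ y _ hxy => hp hxy)]
  refine Finset.prod_primes_dvd m ?_ ?_
  · intro q hq
    rw [mem_image] at hq
    obtain ⟨i, -, rfl⟩ := hq
    exact (h i).1.prime
  · intro q hq
    rw [mem_image] at hq
    obtain ⟨i, -, rfl⟩ := hq
    exact (h i).2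

theorem cnt_scale {k : ℕ} (hk : 1 ≤ k) (j : ℕ) {r s : ℕ} {u v : Fin r → ℝ} {u' v' : Fin s → ℝ}
    (hu : ∀ i, 0 < u i) (huv : ∀ i, u i < v i) (hv : ∑ i, v i ≤ 1) {P : Fin r → Set ℕ}
    (hP : ∀ i, Thick (P i)) (hu' : ∀ i, 0 < u' i) (huv' : ∀ i, u' i < v' i) (hv' : ∑ i, v' i ≤ 1)
    {P' : Fin s → Set ℕ} (hP' : ∀ i, Thick (P' i)) (ε : ℝ) (hε : 0 < ε) :
    LogNull (fun X => (cG u v P u' v' P' k j X : ℝ) < X / Real.log X ^ (Real.log 2 + ε)) := by
  classical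
  obtain ⟨w, hw⟩ : ∃ w : Fin r → ℝ, w = fun i => (u i + v i) / 2 := ⟨_, rfl⟩
  obtain ⟨w', hw'⟩ : ∃ w' : Fin s → ℝ, w' = fun i => (u' i + v' i) / 2 := ⟨_, rfl⟩
  have hw1 : ∀ i, u i < w i ∧ w i < v i := fun i => by
    rw [hw]; have := huv i; constructor <;> simp only <;> linarith
  have hw1' : ∀ i, u' i < w' i ∧ w' i < v' i := fun i => by
    rw [hw']; have := huv' i; constructor <;> simp only <;> linarith
  obtain ⟨b, t, hb, ht, hnull⟩ := pairs_null hk j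
    (pu_Ad (u := w) (v := v) (fun i => (hu i).trans (hw1 i).1) (fun i => (hw1 i).2) P)
    (pu_Ad (u := w') (v := v') (fun i => (hu' i).trans (hw1' i).1) (fun i => (hw1' i).2) P')
    (pat_low (fun i => (hu i).trans (hw1 i).1) (fun i => (hw1 i).2) hv hP)
    (pat_low (fun i => (hu' i).trans (hw1' i).1) (fun i => (hw1' i).2) hv' hP')
  have hns : ¬ IsSquare ((0 : ℤ) ^ 2 - 4 * 1) := by
    rintro ⟨x, hx⟩
    nlinarith [mul_self_nonneg x]
  obtain ⟨N₁, hcore⟩ := Pool.Agent.TH890.DV.cnt_core (t := 0) (c := 1) hns (F := fun m => m ^ 2 + 1)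
    (A := 1) (β := 0) le_rfl le_rfl (by
      intro m
      unfold Pool.Agent.W78.GT.Qp
      push_cast
      ring) b ε hb hε
  obtain ⟨X₂, hX₂⟩ := exists_unif (P := fun (i : Fin r) X => X ^ u i ≤ (t * X) ^ w i) (by
    intro i
    obtain ⟨R, -, hR⟩ := pow_cmp ht (hu i) (hw1 i).1
    exact ⟨R, hR⟩)
  obtain ⟨X₃, hX₃⟩ := exists_unif (P := fun (i : Fin s) X => X ^ u' i ≤ (t * X) ^ w' i) (by
    intro i
    obtain ⟨R, -, hR⟩ := pow_cmp ht (hu' i) (hw1' i).1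
    exact ⟨R, hR⟩)
  refine LogNull.of_ev (max (max ⌈X₂⌉₊ ⌈X₃⌉₊) (max N₁ (⌈2 / t⌉₊ + 1))) ?_ hnull
  intro X hX hlt
  by_contra hcon
  push Not at hcon
  have g1 : X₂ ≤ (X : ℝ) := (Nat.le_ceil _).trans (by
    exact_mod_cast ((le_max_left _ _).trans (le_max_left _ _)).trans hX)
  have g2 : X₃ ≤ (X : ℝ) := (Nat.le_ceil _).trans (by
    exact_mod_cast ((le_max_right _ _).trans (le_max_left _ _)).trans hX)
  have g3 : N₁ ≤ X := ((le_max_left _ _).trans (le_max_right _ _)).trans hX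
  have g4 : ⌈2 / t⌉₊ + 1 ≤ X := ((le_max_right _ _).trans (le_max_right _ _)).trans hX
  have g5 : 2 ≤ t * X := by
    have h1 : 2 / t ≤ X := (Nat.le_ceil _).trans (by exact_mod_cast (by omega : ⌈2 / t⌉₊ ≤ X))
    rw [div_le_iff₀ ht] at h1
    linarith
  have hX0 : (0 : ℝ) < X := by exact_mod_cast (by omega : 0 < X)
  have hfin := hcore X g3 (SB k j (pu w v P) (pu w' v' P') t X) (by
    intro p hp
    unfold SB at hp
    rw [mem_filter, mem_SP] at hp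
    obtain ⟨⟨⟨⟨a1, a2⟩, a3, a4⟩, a5⟩, -⟩ := hp
    exact ⟨a1, a2, a3, a4, a5⟩) hcon ((Icc 1 X).filter (Gd u v P u' v' P' k j X)) (by
    intro m hm
    obtain ⟨p, hp, he⟩ := hm
    unfold SB at hp
    rw [mem_filter, mem_SP] at hp
    obtain ⟨⟨⟨⟨a1, a2⟩, a3, a4⟩, -⟩, ⟨a5, a6⟩, a7, a8, a9, a10⟩ := hp
    have he' : p.1 * p.2 = m ^ 2 + 1 := he
    have hm1 : 1 ≤ m := by
      by_contra h0
      have h1 : m = 0 := by omega
      rw [h1] at he'
      have h2 : p.1 ≤ p.1 * p.2 := Nat.le_mul_of_pos_right _ (by omega)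
      have h3 : p.1 ≤ 1 := by omega
      have h4 : (p.1 : ℝ) ≤ 1 := by exact_mod_cast h3
      linarith
    have hmX : m ≤ X := by
      have h1 : m ^ 2 + 1 ≤ X * X := by rw [← he']; exact Nat.mul_le_mul a2 a4
      by_contra h2
      have h3 : X + 1 ≤ m := by omega
      nlinarith
    rw [mem_filter, mem_Icc]
    refine ⟨⟨hm1, hmX⟩, ?_, ?_⟩
    · rw [← he', ArithmeticFunction.cardFactors_mul (by omega) (by omega)]
      have := a9.add a10
      rwa [zero_add] at this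
    · rw [pu_one (by omega)] at a7 a8
      obtain ⟨x, hx, hx'⟩ := a7
      obtain ⟨y, hy, hy'⟩ := a8
      have b2 : (p.1 : ℝ) ≤ X := by exact_mod_cast a2
      have b4 : (p.2 : ℝ) ≤ X := by exact_mod_cast a4
      refine ⟨x, y, hx, hy, fun i => ?_, fun i => ?_, ?_⟩
      · obtain ⟨c1, c2, c3, c4, c5⟩ := hx' i
        refine ⟨c2, c1, ?_, ?_⟩
        · refine lt_of_le_of_lt ((hX₂ X g1 i).trans ?_) c4
          exact Real.rpow_le_rpow (by positivity) a5.le ((hu i).trans (hw1 i).1).le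
        · exact c5.trans (Real.rpow_le_rpow (Nat.cast_nonneg _) b2 ((hu i).trans (huv i)).le)
      · obtain ⟨c1, c2, c3, c4, c5⟩ := hy' i
        refine ⟨c2, c1, ?_, ?_⟩
        · refine lt_of_le_of_lt ((hX₃ X g2 i).trans ?_) c4
          exact Real.rpow_le_rpow (by positivity) a6.le ((hu' i).trans (hw1' i).1).le
        · exact c5.trans (Real.rpow_le_rpow (Nat.cast_nonneg _) b4 ((hu' i).trans (huv' i)).le)
      · rw [← he']
        exact Nat.mul_dvd_mul (prod_dvd_of hx fun i => ⟨(hx' i).2.1, (hx' i).2.2.1⟩)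
          (prod_dvd_of hy fun i => ⟨(hy' i).2.1, (hy' i).2.2.1⟩))
  have e : (cG u v P u' v' P' k j X : ℝ) =
      (((Icc 1 X).filter (Gd u v P u' v' P' k j X)).card : ℝ) := rfl
  linarith

/-- all large scales -/
theorem cnt_all {k : ℕ} (hk : 1 ≤ k) (j : ℕ) {r s : ℕ} {u v : Fin r → ℝ} {u' v' : Fin s → ℝ}
    (hu : ∀ i, 0 < u i) (huv : ∀ i, u i < v i) (hv : ∑ i, v i ≤ 1) {P : Fin r → Set ℕ}
    (hP : ∀ i, Thick (P i)) (hu' : ∀ i, 0 < u' i) (huv' : ∀ i, u' i < v' i) (hv' : ∑ i, v' i ≤ 1)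
    {P' : Fin s → Set ℕ} (hP' : ∀ i, Thick (P' i)) (δ : ℝ) (hδ : 0 < δ) :
    ∃ X₀ : ℕ, ∀ X : ℕ, X₀ ≤ X → (X : ℝ) ^ (1 - δ) ≤ cG u v P u' v' P' k j X := by
  classical
  obtain ⟨w, hw⟩ : ∃ w : Fin r → ℝ, w = fun i => (u i + v i) / 2 := ⟨_, rfl⟩
  obtain ⟨w', hw'⟩ : ∃ w' : Fin s → ℝ, w' = fun i => (u' i + v' i) / 2 := ⟨_, rfl⟩
  have hw1 : ∀ i, u i < w i ∧ w i < v i := fun i => by
    rw [hw]; have := huv i; constructor <;> simp only <;> linarith
  have hw1' : ∀ i, u' i < w' i ∧ w' i < v' i := fun i => by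
    rw [hw']; have := huv' i; constructor <;> simp only <;> linarith
  have h1 := cnt_scale hk j (u := w) (v := v) (u' := w') (v' := v')
    (fun i => (hu i).trans (hw1 i).1) (fun i => (hw1 i).2) hv hP
    (fun i => (hu' i).trans (hw1' i).1) (fun i => (hw1' i).2) hv' hP' 1 one_pos
  -- the exponent of the smaller scale
  obtain ⟨d₁, hd₁, hd₁'⟩ := exists_low (ι := Fin r) (b := fun i => 1 - u i / w i) (by
    intro i
    have : u i / w i < 1 := by rw [div_lt_one ((hu i).trans (hw1 i).1)]; exact (hw1 i).1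
    linarith)
  obtain ⟨d₂, hd₂, hd₂'⟩ := exists_low (ι := Fin s) (b := fun i => 1 - u' i / w' i) (by
    intro i
    have : u' i / w' i < 1 := by rw [div_lt_one ((hu' i).trans (hw1' i).1)]; exact (hw1' i).1
    linarith)
  obtain ⟨η, hη⟩ : ∃ η : ℝ, η = min (min d₁ d₂) (min (δ / 2) (1 / 2)) := ⟨_, rfl⟩
  have hη0 : 0 < η := by
    rw [hη]; exact lt_min (lt_min hd₁ hd₂) (lt_min (by positivity) (by norm_num))
  have hη1 : η ≤ d₁ := by rw [hη]; exact (min_le_left _ _).trans (min_le_left _ _)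
  have hη2 : η ≤ d₂ := by rw [hη]; exact (min_le_left _ _).trans (min_le_right _ _)
  have hη3 : η ≤ δ / 2 := by rw [hη]; exact (min_le_right _ _).trans (min_le_left _ _)
  have hη4 : η ≤ 1 / 2 := by rw [hη]; exact (min_le_right _ _).trans (min_le_right _ _)
  obtain ⟨N₁, hN₁⟩ := LogNull.exists_scale h1 (θ := 1 - η) (by linarith) (by linarith)
  -- the logarithms
  have h4 : (fun x : ℝ => Real.log x ^ (Real.log 2 + 1)) =o[atTop] (fun x : ℝ => x ^ (δ / 2)) :=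
    isLittleO_log_rpow_rpow_atTop (Real.log 2 + 1) (by positivity)
  have h5 := (h4.comp_tendsto tendsto_natCast_atTop_atTop).bound (one_pos)
  obtain ⟨N₂, hN₂⟩ := eventually_atTop.1 h5
  refine ⟨max N₁ (max N₂ 9), fun X hX => ?_⟩
  have g1 : N₁ ≤ X := (le_max_left _ _).trans hX
  have g2 : N₂ ≤ X := ((le_max_left _ _).trans (le_max_right _ _)).trans hX
  have g3 : 9 ≤ X := ((le_max_right _ _).trans (le_max_right _ _)).trans hX
  have hX9 : (9 : ℝ) ≤ X := by exact_mod_cast g3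
  have hX0 : (0 : ℝ) < X := by linarith
  obtain ⟨Y, hY1, hY2, hY3⟩ := hN₁ X g1
  rw [not_lt] at hY3
  have hY2' : (Y : ℝ) ≤ X := by exact_mod_cast hY2
  have hYs : (3 : ℝ) ≤ Y := by
    refine le_trans ?_ hY1
    calc (3 : ℝ) = 9 ^ (1 / 2 : ℝ) := by
          rw [← Real.sqrt_eq_rpow]
          rw [show (9 : ℝ) = 3 ^ 2 by norm_num, Real.sqrt_sq (by norm_num)]
      _ ≤ 9 ^ (1 - η) := Real.rpow_le_rpow_of_exponent_le (by norm_num) (by linarith)
      _ ≤ (X : ℝ) ^ (1 - η) := Real.rpow_le_rpow (by norm_num) hX9 (by linarith)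
  have hY0 : (0 : ℝ) < Y := by linarith
  have hlY : 0 < Real.log Y := Real.log_pos (by linarith)
  have hlX : 0 < Real.log X := Real.log_pos (by linarith)
  have hl2 : 0 < Real.log 2 := Real.log_pos (by norm_num)
  -- comparison of the counts
  have hcmp : cG w v P w' v' P' k j Y ≤ cG u v P u' v' P' k j X := by
    unfold cG
    apply Finset.card_le_card
    intro n hn
    rw [mem_filter, mem_Icc] at hn ⊢
    obtain ⟨⟨a1, a2⟩, a3, p, q, a4, a5, a6, a7, a8⟩ := hn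
    refine ⟨⟨a1, a2.trans hY2⟩, a3, p, q, a4, a5, fun i => ?_, fun i => ?_, a8⟩
    · obtain ⟨b1, b2, b3, b4⟩ := a6 i
      have hwi := (hu i).trans (hw1 i).1
      refine ⟨b1, b2, lt_of_le_of_lt ?_ b3, b4.trans ?_⟩
      · have e1 : u i ≤ (1 - η) * w i := by
          have h6 := hd₁' i
          have h7 : u i / w i ≤ 1 - η := by linarith
          rwa [div_le_iff₀ hwi] at h7
        calc (X : ℝ) ^ u i ≤ (X : ℝ) ^ ((1 - η) * w i) :=
              Real.rpow_le_rpow_of_exponent_le (by linarith) e1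
          _ = ((X : ℝ) ^ (1 - η)) ^ w i := Real.rpow_mul hX0.le _ _
          _ ≤ (Y : ℝ) ^ w i := Real.rpow_le_rpow (by positivity) hY1 hwi.le
      · exact Real.rpow_le_rpow hY0.le hY2' ((hu i).trans (huv i)).le
    · obtain ⟨b1, b2, b3, b4⟩ := a7 i
      have hwi := (hu' i).trans (hw1' i).1
      refine ⟨b1, b2, lt_of_le_of_lt ?_ b3, b4.trans ?_⟩
      · have e1 : u' i ≤ (1 - η) * w' i := by
          have h6 := hd₂' i
          have h7 : u' i / w' i ≤ 1 - η := by linarith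
          rwa [div_le_iff₀ hwi] at h7
        calc (X : ℝ) ^ u' i ≤ (X : ℝ) ^ ((1 - η) * w' i) :=
              Real.rpow_le_rpow_of_exponent_le (by linarith) e1
          _ = ((X : ℝ) ^ (1 - η)) ^ w' i := Real.rpow_mul hX0.le _ _
          _ ≤ (Y : ℝ) ^ w' i := Real.rpow_le_rpow (by positivity) hY1 hwi.le
      · exact Real.rpow_le_rpow hY0.le hY2' ((hu' i).trans (huv' i)).le
  refine le_trans ?_ (by exact_mod_cast hcmp : (cG w v P w' v' P' k j Y : ℝ) ≤ _)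
  refine le_trans ?_ hY3
  have h6 := hN₂ X g2
  simp only [Function.comp, one_mul] at h6
  rw [Real.norm_of_nonneg (by positivity), Real.norm_of_nonneg (by positivity)] at h6
  have h7 : Real.log Y ^ (Real.log 2 + 1) ≤ (X : ℝ) ^ (δ / 2) := by
    refine le_trans ?_ h6
    exact Real.rpow_le_rpow hlY.le (Real.log_le_log hY0 hY2') (by positivity)
  rw [le_div_iff₀ (by positivity)]
  calc (X : ℝ) ^ (1 - δ) * Real.log Y ^ (Real.log 2 + 1) ≤ (X : ℝ) ^ (1 - δ) * (X : ℝ) ^ (δ / 2) :=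
        mul_le_mul_of_nonneg_left h7 (by positivity)
    _ = (X : ℝ) ^ (1 - δ / 2) := by
        rw [← Real.rpow_add hX0]
        congr 1
        ring
    _ ≤ (X : ℝ) ^ (1 - η) := Real.rpow_le_rpow_of_exponent_le (by linarith) (by linarith)
    _ ≤ Y := hY1

end Pool.Agent.T2H34
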