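import Pool.Agent.T2H34.DhEnt

/-!
Pairs of determinant `ℓ`, congruent modulo `ℓ`: the mean over the primes, for most scales.
-/

set_option autoImplicit false

namespace Pool.Agent.T2H34.Dh

open Finset Filter
open Pool.Agent.W78.GA (Qd nm prim dt ip lat ball pball edge nm_mul prim_ne_zero)
open Pool.Agent.W78.EC (Gi cone cw PQ th good InG TT res av Tr)
open Pool.Agent.W251.EX (Mrs Apd S_PERX)
open Pool.Agent.W78.EC.Fx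
open Pool.Agent.W540.EC
open Pool.Agent.W214.EX (Vs wF norm_Vs)

open scoped Classical in
theorem avxh {N : ℕ} (hN : 1 ≤ N) {ℓ : ℕ} [NeZero ℓ] {F₁ F₂ : Gi → ℂ} (h1 : ∀ z, F₁ z ∈ Vs N)
    (h2 : ∀ z, F₂ z ∈ Vs N) {τ₁ τ₂ : ℂ} (ht1 : ‖τ₁‖ = 1) (ht2 : ‖τ₂‖ = 1)
    (hm1 : ∀ π z : Gi, (nm π).Prime → z ≠ 0 → F₁ (π * z) = τ₁ * F₁ z)
    (hm2 : ∀ π z : Gi, (nm π).Prime → z ≠ 0 → F₂ (π * z) = τ₂ * F₂ z)
    (hM1 : Mrs (fun z => (F₂ z).re)) (hM2 : Mrs (fun z => (F₂ z).im))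
    {s₁ s₂ s₃ s₄ : ℝ} (hs₁ : 0 < s₁) (hs₃ : 0 < s₃) (hs₃₄ : s₃ < s₄) (hs₄ : s₄ ≤ 1) :
    ∀ ε : ℝ, 0 < ε → ∀ Q₁ : ℕ, ∃ Q₂ N₀ : ℕ, ∀ N' : ℕ, N₀ ≤ N' →
    ∃ Q : ℕ, Q₁ ≤ Q ∧ Q ≤ Q₂ ∧ ∑ X ∈ Icc 1 N', 1 / (X : ℝ) ^ 2 *
      ‖∑ p ∈ PQ Q, ((Real.log p * ((p : ℝ) + 1) : ℝ) : ℂ) *
        Th ℓ F₁ F₂ s₁ s₂ s₃ s₄ ((X : ℝ) / p)‖ ≤ ε * Q * Real.log N' := by
  intro ε hε Q₁'
  have hℓ : 1 ≤ ℓ := Nat.one_le_iff_ne_zero.2 (NeZero.ne ℓ)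
  have hℓR : (1 : ℝ) ≤ ℓ := by exact_mod_cast hℓ
  obtain ⟨T, hTd⟩ : ∃ T : ℝ → ℂ, T = Th ℓ F₁ F₂ s₁ s₂ s₃ s₄ := ⟨_, rfl⟩
  obtain ⟨c, C, hc0, Qc, hQc⟩ := Pool.Agent.W899.EC.pcnt
  obtain ⟨L2, hL2⟩ : ∃ L2 : ℝ, L2 = (ℓ : ℝ) ^ 2 := ⟨_, rfl⟩
  have hL21 : 1 ≤ L2 := by rw [hL2]; exact one_le_pow₀ hℓR
  obtain ⟨εD, hεD⟩ : ∃ x : ℝ, x = ε / (16 * L2) := ⟨_, rfl⟩
  obtain ⟨εB, hεB⟩ : ∃ x : ℝ, x = ε / (64 * L2) := ⟨_, rfl⟩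
  obtain ⟨εL, hεL⟩ : ∃ x : ℝ, x = ε / (32 * (|C| + 1)) := ⟨_, rfl⟩
  have hεD0 : 0 < εD := by rw [hεD]; positivity
  have hεB0 : 0 < εB := by rw [hεB]; positivity
  have hεL0 : 0 < εL := by rw [hεL]; positivity
  obtain ⟨s, hs⟩ : ∃ s : ℝ, s = min s₁ s₃ := ⟨_, rfl⟩
  have hs0 : 0 < s := by rw [hs]; exact lt_min hs₁ hs₃
  have hss1 : s ≤ s₁ := by rw [hs]; exact min_le_left _ _
  have hss3 : s ≤ s₃ := by rw [hs]; exact min_le_right _ _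
  obtain ⟨K₀, hK₀⟩ := lossh hℓ s εL hs0 hεL0
  obtain ⟨K, hKd⟩ : ∃ K : ℕ, K = max K₀ 1 := ⟨_, rfl⟩
  have hK : 1 ≤ K := by rw [hKd]; exact le_max_right _ _
  obtain ⟨κ, hκ, hκ'⟩ := hK₀ K (by rw [hKd]; exact le_max_left _ _)
  obtain ⟨QL, hQL⟩ := hκ' κ hκ le_rfl
  obtain ⟨B, hB⟩ := zxh ℓ hℓ K κ hK hκ
  have hF2 : ∀ z, ‖F₂ z‖ ≤ 1 := fun z => Pool.Agent.T2H34.normV hN (h2 z)
  have hQBex : ∀ β : ZMod ℓ × ZMod ℓ, ∃ QB : ℕ, ∀ Q : ℕ, QB ≤ Q → ∃ X₁ : ℝ, ∀ X : ℝ, X₁ ≤ X →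
      ∀ α : Gi → ℝ, (∀ z, |α z| ≤ 1) →
      |∑ e ∈ good K κ Q X, ∑ v ∈ cone X e.1 e.2, ∑ w ∈ cw X s₃ s₄ e.1 e.2,
        α v * clz ℓ β (fun z => (F₂ z).re) w * thh ℓ Q (dt v w)| ≤ εB * X * Q ∧
      |∑ e ∈ good K κ Q X, ∑ v ∈ cone X e.1 e.2, ∑ w ∈ cw X s₃ s₄ e.1 e.2,
        α v * clz ℓ β (fun z => (F₂ z).im) w * thh ℓ Q (dt v w)| ≤ εB * X * Q := by
    intro β
    obtain ⟨Qr, hQr⟩ := bt_clz (A := fun z => (F₂ z).re)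
      (fun z => (Complex.abs_re_le_norm _).trans (hF2 z)) hM1 β K κ s₃ s₄ εB hK hκ hs₃ hs₃₄ hs₄ hεB0
    obtain ⟨Qi, hQi⟩ := bt_clz (A := fun z => (F₂ z).im)
      (fun z => (Complex.abs_im_le_norm _).trans (hF2 z)) hM2 β K κ s₃ s₄ εB hK hκ hs₃ hs₃₄ hs₄ hεB0
    refine ⟨max Qr Qi, fun Q hQ => ?_⟩
    obtain ⟨Xr, hXr⟩ := hQr Q ((le_max_left _ _).trans hQ)
    obtain ⟨Xi, hXi⟩ := hQi Q ((le_max_right _ _).trans hQ)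
    exact ⟨max Xr Xi, fun X hX α hα => ⟨hXr X ((le_max_left _ _).trans hX) α hα,
      hXi X ((le_max_right _ _).trans hX) α hα⟩⟩
  choose QBf hQBf using hQBex
  obtain ⟨QB, hQB⟩ : ∃ QB : ℕ, QB = ∑ β : ZMod ℓ × ZMod ℓ, QBf β := ⟨_, rfl⟩
  have hQBle : ∀ β, QBf β ≤ QB := fun β => by
    rw [hQB]
    exact single_le_sum (f := fun β => QBf β) (fun _ _ => Nat.zero_le _) (mem_univ β)
  obtain ⟨Q₁, hQ₁⟩ : ∃ Q₁ : ℕ, Q₁ = Q₁' + Qc + QL + QB + ℓ + (⌊(K : ℝ) / κ⌋₊ + 1) + 1 :=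
    ⟨_, rfl⟩
  obtain ⟨Q₂, X₀, N₀, hD⟩ := Pool.Agent.W78.EC.dcpAll (Lh N ℓ) K B εD hK hεD0 Q₁
  -- thresholds
  have hXL : ∀ Q : ℕ, ∃ X₁ : ℝ, Q₁ ≤ Q → ∀ X : ℝ, X₁ ≤ X → ∀ p ∈ PQ Q, ∀ π : Gi, nm π = p →
    (((dedgeh ℓ (X / p)).filter (fun e => rcl ℓ e.1 = rcl ℓ e.2 ∧ 0 < ip e.1 e.2 ∧
      s * (X / p) < (nm e.1 : ℝ) ∧
      s * (X / p) < (nm e.2 : ℝ) ∧ ¬ InG K κ Q X π e)).card : ℝ) ≤ εL * (X / p) := by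
    intro Q
    by_cases hQ : Q₁ ≤ Q
    · obtain ⟨X₁, hX₁⟩ := hQL Q (by omega)
      exact ⟨X₁, fun _ => hX₁⟩
    · exact ⟨0, fun h => absurd h hQ⟩
  have hXB : ∀ Q : ℕ, ∃ X₁ : ℝ, Q₁ ≤ Q → ∀ X : ℝ, X₁ ≤ X → ∀ β, ∀ α : Gi → ℝ,
      (∀ z, |α z| ≤ 1) →
      |∑ e ∈ good K κ Q X, ∑ v ∈ cone X e.1 e.2, ∑ w ∈ cw X s₃ s₄ e.1 e.2,
        α v * clz ℓ β (fun z => (F₂ z).re) w * thh ℓ Q (dt v w)| ≤ εB * X * Q ∧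
      |∑ e ∈ good K κ Q X, ∑ v ∈ cone X e.1 e.2, ∑ w ∈ cw X s₃ s₄ e.1 e.2,
        α v * clz ℓ β (fun z => (F₂ z).im) w * thh ℓ Q (dt v w)| ≤ εB * X * Q := by
    intro Q
    by_cases hQ : Q₁ ≤ Q
    · have hex : ∀ β, ∃ X₁ : ℝ, ∀ X : ℝ, X₁ ≤ X → ∀ α : Gi → ℝ, (∀ z, |α z| ≤ 1) →
          |∑ e ∈ good K κ Q X, ∑ v ∈ cone X e.1 e.2, ∑ w ∈ cw X s₃ s₄ e.1 e.2,
            α v * clz ℓ β (fun z => (F₂ z).re) w * thh ℓ Q (dt v w)| ≤ εB * X * Q ∧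
          |∑ e ∈ good K κ Q X, ∑ v ∈ cone X e.1 e.2, ∑ w ∈ cw X s₃ s₄ e.1 e.2,
            α v * clz ℓ β (fun z => (F₂ z).im) w * thh ℓ Q (dt v w)| ≤ εB * X * Q :=
        fun β => hQBf β Q (by have := hQBle β; omega)
      choose Xf hXf using hex
      refine ⟨∑ β : ZMod ℓ × ZMod ℓ, |Xf β|, fun _ X hX β α hα => hXf β X ?_ α hα⟩
      refine (le_abs_self _).trans (le_trans ?_ hX)
      exact single_le_sum (f := fun β => |Xf β|) (fun _ _ => abs_nonneg _) (mem_univ β)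
    · exact ⟨0, fun h => absurd h hQ⟩
  choose XL hXL' using hXL
  choose XB hXB' using hXB
  have hpi : ∀ p : ℕ, ∃ πr : Gi × ℤ, p.Prime → p % 4 = 1 →
      nm πr.1 = p ∧ lat p πr.2 πr.1 ∧ (p : ℤ) ∣ πr.2 ^ 2 + 1 := by
    intro p
    by_cases hp : p.Prime ∧ p % 4 = 1
    · obtain ⟨π, r, h⟩ := exists_pi hp.1 hp.2
      exact ⟨(π, r), fun _ _ => h⟩
    · exact ⟨(0, 0), fun ha hb => absurd ⟨ha, hb⟩ hp⟩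
  choose πr hπr using hpi
  obtain ⟨X₁, hX₁⟩ : ∃ X₁ : ℕ, X₁ = X₀ + ∑ Q ∈ Icc Q₁ Q₂,
      (⌈XL Q⌉₊ + ⌈XB Q⌉₊ + 2 * (K * Q)) := ⟨_, rfl⟩
  have hX₁' : ∀ Q : ℕ, Q₁ ≤ Q → Q ≤ Q₂ → XL Q ≤ X₁ ∧ XB Q ≤ X₁ ∧
      2 * (K * Q : ℝ) ≤ X₁ := by
    intro Q ha hb
    have h : ⌈XL Q⌉₊ + ⌈XB Q⌉₊ + 2 * (K * Q) ≤ X₁ := by
      have := single_le_sum (f := fun Q => ⌈XL Q⌉₊ + ⌈XB Q⌉₊ + 2 * (K * Q))
        (fun _ _ => Nat.zero_le _) (mem_Icc.2 ⟨ha, hb⟩)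
      omega
    have h' : ((⌈XL Q⌉₊ : ℝ) + ⌈XB Q⌉₊ + 2 * (K * Q)) ≤ X₁ := by exact_mod_cast h
    have e1 := Nat.le_ceil (XL Q)
    have e2 := Nat.le_ceil (XB Q)
    have e3 : (0 : ℝ) ≤ ⌈XL Q⌉₊ := Nat.cast_nonneg _
    have e4 : (0 : ℝ) ≤ ⌈XB Q⌉₊ := Nat.cast_nonneg _
    have e5 : (0 : ℝ) ≤ 2 * (K * Q : ℝ) := by positivity
    exact ⟨by linarith, by linarith, by linarith⟩
  obtain ⟨SX, hSX⟩ : ∃ SX : ℕ → ℕ → ℂ, SX = fun (Q X : ℕ) => ∑ p ∈ PQ Q,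
      ((Real.log p * ((p : ℝ) + 1) : ℝ) : ℂ) * T ((X : ℝ) / p) := ⟨_, rfl⟩
  obtain ⟨M, hM⟩ : ∃ M : ℝ, M = ∑ X ∈ Icc 1 X₁, 1 / (X : ℝ) ^ 2 *
    ∑ Q ∈ Icc Q₁ Q₂, ‖SX Q X‖ := ⟨_, rfl⟩
  have hM0 : 0 ≤ M := by
    rw [hM]
    exact sum_nonneg fun X _ => mul_nonneg (by positivity)
      (sum_nonneg fun _ _ => norm_nonneg _)
  refine ⟨Q₂, max (max N₀ 3) ⌈Real.exp (M / (ε / 4))⌉₊, fun N' hN' => ?_⟩
  have hN0 : N₀ ≤ N' := le_trans (le_trans (le_max_left _ _) (le_max_left _ _)) hN'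
  have hN3 : 3 ≤ N' := le_trans (le_trans (le_max_right _ _) (le_max_left _ _)) hN'
  have hNR : (0 : ℝ) < N' := by
    have : (3 : ℝ) ≤ N' := by exact_mod_cast hN3
    linarith
  have hNe : M / (ε / 4) ≤ Real.log N' := by
    rw [Real.le_log_iff_exp_le hNR]
    have := le_trans (le_max_right _ _) hN'
    exact (Nat.le_ceil _).trans (by exact_mod_cast this)
  have hlogN : 1 ≤ Real.log N' := by
    rw [Real.le_log_iff_exp_le hNR]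
    have h1 : (3 : ℝ) ≤ N' := by exact_mod_cast hN3
    have h2 := Real.exp_one_lt_d9
    linarith
  have hMlog : M ≤ ε / 4 * Real.log N' := by
    rw [div_le_iff₀ (by positivity)] at hNe
    linarith
  obtain ⟨Q, hQ1, hQ2, hζ⟩ := hD N' hN0
    (fun X : ℕ => lbh ℓ h1 h2 s₁ s₂ s₃ s₄ (X : ℝ))
  have hQpos : 1 ≤ Q := by omega
  have hQR : (1 : ℝ) ≤ Q := by exact_mod_cast hQpos
  have hKQ : (K : ℝ) / κ < Q := by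
    have h := Nat.lt_floor_add_one ((K : ℝ) / κ)
    have h' : ⌊(K : ℝ) / κ⌋₊ + 1 ≤ Q := by omega
    have h'' : ((⌊(K : ℝ) / κ⌋₊ : ℝ) + 1) ≤ Q := by exact_mod_cast h'
    linarith
  refine ⟨Q, by omega, hQ2, ?_⟩
  have he1 : ∀ β, ∀ x : Lh N ℓ, ‖d1h β x‖ ≤ 1 := by
    intro β x
    unfold d1h
    split_ifs
    · exact norm_Vs hN _
    · rw [norm_zero]; exact zero_le_one
  have he2 : ∀ β, ∀ x : Lh N ℓ, ‖d2h β x‖ ≤ 1 := by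
    intro β x
    unfold d2h
    split_ifs
    · exact norm_Vs hN _
    · rw [norm_zero]; exact zero_le_one
  have hex : ∀ β : ZMod ℓ × ZMod ℓ,
      ∃ ζ : (ℕ → Tr (Lh N ℓ) → ℕ × ℕ × ℕ × ℕ → ℝ) × (ℕ → Tr (Lh N ℓ) → ℕ × ℕ × ℕ × ℕ → ℝ),
      (∀ p T y, |ζ.1 p T y| ≤ B ∧ |ζ.2 p T y| ≤ B) ∧
      ∀ (lab : Gi → Lh N ℓ) (X : ℝ), 2 * (K * Q : ℝ) ≤ X → ∀ e ∈ good K κ Q X, ∀ p ∈ PQ Q,
      (((ζ.1 p (TT lab X e) (res p e) : ℝ) : ℂ) +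
        Complex.I * ((ζ.2 p (TT lab X e) (res p e) : ℝ) : ℂ) =
        (((p : ℝ) + 1) / (2 * Q) : ℝ) * ∑ z ∈ cone X e.1 e.2, ∑ w ∈ cone X e.1 e.2,
          (if dt z w = (ℓ : ℤ) * p ∧ lat p ((πr p).2) z then
            d1h β (lab z) * d2h β (lab w) else 0)) ∧
      (((av p (ζ.1 p) (TT lab X e) : ℝ) : ℂ) +
        Complex.I * ((av p (ζ.2 p) (TT lab X e) : ℝ) : ℂ) =
        (1 / (2 * (Q : ℝ)) : ℝ) * ∑ z ∈ cone X e.1 e.2, ∑ w ∈ cone X e.1 e.2,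
          (if dt z w = (ℓ : ℤ) * p then d1h β (lab z) * d2h β (lab w) else 0)) := by
    intro β
    obtain ⟨ζ₁, ζ₂, g1, g2⟩ := hB Q hKQ (Lh N ℓ) (d1h β) (d2h β) (he1 β) (he2 β)
      (fun p => (πr p).2)
    refine ⟨(ζ₁, ζ₂), g1, fun lab X hX e he p hpm => ?_⟩
    obtain ⟨h3, h4⟩ := g2 lab X hX e he p hpm
    refine ⟨?_, h4⟩
    rw [h3]
  choose ζ hζb hζi using hex
  obtain ⟨D1, hD1⟩ : ∃ D1 : (ℕ → Tr (Lh N ℓ) → ℕ × ℕ × ℕ × ℕ → ℝ) → ℕ → ℝ, D1 = fun ζ (X : ℕ) =>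
      ∑ e ∈ edge 0 1 ((X : ℝ) / (K * Q)), |∑ p ∈ PQ Q, Real.log p *
        (ζ p (TT (lbh ℓ h1 h2 s₁ s₂ s₃ s₄ (X : ℝ)) X e) (res p e) -
          av p (ζ p) (TT (lbh ℓ h1 h2 s₁ s₂ s₃ s₄ (X : ℝ)) X e))| := ⟨_, rfl⟩
  have hD1s : ∀ ζ : ℕ → Tr (Lh N ℓ) → ℕ × ℕ × ℕ × ℕ → ℝ, (∀ p T y, |ζ p T y| ≤ B) →
      ∑ X ∈ Ioc X₀ N', 1 / (X : ℝ) ^ 2 * D1 ζ X ≤ εD * Real.log N' := by
    intro ζ hb
    rw [hD1]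
    exact hζ ζ hb
  obtain ⟨DX, hDX⟩ : ∃ DX : ℕ → ℝ, DX = fun X => ∑ β : ZMod ℓ × ZMod ℓ,
    (D1 (ζ β).1 X + D1 (ζ β).2 X) := ⟨_, rfl⟩
  have hD10 : ∀ ζ X, 0 ≤ D1 ζ X := by
    intro ζ X
    rw [hD1]
    exact sum_nonneg fun _ _ => abs_nonneg _
  have hDX0 : ∀ X, 0 ≤ DX X := by
    intro X
    rw [hDX]
    exact sum_nonneg fun β _ => add_nonneg (hD10 _ _) (hD10 _ _)
  have hcardβ : ((univ : Finset (ZMod ℓ × ZMod ℓ)).card : ℝ) = L2 := by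
    rw [card_univ, Fintype.card_prod, ZMod.card, hL2]
    push_cast
    ring
  have hDXs : ∑ X ∈ Ioc X₀ N', 1 / (X : ℝ) ^ 2 * DX X ≤ L2 * (2 * (εD * Real.log N')) := by
    rw [hDX]
    simp only [mul_sum]
    rw [sum_comm, ← hcardβ, ← nsmul_eq_mul]
    refine sum_le_card_nsmul _ _ _ fun β _ => ?_
    have a1 := hD1s (ζ β).1 (fun p T y => (hζb β p T y).1)
    have a2 := hD1s (ζ β).2 (fun p T y => (hζb β p T y).2)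
    simp only [mul_add, sum_add_distrib]
    linarith
  obtain ⟨Θ, hΘ⟩ : ∃ Θ : ℝ, Θ = ∑ p ∈ PQ Q, Real.log p := ⟨_, rfl⟩
  have hΘ0 : 0 ≤ Θ := by
    rw [hΘ]
    exact sum_nonneg fun p hp => log_nonneg_PQ hp
  have hΘC : Θ ≤ |C| * Q := by
    have h1 := (hQc Q (by omega)).2.2.2
    rw [← hΘ] at h1
    exact h1.trans (mul_le_mul_of_nonneg_right (le_abs_self C) (by positivity))
  -- large X
  have hlarge : ∀ X : ℕ, X₁ < X → |‖SX Q X‖| ≤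
      2 * Q * DX X + (4 * L2 * εB * Q + 2 * εL * Θ) * X := by
    intro X hX
    obtain ⟨b1, b2, b3⟩ := hX₁' Q hQ1 hQ2
    have hXR : (X₁ : ℝ) ≤ X := by exact_mod_cast hX.le
    have h := per_Xh hN h1 h2 (K := K) (κ := κ) (Q := Q) (s := s) (s₁ := s₁) (s₂ := s₂)
      (s₃ := s₃) (s₄ := s₄) (X := (X : ℝ)) (ε₃ := εB) (ε' := εL) hss1 hss3 hK hQpos (by omega)
      (b3.trans hXR) ht1 ht2 hm1 hm2 (fun p => (πr p).1) (fun p => (πr p).2)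
      (fun p hp => hπr p (PQ_mem hp).2.2.1 (PQ_mem hp).2.2.2) (fun β => (ζ β).1)
      (fun β => (ζ β).2) (fun β e he p hpm => hζi β _ X (b3.trans hXR) e he p hpm)
      (fun β α hα => hXB' Q hQ1 X (b2.trans hXR) β α hα) hεL0.le
      (hXL' Q hQ1 X (b1.trans hXR))
    rw [abs_of_nonneg (norm_nonneg _), hSX, hTd]
    refine h.trans (le_of_eq ?_)
    rw [← hΘ, hDX, hD1, ← hL2]
    simp only [sum_add_distrib]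
    ring
  have hsum := sum_split (fun X => ‖SX Q X‖) DX (fun X => ∑ Q ∈ Icc Q₁ Q₂, ‖SX Q X‖)
    (X₀ := X₀) (X₁ := X₁) (N := N') (a := 2 * Q) (b := 4 * L2 * εB * Q + 2 * εL * Θ)
    (Λ := L2 * (2 * (εD * Real.log N')))
    (fun X => by
      rw [abs_of_nonneg (norm_nonneg _)]
      exact single_le_sum (f := fun Q => ‖SX Q X‖) (fun _ _ => norm_nonneg _)
        (mem_Icc.2 ⟨hQ1, hQ2⟩))
    hlarge hDX0 (by positivity) (by positivity) (by rw [hX₁]; exact Nat.le_add_right _ _) hDXs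
  rw [← hM] at hsum
  have hgoal : ∑ X ∈ Icc 1 N', 1 / (X : ℝ) ^ 2 * ‖∑ p ∈ PQ Q,
      ((Real.log p * ((p : ℝ) + 1) : ℝ) : ℂ) * Th ℓ F₁ F₂ s₁ s₂ s₃ s₄ ((X : ℝ) / p)‖ =
      ∑ X ∈ Icc 1 N', 1 / (X : ℝ) ^ 2 * ‖SX Q X‖ := by rw [hSX, hTd]
  rw [hgoal]
  refine (le_abs_self _).trans (hsum.trans ?_)
  have hQl : 0 ≤ (Q : ℝ) * Real.log N' := by positivity
  have c3 : εL * |C| ≤ ε / 32 := by
    have := abs_nonneg C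
    rw [hεL, div_mul_eq_mul_div, div_le_div_iff₀ (by positivity) (by norm_num)]
    nlinarith
  have b1 : 2 * (Q : ℝ) * (L2 * (2 * (εD * Real.log N'))) = ε / 4 * (Q * Real.log N') := by
    rw [hεD]; field_simp; ring
  have b2 : 4 * L2 * εB * Q + 2 * εL * Θ ≤ ε / 8 * Q := by
    have h2 : εL * Θ ≤ εL * (|C| * Q) := mul_le_mul_of_nonneg_left hΘC hεL0.le
    have h3 := mul_le_mul_of_nonneg_right c3 (by positivity : (0 : ℝ) ≤ Q)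
    have h4 : 4 * L2 * εB * Q = ε / 16 * Q := by rw [hεB]; field_simp; ring
    have h5 : εL * (|C| * Q) = εL * |C| * Q := by ring
    rw [h4]
    linarith
  have b3 : (4 * L2 * εB * Q + 2 * εL * Θ) * (1 + Real.log N') ≤
      ε / 4 * (Q * Real.log N') := by
    calc (4 * L2 * εB * Q + 2 * εL * Θ) * (1 + Real.log N') ≤
        ε / 8 * Q * (2 * Real.log N') :=
          mul_le_mul b2 (by linarith) (by linarith) (by positivity)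
      _ = ε / 4 * (Q * Real.log N') := by ring
  have b4 : M ≤ ε / 4 * (Q * Real.log N') := by
    refine hMlog.trans (mul_le_mul_of_nonneg_left ?_ (by positivity))
    exact le_mul_of_one_le_left (by linarith) hQR
  have b5 : 0 ≤ ε * (Q * Real.log N') := by positivity
  have b6 : ε * Q * Real.log N' = ε * (Q * Real.log N') := by ring
  linarith

end Pool.Agent.T2H34.Dh
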