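import Pool.Agent.T2H34.DhBtm
import Pool.Agent.W940.EX.BTX

/-!
Pairs of determinant `h`: the bilinear estimate. Port of `W940.EX.btx`.
-/

set_option autoImplicit false

namespace Pool.Agent.T2H34.Dh

open Finset Filter
open Pool.Agent.H376R2.MR
open Pool.Agent.W78.GA
open Pool.Agent.W78.EC
open Pool.Agent.W554.EC
open Pool.Agent.W251.EX (Mrs)
open Pool.Agent.W940.EX (absAA)

theorem thh_nonneg (h Q : ℕ) (m : ℤ) : 0 ≤ thh h Q m := by
  unfold thh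
  split_ifs
  · exact th_nonneg Q _
  · exact le_rfl

theorem Gvh_symm (h Q : ℕ) (X : ℝ) (w₁ w₂ : Gi) : Gvh h Q X w₁ w₂ = Gvh h Q X w₂ w₁ := by
  unfold Gvh
  exact sum_congr rfl fun v _ => by ring

theorem Gvh_nonneg (h Q : ℕ) (X : ℝ) (w₁ w₂ : Gi) : 0 ≤ Gvh h Q X w₁ w₂ := by
  unfold Gvh
  exact sum_nonneg fun v _ => mul_nonneg (mul_nonneg (psi_nonneg _) (thh_nonneg _ _ _))
    (thh_nonneg _ _ _)

theorem sq_expandh (A : Gi → ℝ) (h Q : ℕ) (X : ℝ) (W : Finset Gi) :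
    ∑ v ∈ ball 0 1 (4 * ((h : ℝ) ^ 2 * X)), psi (nm v / ((h : ℝ) ^ 2 * X)) *
      (∑ w ∈ W, A w * thh h Q (dt v w)) ^ 2 =
      ∑ w₁ ∈ W, ∑ w₂ ∈ W, A w₁ * A w₂ * Gvh h Q X w₁ w₂ := by
  unfold Gvh
  simp only [mul_sum]
  rw [sum_congr rfl (fun w₁ _ => sum_comm), sum_comm]
  refine sum_congr rfl fun v _ => ?_
  rw [sq (∑ w ∈ W, A w * thh h Q (dt v w)), sum_mul_sum, mul_sum]
  refine sum_congr rfl fun w₁ _ => ?_
  rw [mul_sum]
  exact sum_congr rfl fun w₂ _ => by ring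

theorem thh_le' (h Q : ℕ) (m : ℤ) (hQ : 1 ≤ Q) : thh h Q m ≤ Real.log (2 * Q) := by
  unfold thh
  split_ifs
  · exact th_le' Q _ hQ
  · apply Real.log_nonneg
    have : (1 : ℝ) ≤ Q := by exact_mod_cast hQ
    linarith

theorem Gvh_le {h : ℕ} (hh : 1 ≤ h) {C : ℕ} {Q : ℕ} {X : ℝ} {w₁ : Gi} (hX : 0 < X) (hQ : 1 ≤ Q)
    (hC : ∀ m : ℤ, ((ball 0 1 (4 * ((h : ℝ) ^ 2 * X))).filter (fun z => dt w₁ z = m)).card ≤ C)
    (w₂ : Gi) : Gvh h Q X w₁ w₂ ≤ 16 * Real.log (2 * Q) ^ 2 * (Q * C) := by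
  classical
  have h0 : 0 ≤ Real.log (2 * Q) := by
    apply Real.log_nonneg
    have : (1 : ℝ) ≤ Q := by exact_mod_cast hQ
    linarith
  have hhR : (0 : ℝ) < h := by exact_mod_cast (by omega : 0 < h)
  have hhX : 0 < (h : ℝ) ^ 2 * X := by positivity
  set S : Finset ℤ := (Ioc Q (2 * Q)).image (fun k : ℕ => -((h : ℤ) * k)) with hS
  have hSc : S.card ≤ Q := by
    rw [hS]
    refine card_image_le.trans ?_
    rw [Nat.card_Ioc]
    omega
  unfold Gvh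
  have h1 : ∀ v ∈ ball 0 1 (4 * ((h : ℝ) ^ 2 * X)), psi (nm v / ((h : ℝ) ^ 2 * X)) *
      thh h Q (dt v w₁) * thh h Q (dt v w₂) ≤
      16 * Real.log (2 * Q) ^ 2 * (if dt w₁ v ∈ S then 1 else 0) := by
    intro v _
    have a1 : psi (nm v / ((h : ℝ) ^ 2 * X)) ≤ 16 := psi_le (by positivity)
    have a0 := psi_nonneg (nm v / ((h : ℝ) ^ 2 * X))
    have a3 := thh_le' h Q (dt v w₂) hQ
    have a4 := thh_nonneg h Q (dt v w₂)
    have a5 := thh_nonneg h Q (dt v w₁)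
    have a2 : thh h Q (dt v w₁) ≤ Real.log (2 * Q) * (if dt w₁ v ∈ S then 1 else 0) := by
      by_cases hz : thh h Q (dt v w₁) = 0
      · rw [hz]
        split_ifs <;> simp [h0]
      · obtain ⟨k, e1, e2, -⟩ := thh_ne hh hz
        rw [if_pos, mul_one]
        · exact thh_le' h Q _ hQ
        · rw [hS, mem_image]
          exact ⟨k, e2, by rw [dt_anti w₁ v, e1]⟩
    calc psi (nm v / ((h : ℝ) ^ 2 * X)) * thh h Q (dt v w₁) * thh h Q (dt v w₂) ≤
        16 * (Real.log (2 * Q) * (if dt w₁ v ∈ S then 1 else 0)) * Real.log (2 * Q) := by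
          apply mul_le_mul _ a3 a4
          · apply mul_nonneg (by norm_num)
            exact a5.trans a2
          · exact mul_le_mul a1 a2 a5 (by norm_num)
      _ = _ := by ring
  refine (sum_le_sum h1).trans ?_
  rw [← mul_sum, sum_boole]
  apply mul_le_mul_of_nonneg_left _ (by positivity)
  have h2 := count_dt hC S
  have h3 : S.card * C ≤ Q * C := Nat.mul_le_mul_right _ hSc
  exact_mod_cast h2.trans h3

open scoped Classical in
/-- the pairs of small determinant -/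
theorem small_parth {h : ℕ} (hh : 1 ≤ h) {A : Gi → ℝ} (hA : ∀ z, |A z| ≤ 1) {C : ℕ} {Q : ℕ}
    {X s₁ s₂ R : ℝ} (hX : 0 < X) (hQ : 1 ≤ Q) (hR : 1 ≤ R)
    (hC : ∀ (w : Gi) (m : ℤ), prim w → s₁ * X < (nm w : ℝ) →
      ((ball 0 1 (4 * ((h : ℝ) ^ 2 * X))).filter (fun z => dt w z = m)).card ≤ C) (a b : Gi) :
    |∑ w₁ ∈ cw X s₁ s₂ a b, ∑ w₂ ∈ cw X s₁ s₂ a b,
      (if |(dt w₁ w₂ : ℝ)| < R then A w₁ * A w₂ * Gvh h Q X w₁ w₂ else 0)| ≤
      ((cone X a b).card : ℝ) * (48 * (C : ℝ) ^ 2 * R * Q * Real.log (2 * Q) ^ 2) := by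
  have h0 : 0 ≤ Real.log (2 * Q) := by
    apply Real.log_nonneg
    have : (1 : ℝ) ≤ Q := by exact_mod_cast hQ
    linarith
  have hhR : (1 : ℝ) ≤ h := by exact_mod_cast hh
  have hXh : X ≤ (h : ℝ) ^ 2 * X := by
    have : (1 : ℝ) ≤ (h : ℝ) ^ 2 := one_le_pow₀ hhR
    nlinarith
  have hin : ∀ w₁ ∈ cw X s₁ s₂ a b, |∑ w₂ ∈ cw X s₁ s₂ a b,
      (if |(dt w₁ w₂ : ℝ)| < R then A w₁ * A w₂ * Gvh h Q X w₁ w₂ else 0)| ≤
      48 * (C : ℝ) ^ 2 * R * Q * Real.log (2 * Q) ^ 2 := by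
    intro w₁ hw₁
    obtain ⟨p1, p2, p3⟩ := cw_mem hw₁
    have hCw := fun m => hC w₁ m p1 p2
    set S : Finset ℤ := Icc (-(⌊R⌋₊ : ℤ)) ⌊R⌋₊ with hS
    have hSc : S.card = 2 * ⌊R⌋₊ + 1 := by
      rw [hS, Int.card_Icc]; omega
    refine (abs_sum_le_sum_abs _ _).trans ?_
    have h1 : ∀ w₂ ∈ cw X s₁ s₂ a b,
        |(if |(dt w₁ w₂ : ℝ)| < R then A w₁ * A w₂ * Gvh h Q X w₁ w₂ else 0)| ≤
        16 * Real.log (2 * Q) ^ 2 * (Q * C) * (if dt w₁ w₂ ∈ S then 1 else 0) := by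
      intro w₂ _
      by_cases c1 : |(dt w₁ w₂ : ℝ)| < R
      · have c2 : dt w₁ w₂ ∈ S := by
          rw [hS, mem_Icc, ← abs_le]
          have h3 : ((|dt w₁ w₂| : ℤ) : ℝ) < R := by push_cast; exact c1
          have h4 : (dt w₁ w₂).natAbs ≤ ⌊R⌋₊ := by
            apply Nat.le_floor
            have h5 : (((dt w₁ w₂).natAbs : ℕ) : ℝ) = |(dt w₁ w₂ : ℝ)| := by
              rw [Nat.cast_natAbs]; simp
            rw [h5]; exact c1.le
          rw [Int.abs_eq_natAbs]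
          exact_mod_cast h4
        rw [if_pos c1, if_pos c2, mul_one, abs_mul, abs_of_nonneg (Gvh_nonneg _ _ _ _ _)]
        exact (mul_le_of_le_one_left (Gvh_nonneg _ _ _ _ _) (absAA hA _ _)).trans
          (Gvh_le hh hX hQ hCw w₂)
      · rw [if_neg c1, abs_zero]
        split_ifs <;> positivity
    refine (sum_le_sum h1).trans ?_
    rw [← mul_sum, sum_boole]
    have h2 : ((cw X s₁ s₂ a b).filter (fun z => dt w₁ z ∈ S)).card ≤
        ((ball 0 1 (4 * ((h : ℝ) ^ 2 * X))).filter (fun z => dt w₁ z ∈ S)).card := by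
      apply card_le_card
      intro z hz
      rw [mem_filter] at hz ⊢
      refine ⟨?_, hz.2⟩
      obtain ⟨q1, q2, q3⟩ := cw_mem hz.1
      rw [mem_ball hD01]
      exact ⟨(one_le_nm hD01).2 (prim_ne_zero q1), by linarith⟩
    have h3 := h2.trans (count_dt hCw S)
    rw [hSc] at h3
    have h4 : (((cw X s₁ s₂ a b).filter (fun z => dt w₁ z ∈ S)).card : ℝ) ≤
        (2 * (⌊R⌋₊ : ℝ) + 1) * C := by exact_mod_cast h3
    have h5 : (⌊R⌋₊ : ℝ) ≤ R := Nat.floor_le (by linarith)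
    have h6 : (2 * (⌊R⌋₊ : ℝ) + 1) * C ≤ 3 * R * C :=
      mul_le_mul_of_nonneg_right (by linarith) (Nat.cast_nonneg _)
    calc 16 * Real.log (2 * Q) ^ 2 * (Q * C) *
          (((cw X s₁ s₂ a b).filter (fun z => dt w₁ z ∈ S)).card : ℝ)
        ≤ 16 * Real.log (2 * Q) ^ 2 * (Q * C) * (3 * R * C) :=
          mul_le_mul_of_nonneg_left (h4.trans h6) (by positivity)
      _ = _ := by ring
  refine (abs_sum_le_sum_abs _ _).trans ((sum_le_sum hin).trans ?_)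
  rw [sum_const, nsmul_eq_mul]
  apply mul_le_mul_of_nonneg_right _ (by positivity)
  exact_mod_cast card_le_card (cw_sub_cone X s₁ s₂ a b)

/-- the bilinear estimate -/
def Bth (h : ℕ) (A : Gi → ℝ) : Prop := ∀ (K : ℕ) (κ s₁ s₂ ε : ℝ), 1 ≤ K → 0 < κ → 0 < s₁ →
  s₁ < s₂ → s₂ ≤ 1 → 0 < ε → ∃ Q₀ : ℕ, ∀ Q : ℕ, Q₀ ≤ Q → ∃ X₀ : ℝ, ∀ X : ℝ, X₀ ≤ X →
    ∀ α : Gi → ℝ, (∀ z, |α z| ≤ 1) →
    |∑ e ∈ good K κ Q X, ∑ v ∈ cone X e.1 e.2, ∑ w ∈ cw X s₁ s₂ e.1 e.2,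
      α v * A w * thh h Q (dt v w)| ≤ ε * X * Q

theorem bth {h : ℕ} (hh : 1 ≤ h) {A : Gi → ℝ} (hA : ∀ z, |A z| ≤ 1) (hMrs : Mrs A)
    (hsupp : ∀ z w, A z ≠ 0 → A w ≠ 0 → (h : ℤ) ∣ dt z w) : Bth h A := by
  classical
  have h4 := Pool.Agent.W395.EC.dtb
  have h3 := Pool.Agent.W395.EC.ln
  have hhR : (1 : ℝ) ≤ h := by exact_mod_cast hh
  intro K κ s₁ s₂ ε hK hκ hs₁ hs₁₂ hs₂ hε
  set C₁ : ℝ := 36 * (1 / κ + 1) with hC₁
  have hC₁0 : 0 < C₁ := by positivity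
  set η : ℝ := ε / C₁ with hη
  have hη0 : 0 < η := by positivity
  set δ : ℝ := ε * η with hδ
  have hδ0 : 0 < δ := by positivity
  obtain ⟨C, hC⟩ := h3 (s₁ / (h : ℝ) ^ 2) (by positivity)
  obtain ⟨Q₁, hQ₁⟩ := gg0h hh K κ s₁ (δ / 9) hK hκ hs₁ (by positivity)
  obtain ⟨Q₂, hQ₂⟩ := btmh hh hA hMrs hsupp K κ s₁ s₂ δ hK hκ hs₁ hs₁₂ hs₂ hδ0
  obtain ⟨Q₃, hQ₃⟩ := eventually_atTop.1 (ev_log (192 * C₁ * C ^ 2 / δ))
  refine ⟨max Q₁ (max Q₂ Q₃), fun Q hQ => ?_⟩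
  have hQa : Q₁ ≤ Q := (le_max_left _ _).trans hQ
  have hQb : Q₂ ≤ Q := ((le_max_left _ _).trans (le_max_right _ _)).trans hQ
  have hQc : Q₃ ≤ Q := ((le_max_right _ _).trans (le_max_right _ _)).trans hQ
  obtain ⟨l1, l2, l3, l4⟩ := hQ₃ Q hQc
  obtain ⟨X₀, hX₀⟩ := hQ₂ Q hQb
  refine ⟨max X₀ (2 * (K * Q : ℝ)), fun X hX α hα => ?_⟩
  have hXa : X₀ ≤ X := (le_max_left _ _).trans hX
  have hXb : 2 * (K * Q : ℝ) ≤ X := (le_max_right _ _).trans hX
  have hQ1 : 1 ≤ Q := by omega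
  have hQR : (1 : ℝ) ≤ Q := by exact_mod_cast hQ1
  have hKR : (1 : ℝ) ≤ K := by exact_mod_cast hK
  have hX1 : 1 ≤ X := by nlinarith
  have hX0 : 0 < X := by linarith
  have hhX0 : 0 < (h : ℝ) ^ 2 * X := by positivity
  have hXh : X ≤ (h : ℝ) ^ 2 * X := by
    have : (1 : ℝ) ≤ (h : ℝ) ^ 2 := one_le_pow₀ hhR
    nlinarith
  have hQ0 : (0 : ℝ) < Q := by linarith
  have hl0 : 0 < Real.log Q := by linarith
  set R : ℝ := (Q : ℝ) / Real.log Q ^ 3 with hR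
  have hR1 : 1 ≤ R := by
    rw [hR, le_div_iff₀ (by positivity), one_mul]; exact l2
  have hR0 : 0 < R := by linarith
  have hcone := cone_total h4 hK hκ hQ1 hXb
  rw [← hC₁] at hcone
  have hgood := good_card (κ := κ) hK hQ1 hXb
  -- the second moment
  set SS : Gi × Gi → Gi → ℝ := fun e v => ∑ w ∈ cw X s₁ s₂ e.1 e.2, A w * thh h Q (dt v w)
    with hSS
  have hsec : ∑ e ∈ good K κ Q X, ∑ v ∈ cone X e.1 e.2, SS e v ^ 2 ≤ δ * X * (Q : ℝ) ^ 2 := by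
    set F : Gi → Gi → ℝ := fun a b => A a * A b * Gvh h Q X a b with hF
    have hFs : ∀ a b, F a b = F b a := by
      intro a b
      rw [hF]
      simp only
      rw [Gvh_symm]
      ring
    have e1 : ∀ e ∈ good K κ Q X, 9 * ∑ v ∈ cone X e.1 e.2, SS e v ^ 2 ≤
        ∑ w₁ ∈ cw X s₁ s₂ e.1 e.2, ∑ w₂ ∈ cw X s₁ s₂ e.1 e.2, F w₁ w₂ := by
      intro e _
      rw [hF, ← sq_expandh, mul_sum]
      have hsub : cone X e.1 e.2 ⊆ ball 0 1 (4 * ((h : ℝ) ^ 2 * X)) := by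
        intro z hz
        obtain ⟨q1, q3⟩ := cone_mem hz
        rw [mem_ball hD01]
        exact ⟨(one_le_nm hD01).2 (prim_ne_zero q1), by linarith⟩
      refine le_trans (sum_le_sum fun v hv => ?_) (sum_le_sum_of_subset_of_nonneg hsub
        fun v _ _ => mul_nonneg (psi_nonneg _) (sq_nonneg _))
      apply mul_le_mul_of_nonneg_right _ (sq_nonneg _)
      apply psi_ge
      rw [div_le_one hhX0]
      exact (cone_mem hv).2.trans hXh
    set B : Gi × Gi → ℝ := fun e => ∑ w₁ ∈ cw X s₁ s₂ e.1 e.2, ∑ w₂ ∈ cw X s₁ s₂ e.1 e.2,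
      (if R ≤ (dt w₁ w₂ : ℝ) then F w₁ w₂ else 0) with hB
    set B0 : Gi × Gi → ℝ := fun e => ∑ w₁ ∈ cw X s₁ s₂ e.1 e.2, ∑ w₂ ∈ cw X s₁ s₂ e.1 e.2,
      (if R ≤ (dt w₁ w₂ : ℝ) then A w₁ * A w₂ * G0h h Q X w₁ w₂ else 0) with hB0
    set Sm : Gi × Gi → ℝ := fun e => ∑ w₁ ∈ cw X s₁ s₂ e.1 e.2, ∑ w₂ ∈ cw X s₁ s₂ e.1 e.2,
      (if |(dt w₁ w₂ : ℝ)| < R then F w₁ w₂ else 0) with hSm
    have e2 : ∀ e ∈ good K κ Q X, 9 * ∑ v ∈ cone X e.1 e.2, SS e v ^ 2 ≤ 2 * B e + Sm e := by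
      intro e he
      refine (e1 e he).trans (le_of_eq ?_)
      rw [split3 _ R hR0 F hFs]
    have e3 : ∀ e ∈ good K κ Q X, B e ≤ B0 e + δ / 9 * (Q : ℝ) ^ 3 := by
      intro e he
      have g1 := hQ₁ Q hQa X hXb e he
      rw [← hR] at g1
      have g2 : B e - B0 e ≤ ∑ w₁ ∈ cw X s₁ 1 e.1 e.2, ∑ w₂ ∈ cw X s₁ 1 e.1 e.2,
          (if (h : ℤ) ∣ dt w₁ w₂ ∧ R ≤ (dt w₁ w₂ : ℝ) then
            |Gvh h Q X w₁ w₂ - G0h h Q X w₁ w₂| else 0) := by
        rw [hB, hB0]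
        simp only [← sum_sub_distrib]
        have hsub : cw X s₁ s₂ e.1 e.2 ⊆ cw X s₁ 1 e.1 e.2 := by
          intro z hz
          unfold cw at hz ⊢
          rw [mem_filter] at hz ⊢
          refine ⟨hz.1, hz.2.1, hz.2.2.trans ?_⟩
          exact mul_le_mul_of_nonneg_right hs₂ hX0.le
        have nn : ∀ a b : Gi, 0 ≤ (if (h : ℤ) ∣ dt a b ∧ R ≤ (dt a b : ℝ) then
            |Gvh h Q X a b - G0h h Q X a b| else 0) := by
          intro a b
          split_ifs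
          · exact abs_nonneg _
          · exact le_rfl
        refine le_trans (sum_le_sum fun a _ => ?_) (sum_le_sum_of_subset_of_nonneg hsub
          fun a _ _ => sum_nonneg fun b _ => nn a b)
        refine le_trans (sum_le_sum fun b _ => ?_) (sum_le_sum_of_subset_of_nonneg hsub
          fun b _ _ => nn a b)
        by_cases hB : A a ≠ 0 ∧ A b ≠ 0
        · have hdv := hsupp a b hB.1 hB.2
          by_cases hR2 : R ≤ (dt a b : ℝ)
          · rw [if_pos hR2, if_pos hR2, if_pos ⟨hdv, hR2⟩, hF]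
            simp only
            rw [← mul_sub]
            refine (le_abs_self _).trans ?_
            rw [abs_mul]
            exact mul_le_of_le_one_left (abs_nonneg _) (absAA hA _ _)
          · rw [if_neg hR2, if_neg hR2, sub_zero]
            exact nn a b
        · have h0 : A a * A b = 0 := by
            by_cases hz0 : A a = 0
            · rw [hz0, zero_mul]
            · have hw0 : A b = 0 := by
                by_contra hw0
                exact hB ⟨hz0, hw0⟩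
              rw [hw0, mul_zero]
          have h1 : (if R ≤ (dt a b : ℝ) then F a b else 0) -
              (if R ≤ (dt a b : ℝ) then A a * A b * G0h h Q X a b else 0) = 0 := by
            rw [hF]
            simp only
            rw [h0, zero_mul, zero_mul]
            split_ifs <;> ring
          rw [h1]
          exact nn a b
      linarith
    have e4 : ∑ e ∈ good K κ Q X, B0 e ≤ δ * X * (Q : ℝ) ^ 2 :=
      (le_abs_self _).trans (hX₀ X hXa)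
    have e5 : ∀ e ∈ good K κ Q X, Sm e ≤ ((cone X e.1 e.2).card : ℝ) *
        (48 * (C : ℝ) ^ 2 * R * Q * Real.log (2 * Q) ^ 2) := by
      intro e _
      refine (le_abs_self _).trans ?_
      refine small_parth hh hA hX0 hQ1 hR1 (fun w m hw hn => hC ((h : ℝ) ^ 2 * X) w m
        (hX1.trans hXh) hw ?_) e.1 e.2
      have e9 : s₁ / (h : ℝ) ^ 2 * ((h : ℝ) ^ 2 * X) = s₁ * X := by field_simp
      rw [e9]
      exact hn
    have e6 : 9 * ∑ e ∈ good K κ Q X, ∑ v ∈ cone X e.1 e.2, SS e v ^ 2 ≤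
        2 * (∑ e ∈ good K κ Q X, B e) + ∑ e ∈ good K κ Q X, Sm e := by
      rw [mul_sum, mul_sum, ← sum_add_distrib]
      exact sum_le_sum e2
    have e7 : ∑ e ∈ good K κ Q X, B e ≤ 2 * (δ * X * (Q : ℝ) ^ 2) := by
      refine (sum_le_sum e3).trans ?_
      rw [sum_add_distrib, sum_const, nsmul_eq_mul]
      have g1 : ((good K κ Q X).card : ℝ) * (δ / 9 * (Q : ℝ) ^ 3) ≤
          9 * (X / (K * Q)) * (δ / 9 * (Q : ℝ) ^ 3) :=
        mul_le_mul_of_nonneg_right hgood (by positivity)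
      have g2 : 9 * (X / (K * Q)) * (δ / 9 * (Q : ℝ) ^ 3) = (δ * X * (Q : ℝ) ^ 2) / K := by
        field_simp
      have g3 : (δ * X * (Q : ℝ) ^ 2) / K ≤ δ * X * (Q : ℝ) ^ 2 := div_le_self (by positivity) hKR
      linarith
    have e8 : ∑ e ∈ good K κ Q X, Sm e ≤ δ * X * (Q : ℝ) ^ 2 := by
      refine (sum_le_sum e5).trans ?_
      rw [← sum_mul]
      have g0 : Real.log (2 * Q) ≤ 2 * Real.log Q := by
        rw [Real.log_mul (by norm_num) (by positivity)]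
        have : Real.log 2 ≤ Real.log Q := by
          apply Real.log_le_log (by norm_num)
          have : (3 : ℝ) ≤ Q := by exact_mod_cast l4
          linarith
        linarith
      have g00 : 0 ≤ Real.log (2 * Q) := Real.log_nonneg (by linarith)
      have g1 : Real.log (2 * Q) ^ 2 ≤ 4 * Real.log Q ^ 2 := by nlinarith
      have g2 : 48 * (C : ℝ) ^ 2 * R * Q * Real.log (2 * Q) ^ 2 ≤
          48 * (C : ℝ) ^ 2 * R * Q * (4 * Real.log Q ^ 2) :=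
        mul_le_mul_of_nonneg_left g1 (by positivity)
      have g3 : 48 * (C : ℝ) ^ 2 * R * Q * (4 * Real.log Q ^ 2) =
          192 * (C : ℝ) ^ 2 * (Q : ℝ) ^ 2 / Real.log Q := by
        rw [hR]
        field_simp
        ring
      have g4 : 0 ≤ 192 * (C : ℝ) ^ 2 * (Q : ℝ) ^ 2 / Real.log Q := by positivity
      calc (∑ e ∈ good K κ Q X, ((cone X e.1 e.2).card : ℝ)) *
            (48 * (C : ℝ) ^ 2 * R * Q * Real.log (2 * Q) ^ 2)
          ≤ (C₁ * X) * (192 * (C : ℝ) ^ 2 * (Q : ℝ) ^ 2 / Real.log Q) := by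
            apply mul_le_mul hcone (g2.trans_eq g3) (by positivity) (by positivity)
        _ = (192 * C₁ * (C : ℝ) ^ 2 / Real.log Q) * (X * (Q : ℝ) ^ 2) := by ring
        _ ≤ δ * (X * (Q : ℝ) ^ 2) := by
            apply mul_le_mul_of_nonneg_right _ (by positivity)
            rw [div_le_iff₀ hl0]
            rw [div_le_iff₀ hδ0] at l1
            linarith
        _ = _ := by ring
    have hpos : 0 ≤ δ * X * (Q : ℝ) ^ 2 := by positivity
    linarith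
  -- the final step
  have hmain : |∑ e ∈ good K κ Q X, ∑ v ∈ cone X e.1 e.2, ∑ w ∈ cw X s₁ s₂ e.1 e.2,
      α v * A w * thh h Q (dt v w)| ≤
      ∑ e ∈ good K κ Q X, ∑ v ∈ cone X e.1 e.2, (η * Q / 2 + SS e v ^ 2 / (2 * (η * Q))) := by
    refine (abs_sum_le_sum_abs _ _).trans (sum_le_sum fun e _ => ?_)
    refine (abs_sum_le_sum_abs _ _).trans (sum_le_sum fun v _ => ?_)
    have a1 : ∑ w ∈ cw X s₁ s₂ e.1 e.2, α v * A w * thh h Q (dt v w) = α v * SS e v := by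
      rw [hSS]
      simp only
      rw [mul_sum]
      exact sum_congr rfl fun w _ => by ring
    rw [a1, abs_mul]
    have a2 : |α v| * |SS e v| ≤ |SS e v| := by
      calc |α v| * |SS e v| ≤ 1 * |SS e v| :=
            mul_le_mul_of_nonneg_right (hα v) (abs_nonneg _)
        _ = _ := one_mul _
    refine a2.trans ?_
    have hp : 0 < η * Q := by positivity
    have a3 : SS e v ^ 2 = |SS e v| ^ 2 := (sq_abs _).symm
    rw [a3]
    have a4 : 0 ≤ (|SS e v| - η * Q) ^ 2 / (2 * (η * Q)) := by positivity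
    have a5 : (|SS e v| - η * Q) ^ 2 / (2 * (η * Q)) =
        η * Q / 2 + |SS e v| ^ 2 / (2 * (η * Q)) - |SS e v| := by
      field_simp
      ring
    linarith
  refine hmain.trans ?_
  have b1 : ∑ e ∈ good K κ Q X, ∑ v ∈ cone X e.1 e.2, (η * Q / 2 + SS e v ^ 2 / (2 * (η * Q))) =
      (η * Q / 2) * ∑ e ∈ good K κ Q X, ((cone X e.1 e.2).card : ℝ) +
      1 / (2 * (η * Q)) * ∑ e ∈ good K κ Q X, ∑ v ∈ cone X e.1 e.2, SS e v ^ 2 := by
    rw [mul_sum, mul_sum, ← sum_add_distrib]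
    refine sum_congr rfl fun e _ => ?_
    rw [sum_add_distrib, sum_const, nsmul_eq_mul, mul_sum]
    congr 1
    · ring
    · exact sum_congr rfl fun v _ => by ring
  rw [b1]
  have b2 : (η * Q / 2) * ∑ e ∈ good K κ Q X, ((cone X e.1 e.2).card : ℝ) ≤
      (η * Q / 2) * (C₁ * X) := mul_le_mul_of_nonneg_left hcone (by positivity)
  have b3 : 1 / (2 * (η * Q)) * ∑ e ∈ good K κ Q X, ∑ v ∈ cone X e.1 e.2, SS e v ^ 2 ≤
      1 / (2 * (η * Q)) * (δ * X * (Q : ℝ) ^ 2) := mul_le_mul_of_nonneg_left hsec (by positivity)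
  have b4 : (η * Q / 2) * (C₁ * X) = ε * X * Q / 2 := by
    rw [hη]; field_simp
  have b5 : 1 / (2 * (η * Q)) * (δ * X * (Q : ℝ) ^ 2) = ε * X * Q / 2 := by
    rw [hδ]; field_simp
  linarith

end Pool.Agent.T2H34.Dh
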