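import Pool.Agent.T2H34.DhCore

/-!
Pairs of determinant `h`: the main term of the bilinear estimate. Port of `W672.EX.btmx`.
-/

set_option autoImplicit false
set_option linter.unusedVariables false

namespace Pool.Agent.T2H34.Dh

open Finset Filter
open Pool.Agent.H376R2.MR
open Pool.Agent.W78.GA
open Pool.Agent.W78.EC
open Pool.Agent.W125.EC
open Pool.Agent.W672.EX (aa_aa)
open Pool.Agent.W251.EX (Per Mrs Btm)
open Pool.Agent.W714.EC (hD01 nmZ decomp mem_cone mem_edge edge_unique)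

/-- pairs with `h k ∣ dt z w` and `xih z w = v` -/
def SSh (h k : ℕ) (v : ℤ) (z w : Gi) : Prop := ((h * k : ℕ) : ℤ) ∣ dt z w ∧ xih h z w = v

lemma xih_congr {h : ℕ} {z z' w w' : Gi} (h1 : (4 * h : ℤ) ∣ z.re - z'.re)
    (h2 : (4 * h : ℤ) ∣ z.im - z'.im) (h3 : (4 * h : ℤ) ∣ w.re - w'.re)
    (h4 : (4 * h : ℤ) ∣ w.im - w'.im) : xih h z w = xih h z' w' := by
  have d4 : (4 : ℤ) ∣ (4 * h : ℤ) := dvd_mul_right _ _
  unfold xih
  simp only [dvd_dt_congr h1 h2 h3 h4, dvd_sub_congr (d4.trans h3) (d4.trans h1),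
    dvd_sub_congr (d4.trans h4) (d4.trans h2)]

lemma famh (h k : ℕ) (hh : 1 ≤ h) (hk : 1 ≤ k) (v : ℤ) : Famh (4 * h * k) (SSh h k v) := by
  have d4 : (4 * h : ℤ) ∣ ((4 * h * k : ℕ) : ℤ) := by push_cast; exact dvd_mul_right _ _
  have dh : ((h * k : ℕ) : ℤ) ∣ ((4 * h * k : ℕ) : ℤ) := by
    refine ⟨4, ?_⟩
    push_cast
    ring
  refine ⟨?_, fun w => ?_, ?_⟩
  · have : 1 ≤ h * k := Nat.mul_pos hh hk
    rw [mul_assoc]
    omega
  · intro z z' h1 h2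
    show SSh h k v z w ↔ SSh h k v z' w
    unfold SSh
    rw [dvd_dt_congr (w := w) (w' := w) (dh.trans h1) (dh.trans h2) (by simp) (by simp),
      xih_congr (w := w) (w' := w) (d4.trans h1) (d4.trans h2) (by simp) (by simp)]
  · intro z w w' h1 h2
    unfold SSh
    rw [dvd_dt_congr (z := z) (z' := z) (by simp) (by simp) (dh.trans h1) (dh.trans h2),
      xih_congr (z := z) (z' := z) (by simp) (by simp) (d4.trans h1) (d4.trans h2)]

lemma xih_le (h : ℕ) (z w : Gi) : (xih h z w : ℝ) ≤ 1 := by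
  unfold xih
  split_ifs <;> norm_num

lemma le_xih (h : ℕ) (z w : Gi) : 0 ≤ 1 + (xih h z w : ℝ) := by
  unfold xih
  split_ifs <;> norm_num

lemma quoh {h : ℕ} (hh : 1 ≤ h) {D : ℤ} (hD : 0 < D) (hd : (h : ℤ) ∣ D) :
    D = (h * (D.toNat / h) : ℕ) ∧ 1 ≤ D.toNat / h := by
  have hhZ : (0 : ℤ) < h := by exact_mod_cast (by omega : 0 < h)
  obtain ⟨k, hk⟩ := hd
  have hk0 : 0 < k := by
    by_contra hcon
    push Not at hcon
    nlinarith
  have e1 : D.toNat = h * k.toNat := by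
    rw [hk]
    have : (h : ℤ) * k = ((h * k.toNat : ℕ) : ℤ) := by
      push_cast
      rw [Int.toNat_of_nonneg hk0.le]
    rw [this, Int.toNat_natCast]
  rw [e1, Nat.mul_div_cancel_left _ (by omega)]
  refine ⟨?_, by omega⟩
  push_cast
  rw [Int.toNat_of_nonneg hk0.le, hk]

lemma G0h_eq {h : ℕ} (hh : 1 ≤ h) (Q : ℕ) (X : ℝ) {w₁ w₂ : Gi} (h0 : 0 < dt w₁ w₂)
    (hd : (h : ℤ) ∣ dt w₁ w₂) : G0h h Q X w₁ w₂ =
    (1 + (xih h w₁ w₂ : ℝ)) * (h * ((((dt w₁ w₂).toNat / h : ℕ) : ℝ) /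
      (Nat.totient ((dt w₁ w₂).toNat / h) : ℝ))) * kk Q X w₁ w₂ := by
  obtain ⟨e1, e2⟩ := quoh hh h0 hd
  have e3 : (dt w₁ w₂ : ℝ) = h * (((dt w₁ w₂).toNat / h : ℕ) : ℝ) := by
    have : ((dt w₁ w₂ : ℤ) : ℝ) = ((h * ((dt w₁ w₂).toNat / h) : ℕ) : ℝ) := by
      rw [← Int.cast_natCast (R := ℝ), ← e1]
    rw [this]
    push_cast
    ring
  have h1 : (0 : ℝ) < (((dt w₁ w₂).toNat / h : ℕ) : ℝ) := by exact_mod_cast e2
  have h2 : (0 : ℝ) < (Nat.totient ((dt w₁ w₂).toNat / h) : ℝ) := by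
    exact_mod_cast Nat.totient_pos.2 e2
  have hhR : (0 : ℝ) < h := by exact_mod_cast (by omega : 0 < h)
  unfold G0h kk
  rw [e3]
  field_simp

open scoped Classical in
/-- the expansion of the main term -/
lemma G0h_split {h : ℕ} (hh : 1 ≤ h) (Q : ℕ) (X : ℝ) {z w : Gi} (hd : 0 < dt z w)
    (hdv : (h : ℤ) ∣ dt z w) (h₀ : ℕ) : G0h h Q X z w =
    ∑ k ∈ ((Icc 1 h₀).filter Squarefree) ×ˢ range 2, h * ((1 + (k.2 : ℝ)) / Nat.totient k.1) *
      (if SSh h k.1 (k.2 : ℤ) z w then kk Q X z w else 0) +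
    (1 + (xih h z w : ℝ)) * (h * tl h₀ ((dt z w).toNat / h)) * kk Q X z w := by
  obtain ⟨q1, q2⟩ := quoh hh hd hdv
  rw [G0h_eq hh Q X hd hdv, split h₀ _ q2, mul_add, mul_add, add_mul]
  congr 1
  rw [sum_product, mul_sum, mul_sum, sum_mul]
  refine sum_congr rfl fun k _ => ?_
  have hhZ : (h : ℤ) ≠ 0 := by exact_mod_cast (by omega : h ≠ 0)
  have e1 : k ∣ (dt z w).toNat / h ↔ ((h * k : ℕ) : ℤ) ∣ dt z w := by
    have hpos : 0 < h := by omega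
    have q3 : ((h * k : ℕ) : ℤ) ∣ ((h * ((dt z w).toNat / h) : ℕ) : ℤ) ↔
        k ∣ (dt z w).toNat / h := by
      rw [Int.natCast_dvd_natCast]
      exact Nat.mul_dvd_mul_iff_left hpos
    rw [← q1] at q3
    exact q3.symm
  have e2 : xih h z w = -1 ∨ xih h z w = 0 ∨ xih h z w = 1 := by
    unfold xih
    split_ifs <;> simp
  rw [sum_range_succ, sum_range_one]
  unfold SSh
  by_cases h2 : ((h * k : ℕ) : ℤ) ∣ dt z w
  · rw [if_pos (e1.2 h2)]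
    rcases e2 with h3 | h3 | h3
    · rw [h3, if_neg (fun k => by have := k.2; omega), if_neg (fun k => by have := k.2; omega)]
      push_cast; ring
    · rw [h3, if_pos ⟨h2, by norm_num⟩, if_neg (fun k => by have := k.2; omega)]
      push_cast; ring
    · rw [h3, if_neg (fun k => by have := k.2; omega), if_pos ⟨h2, by norm_num⟩]
      push_cast; ring
  · rw [if_neg (fun h => h2 (e1.1 h)), if_neg (fun h => h2 h.1), if_neg (fun h => h2 h.1)]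
    ring

/-- the constants and the level -/
structure Lev2h (K : ℕ) (κ s₁ s₂ C Cφ δ η : ℝ) (h₀ Q : ℕ) (X thr : ℝ) : Prop where
  hCh : Csth K κ s₁ s₂ C
  hφ : ∀ N : ℕ, ∑ D ∈ Icc 1 N, (D : ℝ) / Nat.totient D ≤ Cφ * N
  hφ1 : 1 ≤ Cφ
  hη : 0 < η
  hδ : 0 < δ
  htl : ∀ N : ℕ, ∑ D ∈ Icc 1 N, tl h₀ D ≤ η * N
  hQ : 1 ≤ Q
  hX : 2 * (K * Q : ℝ) ≤ X
  hX1 : 1 ≤ X
  thr0 : 0 < thr
  thr1 : thr ≤ δ * Q

/-- sums over the multiples of `h` -/
lemma sum_quo {h : ℕ} (hh : 1 ≤ h) (f : ℕ → ℝ) (hf : ∀ n, 0 ≤ f n) (N : ℕ) :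
    ∑ m ∈ Icc 1 N, (if h ∣ m then f (m / h) else 0) ≤ ∑ D ∈ Icc 1 N, f D := by
  classical
  rw [← sum_filter]
  have h1 : ∑ m ∈ (Icc 1 N).filter (fun m => h ∣ m), f (m / h) =
      ∑ D ∈ ((Icc 1 N).filter (fun m => h ∣ m)).image (fun m => m / h), f D := by
    rw [sum_image]
    intro a ha b hb hab
    rw [mem_coe, mem_filter] at ha hb
    obtain ⟨x, hx⟩ := ha.2
    obtain ⟨y, hy⟩ := hb.2
    simp only at hab
    rw [hx, hy, Nat.mul_div_cancel_left _ (by omega), Nat.mul_div_cancel_left _ (by omega)] at hab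
    rw [hx, hy, hab]
  rw [h1]
  apply sum_le_sum_of_subset_of_nonneg
  · intro D hD
    rw [mem_image] at hD
    obtain ⟨m, hm, rfl⟩ := hD
    rw [mem_filter, mem_Icc] at hm
    obtain ⟨x, hx⟩ := hm.2
    rw [hx, Nat.mul_div_cancel_left _ (by omega), mem_Icc]
    have h2 : 1 ≤ x := by
      by_contra hc
      have : x = 0 := by omega
      rw [this] at hx
      omega
    refine ⟨h2, ?_⟩
    have : x ≤ h * x := Nat.le_mul_of_pos_left _ (by omega)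
    omega
  · intro i _ _
    exact hf i

open scoped Classical in
lemma bound_a1h {h : ℕ} (hh : 1 ≤ h) {aa : Gi → ℝ} (ha : ∀ z, |aa z| ≤ 1)
    (hsupp : ∀ z w, aa z ≠ 0 → aa w ≠ 0 → (h : ℤ) ∣ dt z w)
    {K : ℕ} {κ s₁ s₂ C Cφ δ η : ℝ} {h₀ Q : ℕ} {X thr : ℝ}
    (L : Lev2h K κ s₁ s₂ C Cφ δ η h₀ Q X thr) :
    ∑ e ∈ good K κ Q X, ∑ w ∈ cw X s₁ s₂ e.1 e.2, ∑ z ∈ cw X s₁ s₂ e.1 e.2,
      |if thr ≤ (dt z w : ℝ) ∧ ¬ δ * Q ≤ (dt z w : ℝ) then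
        aa z * aa w * G0h h Q X z w else 0| ≤
      (2 * h * (C ^ 4 * Cφ * δ)) * (X * (Q : ℝ) ^ 2) := by
  have hC := L.hCh.cst
  have hC1 := hC.one
  have hQ' : (1 : ℝ) ≤ Q := by exact_mod_cast L.hQ
  have hX1 := L.hX1
  have hδ := L.hδ
  have hφ1 := L.hφ1
  refine (weight_sum hC L.hQ L.hX L.hX1 (fun m => if h ∣ m then
    (fun n : ℕ => (2 * h * (C * Q)) * ((n : ℝ) / Nat.totient n)) (m / h) else 0)
    (fun m => by split_ifs <;> positivity) ⌊δ * Q⌋₊ _ ?_).trans ?_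
  · intro e he w hw z hz
    by_cases hA : thr ≤ (dt z w : ℝ) ∧ ¬ δ * Q ≤ (dt z w : ℝ)
    · rw [if_pos hA]
      have h0 : (0 : ℝ) < (dt z w : ℝ) := L.thr0.trans_le hA.1
      have h0' : 0 < dt z w := by exact_mod_cast h0
      rw [if_pos ⟨h0', floor_mem h0' (not_le.1 hA.2).le⟩]
      by_cases hB : aa z ≠ 0 ∧ aa w ≠ 0
      · have hdv := hsupp z w hB.1 hB.2
        refine (aa_aa ha z w _).trans ?_
        have hdn : h ∣ (dt z w).toNat := by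
          rw [← Int.natCast_dvd_natCast, Int.toNat_of_nonneg h0'.le]
          exact hdv
        rw [if_pos hdn, G0h_eq hh Q X h0' hdv, abs_mul, abs_mul, abs_of_nonneg (le_xih h z w)]
        have e5 : |(h : ℝ) * ((((dt z w).toNat / h : ℕ) : ℝ) /
            (Nat.totient ((dt z w).toNat / h) : ℝ))| = (h : ℝ) * ((((dt z w).toNat / h : ℕ) : ℝ) /
            (Nat.totient ((dt z w).toNat / h) : ℝ)) := abs_of_nonneg (by positivity)
        rw [e5]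
        have h1 := L.hCh.kb Q X L.hQ L.hX e he z hz w hw h0'
        have h2 : (0 : ℝ) ≤ (((dt z w).toNat / h : ℕ) : ℝ) /
            (Nat.totient ((dt z w).toNat / h) : ℝ) := by positivity
        have h3 : 1 + (xih h z w : ℝ) ≤ 2 := by linarith [xih_le h z w]
        calc (1 + (xih h z w : ℝ)) * (h * ((((dt z w).toNat / h : ℕ) : ℝ) /
            (Nat.totient ((dt z w).toNat / h) : ℝ))) * |kk Q X z w| ≤
              2 * (h * ((((dt z w).toNat / h : ℕ) : ℝ) /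
            (Nat.totient ((dt z w).toNat / h) : ℝ))) * (C * Q) := by
              gcongr
          _ = _ := by ring
      · have : aa z * aa w * G0h h Q X z w = 0 := by
          by_cases hz0 : aa z = 0
          · rw [hz0]; ring
          · have hw0 : aa w = 0 := by
              by_contra hw0
              exact hB ⟨hz0, hw0⟩
            rw [hw0]; ring
        rw [this, abs_zero]
        split_ifs <;> positivity
    · rw [if_neg hA, abs_zero]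
      split_ifs <;> positivity
  · have hs := sum_quo hh (fun n : ℕ => (2 * h * (C * Q)) * ((n : ℝ) / Nat.totient n))
      (fun n => by positivity) ⌊δ * Q⌋₊
    rw [← mul_sum] at hs
    have h1 := L.hφ ⌊δ * Q⌋₊
    have h2 : ((⌊δ * Q⌋₊ : ℕ) : ℝ) ≤ δ * Q := Nat.floor_le (by positivity)
    have h3 : ∑ D ∈ Icc 1 ⌊δ * Q⌋₊, (D : ℝ) / Nat.totient D ≤ Cφ * (δ * Q) :=
      h1.trans (mul_le_mul_of_nonneg_left h2 (by linarith))
    calc C ^ 3 * X * _ ≤ C ^ 3 * X *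
          ((2 * h * (C * Q)) * ∑ D ∈ Icc 1 ⌊δ * Q⌋₊, (D : ℝ) / Nat.totient D) :=
          mul_le_mul_of_nonneg_left hs (by positivity)
      _ ≤ C ^ 3 * X * ((2 * h * (C * Q)) * (Cφ * (δ * Q))) := by gcongr
      _ = _ := by ring

open scoped Classical in
lemma bound_a2h {h : ℕ} (hh : 1 ≤ h) {aa : Gi → ℝ} (ha : ∀ z, |aa z| ≤ 1)
    (hsupp : ∀ z w, aa z ≠ 0 → aa w ≠ 0 → (h : ℤ) ∣ dt z w)
    {K : ℕ} {κ s₁ s₂ C Cφ δ η : ℝ} {h₀ Q : ℕ} {X thr : ℝ}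
    (L : Lev2h K κ s₁ s₂ C Cφ δ η h₀ Q X thr) :
    ∑ e ∈ good K κ Q X, ∑ w ∈ cw X s₁ s₂ e.1 e.2, ∑ z ∈ cw X s₁ s₂ e.1 e.2,
      |if δ * Q ≤ (dt z w : ℝ) then aa z * aa w *
        ((1 + (xih h z w : ℝ)) * (h * tl h₀ ((dt z w).toNat / h)) * kk Q X z w) else 0| ≤
      (2 * h * (C ^ 5 * η)) * (X * (Q : ℝ) ^ 2) := by
  have hC := L.hCh.cst
  have hC1 := hC.one
  have hQ' : (1 : ℝ) ≤ Q := by exact_mod_cast L.hQ
  have hX1 := L.hX1
  have hδ := L.hδ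
  have hη := L.hη
  refine (weight_sum hC L.hQ L.hX L.hX1 (fun m => if h ∣ m then
    (fun n : ℕ => (2 * h * (C * Q)) * tl h₀ n) (m / h) else 0)
    (fun m => by
      have := tl_nonneg h₀ (m / h)
      split_ifs <;> positivity) ⌊C * Q⌋₊ _ ?_).trans ?_
  · intro e he w hw z hz
    have htn := tl_nonneg h₀ ((dt z w).toNat / h)
    by_cases hA : δ * Q ≤ (dt z w : ℝ)
    · rw [if_pos hA]
      have h0 : (0 : ℝ) < (dt z w : ℝ) := (by positivity : 0 < δ * Q).trans_le hA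
      have h0' : 0 < dt z w := by exact_mod_cast h0
      have h3 := hC.dtle Q X L.hQ L.hX e he z hz w hw
      rw [if_pos ⟨h0', floor_mem h0' h3⟩]
      by_cases hB : aa z ≠ 0 ∧ aa w ≠ 0
      · have hdv := hsupp z w hB.1 hB.2
        refine (aa_aa ha z w _).trans ?_
        have hdn : h ∣ (dt z w).toNat := by
          rw [← Int.natCast_dvd_natCast, Int.toNat_of_nonneg h0'.le]
          exact hdv
        rw [if_pos hdn, abs_mul, abs_mul, abs_of_nonneg (le_xih h z w),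
          abs_of_nonneg (mul_nonneg (by positivity : (0 : ℝ) ≤ h) htn)]
        have h1 := L.hCh.kb Q X L.hQ L.hX e he z hz w hw h0'
        have h3 : 1 + (xih h z w : ℝ) ≤ 2 := by linarith [xih_le h z w]
        calc (1 + (xih h z w : ℝ)) * (h * tl h₀ ((dt z w).toNat / h)) * |kk Q X z w| ≤
              2 * (h * tl h₀ ((dt z w).toNat / h)) * (C * Q) := by
              gcongr
          _ = _ := by ring
      · have : aa z * aa w * ((1 + (xih h z w : ℝ)) * (h * tl h₀ ((dt z w).toNat / h)) *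
            kk Q X z w) = 0 := by
          by_cases hz0 : aa z = 0
          · rw [hz0]; ring
          · have hw0 : aa w = 0 := by
              by_contra hw0
              exact hB ⟨hz0, hw0⟩
            rw [hw0]; ring
        rw [this, abs_zero]
        split_ifs <;> positivity
    · rw [if_neg hA, abs_zero]
      split_ifs <;> positivity
  · have hs := sum_quo hh (fun n : ℕ => (2 * h * (C * Q)) * tl h₀ n)
      (fun n => mul_nonneg (by positivity) (tl_nonneg _ _)) ⌊C * Q⌋₊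
    rw [← mul_sum] at hs
    have h1 := L.htl ⌊C * Q⌋₊
    have h2 : ((⌊C * Q⌋₊ : ℕ) : ℝ) ≤ C * Q := Nat.floor_le (by positivity)
    have h3 : ∑ D ∈ Icc 1 ⌊C * Q⌋₊, tl h₀ D ≤ η * (C * Q) :=
      h1.trans (mul_le_mul_of_nonneg_left h2 (by linarith))
    calc C ^ 3 * X * _ ≤ C ^ 3 * X *
          ((2 * h * (C * Q)) * ∑ D ∈ Icc 1 ⌊C * Q⌋₊, tl h₀ D) :=
          mul_le_mul_of_nonneg_left hs (by positivity)
      _ ≤ C ^ 3 * X * ((2 * h * (C * Q)) * (η * (C * Q))) := by gcongr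
      _ = _ := by ring

open scoped Classical in
/-- the three parts of one term -/
lemma term_splith {h : ℕ} (hh : 1 ≤ h) (aa : Gi → ℝ)
    (hsupp : ∀ z w, aa z ≠ 0 → aa w ≠ 0 → (h : ℤ) ∣ dt z w)
    {δ thr X : ℝ} {h₀ Q : ℕ} (hδ : 0 < δ * Q) (h1 : thr ≤ δ * Q) (z w : Gi) :
    (if thr ≤ (dt z w : ℝ) then aa z * aa w * G0h h Q X z w else 0) =
    (if thr ≤ (dt z w : ℝ) ∧ ¬ δ * Q ≤ (dt z w : ℝ) then
      aa z * aa w * G0h h Q X z w else 0) +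
    ∑ k ∈ ((Icc 1 h₀).filter Squarefree) ×ˢ range 2, h * ((1 + (k.2 : ℝ)) / Nat.totient k.1) *
      (if δ * Q ≤ (dt z w : ℝ) ∧ SSh h k.1 (k.2 : ℤ) z w then
        aa z * aa w * kk Q X z w else 0) +
    (if δ * Q ≤ (dt z w : ℝ) then aa z * aa w *
        ((1 + (xih h z w : ℝ)) * (h * tl h₀ ((dt z w).toNat / h)) * kk Q X z w) else 0) := by
  by_cases hB : aa z ≠ 0 ∧ aa w ≠ 0
  · have hdv := hsupp z w hB.1 hB.2
    by_cases hA : δ * Q ≤ (dt z w : ℝ)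
    · have h0 : (0 : ℝ) < (dt z w : ℝ) := hδ.trans_le hA
      have h0' : 0 < dt z w := by exact_mod_cast h0
      rw [if_pos (h1.trans hA), if_neg (fun k => k.2 hA), if_pos hA, zero_add,
        G0h_split hh Q X h0' hdv h₀, mul_add, mul_sum]
      congr 1
      refine sum_congr rfl fun k _ => ?_
      by_cases hS : SSh h k.1 (k.2 : ℤ) z w
      · rw [if_pos hS, if_pos ⟨hA, hS⟩]; ring
      · rw [if_neg hS, if_neg (fun k => hS k.2)]; ring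
    · have e1 : ∑ k ∈ ((Icc 1 h₀).filter Squarefree) ×ˢ range 2,
          h * ((1 + (k.2 : ℝ)) / Nat.totient k.1) *
        (if δ * Q ≤ (dt z w : ℝ) ∧ SSh h k.1 (k.2 : ℤ) z w then
          aa z * aa w * kk Q X z w else 0) = 0 := by
        apply sum_eq_zero
        intro k _
        rw [if_neg (fun k => hA k.1), mul_zero]
      rw [e1, if_neg hA, add_zero, add_zero]
      by_cases h2 : thr ≤ (dt z w : ℝ)
      · rw [if_pos h2, if_pos ⟨h2, hA⟩]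
      · rw [if_neg h2, if_neg (fun k => h2 k.1)]
  · have h0 : aa z * aa w = 0 := by
      by_cases hz0 : aa z = 0
      · rw [hz0]; ring
      · have hw0 : aa w = 0 := by
          by_contra hw0
          exact hB ⟨hz0, hw0⟩
        rw [hw0]; ring
    simp [h0]

theorem btmh {h : ℕ} (hh : 1 ≤ h) {aa : Gi → ℝ} (ha : ∀ z, |aa z| ≤ 1) (h1 : Mrs aa)
    (hsupp : ∀ z w, aa z ≠ 0 → aa w ≠ 0 → (h : ℤ) ∣ dt z w)
    (K : ℕ) (κ s₁ s₂ ε : ℝ) (hK : 1 ≤ K) (hκ : 0 < κ) (hs₁ : 0 < s₁) (h12 : s₁ < s₂)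
    (hs₂ : s₂ ≤ 1) (hε : 0 < ε) :
    ∃ Q₀ : ℕ, ∀ Q : ℕ, Q₀ ≤ Q → ∃ X₀ : ℝ, ∀ X : ℝ, X₀ ≤ X →
    |∑ e ∈ good K κ Q X, ∑ w₁ ∈ cw X s₁ s₂ e.1 e.2, ∑ w₂ ∈ cw X s₁ s₂ e.1 e.2,
      if (Q : ℝ) / Real.log Q ^ 3 ≤ (dt w₁ w₂ : ℝ) then
        aa w₁ * aa w₂ * G0h h Q X w₁ w₂ else 0| ≤ ε * X * (Q : ℝ) ^ 2 := by
  classical
  have h3 := Pool.Agent.W683.EC.jv
  have hhR : (1 : ℝ) ≤ h := by exact_mod_cast hh
  obtain ⟨C, hCh⟩ := exists_csth (s₂ := s₂) hK hκ hs₁ hs₂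
  have hC := hCh.cst
  have hC1 := hC.one
  have hK' : (1 : ℝ) ≤ K := by exact_mod_cast hK
  obtain ⟨Cφ, hCφ, havg⟩ := avg_le
  obtain ⟨η, hη, hη'⟩ : ∃ η : ℝ, 0 < η ∧ 2 * h * (C ^ 5 * η) ≤ ε / 4 := by
    refine ⟨ε / (8 * h * C ^ 5), by positivity, le_of_eq ?_⟩
    field_simp
    ring
  obtain ⟨h₀, htail⟩ := tail_small hη
  obtain ⟨N, hN⟩ : ∃ N : ℝ, N = ((((Icc 1 h₀).filter Squarefree) ×ˢ range 2).card : ℝ) := ⟨_, rfl⟩
  have hN0 : 0 ≤ N := by rw [hN]; positivity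
  obtain ⟨δ, hδ, hδ'⟩ : ∃ δ : ℝ, 0 < δ ∧
      (2 * N * h * C ^ 4 + 2 * h * (C ^ 4 * Cφ)) * δ ≤ ε / 4 := by
    have : 0 < 2 * N * h * C ^ 4 + 2 * h * (C ^ 4 * Cφ) := by positivity
    refine ⟨ε / (4 * (2 * N * h * C ^ 4 + 2 * h * (C ^ 4 * Cφ))), by positivity, le_of_eq ?_⟩
    field_simp
  obtain ⟨ε', hε', hε''⟩ : ∃ ε' : ℝ, 0 < ε' ∧ 2 * N * h * ε' ≤ ε / 4 := by
    refine ⟨ε / (8 * h * (N + 1)), by positivity, ?_⟩
    rw [mul_div_assoc', div_le_div_iff₀ (by positivity) (by norm_num)]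
    nlinarith [mul_pos hε (by linarith : (0 : ℝ) < h)]
  obtain ⟨Q₁, hQ₁⟩ := fin_comb2 (((Icc 1 h₀).filter Squarefree) ×ˢ range 2)
    (fun k Q X => |∑ e ∈ good K κ Q X, ∑ w ∈ cw X s₁ s₂ e.1 e.2, ∑ z ∈ cw X s₁ s₂ e.1 e.2,
        (if δ * Q ≤ (dt z w : ℝ) ∧ SSh h k.1 (k.2 : ℤ) z w then
          aa z * aa w * kk Q X z w else 0)| ≤ (C ^ 4 * δ + ε') * X * (Q : ℝ) ^ 2)
    (by
      rintro ⟨k, v⟩ hk
      rw [mem_product, mem_filter, mem_Icc] at hk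
      exact coreh ha h1 h3 hK hs₁ h12 hs₂ hCh (famh h k hh hk.1.1.1 (v : ℤ)) hδ hε')
  refine ⟨max Q₁ (⌈Real.exp (1 + 1 / δ)⌉₊), fun Q hQ => ?_⟩
  have hQa : Q₁ ≤ Q := (le_max_left _ _).trans hQ
  have hQb : Real.exp (1 + 1 / δ) ≤ Q :=
    (Nat.le_ceil _).trans (by exact_mod_cast (le_max_right _ _).trans hQ)
  have hQpos : (0 : ℝ) < Q := (Real.exp_pos _).trans_le hQb
  have hQ1 : 1 ≤ Q := by exact_mod_cast hQpos
  have hlog : 1 + 1 / δ ≤ Real.log Q := (Real.le_log_iff_exp_le hQpos).2 hQb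
  have hδi : 0 < 1 / δ := by positivity
  have hthr : (Q : ℝ) / Real.log Q ^ 3 ≤ δ * Q := by
    have g1 : 1 ≤ Real.log Q := by linarith
    have g2 : 1 / δ ≤ Real.log Q ^ 3 := by
      calc 1 / δ ≤ Real.log Q := by linarith
        _ = Real.log Q ^ 1 := (pow_one _).symm
        _ ≤ Real.log Q ^ 3 := pow_le_pow_right₀ g1 (by norm_num)
    rw [div_le_iff₀ (by positivity)]
    rw [div_le_iff₀ hδ] at g2
    nlinarith [mul_le_mul_of_nonneg_right g2 hQpos.le]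
  have hthr0 : 0 < (Q : ℝ) / Real.log Q ^ 3 := by
    have : 0 < Real.log Q := by linarith
    positivity
  obtain ⟨X₁, hX₁⟩ := hQ₁ Q hQa
  refine ⟨max X₁ (2 * (K * Q : ℝ)), fun X hX => ?_⟩
  have hXa : X₁ ≤ X := (le_max_left _ _).trans hX
  have hXb : 2 * (K * Q : ℝ) ≤ X := (le_max_right _ _).trans hX
  have hQ1' : (1 : ℝ) ≤ Q := by exact_mod_cast hQ1
  have hX1 : 1 ≤ X := by nlinarith
  have hcore := hX₁ X hXa
  have L : Lev2h K κ s₁ s₂ C Cφ δ η h₀ Q X ((Q : ℝ) / Real.log Q ^ 3) :=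
    ⟨hCh, havg, hCφ, hη, hδ, htail, hQ1, hXb, hX1, hthr0, hthr⟩
  have b1 := bound_a1h hh ha hsupp L
  have b2 := bound_a2h hh ha hsupp L
  have hδQ : 0 < δ * Q := by positivity
  have e1 : (∑ e ∈ good K κ Q X, ∑ w₁ ∈ cw X s₁ s₂ e.1 e.2, ∑ w₂ ∈ cw X s₁ s₂ e.1 e.2,
      if (Q : ℝ) / Real.log Q ^ 3 ≤ (dt w₁ w₂ : ℝ) then
        aa w₁ * aa w₂ * G0h h Q X w₁ w₂ else 0) =
      (∑ e ∈ good K κ Q X, ∑ w ∈ cw X s₁ s₂ e.1 e.2, ∑ z ∈ cw X s₁ s₂ e.1 e.2,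
        (if (Q : ℝ) / Real.log Q ^ 3 ≤ (dt z w : ℝ) ∧ ¬ δ * Q ≤ (dt z w : ℝ) then
          aa z * aa w * G0h h Q X z w else 0)) +
      (∑ k ∈ ((Icc 1 h₀).filter Squarefree) ×ˢ range 2,
        h * ((1 + (k.2 : ℝ)) / Nat.totient k.1) *
        ∑ e ∈ good K κ Q X, ∑ w ∈ cw X s₁ s₂ e.1 e.2, ∑ z ∈ cw X s₁ s₂ e.1 e.2,
      (if δ * Q ≤ (dt z w : ℝ) ∧ SSh h k.1 (k.2 : ℤ) z w then
        aa z * aa w * kk Q X z w else 0)) +
      (∑ e ∈ good K κ Q X, ∑ w ∈ cw X s₁ s₂ e.1 e.2, ∑ z ∈ cw X s₁ s₂ e.1 e.2,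
        (if δ * Q ≤ (dt z w : ℝ) then aa z * aa w *
        ((1 + (xih h z w : ℝ)) * (h * tl h₀ ((dt z w).toNat / h)) * kk Q X z w) else 0)) := by
    simp only [mul_sum]
    rw [sum_comm (s := ((Icc 1 h₀).filter Squarefree) ×ˢ range 2), ← sum_add_distrib,
      ← sum_add_distrib]
    refine sum_congr rfl fun e _ => ?_
    rw [sum_comm (s := ((Icc 1 h₀).filter Squarefree) ×ˢ range 2), ← sum_add_distrib,
      ← sum_add_distrib, sum_comm]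
    refine sum_congr rfl fun w _ => ?_
    rw [sum_comm (s := ((Icc 1 h₀).filter Squarefree) ×ˢ range 2), ← sum_add_distrib,
      ← sum_add_distrib]
    refine sum_congr rfl fun z _ => ?_
    exact term_splith hh aa hsupp hδQ hthr z w
  rw [e1]
  have k1 : |∑ e ∈ good K κ Q X, ∑ w ∈ cw X s₁ s₂ e.1 e.2, ∑ z ∈ cw X s₁ s₂ e.1 e.2,
        (if (Q : ℝ) / Real.log Q ^ 3 ≤ (dt z w : ℝ) ∧ ¬ δ * Q ≤ (dt z w : ℝ) then
          aa z * aa w * G0h h Q X z w else 0)| ≤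
        (2 * h * (C ^ 4 * Cφ * δ)) * (X * (Q : ℝ) ^ 2) := by
    refine le_trans ?_ b1
    refine (abs_sum_le_sum_abs _ _).trans (sum_le_sum fun e _ => ?_)
    refine (abs_sum_le_sum_abs _ _).trans (sum_le_sum fun w _ => ?_)
    exact abs_sum_le_sum_abs _ _
  have k2 : |∑ e ∈ good K κ Q X, ∑ w ∈ cw X s₁ s₂ e.1 e.2, ∑ z ∈ cw X s₁ s₂ e.1 e.2,
        (if δ * Q ≤ (dt z w : ℝ) then aa z * aa w *
        ((1 + (xih h z w : ℝ)) * (h * tl h₀ ((dt z w).toNat / h)) * kk Q X z w) else 0)| ≤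
      (2 * h * (C ^ 5 * η)) * (X * (Q : ℝ) ^ 2) := by
    refine le_trans ?_ b2
    refine (abs_sum_le_sum_abs _ _).trans (sum_le_sum fun e _ => ?_)
    refine (abs_sum_le_sum_abs _ _).trans (sum_le_sum fun w _ => ?_)
    exact abs_sum_le_sum_abs _ _
  have k3 : |∑ k ∈ ((Icc 1 h₀).filter Squarefree) ×ˢ range 2,
        h * ((1 + (k.2 : ℝ)) / Nat.totient k.1) *
        ∑ e ∈ good K κ Q X, ∑ w ∈ cw X s₁ s₂ e.1 e.2, ∑ z ∈ cw X s₁ s₂ e.1 e.2,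
      (if δ * Q ≤ (dt z w : ℝ) ∧ SSh h k.1 (k.2 : ℤ) z w then
        aa z * aa w * kk Q X z w else 0)| ≤
      N * (2 * h * ((C ^ 4 * δ + ε') * X * (Q : ℝ) ^ 2)) := by
    refine (abs_sum_le_sum_abs _ _).trans ?_
    rw [hN, ← nsmul_eq_mul]
    refine sum_le_card_nsmul _ _ _ fun k hk => ?_
    have h6 := hcore k hk
    rw [mem_product, mem_filter, mem_Icc, mem_range] at hk
    rw [abs_mul]
    have h7 : (0 : ℝ) ≤ (1 + (k.2 : ℝ)) / Nat.totient k.1 := by positivity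
    have h8 : (1 + (k.2 : ℝ)) / Nat.totient k.1 ≤ 2 := by
      have h9 : (1 : ℝ) ≤ Nat.totient k.1 := by
        have : 0 < Nat.totient k.1 := Nat.totient_pos.2 hk.1.1.1
        exact_mod_cast this
      have h10 : (k.2 : ℝ) ≤ 1 := by
        have : k.2 ≤ 1 := by omega
        exact_mod_cast this
      rw [div_le_iff₀ (by linarith)]
      linarith
    rw [abs_of_nonneg (mul_nonneg (by positivity) h7)]
    refine mul_le_mul ?_ h6 (abs_nonneg _) (by positivity)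
    nlinarith
  have t6 : 0 ≤ X * (Q : ℝ) ^ 2 := by positivity
  have m1 := mul_le_mul_of_nonneg_right hη' t6
  have m2 := mul_le_mul_of_nonneg_right hδ' t6
  have m3 := mul_le_mul_of_nonneg_right hε'' t6
  have m4 : 0 ≤ ε * (X * (Q : ℝ) ^ 2) := by positivity
  refine (abs_add_le _ _).trans ?_
  refine (add_le_add_left (abs_add_le _ _) _).trans ?_
  calc _ ≤ ((2 * h * (C ^ 4 * Cφ * δ)) * (X * (Q : ℝ) ^ 2) +
        N * (2 * h * ((C ^ 4 * δ + ε') * X * (Q : ℝ) ^ 2))) +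
        (2 * h * (C ^ 5 * η)) * (X * (Q : ℝ) ^ 2) := add_le_add (add_le_add k1 k3) k2
    _ = (2 * N * h * C ^ 4 + 2 * h * (C ^ 4 * Cφ)) * δ * (X * (Q : ℝ) ^ 2) +
        2 * N * h * ε' * (X * (Q : ℝ) ^ 2) +
        2 * h * (C ^ 5 * η) * (X * (Q : ℝ) ^ 2) := by ring
    _ ≤ ε * (X * (Q : ℝ) ^ 2) := by linarith
    _ = _ := by ring

end Pool.Agent.T2H34.Dh
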