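import Pool.Agent.T2H34.DhDec
import Pool.Agent.W368.EC.Scnt
import Pool.Agent.W899.EC.Ecnt
import Pool.Agent.W108.EX.Regx

/-!
Counting: the pairs of the region and the pairs `(d, n)` with `d ∣ n² + 1`.
-/

set_option autoImplicit false

namespace Pool.Agent.T2H34.Dh

open Finset Filter
open Pool.Agent.W78.GA (Qd nm prim dt ip lat ball pball edge dedge nm_mul prim_ne_zero nm_eq_zero
  mem_pball nm_zero star_mul_eq star_mul_self')
open Pool.Agent.W78.EC (Gi)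
open Pool.Agent.W251.EX
open Pool.Agent.W714.EC (hD01 nmZ)
open Pool.Agent.W305.EC (prim_of_dt exists_pair unique_pair U4 mem_U4 card_U4 cancel)

/-- the pairs `(d, n)` with `n < d ≤ X` and `d ∣ n² + 1` -/
def DD (X : ℕ) : Finset (ℕ × ℕ) :=
  ((Icc 1 X) ×ˢ (range X)).filter (fun p => p.2 < p.1 ∧ p.1 ∣ p.2 ^ 2 + 1)

lemma mem_DD {X : ℕ} {p : ℕ × ℕ} : p ∈ DD X ↔ 1 ≤ p.1 ∧ p.1 ≤ X ∧ p.2 < p.1 ∧
    p.1 ∣ p.2 ^ 2 + 1 := by
  unfold DD
  rw [mem_filter, mem_product, mem_Icc, mem_range]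
  constructor
  · rintro ⟨⟨⟨h1, h2⟩, -⟩, h3, h4⟩
    exact ⟨h1, h2, h3, h4⟩
  · rintro ⟨h1, h2, h3, h4⟩
    exact ⟨⟨⟨h1, h2⟩, by omega⟩, h3, h4⟩

lemma Rg_prod {X : ℕ} {q : Gi × Gi} (hq : q ∈ Rg X) :
    nm q.1 * nm q.2 = (ip q.1 q.2).toNat ^ 2 + 1 ∧ ((ip q.1 q.2).toNat : ℤ) = ip q.1 q.2 ∧
      1 ≤ nm q.2 ∧ (ip q.1 q.2).toNat < nm q.2 := by
  obtain ⟨hdt, hX, h2, h3⟩ := mem_Rg.1 hq
  obtain ⟨f1, f2, f3, f4⟩ := Rg_facts hdt h2 h3
  have h6 : ((ip q.1 q.2).toNat : ℤ) = ip q.1 q.2 := Int.toNat_of_nonneg h2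
  refine ⟨?_, h6, by exact_mod_cast f1, ?_⟩
  · have : ((nm q.1 * nm q.2 : ℕ) : ℤ) = (((ip q.1 q.2).toNat ^ 2 + 1 : ℕ) : ℤ) := by
      push_cast
      rw [h6]
      exact f4
    exact_mod_cast this
  · have : ((ip q.1 q.2).toNat : ℤ) < nm q.2 := by rw [h6]; exact h3
    exact_mod_cast this

/-- the pairs of the region and the pairs `(d, n)` -/
theorem rg_sum {M : Type*} [AddCommMonoid M] (X : ℕ) (G : ℕ → ℕ → M) :
    ∑ q ∈ Rg X, G (nm q.2) (ip q.1 q.2).toNat = 4 • ∑ p ∈ DD X, G p.1 p.2 := by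
  classical
  have hmaps : ∀ q ∈ Rg X, (nm q.2, (ip q.1 q.2).toNat) ∈ DD X := by
    intro q hq
    obtain ⟨e1, e2, e3, e4⟩ := Rg_prod hq
    obtain ⟨hdt, hX, h2, h3⟩ := mem_Rg.1 hq
    rw [mem_DD]
    exact ⟨e3, hX, e4, ⟨nm q.1, by rw [← e1]; ring⟩⟩
  have hfib := Finset.sum_fiberwise_of_maps_to hmaps (fun q => G (nm q.2) (ip q.1 q.2).toNat)
  rw [← hfib, Finset.smul_sum]
  refine Finset.sum_congr rfl fun p hp => ?_
  obtain ⟨p1, p2, p3, d', p4⟩ := mem_DD.1 hp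
  obtain ⟨v, w, a1, a2, a3, a4⟩ := exists_pair p.2 d' p.1 (by rw [p4]; ring)
  have hv : v ≠ 0 := by
    rintro rfl
    rw [nm_zero] at a1
    rw [← a1] at p4
    simp at p4
  have hset : (Rg X).filter (fun q => (nm q.2, (ip q.1 q.2).toNat) = p) =
      U4.image (fun u => (u * v, u * w)) := by
    ext q
    rw [Finset.mem_filter, Finset.mem_image]
    constructor
    · rintro ⟨hq, h5⟩
      obtain ⟨e1, e2, e3, e4⟩ := Rg_prod hq
      obtain ⟨hdt, hX, h2, h3⟩ := mem_Rg.1 hq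
      have c1 : nm q.2 = p.1 := congrArg Prod.fst h5
      have c2 : (ip q.1 q.2).toNat = p.2 := congrArg Prod.snd h5
      have c3 : nm q.1 = nm v := by
        rw [a1]
        rw [c1, c2, p4, mul_comm] at e1
        exact Nat.eq_of_mul_eq_mul_left (by omega) e1
      have c4 : ip q.1 q.2 = ip v w := by
        rw [a4, ← c2, e2]
      obtain ⟨u, hu, hu1, hu2⟩ := unique_pair hv c3 a3 hdt c4
      exact ⟨u, hu, Prod.ext hu1.symm hu2.symm⟩
    · rintro ⟨u, hu, rfl⟩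
      rw [mem_U4] at hu
      have e1 : star (u * v) * (u * w) = star v * w := by
        have : star (u * v) * (u * w) = (star u * u) * (star v * w) := by
          rw [star_mul']
          ring
        rw [this, star_mul_self' hD01, hu, Nat.cast_one, one_mul]
      rw [star_mul_eq, star_mul_eq] at e1
      obtain ⟨e2, e3⟩ := QuadraticAlgebra.mk.inj e1
      have n2 : nm (u * w) = p.1 := by rw [nm_mul, hu, one_mul, a2]
      refine ⟨mem_Rg.2 ⟨?_, ?_, ?_, ?_⟩, ?_⟩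
      · simp only
        rw [e3]; exact a3
      · simp only
        rw [n2]; exact p2
      · simp only
        rw [e2, a4]
        exact Int.natCast_nonneg _
      · simp only
        rw [e2, a4, n2]
        exact_mod_cast p3
      · simp only
        rw [n2, e2, a4, Int.toNat_natCast]
  have hinj : Function.Injective (fun u : Gi => (u * v, u * w)) := by
    intro u u' h
    have h1 : u * v = u' * v := congrArg Prod.fst h
    rw [mul_comm u, mul_comm u'] at h1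
    exact cancel hv h1
  have hcard : ((Rg X).filter (fun q => (nm q.2, (ip q.1 q.2).toNat) = p)).card = 4 := by
    rw [hset, Finset.card_image_of_injective _ hinj, card_U4]
  have hconst : ∑ q ∈ (Rg X).filter (fun q => (nm q.2, (ip q.1 q.2).toNat) = p),
      G (nm q.2) (ip q.1 q.2).toNat =
      ∑ q ∈ (Rg X).filter (fun q => (nm q.2, (ip q.1 q.2).toNat) = p), G p.1 p.2 := by
    refine Finset.sum_congr rfl fun e he => ?_
    rw [Finset.mem_filter] at he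
    rw [← he.2]
  rw [hconst, Finset.sum_const, hcard]

/-- the norm of `x + t y` -/
lemma nm_pv {X : ℕ} {q : Gi × Gi} (hq : q ∈ Rg X) (t : ℕ) :
    nm (pv t q) = (((ip q.1 q.2).toNat + t * nm q.2) ^ 2 + 1) / nm q.2 := by
  obtain ⟨e1, e2, e3, e4⟩ := Rg_prod hq
  symm
  apply Nat.div_eq_of_eq_mul_left (by omega)
  have h := pv_nm t q
  rw [← e2] at h
  have h2 : (nm q.1 : ℤ) * nm q.2 = ((ip q.1 q.2).toNat : ℤ) ^ 2 + 1 := by exact_mod_cast e1
  have : ((((ip q.1 q.2).toNat + t * nm q.2) ^ 2 + 1 : ℕ) : ℤ) = ((nm (pv t q) * nm q.2 : ℕ) : ℤ) := by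
    push_cast
    rw [h]
    linear_combination -h2
  exact_mod_cast this

lemma nm_fst {X : ℕ} {q : Gi × Gi} (hq : q ∈ Rg X) :
    nm q.1 = ((ip q.1 q.2).toNat ^ 2 + 1) / nm q.2 := by
  obtain ⟨e1, e2, e3, e4⟩ := Rg_prod hq
  symm
  apply Nat.div_eq_of_eq_mul_left (by omega)
  exact e1.symm

lemma nm_sub {X : ℕ} {q : Gi × Gi} (hq : q ∈ Rg X) :
    nm (q.2 - q.1) = ((nm q.2 - (ip q.1 q.2).toNat) ^ 2 + 1) / nm q.2 := by
  obtain ⟨e1, e2, e3, e4⟩ := Rg_prod hq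
  symm
  apply Nat.div_eq_of_eq_mul_left (by omega)
  have h2 : (nm q.1 : ℤ) * nm q.2 = ((ip q.1 q.2).toNat : ℤ) ^ 2 + 1 := by exact_mod_cast e1
  have h3 : (nm (q.2 - q.1) : ℤ) = nm q.2 - 2 * ip q.1 q.2 + nm q.1 := by
    rw [nmZ, nmZ, nmZ]
    unfold ip
    simp only [QuadraticAlgebra.re_sub, QuadraticAlgebra.im_sub]
    ring
  rw [← e2] at h3
  have : (((nm q.2 - (ip q.1 q.2).toNat) ^ 2 + 1 : ℕ) : ℤ) = ((nm (q.2 - q.1) * nm q.2 : ℕ) : ℤ) := by
    push_cast [Nat.cast_sub e4.le]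
    rw [h3]
    linear_combination -h2
  exact_mod_cast this

/-- the second vector determines the pair -/
lemma Rg_inj {X : ℕ} {q q' : Gi × Gi} (hq : q ∈ Rg X) (hq' : q' ∈ Rg X) (h : q.2 = q'.2) :
    q = q' := by
  obtain ⟨hdt, hX, h2, h3⟩ := mem_Rg.1 hq
  obtain ⟨hdt', hX', h2', h3'⟩ := mem_Rg.1 hq'
  rw [← h] at hdt' h2' h3'
  obtain ⟨-, hp⟩ := prim_of_dt hdt
  obtain ⟨a, b, hab⟩ := Int.isCoprime_iff_gcd_eq_one.2 hp
  have e0 : q.1.re * q.2.im - q.1.im * q.2.re = q'.1.re * q.2.im - q'.1.im * q.2.re := by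
    have h1 : q.1.re * q.2.im - q.1.im * q.2.re = 1 := hdt
    have h1' : q'.1.re * q.2.im - q'.1.im * q.2.re = 1 := hdt'
    rw [h1, h1']
  obtain ⟨k, hk⟩ : ∃ k : ℤ, k = a * (q.1.re - q'.1.re) + b * (q.1.im - q'.1.im) := ⟨_, rfl⟩
  have k1 : k * q.2.re = q.1.re - q'.1.re := by
    rw [hk]
    linear_combination (q.1.re - q'.1.re) * hab - b * e0
  have k2 : k * q.2.im = q.1.im - q'.1.im := by
    rw [hk]
    linear_combination (q.1.im - q'.1.im) * hab + a * e0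
  have k3 : ip q.1 q.2 - ip q'.1 q.2 = k * nm q.2 := by
    rw [nmZ]
    unfold ip
    linear_combination -q.2.re * k1 - q.2.im * k2
  have k4 : k = 0 := by
    obtain ⟨f1, -⟩ := Rg_facts hdt h2 h3
    by_contra hne
    rcases lt_or_gt_of_ne hne with h4 | h4
    · have : k ≤ -1 := by omega
      nlinarith
    · have : 1 ≤ k := by omega
      nlinarith
  rw [k4, zero_mul] at k1 k2
  refine Prod.ext (QuadraticAlgebra.ext (by linarith) (by linarith)) h

/-- pairs near the outer boundary -/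
theorem b1_card : ∃ C : ℝ, 0 < C ∧ ∀ δ : ℝ, 0 < δ → δ ≤ 1 / 2 → ∃ X₀ : ℕ, ∀ X : ℕ, X₀ ≤ X →
    (((Rg X).filter (fun q => (1 - δ) * (X : ℝ) < (nm q.2 : ℝ))).card : ℝ) ≤ C * δ * X := by
  classical
  obtain ⟨C, hC, h⟩ := Pool.Agent.W108.EX.thin_card
  refine ⟨2 * C, by positivity, fun δ hδ hδ1 => ?_⟩
  obtain ⟨X₀, hX₀⟩ := h 1 one_pos le_rfl (2 * δ) (by positivity) (by linarith)
  refine ⟨⌈2 * X₀⌉₊, fun X hX => ?_⟩
  have hXR : 2 * X₀ ≤ X := (Nat.le_ceil _).trans (by exact_mod_cast hX)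
  have hX0 : (0 : ℝ) ≤ X := Nat.cast_nonneg X
  have hm : 0 ≤ δ * (1 - 2 * δ) * X := by
    have : 0 ≤ 1 - 2 * δ := by linarith
    positivity
  have h1 := hX₀ ((1 - δ) * X) X (by nlinarith) (by nlinarith) (by nlinarith [hm])
  rw [one_mul, one_mul] at h1
  refine (le_trans ?_ h1).trans ?_
  · have : ((Rg X).filter (fun q => (1 - δ) * (X : ℝ) < (nm q.2 : ℝ))).card ≤
        (Pool.Agent.W108.EX.thin ((1 - δ) * (X : ℝ)) X).card := by
      refine card_le_card_of_injOn Prod.snd ?_ ?_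
      · intro q hq
        rw [mem_coe, mem_filter] at hq
        obtain ⟨hdt, hX2, -, -⟩ := mem_Rg.1 hq.1
        rw [mem_coe, Pool.Agent.W108.EX.mem_thin]
        exact ⟨⟨(prim_of_dt hdt).2, by exact_mod_cast hX2⟩, hq.2⟩
      · intro q hq q' hq' he
        rw [mem_coe, mem_filter] at hq hq'
        exact Rg_inj hq.1 hq'.1 he
    exact_mod_cast this
  · have : C * (2 * δ) * ((1 - δ) * X) ≤ C * (2 * δ) * X := by
      apply mul_le_mul_of_nonneg_left _ (by positivity)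
      nlinarith
    linarith

/-- number of pairs of the region satisfying a condition -/
lemma rg_card (X : ℕ) (P : ℕ → ℕ → Prop) [∀ d n, Decidable (P d n)] :
    ((Rg X).filter (fun q => P (nm q.2) (ip q.1 q.2).toNat)).card =
      4 * ((DD X).filter (fun p => P p.1 p.2)).card := by
  have h := rg_sum X (fun d n => if P d n then 1 else 0)
  rw [← card_filter, ← card_filter, smul_eq_mul] at h
  exact h

/-- pairs near the inner boundary -/
theorem b2_card : ∃ C : ℝ, 0 < C ∧ ∀ δ : ℝ, 0 < δ → δ ≤ 1 → ∀ X : ℕ, 1 ≤ δ * X →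
    (((Rg X).filter (fun q => (nm q.1 : ℝ) ≤ δ * X)).card : ℝ) ≤ C * Real.sqrt δ * X ∧
    (((Rg X).filter (fun q => (nm (q.2 - q.1) : ℝ) ≤ δ * X)).card : ℝ) ≤ C * Real.sqrt δ * X := by
  classical
  obtain ⟨C, hC⟩ := Pool.Agent.W368.EC.scnt
  refine ⟨4 * (|C| + 1), by positivity, fun δ hδ hδ1 X hX => ?_⟩
  have hX0 : (0 : ℝ) ≤ X := Nat.cast_nonneg X
  obtain ⟨m, hm⟩ : ∃ m, m = ⌊δ * X⌋₊ := ⟨_, rfl⟩
  have hm1 : 1 ≤ m := by
    rw [hm, Nat.le_floor_iff (by linarith)]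
    exact_mod_cast hX
  have hmδ : (m : ℝ) ≤ δ * X := by
    rw [hm]
    exact Nat.floor_le (by linarith)
  have hmX : m ≤ X := by
    have : (m : ℝ) ≤ X := hmδ.trans (by nlinarith)
    exact_mod_cast this
  have hb := hC m X hm1 hmX
  have hsq : Real.sqrt ((m : ℝ) * X) ≤ Real.sqrt δ * X := by
    rw [Real.sqrt_le_left (by positivity), mul_pow, Real.sq_sqrt hδ.le]
    nlinarith
  have hb2 : C * Real.sqrt ((m : ℝ) * X) ≤ (|C| + 1) * (Real.sqrt δ * X) := by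
    have h1 : C * Real.sqrt ((m : ℝ) * X) ≤ (|C| + 1) * Real.sqrt ((m : ℝ) * X) := by
      apply mul_le_mul_of_nonneg_right _ (Real.sqrt_nonneg _)
      linarith [le_abs_self C]
    refine h1.trans ?_
    apply mul_le_mul_of_nonneg_left hsq (by positivity)
  have key : ∀ (f : ℕ → ℕ → ℕ), (∀ d n, d ∣ n ^ 2 + 1 → n < d → d ∣ f d n ^ 2 + 1) →
      (∀ d n n', n < d → n' < d → d ∣ n ^ 2 + 1 → d ∣ n' ^ 2 + 1 →
        (f d n ^ 2 + 1) / d = (f d n' ^ 2 + 1) / d → n = n') →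
      ((((DD X).filter (fun p => ((((f p.1 p.2 ^ 2 + 1) / p.1 : ℕ)) : ℝ) ≤ δ * X)).card : ℕ) : ℝ) ≤
        (|C| + 1) * (Real.sqrt δ * X) := by
    intro f hf hinj
    refine le_trans ?_ (hb.trans hb2)
    have : ((DD X).filter (fun p => ((((f p.1 p.2 ^ 2 + 1) / p.1 : ℕ)) : ℝ) ≤ δ * X)).card ≤
        (((Icc 1 m) ×ˢ (Icc 1 X)).filter (fun p => ∃ n : ℕ, p.1 * p.2 = n ^ 2 + 1)).card := by
      refine card_le_card_of_injOn (fun p => ((f p.1 p.2 ^ 2 + 1) / p.1, p.1)) ?_ ?_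
      · intro p hp
        rw [mem_coe, mem_filter] at hp
        obtain ⟨p1, p2, p3, p4⟩ := mem_DD.1 hp.1
        obtain ⟨e, he⟩ := hf _ _ p4 p3
        have hdiv : (f p.1 p.2 ^ 2 + 1) / p.1 = e := by
          rw [he]
          exact Nat.mul_div_cancel_left e (by omega)
        have hp2 := hp.2
        simp only [hdiv] at hp2
        rw [mem_coe, mem_filter, mem_product, mem_Icc, mem_Icc]
        simp only [hdiv]
        refine ⟨⟨⟨?_, ?_⟩, p1, p2⟩, f p.1 p.2, by rw [he]; ring⟩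
        · rcases Nat.eq_zero_or_pos e with h0 | h0
          · rw [h0] at he
            omega
          · exact h0
        · rw [hm, Nat.le_floor_iff (by linarith)]
          exact hp2
      · intro p hp p' hp' he
        rw [mem_coe, mem_filter] at hp hp'
        obtain ⟨p1, p2, p3, p4⟩ := mem_DD.1 hp.1
        obtain ⟨p1', p2', p3', p4'⟩ := mem_DD.1 hp'.1
        simp only [Prod.mk.injEq] at he
        obtain ⟨e1, e2⟩ := he
        rw [← e2] at e1 p3' p4'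
        exact Prod.ext e2 (hinj _ _ _ p3 p3' p4 p4' e1)
    exact_mod_cast this
  constructor
  · have e : (Rg X).filter (fun q => (nm q.1 : ℝ) ≤ δ * X) = (Rg X).filter (fun q =>
        (fun d n : ℕ => ((((n ^ 2 + 1) / d : ℕ)) : ℝ) ≤ δ * X) (nm q.2) (ip q.1 q.2).toNat) := by
      apply filter_congr
      intro q hq
      rw [nm_fst hq]
    rw [e, rg_card X (fun d n : ℕ => ((((n ^ 2 + 1) / d : ℕ)) : ℝ) ≤ δ * X)]
    have h1 := key (fun _ n => n) (fun d n h _ => h) (by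
      intro d n n' h1 h2 h3 h4 h5
      have h6 : n ^ 2 + 1 = n' ^ 2 + 1 := by
        rw [← Nat.div_mul_cancel h3, ← Nat.div_mul_cancel h4, h5]
      exact Nat.pow_left_injective two_ne_zero (by omega : n ^ 2 = n' ^ 2))
    push_cast
    linarith
  · have e : (Rg X).filter (fun q => (nm (q.2 - q.1) : ℝ) ≤ δ * X) = (Rg X).filter (fun q =>
        (fun d n : ℕ => (((((d - n) ^ 2 + 1) / d : ℕ)) : ℝ) ≤ δ * X) (nm q.2)
          (ip q.1 q.2).toNat) := by
      apply filter_congr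
      intro q hq
      rw [nm_sub hq]
    rw [e, rg_card X (fun d n : ℕ => (((((d - n) ^ 2 + 1) / d : ℕ)) : ℝ) ≤ δ * X)]
    have hdv : ∀ d n : ℕ, d ∣ n ^ 2 + 1 → n < d → d ∣ (d - n) ^ 2 + 1 := by
      intro d n h1 h2
      obtain ⟨m, rfl⟩ := Nat.exists_eq_add_of_le h2.le
      have e1 : n + m - n = m := by omega
      rw [e1]
      obtain ⟨k, hk⟩ := h1
      have h3 : ((n + m : ℕ) : ℤ) ∣ ((m ^ 2 + 1 : ℕ) : ℤ) := by
        refine ⟨k + m - n, ?_⟩
        have hk' : (n : ℤ) ^ 2 + 1 = (n + m) * k := by exact_mod_cast hk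
        push_cast
        linear_combination hk'
      exact_mod_cast h3
    have h1 := key (fun d n => d - n) hdv (by
      intro d n n' h1 h2 h3 h4 h5
      have h6 : (d - n) ^ 2 + 1 = (d - n') ^ 2 + 1 := by
        rw [← Nat.div_mul_cancel (hdv d n h3 h1), ← Nat.div_mul_cancel (hdv d n' h4 h2), h5]
      have h7 : d - n = d - n' := Nat.pow_left_injective two_ne_zero
        (by omega : (d - n) ^ 2 = (d - n') ^ 2)
      omega)
    push_cast
    linarith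

end Pool.Agent.T2H34.Dh
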