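import Pool.Agent.T2H34.DhMain

/-!
Correlations of `b₁^Ω` and `b₂^Ω` for pairs of determinant `ℓ`, congruent modulo `ℓ`.
-/

set_option autoImplicit false

namespace Pool.Agent.T2H34.Dh

open Finset Filter
open Pool.Agent.W78.GA (Qd nm prim dt ip lat ball pball edge nm_mul prim_ne_zero nm_eq_zero mem_pball)
open Pool.Agent.W78.EC (Gi cone cw PQ th good InG TT res av Tr)
open Pool.Agent.W251.EX
open Pool.Agent.W214.EX (Vs wF norm_Vs)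
open Pool.Agent.W714.EC (hD01 nmZ)

/-- complex conjugation -/
def cj (z : Gi) : Gi := ⟨z.re, -z.im⟩

lemma cj_cj (z : Gi) : cj (cj z) = z := by
  unfold cj
  apply QuadraticAlgebra.ext <;> simp

lemma nm_cj (z : Gi) : nm (cj z) = nm z := by
  have : (nm (cj z) : ℤ) = nm z := by
    rw [nmZ, nmZ]
    unfold cj
    simp only
    ring
  exact_mod_cast this

lemma prim_cj (z : Gi) : prim (cj z) ↔ prim z := by
  unfold prim cj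
  simp only [Int.gcd_neg]

lemma dt_cj (v w : Gi) : dt (cj w) (cj v) = dt v w := by
  unfold dt cj
  simp only
  ring

lemma ip_cj (v w : Gi) : ip (cj w) (cj v) = ip v w := by
  unfold ip cj
  simp only
  ring

lemma rcl_cj {ℓ : ℕ} (v w : Gi) : rcl ℓ (cj w) = rcl ℓ (cj v) ↔ rcl ℓ v = rcl ℓ w := by
  unfold rcl cj
  simp only [Prod.mk.injEq, Int.cast_neg, neg_inj]
  exact and_congr eq_comm eq_comm

open scoped Classical in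
/-- symmetry -/
theorem Th_swap (ℓ : ℕ) {F₁ F₂ : Gi → ℂ} (h1 : ∀ z, F₁ (cj z) = F₁ z) (h2 : ∀ z, F₂ (cj z) = F₂ z)
    (s₁ s₂ s₃ s₄ X : ℝ) : Th ℓ F₁ F₂ s₁ s₂ s₃ s₄ X = Th ℓ F₂ F₁ s₃ s₄ s₁ s₂ X := by
  unfold Th
  refine sum_nbij' (fun e => (cj e.2, cj e.1)) (fun e => (cj e.2, cj e.1)) ?_ ?_ ?_ ?_ ?_
  · intro e he
    rw [mem_filter, mem_dedgeh] at he ⊢
    simp only [prim_cj, nm_cj, dt_cj, ip_cj]
    tauto
  · intro e he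
    rw [mem_filter, mem_dedgeh] at he ⊢
    simp only [prim_cj, nm_cj, dt_cj, ip_cj]
    tauto
  · intro e _
    simp only [cj_cj]
  · intro e _
    simp only [cj_cj]
  · intro e _
    unfold Gh wF
    simp only [rcl_cj, nm_cj, h1, h2]
    split_ifs <;> ring

lemma bO_cj (b : ℂ) (z : Gi) : bO b (cj z) = bO b z := by
  unfold bO
  rw [nm_cj]

lemma bO_pow {k : ℕ} {b : ℂ} (hb : b ^ k = 1) (z : Gi) : bO b z ^ k = 1 := by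
  unfold bO
  rw [← pow_mul, mul_comm, pow_mul, hb, one_pow]

lemma bO_mem {k : ℕ} (hk : 1 ≤ k) {b : ℂ} (hb : b ^ k = 1) (z : Gi) : bO b z ∈ Vs k :=
  (Pool.Agent.T2H34.mem_V hk).2 (Or.inr (bO_pow hb z))

lemma bO_dil (b : ℂ) (π z : Gi) (hπ : (nm π).Prime) (hz : z ≠ 0) :
    bO b (π * z) = b * bO b z := by
  unfold bO
  rw [nm_mul, ArithmeticFunction.cardFactors_mul hπ.ne_zero, pow_add,
    ArithmeticFunction.cardFactors_apply_prime hπ, pow_one]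
  intro h
  exact hz ((nm_eq_zero hD01).1 h)

lemma norm_root {k : ℕ} (hk : 1 ≤ k) {b : ℂ} (hb : b ^ k = 1) : ‖b‖ = 1 :=
  Complex.norm_eq_one_of_pow_eq_one hb (by omega)

/-- the correlations are small at almost all scales -/
theorem corh {k : ℕ} (hk : 1 ≤ k) {b₁ b₂ : ℂ} (hb₁ : b₁ ^ k = 1) (hb₂ : b₂ ^ k = 1)
    (hne : b₁ ≠ 1 ∨ b₂ ≠ 1) {ℓ : ℕ} (hℓ : 1 ≤ ℓ)
    {s₁ s₂ s₃ s₄ : ℝ} (hs₁ : 0 < s₁) (hs₁₂ : s₁ < s₂) (hs₂ : s₂ ≤ 1) (hs₃ : 0 < s₃)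
    (hs₃₄ : s₃ < s₄) (hs₄ : s₄ ≤ 1) (ε : ℝ) (hε : 0 < ε) :
    ∃ N₀ : ℕ, ∀ N' : ℕ, N₀ ≤ N' → ∑ X ∈ Icc 1 N', 1 / (X : ℝ) ^ 2 *
      ‖Th ℓ (bO b₁) (bO b₂) s₁ s₂ s₃ s₄ X‖ ≤ ε * Real.log N' := by
  have : NeZero ℓ := ⟨by omega⟩
  by_cases h2 : b₂ = 1
  · have h1 : b₁ ≠ 1 := by
      rcases hne with h | h
      · exact h
      · exact absurd h2 h
    obtain ⟨hm1, hm2⟩ := mrsxA k _ (pntxA k b₁ hk hb₁ h1)
    obtain ⟨N₀, hN₀⟩ := mainh hk (ℓ := ℓ) (F₁ := bO b₂) (F₂ := bO b₁) (bO_mem hk hb₂)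
      (bO_mem hk hb₁) (norm_root hk hb₂) (norm_root hk hb₁) (fun π z hπ hz => bO_dil b₂ π z hπ hz)
      (fun π z hπ hz => bO_dil b₁ π z hπ hz) hm1 hm2 hs₃ hs₃₄ hs₄ hs₁ hs₁₂ hs₂ ε hε
    refine ⟨N₀, fun N' hN' => le_trans (le_of_eq ?_) (hN₀ N' hN')⟩
    refine sum_congr rfl fun X _ => ?_
    rw [Th_swap ℓ (bO_cj b₁) (bO_cj b₂)]
  · obtain ⟨hm1, hm2⟩ := mrsxA k _ (pntxA k b₂ hk hb₂ h2)
    exact mainh hk (ℓ := ℓ) (F₁ := bO b₁) (F₂ := bO b₂) (bO_mem hk hb₁)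
      (bO_mem hk hb₂) (norm_root hk hb₁) (norm_root hk hb₂) (fun π z hπ hz => bO_dil b₁ π z hπ hz)
      (fun π z hπ hz => bO_dil b₂ π z hπ hz) hm1 hm2 hs₁ hs₁₂ hs₂ hs₃ hs₃₄ hs₄ ε hε

end Pool.Agent.T2H34.Dh
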