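import Pool.Agent.T2H34.DhGg
import Pool.Agent.W672.EX.Btmx

/-!
Pairs of determinant `h`: the cells. Port of `W672.EX` with weaker hypotheses on the family.
-/

set_option autoImplicit false
set_option linter.unusedVariables false

namespace Pool.Agent.T2H34.Dh

open Finset Filter
open Pool.Agent.H376R2.MR
open Pool.Agent.W78.GA
open Pool.Agent.W78.EC
open Pool.Agent.W125.EC
open Pool.Agent.W251.EX (Per Mrs Btm)
open Pool.Agent.W714.EC (hD01 nmZ decomp mem_cone mem_edge edge_unique)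

section
open Pool.Agent.W683.EC (psi_nonneg psi_le psi_eq_zero card_diam nm_sub_le nmR)

/-- bound for the smooth part of the main term -/
theorem kkb (s : ℝ) (hs : 0 < s) : ∃ C : ℝ, ∀ (Q : ℕ) (X : ℝ) (w₁ w₂ : Gi), 1 ≤ Q → 1 ≤ X →
    s * X < (nm w₁ : ℝ) → (nm w₁ : ℝ) ≤ X → s * X < (nm w₂ : ℝ) → (nm w₂ : ℝ) ≤ X →
    0 < dt w₁ w₂ → |kk Q X w₁ w₂| ≤ C * Q := by
  refine ⟨4 * (4 / Real.sqrt s + 1), ?_⟩
  intro Q X w₁ w₂ hQ hX h1 h1' h2 h2' hD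
  have hX0 : 0 < X := by linarith
  have hsq : 0 < Real.sqrt s := Real.sqrt_pos.2 hs
  set D : ℝ := (dt w₁ w₂ : ℝ) with hDdef
  have hD1 : 1 ≤ D := by
    have : (1 : ℤ) ≤ dt w₁ w₂ := hD
    rw [hDdef]; exact_mod_cast this
  have hD0' : 0 < D := by linarith
  have hDX : 0 < D ^ 2 * X := by positivity
  -- sum over m₂
  have hsum : ∀ m₁ ∈ Ioc Q (2 * Q), ∑ m₂ ∈ Ioc Q (2 * Q),
      psi (nm ((m₂ : Gi) * w₁ - (m₁ : Gi) * w₂) / (D ^ 2 * X)) ≤ 16 * (4 * D / Real.sqrt s + 1) := by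
    intro m₁ _
    classical
    set S := (Ioc Q (2 * Q)).filter
      (fun m₂ : ℕ => (nm ((m₂ : Gi) * w₁ - (m₁ : Gi) * w₂) : ℝ) < 4 * (D ^ 2 * X)) with hS
    have e1 : ∑ m₂ ∈ Ioc Q (2 * Q), psi (nm ((m₂ : Gi) * w₁ - (m₁ : Gi) * w₂) / (D ^ 2 * X)) =
        ∑ m₂ ∈ S, psi (nm ((m₂ : Gi) * w₁ - (m₁ : Gi) * w₂) / (D ^ 2 * X)) := by
      rw [hS, Finset.sum_filter]
      refine Finset.sum_congr rfl fun m₂ _ => ?_
      split_ifs with h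
      · rfl
      · exact psi_eq_zero (by rw [le_div_iff₀ hDX]; exact not_lt.1 h)
    rw [e1]
    have e2 : ∑ m₂ ∈ S, psi (nm ((m₂ : Gi) * w₁ - (m₁ : Gi) * w₂) / (D ^ 2 * X)) ≤
        S.card * 16 := by
      calc _ ≤ ∑ _m ∈ S, (16 : ℝ) := Finset.sum_le_sum fun m₂ _ => psi_le (by positivity)
        _ = _ := by rw [Finset.sum_const, nsmul_eq_mul]
    refine e2.trans ?_
    have e3 : (S.card : ℝ) ≤ 4 * D / Real.sqrt s + 1 := by
      refine card_diam S _ (by positivity) fun a ha b hb => ?_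
      have ha' := (Finset.mem_filter.1 ha).2
      have hb' := (Finset.mem_filter.1 hb).2
      have h3 := nm_sub_le ((b : Gi) * w₁ - (m₁ : Gi) * w₂) ((a : Gi) * w₁ - (m₁ : Gi) * w₂)
      have h4 : (nm ((b : Gi) * w₁ - (m₁ : Gi) * w₂ - ((a : Gi) * w₁ - (m₁ : Gi) * w₂)) : ℝ) =
          ((b : ℝ) - a) ^ 2 * nm w₁ := by
        rw [nmR, nmR]
        simp only [QuadraticAlgebra.re_sub, QuadraticAlgebra.im_sub, QuadraticAlgebra.re_mul,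
          QuadraticAlgebra.im_mul, QuadraticAlgebra.re_natCast, QuadraticAlgebra.im_natCast]
        push_cast
        ring
      rw [h4] at h3
      have h5 : ((b : ℝ) - a) ^ 2 * (s * X) ≤ 16 * (D ^ 2 * X) := by
        have := mul_le_mul_of_nonneg_left h1.le (sq_nonneg ((b : ℝ) - a))
        linarith
      have h6 : ((b : ℝ) - a) ^ 2 * s ≤ 16 * D ^ 2 := by
        have h7 : (((b : ℝ) - a) ^ 2 * s) * X ≤ (16 * D ^ 2) * X := by linarith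
        exact le_of_mul_le_mul_right h7 hX0
      rw [le_div_iff₀ hsq]
      refine le_of_sq_le_sq ?_ (by positivity) |>.trans le_rfl
      rw [mul_pow, Real.sq_sqrt hs.le]
      linarith
    linarith
  have htot : ∑ m₁ ∈ Ioc Q (2 * Q), ∑ m₂ ∈ Ioc Q (2 * Q),
      psi (nm ((m₂ : Gi) * w₁ - (m₁ : Gi) * w₂) / (D ^ 2 * X)) ≤
      Q * (16 * (4 * D / Real.sqrt s + 1)) := by
    have hc : ((Ioc Q (2 * Q)).card : ℝ) = Q := by
      rw [Nat.card_Ioc]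
      have : 2 * Q - Q = Q := by omega
      rw [this]
    calc _ ≤ ∑ _m₁ ∈ Ioc Q (2 * Q), (16 * (4 * D / Real.sqrt s + 1)) := Finset.sum_le_sum hsum
      _ = _ := by rw [Finset.sum_const, nsmul_eq_mul, hc]
  have htot0 : 0 ≤ ∑ m₁ ∈ Ioc Q (2 * Q), ∑ m₂ ∈ Ioc Q (2 * Q),
      psi (nm ((m₂ : Gi) * w₁ - (m₁ : Gi) * w₂) / (D ^ 2 * X)) :=
    Finset.sum_nonneg fun _ _ => Finset.sum_nonneg fun _ _ => psi_nonneg _
  have e9 : |kk Q X w₁ w₂| = 1 / (4 * D) * (∑ m₁ ∈ Ioc Q (2 * Q), ∑ m₂ ∈ Ioc Q (2 * Q),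
      psi (nm ((m₂ : Gi) * w₁ - (m₁ : Gi) * w₂) / (D ^ 2 * X))) := by
    unfold kk
    rw [← hDdef]
    exact abs_of_nonneg (mul_nonneg (by positivity) htot0)
  rw [e9]
  calc 1 / (4 * D) * (∑ m₁ ∈ Ioc Q (2 * Q), ∑ m₂ ∈ Ioc Q (2 * Q),
      psi (nm ((m₂ : Gi) * w₁ - (m₁ : Gi) * w₂) / (D ^ 2 * X))) ≤
      1 / (4 * D) * (Q * (16 * (4 * D / Real.sqrt s + 1))) :=
        mul_le_mul_of_nonneg_left htot (by positivity)
    _ = 4 * (4 / Real.sqrt s + 1 / D) * Q := by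
        field_simp
        ring
    _ ≤ 4 * (4 / Real.sqrt s + 1) * Q := by
        have : 1 / D ≤ 1 := by
          rw [div_le_one hD0']
          exact hD1
        gcongr

end

/-- the constants -/
structure Csth (K : ℕ) (κ s₁ s₂ C : ℝ) : Prop where
  cst : Cst K κ s₁ s₂ C
  kb : ∀ (Q : ℕ) (X : ℝ), 1 ≤ Q → 2 * (K * Q : ℝ) ≤ X → ∀ e ∈ good K κ Q X,
    ∀ w₁ ∈ cw X s₁ s₂ e.1 e.2, ∀ w₂ ∈ cw X s₁ s₂ e.1 e.2, 0 < dt w₁ w₂ →
    |kk Q X w₁ w₂| ≤ C * Q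

theorem Cst.mono {K : ℕ} {κ s₁ s₂ C C' : ℝ} (h : Cst K κ s₁ s₂ C) (hC : C ≤ C') :
    Cst K κ s₁ s₂ C' := by
  have h1 := h.one
  refine ⟨h1.trans hC, ?_, ?_, ?_, ?_, ?_, ?_⟩
  · intro Q X hQ hX
    refine (h.gcard Q X hQ hX).trans (mul_le_mul_of_nonneg_right hC ?_)
    have : (0 : ℝ) ≤ 2 * (K * Q : ℝ) := by positivity
    have : 0 ≤ X := this.trans hX
    positivity
  · intro Q X hQ hX e he
    exact (h.vcard Q X hQ hX e he).trans (mul_le_mul_of_nonneg_right hC (by positivity))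
  · intro Q X hQ hX e he w hw z hz
    exact (h.dtle Q X hQ hX e he w hw z hz).trans (mul_le_mul_of_nonneg_right hC (by positivity))
  · intro Q X hQ hX e he w hw m
    exact (h.line Q X hQ hX e he w hw m).trans hC
  · intro Q X hQ hX e he w hw z hz hd
    exact (h.jb Q X hQ hX e he w hw z hz hd).trans (mul_le_mul_of_nonneg_right hC (by positivity))
  · intro Q X hQ hX e he m hm
    refine (h.near Q X hQ hX e he m hm).trans ?_
    exact mul_le_mul_of_nonneg_right (mul_le_mul_of_nonneg_right hC (Real.sqrt_nonneg _)) hm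

theorem exists_csth {K : ℕ} {κ s₁ s₂ : ℝ} (hK : 1 ≤ K)
    (hκ : 0 < κ) (hs₁ : 0 < s₁) (hs₂ : s₂ ≤ 1) : ∃ C : ℝ, Csth K κ s₁ s₂ C := by
  obtain ⟨C, hC⟩ := exists_cst (s₂ := s₂) Pool.Agent.W683.EC.jb Pool.Agent.W395.EC.ln
    Pool.Agent.W395.EC.dtb hK hκ hs₁ hs₂
  obtain ⟨C', hC'⟩ := kkb s₁ hs₁
  refine ⟨max C C', Cst.mono hC (le_max_left _ _), ?_⟩
  intro Q X hQ hX e he w hw z hz hd
  obtain ⟨c1, c2, c3⟩ := mem_cw.1 hw
  obtain ⟨d1, d2, d3⟩ := mem_cw.1 hz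
  have hK' : (1 : ℝ) ≤ K := by exact_mod_cast hK
  have hQ' : (1 : ℝ) ≤ Q := by exact_mod_cast hQ
  have hX1 : 1 ≤ X := by nlinarith
  refine (hC' Q X w z hQ hX1 c2 (mem_cone.1 c1).1.2 d2 (mem_cone.1 d1).1.2 hd).trans ?_
  exact mul_le_mul_of_nonneg_right (le_max_right _ _) (by positivity)

/-- periodic families of classes -/
structure Famh (M : ℕ) (S : Gi → Gi → Prop) : Prop where
  M1 : 1 ≤ M
  per1 : ∀ w, Per M (fun z => S z w)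
  per : ∀ z w w' : Gi, (M : ℤ) ∣ w.re - w'.re → (M : ℤ) ∣ w.im - w'.im → (S z w ↔ S z w')

lemma RR_spech {M : ℕ} {S : Gi → Gi → Prop} (hF : Famh M S) (w : Gi) :
    ∃ r ∈ RR M, ∀ z, (S z w ↔ S z r) := by
  have hM : (0 : ℤ) < M := by exact_mod_cast hF.M1
  have key : ∀ x : ℤ, ∃ k ∈ range M, (M : ℤ) ∣ x - (k : ℤ) := by
    intro x
    refine ⟨(x % M).toNat, ?_, ?_⟩
    · rw [mem_range]
      have h1 := Int.emod_lt_of_pos x hM
      have h2 := Int.emod_nonneg x hM.ne'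
      omega
    · rw [Int.toNat_of_nonneg (Int.emod_nonneg x hM.ne')]
      exact Int.dvd_self_sub_emod
  obtain ⟨k, hk, hk2⟩ := key w.re
  obtain ⟨l, hl, hl2⟩ := key w.im
  refine ⟨⟨(k : ℤ), (l : ℤ)⟩, ?_, fun z => hF.per z w _ hk2 hl2⟩
  unfold RR
  rw [mem_image]
  exact ⟨(k, l), mem_product.2 ⟨hk, hl⟩, rfl⟩

/-- a level -/
structure Levh (K : ℕ) (κ s₁ s₂ C δ α η : ℝ) (Q : ℕ) (X : ℝ) (I n : ℕ) : Prop where
  hK : 1 ≤ K
  hs₁ : 0 < s₁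
  h12 : s₁ < s₂
  hs₂ : s₂ ≤ 1
  hCh : Csth K κ s₁ s₂ C
  hδ : 0 < δ
  hη : 0 ≤ η
  hα : 0 < α
  hαδ : α < δ
  hQ : 1 ≤ Q
  hX : 2 * (K * Q : ℝ) ≤ X
  hX1 : 1 ≤ X
  hI : 1 ≤ I
  hn : 1 ≤ n
  hna : 2 * Real.pi / n ≤ α * Q / X
  hkk : ∀ e ∈ good K κ Q X, ∀ z ∈ cw X s₁ s₂ e.1 e.2, ∀ z' ∈ cw X s₁ s₂ e.1 e.2,
    ∀ w ∈ cw X s₁ s₂ e.1 e.2, δ * Q ≤ (dt z w : ℝ) → δ * Q ≤ (dt z' w : ℝ) →
    idx s₁ s₂ X I n z = idx s₁ s₂ X I n z' → |kk Q X z w - kk Q X z' w| ≤ η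

theorem Levh.hC {K : ℕ} {κ s₁ s₂ C δ α η : ℝ} {Q : ℕ} {X : ℝ} {I n : ℕ}
    (L : Levh K κ s₁ s₂ C δ α η Q X I n) : Cst K κ s₁ s₂ C := L.hCh.cst

open scoped Classical in
/-- the consequence of the Matomaki-Radziwill theorem -/
lemma mrs_allh {aa : Gi → ℝ} (h1 : Mrs aa) {M : ℕ} {S : Gi → Gi → Prop} (hF : Famh M S) {s₁ s₂ : ℝ} (hs₁ : 0 < s₁)
    (h12 : s₁ < s₂) (hs₂ : s₂ ≤ 1) {I : ℕ} (hI : 1 ≤ I) {ε : ℝ} (hε : 0 < ε) :
    ∃ H : ℝ, 1 ≤ H ∧ ∃ X₀ : ℝ, ∀ X : ℝ, X₀ ≤ X → ∀ n : ℕ, 1 ≤ n → n * H ≤ X →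
      ∑ p ∈ range I ×ˢ range (n + 1), ∑ r ∈ RR M,
        absS (An s₁ s₂ X) (idx s₁ s₂ X I n) p (fun z => S z r) aa ≤
        (range I ×ˢ RR M).card * (ε * X) := by
  have hI' : (0 : ℝ) < I := by exact_mod_cast hI
  have key : ∀ k ∈ range I ×ˢ RR M, ∃ H : ℝ, 1 ≤ H ∧ ∃ X₀ : ℝ, ∀ X : ℝ, X₀ ≤ X → ∀ n : ℕ,
      1 ≤ n → n * H ≤ X → ∑ j ∈ range (n + 1),
        absS (An s₁ s₂ X) (idx s₁ s₂ X I n) (k.1, j) (fun z => S z k.2) aa ≤
        ε * X := by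
    rintro ⟨i, r⟩ hk
    rw [mem_product, mem_range] at hk
    have hi : i < I := hk.1
    set a : ℝ := aI s₁ s₂ I i with ha
    set b : ℝ := aI s₁ s₂ I (i + 1) with hb
    have hab : a < b := by
      rw [ha, hb]; unfold aI
      push_cast
      have : 0 < (s₂ - s₁) / I := div_pos (by linarith) hI'
      have e : ((i : ℝ) + 1) * (s₂ - s₁) / I = i * (s₂ - s₁) / I + (s₂ - s₁) / I := by ring
      rw [e]; linarith
    have ha0 : s₁ ≤ a := by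
      rw [ha]; unfold aI
      have : 0 ≤ (i : ℝ) * (s₂ - s₁) / I := div_nonneg (mul_nonneg (by positivity) (by linarith)) hI'.le
      linarith
    have hb1 : b ≤ s₂ := by
      rw [hb]; unfold aI
      push_cast
      have : ((i : ℝ) + 1) * (s₂ - s₁) / I ≤ s₂ - s₁ := by
        rw [div_le_iff₀ hI']
        have h3 : ((i : ℝ) + 1) ≤ I := by exact_mod_cast hi
        nlinarith
      linarith
    have hb0 : 0 < b := by linarith
    obtain ⟨H, hH, X₀, h2⟩ := h1 M (fun z => S z r) hF.M1 (hF.per1 r) (a / b)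
      (div_pos (by linarith) hb0) ((div_lt_one hb0).2 hab) ε hε
    refine ⟨H / b, ?_, max (X₀ / b) 1, fun X hX n hn hnX => ?_⟩
    · rw [le_div_iff₀ hb0]; linarith
    have hX1 : 1 ≤ X := (le_max_right _ _).trans hX
    have hX2 : X₀ ≤ b * X := by
      have := (le_max_left (X₀ / b) 1).trans hX
      rw [div_le_iff₀ hb0] at this
      linarith
    have hX3 : n * H ≤ b * X := by
      rw [← mul_div_assoc, div_le_iff₀ hb0] at hnX
      linarith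
    have h3 := h2 (b * X) hX2 n hn hX3
    have h4 : ∀ j : ℕ, (cel (An s₁ s₂ X) (idx s₁ s₂ X I n) (i, j)).filter (fun z => S z r) =
        (pball 0 1 (b * X)).filter (fun z => a / b * (b * X) < (nm z : ℝ) ∧ S z r ∧
          aix n z = (j : ℤ)) := by
      intro j
      ext z
      have e0 : a / b * (b * X) = a * X := by field_simp
      rw [mem_filter, mem_cel, mem_filter, mem_An, mem_pball hD01, e0]
      constructor
      · rintro ⟨⟨⟨⟨p1, p2⟩, p3, p4⟩, p5⟩, p6⟩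
        unfold idx at p5
        simp only [Prod.mk.injEq] at p5
        have q1 := (shell_iff hI (by linarith) h12 p3 i).1 p5.1
        refine ⟨⟨p1, q1.2⟩, q1.1, p6, ?_⟩
        obtain ⟨j', -, hj'⟩ := aix_range (n := n) z
        have := p5.2
        rw [hj'] at this ⊢
        simpa using this
      · rintro ⟨⟨p1, p2⟩, p3, p4, p5⟩
        have q1 : s₁ * X < (nm z : ℝ) := by
          refine lt_of_le_of_lt ?_ p3
          exact mul_le_mul_of_nonneg_right ha0 (by linarith)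
        have q2 : (nm z : ℝ) ≤ s₂ * X :=
          p2.trans (mul_le_mul_of_nonneg_right hb1 (by linarith))
        have q3 : (nm z : ℝ) ≤ X := q2.trans (by nlinarith)
        refine ⟨⟨⟨⟨p1, q3⟩, q1, q2⟩, ?_⟩, p4⟩
        unfold idx
        simp only [Prod.mk.injEq]
        refine ⟨(shell_iff hI (by linarith) h12 q1 i).2 ⟨p3, p2⟩, ?_⟩
        rw [p5]; simp
    have h5 : ∑ j ∈ range (n + 1),
        absS (An s₁ s₂ X) (idx s₁ s₂ X I n) (i, j) (fun z => S z r) aa ≤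
        ε * (b * X) := by
      refine le_trans (le_of_eq ?_) h3
      refine sum_congr rfl fun j _ => ?_
      unfold absS
      rw [h4 j]
    refine h5.trans ?_
    have : b * X ≤ X := by nlinarith
    exact mul_le_mul_of_nonneg_left this hε.le
  obtain ⟨H, hH, X₀, h2⟩ := fin_comb (range I ×ˢ RR M) _ key
  refine ⟨H, hH, X₀, fun X hX n hn hnX => ?_⟩
  refine le_trans (le_of_eq ?_) (h2 X hX n hn hnX)
  rw [sum_product, sum_product]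
  refine sum_congr rfl fun i _ => ?_
  rw [sum_comm]

open scoped Classical in
lemma one_cellh {aa : Gi → ℝ} (ha : ∀ z, |aa z| ≤ 1) {K : ℕ} {κ s₁ s₂ C δ α η : ℝ} {Q : ℕ} {X : ℝ} {I n : ℕ}
    (L : Levh K κ s₁ s₂ C δ α η Q X I n) {M : ℕ} {S : Gi → Gi → Prop} (hF : Famh M S)
    {e : Gi × Gi} (he : e ∈ good K κ Q X) {w : Gi} (hw : w ∈ cw X s₁ s₂ e.1 e.2) (p : ℕ × ℕ) :
    |∑ z ∈ cel (cw X s₁ s₂ e.1 e.2) (idx s₁ s₂ X I n) p,
      (if δ * Q ≤ (dt z w : ℝ) ∧ S z w then aa z * kk Q X z w else 0)| ≤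
      (C * Q) * absS (cw X s₁ s₂ e.1 e.2) (idx s₁ s₂ X I n) p (fun z => S z w)
        aa +
      ∑ z ∈ cel (cw X s₁ s₂ e.1 e.2) (idx s₁ s₂ X I n) p, (η +
        if 0 < (dt z w : ℝ) ∧ (dt z w : ℝ) < δ * Q then C * Q else 0) := by
  have hQ' : (1 : ℝ) ≤ Q := by exact_mod_cast L.hQ
  have hC1 := L.hC.one
  have hδ := L.hδ
  have hX0 : 0 < X := by linarith [L.hX1]
  apply cellA (cw X s₁ s₂ e.1 e.2) (idx s₁ s₂ X I n) p (fun z => S z w)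
        (fun z => (dt z w : ℝ)) (fun z => kk Q X z w) aa L.hη (by positivity)
        (fun z => ha z) (by positivity)
  · intro z hz hS hd
    rw [mem_cel] at hz
    exact L.hCh.kb Q X L.hQ L.hX e he z hz.1 w hw (by exact_mod_cast hd)
  · intro z hz z' hz' hS hS' hd hd'
    rw [mem_cel] at hz hz'
    exact L.hkk e he z hz.1 z' hz'.1 w hw hd hd' (hz.2.trans hz'.2.symm)
  · intro z hz z' hz' hd
    rw [mem_cel] at hz hz'
    have c1 := (mem_cone.1 (mem_cw.1 hz.1).1).1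
    have d1 := (mem_cone.1 (mem_cw.1 hz'.1).1).1
    have f1 := (mem_cone.1 (mem_cw.1 hw).1).1
    have hid := idx_aix (hz.2.trans hz'.2.symm)
    have := close_pos (w := w) (z := z) (z' := z') (prim_ne_zero f1.1)
          (prim_ne_zero c1.1) (prim_ne_zero d1.1) (X := X) (α := α) (δ := δ) (q := (Q : ℝ)) hX0
          (by linarith) L.hαδ hδ hd c1.2 f1.2 ((aix_close L.hn hid).trans L.hna)
    exact_mod_cast this

/-- the sum over the full cells -/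
noncomputable def FFh (aa : Gi → ℝ) (s₁ s₂ X : ℝ) (I n : ℕ) (S : Gi → Gi → Prop) (e : Gi × Gi) (w : Gi) : ℝ :=
  FFa (An s₁ s₂ X) (cw X s₁ s₂ e.1 e.2) (idx s₁ s₂ X I n) (range I ×ˢ range (n + 1))
    (fun z => S z w) aa

open scoped Classical in
lemma one_pairh {aa : Gi → ℝ} (ha : ∀ z, |aa z| ≤ 1) {K : ℕ} {κ s₁ s₂ C δ α η : ℝ} {Q : ℕ} {X : ℝ} {I n : ℕ}
    (L : Levh K κ s₁ s₂ C δ α η Q X I n) {M : ℕ} {S : Gi → Gi → Prop} (hF : Famh M S)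
    {e : Gi × Gi} (he : e ∈ good K κ Q X) {w : Gi} (hw : w ∈ cw X s₁ s₂ e.1 e.2) :
    |∑ z ∈ cw X s₁ s₂ e.1 e.2,
      (if δ * Q ≤ (dt z w : ℝ) ∧ S z w then aa z * aa w * kk Q X z w else 0)| ≤
      (C * Q) * (C * Real.sqrt Q * (α * Real.sqrt Q)) + (C * Q) * FFh aa s₁ s₂ X I n S e w +
      (η * (C * Q) + C * (δ * Q) * (C * Q)) := by
  have hQ' : (1 : ℝ) ≤ Q := by exact_mod_cast L.hQ
  have hC1 := L.hC.one
  have hδ := L.hδ
  have hα := L.hα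
  have hX0 : 0 < X := by linarith [L.hX1]
  have hCQ : 0 ≤ C * Q := by positivity
  have hmaps : ∀ z ∈ cw X s₁ s₂ e.1 e.2, idx s₁ s₂ X I n z ∈ range I ×ˢ range (n + 1) :=
    fun z hz => idx_mem L.hI hX0 L.h12 (cw_An _ _ hz)
  have e1 : ∑ z ∈ cw X s₁ s₂ e.1 e.2,
      (if δ * Q ≤ (dt z w : ℝ) ∧ S z w then aa z * aa w * kk Q X z w else 0) =
      aa w * ∑ p ∈ range I ×ˢ range (n + 1),
        ∑ z ∈ cel (cw X s₁ s₂ e.1 e.2) (idx s₁ s₂ X I n) p,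
      (if δ * Q ≤ (dt z w : ℝ) ∧ S z w then aa z * kk Q X z w else 0) := by
    rw [sum_cel hmaps, mul_sum]
    refine sum_congr rfl fun z _ => ?_
    rw [mul_ite, mul_zero]
    congr 1
    ring
  rw [e1, abs_mul]
  refine (mul_le_of_le_one_left (abs_nonneg _) (ha w)).trans ?_
  have hsum1 : ∑ p ∈ range I ×ˢ range (n + 1),
      ∑ z ∈ cel (cw X s₁ s₂ e.1 e.2) (idx s₁ s₂ X I n) p, (η +
        if 0 < (dt z w : ℝ) ∧ (dt z w : ℝ) < δ * Q then C * Q else 0) ≤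
        η * (C * Q) + C * (δ * Q) * (C * Q) := by
    rw [sum_cel hmaps, sum_add_distrib, sum_const, nsmul_eq_mul]
    refine add_le_add ?_ ?_
    · rw [mul_comm]
      exact mul_le_mul_of_nonneg_left (L.hC.vcard Q X L.hQ L.hX e he) L.hη
    · exact small_card L.hC L.hQ L.hX he hw (by positivity) (by positivity)
  have hB := cellB (An s₁ s₂ X) (cw X s₁ s₂ e.1 e.2) (cw_An _ _) (idx s₁ s₂ X I n)
      (range I ×ˢ range (n + 1)) (fun z hz => idx_mem L.hI hX0 L.h12 hz) (fun z => S z w)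
      (fun w => (dt e.1 w : ℝ) ≤ α * Real.sqrt Q ∨ (dt w e.2 : ℝ) ≤ α * Real.sqrt Q)
      aa (fun z => ha z)
      (near_mem L.hK L.hQ L.hX1 he hα.le L.hn L.hna)
  have hnc0 := L.hC.near Q X L.hQ L.hX e he (α * Real.sqrt Q) (by positivity)
  have hnc : nc (cw X s₁ s₂ e.1 e.2)
      (fun w => (dt e.1 w : ℝ) ≤ α * Real.sqrt Q ∨ (dt w e.2 : ℝ) ≤ α * Real.sqrt Q) ≤
      C * Real.sqrt Q * (α * Real.sqrt Q) := by
    refine le_trans (le_of_eq ?_) hnc0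
    unfold nc
    congr!
  have hsc : |∑ p ∈ range I ×ˢ range (n + 1),
        ∑ z ∈ cel (cw X s₁ s₂ e.1 e.2) (idx s₁ s₂ X I n) p,
      (if δ * Q ≤ (dt z w : ℝ) ∧ S z w then aa z * kk Q X z w else 0)| ≤
      (C * Q) * ∑ p ∈ range I ×ˢ range (n + 1),
        absS (cw X s₁ s₂ e.1 e.2) (idx s₁ s₂ X I n) p (fun z => S z w) aa +
      ∑ p ∈ range I ×ˢ range (n + 1),
      ∑ z ∈ cel (cw X s₁ s₂ e.1 e.2) (idx s₁ s₂ X I n) p, (η +
        if 0 < (dt z w : ℝ) ∧ (dt z w : ℝ) < δ * Q then C * Q else 0) := by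
    refine (abs_sum_le_sum_abs _ _).trans ?_
    rw [mul_sum, ← sum_add_distrib]
    exact sum_le_sum fun p _ => one_cellh ha L hF he hw p
  have k1 := mul_le_mul_of_nonneg_left hB hCQ
  have k2 := mul_le_mul_of_nonneg_left hnc hCQ
  rw [mul_add] at k1
  unfold FFh
  linarith

open scoped Classical in
lemma all_pairsh {aa : Gi → ℝ} (ha : ∀ z, |aa z| ≤ 1) {K : ℕ} {κ s₁ s₂ C δ α η : ℝ} {Q : ℕ} {X : ℝ} {I n : ℕ}
    (L : Levh K κ s₁ s₂ C δ α η Q X I n) {M : ℕ} {S : Gi → Gi → Prop} (hF : Famh M S) {T : ℝ}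
    (hmrs : ∑ p ∈ range I ×ˢ range (n + 1), ∑ r ∈ RR M,
        absS (An s₁ s₂ X) (idx s₁ s₂ X I n) p (fun z => S z r) aa ≤ T) :
    |∑ e ∈ good K κ Q X, ∑ w ∈ cw X s₁ s₂ e.1 e.2, ∑ z ∈ cw X s₁ s₂ e.1 e.2,
      (if δ * Q ≤ (dt z w : ℝ) ∧ S z w then aa z * aa w * kk Q X z w else 0)| ≤
      (C * (X / Q)) * ((C * Q) * ((C * Q) * (C * Real.sqrt Q * (α * Real.sqrt Q)) +
      (η * (C * Q) + C * (δ * Q) * (C * Q)))) + (C * Q) * ((C * Q) * T) := by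
  have hQ' : (1 : ℝ) ≤ Q := by exact_mod_cast L.hQ
  have hC1 := L.hC.one
  have hδ := L.hδ
  have hα := L.hα
  have hη := L.hη
  have hX0 : 0 < X := by linarith [L.hX1]
  have hCQ : 0 ≤ C * Q := by positivity
  have hCsum := cellC (An s₁ s₂ X) (good K κ Q X) (fun e => cw X s₁ s₂ e.1 e.2)
    (idx s₁ s₂ X I n) (range I ×ˢ range (n + 1)) (RR M) S aa (B := C * Q)
    (fun e he => L.hC.vcard Q X L.hQ L.hX e he) hCQ (RR_spech hF) (by
      intro e he f hf z hze hzf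
      have h6 := mem_cone.1 (mem_cw.1 hze).1
      have h7 := mem_cone.1 (mem_cw.1 hzf).1
      exact edge_unique (mem_good.1 he).1 (mem_good.1 hf).1 h6.2.1 h6.2.2 h7.2.1 h7.2.2)
  have hFs : ∑ e ∈ good K κ Q X, ∑ w ∈ cw X s₁ s₂ e.1 e.2, FFh aa s₁ s₂ X I n S e w ≤ (C * Q) * T :=
    hCsum.trans (mul_le_mul_of_nonneg_left hmrs hCQ)
  obtain ⟨A, hA⟩ : ∃ A : ℝ, A = (C * Q) * (C * Real.sqrt Q * (α * Real.sqrt Q)) +
      (η * (C * Q) + C * (δ * Q) * (C * Q)) := ⟨_, rfl⟩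
  have hA0 : 0 ≤ A := by rw [hA]; positivity
  rw [← hA]
  have hconst : ∑ e ∈ good K κ Q X, ∑ _w ∈ cw X s₁ s₂ e.1 e.2, A ≤
      (C * (X / Q)) * ((C * Q) * A) := by
    calc ∑ e ∈ good K κ Q X, ∑ _w ∈ cw X s₁ s₂ e.1 e.2, A ≤
          ∑ _e ∈ good K κ Q X, (C * Q) * A := by
          refine sum_le_sum fun e he => ?_
          rw [sum_const, nsmul_eq_mul]
          exact mul_le_mul_of_nonneg_right (L.hC.vcard Q X L.hQ L.hX e he) hA0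
      _ = ((good K κ Q X).card : ℝ) * ((C * Q) * A) := by rw [sum_const, nsmul_eq_mul]
      _ ≤ _ := mul_le_mul_of_nonneg_right (L.hC.gcard Q X L.hQ L.hX) (by positivity)
  have h1 : |∑ e ∈ good K κ Q X, ∑ w ∈ cw X s₁ s₂ e.1 e.2, ∑ z ∈ cw X s₁ s₂ e.1 e.2,
      (if δ * Q ≤ (dt z w : ℝ) ∧ S z w then aa z * aa w * kk Q X z w else 0)| ≤
      ∑ e ∈ good K κ Q X, ∑ w ∈ cw X s₁ s₂ e.1 e.2, (A + (C * Q) * FFh aa s₁ s₂ X I n S e w) := by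
    refine (abs_sum_le_sum_abs _ _).trans (sum_le_sum fun e he => ?_)
    refine (abs_sum_le_sum_abs _ _).trans (sum_le_sum fun w hw => ?_)
    have := one_pairh ha L hF he hw
    linarith
  refine h1.trans ?_
  have h2 : ∑ e ∈ good K κ Q X, ∑ w ∈ cw X s₁ s₂ e.1 e.2,
      (A + (C * Q) * FFh aa s₁ s₂ X I n S e w) =
      (∑ e ∈ good K κ Q X, ∑ _w ∈ cw X s₁ s₂ e.1 e.2, A) +
      (C * Q) * ∑ e ∈ good K κ Q X, ∑ w ∈ cw X s₁ s₂ e.1 e.2, FFh aa s₁ s₂ X I n S e w := by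
    rw [mul_sum, ← sum_add_distrib]
    refine sum_congr rfl fun e _ => ?_
    rw [mul_sum, ← sum_add_distrib]
  rw [h2]
  exact add_le_add hconst (mul_le_mul_of_nonneg_left hFs hCQ)

open scoped Classical in
theorem coreh {aa : Gi → ℝ} (ha : ∀ z, |aa z| ≤ 1) (h1 : Mrs aa) (h3 : S_JV) {K : ℕ} {κ s₁ s₂ C : ℝ} (hK : 1 ≤ K) (hs₁ : 0 < s₁)
    (h12 : s₁ < s₂) (hs₂ : s₂ ≤ 1) (hCh : Csth K κ s₁ s₂ C) {M : ℕ} {S : Gi → Gi → Prop}
    (hF : Famh M S) {δ ε : ℝ} (hδ : 0 < δ) (hε : 0 < ε) :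
    ∃ Q₀ : ℕ, ∀ Q : ℕ, Q₀ ≤ Q → ∃ X₀ : ℝ, ∀ X : ℝ, X₀ ≤ X →
      |∑ e ∈ good K κ Q X, ∑ w ∈ cw X s₁ s₂ e.1 e.2, ∑ z ∈ cw X s₁ s₂ e.1 e.2,
        (if δ * Q ≤ (dt z w : ℝ) ∧ S z w then aa z * aa w * kk Q X z w else 0)| ≤
      (C ^ 4 * δ + ε) * X * (Q : ℝ) ^ 2 := by
  have hC := hCh.cst
  have hC1 := hC.one
  have hC0 : 0 < C := by linarith
  have hK' : (1 : ℝ) ≤ K := by exact_mod_cast hK
  have hpi := Real.pi_pos
  obtain ⟨εJ, hεJ0, hεJ⟩ : ∃ εJ : ℝ, 0 < εJ ∧ C ^ 3 * εJ = ε / 3 :=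
    ⟨ε / (3 * C ^ 3), by positivity, by field_simp⟩
  obtain ⟨ε₁, hε₁, hJV⟩ := h3 C s₁ δ εJ hC0 hs₁ hδ hεJ0
  obtain ⟨α, hα0, hα1, hα2, hα3⟩ : ∃ α : ℝ, 0 < α ∧ α ≤ ε₁ ∧ α ≤ δ / 2 ∧ C ^ 4 * α ≤ ε / 3 := by
    refine ⟨min (min ε₁ (δ / 2)) (ε / (3 * C ^ 4)), by positivity,
      (min_le_left _ _).trans (min_le_left _ _), (min_le_left _ _).trans (min_le_right _ _), ?_⟩
    calc C ^ 4 * min (min ε₁ (δ / 2)) (ε / (3 * C ^ 4)) ≤ C ^ 4 * (ε / (3 * C ^ 4)) := by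
          gcongr
          exact min_le_right _ _
      _ = ε / 3 := by field_simp
  obtain ⟨I, hI1, hIε⟩ : ∃ I : ℕ, 1 ≤ I ∧ (s₂ - s₁) / I ≤ ε₁ := by
    refine ⟨⌈1 / ε₁⌉₊ + 1, by omega, ?_⟩
    have hI0 : (0 : ℝ) < ((⌈1 / ε₁⌉₊ + 1 : ℕ) : ℝ) := by positivity
    rw [div_le_iff₀ hI0]
    have h : 1 / ε₁ ≤ ((⌈1 / ε₁⌉₊ + 1 : ℕ) : ℝ) := by
      push_cast
      linarith [Nat.le_ceil (1 / ε₁)]
    rw [div_le_iff₀ hε₁] at h
    linarith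
  set N : ℝ := ((range I ×ˢ RR M).card : ℝ) with hN
  have hN0 : 0 ≤ N := by positivity
  obtain ⟨εM, hεM0, hεM⟩ : ∃ εM : ℝ, 0 < εM ∧ C ^ 2 * N * εM ≤ ε / 3 := by
    refine ⟨ε / (3 * C ^ 2 * (N + 1)), by positivity, ?_⟩
    rw [mul_div_assoc', div_le_div_iff₀ (by positivity) (by norm_num)]
    nlinarith [mul_pos hε (by positivity : 0 < C ^ 2)]
  obtain ⟨H, hH, X₁, hMRS⟩ := mrs_allh h1 hF hs₁ h12 hs₂ hI1 hεM0
  refine ⟨⌈4 * Real.pi * H / α⌉₊ + 1, fun Q hQ0 => ?_⟩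
  have hQ : 1 ≤ Q := by omega
  have hQ' : (1 : ℝ) ≤ Q := by exact_mod_cast hQ
  have hQH : 4 * Real.pi * H / α ≤ Q := by
    refine (Nat.le_ceil _).trans ?_
    exact_mod_cast (by omega : ⌈4 * Real.pi * H / α⌉₊ ≤ Q)
  refine ⟨max (max X₁ (2 * H)) (max (2 * (K * Q : ℝ)) (Q / ε₁)), fun X hX => ?_⟩
  have hX1 : X₁ ≤ X := ((le_max_left _ _).trans (le_max_left _ _)).trans hX
  have hX2 : 2 * H ≤ X := ((le_max_right _ _).trans (le_max_left _ _)).trans hX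
  have hX3 : 2 * (K * Q : ℝ) ≤ X := ((le_max_left _ _).trans (le_max_right _ _)).trans hX
  have hX4 : (Q : ℝ) / ε₁ ≤ X := ((le_max_right _ _).trans (le_max_right _ _)).trans hX
  have hXQ : (Q : ℝ) ≤ ε₁ * X := by
    rw [div_le_iff₀ hε₁] at hX4
    linarith
  have hXone : 1 ≤ X := by nlinarith
  have hX0 : 0 < X := by linarith
  obtain ⟨n, hn1, hna, hnH⟩ : ∃ n : ℕ, 1 ≤ n ∧ 2 * Real.pi / n ≤ α * Q / X ∧ n * H ≤ X := by
    have hn0 : 0 < 2 * Real.pi * X / (α * Q) := by positivity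
    have hn1 : 1 ≤ ⌈2 * Real.pi * X / (α * Q)⌉₊ := Nat.ceil_pos.2 hn0
    have hn' : (0 : ℝ) < ⌈2 * Real.pi * X / (α * Q)⌉₊ := by exact_mod_cast hn1
    refine ⟨⌈2 * Real.pi * X / (α * Q)⌉₊, hn1, ?_, ?_⟩
    · rw [div_le_div_iff₀ hn' hX0]
      have h := Nat.le_ceil (2 * Real.pi * X / (α * Q))
      rw [div_le_iff₀ (by positivity)] at h
      linarith
    · have h : (⌈2 * Real.pi * X / (α * Q)⌉₊ : ℝ) < 2 * Real.pi * X / (α * Q) + 1 :=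
        Nat.ceil_lt_add_one hn0.le
      have h2 : 2 * Real.pi * X / (α * Q) * H ≤ X / 2 := by
        rw [div_le_iff₀ hα0] at hQH
        have e : 2 * Real.pi * X / (α * Q) * H = (4 * Real.pi * H) * X / (2 * (α * Q)) := by
          rw [div_mul_eq_mul_div, div_eq_div_iff (by positivity) (by positivity)]
          ring
        rw [e, div_le_div_iff₀ (by positivity) (by norm_num)]
        have h3 := mul_le_mul_of_nonneg_right hQH hX0.le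
        linarith
      have h4 : (⌈2 * Real.pi * X / (α * Q)⌉₊ : ℝ) * H ≤
          (2 * Real.pi * X / (α * Q) + 1) * H := mul_le_mul_of_nonneg_right h.le (by linarith)
      linarith
  have hmrs := hMRS X hX1 n hn1 hnH
  have L : Levh K κ s₁ s₂ C δ α (εJ * Q) Q X I n := by
    refine ⟨hK, hs₁, h12, hs₂, hCh, hδ, by positivity, hα0, by linarith, hQ, hX3, hXone, hI1, hn1,
      hna, ?_⟩
    intro e he z hz z' hz' w hw hd hd' hid
    have he1 := (mem_good.1 he).1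
    obtain ⟨c1, c2, c3⟩ := mem_cw.1 hz
    obtain ⟨d1, d2, d3⟩ := mem_cw.1 hz'
    obtain ⟨f1, f2, f3⟩ := mem_cw.1 hw
    have g1 := idx_shell hI1 hX0 h12 c2 d2 hid
    have g2 := (aix_close hn1 (idx_aix hid)).trans hna
    have g3 : (s₂ - s₁) / I * X ≤ ε₁ * X := mul_le_mul_of_nonneg_right hIε hX0.le
    have g4 : α * Q / X ≤ ε₁ * Q / X := by gcongr
    have g5 : 0 ≤ ε₁ * X := by positivity
    have g6 : 0 ≤ ε₁ * Q / X := by positivity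
    refine hJV Q X z w z' w hQ (by linarith) hXQ ?_ hd (hC.dtle Q X hQ hX3 e he z hz w hw) hd'
      (hC.dtle Q X hQ hX3 e he z' hz' w hw) (g1.trans g3) ?_ (ip_cone he1 c1 f1)
      (ip_cone he1 d1 f1) (g2.trans g4) ?_
    · intro v hv
      simp only [Set.mem_insert_iff, Set.mem_singleton_iff] at hv
      rcases hv with hv | hv | hv | hv <;> rw [hv]
      · exact ⟨c2, (mem_cone.1 c1).1.2⟩
      · exact ⟨f2, (mem_cone.1 f1).1.2⟩
      · exact ⟨d2, (mem_cone.1 d1).1.2⟩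
      · exact ⟨f2, (mem_cone.1 f1).1.2⟩
    · rw [sub_self, abs_zero]; exact g5
    · rw [sub_self, abs_zero]; exact g6
  refine (all_pairsh ha L hF hmrs).trans ?_
  have hsq := Real.mul_self_sqrt (by linarith : (0 : ℝ) ≤ Q)
  have hA₁e : C * Q * (C * Real.sqrt Q * (α * Real.sqrt Q)) = C ^ 2 * α * (Q : ℝ) ^ 2 := by
    calc C * Q * (C * Real.sqrt Q * (α * Real.sqrt Q)) =
        C ^ 2 * α * Q * (Real.sqrt Q * Real.sqrt Q) := by ring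
      _ = _ := by rw [hsq]; ring
  rw [hA₁e]
  have t6 : 0 ≤ X * (Q : ℝ) ^ 2 := by positivity
  have t1 : (C * (X / Q)) * ((C * Q) * (C ^ 2 * α * (Q : ℝ) ^ 2 +
      (εJ * Q * (C * Q) + C * (δ * Q) * (C * Q)))) =
      (C ^ 4 * α + C ^ 3 * εJ + C ^ 4 * δ) * (X * (Q : ℝ) ^ 2) := by
    field_simp
    ring
  have t4 : (C * Q) * ((C * Q) * (N * (εM * X))) = (C ^ 2 * N * εM) * (X * (Q : ℝ) ^ 2) := by
    ring
  rw [t1, t4, hεJ]
  have t7 := mul_le_mul_of_nonneg_right hεM t6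
  have t8 := mul_le_mul_of_nonneg_right hα3 t6
  linarith


end Pool.Agent.T2H34.Dh
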