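import Pool.Agent.T2H34.DhGeo

/-!
Decomposition of the region `0 ≤ ip x y < nm y ≤ X` into cells.
-/

set_option autoImplicit false

namespace Pool.Agent.T2H34.Dh

open Finset Filter
open Pool.Agent.W78.GA (Qd nm prim dt ip lat ball pball edge dedge nm_mul prim_ne_zero nm_eq_zero
  mem_pball)
open Pool.Agent.W78.EC (Gi)
open Pool.Agent.W251.EX
open Pool.Agent.W214.EX (Vs wF norm_Vs)
open Pool.Agent.W714.EC (hD01 nmZ)
open Pool.Agent.W305.EC (prim_of_dt)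

/-- the vector `x + t y` -/
def pv (t : ℕ) (q : Gi × Gi) : Gi := ⟨q.1.re + t * q.2.re, q.1.im + t * q.2.im⟩

lemma pv_dt (t s : ℕ) (q : Gi × Gi) : dt (pv t q) (pv s q) = ((s : ℤ) - t) * dt q.1 q.2 := by
  unfold dt pv
  simp only
  ring

lemma pv_dt2 (t : ℕ) (q : Gi × Gi) : dt (pv t q) q.2 = dt q.1 q.2 := by
  unfold dt pv
  simp only
  ring

lemma pv_nm (t : ℕ) (q : Gi × Gi) : (nm (pv t q) : ℤ) = nm q.1 + 2 * t * ip q.1 q.2 +
    (t : ℤ) ^ 2 * nm q.2 := by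
  rw [nmZ, nmZ, nmZ]
  unfold pv ip
  simp only
  ring

lemma pv_ip (t s : ℕ) (q : Gi × Gi) : ip (pv t q) (pv s q) = nm q.1 + ((s : ℤ) + t) * ip q.1 q.2 +
    (s : ℤ) * t * nm q.2 := by
  rw [nmZ, nmZ]
  unfold pv ip
  simp only
  ring

lemma pv_idn (t h : ℕ) (q : Gi × Gi) :
    (h : ℤ) ^ 2 * nm q.2 = nm (pv t q) + nm (pv (t + h) q) - 2 * ip (pv t q) (pv (t + h) q) ∧
    (h : ℤ) ^ 2 * ip q.1 q.2 = h * (ip (pv t q) (pv (t + h) q) - nm (pv t q)) -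
      t * (nm (pv t q) + nm (pv (t + h) q) - 2 * ip (pv t q) (pv (t + h) q)) := by
  rw [nmZ, nmZ, nmZ]
  unfold pv ip
  simp only
  push_cast
  constructor <;> ring

lemma ip_dt2 (v w : Gi) : (ip v w) ^ 2 + (dt v w) ^ 2 = (nm v : ℤ) * nm w := by
  rw [nmZ, nmZ]
  unfold ip dt
  ring

/-- the region -/
noncomputable def Rg (X : ℕ) : Finset (Gi × Gi) :=
  (dedge 0 1 (X : ℝ)).filter (fun q => 0 ≤ ip q.1 q.2 ∧ ip q.1 q.2 < nm q.2)

/-- facts about the pairs -/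
lemma Rg_facts {q : Gi × Gi} (h1 : dt q.1 q.2 = 1) (h2 : 0 ≤ ip q.1 q.2)
    (h3 : ip q.1 q.2 < nm q.2) : (1 : ℤ) ≤ nm q.2 ∧ (1 : ℤ) ≤ nm q.1 ∧ (nm q.1 : ℤ) ≤ nm q.2 ∧
      (nm q.1 : ℤ) * nm q.2 = (ip q.1 q.2) ^ 2 + 1 := by
  have e := ip_dt2 q.1 q.2
  rw [h1] at e
  have p1 : (1 : ℤ) ≤ nm q.2 := by linarith
  have p2 : (1 : ℤ) ≤ nm q.1 := by
    by_contra hcon
    have : (nm q.1 : ℤ) = 0 := by
      have : (0 : ℤ) ≤ nm q.1 := by positivity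
      omega
    rw [this] at e
    nlinarith [sq_nonneg (ip q.1 q.2)]
  refine ⟨p1, p2, ?_, by linarith⟩
  by_contra hcon
  push Not at hcon
  nlinarith

lemma mem_Rg {X : ℕ} {q : Gi × Gi} : q ∈ Rg X ↔ dt q.1 q.2 = 1 ∧ nm q.2 ≤ X ∧
    0 ≤ ip q.1 q.2 ∧ ip q.1 q.2 < nm q.2 := by
  unfold Rg dedge
  rw [mem_filter, mem_filter, mem_product, mem_pball hD01, mem_pball hD01]
  constructor
  · rintro ⟨⟨⟨-, -, h1⟩, h2⟩, h3, h4⟩
    exact ⟨h2, by exact_mod_cast h1, h3, h4⟩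
  · rintro ⟨h1, h2, h3, h4⟩
    obtain ⟨-, -, f1, -⟩ := Rg_facts h1 h3 h4
    obtain ⟨p1, p2⟩ := prim_of_dt h1
    have f2 : nm q.1 ≤ nm q.2 := by exact_mod_cast f1
    exact ⟨⟨⟨⟨p1, by exact_mod_cast f2.trans h2⟩, p2, by exact_mod_cast h2⟩, h1⟩, h3, h4⟩

/-- side of the cells -/
noncomputable def sd (H J X : ℕ) : ℝ := H * Real.sqrt X / J

/-- index of a vector -/
noncomputable def cix (H J X : ℕ) (z : Gi) : ℕ := ⌈Real.sqrt (nm z) / sd H J X⌉₊ - 1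

lemma cix_iff {H J X : ℕ} (hr : 0 < sd H J X) {z : Gi} (hz : 0 < nm z) (i : ℕ) :
    cix H J X z = i ↔ (i : ℝ) * sd H J X < Real.sqrt (nm z) ∧
      Real.sqrt (nm z) ≤ ((i : ℝ) + 1) * sd H J X := by
  have hz' : (0 : ℝ) < nm z := by exact_mod_cast hz
  have hq : 0 < Real.sqrt (nm z) / sd H J X := div_pos (Real.sqrt_pos.2 hz') hr
  have h1 : 0 < ⌈Real.sqrt (nm z) / sd H J X⌉₊ := Nat.ceil_pos.2 hq
  unfold cix
  have h2 : ⌈Real.sqrt (nm z) / sd H J X⌉₊ - 1 = i ↔ ⌈Real.sqrt (nm z) / sd H J X⌉₊ = i + 1 := by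
    omega
  rw [h2, Nat.ceil_eq_iff (by omega)]
  rw [Nat.add_sub_cancel, lt_div_iff₀ hr, div_le_iff₀ hr]
  push_cast
  rfl

/-- windows in terms of the square roots -/
lemma win_iff {H J X : ℕ} (hJ : 1 ≤ J) (z : Gi) (i : ℕ) :
    (((i : ℝ) / J) ^ 2 * ((H ^ 2 * X : ℕ) : ℝ) < (nm z : ℝ) ∧
      (nm z : ℝ) ≤ (((i : ℝ) + 1) / J) ^ 2 * ((H ^ 2 * X : ℕ) : ℝ)) ↔
    ((i : ℝ) * sd H J X < Real.sqrt (nm z) ∧ Real.sqrt (nm z) ≤ ((i : ℝ) + 1) * sd H J X) := by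
  have hJR : (0 : ℝ) < J := by exact_mod_cast (by omega : 0 < J)
  have e : ∀ u : ℝ, (u / J) ^ 2 * ((H ^ 2 * X : ℕ) : ℝ) = (u * sd H J X) ^ 2 := by
    intro u
    unfold sd
    push_cast
    rw [div_pow, mul_pow u, div_pow, mul_pow (H : ℝ), Real.sq_sqrt (Nat.cast_nonneg X)]
    ring
  have hs : 0 ≤ sd H J X := by unfold sd; positivity
  rw [e, e, Real.lt_sqrt (by positivity), Real.sqrt_le_left (by positivity)]

/-- the good cells -/
def Gd (t h H J : ℕ) : Finset (ℕ × ℕ) := ((range J) ×ˢ (range J)).filter (fun c =>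
  t * (c.2 + 1) + 1 ≤ (t + h) * c.1 ∧ (t + h + 1) * (c.1 + 1) + 1 ≤ (t + 1) * c.2 ∧
  H * (c.2 + 1) + 1 ≤ h * J + H * c.1)

lemma mem_Gd {t h H J : ℕ} {c : ℕ × ℕ} : c ∈ Gd t h H J ↔ (c.1 < J ∧ c.2 < J) ∧
  t * (c.2 + 1) + 1 ≤ (t + h) * c.1 ∧ (t + h + 1) * (c.1 + 1) + 1 ≤ (t + 1) * c.2 ∧
  H * (c.2 + 1) + 1 ≤ h * J + H * c.1 := by
  unfold Gd
  rw [mem_filter, mem_product, mem_range, mem_range]

/-- data of a pair of vectors -/
lemma data {t h : ℕ} (hh : 1 ≤ h) {q : Gi × Gi} (hdt : dt q.1 q.2 = 1)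
    (hip : 0 < ip (pv t q) (pv (t + h) q)) (hv : 0 < nm (pv t q)) (hw : 0 < nm (pv (t + h) q)) :
    ∃ a c θ : ℝ, a = Real.sqrt (nm (pv t q)) ∧ c = Real.sqrt (nm (pv (t + h) q)) ∧ 0 < a ∧ 0 < c ∧
      0 ≤ θ ∧ θ ≤ h ∧ (h : ℝ) ^ 2 * (nm q.2 : ℝ) = (c - a) ^ 2 + 2 * θ ∧
      (h : ℝ) ^ 2 * (ip q.1 q.2 : ℝ) = (c - a) * (((t : ℝ) + h) * a - t * c) -
        θ * (h + 2 * t) := by
  obtain ⟨e1, e2⟩ := pv_idn t h q
  have e3 := ip_dt2 (pv t q) (pv (t + h) q)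
  rw [pv_dt, hdt] at e3
  push_cast at e3
  have hvR : (0 : ℝ) < nm (pv t q) := by exact_mod_cast hv
  have hwR : (0 : ℝ) < nm (pv (t + h) q) := by exact_mod_cast hw
  have hipR : (0 : ℝ) < (ip (pv t q) (pv (t + h) q) : ℝ) := by exact_mod_cast hip
  have hhR : (0 : ℝ) < h := by exact_mod_cast (by omega : 0 < h)
  obtain ⟨a, ha⟩ : ∃ a : ℝ, a = Real.sqrt (nm (pv t q)) := ⟨_, rfl⟩
  obtain ⟨c, hc⟩ : ∃ c : ℝ, c = Real.sqrt (nm (pv (t + h) q)) := ⟨_, rfl⟩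
  have ha0 : 0 < a := by rw [ha]; exact Real.sqrt_pos.2 hvR
  have hc0 : 0 < c := by rw [hc]; exact Real.sqrt_pos.2 hwR
  have ha2 : a ^ 2 = (nm (pv t q) : ℝ) := by rw [ha]; exact Real.sq_sqrt hvR.le
  have hc2 : c ^ 2 = (nm (pv (t + h) q) : ℝ) := by rw [hc]; exact Real.sq_sqrt hwR.le
  obtain ⟨P, hP⟩ : ∃ P : ℝ, P = (ip (pv t q) (pv (t + h) q) : ℝ) := ⟨_, rfl⟩
  have e3' : P ^ 2 + (h : ℝ) ^ 2 = (a * c) ^ 2 := by
    rw [mul_pow, ha2, hc2, hP]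
    have : ((ip (pv t q) (pv (t + h) q) : ℤ) : ℝ) ^ 2 + (((t : ℝ) + h - t) * 1) ^ 2 =
        (nm (pv t q) : ℝ) * nm (pv (t + h) q) := by exact_mod_cast e3
    rw [← this]
    ring
  obtain ⟨t1, t2⟩ := theta_bd ha0 hc0 (by rw [hP]; exact hipR) hhR e3'
  refine ⟨a, c, a * c - P, ha, hc, ha0, hc0, t1, t2, ?_, ?_⟩
  · have e1' : (h : ℝ) ^ 2 * (nm q.2 : ℝ) = nm (pv t q) + nm (pv (t + h) q) -
        2 * (ip (pv t q) (pv (t + h) q) : ℝ) := by exact_mod_cast e1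
    rw [e1', ← ha2, ← hc2, ← hP]
    ring
  · have e2' : (h : ℝ) ^ 2 * (ip q.1 q.2 : ℝ) =
        h * ((ip (pv t q) (pv (t + h) q) : ℝ) - nm (pv t q)) -
        t * (nm (pv t q) + nm (pv (t + h) q) - 2 * (ip (pv t q) (pv (t + h) q) : ℝ)) := by
      exact_mod_cast e2
    rw [e2', ← ha2, ← hc2, ← hP]
    ring

/-- parameters -/
structure Pm (t h H J X : ℕ) : Prop where
  hh : 1 ≤ h
  hH : t + h + 1 ≤ H
  hJ : 2 * H ≤ J
  hX : 19 * J ^ 2 + 1 ≤ X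

lemma Pm.sd_pos {t h H J X : ℕ} (P : Pm t h H J X) : 0 < sd H J X := by
  have h1 := P.hh
  have h2 := P.hH
  have h3 := P.hJ
  have h4 := P.hX
  have a1 : (0 : ℝ) < H := by exact_mod_cast (by omega : 0 < H)
  have a2 : (0 : ℝ) < J := by exact_mod_cast (by omega : 0 < J)
  have a3 : (0 : ℝ) < X := by exact_mod_cast (by omega : 0 < X)
  unfold sd
  have := Real.sqrt_pos.2 a3
  positivity

/-- real parameters -/
lemma Pm.real {t h H J X : ℕ} (P : Pm t h H J X) : (1 : ℝ) ≤ h ∧ (0 : ℝ) ≤ t ∧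
    (t : ℝ) + h + 1 ≤ H ∧ 2 * (H : ℝ) ≤ J ∧ (1 : ℝ) ≤ J ∧ Real.sqrt X ^ 2 = X ∧
    (J : ℝ) * sd H J X = H * Real.sqrt X ∧ 2 * (J : ℝ) ≤ X ∧ (J : ℝ) < Real.sqrt X ∧
    19 * (H : ℝ) ^ 2 ≤ (sd H J X) ^ 2 := by
  have h1 := P.hh
  have h2 := P.hH
  have h3 := P.hJ
  have h4 := P.hX
  have a2 : (0 : ℝ) < J := by exact_mod_cast (by omega : 0 < J)
  have hXR : 19 * (J : ℝ) ^ 2 + 1 ≤ X := by exact_mod_cast h4
  have hJ1 : (1 : ℝ) ≤ J := by exact_mod_cast (by omega : 1 ≤ J)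
  have hsq : Real.sqrt X ^ 2 = X := Real.sq_sqrt (Nat.cast_nonneg X)
  refine ⟨by exact_mod_cast h1, Nat.cast_nonneg t, by exact_mod_cast h2, by exact_mod_cast h3,
    hJ1, hsq, ?_, by nlinarith, ?_, ?_⟩
  · unfold sd
    field_simp
  · rw [Real.lt_sqrt a2.le]
    nlinarith
  · unfold sd
    rw [div_pow, mul_pow, hsq, le_div_iff₀ (by positivity)]
    have : (0 : ℝ) ≤ (H : ℝ) ^ 2 := by positivity
    nlinarith [mul_le_mul_of_nonneg_left hXR this]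

/-- facts about the pairs in the region -/
lemma Rg_pos {t h : ℕ} {q : Gi × Gi} (h1 : dt q.1 q.2 = 1) (h2 : 0 ≤ ip q.1 q.2)
    (h3 : ip q.1 q.2 < nm q.2) : 0 < ip (pv t q) (pv (t + h) q) ∧ 0 < nm (pv t q) ∧
      0 < nm (pv (t + h) q) ∧ (nm (pv t q) : ℤ) ≤ ((t : ℤ) + 1) ^ 2 * nm q.2 ∧
      (nm (pv (t + h) q) : ℤ) ≤ ((t : ℤ) + h + 1) ^ 2 * nm q.2 := by
  obtain ⟨f1, f2, f3, -⟩ := Rg_facts h1 h2 h3
  have ht : (0 : ℤ) ≤ t := by positivity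
  have hh : (0 : ℤ) ≤ h := by positivity
  refine ⟨?_, ?_, ?_, ?_, ?_⟩
  · rw [pv_ip]
    push_cast
    have : 0 ≤ ((t : ℤ) + h + t) * ip q.1 q.2 := by positivity
    have : 0 ≤ ((t : ℤ) + h) * t * nm q.2 := by positivity
    linarith
  · have h4 := pv_nm t q
    have : (0 : ℤ) < nm (pv t q) := by
      rw [h4]
      have : 0 ≤ 2 * (t : ℤ) * ip q.1 q.2 := by positivity
      have : 0 ≤ (t : ℤ) ^ 2 * nm q.2 := by positivity
      linarith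
    exact_mod_cast this
  · have h4 := pv_nm (t + h) q
    have : (0 : ℤ) < nm (pv (t + h) q) := by
      rw [h4]
      push_cast
      have : 0 ≤ 2 * ((t : ℤ) + h) * ip q.1 q.2 := by positivity
      have : 0 ≤ ((t : ℤ) + h) ^ 2 * nm q.2 := by positivity
      linarith
    exact_mod_cast this
  · rw [pv_nm]
    nlinarith
  · rw [pv_nm]
    push_cast
    have h5 : 2 * ((t : ℤ) + h) * ip q.1 q.2 ≤ 2 * ((t : ℤ) + h) * nm q.2 :=
      mul_le_mul_of_nonneg_left h3.le (by positivity)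
    nlinarith

/-- the pairs in the good cells lie in the region -/
lemma good_mem {t h H J X : ℕ} (P : Pm t h H J X) {c : ℕ × ℕ} (hc : c ∈ Gd t h H J) {q : Gi × Gi}
    (hdt : dt q.1 q.2 = 1) (hip : 0 < ip (pv t q) (pv (t + h) q)) (hv : 0 < nm (pv t q))
    (hw : 0 < nm (pv (t + h) q)) (c1 : cix H J X (pv t q) = c.1)
    (c2 : cix H J X (pv (t + h) q) = c.2) : q ∈ Rg X := by
  obtain ⟨-, g2, g3, g1⟩ := mem_Gd.1 hc
  obtain ⟨p1, p2, p3, p4, p5, p6, p7, p8, p9, p10⟩ := P.real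
  have hsd := P.sd_pos
  rw [cix_iff hsd hv] at c1
  rw [cix_iff hsd hw] at c2
  obtain ⟨a, c', θ, ea, ec, ha, hc0, t0, t1, e1, e2⟩ := data P.hh hdt hip hv hw
  rw [← ea] at c1
  rw [← ec] at c2
  have g2' : (t : ℝ) * ((c.2 : ℝ) + 1) + 1 ≤ ((t : ℝ) + h) * c.1 := by exact_mod_cast g2
  have g3' : ((t : ℝ) + h + 1) * ((c.1 : ℝ) + 1) + 1 ≤ ((t : ℝ) + 1) * c.2 := by exact_mod_cast g3
  have g1' : (H : ℝ) * ((c.2 : ℝ) + 1) + 1 ≤ (h : ℝ) * J + H * c.1 := by exact_mod_cast g1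
  obtain ⟨r1, r2, r3⟩ := realA (s := (t : ℝ) + h) (h := (h : ℝ)) (t := (t : ℝ)) (H := (H : ℝ))
    (J := (J : ℝ)) (i := (c.1 : ℝ)) (j := (c.2 : ℝ)) (r := sd H J X) (R := Real.sqrt X)
    (X := (X : ℝ)) hsd rfl p1 p2 p3 p5 (Real.sqrt_nonneg _) p6 p7 c1.1 c1.2 c2.1 c2.2 g2' g3' g1'
    t0 t1 p8 p9
  have hh2 : (0 : ℝ) < (h : ℝ) ^ 2 := by positivity
  rw [← e1] at r1
  rw [← e2] at r2
  rw [← e1, ← e2] at r3
  rw [mem_Rg]
  refine ⟨hdt, ?_, ?_, ?_⟩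
  · have := le_of_mul_le_mul_left r1 hh2
    exact_mod_cast this
  · have : (0 : ℝ) < (ip q.1 q.2 : ℝ) := by
      by_contra hcon
      push Not at hcon
      nlinarith
    have : (0 : ℤ) < ip q.1 q.2 := by exact_mod_cast this
    exact this.le
  · have := lt_of_mul_lt_mul_left r3 hh2.le
    exact_mod_cast this

/-- the pairs of the region outside the good cells are near the boundary -/
lemma bad_mem {t h H J X : ℕ} (P : Pm t h H J X) {q : Gi × Gi} (hq : q ∈ Rg X)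
    (hc : (cix H J X (pv t q), cix H J X (pv (t + h) q)) ∉ Gd t h H J) :
    (1 - 4 * (H : ℝ) / J) * X < (nm q.2 : ℝ) ∨ (nm q.1 : ℝ) ≤ 9 * (H : ℝ) ^ 2 * (sd H J X) ^ 2 ∨
      (nm (q.2 - q.1) : ℝ) ≤ 9 * (H : ℝ) ^ 2 * (sd H J X) ^ 2 := by
  obtain ⟨hdt, hX, h2, h3⟩ := mem_Rg.1 hq
  obtain ⟨f1, f2, f3, f4⟩ := Rg_facts hdt h2 h3
  obtain ⟨hip, hv, hw, b1, b2⟩ := Rg_pos (t := t) (h := h) hdt h2 h3
  obtain ⟨p1, p2, p3, p4, p5, p6, p7, p8, p9, p10⟩ := P.real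
  have hsd := P.sd_pos
  obtain ⟨i, hi⟩ : ∃ i : ℕ, i = cix H J X (pv t q) := ⟨_, rfl⟩
  obtain ⟨j, hj⟩ : ∃ j : ℕ, j = cix H J X (pv (t + h) q) := ⟨_, rfl⟩
  have c1 := (cix_iff hsd hv i).1 hi.symm
  have c2 := (cix_iff hsd hw j).1 hj.symm
  obtain ⟨a, c', θ, ea, ec, ha, hc0, t0, t1, e1, e2⟩ := data P.hh hdt hip hv hw
  rw [← ea] at c1
  rw [← ec] at c2
  have hXR : (nm q.2 : ℝ) ≤ X := by exact_mod_cast hX
  -- sizes
  have hHX : c' ≤ H * Real.sqrt X := by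
    have k1 : (nm (pv (t + h) q) : ℝ) ≤ ((t : ℝ) + h + 1) ^ 2 * nm q.2 := by exact_mod_cast b2
    have k2 : ((t : ℝ) + h + 1) ^ 2 * nm q.2 ≤ (H : ℝ) ^ 2 * X := by
      have : ((t : ℝ) + h + 1) ^ 2 ≤ (H : ℝ) ^ 2 := pow_le_pow_left₀ (by positivity) p3 2
      exact mul_le_mul this hXR (Nat.cast_nonneg _) (by positivity)
    rw [ec, Real.sqrt_le_left (by positivity), mul_pow, p6]
    exact k1.trans k2
  have hjJ : j < J := by
    by_contra hcon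
    push Not at hcon
    have : (J : ℝ) ≤ j := by exact_mod_cast hcon
    have k3 := mul_le_mul_of_nonneg_right this hsd.le
    rw [p7] at k3
    linarith [c2.1]
  have hac : a < c' := by
    rw [ea, ec]
    apply Real.sqrt_lt_sqrt (Nat.cast_nonneg _)
    have k1 := pv_nm t q
    have k2 := pv_nm (t + h) q
    have k3 : (nm (pv t q) : ℤ) < nm (pv (t + h) q) := by
      rw [k1, k2]
      push_cast
      have hh' : (1 : ℤ) ≤ h := by exact_mod_cast P.hh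
      have ht' : (0 : ℤ) ≤ t := by positivity
      have m1 : 2 * (t : ℤ) * ip q.1 q.2 ≤ 2 * ((t : ℤ) + h) * ip q.1 q.2 :=
        mul_le_mul_of_nonneg_right (by linarith) h2
      have m2 : (t : ℤ) ^ 2 * nm q.2 < ((t : ℤ) + h) ^ 2 * nm q.2 := by
        apply mul_lt_mul_of_pos_right _ (by linarith)
        nlinarith
      linarith
    exact_mod_cast k3
  have hiJ : i < J := by
    by_contra hcon
    push Not at hcon
    have : (J : ℝ) ≤ i := by exact_mod_cast hcon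
    have k3 := mul_le_mul_of_nonneg_right this hsd.le
    rw [p7] at k3
    linarith [c1.1]
  have hbad : ((t : ℝ) + h) * i ≤ t * ((j : ℝ) + 1) ∨ ((t : ℝ) + 1) * j ≤
      ((t : ℝ) + h + 1) * ((i : ℝ) + 1) ∨ (h : ℝ) * J + H * i ≤ H * ((j : ℝ) + 1) := by
    rw [← hi, ← hj, mem_Gd] at hc
    simp only at hc
    by_contra hcon
    push Not at hcon
    obtain ⟨n1, n2, n3⟩ := hcon
    apply hc
    refine ⟨⟨hiJ, hjJ⟩, ?_, ?_, ?_⟩
    · have : t * (j + 1) < (t + h) * i := by exact_mod_cast n1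
      omega
    · have : (t + h + 1) * (i + 1) < (t + 1) * j := by exact_mod_cast n2
      omega
    · have : H * (j + 1) < h * J + H * i := by exact_mod_cast n3
      omega
  have eA : (nm q.1 : ℝ) * nm q.2 = (ip q.1 q.2 : ℝ) ^ 2 + 1 := by exact_mod_cast f4
  have eB : (nm (q.2 - q.1) : ℝ) * nm q.2 = ((nm q.2 : ℝ) - (ip q.1 q.2 : ℝ)) ^ 2 + 1 := by
    have e3 : (nm (q.2 - q.1) : ℤ) = nm q.2 - 2 * ip q.1 q.2 + nm q.1 := by
      rw [nmZ, nmZ, nmZ]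
      unfold ip
      simp only [QuadraticAlgebra.re_sub, QuadraticAlgebra.im_sub]
      ring
    have e4 : (nm (q.2 - q.1) : ℤ) * nm q.2 = ((nm q.2 : ℤ) - ip q.1 q.2) ^ 2 + 1 := by
      rw [e3]
      linear_combination f4
    exact_mod_cast e4
  exact realB (s := (t : ℝ) + h) (h := (h : ℝ)) (t := (t : ℝ)) (H := (H : ℝ))
    (J := (J : ℝ)) (i := (i : ℝ)) (j := (j : ℝ)) (r := sd H J X) (R := Real.sqrt X)
    (X := (X : ℝ)) hsd rfl p1 p2 p3 p4 (Real.sqrt_nonneg _) p6 p7 c1.1 c1.2 c2.1 c2.2 hac p10 hbad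
    t0 t1 (by exact_mod_cast f1) (by exact_mod_cast h2) (by exact_mod_cast h3) e1 e2 eA eB

open scoped Classical in
/-- the sum over a good cell -/
theorem cell_sum {t h H J X : ℕ} (P : Pm t h H J X) (F₁ F₂ : Gi → ℂ) {c : ℕ × ℕ}
    (hc : c ∈ Gd t h H J) :
    Th h F₁ F₂ (((c.1 : ℝ) / J) ^ 2) ((((c.1 : ℝ) + 1) / J) ^ 2) (((c.2 : ℝ) / J) ^ 2)
      ((((c.2 : ℝ) + 1) / J) ^ 2) ((H ^ 2 * X : ℕ) : ℝ) =
    ∑ q ∈ (Rg X).filter (fun q => (cix H J X (pv t q), cix H J X (pv (t + h) q)) = c),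
      F₁ (pv t q) * F₂ (pv (t + h) q) := by
  have hJ1 : 1 ≤ J := by
    have := P.hJ
    have := P.hH
    omega
  have hsd := P.sd_pos
  rw [Th_eq]
  unfold AGw
  rw [← sum_filter]
  symm
  refine sum_nbij (fun q => (pv t q, pv (t + h) q)) ?_ ?_ ?_ ?_
  · intro q hq
    rw [mem_filter] at hq
    obtain ⟨hq, hcc⟩ := hq
    obtain ⟨hdt, hX, h2, h3⟩ := mem_Rg.1 hq
    obtain ⟨hip, hv, hw, b1, b2⟩ := Rg_pos (t := t) (h := h) hdt h2 h3
    have c1 : cix H J X (pv t q) = c.1 := congrArg Prod.fst hcc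
    have c2 : cix H J X (pv (t + h) q) = c.2 := congrArg Prod.snd hcc
    rw [cix_iff hsd hv, ← win_iff hJ1] at c1
    rw [cix_iff hsd hw, ← win_iff hJ1] at c2
    rw [mem_filter, mem_FFw]
    simp only
    have hpr : ∀ s : ℕ, prim (pv s q) := fun s =>
      (prim_of_dt (v := pv s q) (w := q.2) (by rw [pv_dt2]; exact hdt)).1
    have hXZ : (nm q.2 : ℤ) ≤ X := by exact_mod_cast hX
    have hHZ : (t : ℤ) + h + 1 ≤ H := by exact_mod_cast P.hH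
    have hle : (nm (pv (t + h) q) : ℤ) ≤ ((H ^ 2 * X : ℕ) : ℤ) := by
      refine b2.trans ?_
      push_cast
      exact mul_le_mul (pow_le_pow_left₀ (by positivity) hHZ 2) hXZ (by positivity) (by positivity)
    have hle2 : (nm (pv t q) : ℤ) ≤ ((H ^ 2 * X : ℕ) : ℤ) := by
      refine b1.trans ?_
      push_cast
      exact mul_le_mul (pow_le_pow_left₀ (by positivity) (by
        have : (0 : ℤ) ≤ h := by positivity
        linarith) 2) hXZ (by positivity) (by positivity)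
    refine ⟨⟨⟨⟨⟨hpr _, by exact_mod_cast hle2⟩, hpr _, by exact_mod_cast hle⟩, ?_⟩, hip, c1.1, c1.2,
      c2.1, c2.2⟩, ?_⟩
    · rw [pv_dt, hdt]
      push_cast
      ring
    · rw [rcl_eq]
      unfold pv
      simp only
      push_cast
      exact ⟨⟨q.2.re, by ring⟩, ⟨q.2.im, by ring⟩⟩
  · intro q _ q' _ heq
    simp only [Prod.mk.injEq] at heq
    obtain ⟨g1, g2⟩ := heq
    have hh' : (h : ℤ) ≠ 0 := by
      have := P.hh
      exact_mod_cast (by omega : h ≠ 0)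
    have r1 : q.1.re + t * q.2.re = q'.1.re + t * q'.2.re := congrArg QuadraticAlgebra.re g1
    have r2 : q.1.re + ((t + h : ℕ) : ℤ) * q.2.re = q'.1.re + ((t + h : ℕ) : ℤ) * q'.2.re :=
      congrArg QuadraticAlgebra.re g2
    have i1 : q.1.im + t * q.2.im = q'.1.im + t * q'.2.im := congrArg QuadraticAlgebra.im g1
    have i2 : q.1.im + ((t + h : ℕ) : ℤ) * q.2.im = q'.1.im + ((t + h : ℕ) : ℤ) * q'.2.im :=
      congrArg QuadraticAlgebra.im g2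
    push_cast at r2 i2
    have r3 : q.2.re = q'.2.re := by
      apply mul_left_cancel₀ hh'
      linear_combination r2 - r1
    have i3 : q.2.im = q'.2.im := by
      apply mul_left_cancel₀ hh'
      linear_combination i2 - i1
    refine Prod.ext ?_ (QuadraticAlgebra.ext r3 i3)
    rw [r3] at r1
    rw [i3] at i1
    exact QuadraticAlgebra.ext (by linarith) (by linarith)
  · rintro ⟨v, w⟩ he
    rw [mem_coe, mem_filter, mem_FFw] at he
    simp only at he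
    obtain ⟨⟨⟨⟨⟨pv1, nv⟩, pw1, nw⟩, hdt⟩, hip, w1, w2, w3, w4⟩, hcl⟩ := he
    obtain ⟨y, hy1, hy2⟩ := seg P.hh hcl hdt
    obtain ⟨x, hx⟩ : ∃ x : Gi, x = ⟨v.re - t * y.re, v.im - t * y.im⟩ := ⟨_, rfl⟩
    have e1 : pv t (x, y) = v := by
      unfold pv
      rw [hx]
      apply QuadraticAlgebra.ext <;> simp
    have e2 : pv (t + h) (x, y) = w := by
      unfold pv
      rw [hx, hy1]
      apply QuadraticAlgebra.ext
      · simp only [QuadraticAlgebra.re_add, QuadraticAlgebra.re_mul, QuadraticAlgebra.re_natCast,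
          QuadraticAlgebra.im_natCast]
        push_cast
        ring
      · simp only [QuadraticAlgebra.im_add, QuadraticAlgebra.im_mul, QuadraticAlgebra.re_natCast,
          QuadraticAlgebra.im_natCast]
        push_cast
        ring
    have hdxy : dt x y = 1 := by
      refine Eq.trans ?_ hy2
      rw [hx]
      unfold dt
      simp only
      ring
    have hvne : 0 < nm v := by
      rcases Nat.eq_zero_or_pos (nm v) with h0 | h0
      · exfalso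
        have := (nm_eq_zero hD01).1 h0
        exact prim_ne_zero pv1 this
      · exact h0
    have hwne : 0 < nm w := by
      rcases Nat.eq_zero_or_pos (nm w) with h0 | h0
      · exfalso
        have := (nm_eq_zero hD01).1 h0
        exact prim_ne_zero pw1 this
      · exact h0
    have c1 : cix H J X v = c.1 := by
      rw [cix_iff hsd hvne, ← win_iff hJ1]
      exact ⟨w1, w2⟩
    have c2 : cix H J X w = c.2 := by
      rw [cix_iff hsd hwne, ← win_iff hJ1]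
      exact ⟨w3, w4⟩
    refine ⟨(x, y), ?_, ?_⟩
    · rw [mem_coe, mem_filter]
      refine ⟨good_mem P hc (q := (x, y)) hdxy (by rw [e1, e2]; exact hip)
        (by rw [e1]; exact hvne) (by rw [e2]; exact hwne) (by rw [e1]; exact c1)
        (by rw [e2]; exact c2), ?_⟩
      rw [e1, e2, c1, c2]
    · simp only [e1, e2]
  · intro q _
    rfl

end Pool.Agent.T2H34.Dh
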