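import Pool.Agent.T2H34.DhLaw

/-!
The correlations of `y` and `x + t y`.
-/

set_option autoImplicit false

namespace Pool.Agent.T2H34.Dh

open Finset Filter
open Pool.Agent.W78.GA (Qd nm prim dt ip lat ball pball edge dedge nm_mul prim_ne_zero nm_eq_zero
  mem_pball)
open Pool.Agent.W78.EC (Gi)
open Pool.Agent.W251.EX (bO)
open Pool.Agent.W681.EC (sum_inv_le)
open Pool.Agent.W714.EC (hD01 nmZ)
open Pool.Agent.W305.EC (prim_of_dt)
open ArithmeticFunction (cardFactors)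

lemma pv_ip2 (t : ℕ) (q : Gi × Gi) : ip (pv t q) q.2 = ip q.1 q.2 + (t : ℤ) * nm q.2 := by
  rw [nmZ]
  unfold pv ip
  simp only
  ring

/-- the good cells -/
def Gd2 (t H J : ℕ) : Finset (ℕ × ℕ) := ((range J) ×ˢ (range J)).filter (fun c =>
  t * (c.2 + 1) + 1 ≤ c.1 ∧ c.1 + 2 ≤ (t + 1) * c.2 ∧ H * (c.2 + 1) ≤ J)

lemma mem_Gd2 {t H J : ℕ} {c : ℕ × ℕ} : c ∈ Gd2 t H J ↔ (c.1 < J ∧ c.2 < J) ∧
  t * (c.2 + 1) + 1 ≤ c.1 ∧ c.1 + 2 ≤ (t + 1) * c.2 ∧ H * (c.2 + 1) ≤ J := by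
  unfold Gd2
  rw [mem_filter, mem_product, mem_range, mem_range]

/-- data of a pair of vectors -/
lemma data2 {t : ℕ} {q : Gi × Gi} (hdt : dt q.1 q.2 = 1)
    (hip : 0 < ip (pv t q) q.2) (hv : 0 < nm (pv t q)) (hw : 0 < nm q.2) :
    ∃ a c θ : ℝ, a = Real.sqrt (nm (pv t q)) ∧ c = Real.sqrt (nm q.2) ∧ 0 < a ∧ 1 ≤ c ∧
      0 ≤ θ ∧ θ ≤ 1 ∧ (nm q.2 : ℝ) = c ^ 2 ∧
      (ip q.1 q.2 : ℝ) = a * c - θ - t * c ^ 2 := by
  have e3 := ip_dt2 (pv t q) q.2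
  rw [pv_dt2, hdt] at e3
  have e4 := pv_ip2 t q
  have hvR : (0 : ℝ) < nm (pv t q) := by exact_mod_cast hv
  have hwR : (1 : ℝ) ≤ nm q.2 := by exact_mod_cast hw
  have hipR : (0 : ℝ) < (ip (pv t q) q.2 : ℝ) := by exact_mod_cast hip
  obtain ⟨a, ha⟩ : ∃ a : ℝ, a = Real.sqrt (nm (pv t q)) := ⟨_, rfl⟩
  obtain ⟨c, hc⟩ : ∃ c : ℝ, c = Real.sqrt (nm q.2) := ⟨_, rfl⟩
  have ha0 : 0 < a := by rw [ha]; exact Real.sqrt_pos.2 hvR
  have hc1 : 1 ≤ c := by rw [hc, Real.one_le_sqrt]; exact hwR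
  have ha2 : a ^ 2 = (nm (pv t q) : ℝ) := by rw [ha]; exact Real.sq_sqrt hvR.le
  have hc2 : c ^ 2 = (nm q.2 : ℝ) := by rw [hc]; exact Real.sq_sqrt (by linarith)
  obtain ⟨P, hP⟩ : ∃ P : ℝ, P = (ip (pv t q) q.2 : ℝ) := ⟨_, rfl⟩
  have e3' : P ^ 2 + (1 : ℝ) ^ 2 = (a * c) ^ 2 := by
    rw [mul_pow, ha2, hc2, hP]
    exact_mod_cast e3
  obtain ⟨t1, t2⟩ := theta_bd ha0 (by linarith) (by rw [hP]; exact hipR) one_pos e3'
  refine ⟨a, c, a * c - P, ha, hc, ha0, hc1, t1, t2, hc2.symm, ?_⟩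
  have e5 : (ip (pv t q) q.2 : ℝ) = (ip q.1 q.2 : ℝ) + t * nm q.2 := by exact_mod_cast e4
  rw [hc2, hP, e5]
  ring

/-- facts about the pairs in the region -/
lemma Rg_pos2 {t : ℕ} {q : Gi × Gi} (h1 : dt q.1 q.2 = 1) (h2 : 0 ≤ ip q.1 q.2)
    (h3 : ip q.1 q.2 < nm q.2) (h4 : 2 ≤ nm q.2) : 0 < ip (pv t q) q.2 := by
  rw [pv_ip2]
  obtain ⟨f1, f2, f3, f4⟩ := Rg_facts h1 h2 h3
  have h5 : (2 : ℤ) ≤ nm q.2 := by exact_mod_cast h4
  have h6 : 0 < ip q.1 q.2 := by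
    by_contra hcon
    have : ip q.1 q.2 = 0 := by omega
    rw [this] at f4
    nlinarith
  have h7 : 0 ≤ (t : ℤ) * nm q.2 := by positivity
  linarith

/-- the pairs in the good cells lie in the region -/
lemma good_mem2 {t H J X : ℕ} (P : Pm t 1 H J X) {c : ℕ × ℕ} (hc : c ∈ Gd2 t H J) {q : Gi × Gi}
    (hdt : dt q.1 q.2 = 1) (hip : 0 < ip (pv t q) q.2) (hv : 0 < nm (pv t q))
    (hw : 0 < nm q.2) (c1 : cix H J X (pv t q) = c.1)
    (c2 : cix H J X q.2 = c.2) : q ∈ Rg X := by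
  obtain ⟨-, g1, g2, g3⟩ := mem_Gd2.1 hc
  obtain ⟨p1, p2, p3, p4, p5, p6, p7, p8, p9, p10⟩ := P.real
  have hsd := P.sd_pos
  obtain ⟨r, hr⟩ : ∃ r : ℝ, r = sd H J X := ⟨_, rfl⟩
  rw [cix_iff hsd hv] at c1
  rw [cix_iff hsd hw] at c2
  obtain ⟨a, c', θ, ea, ec, ha, hc0, t0, t1, e1, e2⟩ := data2 hdt hip hv hw
  rw [← ea] at c1
  rw [← ec] at c2
  rw [← hr] at c1 c2 p7 p10 hsd
  have g1' : (t : ℝ) * ((c.2 : ℝ) + 1) + 1 ≤ c.1 := by exact_mod_cast g1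
  have g2' : (c.1 : ℝ) + 2 ≤ ((t : ℝ) + 1) * c.2 := by exact_mod_cast g2
  have g3' : (H : ℝ) * ((c.2 : ℝ) + 1) ≤ J := by exact_mod_cast g3
  have hHR : (1 : ℝ) ≤ H := by linarith
  have hr1 : 1 ≤ r := by nlinarith
  -- lower bound
  have k1 : t * c' + r ≤ a := by
    have h1 : t * c' ≤ t * (((c.2 : ℝ) + 1) * r) := mul_le_mul_of_nonneg_left c2.2 p2
    have h2 : ((t : ℝ) * ((c.2 : ℝ) + 1) + 1) * r ≤ c.1 * r :=
      mul_le_mul_of_nonneg_right g1' hsd.le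
    nlinarith [c1.1]
  have k2 : a + r ≤ ((t : ℝ) + 1) * c' := by
    have h1 : ((t : ℝ) + 1) * (c.2 * r) ≤ ((t : ℝ) + 1) * c' :=
      mul_le_mul_of_nonneg_left c2.1.le (by positivity)
    have h2 : ((c.1 : ℝ) + 2) * r ≤ ((t : ℝ) + 1) * c.2 * r :=
      mul_le_mul_of_nonneg_right g2' hsd.le
    nlinarith [c1.2]
  have k3 : c' ≤ Real.sqrt X := by
    have h1 : (H : ℝ) * c' ≤ H * Real.sqrt X := by
      calc (H : ℝ) * c' ≤ H * (((c.2 : ℝ) + 1) * r) := mul_le_mul_of_nonneg_left c2.2 (by linarith)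
        _ = (H * ((c.2 : ℝ) + 1)) * r := by ring
        _ ≤ J * r := mul_le_mul_of_nonneg_right g3' hsd.le
        _ = H * Real.sqrt X := p7
    exact le_of_mul_le_mul_left h1 (by linarith)
  rw [mem_Rg]
  refine ⟨hdt, ?_, ?_, ?_⟩
  · have : (nm q.2 : ℝ) ≤ X := by
      rw [e1, ← p6]
      exact pow_le_pow_left₀ (by linarith) k3 2
    exact_mod_cast this
  · have h1 : (t * c' + r) * c' ≤ a * c' := mul_le_mul_of_nonneg_right k1 (by linarith)
    have h2 : (1 : ℝ) ≤ r * c' := by nlinarith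
    have : (0 : ℝ) ≤ (ip q.1 q.2 : ℝ) := by
      rw [e2]
      nlinarith
    exact_mod_cast this
  · have h1 : (a + r) * c' ≤ ((t : ℝ) + 1) * c' * c' := mul_le_mul_of_nonneg_right k2 (by linarith)
    have h2 : (1 : ℝ) ≤ r * c' := by nlinarith
    have : (ip q.1 q.2 : ℝ) < nm q.2 := by
      rw [e2, e1]
      nlinarith
    exact_mod_cast this

lemma auxu (u : ℝ) (hu : 0 ≤ u) : 1 - 4 * u ≤ (1 - u) ^ 2 := by nlinarith [sq_nonneg u]

/-- the pairs of the region outside the good cells are near the boundary -/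
lemma bad_mem2 {t H J X : ℕ} (P : Pm t 1 H J X) {q : Gi × Gi} (hq : q ∈ Rg X)
    (hc : (cix H J X (pv t q), cix H J X q.2) ∉ Gd2 t H J) :
    (1 - 4 * (H : ℝ) / J) * X < (nm q.2 : ℝ) ∨ (nm q.1 : ℝ) ≤ 9 * (H : ℝ) ^ 2 * (sd H J X) ^ 2 ∨
      (nm (q.2 - q.1) : ℝ) ≤ 9 * (H : ℝ) ^ 2 * (sd H J X) ^ 2 := by
  obtain ⟨hdt, hX, h2, h3⟩ := mem_Rg.1 hq
  obtain ⟨f1, f2, f3, f4⟩ := Rg_facts hdt h2 h3
  obtain ⟨-, hv, -, b1, -⟩ := Rg_pos (t := t) (h := 1) hdt h2 h3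
  have hw : 0 < nm q.2 := by exact_mod_cast f1
  obtain ⟨p1, p2, p3, p4, p5, p6, p7, p8, p9, p10⟩ := P.real
  have hsd := P.sd_pos
  have hHR : (1 : ℝ) ≤ H := by linarith
  obtain ⟨r, hr⟩ : ∃ r : ℝ, r = sd H J X := ⟨_, rfl⟩
  rw [← hr] at p7 p10 hsd
  have hr1 : 1 ≤ r := by nlinarith
  have hXR : (nm q.2 : ℝ) ≤ X := by exact_mod_cast hX
  -- the small case
  rcases Nat.lt_or_ge (nm q.2) 2 with hsm | hbig
  · right
    left
    have h5 : (nm q.1 : ℝ) ≤ nm q.2 := by exact_mod_cast f3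
    have h6 : (nm q.2 : ℝ) ≤ 1 := by exact_mod_cast (by omega : nm q.2 ≤ 1)
    have h7 : (1 : ℝ) ≤ (H : ℝ) ^ 2 * r ^ 2 := by
      have h8 : (1 : ℝ) ≤ (H : ℝ) ^ 2 := one_le_pow₀ hHR
      have h9 : (1 : ℝ) ≤ r ^ 2 := one_le_pow₀ hr1
      nlinarith
    rw [← hr]
    linarith
  have hip := Rg_pos2 (t := t) hdt h2 h3 hbig
  obtain ⟨i, hi⟩ : ∃ i : ℕ, i = cix H J X (pv t q) := ⟨_, rfl⟩
  obtain ⟨j, hj⟩ : ∃ j : ℕ, j = cix H J X q.2 := ⟨_, rfl⟩
  have c1 := (cix_iff (P.sd_pos) hv i).1 hi.symm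
  have c2 := (cix_iff (P.sd_pos) hw j).1 hj.symm
  obtain ⟨a, c', θ, ea, ec, ha, hc0, t0, t1, e1, e2⟩ := data2 hdt hip hv hw
  rw [← ea, ← hr] at c1
  rw [← ec, ← hr] at c2
  have hcX : c' ≤ Real.sqrt X := by
    rw [ec]
    exact Real.sqrt_le_sqrt hXR
  have hjJ : j < J := by
    by_contra hcon
    push Not at hcon
    have : (J : ℝ) ≤ j := by exact_mod_cast hcon
    have k3 := mul_le_mul_of_nonneg_right this hsd.le
    rw [p7] at k3
    have : Real.sqrt X ≤ H * Real.sqrt X := by nlinarith [Real.sqrt_nonneg (X : ℝ)]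
    linarith [c2.1]
  have haX : a ≤ H * Real.sqrt X := by
    have k1 : (nm (pv t q) : ℝ) ≤ ((t : ℝ) + 1) ^ 2 * nm q.2 := by exact_mod_cast b1
    have k2 : ((t : ℝ) + 1) ^ 2 * nm q.2 ≤ (H : ℝ) ^ 2 * X := by
      have : ((t : ℝ) + 1) ^ 2 ≤ (H : ℝ) ^ 2 := pow_le_pow_left₀ (by positivity) (by linarith) 2
      exact mul_le_mul this hXR (Nat.cast_nonneg _) (by positivity)
    rw [ea, Real.sqrt_le_left (by positivity), mul_pow, p6]
    exact k1.trans k2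
  have hiJ : i < J := by
    by_contra hcon
    push Not at hcon
    have : (J : ℝ) ≤ i := by exact_mod_cast hcon
    have k3 := mul_le_mul_of_nonneg_right this hsd.le
    rw [p7] at k3
    linarith [c1.1]
  have hbad : (i : ℝ) ≤ t * ((j : ℝ) + 1) ∨ ((t : ℝ) + 1) * j ≤ (i : ℝ) + 1 ∨
      (J : ℝ) < H * ((j : ℝ) + 1) := by
    rw [← hi, ← hj, mem_Gd2] at hc
    simp only at hc
    by_contra hcon
    push Not at hcon
    obtain ⟨n1, n2, n3⟩ := hcon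
    apply hc
    refine ⟨⟨hiJ, hjJ⟩, ?_, ?_, ?_⟩
    · have : t * (j + 1) < i := by exact_mod_cast n1
      omega
    · have : i + 1 < (t + 1) * j := by exact_mod_cast n2
      omega
    · exact_mod_cast n3
  have eA : (nm q.1 : ℝ) * nm q.2 = (ip q.1 q.2 : ℝ) ^ 2 + 1 := by exact_mod_cast f4
  have eB : (nm (q.2 - q.1) : ℝ) * nm q.2 = ((nm q.2 : ℝ) - (ip q.1 q.2 : ℝ)) ^ 2 + 1 := by
    have e3 : (nm (q.2 - q.1) : ℤ) = nm q.2 - 2 * ip q.1 q.2 + nm q.1 := by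
      rw [nmZ, nmZ, nmZ]
      unfold ip
      simp only [QuadraticAlgebra.re_sub, QuadraticAlgebra.im_sub]
      ring
    have e4 : (nm (q.2 - q.1) : ℤ) * nm q.2 = ((nm q.2 : ℤ) - ip q.1 q.2) ^ 2 + 1 := by
      rw [e3]
      linear_combination f4
    exact_mod_cast e4
  have hipR : (0 : ℝ) ≤ (ip q.1 q.2 : ℝ) := by exact_mod_cast h2
  have hipL : (ip q.1 q.2 : ℝ) < nm q.2 := by exact_mod_cast h3
  have hc2pos : 0 < c' ^ 2 := by positivity
  rw [← hr]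
  -- a bound for the final steps
  have fin : ∀ n w : ℝ, n * c' ^ 2 = w ^ 2 + 1 → 0 ≤ w → w ≤ (H + 1) * r * c' → n ≤
      9 * (H : ℝ) ^ 2 * r ^ 2 := by
    intro n w h5 h6 h7
    have h8 : w ^ 2 ≤ ((H + 1) * r * c') ^ 2 := pow_le_pow_left₀ h6 h7 2
    have h9 : n * c' ^ 2 ≤ (9 * (H : ℝ) ^ 2 * r ^ 2) * c' ^ 2 := by
      rw [h5]
      have h10 : (1 : ℝ) ≤ (H : ℝ) ^ 2 * r ^ 2 * c' ^ 2 := by
        have : (1 : ℝ) ≤ H * r * c' := by
          have : (1 : ℝ) ≤ H * r := by nlinarith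
          nlinarith
        calc (1 : ℝ) ≤ (H * r * c') ^ 2 := one_le_pow₀ this
          _ = _ := by ring
      have h11 : ((H + 1) * r * c') ^ 2 ≤ 4 * ((H : ℝ) ^ 2 * r ^ 2 * c' ^ 2) := by
        have : ((H : ℝ) + 1) ^ 2 ≤ 4 * (H : ℝ) ^ 2 := by nlinarith
        calc ((H + 1) * r * c') ^ 2 = ((H : ℝ) + 1) ^ 2 * (r ^ 2 * c' ^ 2) := by ring
          _ ≤ 4 * (H : ℝ) ^ 2 * (r ^ 2 * c' ^ 2) :=
              mul_le_mul_of_nonneg_right this (by positivity)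
          _ = _ := by ring
      calc w ^ 2 + 1 ≤ 4 * ((H : ℝ) ^ 2 * r ^ 2 * c' ^ 2) + (H : ℝ) ^ 2 * r ^ 2 * c' ^ 2 := by
            linarith
        _ ≤ (9 * (H : ℝ) ^ 2 * r ^ 2) * c' ^ 2 := by
            have : 0 ≤ (H : ℝ) ^ 2 * r ^ 2 * c' ^ 2 := by positivity
            nlinarith
    exact le_of_mul_le_mul_right h9 hc2pos
  rcases hbad with h5 | h5 | h5
  · right
    left
    refine fin _ (ip q.1 q.2 : ℝ) ?_ hipR ?_
    · rw [← e1]
      exact eA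
    · have k1 : a ≤ t * c' + (t + 1) * r := by
        have h6 : ((i : ℝ) + 1) * r ≤ (t * ((j : ℝ) + 1) + 1) * r :=
          mul_le_mul_of_nonneg_right (by linarith) hsd.le
        have h7 : (t : ℝ) * (j * r) ≤ t * c' := mul_le_mul_of_nonneg_left c2.1.le p2
        nlinarith [c1.2]
      have k2 : a * c' ≤ (t * c' + (t + 1) * r) * c' := mul_le_mul_of_nonneg_right k1 (by linarith)
      rw [e2]
      have k3 : ((t : ℝ) + 1) * (r * c') ≤ (H + 1) * (r * c') := by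
        apply mul_le_mul_of_nonneg_right (by linarith) (by positivity)
      nlinarith
  · right
    right
    refine fin _ ((nm q.2 : ℝ) - (ip q.1 q.2 : ℝ)) ?_ (by linarith) ?_
    · rw [← e1]
      exact eB
    · have k1 : ((t : ℝ) + 1) * c' ≤ a + (t + 2) * r := by
        have h6 : ((t : ℝ) + 1) * j * r ≤ ((i : ℝ) + 1) * r :=
          mul_le_mul_of_nonneg_right h5 hsd.le
        have h7 : ((t : ℝ) + 1) * c' ≤ ((t : ℝ) + 1) * (((j : ℝ) + 1) * r) :=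
          mul_le_mul_of_nonneg_left c2.2 (by positivity)
        nlinarith [c1.1]
      have k2 : ((t : ℝ) + 1) * c' * c' ≤ (a + (t + 2) * r) * c' :=
        mul_le_mul_of_nonneg_right k1 (by linarith)
      rw [e2, e1]
      have k3 : (1 : ℝ) ≤ r * c' := by nlinarith
      have k4 : ((t : ℝ) + 3) * (r * c') ≤ (H + 1) * (r * c') := by
        apply mul_le_mul_of_nonneg_right (by linarith) (by positivity)
      nlinarith
  · left
    have k1 : Real.sqrt X - r < c' := by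
      have h6 : (J : ℝ) * r < H * ((j : ℝ) + 1) * r := mul_lt_mul_of_pos_right h5 hsd
      rw [p7] at h6
      have h7 : (H : ℝ) * Real.sqrt X < H * (((j : ℝ) + 1) * r) := by linarith
      have h8 := lt_of_mul_lt_mul_left h7 (by linarith)
      nlinarith [c2.1]
    have hrX : r * J = H * Real.sqrt X := by rw [← p7]; ring
    have hJ0 : (0 : ℝ) < J := by linarith
    have hr2 : r = (H : ℝ) / J * Real.sqrt X := by
      field_simp
      linarith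
    have hs0 : 0 ≤ Real.sqrt X := Real.sqrt_nonneg _
    have hHJ : (H : ℝ) / J ≤ 1 / 2 := by
      rw [div_le_div_iff₀ hJ0 (by norm_num)]
      linarith
    have hHJ0 : 0 < (H : ℝ) / J := by positivity
    have k2 : 0 ≤ Real.sqrt X - r := by
      rw [hr2]
      nlinarith
    have k3 : (Real.sqrt X - r) ^ 2 < c' ^ 2 := pow_lt_pow_left₀ k1 k2 two_ne_zero
    rw [e1]
    refine lt_of_le_of_lt ?_ k3
    have e5 : 4 * (H : ℝ) / J = 4 * ((H : ℝ) / J) := by ring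
    have e6 : (1 - 4 * ((H : ℝ) / J)) * X = (1 - 4 * ((H : ℝ) / J)) * Real.sqrt X ^ 2 := by rw [p6]
    rw [e5, e6, hr2]
    have hX2 : 0 ≤ Real.sqrt X ^ 2 := by positivity
    have : (Real.sqrt X - (H : ℝ) / J * Real.sqrt X) ^ 2 = (1 - (H : ℝ) / J) ^ 2 * Real.sqrt X ^ 2 := by
      ring
    rw [this]
    exact mul_le_mul_of_nonneg_right (auxu _ hHJ0.le) hX2

open scoped Classical in
/-- the sum over a good cell -/
theorem cell_sum2 {t H J X : ℕ} (P : Pm t 1 H J X) (F₁ F₂ : Gi → ℂ) {c : ℕ × ℕ}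
    (hc : c ∈ Gd2 t H J) :
    Th 1 F₁ F₂ (((c.1 : ℝ) / J) ^ 2) ((((c.1 : ℝ) + 1) / J) ^ 2) (((c.2 : ℝ) / J) ^ 2)
      ((((c.2 : ℝ) + 1) / J) ^ 2) ((H ^ 2 * X : ℕ) : ℝ) =
    ∑ q ∈ (Rg X).filter (fun q => (cix H J X (pv t q), cix H J X q.2) = c),
      F₁ (pv t q) * F₂ q.2 := by
  have hJ1 : 1 ≤ J := by
    have := P.hJ
    have := P.hH
    omega
  have hsd := P.sd_pos
  obtain ⟨-, -, p3, -, -, -, -, -, -, p10⟩ := P.real
  obtain ⟨⟨gc1, gc2⟩, g1, g2, g3⟩ := mem_Gd2.1 hc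
  have hc2' : 1 ≤ c.2 := by
    rcases Nat.eq_zero_or_pos c.2 with h0 | h0
    · rw [h0] at g2
      omega
    · exact h0
  rw [Th_eq]
  unfold AGw
  rw [← sum_filter]
  symm
  refine sum_nbij (fun q => (pv t q, q.2)) ?_ ?_ ?_ ?_
  · intro q hq
    rw [mem_filter] at hq
    obtain ⟨hq, hcc⟩ := hq
    obtain ⟨hdt, hX, h2, h3⟩ := mem_Rg.1 hq
    obtain ⟨f1, -⟩ := Rg_facts hdt h2 h3
    have hw : 0 < nm q.2 := by exact_mod_cast f1
    obtain ⟨-, hv, -, b1, -⟩ := Rg_pos (t := t) (h := 1) hdt h2 h3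
    have c1 : cix H J X (pv t q) = c.1 := congrArg Prod.fst hcc
    have c2 : cix H J X q.2 = c.2 := congrArg Prod.snd hcc
    rw [cix_iff hsd hv, ← win_iff hJ1] at c1
    have hbig : 2 ≤ nm q.2 := by
      rw [cix_iff hsd hw] at c2
      have hc2R : (1 : ℝ) ≤ c.2 := by exact_mod_cast hc2'
      have hHR : (1 : ℝ) ≤ H := by
        have : (0 : ℝ) ≤ t := Nat.cast_nonneg t
        push_cast at p3
        linarith
      have h5 : sd H J X < Real.sqrt (nm q.2) := by nlinarith [c2.1]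
      have h6 : (sd H J X) ^ 2 < nm q.2 := by
        have := pow_lt_pow_left₀ h5 hsd.le two_ne_zero
        rwa [Real.sq_sqrt (Nat.cast_nonneg _)] at this
      have h7 : (2 : ℝ) ≤ nm q.2 := by nlinarith
      exact_mod_cast h7
    rw [cix_iff hsd hw, ← win_iff hJ1] at c2
    have hip := Rg_pos2 (t := t) hdt h2 h3 hbig
    rw [mem_filter, mem_FFw]
    simp only
    have hpr := prim_of_dt (v := pv t q) (w := q.2) (by rw [pv_dt2]; exact hdt)
    have hXZ : (nm q.2 : ℤ) ≤ X := by exact_mod_cast hX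
    have hHZ : (t : ℤ) + 1 + 1 ≤ H := by exact_mod_cast P.hH
    have hle : (nm q.2 : ℤ) ≤ ((H ^ 2 * X : ℕ) : ℤ) := by
      refine hXZ.trans ?_
      push_cast
      have : (1 : ℤ) ≤ (H : ℤ) ^ 2 := by nlinarith
      nlinarith
    have hle2 : (nm (pv t q) : ℤ) ≤ ((H ^ 2 * X : ℕ) : ℤ) := by
      refine b1.trans ?_
      push_cast
      exact mul_le_mul (pow_le_pow_left₀ (by positivity) (by linarith) 2) hXZ (by positivity)
        (by positivity)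
    refine ⟨⟨⟨⟨⟨hpr.1, by exact_mod_cast hle2⟩, hpr.2, by exact_mod_cast hle⟩, ?_⟩, hip, c1.1, c1.2,
      c2.1, c2.2⟩, ?_⟩
    · rw [pv_dt2, hdt]
      push_cast
    · rw [rcl_eq]
      push_cast
      exact ⟨one_dvd _, one_dvd _⟩
  · intro q _ q' _ heq
    simp only [Prod.mk.injEq] at heq
    obtain ⟨g1, g2⟩ := heq
    have r1 : q.1.re + t * q.2.re = q'.1.re + t * q'.2.re := congrArg QuadraticAlgebra.re g1
    have i1 : q.1.im + t * q.2.im = q'.1.im + t * q'.2.im := congrArg QuadraticAlgebra.im g1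
    rw [g2] at r1 i1
    exact Prod.ext (QuadraticAlgebra.ext (by linarith) (by linarith)) g2
  · rintro ⟨v, w⟩ he
    rw [mem_coe, mem_filter, mem_FFw] at he
    simp only at he
    obtain ⟨⟨⟨⟨⟨pv1, nv⟩, pw1, nw⟩, hdt⟩, hip, w1, w2, w3, w4⟩, hcl⟩ := he
    obtain ⟨x, hx⟩ : ∃ x : Gi, x = ⟨v.re - t * w.re, v.im - t * w.im⟩ := ⟨_, rfl⟩
    have e1 : pv t (x, w) = v := by
      unfold pv
      rw [hx]
      apply QuadraticAlgebra.ext <;> simp
    have hdxy : dt x w = 1 := by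
      refine Eq.trans ?_ hdt
      rw [hx]
      unfold dt
      simp only
      ring
    have hvne : 0 < nm v := by
      rcases Nat.eq_zero_or_pos (nm v) with h0 | h0
      · exfalso
        have := (nm_eq_zero hD01).1 h0
        exact prim_ne_zero pv1 this
      · exact h0
    have hwne : 0 < nm w := by
      rcases Nat.eq_zero_or_pos (nm w) with h0 | h0
      · exfalso
        have := (nm_eq_zero hD01).1 h0
        exact prim_ne_zero pw1 this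
      · exact h0
    have c1 : cix H J X v = c.1 := by
      rw [cix_iff hsd hvne, ← win_iff hJ1]
      exact ⟨w1, w2⟩
    have c2 : cix H J X w = c.2 := by
      rw [cix_iff hsd hwne, ← win_iff hJ1]
      exact ⟨w3, w4⟩
    refine ⟨(x, w), ?_, ?_⟩
    · rw [mem_coe, mem_filter]
      refine ⟨good_mem2 P hc (q := (x, w)) hdxy (by rw [e1]; exact hip)
        (by rw [e1]; exact hvne) hwne (by rw [e1]; exact c1) c2, ?_⟩
      rw [e1, c1, c2]
    · simp only [e1]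
  · intro q _
    rfl

end Pool.Agent.T2H34.Dh
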