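import Pool.Agent.W251.EX.Defs
import Pool.Agent.W335.EC.Gvl

/-!
Pairs of Gaussian integers of determinant `h`: definitions for the bilinear estimate.
-/

set_option autoImplicit false

namespace Pool.Agent.T2H34.Dh

open Finset Filter
open Pool.Agent.W78.GA Pool.Agent.W78.EC
open Pool.Agent.W335.EC (hD01 nm01 th_ne psi_ne re_rec im_rec)

/-- `log p` if `m = h p` with `p` in `PQ Q`, otherwise `0` -/
noncomputable def thh (h Q : ℕ) (m : ℤ) : ℝ := if (h : ℤ) ∣ m then th Q (m / h) else 0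

/-- `∑_v psi(nm v/(h² X)) θ(dt v w₁ / h) θ(dt v w₂ / h)` -/
noncomputable def Gvh (h Q : ℕ) (X : ℝ) (w₁ w₂ : Gi) : ℝ :=
  ∑ v ∈ ball 0 1 (4 * ((h : ℝ) ^ 2 * X)),
    psi (nm v / ((h : ℝ) ^ 2 * X)) * thh h Q (dt v w₁) * thh h Q (dt v w₂)

/-- value of `ch4` for the pair `w₁, w₂` -/
def xih (h : ℕ) (w₁ w₂ : Gi) : ℤ := if (4 * h : ℤ) ∣ dt w₁ w₂ then
  (if (4 : ℤ) ∣ w₂.re - w₁.re ∧ (4 : ℤ) ∣ w₂.im - w₁.im then 1 else -1) else 0

/-- main term of `Gvh`, if `dt w₁ w₂ > 0` -/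
noncomputable def G0h (h Q : ℕ) (X : ℝ) (w₁ w₂ : Gi) : ℝ :=
  (1 + (xih h w₁ w₂ : ℝ)) / (4 * (Nat.totient ((dt w₁ w₂).toNat / h) : ℝ)) *
    ∑ m₁ ∈ Ioc Q (2 * Q), ∑ m₂ ∈ Ioc Q (2 * Q),
      psi (nm ((m₂ : Gi) * w₁ - (m₁ : Gi) * w₂) / ((dt w₁ w₂ : ℝ) ^ 2 * X))

lemma thh_ne {h Q : ℕ} (hh : 1 ≤ h) {m : ℤ} (hm : thh h Q m ≠ 0) :
    ∃ k : ℕ, m = h * k ∧ k ∈ Ioc Q (2 * Q) ∧ thh h Q m = th Q k := by
  unfold thh at hm ⊢
  split_ifs at hm with h1
  · rw [if_pos h1]
    obtain ⟨k, rfl⟩ := h1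
    have hh' : (h : ℤ) ≠ 0 := by exact_mod_cast (by omega : h ≠ 0)
    rw [Int.mul_ediv_cancel_left _ hh'] at hm ⊢
    obtain ⟨h2, h3⟩ := th_ne hm
    refine ⟨k.toNat, ?_, h3, ?_⟩
    · rw [Int.toNat_of_nonneg h2.le]
    · rw [Int.toNat_of_nonneg h2.le]
  · exact absurd rfl hm

lemma thh_mul {h Q : ℕ} (hh : 1 ≤ h) (k : ℤ) : thh h Q (h * k) = th Q k := by
  unfold thh
  have hh' : (h : ℤ) ≠ 0 := by exact_mod_cast (by omega : h ≠ 0)
  rw [if_pos (dvd_mul_right _ _), Int.mul_ediv_cancel_left _ hh']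

/-- `Gvh` as a sum over pairs of integers -/
theorem gvlh {h : ℕ} (hh : 1 ≤ h) (Q : ℕ) (X : ℝ) (w₁ w₂ : Gi) (hX : 1 ≤ X) (hp₁ : prim w₁)
    (hp₂ : prim w₂) (hD : 0 < dt w₁ w₂) (hdv : (h : ℤ) ∣ dt w₁ w₂) :
  ∃ c : ℕ, c < (dt w₁ w₂).toNat / h ∧ Nat.Coprime c ((dt w₁ w₂).toNat / h) ∧
    dt w₁ w₂ / h ∣ w₂.re - c * w₁.re ∧ dt w₁ w₂ / h ∣ w₂.im - c * w₁.im ∧
    (xih h w₁ w₂ : ℝ) = ch4 ((dt w₁ w₂).toNat / h) c ∧
    Gvh h Q X w₁ w₂ = ∑ m₁ ∈ Ioc Q (2 * Q), ∑ m₂ ∈ Ioc Q (2 * Q),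
      (if m₂ ≡ c * m₁ [MOD (dt w₁ w₂).toNat / h] then th Q m₁ * th Q m₂ else 0) *
      psi (nm ((m₂ : Gi) * w₁ - (m₁ : Gi) * w₂) / ((dt w₁ w₂ : ℝ) ^ 2 * X)) := by
  classical
  have hh' : (h : ℤ) ≠ 0 := by exact_mod_cast (by omega : h ≠ 0)
  have hhp : (0 : ℤ) < h := by exact_mod_cast (by omega : 0 < h)
  have hhR : (0 : ℝ) < h := by exact_mod_cast (by omega : 0 < h)
  obtain ⟨E, hE⟩ := hdv
  have hE0 : 0 < E := by
    by_contra hcon
    push Not at hcon
    nlinarith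
  have hEd : dt w₁ w₂ / h = E := by rw [hE, Int.mul_ediv_cancel_left _ hh']
  have hEn : (dt w₁ w₂).toNat / h = E.toNat := by
    have e1 : (dt w₁ w₂).toNat = h * E.toNat := by
      rw [hE]
      have : (h : ℤ) * E = ((h * E.toNat : ℕ) : ℤ) := by
        push_cast
        rw [Int.toNat_of_nonneg hE0.le]
      rw [this, Int.toNat_natCast]
    rw [e1, Nat.mul_div_cancel_left _ (by omega)]
  rw [hEn, hEd]
  have hDn : ((E.toNat : ℕ) : ℤ) = E := Int.toNat_of_nonneg hE0.le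
  have hDn0 : 0 < E.toNat := by omega
  -- Bezout
  obtain ⟨α, β, hαβ⟩ : ∃ α β : ℤ, α * w₁.re + β * w₁.im = 1 := by
    have h1 : IsCoprime w₁.re w₁.im := Int.isCoprime_iff_gcd_eq_one.2 hp₁
    obtain ⟨α, β, h⟩ := h1
    exact ⟨α, β, h⟩
  have hcop₂ : IsCoprime w₂.re w₂.im := Int.isCoprime_iff_gcd_eq_one.2 hp₂
  set c₀ : ℤ := α * w₂.re + β * w₂.im with hc₀
  have hreD : dt w₁ w₂ ∣ w₂.re - c₀ * w₁.re := by
    refine ⟨-β, ?_⟩
    have : w₂.re - c₀ * w₁.re = w₂.re * (α * w₁.re + β * w₁.im) - c₀ * w₁.re := by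
      rw [hαβ, mul_one]
    rw [this, hc₀]
    unfold dt
    ring
  have himD : dt w₁ w₂ ∣ w₂.im - c₀ * w₁.im := by
    refine ⟨α, ?_⟩
    have : w₂.im - c₀ * w₁.im = w₂.im * (α * w₁.re + β * w₁.im) - c₀ * w₁.im := by
      rw [hαβ, mul_one]
    rw [this, hc₀]
    unfold dt
    ring
  have hED : E ∣ dt w₁ w₂ := ⟨h, by rw [hE]; ring⟩
  have hre₀ : E ∣ w₂.re - c₀ * w₁.re := hED.trans hreD
  have him₀ : E ∣ w₂.im - c₀ * w₁.im := hED.trans himD
  set c : ℕ := (c₀ % E).toNat with hc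
  have hcn : (c : ℤ) = c₀ % E := Int.toNat_of_nonneg (Int.emod_nonneg _ hE0.ne')
  have hcc : E ∣ c₀ - c := by
    rw [hcn]
    exact Int.dvd_self_sub_emod
  have hre : E ∣ w₂.re - c * w₁.re := by
    have : w₂.re - c * w₁.re = (w₂.re - c₀ * w₁.re) + (c₀ - c) * w₁.re := by ring
    rw [this]
    exact dvd_add hre₀ (hcc.mul_right _)
  have him : E ∣ w₂.im - c * w₁.im := by
    have : w₂.im - c * w₁.im = (w₂.im - c₀ * w₁.im) + (c₀ - c) * w₁.im := by ring
    rw [this]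
    exact dvd_add him₀ (hcc.mul_right _)
  have hclt : c < E.toNat := by
    have : (c : ℤ) < E := by
      rw [hcn]
      exact Int.emod_lt_of_pos _ hE0
    omega
  have hccop : Nat.Coprime c E.toNat := by
    rw [← Nat.isCoprime_iff_coprime, hDn]
    obtain ⟨a, b, hab⟩ := hcop₂
    obtain ⟨x, hx⟩ := hre
    obtain ⟨y, hy⟩ := him
    refine ⟨a * w₁.re + b * w₁.im, a * x + b * y, ?_⟩
    linear_combination hab - a * hx - b * hy
  refine ⟨c, hclt, hccop, hre, him, ?_, ?_⟩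
  · -- the value of `xih`
    unfold xih ch4
    have e0 : (4 * h : ℤ) ∣ dt w₁ w₂ ↔ (4 : ℤ) ∣ E := by
      rw [hE, mul_comm (4 : ℤ)]
      exact mul_dvd_mul_iff_left hh'
    have e : (4 ∣ E.toNat) ↔ (4 : ℤ) ∣ E := by
      rw [← hDn]
      exact_mod_cast (Int.natCast_dvd_natCast (m := 4) (n := E.toNat)).symm
    by_cases h4 : (4 : ℤ) ∣ E
    · rw [if_pos (e0.2 h4), if_pos (e.2 h4)]
      have h5 : ((4 : ℤ) ∣ w₂.re - w₁.re ∧ (4 : ℤ) ∣ w₂.im - w₁.im) ↔ c % 4 = 1 := by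
        constructor
        · rintro ⟨h6, h7⟩
          have h8 : (4 : ℤ) ∣ (c - 1) * w₁.re := by
            have : ((c : ℤ) - 1) * w₁.re = (w₂.re - w₁.re) - (w₂.re - c * w₁.re) := by ring
            rw [this]
            exact dvd_sub h6 (h4.trans hre)
          have h9 : (4 : ℤ) ∣ (c - 1) * w₁.im := by
            have : ((c : ℤ) - 1) * w₁.im = (w₂.im - w₁.im) - (w₂.im - c * w₁.im) := by ring
            rw [this]
            exact dvd_sub h7 (h4.trans him)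
          have h10 : (4 : ℤ) ∣ (c : ℤ) - 1 := by
            have : (c : ℤ) - 1 = α * (((c : ℤ) - 1) * w₁.re) + β * (((c : ℤ) - 1) * w₁.im) := by
              have : α * (((c : ℤ) - 1) * w₁.re) + β * (((c : ℤ) - 1) * w₁.im) =
                ((c : ℤ) - 1) * (α * w₁.re + β * w₁.im) := by ring
              rw [this, hαβ, mul_one]
            rw [this]
            exact dvd_add (h8.mul_left _) (h9.mul_left _)
          omega
        · intro h6
          have h10 : (4 : ℤ) ∣ (c : ℤ) - 1 := by omega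
          constructor
          · have : w₂.re - w₁.re = (w₂.re - c * w₁.re) + ((c : ℤ) - 1) * w₁.re := by ring
            rw [this]
            exact dvd_add (h4.trans hre) (h10.mul_right _)
          · have : w₂.im - w₁.im = (w₂.im - c * w₁.im) + ((c : ℤ) - 1) * w₁.im := by ring
            rw [this]
            exact dvd_add (h4.trans him) (h10.mul_right _)
      by_cases h6 : c % 4 = 1
      · rw [if_pos (h5.2 h6), if_pos h6]
        norm_num
      · rw [if_neg (fun h => h6 (h5.1 h)), if_neg h6]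
        norm_num
    · rw [if_neg (fun h => h4 (e0.1 h)), if_neg (fun h => h4 (e.1 h))]
      norm_num
  · -- the bijection
    rw [← Finset.sum_product', Gvh]
    -- congruences
    have hcong : ∀ m₁ m₂ : ℕ, m₂ ≡ c * m₁ [MOD E.toNat] ↔ E ∣ (m₂ : ℤ) - c * m₁ := by
      intro m₁ m₂
      rw [Nat.ModEq.comm, Nat.modEq_iff_dvd, hDn]
      push_cast
      rfl
    -- the norm
    have hnm : ∀ (m₁ m₂ : ℕ) (v : Gi), E * v.re = m₂ * w₁.re - m₁ * w₂.re →
        E * v.im = m₂ * w₁.im - m₁ * w₂.im →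
        (nm ((m₂ : Gi) * w₁ - (m₁ : Gi) * w₂) : ℝ) / ((dt w₁ w₂ : ℝ) ^ 2 * X) =
          nm v / ((h : ℝ) ^ 2 * X) := by
      intro m₁ m₂ v h1 h2
      have h3 : (nm ((m₂ : Gi) * w₁ - (m₁ : Gi) * w₂) : ℝ) = (E : ℝ) ^ 2 * nm v := by
        have e1 : ((m₂ : Gi) * w₁ - (m₁ : Gi) * w₂).re = E * v.re := by
          rw [h1]
          simp only [QuadraticAlgebra.re_sub, QuadraticAlgebra.re_mul,
            QuadraticAlgebra.re_natCast, QuadraticAlgebra.im_natCast]
          ring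
        have e2 : ((m₂ : Gi) * w₁ - (m₁ : Gi) * w₂).im = E * v.im := by
          rw [h2]
          simp only [QuadraticAlgebra.im_sub, QuadraticAlgebra.im_mul,
            QuadraticAlgebra.re_natCast, QuadraticAlgebra.im_natCast]
          ring
        rw [nm01, nm01, e1, e2]
        push_cast
        ring
      have hE0' : (E : ℝ) ≠ 0 := by exact_mod_cast hE0.ne'
      have hX0 : X ≠ 0 := by linarith
      have hDR : (dt w₁ w₂ : ℝ) = h * E := by exact_mod_cast hE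
      rw [h3, hDR]
      field_simp
    refine Finset.sum_bij_ne_zero (fun v _ _ => ((dt v w₁ / h).toNat, (dt v w₂ / h).toNat))
      ?_ ?_ ?_ ?_
    · intro v _ hne
      obtain ⟨k₁, e1, e2, -⟩ := thh_ne hh (right_ne_zero_of_mul (left_ne_zero_of_mul hne))
      obtain ⟨k₂, f1, f2, -⟩ := thh_ne hh (right_ne_zero_of_mul hne)
      rw [e1, f1, Int.mul_ediv_cancel_left _ hh', Int.mul_ediv_cancel_left _ hh',
        Int.toNat_natCast, Int.toNat_natCast]
      exact mem_product.2 ⟨e2, f2⟩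
    · intro v _ hne v' _ hne' heq
      obtain ⟨k₁, e1, -, -⟩ := thh_ne hh (right_ne_zero_of_mul (left_ne_zero_of_mul hne))
      obtain ⟨k₂, f1, -, -⟩ := thh_ne hh (right_ne_zero_of_mul hne)
      obtain ⟨k₁', e1', -, -⟩ := thh_ne hh (right_ne_zero_of_mul (left_ne_zero_of_mul hne'))
      obtain ⟨k₂', f1', -, -⟩ := thh_ne hh (right_ne_zero_of_mul hne')
      rw [Prod.mk.injEq, e1, f1, e1', f1', Int.mul_ediv_cancel_left _ hh',
        Int.mul_ediv_cancel_left _ hh', Int.mul_ediv_cancel_left _ hh',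
        Int.mul_ediv_cancel_left _ hh', Int.toNat_natCast, Int.toNat_natCast, Int.toNat_natCast,
        Int.toNat_natCast] at heq
      have r1 := re_rec v w₁ w₂
      have r2 := re_rec v' w₁ w₂
      have i1 := im_rec v w₁ w₂
      have i2 := im_rec v' w₁ w₂
      rw [e1, f1, heq.1, heq.2, ← e1', ← f1', ← r2] at r1
      rw [e1, f1, heq.1, heq.2, ← e1', ← f1', ← i2] at i1
      exact QuadraticAlgebra.ext (mul_left_cancel₀ hD.ne' r1) (mul_left_cancel₀ hD.ne' i1)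
    · rintro ⟨m₁, m₂⟩ hm hne
      dsimp only at hne
      have hcg : m₂ ≡ c * m₁ [MOD E.toNat] := by
        by_contra hcon
        rw [if_neg hcon, zero_mul] at hne
        exact hne rfl
      have hne2 := hne
      rw [if_pos hcg] at hne2
      have hdv := (hcong m₁ m₂).1 hcg
      have hm1 := (mem_Ioc.1 (mem_product.1 hm).1)
      have hm2 := (mem_Ioc.1 (mem_product.1 hm).2)
      dsimp only at hm1 hm2
      obtain ⟨x, hx⟩ : E ∣ (m₂ : ℤ) * w₁.re - m₁ * w₂.re := by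
        have : (m₂ : ℤ) * w₁.re - m₁ * w₂.re =
          ((m₂ : ℤ) - c * m₁) * w₁.re - m₁ * (w₂.re - c * w₁.re) := by ring
        rw [this]
        exact dvd_sub (hdv.mul_right _) (hre.mul_left _)
      obtain ⟨y, hy⟩ : E ∣ (m₂ : ℤ) * w₁.im - m₁ * w₂.im := by
        have : (m₂ : ℤ) * w₁.im - m₁ * w₂.im =
          ((m₂ : ℤ) - c * m₁) * w₁.im - m₁ * (w₂.im - c * w₁.im) := by ring
        rw [this]
        exact dvd_sub (hdv.mul_right _) (him.mul_left _)
      set v : Gi := ⟨x, y⟩ with hv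
      have d1 : dt v w₁ = h * m₁ := by
        apply mul_left_cancel₀ hE0.ne'
        have e1 : E * dt v w₁ = (E * x) * w₁.im - (E * y) * w₁.re := by
          rw [hv]
          unfold dt
          ring
        have e2 : E * (h * m₁ : ℤ) = dt w₁ w₂ * m₁ := by rw [hE]; ring
        rw [e1, e2, ← hx, ← hy]
        unfold dt
        ring
      have d2 : dt v w₂ = h * m₂ := by
        apply mul_left_cancel₀ hE0.ne'
        have e1 : E * dt v w₂ = (E * x) * w₂.im - (E * y) * w₂.re := by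
          rw [hv]
          unfold dt
          ring
        have e2 : E * (h * m₂ : ℤ) = dt w₁ w₂ * m₂ := by rw [hE]; ring
        rw [e1, e2, ← hx, ← hy]
        unfold dt
        ring
      have hn := hnm m₁ m₂ v hx.symm hy.symm
      rw [hn] at hne2
      have hpsi := psi_ne (right_ne_zero_of_mul hne2)
      have hX0 : 0 < (h : ℝ) ^ 2 * X := by positivity
      have hvne : v ≠ 0 := by
        intro h0
        rw [h0] at d1
        unfold dt at d1
        simp at d1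
        omega
      refine ⟨v, ?_, ?_, ?_⟩
      · rw [mem_ball hD01]
        refine ⟨(one_le_nm hD01).2 hvne, ?_⟩
        rw [div_lt_iff₀ hX0] at hpsi
        exact hpsi.le
      · rw [d1, d2, thh_mul hh, thh_mul hh]
        intro h0
        apply hne2
        rw [← h0]
        ring
      · rw [d1, d2, Int.mul_ediv_cancel_left _ hh', Int.mul_ediv_cancel_left _ hh',
          Int.toNat_natCast, Int.toNat_natCast]
    · intro v _ hne
      obtain ⟨k₁, e1, -, g1⟩ := thh_ne hh (right_ne_zero_of_mul (left_ne_zero_of_mul hne))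
      obtain ⟨k₂, f1, -, g2⟩ := thh_ne hh (right_ne_zero_of_mul hne)
      dsimp only
      rw [g1, g2, e1, f1, Int.mul_ediv_cancel_left _ hh', Int.mul_ediv_cancel_left _ hh',
        Int.toNat_natCast, Int.toNat_natCast]
      have hcg : k₂ ≡ c * k₁ [MOD E.toNat] := by
        rw [hcong]
        have h1 : (h : ℤ) * ((k₂ : ℤ) - c₀ * k₁) =
          v.re * (w₂.im - c₀ * w₁.im) - v.im * (w₂.re - c₀ * w₁.re) := by
          have e3 : (h : ℤ) * ((k₂ : ℤ) - c₀ * k₁) = dt v w₂ - c₀ * dt v w₁ := by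
            rw [e1, f1]; ring
          rw [e3]
          unfold dt
          ring
        have h2 : dt w₁ w₂ ∣ (h : ℤ) * ((k₂ : ℤ) - c₀ * k₁) := by
          rw [h1]
          exact dvd_sub (himD.mul_left _) (hreD.mul_left _)
        rw [hE] at h2
        have h3 : E ∣ (k₂ : ℤ) - c₀ * k₁ := (mul_dvd_mul_iff_left hh').1 h2
        have h4 : (k₂ : ℤ) - c * k₁ = ((k₂ : ℤ) - c₀ * k₁) + (c₀ - c) * k₁ := by ring
        rw [h4]
        exact dvd_add h3 (hcc.mul_right _)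
      have hr1 : E * v.re = k₂ * w₁.re - k₁ * w₂.re := by
        apply mul_left_cancel₀ hh'
        have := re_rec v w₁ w₂
        rw [e1, f1, hE] at this
        linear_combination this
      have hi1 : E * v.im = k₂ * w₁.im - k₁ * w₂.im := by
        apply mul_left_cancel₀ hh'
        have := im_rec v w₁ w₂
        rw [e1, f1, hE] at this
        linear_combination this
      rw [if_pos hcg, hnm k₁ k₂ v hr1 hi1]
      ring

end Pool.Agent.T2H34.Dh
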