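import Pool.Agent.T2H34.Ent

/-!
The mean over the primes, for most scales.
-/

set_option autoImplicit false

namespace Pool.Agent.T2H34

open Finset Filter
open Pool.Agent.W78.GA (Qd nm prim dt ip lat ball pball edge dedge)
open Pool.Agent.W78.EC (Gi cone cw PQ SP th good InG TT res av Tr)
open Pool.Agent.W251.EX
open Pool.Agent.W78.EC.Fx
open Pool.Agent.W540.EC
open Pool.Agent.W214.EX (Vs wF norm_Vs)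

open scoped Classical in
theorem avx3 {N : ℕ} (hN : 1 ≤ N) {F₁ F₂ : Gi → ℂ} (h1 : ∀ z, F₁ z ∈ Vs N)
    (h2 : ∀ z, F₂ z ∈ Vs N) {m : ℝ → ℝ} (hm : ∀ x, |m x| ≤ 1) {τ : ℂ} (hτ : ‖τ‖ = 1)
    (T : ℝ → ℂ) {s₁ s₂ s₃ s₄ : ℝ} (hs₁ : 0 < s₁) (hs₃ : 0 < s₃)
    (hBr : ∀ (K : ℕ) (κ ε : ℝ), 1 ≤ K → 0 < κ → 0 < ε → ∃ Q₀ : ℕ, ∀ Q : ℕ, Q₀ ≤ Q → ∃ X₀ : ℝ,
      ∀ X : ℝ, X₀ ≤ X → ∀ α : Gi → ℝ, (∀ z, |α z| ≤ 1) → (∀ z, α z ≠ 0 → s₁ * X < (nm z : ℝ)) →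
      |∑ e ∈ good K κ Q X, ∑ v ∈ cone X e.1 e.2, ∑ w ∈ cw X s₃ s₄ e.1 e.2,
        α v * ((F₂ w).re - m X) * th Q (dt v w)| ≤ ε * X * Q)
    (hBi : ∀ (K : ℕ) (κ ε : ℝ), 1 ≤ K → 0 < κ → 0 < ε → ∃ Q₀ : ℕ, ∀ Q : ℕ, Q₀ ≤ Q → ∃ X₀ : ℝ,
      ∀ X : ℝ, X₀ ≤ X → ∀ α : Gi → ℝ, (∀ z, |α z| ≤ 1) → (∀ z, α z ≠ 0 → s₁ * X < (nm z : ℝ)) →
      |∑ e ∈ good K κ Q X, ∑ v ∈ cone X e.1 e.2, ∑ w ∈ cw X s₃ s₄ e.1 e.2,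
        α v * (F₂ w).im * th Q (dt v w)| ≤ ε * X * Q)
    (hT : ∀ (Q : ℕ) (ε : ℝ), 0 < ε → ∃ X₀ : ℝ, ∀ X : ℝ, X₀ ≤ X → ∀ p ∈ PQ Q, ∀ π : Gi, nm π = p →
      ‖τ * T (X / p) - ∑ e ∈ (dedge 0 1 (X / p)).filter (fun e => 0 < ip e.1 e.2),
        G3 F₁ F₂ (m X) s₁ s₂ s₃ s₄ X (π * e.1) (π * e.2)‖ ≤ ε * (X / p)) :
    ∀ ε : ℝ, 0 < ε → ∀ Q₁ : ℕ, ∃ Q₂ N₀ : ℕ, ∀ N' : ℕ, N₀ ≤ N' →
    ∃ Q : ℕ, Q₁ ≤ Q ∧ Q ≤ Q₂ ∧ ∑ X ∈ Icc 1 N', 1 / (X : ℝ) ^ 2 *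
      ‖∑ p ∈ PQ Q, ((Real.log p * ((p : ℝ) + 1) : ℝ) : ℂ) * T ((X : ℝ) / p)‖ ≤
        ε * Q * Real.log N' := by
  intro ε hε Q₁'
  obtain ⟨c, C, hc0, Qc, hQc⟩ := Pool.Agent.W899.EC.pcnt
  obtain ⟨εD, hεD⟩ : ∃ x : ℝ, x = ε / 32 := ⟨_, rfl⟩
  obtain ⟨εB, hεB⟩ : ∃ x : ℝ, x = ε / 64 := ⟨_, rfl⟩
  obtain ⟨εL, hεL⟩ : ∃ x : ℝ, x = ε / (96 * (|C| + 1)) := ⟨_, rfl⟩
  have hεD0 : 0 < εD := by rw [hεD]; positivity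
  have hεB0 : 0 < εB := by rw [hεB]; positivity
  have hεL0 : 0 < εL := by rw [hεL]; positivity
  obtain ⟨s, hs⟩ : ∃ s : ℝ, s = min s₁ s₃ := ⟨_, rfl⟩
  have hs0 : 0 < s := by rw [hs]; exact lt_min hs₁ hs₃
  have hss1 : s ≤ s₁ := by rw [hs]; exact min_le_left _ _
  have hss3 : s ≤ s₃ := by rw [hs]; exact min_le_right _ _
  obtain ⟨K₀, hK₀⟩ := Pool.Agent.W721.ECL.loss s εL hs0 hεL0
  obtain ⟨K, hKd⟩ : ∃ K : ℕ, K = max K₀ 1 := ⟨_, rfl⟩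
  have hK : 1 ≤ K := by rw [hKd]; exact le_max_right _ _
  obtain ⟨κ, hκ, hκ'⟩ := hK₀ K (by rw [hKd]; exact le_max_left _ _)
  obtain ⟨QL, hQL⟩ := hκ' κ hκ le_rfl
  obtain ⟨B, hB⟩ := zxA K κ hK hκ
  obtain ⟨QB, hQB⟩ := hBr K κ εB hK hκ hεB0
  obtain ⟨QI, hQI⟩ := hBi K κ εB hK hκ hεB0
  obtain ⟨Q₁, hQ₁⟩ : ∃ Q₁ : ℕ, Q₁ = Q₁' + Qc + QL + QB + QI + (⌊(K : ℝ) / κ⌋₊ + 1) + 1 :=
    ⟨_, rfl⟩
  obtain ⟨Q₂, X₀, N₀, hD⟩ := Pool.Agent.W78.EC.dcpAll (Lb N) K B εD hK hεD0 Q₁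
  -- thresholds
  have hXL : ∀ Q : ℕ, ∃ X₁ : ℝ, Q₁ ≤ Q → ∀ X : ℝ, X₁ ≤ X → ∀ p ∈ PQ Q, ∀ π : Gi, nm π = p →
    (((dedge 0 1 (X / p)).filter (fun e => 0 < ip e.1 e.2 ∧ s * (X / p) < (nm e.1 : ℝ) ∧
      s * (X / p) < (nm e.2 : ℝ) ∧ ¬ InG K κ Q X π e)).card : ℝ) ≤ εL * (X / p) := by
    intro Q
    by_cases hQ : Q₁ ≤ Q
    · obtain ⟨X₁, hX₁⟩ := hQL Q (by omega)
      exact ⟨X₁, fun _ => hX₁⟩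
    · exact ⟨0, fun h => absurd h hQ⟩
  have hXB : ∀ Q : ℕ, ∃ X₁ : ℝ, Q₁ ≤ Q → ∀ X : ℝ, X₁ ≤ X → ∀ α : Gi → ℝ,
      (∀ z, |α z| ≤ 1) → (∀ z, α z ≠ 0 → s₁ * X < (nm z : ℝ)) →
      |∑ e ∈ good K κ Q X, ∑ v ∈ cone X e.1 e.2, ∑ w ∈ cw X s₃ s₄ e.1 e.2,
        α v * ((F₂ w).re - m X) * th Q (dt v w)| ≤ εB * X * Q ∧
      |∑ e ∈ good K κ Q X, ∑ v ∈ cone X e.1 e.2, ∑ w ∈ cw X s₃ s₄ e.1 e.2,
        α v * (F₂ w).im * th Q (dt v w)| ≤ εB * X * Q := by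
    intro Q
    by_cases hQ : Q₁ ≤ Q
    · obtain ⟨X₁, hX₁⟩ := hQB Q (by omega)
      obtain ⟨X₂, hX₂⟩ := hQI Q (by omega)
      exact ⟨max X₁ X₂, fun _ X hX α a1 a2 => ⟨hX₁ X ((le_max_left _ _).trans hX) α a1 a2,
        hX₂ X ((le_max_right _ _).trans hX) α a1 a2⟩⟩
    · exact ⟨0, fun h => absurd h hQ⟩
  have hXT : ∀ Q : ℕ, ∃ X₁ : ℝ, ∀ X : ℝ, X₁ ≤ X → ∀ p ∈ PQ Q, ∀ π : Gi, nm π = p →
      ‖τ * T (X / p) - ∑ e ∈ (dedge 0 1 (X / p)).filter (fun e => 0 < ip e.1 e.2),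
        G3 F₁ F₂ (m X) s₁ s₂ s₃ s₄ X (π * e.1) (π * e.2)‖ ≤ εL * (X / p) := fun Q =>
    hT Q εL hεL0
  choose XL hXL' using hXL
  choose XB hXB' using hXB
  choose XT hXT' using hXT
  have hpi : ∀ p : ℕ, ∃ πr : Gi × ℤ, p.Prime → p % 4 = 1 →
      nm πr.1 = p ∧ lat p πr.2 πr.1 ∧ (p : ℤ) ∣ πr.2 ^ 2 + 1 := by
    intro p
    by_cases hp : p.Prime ∧ p % 4 = 1
    · obtain ⟨π, r, h⟩ := exists_pi hp.1 hp.2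
      exact ⟨(π, r), fun _ _ => h⟩
    · exact ⟨(0, 0), fun ha hb => absurd ⟨ha, hb⟩ hp⟩
  choose πr hπr using hpi
  obtain ⟨X₁, hX₁⟩ : ∃ X₁ : ℕ, X₁ = X₀ + ∑ Q ∈ Icc Q₁ Q₂,
      (⌈XL Q⌉₊ + ⌈XB Q⌉₊ + ⌈XT Q⌉₊ + 2 * (K * Q)) := ⟨_, rfl⟩
  have hX₁' : ∀ Q : ℕ, Q₁ ≤ Q → Q ≤ Q₂ → XL Q ≤ X₁ ∧ XB Q ≤ X₁ ∧ XT Q ≤ X₁ ∧
      2 * (K * Q : ℝ) ≤ X₁ := by
    intro Q ha hb
    have h : ⌈XL Q⌉₊ + ⌈XB Q⌉₊ + ⌈XT Q⌉₊ + 2 * (K * Q) ≤ X₁ := by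
      have := single_le_sum (f := fun Q => ⌈XL Q⌉₊ + ⌈XB Q⌉₊ + ⌈XT Q⌉₊ + 2 * (K * Q))
        (fun _ _ => Nat.zero_le _) (mem_Icc.2 ⟨ha, hb⟩)
      omega
    have h' : ((⌈XL Q⌉₊ : ℝ) + ⌈XB Q⌉₊ + ⌈XT Q⌉₊ + 2 * (K * Q)) ≤ X₁ := by exact_mod_cast h
    have e1 := Nat.le_ceil (XL Q)
    have e2 := Nat.le_ceil (XB Q)
    have e2' := Nat.le_ceil (XT Q)
    have e3 : (0 : ℝ) ≤ ⌈XL Q⌉₊ := Nat.cast_nonneg _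
    have e4 : (0 : ℝ) ≤ ⌈XB Q⌉₊ := Nat.cast_nonneg _
    have e4' : (0 : ℝ) ≤ ⌈XT Q⌉₊ := Nat.cast_nonneg _
    have e5 : (0 : ℝ) ≤ 2 * (K * Q : ℝ) := by positivity
    exact ⟨by linarith, by linarith, by linarith, by linarith⟩
  obtain ⟨SX, hSX⟩ : ∃ SX : ℕ → ℕ → ℂ, SX = fun (Q X : ℕ) => ∑ p ∈ PQ Q,
      ((Real.log p * ((p : ℝ) + 1) : ℝ) : ℂ) * T ((X : ℝ) / p) := ⟨_, rfl⟩
  obtain ⟨M, hM⟩ : ∃ M : ℝ, M = ∑ X ∈ Icc 1 X₁, 1 / (X : ℝ) ^ 2 *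
    ∑ Q ∈ Icc Q₁ Q₂, ‖SX Q X‖ := ⟨_, rfl⟩
  have hM0 : 0 ≤ M := by
    rw [hM]
    exact sum_nonneg fun X _ => mul_nonneg (by positivity)
      (sum_nonneg fun _ _ => norm_nonneg _)
  refine ⟨Q₂, max (max N₀ 3) ⌈Real.exp (M / (ε / 4))⌉₊, fun N' hN' => ?_⟩
  have hN0 : N₀ ≤ N' := le_trans (le_trans (le_max_left _ _) (le_max_left _ _)) hN'
  have hN3 : 3 ≤ N' := le_trans (le_trans (le_max_right _ _) (le_max_left _ _)) hN'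
  have hNR : (0 : ℝ) < N' := by
    have : (3 : ℝ) ≤ N' := by exact_mod_cast hN3
    linarith
  have hNe : M / (ε / 4) ≤ Real.log N' := by
    rw [Real.le_log_iff_exp_le hNR]
    have := le_trans (le_max_right _ _) hN'
    exact (Nat.le_ceil _).trans (by exact_mod_cast this)
  have hlogN : 1 ≤ Real.log N' := by
    rw [Real.le_log_iff_exp_le hNR]
    have h1 : (3 : ℝ) ≤ N' := by exact_mod_cast hN3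
    have h2 := Real.exp_one_lt_d9
    linarith
  have hMlog : M ≤ ε / 4 * Real.log N' := by
    rw [div_le_iff₀ (by positivity)] at hNe
    linarith
  obtain ⟨Q, hQ1, hQ2, hζ⟩ := hD N' hN0
    (fun X : ℕ => lb3 hN h1 h2 s₁ s₂ s₃ s₄ (X : ℝ))
  have hQpos : 1 ≤ Q := by omega
  have hQR : (1 : ℝ) ≤ Q := by exact_mod_cast hQpos
  have hKQ : (K : ℝ) / κ < Q := by
    have h := Nat.lt_floor_add_one ((K : ℝ) / κ)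
    have h' : ⌊(K : ℝ) / κ⌋₊ + 1 ≤ Q := by omega
    have h'' : ((⌊(K : ℝ) / κ⌋₊ : ℝ) + 1) ≤ Q := by exact_mod_cast h'
    linarith
  refine ⟨Q, by omega, hQ2, ?_⟩
  have he1 : ∀ x : Lb N, ‖e1 x‖ ≤ 1 := fun x => norm_Vs hN _
  have he2 : ∀ x : Lb N, ‖e2 x‖ ≤ 1 := fun x => norm_Vs hN _
  have he3 : ∀ x : Lb N, ‖e3 x‖ ≤ 1 := fun x => norm_Vs hN _
  have hex : ∀ d : Lb N → ℂ, (∀ x, ‖d x‖ ≤ 1) →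
      ∃ ζ₁ ζ₂ : ℕ → Tr (Lb N) → ℕ × ℕ × ℕ × ℕ → ℝ,
      (∀ p T y, |ζ₁ p T y| ≤ B ∧ |ζ₂ p T y| ≤ B) ∧
      ∀ (lab : Gi → Lb N) (X : ℝ), 2 * (K * Q : ℝ) ≤ X → ∀ e ∈ good K κ Q X, ∀ p ∈ PQ Q,
      (((ζ₁ p (TT lab X e) (res p e) : ℝ) : ℂ) + Complex.I * ((ζ₂ p (TT lab X e) (res p e) : ℝ) : ℂ) =
        (((p : ℝ) + 1) / (2 * Q) : ℝ) * ∑ z ∈ cone X e.1 e.2, ∑ w ∈ cone X e.1 e.2,
          (if dt z w = p ∧ lat p ((πr p).2) z then e1 (lab z) * d (lab w) else 0)) ∧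
      (((av p (ζ₁ p) (TT lab X e) : ℝ) : ℂ) + Complex.I * ((av p (ζ₂ p) (TT lab X e) : ℝ) : ℂ) =
        (1 / (2 * (Q : ℝ)) : ℝ) * ∑ z ∈ cone X e.1 e.2, ∑ w ∈ cone X e.1 e.2,
          (if dt z w = p then e1 (lab z) * d (lab w) else 0)) := by
    intro d hd
    obtain ⟨ζ₁, ζ₂, h1, h2⟩ := hB Q hKQ (Lb N) e1 d he1 hd (fun p => (πr p).2)
    refine ⟨ζ₁, ζ₂, h1, fun lab X hX e he p hpm => ?_⟩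
    obtain ⟨h3, h4⟩ := h2 lab X hX e he p hpm
    refine ⟨?_, h4⟩
    rw [h3]
  obtain ⟨ζ₁, ζ₂, hζb, hζi⟩ := hex e2 he2
  obtain ⟨ζ₃, ζ₄, hζb', hζi'⟩ := hex e3 he3
  obtain ⟨D1, hD1⟩ : ∃ D1 : (ℕ → Tr (Lb N) → ℕ × ℕ × ℕ × ℕ → ℝ) → ℕ → ℝ, D1 = fun ζ (X : ℕ) =>
      ∑ e ∈ edge 0 1 ((X : ℝ) / (K * Q)), |∑ p ∈ PQ Q, Real.log p *
        (ζ p (TT (lb3 hN h1 h2 s₁ s₂ s₃ s₄ (X : ℝ)) X e) (res p e) -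
          av p (ζ p) (TT (lb3 hN h1 h2 s₁ s₂ s₃ s₄ (X : ℝ)) X e))| := ⟨_, rfl⟩
  have hD1s : ∀ ζ : ℕ → Tr (Lb N) → ℕ × ℕ × ℕ × ℕ → ℝ, (∀ p T y, |ζ p T y| ≤ B) →
      ∑ X ∈ Ioc X₀ N', 1 / (X : ℝ) ^ 2 * D1 ζ X ≤ εD * Real.log N' := by
    intro ζ hb
    rw [hD1]
    exact hζ ζ hb
  obtain ⟨DX, hDX⟩ : ∃ DX : ℕ → ℝ, DX = fun X => (D1 ζ₁ X + D1 ζ₂ X) + (D1 ζ₃ X + D1 ζ₄ X) :=
    ⟨_, rfl⟩
  have hDX0 : ∀ X, 0 ≤ DX X := by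
    intro X
    rw [hDX, hD1]
    simp only
    exact add_nonneg (add_nonneg (sum_nonneg fun _ _ => abs_nonneg _)
      (sum_nonneg fun _ _ => abs_nonneg _)) (add_nonneg (sum_nonneg fun _ _ => abs_nonneg _)
      (sum_nonneg fun _ _ => abs_nonneg _))
  have hDXs : ∑ X ∈ Ioc X₀ N', 1 / (X : ℝ) ^ 2 * DX X ≤ 4 * (εD * Real.log N') := by
    have a1 := hD1s ζ₁ (fun p T y => (hζb p T y).1)
    have a2 := hD1s ζ₂ (fun p T y => (hζb p T y).2)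
    have a3 := hD1s ζ₃ (fun p T y => (hζb' p T y).1)
    have a4 := hD1s ζ₄ (fun p T y => (hζb' p T y).2)
    rw [hDX]
    simp only [mul_add, sum_add_distrib]
    linarith
  obtain ⟨Θ, hΘ⟩ : ∃ Θ : ℝ, Θ = ∑ p ∈ PQ Q, Real.log p := ⟨_, rfl⟩
  have hΘ0 : 0 ≤ Θ := by
    rw [hΘ]
    exact sum_nonneg fun p hp => log_nonneg_PQ hp
  have hΘC : Θ ≤ |C| * Q := by
    have h1 := (hQc Q (by omega)).2.2.2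
    rw [← hΘ] at h1
    exact h1.trans (mul_le_mul_of_nonneg_right (le_abs_self C) (by positivity))
  -- large X
  have hlarge : ∀ X : ℕ, X₁ < X → |‖SX Q X‖| ≤
      2 * Q * DX X + (4 * εB * Q + (4 * εL + 2 * εL) * Θ) * X := by
    intro X hX
    obtain ⟨b1, b2, b2', b3⟩ := hX₁' Q hQ1 hQ2
    have hXR : (X₁ : ℝ) ≤ X := by exact_mod_cast hX.le
    have h := per_X3 perxA hN h1 h2 (K := K) (κ := κ) (Q := Q) (s := s) (s₁ := s₁) (s₂ := s₂)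
      (s₃ := s₃) (s₄ := s₄) (X := (X : ℝ)) (ε₃ := εB) (ε' := εL) (ε'' := εL) hss1 hss3 hK hκ hQpos
      (b3.trans hXR) (hm X) hτ T (fun p => (πr p).1) (fun p => (πr p).2)
      (fun p hp => hπr p (PQ_mem hp).2.2.1 (PQ_mem hp).2.2.2) ζ₁ ζ₂ ζ₃ ζ₄
      (fun e he p hpm => hζi _ X (b3.trans hXR) e he p hpm)
      (fun e he p hpm => hζi' _ X (b3.trans hXR) e he p hpm)
      (fun α a1 a2 => (hXB' Q hQ1 X (b2.trans hXR) α a1 a2).1)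
      (fun α a1 a2 => (hXB' Q hQ1 X (b2.trans hXR) α a1 a2).2) hεL0.le hεL0.le
      (hXL' Q hQ1 X (b1.trans hXR)) (hXT' Q X (b2'.trans hXR))
    rw [abs_of_nonneg (norm_nonneg _), hSX]
    refine h.trans (le_of_eq ?_)
    rw [← hΘ, hDX, hD1]
    simp only [sum_add_distrib]
    ring
  have hsum := sum_split (fun X => ‖SX Q X‖) DX (fun X => ∑ Q ∈ Icc Q₁ Q₂, ‖SX Q X‖)
    (X₀ := X₀) (X₁ := X₁) (N := N') (a := 2 * Q) (b := 4 * εB * Q + (4 * εL + 2 * εL) * Θ)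
    (Λ := 4 * (εD * Real.log N'))
    (fun X => by
      rw [abs_of_nonneg (norm_nonneg _)]
      exact single_le_sum (f := fun Q => ‖SX Q X‖) (fun _ _ => norm_nonneg _)
        (mem_Icc.2 ⟨hQ1, hQ2⟩))
    hlarge hDX0 (by positivity) (by positivity) (by rw [hX₁]; exact Nat.le_add_right _ _) hDXs
  rw [← hM] at hsum
  have hgoal : ∑ X ∈ Icc 1 N', 1 / (X : ℝ) ^ 2 * ‖∑ p ∈ PQ Q,
      ((Real.log p * ((p : ℝ) + 1) : ℝ) : ℂ) * T ((X : ℝ) / p)‖ =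
      ∑ X ∈ Icc 1 N', 1 / (X : ℝ) ^ 2 * ‖SX Q X‖ := by rw [hSX]
  rw [hgoal]
  refine (le_abs_self _).trans (hsum.trans ?_)
  have hQl : 0 ≤ (Q : ℝ) * Real.log N' := by positivity
  have c3 : εL * |C| ≤ ε / 96 := by
    have := abs_nonneg C
    rw [hεL, div_mul_eq_mul_div, div_le_div_iff₀ (by positivity) (by norm_num)]
    nlinarith
  have b1 : 2 * (Q : ℝ) * (4 * (εD * Real.log N')) = ε / 4 * (Q * Real.log N') := by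
    rw [hεD]; ring
  have b2 : 4 * εB * Q + (4 * εL + 2 * εL) * Θ ≤ ε / 8 * Q := by
    have h2 : εL * Θ ≤ εL * (|C| * Q) := mul_le_mul_of_nonneg_left hΘC hεL0.le
    have h3 := mul_le_mul_of_nonneg_right c3 (by positivity : (0 : ℝ) ≤ Q)
    have h4 : 4 * εB * Q = ε / 16 * Q := by rw [hεB]; ring
    have h5 : εL * (|C| * Q) = εL * |C| * Q := by ring
    rw [h4]
    linarith
  have b3 : (4 * εB * Q + (4 * εL + 2 * εL) * Θ) * (1 + Real.log N') ≤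
      ε / 4 * (Q * Real.log N') := by
    calc (4 * εB * Q + (4 * εL + 2 * εL) * Θ) * (1 + Real.log N') ≤
        ε / 8 * Q * (2 * Real.log N') :=
          mul_le_mul b2 (by linarith) (by linarith) (by positivity)
      _ = ε / 4 * (Q * Real.log N') := by ring
  have b4 : M ≤ ε / 4 * (Q * Real.log N') := by
    refine hMlog.trans (mul_le_mul_of_nonneg_left ?_ (by positivity))
    exact le_mul_of_one_le_left (by linarith) hQR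
  have b5 : 0 ≤ ε * (Q * Real.log N') := by positivity
  have b6 : ε * Q * Real.log N' = ε * (Q * Real.log N') := by ring
  linarith

end Pool.Agent.T2H34
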