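import Pool.Agent.T2H34.DhLoss
import Pool.Agent.T2H34.DhBt
import Pool.Agent.T2H34.Ent2

/-!
Pairs of determinant `ℓ`, congruent modulo `ℓ`: the averaging over the primes.
-/

set_option autoImplicit false

namespace Pool.Agent.T2H34.Dh

open Finset Filter
open Pool.Agent.W78.GA (Qd nm prim dt ip lat ball pball edge nm_mul prim_ne_zero)
open Pool.Agent.W78.EC (Gi cone cw PQ th good InG TT res av Tr)
open Pool.Agent.W251.EX (Mrs Apd S_PERX)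
open Pool.Agent.W78.EC.Fx
open Pool.Agent.W540.EC
open Pool.Agent.W214.EX (Vs wF norm_Vs S3 S3_congr S3_add S3_mul S3_real)
open Pool.Agent.T2H34 (wF_V wF_le normV zero_memV)

/-- labels -/
abbrev Lh (N ℓ : ℕ) : Type := ↥(Vs N) × ↥(Vs N) × (ZMod ℓ × ZMod ℓ)

/-- the labelling -/
noncomputable def lbh {N : ℕ} (ℓ : ℕ) {F₁ F₂ : Gi → ℂ} (h1 : ∀ z, F₁ z ∈ Vs N)
    (h2 : ∀ z, F₂ z ∈ Vs N) (s₁ s₂ s₃ s₄ X : ℝ) (z : Gi) : Lh N ℓ :=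
  (⟨wF F₁ s₁ s₂ X z, wF_V h1 _ _ _ _⟩, ⟨wF F₂ s₃ s₄ X z, wF_V h2 _ _ _ _⟩, rcl ℓ z)

/-- functions of the labels -/
noncomputable def d1h {N ℓ : ℕ} (β : ZMod ℓ × ZMod ℓ) (x : Lh N ℓ) : ℂ :=
  if x.2.2 = β then (x.1 : ℂ) else 0

noncomputable def d2h {N ℓ : ℕ} (β : ZMod ℓ × ZMod ℓ) (x : Lh N ℓ) : ℂ :=
  if x.2.2 = β then (x.2.1 : ℂ) else 0

/-- the function of the pair -/
noncomputable def Gh (ℓ : ℕ) (F₁ F₂ : Gi → ℂ) (s₁ s₂ s₃ s₄ X : ℝ) (v w : Gi) : ℂ :=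
  if rcl ℓ v = rcl ℓ w then wF F₁ s₁ s₂ X v * wF F₂ s₃ s₄ X w else 0

open scoped Classical in
/-- the sum over the pairs -/
noncomputable def Th (ℓ : ℕ) (F₁ F₂ : Gi → ℂ) (s₁ s₂ s₃ s₄ x : ℝ) : ℂ :=
  ∑ e ∈ (dedgeh ℓ x).filter (fun e => 0 < ip e.1 e.2), Gh ℓ F₁ F₂ s₁ s₂ s₃ s₄ x e.1 e.2

theorem Gh_le {N : ℕ} (hN : 1 ≤ N) (ℓ : ℕ) {F₁ F₂ : Gi → ℂ} (h1 : ∀ z, F₁ z ∈ Vs N)
    (h2 : ∀ z, F₂ z ∈ Vs N) (s₁ s₂ s₃ s₄ X : ℝ) (v w : Gi) :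
    ‖Gh ℓ F₁ F₂ s₁ s₂ s₃ s₄ X v w‖ ≤ 1 := by
  unfold Gh
  split_ifs
  · rw [norm_mul]
    exact mul_le_one₀ (wF_le hN h1 _ _ _ _) (norm_nonneg _) (wF_le hN h2 _ _ _ _)
  · rw [norm_zero]
    exact zero_le_one

theorem sum_beta {N : ℕ} (ℓ : ℕ) [NeZero ℓ] {F₁ F₂ : Gi → ℂ} (h1 : ∀ z, F₁ z ∈ Vs N)
    (h2 : ∀ z, F₂ z ∈ Vs N) (s₁ s₂ s₃ s₄ X : ℝ) (v w : Gi) :
    ∑ β : ZMod ℓ × ZMod ℓ, d1h β (lbh ℓ h1 h2 s₁ s₂ s₃ s₄ X v) *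
      d2h β (lbh ℓ h1 h2 s₁ s₂ s₃ s₄ X w) = Gh ℓ F₁ F₂ s₁ s₂ s₃ s₄ X v w := by
  unfold d1h d2h lbh Gh
  simp only
  by_cases h : rcl ℓ v = rcl ℓ w
  · rw [if_pos h]
    rw [sum_eq_single (rcl ℓ v)]
    · rw [if_pos rfl, if_pos h.symm]
    · intro β _ hβ
      rw [if_neg hβ.symm, zero_mul]
    · intro h'
      exact absurd (mem_univ _) h'
  · rw [if_neg h]
    refine sum_eq_zero fun β _ => ?_
    by_cases h3 : rcl ℓ v = β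
    · have h4 : ¬ rcl ℓ w = β := fun h4 => h (h3.trans h4.symm)
      rw [if_neg h4, mul_zero]
    · rw [if_neg h3, zero_mul]

/-- the part in a residue class -/
noncomputable def clz (ℓ : ℕ) (β : ZMod ℓ × ZMod ℓ) (A : Gi → ℝ) (z : Gi) : ℝ :=
  if rcl ℓ z = β then A z else 0

theorem clz_eq (ℓ : ℕ) [NeZero ℓ] (β : ZMod ℓ × ZMod ℓ) (A : Gi → ℝ) :
    clz ℓ β A = Pool.Agent.W251.EX.cl ℓ ⟨(β.1.val : ℤ), (β.2.val : ℤ)⟩ A := by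
  funext z
  unfold clz Pool.Agent.W251.EX.cl
  have e : rcl ℓ z = β ↔ (ℓ : ℤ) ∣ z.re - (β.1.val : ℤ) ∧ (ℓ : ℤ) ∣ z.im - (β.2.val : ℤ) := by
    unfold rcl
    have h1 : ((β.1.val : ℤ) : ZMod ℓ) = β.1 := by simp
    have h2 : ((β.2.val : ℤ) : ZMod ℓ) = β.2 := by simp
    rw [Prod.ext_iff]
    simp only
    rw [← ZMod.intCast_eq_intCast_iff_dvd_sub, ← ZMod.intCast_eq_intCast_iff_dvd_sub, h1, h2]
    exact and_congr eq_comm eq_comm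
  by_cases h : rcl ℓ z = β
  · rw [if_pos h, if_pos (e.1 h)]
  · rw [if_neg h, if_neg (fun h' => h (e.2 h'))]

/-- the bilinear estimate on the residue classes -/
theorem bt_clz {ℓ : ℕ} [NeZero ℓ] {A : Gi → ℝ} (hA : ∀ z, |A z| ≤ 1) (h : Mrs A)
    (β : ZMod ℓ × ZMod ℓ) : Bth ℓ (clz ℓ β A) := by
  have hℓ : 1 ≤ ℓ := Nat.one_le_iff_ne_zero.2 (NeZero.ne ℓ)
  refine bth hℓ ?_ ?_ ?_
  · intro z
    unfold clz
    split_ifs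
    · exact hA z
    · simp
  · rw [clz_eq]
    exact Pool.Agent.W251.EX.mrs_cl h hℓ _
  · intro z w hz hw
    have h1 : rcl ℓ z = β := by
      by_contra hcon
      apply hz
      unfold clz
      rw [if_neg hcon]
    have h2 : rcl ℓ w = β := by
      by_contra hcon
      apply hw
      unfold clz
      rw [if_neg hcon]
    obtain ⟨⟨a, ha⟩, ⟨b, hb⟩⟩ := rcl_eq.1 (h1.trans h2.symm)
    refine ⟨z.re * b - z.im * a, ?_⟩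
    unfold dt
    linear_combination z.re * hb - z.im * ha

/-- the bilinear term -/
theorem bilh {N : ℕ} (hN : 1 ≤ N) {ℓ : ℕ} {F₁ F₂ : Gi → ℂ} (h1 : ∀ z, F₁ z ∈ Vs N)
    (h2 : ∀ z, F₂ z ∈ Vs N) (β : ZMod ℓ × ZMod ℓ) {K : ℕ} {κ : ℝ} {Q : ℕ}
    {s₁ s₂ s₃ s₄ X ε₃ : ℝ}
    (hBr : ∀ α : Gi → ℝ, (∀ z, |α z| ≤ 1) →
      |∑ e ∈ good K κ Q X, ∑ v ∈ cone X e.1 e.2, ∑ w ∈ cw X s₃ s₄ e.1 e.2,
        α v * clz ℓ β (fun z => (F₂ z).re) w * thh ℓ Q (dt v w)| ≤ ε₃)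
    (hBi : ∀ α : Gi → ℝ, (∀ z, |α z| ≤ 1) →
      |∑ e ∈ good K κ Q X, ∑ v ∈ cone X e.1 e.2, ∑ w ∈ cw X s₃ s₄ e.1 e.2,
        α v * clz ℓ β (fun z => (F₂ z).im) w * thh ℓ Q (dt v w)| ≤ ε₃) :
    ‖∑ e ∈ good K κ Q X, ∑ v ∈ cone X e.1 e.2, ∑ w ∈ cone X e.1 e.2,
      d1h β (lbh ℓ h1 h2 s₁ s₂ s₃ s₄ X v) * d2h β (lbh ℓ h1 h2 s₁ s₂ s₃ s₄ X w) *
        (thh ℓ Q (dt v w) : ℂ)‖ ≤ 4 * ε₃ := by
  classical
  obtain ⟨D, hD⟩ : ∃ D : Gi → ℂ, D = fun v => d1h β (lbh ℓ h1 h2 s₁ s₂ s₃ s₄ X v) := ⟨_, rfl⟩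
  have hDn : ∀ v, ‖D v‖ ≤ 1 := by
    intro v
    rw [hD]
    simp only
    unfold d1h
    split_ifs
    · exact norm_Vs hN _
    · rw [norm_zero]; exact zero_le_one
  obtain ⟨a, ha⟩ : ∃ a : Gi → ℝ, a = fun v => (D v).re := ⟨_, rfl⟩
  obtain ⟨b, hb⟩ : ∃ b : Gi → ℝ, b = fun v => (D v).im := ⟨_, rfl⟩
  have ha1 : ∀ v, |a v| ≤ 1 := fun v => by
    rw [ha]; exact (Complex.abs_re_le_norm _).trans (hDn v)
  have hb1 : ∀ v, |b v| ≤ 1 := fun v => by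
    rw [hb]; exact (Complex.abs_im_le_norm _).trans (hDn v)
  have hDab : ∀ v, D v = (a v : ℂ) + Complex.I * (b v : ℂ) := by
    intro v
    rw [ha, hb]
    simp only
    rw [mul_comm]
    exact (Complex.re_add_im _).symm
  obtain ⟨r, hr⟩ : ∃ r : Gi → ℝ, r = clz ℓ β (fun z => (F₂ z).re) := ⟨_, rfl⟩
  obtain ⟨i, hi⟩ : ∃ i : Gi → ℝ, i = clz ℓ β (fun z => (F₂ z).im) := ⟨_, rfl⟩
  rw [← hr] at hBr
  rw [← hi] at hBi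
  have hd2 : ∀ w, d2h β (lbh ℓ h1 h2 s₁ s₂ s₃ s₄ X w) =
      if s₃ * X < (nm w : ℝ) ∧ (nm w : ℝ) ≤ s₄ * X then (r w : ℂ) + Complex.I * (i w : ℂ)
        else 0 := by
    intro w
    have e0 : d2h β (lbh ℓ h1 h2 s₁ s₂ s₃ s₄ X w) =
        if rcl ℓ w = β then wF F₂ s₃ s₄ X w else 0 := rfl
    rw [e0]
    by_cases hw : s₃ * X < (nm w : ℝ) ∧ (nm w : ℝ) ≤ s₄ * X
    · rw [if_pos hw]
      have k1 : wF F₂ s₃ s₄ X w = F₂ w := by unfold wF; exact if_pos hw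
      rw [k1, hr, hi]
      unfold clz
      by_cases hc : rcl ℓ w = β
      · rw [if_pos hc, if_pos hc, if_pos hc]
        have k3 := Complex.re_add_im (F₂ w)
        linear_combination -k3
      · rw [if_neg hc, if_neg hc, if_neg hc]
        simp
    · rw [if_neg hw]
      have k1 : wF F₂ s₃ s₄ X w = 0 := by unfold wF; exact if_neg hw
      rw [k1]
      simp
  have hmain : ∑ e ∈ good K κ Q X, ∑ v ∈ cone X e.1 e.2, ∑ w ∈ cone X e.1 e.2,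
      d1h β (lbh ℓ h1 h2 s₁ s₂ s₃ s₄ X v) * d2h β (lbh ℓ h1 h2 s₁ s₂ s₃ s₄ X w) *
        (thh ℓ Q (dt v w) : ℂ) =
      S3 K κ Q X s₃ s₄ (fun v w => D v * ((r w : ℂ) + Complex.I * (i w : ℂ)) *
        (thh ℓ Q (dt v w) : ℂ)) := by
    unfold S3
    refine sum_congr rfl fun e _ => sum_congr rfl fun v _ => ?_
    unfold cw
    rw [sum_filter]
    refine sum_congr rfl fun w _ => ?_
    rw [hd2 w, hD]
    split_ifs with hw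
    · rfl
    · simp
  rw [hmain]
  have hexp : S3 K κ Q X s₃ s₄ (fun v w => D v * ((r w : ℂ) + Complex.I * (i w : ℂ)) *
        (thh ℓ Q (dt v w) : ℂ)) =
      ((S3 K κ Q X s₃ s₄ (fun v w => a v * r w * thh ℓ Q (dt v w)) : ℝ) : ℂ) +
      (((-1 : ℂ) * ((S3 K κ Q X s₃ s₄ (fun v w => b v * i w * thh ℓ Q (dt v w)) : ℝ) : ℂ)) +
      (Complex.I * ((S3 K κ Q X s₃ s₄ (fun v w => a v * i w * thh ℓ Q (dt v w)) : ℝ) : ℂ) +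
      Complex.I * ((S3 K κ Q X s₃ s₄ (fun v w => b v * r w * thh ℓ Q (dt v w)) : ℝ) : ℂ))) := by
    rw [← S3_real, ← S3_real, ← S3_real, ← S3_real, ← S3_mul, ← S3_mul, ← S3_mul, ← S3_add,
      ← S3_add, ← S3_add]
    refine S3_congr fun v w => ?_
    rw [hDab v]
    push_cast
    linear_combination ((b v : ℂ) * (i w : ℂ) * (thh ℓ Q (dt v w) : ℂ)) * Complex.I_sq
  rw [hexp]
  have k1 : ‖((S3 K κ Q X s₃ s₄ (fun v w => a v * r w * thh ℓ Q (dt v w)) : ℝ) : ℂ)‖ ≤ ε₃ := by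
    rw [Complex.norm_real]; exact hBr a ha1
  have k2 : ‖(-1 : ℂ) * ((S3 K κ Q X s₃ s₄ (fun v w => b v * i w * thh ℓ Q (dt v w)) : ℝ) : ℂ)‖ ≤
      ε₃ := by
    rw [norm_mul, norm_neg, norm_one, one_mul, Complex.norm_real]; exact hBi b hb1
  have k3 : ‖Complex.I * ((S3 K κ Q X s₃ s₄ (fun v w => a v * i w * thh ℓ Q (dt v w)) : ℝ) : ℂ)‖ ≤
      ε₃ := by
    rw [norm_mul, Complex.norm_I, one_mul, Complex.norm_real]; exact hBi a ha1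
  have k4 : ‖Complex.I * ((S3 K κ Q X s₃ s₄ (fun v w => b v * r w * thh ℓ Q (dt v w)) : ℝ) : ℂ)‖ ≤
      ε₃ := by
    rw [norm_mul, Complex.norm_I, one_mul, Complex.norm_real]; exact hBr b hb1
  calc _ ≤ _ := norm_add_le _ _
    _ ≤ ε₃ + (ε₃ + (ε₃ + ε₃)) := add_le_add k1 ((norm_add_le _ _).trans (add_le_add k2
        ((norm_add_le _ _).trans (add_le_add k3 k4))))
    _ = 4 * ε₃ := by ring

/-- dilation preserves the congruence -/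
theorem rcl_dil {ℓ p : ℕ} (hp : Nat.Coprime p ℓ) {π : Gi} (hπ : nm π = p) (v w : Gi) :
    rcl ℓ (π * v) = rcl ℓ (π * w) ↔ rcl ℓ v = rcl ℓ w := by
  rw [rcl_eq, rcl_eq]
  have hn : (p : ℤ) = π.re ^ 2 + π.im ^ 2 := by
    rw [← hπ, Pool.Agent.W714.EC.nmZ]
  simp only [QuadraticAlgebra.re_mul, QuadraticAlgebra.im_mul]
  constructor
  · rintro ⟨h1, h2⟩
    have hc : IsCoprime (ℓ : ℤ) (p : ℤ) := Nat.isCoprime_iff_coprime.2 hp.symm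
    constructor
    · apply hc.dvd_of_dvd_mul_left
      have := dvd_add (h1.mul_left π.re) (h2.mul_left π.im)
      refine this.trans (dvd_of_eq ?_)
      rw [hn]
      ring
    · apply hc.dvd_of_dvd_mul_left
      have := dvd_sub (h2.mul_left π.re) (h1.mul_left π.im)
      refine this.trans (dvd_of_eq ?_)
      rw [hn]
      ring
  · rintro ⟨h1, h2⟩
    constructor
    · have := dvd_sub (h1.mul_left π.re) (h2.mul_left π.im)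
      refine this.trans (dvd_of_eq ?_)
      ring
    · have := dvd_add (h2.mul_left π.re) (h1.mul_left π.im)
      refine this.trans (dvd_of_eq ?_)
      ring

theorem Gh_dil {ℓ p : ℕ} (hp : Nat.Coprime p ℓ) (hp0 : 0 < p) {π : Gi} (hπ : nm π = p)
    {F₁ F₂ : Gi → ℂ} {τ₁ τ₂ : ℂ} (hm1 : ∀ z, z ≠ 0 → F₁ (π * z) = τ₁ * F₁ z)
    (hm2 : ∀ z, z ≠ 0 → F₂ (π * z) = τ₂ * F₂ z) (s₁ s₂ s₃ s₄ X : ℝ) {v w : Gi} (hv : v ≠ 0)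
    (hw : w ≠ 0) : Gh ℓ F₁ F₂ s₁ s₂ s₃ s₄ X (π * v) (π * w) =
      τ₁ * τ₂ * Gh ℓ F₁ F₂ s₁ s₂ s₃ s₄ (X / p) v w := by
  have hpR : (0 : ℝ) < p := by exact_mod_cast hp0
  have hnm : ∀ z : Gi, (nm (π * z) : ℝ) = p * nm z := by
    intro z
    rw [nm_mul, hπ]
    push_cast
    ring
  have hwin : ∀ (t t' : ℝ) (z : Gi), (t * X < (nm (π * z) : ℝ) ∧ (nm (π * z) : ℝ) ≤ t' * X) ↔
      (t * (X / p) < (nm z : ℝ) ∧ (nm z : ℝ) ≤ t' * (X / p)) := by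
    intro t t' z
    rw [hnm, ← mul_div_assoc, ← mul_div_assoc, div_lt_iff₀ hpR, le_div_iff₀ hpR,
      mul_comm (p : ℝ)]
  unfold Gh wF
  simp only [rcl_dil hp hπ, hwin, hm1 v hv, hm2 w hw]
  split_ifs <;> ring

open scoped Classical in
/-- the estimate for fixed `X` -/
theorem per_Xh {N : ℕ} (hN : 1 ≤ N) {ℓ : ℕ} [NeZero ℓ] {F₁ F₂ : Gi → ℂ} (h1 : ∀ z, F₁ z ∈ Vs N)
    (h2 : ∀ z, F₂ z ∈ Vs N) {K : ℕ} {κ : ℝ} {Q : ℕ}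
    {s s₁ s₂ s₃ s₄ X ε₃ ε' : ℝ} (hs1 : s ≤ s₁) (hs3 : s ≤ s₃)
    (hK : 1 ≤ K) (hQ : 1 ≤ Q) (hQℓ : ℓ ≤ Q) (hX : 2 * (K * Q : ℝ) ≤ X)
    {τ₁ τ₂ : ℂ} (ht1 : ‖τ₁‖ = 1) (ht2 : ‖τ₂‖ = 1)
    (hm1 : ∀ π z : Gi, (nm π).Prime → z ≠ 0 → F₁ (π * z) = τ₁ * F₁ z)
    (hm2 : ∀ π z : Gi, (nm π).Prime → z ≠ 0 → F₂ (π * z) = τ₂ * F₂ z)
    (ϖ : ℕ → Gi) (rr : ℕ → ℤ) (hϖ : ∀ p ∈ PQ Q, nm (ϖ p) = p ∧ lat p (rr p) (ϖ p) ∧
      (p : ℤ) ∣ rr p ^ 2 + 1)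
    (ζ₁ ζ₂ : ZMod ℓ × ZMod ℓ → ℕ → Tr (Lh N ℓ) → ℕ × ℕ × ℕ × ℕ → ℝ)
    (hζ : ∀ β, ∀ e ∈ good K κ Q X, ∀ p ∈ PQ Q,
      (((ζ₁ β p (TT (lbh ℓ h1 h2 s₁ s₂ s₃ s₄ X) X e) (res p e) : ℝ) : ℂ) +
        Complex.I * ((ζ₂ β p (TT (lbh ℓ h1 h2 s₁ s₂ s₃ s₄ X) X e) (res p e) : ℝ) : ℂ) =
      (((p : ℝ) + 1) / (2 * Q) : ℝ) * ∑ z ∈ cone X e.1 e.2, ∑ w ∈ cone X e.1 e.2,
        (if dt z w = (ℓ : ℤ) * p ∧ lat p (rr p) z then d1h β (lbh ℓ h1 h2 s₁ s₂ s₃ s₄ X z) *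
          d2h β (lbh ℓ h1 h2 s₁ s₂ s₃ s₄ X w) else 0)) ∧
      (((av p (ζ₁ β p) (TT (lbh ℓ h1 h2 s₁ s₂ s₃ s₄ X) X e) : ℝ) : ℂ) +
        Complex.I * ((av p (ζ₂ β p) (TT (lbh ℓ h1 h2 s₁ s₂ s₃ s₄ X) X e) : ℝ) : ℂ) =
      (1 / (2 * (Q : ℝ)) : ℝ) * ∑ z ∈ cone X e.1 e.2, ∑ w ∈ cone X e.1 e.2,
        (if dt z w = (ℓ : ℤ) * p then d1h β (lbh ℓ h1 h2 s₁ s₂ s₃ s₄ X z) *
          d2h β (lbh ℓ h1 h2 s₁ s₂ s₃ s₄ X w) else 0)))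
    (hB : ∀ β, ∀ α : Gi → ℝ, (∀ z, |α z| ≤ 1) →
      |∑ e ∈ good K κ Q X, ∑ v ∈ cone X e.1 e.2, ∑ w ∈ cw X s₃ s₄ e.1 e.2,
        α v * clz ℓ β (fun z => (F₂ z).re) w * thh ℓ Q (dt v w)| ≤ ε₃ * X * Q ∧
      |∑ e ∈ good K κ Q X, ∑ v ∈ cone X e.1 e.2, ∑ w ∈ cw X s₃ s₄ e.1 e.2,
        α v * clz ℓ β (fun z => (F₂ z).im) w * thh ℓ Q (dt v w)| ≤ ε₃ * X * Q)
    (hε' : 0 ≤ ε')
    (hL : ∀ p ∈ PQ Q, ∀ π : Gi, nm π = p →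
      (((dedgeh ℓ (X / p)).filter (fun e => rcl ℓ e.1 = rcl ℓ e.2 ∧ 0 < ip e.1 e.2 ∧
        s * (X / p) < (nm e.1 : ℝ) ∧ s * (X / p) < (nm e.2 : ℝ) ∧
        ¬ InG K κ Q X π e)).card : ℝ) ≤ ε' * (X / p)) :
    ‖∑ p ∈ PQ Q, ((Real.log p * ((p : ℝ) + 1) : ℝ) : ℂ) * Th ℓ F₁ F₂ s₁ s₂ s₃ s₄ (X / p)‖ ≤
      2 * Q * (∑ β : ZMod ℓ × ZMod ℓ, ∑ e ∈ edge 0 1 (X / (K * Q)),
        (|∑ p ∈ PQ Q, Real.log p * (ζ₁ β p (TT (lbh ℓ h1 h2 s₁ s₂ s₃ s₄ X) X e) (res p e) -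
          av p (ζ₁ β p) (TT (lbh ℓ h1 h2 s₁ s₂ s₃ s₄ X) X e))| +
        |∑ p ∈ PQ Q, Real.log p * (ζ₂ β p (TT (lbh ℓ h1 h2 s₁ s₂ s₃ s₄ X) X e) (res p e) -
          av p (ζ₂ β p) (TT (lbh ℓ h1 h2 s₁ s₂ s₃ s₄ X) X e))|)) +
      ((ℓ : ℝ) ^ 2 * (4 * (ε₃ * X * Q)) + 2 * ε' * X * ∑ p ∈ PQ Q, Real.log p) := by
  have hℓ : 1 ≤ ℓ := Nat.one_le_iff_ne_zero.2 (NeZero.ne ℓ)
  have hKQ : (0 : ℝ) < K * Q := by
    have h1 : (1 : ℝ) ≤ K := by exact_mod_cast hK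
    have h2 : (1 : ℝ) ≤ Q := by exact_mod_cast hQ
    positivity
  have hX0 : 0 ≤ X := le_trans (by positivity) hX
  obtain ⟨lab, hlab⟩ : ∃ lab : Gi → Lh N ℓ, lab = lbh ℓ h1 h2 s₁ s₂ s₃ s₄ X := ⟨_, rfl⟩
  have hbil := fun β => bilh hN h1 h2 β (K := K) (κ := κ) (Q := Q) (s₁ := s₁) (s₂ := s₂)
    (s₃ := s₃) (s₄ := s₄) (X := X) (fun α ha => (hB β α ha).1) (fun α ha => (hB β α ha).2)
  have hG : ∀ v w, Gh ℓ F₁ F₂ s₁ s₂ s₃ s₄ X v w = ∑ β : ZMod ℓ × ZMod ℓ, d1h β (lab v) *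
      d2h β (lab w) := fun v w => by rw [hlab]; exact (sum_beta ℓ h1 h2 _ _ _ _ _ v w).symm
  rw [← hlab] at hζ hbil ⊢
  have hper := fun β => perxh hℓ K κ Q X (Lh N ℓ) (d1h β) (d2h β) lab ϖ rr (ζ₁ β) (ζ₂ β) hQ hϖ
    (hζ β)
  obtain ⟨S, hS⟩ : ∃ S : ℕ → ℂ, S = fun (p : ℕ) =>
      ∑ e ∈ (dedgeh ℓ (X / p)).filter (InG K κ Q X (ϖ p)),
        Gh ℓ F₁ F₂ s₁ s₂ s₃ s₄ X (ϖ p * e.1) (ϖ p * e.2) := ⟨_, rfl⟩
  have hcardβ : ((univ : Finset (ZMod ℓ × ZMod ℓ)).card : ℝ) = (ℓ : ℝ) ^ 2 := by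
    rw [card_univ, Fintype.card_prod, ZMod.card]
    push_cast
    ring
  have hc1 : ‖∑ p ∈ PQ Q, ((Real.log p * ((p : ℝ) + 1) : ℝ) : ℂ) * S p‖ ≤
      2 * Q * (∑ β : ZMod ℓ × ZMod ℓ, ∑ e ∈ edge 0 1 (X / (K * Q)),
      (|∑ p ∈ PQ Q, Real.log p * (ζ₁ β p (TT lab X e) (res p e) - av p (ζ₁ β p) (TT lab X e))| +
        |∑ p ∈ PQ Q, Real.log p * (ζ₂ β p (TT lab X e) (res p e) -
          av p (ζ₂ β p) (TT lab X e))|)) + (ℓ : ℝ) ^ 2 * (4 * (ε₃ * X * Q)) := by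
    have e1 : ∑ p ∈ PQ Q, ((Real.log p * ((p : ℝ) + 1) : ℝ) : ℂ) * S p =
        ∑ β : ZMod ℓ × ZMod ℓ, ∑ p ∈ PQ Q, ((Real.log p * ((p : ℝ) + 1) : ℝ) : ℂ) *
          ∑ e ∈ (dedgeh ℓ (X / p)).filter (InG K κ Q X (ϖ p)),
            d1h β (lab (ϖ p * e.1)) * d2h β (lab (ϖ p * e.2)) := by
      rw [hS, sum_comm]
      refine sum_congr rfl fun p _ => ?_
      rw [← mul_sum, sum_comm]
      congr 1
      refine sum_congr rfl fun e _ => ?_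
      rw [hG]
    rw [e1]
    refine (norm_sum_le _ _).trans ?_
    refine (sum_le_sum fun β _ => (hper β).trans (add_le_add le_rfl (hbil β))).trans ?_
    rw [sum_add_distrib, ← mul_sum, sum_const, nsmul_eq_mul, hcardβ]
  -- the loss
  obtain ⟨τ, hτd⟩ : ∃ τ : ℂ, τ = τ₁ * τ₂ := ⟨_, rfl⟩
  have hτ : ‖τ‖ = 1 := by rw [hτd, norm_mul, ht1, ht2, one_mul]
  have hloss : ‖∑ p ∈ PQ Q, ((Real.log p * ((p : ℝ) + 1) : ℝ) : ℂ) *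
      (τ * Th ℓ F₁ F₂ s₁ s₂ s₃ s₄ (X / p) - S p)‖ ≤ 2 * ε' * X * ∑ p ∈ PQ Q, Real.log p := by
    rw [mul_sum]
    refine (norm_sum_le _ _).trans (sum_le_sum fun p hpm => ?_)
    have hpp := (PQ_mem hpm).2.2.1
    have hp0 : (0 : ℝ) < p := by exact_mod_cast hpp.pos
    have hp1 : (1 : ℝ) ≤ p := by exact_mod_cast hpp.one_lt.le
    have hXp : 0 ≤ X / p := by positivity
    have hpℓ : Nat.Coprime p ℓ := by
      rw [hpp.coprime_iff_not_dvd]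
      intro hd
      have := Nat.le_of_dvd (by omega) hd
      have := (PQ_mem hpm).1
      omega
    have hπp : (nm (ϖ p)).Prime := by rw [(hϖ p hpm).1]; exact hpp
    have hdil : ∀ e ∈ dedgeh ℓ (X / p), Gh ℓ F₁ F₂ s₁ s₂ s₃ s₄ X (ϖ p * e.1) (ϖ p * e.2) =
        τ * Gh ℓ F₁ F₂ s₁ s₂ s₃ s₄ (X / p) e.1 e.2 := by
      intro e he
      rw [mem_dedgeh] at he
      rw [hτd]
      exact Gh_dil hpℓ hpp.pos (hϖ p hpm).1 (fun z hz => hm1 _ z hπp hz)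
        (fun z hz => hm2 _ z hπp hz) _ _ _ _ _ (prim_ne_zero he.1.1) (prim_ne_zero he.2.1.1)
    have hSp : S p = τ * ∑ e ∈ (dedgeh ℓ (X / p)).filter (InG K κ Q X (ϖ p)),
        Gh ℓ F₁ F₂ s₁ s₂ s₃ s₄ (X / p) e.1 e.2 := by
      rw [hS, mul_sum]
      refine sum_congr rfl fun e he => ?_
      exact hdil e (mem_filter.1 he).1
    have a2 : ‖Th ℓ F₁ F₂ s₁ s₂ s₃ s₄ (X / p) -
        ∑ e ∈ (dedgeh ℓ (X / p)).filter (InG K κ Q X (ϖ p)),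
          Gh ℓ F₁ F₂ s₁ s₂ s₃ s₄ (X / p) e.1 e.2‖ ≤ ε' * (X / p) := by
      unfold Th
      by_cases hne : ∃ e ∈ dedgeh ℓ (X / p), InG K κ Q X (ϖ p) e ∧ ¬ 0 < ip e.1 e.2 ∧
        Gh ℓ F₁ F₂ s₁ s₂ s₃ s₄ (X / p) e.1 e.2 ≠ 0
      · exfalso
        obtain ⟨e, he, hin, hip, -⟩ := hne
        exact hip (InG_ip hKQ hX hin)
      · have hII : (dedgeh ℓ (X / p)).filter (InG K κ Q X (ϖ p)) =
            ((dedgeh ℓ (X / p)).filter (fun e => 0 < ip e.1 e.2)).filter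
              (InG K κ Q X (ϖ p)) := by
          rw [filter_filter]
          exact filter_congr fun e _ => ⟨fun h => ⟨InG_ip hKQ hX h, h⟩, fun h => h.2⟩
        rw [hII, ← sum_filter_add_sum_filter_not ((dedgeh ℓ (X / p)).filter
          (fun e => 0 < ip e.1 e.2)) (InG K κ Q X (ϖ p)), add_sub_cancel_left]
        refine (norm_sum_le _ _).trans ?_
        have b1 : ∀ e ∈ ((dedgeh ℓ (X / p)).filter (fun e => 0 < ip e.1 e.2)).filter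
            (fun e => ¬ InG K κ Q X (ϖ p) e),
            ‖Gh ℓ F₁ F₂ s₁ s₂ s₃ s₄ (X / p) e.1 e.2‖ ≤
            if rcl ℓ e.1 = rcl ℓ e.2 ∧ s * (X / p) < (nm e.1 : ℝ) ∧
              s * (X / p) < (nm e.2 : ℝ) then (1 : ℝ) else 0 := by
          intro e _
          split_ifs with hc
          · exact Gh_le hN ℓ h1 h2 _ _ _ _ _ _ _
          · have hz : Gh ℓ F₁ F₂ s₁ s₂ s₃ s₄ (X / p) e.1 e.2 = 0 := by
              unfold Gh wF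
              by_cases c0 : rcl ℓ e.1 = rcl ℓ e.2
              · rw [if_pos c0]
                by_cases c1 : s₁ * (X / p) < (nm e.1 : ℝ) ∧ (nm e.1 : ℝ) ≤ s₂ * (X / p)
                · have c3 : ¬ (s₃ * (X / p) < (nm e.2 : ℝ) ∧ (nm e.2 : ℝ) ≤ s₄ * (X / p)) := by
                    intro c3
                    apply hc
                    have d1 : s * (X / p) ≤ s₁ * (X / p) := mul_le_mul_of_nonneg_right hs1 hXp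
                    have d2 : s * (X / p) ≤ s₃ * (X / p) := mul_le_mul_of_nonneg_right hs3 hXp
                    exact ⟨c0, lt_of_le_of_lt d1 c1.1, lt_of_le_of_lt d2 c3.1⟩
                  rw [if_neg c3, mul_zero]
                · rw [if_neg c1, zero_mul]
              · rw [if_neg c0]
            rw [hz, norm_zero]
        refine (sum_le_sum b1).trans ?_
        rw [sum_boole, filter_filter, filter_filter]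
        refine le_trans (le_of_eq ?_) (hL p hpm _ (hϖ p hpm).1)
        congr 2
        refine filter_congr fun e _ => ?_
        tauto
    have a3 : ‖τ * Th ℓ F₁ F₂ s₁ s₂ s₃ s₄ (X / p) - S p‖ ≤ ε' * (X / p) := by
      rw [hSp, ← mul_sub, norm_mul, hτ, one_mul]
      exact a2
    rw [norm_mul, Complex.norm_real, Real.norm_eq_abs,
      abs_of_nonneg (mul_nonneg (log_nonneg_PQ hpm) (by positivity))]
    calc Real.log p * ((p : ℝ) + 1) * ‖τ * Th ℓ F₁ F₂ s₁ s₂ s₃ s₄ (X / p) - S p‖ ≤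
          Real.log p * ((p : ℝ) + 1) * (ε' * (X / p)) :=
          mul_le_mul_of_nonneg_left a3 (mul_nonneg (log_nonneg_PQ hpm) (by positivity))
      _ = Real.log p * ε' * X * (((p : ℝ) + 1) / p) := by ring
      _ ≤ Real.log p * ε' * X * 2 := by
          refine mul_le_mul_of_nonneg_left ?_
            (mul_nonneg (mul_nonneg (log_nonneg_PQ hpm) hε') hX0)
          rw [div_le_iff₀ hp0]
          linarith
      _ = 2 * ε' * X * Real.log p := by ring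
  have hnorm : ‖∑ p ∈ PQ Q, ((Real.log p * ((p : ℝ) + 1) : ℝ) : ℂ) *
      Th ℓ F₁ F₂ s₁ s₂ s₃ s₄ (X / p)‖ =
      ‖τ * ∑ p ∈ PQ Q, ((Real.log p * ((p : ℝ) + 1) : ℝ) : ℂ) *
        Th ℓ F₁ F₂ s₁ s₂ s₃ s₄ (X / p)‖ := by
    rw [norm_mul, hτ, one_mul]
  have hdecomp : τ * ∑ p ∈ PQ Q, ((Real.log p * ((p : ℝ) + 1) : ℝ) : ℂ) *
      Th ℓ F₁ F₂ s₁ s₂ s₃ s₄ (X / p) =
      ∑ p ∈ PQ Q, ((Real.log p * ((p : ℝ) + 1) : ℝ) : ℂ) *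
        (τ * Th ℓ F₁ F₂ s₁ s₂ s₃ s₄ (X / p) - S p) +
      ∑ p ∈ PQ Q, ((Real.log p * ((p : ℝ) + 1) : ℝ) : ℂ) * S p := by
    rw [← sum_add_distrib, mul_sum]
    refine sum_congr rfl fun p _ => ?_
    ring
  rw [hnorm, hdecomp]
  refine (norm_add_le _ _).trans ?_
  linarith

end Pool.Agent.T2H34.Dh
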