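import Pool.Agent.T2H34.DhCor

/-!
Pairs `(x, y)` of determinant `1` with `0 ≤ ip x y < nm y ≤ X`; the vectors `x + t y`; cells.
-/

set_option autoImplicit false

namespace Pool.Agent.T2H34.Dh

open Finset Filter
open Pool.Agent.W78.GA (Qd nm prim dt ip lat ball pball edge dedge nm_mul prim_ne_zero nm_eq_zero
  mem_pball)
open Pool.Agent.W78.EC (Gi)
open Pool.Agent.W251.EX
open Pool.Agent.W214.EX (Vs wF norm_Vs)
open Pool.Agent.W714.EC (hD01 nmZ)
open Pool.Agent.W305.EC (prim_of_dt)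

/-! ### Real inequalities -/

lemma theta_bd {a c P h : ℝ} (ha : 0 < a) (hc : 0 < c) (hP : 0 < P) (hh : 0 < h)
    (e : P ^ 2 + h ^ 2 = (a * c) ^ 2) : 0 ≤ a * c - P ∧ a * c - P ≤ h := by
  have hac : 0 < a * c := mul_pos ha hc
  have h1 : P ≤ a * c := by
    by_contra hcon
    push Not at hcon
    nlinarith
  have h2 : h ≤ a * c := by
    by_contra hcon
    push Not at hcon
    nlinarith
  refine ⟨by linarith, ?_⟩
  by_contra hcon
  push Not at hcon
  nlinarith [mul_pos hh hh]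

/-- in the good cells -/
lemma realA {a c θ h t s H J i j r R X : ℝ} (hr : 0 < r) (hs : s = t + h)
    (hh : 1 ≤ h) (ht : 0 ≤ t) (hsH : s + 1 ≤ H) (hJ : 1 ≤ J) (hR : 0 ≤ R) (hRX : R ^ 2 = X)
    (hJr : J * r = H * R) (a1 : i * r < a) (a2 : a ≤ (i + 1) * r) (c1 : j * r < c)
    (c2 : c ≤ (j + 1) * r) (g2 : t * (j + 1) + 1 ≤ s * i)
    (g3 : (s + 1) * (i + 1) + 1 ≤ (t + 1) * j) (g1 : H * (j + 1) + 1 ≤ h * J + H * i)
    (hθ0 : 0 ≤ θ) (hθ : θ ≤ h) (hX1 : 2 * J ≤ X) (hX2 : J < R) :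
    (c - a) ^ 2 + 2 * θ ≤ h ^ 2 * X ∧
    0 < (c - a) * (s * a - t * c) - θ * (h + 2 * t) ∧
    (c - a) * (s * a - t * c) - θ * (h + 2 * t) < (c - a) ^ 2 + 2 * θ := by
  have hH : 0 < H := by linarith
  have hs0 : 1 ≤ s := by linarith
  have f1 : r ≤ s * a - t * c := by
    have k1 := mul_le_mul_of_nonneg_left a1.le (by linarith : 0 ≤ s)
    have k2 := mul_le_mul_of_nonneg_left c2 ht
    have k3 := mul_le_mul_of_nonneg_right g2 hr.le
    nlinarith
  have f2 : r ≤ (c - a) - (s * a - t * c) := by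
    have k1 := mul_le_mul_of_nonneg_left a2 (by linarith : 0 ≤ s + 1)
    have k2 := mul_le_mul_of_nonneg_left c1.le (by linarith : 0 ≤ t + 1)
    have k3 := mul_le_mul_of_nonneg_right g3 hr.le
    have e1 : (c - a) - (s * a - t * c) = (t + 1) * c - (s + 1) * a := by ring
    rw [e1]
    nlinarith
  have f3 : 2 * r ≤ c - a := by linarith
  have f4 : J * (c - a) ≤ h * J * R - R := by
    have k1 : c - a ≤ (j + 1 - i) * r := by nlinarith
    have k2 : H * (j + 1 - i) ≤ h * J - 1 := by linarith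
    have k3 : H * (J * (c - a)) ≤ H * (h * J * R - R) := by
      calc H * (J * (c - a)) = (H * J) * (c - a) := by ring
        _ ≤ (H * J) * ((j + 1 - i) * r) := mul_le_mul_of_nonneg_left k1 (by positivity)
        _ = (H * (j + 1 - i)) * (J * r) := by ring
        _ ≤ (h * J - 1) * (J * r) := mul_le_mul_of_nonneg_right k2 (by positivity)
        _ = H * (h * J * R - R) := by rw [hJr]; ring
    exact le_of_mul_le_mul_left k3 hH
  have hρ : 0 ≤ c - a := by linarith
  have hr2 : H < r := by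
    have : J * H < J * r := by rw [hJr]; nlinarith
    exact lt_of_mul_lt_mul_left this (by linarith)
  refine ⟨?_, ?_, ?_⟩
  · -- (J ρ)² ≤ (h J R - R)²
    have k0 : 0 ≤ J * (c - a) := by positivity
    have k1 : (J * (c - a)) ^ 2 ≤ (h * J * R - R) ^ 2 := pow_le_pow_left₀ k0 f4 2
    have k2 : (h * J * R - R) ^ 2 ≤ (h * J) ^ 2 * X - h * J * X := by
      rw [← hRX]
      have : 1 ≤ h * J := by nlinarith
      nlinarith [mul_nonneg (sq_nonneg R) (by linarith : 0 ≤ h * J - 1)]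
    have k3 : J ^ 2 * ((c - a) ^ 2 + 2 * θ) ≤ J ^ 2 * (h ^ 2 * X) := by
      have k4 : J ^ 2 * (2 * θ) ≤ h * J * X := by
        calc J ^ 2 * (2 * θ) ≤ J ^ 2 * (2 * h) := by gcongr
          _ = h * J * (2 * J) := by ring
          _ ≤ h * J * X := by gcongr
      nlinarith
    exact le_of_mul_le_mul_left k3 (by positivity)
  · have k1 : 2 * r * r ≤ (c - a) * (s * a - t * c) := mul_le_mul f3 f1 hr.le hρ
    have k2 : θ * (h + 2 * t) ≤ H * (2 * H) :=
      mul_le_mul (by linarith) (by linarith) (by linarith) hH.le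
    nlinarith
  · have k1 : 0 < (c - a) * ((c - a) - (s * a - t * c)) := mul_pos (by linarith) (by linarith)
    have k2 : 0 ≤ θ * (h + 2 * t) := mul_nonneg hθ0 (by linarith)
    nlinarith

/-- outside the good cells -/
lemma realB {a c θ h t s H J i j r R X A B D n : ℝ} (hr : 0 < r) (hs : s = t + h)
    (hh : 1 ≤ h) (ht : 0 ≤ t) (hsH : s + 1 ≤ H) (hJ : 2 * H ≤ J) (hR : 0 ≤ R) (hRX : R ^ 2 = X)
    (hJr : J * r = H * R) (a1 : i * r < a) (a2 : a ≤ (i + 1) * r) (c1 : j * r < c)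
    (c2 : c ≤ (j + 1) * r) (hac : a < c) (hH9 : 19 * H ^ 2 ≤ r ^ 2)
    (hbad : s * i ≤ t * (j + 1) ∨ (t + 1) * j ≤ (s + 1) * (i + 1) ∨ h * J + H * i ≤ H * (j + 1))
    (hθ0 : 0 ≤ θ) (hθ : θ ≤ h) (hD : 1 ≤ D) (hn0 : 0 ≤ n) (hnD : n < D)
    (eD : h ^ 2 * D = (c - a) ^ 2 + 2 * θ)
    (en : h ^ 2 * n = (c - a) * (s * a - t * c) - θ * (h + 2 * t))
    (eA : A * D = n ^ 2 + 1) (eB : B * D = (D - n) ^ 2 + 1) :
    (1 - 4 * H / J) * X < D ∨ A ≤ 9 * H ^ 2 * r ^ 2 ∨ B ≤ 9 * H ^ 2 * r ^ 2 := by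
  have hH : 2 ≤ H := by linarith
  have hJ0 : 0 < J := by linarith
  have hs0 : 1 ≤ s := by linarith
  have hρ : 0 < c - a := by linarith
  have hh2 : 1 ≤ h ^ 2 := one_le_pow₀ hh
  have hρD : (c - a) ^ 2 ≤ h ^ 2 * D := by linarith
  have hH4 : 1 ≤ H ^ 4 := one_le_pow₀ (by linarith)
  have hHr19 : 19 * H ^ 4 ≤ H ^ 2 * r ^ 2 := by
    have := mul_le_mul_of_nonneg_left hH9 (by positivity : 0 ≤ H ^ 2)
    calc 19 * H ^ 4 = H ^ 2 * (19 * H ^ 2) := by ring
      _ ≤ _ := this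
  have hHr : 1 ≤ H ^ 2 * r ^ 2 := by linarith
  rcases hbad with hb | hb | hb
  · -- `σ ≤ 2 H r`
    right; left
    have f1 : s * a - t * c ≤ 2 * H * r := by
      have k1 := mul_le_mul_of_nonneg_left a2 (by linarith : 0 ≤ s)
      have k2 := mul_le_mul_of_nonneg_left c1.le ht
      have k3 := mul_le_mul_of_nonneg_right hb hr.le
      nlinarith
    have f2 : h ^ 2 * n ≤ (c - a) * (2 * H * r) := by
      have k1 := mul_le_mul_of_nonneg_left f1 hρ.le
      have k2 : 0 ≤ θ * (h + 2 * t) := mul_nonneg hθ0 (by linarith)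
      linarith
    have f3 : (h ^ 2 * n) ^ 2 ≤ (h ^ 2 * D) * (4 * H ^ 2 * r ^ 2) := by
      calc (h ^ 2 * n) ^ 2 ≤ ((c - a) * (2 * H * r)) ^ 2 := pow_le_pow_left₀ (by positivity) f2 2
        _ = (c - a) ^ 2 * (4 * H ^ 2 * r ^ 2) := by ring
        _ ≤ _ := mul_le_mul_of_nonneg_right hρD (by positivity)
    have f4 : n ^ 2 ≤ D * (4 * H ^ 2 * r ^ 2) := by
      have k1 : h ^ 2 * (h ^ 2 * n ^ 2) ≤ h ^ 2 * (D * (4 * H ^ 2 * r ^ 2)) := by nlinarith
      have k2 := le_of_mul_le_mul_left k1 (by positivity)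
      nlinarith [mul_nonneg (sub_nonneg.2 hh2) (sq_nonneg n)]
    have f5 : A * D ≤ (9 * H ^ 2 * r ^ 2) * D := by
      rw [eA]
      nlinarith
    exact le_of_mul_le_mul_right f5 (by linarith)
  · right; right
    have f1 : (c - a) - (s * a - t * c) ≤ 2 * H * r := by
      have k1 := mul_le_mul_of_nonneg_left a1.le (by linarith : 0 ≤ s + 1)
      have k2 := mul_le_mul_of_nonneg_left c2 (by linarith : 0 ≤ t + 1)
      have k3 := mul_le_mul_of_nonneg_right hb hr.le
      have e1 : (c - a) - (s * a - t * c) = (t + 1) * c - (s + 1) * a := by ring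
      rw [e1]
      nlinarith
    have f2 : h ^ 2 * (D - n) ≤ (c - a) * (2 * H * r) + 3 * H ^ 2 := by
      have k1 := mul_le_mul_of_nonneg_left f1 hρ.le
      have k2 : θ * (2 + h + 2 * t) ≤ H * (3 * H) :=
        mul_le_mul (by linarith) (by linarith) (by linarith) (by linarith)
      nlinarith
    have hDn : 0 ≤ D - n := by linarith
    have f3 : (h ^ 2 * (D - n)) ^ 2 ≤ (h ^ 2 * D) * (8 * H ^ 2 * r ^ 2) + 18 * H ^ 4 := by
      calc (h ^ 2 * (D - n)) ^ 2 ≤ ((c - a) * (2 * H * r) + 3 * H ^ 2) ^ 2 :=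
            pow_le_pow_left₀ (by positivity) f2 2
        _ ≤ (c - a) ^ 2 * (8 * H ^ 2 * r ^ 2) + 18 * H ^ 4 := by
            nlinarith [sq_nonneg ((c - a) * (2 * H * r) - 3 * H ^ 2)]
        _ ≤ _ := by
            have := mul_le_mul_of_nonneg_right hρD (by positivity : 0 ≤ 8 * H ^ 2 * r ^ 2)
            linarith
    have f4 : (D - n) ^ 2 ≤ D * (8 * H ^ 2 * r ^ 2) + 18 * H ^ 4 := by
      have k1 : h ^ 2 * (h ^ 2 * (D - n) ^ 2) ≤
          h ^ 2 * (D * (8 * H ^ 2 * r ^ 2) + 18 * H ^ 4) := by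
        have : 18 * H ^ 4 ≤ h ^ 2 * (18 * H ^ 4) := by
          nlinarith [(by positivity : 0 ≤ 18 * H ^ 4)]
        nlinarith
      have k2 := le_of_mul_le_mul_left k1 (by positivity)
      nlinarith [mul_nonneg (sub_nonneg.2 hh2) (sq_nonneg (D - n))]
    have f5 : B * D ≤ (9 * H ^ 2 * r ^ 2) * D := by
      rw [eB]
      have k1 : 18 * H ^ 4 + 1 ≤ H ^ 2 * r ^ 2 := by linarith
      have k2 : 18 * H ^ 4 + 1 ≤ (H ^ 2 * r ^ 2) * D := by nlinarith
      nlinarith
    exact le_of_mul_le_mul_right f5 (by linarith)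
  · left
    have f1 : J * (h * R) - 2 * (H * R) < J * (c - a) := by
      have k1 : (j - i - 1) * r < c - a := by nlinarith
      have k2 : h * J ≤ H * (j + 1 - i) := by linarith
      have k3 : H * (J * (h * R) - 2 * (H * R)) < H * (J * (c - a)) := by
        calc H * (J * (h * R) - 2 * (H * R)) = (h * J - 2 * H) * (J * r) := by rw [hJr]; ring
          _ ≤ (H * (j + 1 - i) - 2 * H) * (J * r) :=
              mul_le_mul_of_nonneg_right (by linarith) (by positivity)
          _ = (H * J) * ((j - i - 1) * r) := by ring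
          _ < (H * J) * (c - a) := mul_lt_mul_of_pos_left k1 (by positivity)
          _ = _ := by ring
      exact lt_of_mul_lt_mul_left k3 (by linarith)
    have hRp : 0 < R := by
      have : 0 < J * r := by positivity
      rw [hJr] at this
      exact (pos_iff_pos_of_mul_pos this).1 (by linarith)
    have g0 : 0 ≤ J * (h * R) - 2 * (H * R) := by
      have : 2 * (H * R) ≤ J * (h * R) := by
        calc 2 * (H * R) = (2 * H) * R := by ring
          _ ≤ J * R := mul_le_mul_of_nonneg_right hJ hR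
          _ ≤ J * (h * R) := by
              apply mul_le_mul_of_nonneg_left _ hJ0.le
              nlinarith
      linarith
    have g1 : (J * (h * R) - 2 * (H * R)) ^ 2 < (J * (c - a)) ^ 2 :=
      pow_lt_pow_left₀ f1 g0 (by norm_num)
    have g2 : (J * (c - a)) ^ 2 ≤ J ^ 2 * (h ^ 2 * D) := by
      rw [mul_pow]
      exact mul_le_mul_of_nonneg_left hρD (by positivity)
    have g3 : J ^ 2 * (h ^ 2 * X) - 4 * H * h * J * X ≤ (J * (h * R) - 2 * (H * R)) ^ 2 := by
      rw [← hRX]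
      nlinarith [sq_nonneg (H * R)]
    have g4 : h ^ 2 * (J ^ 2 * X - 4 * H * J * X) < h ^ 2 * (J ^ 2 * D) := by
      have hX0 : 0 ≤ X := by rw [← hRX]; positivity
      have k1 : 4 * H * h * J * X ≤ h ^ 2 * (4 * H * J * X) := by
        have k2 : 0 ≤ 4 * H * J * X := by positivity
        have k3 : h ≤ h ^ 2 := by nlinarith
        nlinarith
      linarith
    have g5 := lt_of_mul_lt_mul_left g4 (by positivity)
    have g6 : J ^ 2 * ((1 - 4 * H / J) * X) < J ^ 2 * D := by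
      have : J ^ 2 * ((1 - 4 * H / J) * X) = J ^ 2 * X - 4 * H * J * X := by
        field_simp
      rw [this]
      exact g5
    exact lt_of_mul_lt_mul_left g6 (by positivity)

end Pool.Agent.T2H34.Dh
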