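import Pool.Agent.T2H34.DhDefs
import Pool.Agent.W78.EC.All

/-!
Pairs of determinant `h`: `Gvh = G0h` on average over the pairs in a cone. Compare `W935.EC.gg0`.
-/

set_option autoImplicit false

namespace Pool.Agent.T2H34.Dh

open Finset Filter
open Pool.Agent.H376R2.MR
open Pool.Agent.W78.GA
open Pool.Agent.W78.EC
open Pool.Agent.W935.EC (BB BB_nonneg part_eq sum_BB dt_bound numer)
open Pool.Agent.W335.EC (hD01)

/-- one pair -/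
lemma pairh {h : ℕ} (hh : 1 ≤ h) (h2 : S_ABEL) {C : ℝ} (hC : 0 < C)
    (h3 : ∀ (Q : ℕ) (X L : ℝ) (w₁ w₂ : Gi), 1 ≤ Q → 1 ≤ X → 1 ≤ L →
      (nm w₁ : ℝ) ≤ X → (nm w₂ : ℝ) ≤ X → (Q : ℝ) / L ≤ (dt w₁ w₂ : ℝ) → ∀ Ψ : ℕ → ℕ → ℝ,
      (∀ m₁ m₂, Ψ m₁ m₂ = psi (nm ((m₂ : Gi) * w₁ - (m₁ : Gi) * w₂) / ((dt w₁ w₂ : ℝ) ^ 2 * X))) →
      ∀ m n, m ∈ Ioc Q (2 * Q) → n ∈ Ioc Q (2 * Q) → |Ψ m n| ≤ C * L ^ 4 ∧
        |Ψ (m + 1) n - Ψ m n| ≤ C * L ^ 4 / Q ∧ |Ψ m (n + 1) - Ψ m n| ≤ C * L ^ 4 / Q ∧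
        |Ψ (m + 1) (n + 1) - Ψ (m + 1) n - Ψ m (n + 1) + Ψ m n| ≤ C * L ^ 4 / (Q : ℝ) ^ 2)
    (Q : ℕ) (X L : ℝ) (w₁ w₂ : Gi) (hQ : 1 ≤ Q) (hX : 1 ≤ X) (hL : 1 ≤ L) (hp₁ : prim w₁)
    (hp₂ : prim w₂) (hw₁ : (nm w₁ : ℝ) ≤ X) (hw₂ : (nm w₂ : ℝ) ≤ X)
    (hd : (Q : ℝ) / L ≤ (dt w₁ w₂ : ℝ)) (hdv : (h : ℤ) ∣ dt w₁ w₂) :
    ∃ c : ℕ, c < (dt w₁ w₂).toNat / h ∧ Nat.Coprime c ((dt w₁ w₂).toNat / h) ∧
      dt w₁ w₂ / h ∣ w₂.re - c * w₁.re ∧ dt w₁ w₂ / h ∣ w₂.im - c * w₁.im ∧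
      |Gvh h Q X w₁ w₂ - G0h h Q X w₁ w₂| ≤ C * L ^ 4 * BB Q ((dt w₁ w₂).toNat / h) c := by
  have hQ' : (1 : ℝ) ≤ Q := by exact_mod_cast hQ
  have hdpos : 0 < dt w₁ w₂ := by
    have : (0 : ℝ) < (dt w₁ w₂ : ℝ) := lt_of_lt_of_le (by positivity) hd
    exact_mod_cast this
  obtain ⟨c, hc, hcop, hd1, hd2, hxi, hG⟩ := gvlh hh Q X w₁ w₂ hX hp₁ hp₂ hdpos hdv
  refine ⟨c, hc, hcop, hd1, hd2, ?_⟩
  set D := (dt w₁ w₂).toNat / h with hD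
  set Ψ : ℕ → ℕ → ℝ := fun m₁ m₂ =>
    psi (nm ((m₂ : Gi) * w₁ - (m₁ : Gi) * w₂) / ((dt w₁ w₂ : ℝ) ^ 2 * X)) with hΨ
  set a : ℕ → ℕ → ℝ := fun m n => (if n ≡ c * m [MOD D] then th Q m * th Q n else 0) -
      (1 + ch4 D c) / (4 * (Nat.totient D : ℝ)) with ha
  have hb := h3 Q X L w₁ w₂ hQ hX hL hw₁ hw₂ hd Ψ (fun _ _ => rfl)
  have hab := h2 Q a Ψ (C * L ^ 4) hQ (by positivity) (fun m n hm hn => hb m n hm hn)
    (fun t u => ∑ m ∈ Ioc Q t, ∑ n ∈ Ioc Q u, a m n) (fun _ _ => rfl)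
  have hG2 : Gvh h Q X w₁ w₂ - G0h h Q X w₁ w₂ =
      ∑ m ∈ Ioc Q (2 * Q), ∑ n ∈ Ioc Q (2 * Q), a m n * Ψ m n := by
    rw [hG]
    unfold G0h
    rw [hxi, Finset.mul_sum, ← Finset.sum_sub_distrib]
    refine Finset.sum_congr rfl fun m _ => ?_
    rw [Finset.mul_sum, ← Finset.sum_sub_distrib]
    refine Finset.sum_congr rfl fun n _ => ?_
    simp only [ha, hΨ]
    ring
  rw [hG2]
  refine hab.trans (le_of_eq ?_)
  have hE : ∀ t u, Q ≤ t → Q ≤ u → ∑ m ∈ Ioc Q t, ∑ n ∈ Ioc Q u, a m n = EE Q D c t u :=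
    fun t u ht hu => part_eq Q D c t u ht hu
  unfold BB
  rw [hE (2 * Q) (2 * Q) (by omega) (by omega)]
  congr 3
  · congr 1
    refine Finset.sum_congr rfl fun t ht => ?_
    rw [mem_Ioc] at ht
    rw [hE t (2 * Q) (by omega) (by omega), hE (2 * Q) t (by omega) (by omega)]
  · refine Finset.sum_congr rfl fun t ht => Finset.sum_congr rfl fun u hu => ?_
    rw [mem_Ioc] at ht hu
    rw [hE t u (by omega) (by omega)]


/-- the residue modulo `h E` -/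
lemma lift_res {h : ℕ} (hh : 1 ≤ h) {w₁ w₂ : Gi} {E c : ℕ} (hp₁ : prim w₁)
    (hE1 : 1 ≤ E) (hE : dt w₁ w₂ = (h * E : ℕ)) (h1 : (E : ℤ) ∣ w₂.re - c * w₁.re)
    (h2 : (E : ℤ) ∣ w₂.im - c * w₁.im) : ∃ j < h,
    ((h * E : ℕ) : ℤ) ∣ w₂.re - ((c + j * E : ℕ) : ℤ) * w₁.re ∧
      ((h * E : ℕ) : ℤ) ∣ w₂.im - ((c + j * E : ℕ) : ℤ) * w₁.im := by
  obtain ⟨α, β, hαβ⟩ : ∃ α β : ℤ, α * w₁.re + β * w₁.im = 1 := by
    have h1 : IsCoprime w₁.re w₁.im := Int.isCoprime_iff_gcd_eq_one.2 hp₁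
    obtain ⟨α, β, h⟩ := h1
    exact ⟨α, β, h⟩
  set c₀ : ℤ := α * w₂.re + β * w₂.im with hc₀
  have hreD : dt w₁ w₂ ∣ w₂.re - c₀ * w₁.re := by
    refine ⟨-β, ?_⟩
    have : w₂.re - c₀ * w₁.re = w₂.re * (α * w₁.re + β * w₁.im) - c₀ * w₁.re := by
      rw [hαβ, mul_one]
    rw [this, hc₀]
    unfold dt
    ring
  have himD : dt w₁ w₂ ∣ w₂.im - c₀ * w₁.im := by
    refine ⟨α, ?_⟩
    have : w₂.im - c₀ * w₁.im = w₂.im * (α * w₁.re + β * w₁.im) - c₀ * w₁.im := by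
      rw [hαβ, mul_one]
    rw [this, hc₀]
    unfold dt
    ring
  rw [hE] at hreD himD
  have hcE : (E : ℤ) ∣ c₀ - c := by
    have e1 : c₀ - c = α * (w₂.re - c * w₁.re) + β * (w₂.im - c * w₁.im) := by
      rw [hc₀]
      linear_combination (c : ℤ) * hαβ
    rw [e1]
    exact dvd_add (h1.mul_left _) (h2.mul_left _)
  obtain ⟨k, hk⟩ := hcE
  have hh' : (0 : ℤ) < h := by exact_mod_cast (by omega : 0 < h)
  set j : ℕ := (k % h).toNat with hj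
  have hjn : (j : ℤ) = k % h := Int.toNat_of_nonneg (Int.emod_nonneg _ hh'.ne')
  have hjlt : j < h := by
    have : (j : ℤ) < h := by rw [hjn]; exact Int.emod_lt_of_pos _ hh'
    exact_mod_cast this
  obtain ⟨m, hm⟩ : (h : ℤ) ∣ k - j := by rw [hjn]; exact Int.dvd_self_sub_emod
  have e2 : ((h * E : ℕ) : ℤ) ∣ c₀ - ((c + j * E : ℕ) : ℤ) := by
    refine ⟨m, ?_⟩
    push_cast
    linear_combination hk + (E : ℤ) * hm
  refine ⟨j, hjlt, ?_, ?_⟩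
  · have : w₂.re - ((c + j * E : ℕ) : ℤ) * w₁.re =
        (w₂.re - c₀ * w₁.re) + (c₀ - ((c + j * E : ℕ) : ℤ)) * w₁.re := by ring
    rw [this]
    exact dvd_add hreD (e2.mul_right _)
  · have : w₂.im - ((c + j * E : ℕ) : ℤ) * w₁.im =
        (w₂.im - c₀ * w₁.im) + (c₀ - ((c + j * E : ℕ) : ℤ)) * w₁.im := by ring
    rw [this]
    exact dvd_add himD (e2.mul_right _)

open scoped Classical in
theorem gg0h {h : ℕ} (hh : 1 ≤ h) (K : ℕ) (κ s₁ ε : ℝ) (hK : 1 ≤ K) (hκ : 0 < κ) (hs₁ : 0 < s₁)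
    (hε : 0 < ε) : ∃ Q₀ : ℕ, ∀ Q : ℕ,
  Q₀ ≤ Q → ∀ X : ℝ, 2 * (K * Q : ℝ) ≤ X → ∀ e ∈ good K κ Q X,
    (∑ w₁ ∈ cw X s₁ 1 e.1 e.2, ∑ w₂ ∈ cw X s₁ 1 e.1 e.2,
      if (h : ℤ) ∣ dt w₁ w₂ ∧ (Q : ℝ) / Real.log Q ^ 3 ≤ (dt w₁ w₂ : ℝ) then
        |Gvh h Q X w₁ w₂ - G0h h Q X w₁ w₂| else 0) ≤
      ε * (Q : ℝ) ^ 3 := by
  classical
  have h1 := lsvAll
  have h2 := Pool.Agent.W52.EC.abel
  have h5 := Pool.Agent.W395.EC.mult
  have h6 := Pool.Agent.W395.EC.dtb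
  have hhR : (1 : ℝ) ≤ h := by exact_mod_cast hh
  have hhZ : (0 : ℤ) < h := by exact_mod_cast (by omega : 0 < h)
  obtain ⟨C, hC, hpsi⟩ := Pool.Agent.W52.EC.psid
  set C0 : ℕ := ⌈(K : ℝ) / κ⌉₊ with hC0
  obtain ⟨CA, Q1, hLSV⟩ := h1 C0 30
  set G : ℝ := (4 * ((K : ℝ) / κ) + 1) ^ 4 * (h * C) * (4 * |CA|) with hG
  refine ⟨max Q1 (⌈Real.exp (max 1 (G / ε))⌉₊), fun Q hQ0 X hX e he => ?_⟩
  have hQ1 : Q1 ≤ Q := (le_max_left _ _).trans hQ0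
  have hQexp : Real.exp (max 1 (G / ε)) ≤ Q :=
    (Nat.le_ceil _).trans (by exact_mod_cast (le_max_right _ _).trans hQ0)
  have hQpos : (0 : ℝ) < Q := lt_of_lt_of_le (Real.exp_pos _) hQexp
  have hQ : 1 ≤ Q := by exact_mod_cast hQpos
  have hlog : max 1 (G / ε) ≤ Real.log Q := (Real.le_log_iff_exp_le hQpos).2 hQexp
  have hq1 : 1 ≤ Real.log Q := (le_max_left _ _).trans hlog
  have hqG : G ≤ ε * Real.log Q := by
    have := (le_max_right 1 (G / ε)).trans hlog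
    rw [div_le_iff₀ hε] at this
    linarith
  have hK' : (1 : ℝ) ≤ K := by exact_mod_cast hK
  have hQ' : (1 : ℝ) ≤ Q := by exact_mod_cast hQ
  have hX1 : 1 ≤ X := by nlinarith
  set L : ℝ := Real.log Q ^ 3 with hLdef
  have hL1 : 1 ≤ L := one_le_pow₀ hq1
  have hL0 : 0 < L := by linarith
  have hΔ : (0 : ℝ) < Q / L := by positivity
  -- the edge
  have hedge : dt e.1 e.2 = 1 := by
    unfold good at he
    rw [mem_filter] at he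
    have h := he.1
    unfold edge at h
    rw [mem_filter] at h
    exact h.2.1
  obtain ⟨-, hdtb⟩ := h6 K κ Q X hK hκ hQ hX e he
  set S := cw X s₁ 1 e.1 e.2 with hS
  have hScone : ∀ w ∈ S, w ∈ cone X e.1 e.2 := by
    intro w hw
    rw [hS] at hw
    unfold cw at hw
    exact (mem_filter.1 hw).1
  have hprim : ∀ w ∈ S, prim w ∧ (nm w : ℝ) ≤ X := by
    intro w hw
    have := hScone w hw
    unfold cone at this
    rw [mem_filter, mem_pball hD01] at this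
    exact this.1
  set P := (S ×ˢ S).filter (fun w => (h : ℤ) ∣ dt w.1 w.2 ∧ (Q : ℝ) / L ≤ (dt w.1 w.2 : ℝ)) with hP
  have hsum : (∑ w₁ ∈ S, ∑ w₂ ∈ S, if (h : ℤ) ∣ dt w₁ w₂ ∧ (Q : ℝ) / L ≤ (dt w₁ w₂ : ℝ) then
      |Gvh h Q X w₁ w₂ - G0h h Q X w₁ w₂| else 0) =
        ∑ w ∈ P, |Gvh h Q X w.1 w.2 - G0h h Q X w.1 w.2| := by
    rw [hP, Finset.sum_filter, Finset.sum_product]
  rw [hsum]
  have hpair : ∀ w ∈ P, ∃ c : ℕ, c < (dt w.1 w.2).toNat / h ∧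
      Nat.Coprime c ((dt w.1 w.2).toNat / h) ∧
      dt w.1 w.2 / h ∣ w.2.re - c * w.1.re ∧ dt w.1 w.2 / h ∣ w.2.im - c * w.1.im ∧
      |Gvh h Q X w.1 w.2 - G0h h Q X w.1 w.2| ≤ C * L ^ 4 * BB Q ((dt w.1 w.2).toNat / h) c := by
    intro w hw
    rw [hP, mem_filter, mem_product] at hw
    obtain ⟨⟨ha, hb⟩, hdv, hd⟩ := hw
    exact pairh hh h2 hC hpsi Q X L w.1 w.2 hQ hX1 hL1 (hprim _ ha).1 (hprim _ hb).1
      (hprim _ ha).2 (hprim _ hb).2 hd hdv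
  choose! cc hcc using hpair
  set T : Finset (Σ _ : ℕ, ℕ) := (Icc 1 (C0 * Q)).sigma
    (fun D => (range D).filter (fun c => Nat.Coprime c D)) with hT
  set F : Gi × Gi → (Σ _ : ℕ, ℕ) := fun w => ⟨(dt w.1 w.2).toNat / h, cc w⟩ with hF
  have hDpos : ∀ w ∈ P, 0 < dt w.1 w.2 := by
    intro w hw
    rw [hP, mem_filter] at hw
    have : (0 : ℝ) < (dt w.1 w.2 : ℝ) := lt_of_lt_of_le hΔ hw.2.2
    exact_mod_cast this
  have hquo : ∀ w ∈ P, dt w.1 w.2 = (h * ((dt w.1 w.2).toNat / h) : ℕ) ∧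
      1 ≤ (dt w.1 w.2).toNat / h ∧ dt w.1 w.2 / h = (((dt w.1 w.2).toNat / h : ℕ) : ℤ) := by
    intro w hw
    have h0 := hDpos w hw
    rw [hP, mem_filter] at hw
    obtain ⟨k, hk⟩ := hw.2.1
    have hk0 : 0 < k := by
      by_contra hcon
      push Not at hcon
      nlinarith
    have e1 : (dt w.1 w.2).toNat = h * k.toNat := by
      rw [hk]
      have : (h : ℤ) * k = ((h * k.toNat : ℕ) : ℤ) := by
        push_cast
        rw [Int.toNat_of_nonneg hk0.le]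
      rw [this, Int.toNat_natCast]
    rw [e1, Nat.mul_div_cancel_left _ (by omega), hk, Int.mul_ediv_cancel_left _ hhZ.ne']
    push_cast
    rw [Int.toNat_of_nonneg hk0.le]
    exact ⟨rfl, by omega, rfl⟩
  have hmaps : ∀ w ∈ P, F w ∈ T := by
    intro w hw
    have h0 := hDpos w hw
    obtain ⟨hc1, hc2, -⟩ := hcc w hw
    obtain ⟨-, hq1, -⟩ := hquo w hw
    rw [hP, mem_filter, mem_product] at hw
    obtain ⟨⟨ha, hb⟩, -⟩ := hw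
    rw [hT, mem_sigma, mem_Icc, mem_filter, mem_range]
    refine ⟨⟨?_, ?_⟩, hc1, hc2⟩
    · exact hq1
    · show (dt w.1 w.2).toNat / h ≤ C0 * Q
      refine (Nat.div_le_self _ _).trans ?_
      obtain ⟨x, y, -, -, hx, -, hw1⟩ := hdtb _ (hScone _ ha)
      obtain ⟨x', y', -, -, -, hy', hw2⟩ := hdtb _ (hScone _ hb)
      have hb1 := dt_bound (y := y) (x' := x') hedge hx hy'
      rw [← hw1, ← hw2] at hb1
      have hb2 : (K : ℝ) * Q / κ ≤ (C0 : ℝ) * Q := by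
        have : (K : ℝ) / κ ≤ C0 := Nat.le_ceil _
        calc (K : ℝ) * Q / κ = (K : ℝ) / κ * Q := by ring
          _ ≤ _ := mul_le_mul_of_nonneg_right this hQpos.le
      have hb3 : ((dt w.1 w.2 : ℤ) : ℝ) ≤ ((C0 * Q : ℕ) : ℝ) := by
        push_cast
        linarith
      have hb4 : dt w.1 w.2 ≤ ((C0 * Q : ℕ) : ℤ) := by exact_mod_cast hb3
      omega
  set Mu : ℝ := h * (4 * ((K : ℝ) / κ * L) + 1) ^ 4 with hMu
  have hMu0 : 0 ≤ Mu := by positivity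
  have hfib : ∀ y ∈ T, ((P.filter (fun w => F w = y)).card : ℝ) ≤ Mu := by
    intro y hy
    rcases (P.filter (fun w => F w = y)).eq_empty_or_nonempty with h0 | ⟨w0, hw0⟩
    · rw [h0, card_empty, Nat.cast_zero]
      exact hMu0
    · rw [mem_filter] at hw0
      obtain ⟨hw0, hFw0⟩ := hw0
      have hy1 : 1 ≤ y.1 := by
        rw [hT, mem_sigma, mem_Icc] at hy
        exact hy.1.1
      have hyD : (Q : ℝ) / L ≤ ((h * y.1 : ℕ) : ℝ) := by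
        have e1 : (dt w0.1 w0.2).toNat / h = y.1 := by rw [← hFw0]
        obtain ⟨e2, -, -⟩ := hquo w0 hw0
        rw [e1] at e2
        have e3 : ((h * y.1 : ℕ) : ℝ) = (dt w0.1 w0.2 : ℝ) := by
          rw [e2]
          push_cast
          ring
        rw [e3]
        rw [hP, mem_filter] at hw0
        exact hw0.2.2
      have hsub : P.filter (fun w => F w = y) ⊆ (range h).biUnion (fun j =>
          (cone X e.1 e.2 ×ˢ cone X e.1 e.2).filter (fun w => dt w.1 w.2 = (h * y.1 : ℕ) ∧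
            ((h * y.1 : ℕ) : ℤ) ∣ w.2.re - ((y.2 + j * y.1 : ℕ) : ℤ) * w.1.re ∧
            ((h * y.1 : ℕ) : ℤ) ∣ w.2.im - ((y.2 + j * y.1 : ℕ) : ℤ) * w.1.im)) := by
        intro w hw
        rw [mem_filter] at hw
        obtain ⟨hw, hFw⟩ := hw
        obtain ⟨-, -, hc3, hc4, -⟩ := hcc w hw
        obtain ⟨e2, e2', e2''⟩ := hquo w hw
        have e1 : (dt w.1 w.2).toNat / h = y.1 := by rw [← hFw]
        have e3 : cc w = y.2 := by rw [← hFw]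
        rw [e2'', e1, e3] at hc3 hc4
        rw [e1] at e2
        rw [hP, mem_filter, mem_product] at hw
        obtain ⟨j, hj, f1, f2⟩ := lift_res hh (hprim _ hw.1.1).1 hy1 e2 hc3 hc4
        rw [mem_biUnion]
        refine ⟨j, mem_range.2 hj, ?_⟩
        rw [mem_filter, mem_product]
        exact ⟨⟨hScone _ hw.1.1, hScone _ hw.1.2⟩, e2, f1, f2⟩
      have hcard : ∀ j ∈ range h, (((cone X e.1 e.2 ×ˢ cone X e.1 e.2).filter (fun w =>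
          dt w.1 w.2 = (h * y.1 : ℕ) ∧
            ((h * y.1 : ℕ) : ℤ) ∣ w.2.re - ((y.2 + j * y.1 : ℕ) : ℤ) * w.1.re ∧
            ((h * y.1 : ℕ) : ℤ) ∣ w.2.im - ((y.2 + j * y.1 : ℕ) : ℤ) * w.1.im)).card : ℝ) ≤
          (4 * ((K : ℝ) / κ * L) + 1) ^ 4 := by
        intro j _
        have hc := h5 K κ Q X (h * y.1) ((y.2 + j * y.1 : ℕ) : ℤ) hK hκ hQ hX
          (by nlinarith) e he
        refine hc.trans ?_
        have hy0 : (0 : ℝ) < ((h * y.1 : ℕ) : ℝ) := lt_of_lt_of_le hΔ hyD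
        have e5 : 4 * ((K : ℝ) * Q / κ) / ((h * y.1 : ℕ) : ℝ) ≤ 4 * ((K : ℝ) / κ * L) := by
          rw [div_le_iff₀ hy0]
          calc 4 * ((K : ℝ) * Q / κ) = 4 * ((K : ℝ) / κ * L) * (Q / L) := by
                field_simp
            _ ≤ _ := mul_le_mul_of_nonneg_left hyD (by positivity)
        exact pow_le_pow_left₀ (by positivity) (by linarith) 4
      calc ((P.filter (fun w => F w = y)).card : ℝ) ≤ (((range h).biUnion (fun j =>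
          (cone X e.1 e.2 ×ˢ cone X e.1 e.2).filter (fun w => dt w.1 w.2 = (h * y.1 : ℕ) ∧
            ((h * y.1 : ℕ) : ℤ) ∣ w.2.re - ((y.2 + j * y.1 : ℕ) : ℤ) * w.1.re ∧
            ((h * y.1 : ℕ) : ℤ) ∣ w.2.im - ((y.2 + j * y.1 : ℕ) : ℤ) * w.1.im))).card : ℝ) :=
            Nat.cast_le.2 (card_le_card hsub)
        _ ≤ ((∑ j ∈ range h, ((cone X e.1 e.2 ×ˢ cone X e.1 e.2).filter (fun w =>
            dt w.1 w.2 = (h * y.1 : ℕ) ∧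
            ((h * y.1 : ℕ) : ℤ) ∣ w.2.re - ((y.2 + j * y.1 : ℕ) : ℤ) * w.1.re ∧
            ((h * y.1 : ℕ) : ℤ) ∣ w.2.im - ((y.2 + j * y.1 : ℕ) : ℤ) * w.1.im)).card : ℕ) : ℝ) :=
            Nat.cast_le.2 card_biUnion_le
        _ ≤ Mu := by
            push_cast
            refine (sum_le_card_nsmul _ _ _ hcard).trans (le_of_eq ?_)
            rw [card_range, nsmul_eq_mul, hMu]
  have hR : ∀ t u : ℕ, Q ≤ t → t ≤ 2 * Q → Q ≤ u → u ≤ 2 * Q →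
      ∑ y ∈ T, |EE Q y.1 y.2 t u| ≤ |CA| * (Q : ℝ) ^ 3 / Real.log Q ^ 30 := by
    intro t u ht1 ht2 hu1 hu2
    rw [hT, Finset.sum_sigma]
    refine (hLSV Q hQ1 t u ht1 ht2 hu1 hu2).trans ?_
    gcongr
    exact le_abs_self _
  have hBB := sum_BB hQ T (fun y => y.1) (fun y => y.2) hR
  calc ∑ w ∈ P, |Gvh h Q X w.1 w.2 - G0h h Q X w.1 w.2|
      ≤ ∑ w ∈ P, C * L ^ 4 * BB Q (F w).1 (F w).2 :=
        Finset.sum_le_sum fun w hw => (hcc w hw).2.2.2.2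
    _ = ∑ y ∈ T, ∑ w ∈ P.filter (fun w => F w = y), C * L ^ 4 * BB Q (F w).1 (F w).2 :=
        (Finset.sum_fiberwise_of_maps_to hmaps _).symm
    _ = ∑ y ∈ T, ((P.filter (fun w => F w = y)).card : ℝ) * (C * L ^ 4 * BB Q y.1 y.2) := by
        refine Finset.sum_congr rfl fun y _ => ?_
        rw [← nsmul_eq_mul, ← Finset.sum_const]
        refine Finset.sum_congr rfl fun w hw => ?_
        rw [(mem_filter.1 hw).2]
    _ ≤ ∑ y ∈ T, Mu * (C * L ^ 4 * BB Q y.1 y.2) := by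
        refine Finset.sum_le_sum fun y hy => ?_
        exact mul_le_mul_of_nonneg_right (hfib y hy)
          (mul_nonneg (by positivity) (BB_nonneg _ _ _))
    _ = Mu * (C * L ^ 4 * ∑ y ∈ T, BB Q y.1 y.2) := by
        rw [Finset.mul_sum, Finset.mul_sum]
    _ ≤ Mu * (C * L ^ 4 * (4 * (|CA| * (Q : ℝ) ^ 3 / Real.log Q ^ 30))) := by
        gcongr
    _ = (4 * ((K : ℝ) / κ * L) + 1) ^ 4 *
          ((h * C) * L ^ 4 * (4 * (|CA| * (Q : ℝ) ^ 3 / Real.log Q ^ 30))) := by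
        rw [hMu]
        ring
    _ ≤ ε * (Q : ℝ) ^ 3 :=
        numer hq1 (by positivity) (by positivity) (abs_nonneg _) (by positivity) hqG

end Pool.Agent.T2H34.Dh
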