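import Pool.Agent.T2H34.DhRg

/-!
Laws for the numbers of prime factors of `((n + t d)² + 1) / d`.
-/

set_option autoImplicit false

namespace Pool.Agent.T2H34.Dh

open Finset Filter
open Pool.Agent.W78.GA (Qd nm prim dt ip lat ball pball edge dedge mem_pball)
open Pool.Agent.W78.EC (Gi)
open Pool.Agent.W251.EX (bO)
open Pool.Agent.W714.EC (hD01)
open Pool.Agent.W305.EC (prim_of_dt)
open Pool.Agent.W397.EX (ind_eq orth modEq_iff_dvd)
open Pool.Agent.TH890.DV (LogNull)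
open ArithmeticFunction (cardFactors)

/-! ### small logarithmic means -/

/-- the logarithmic means of `D X / X` tend to zero -/
def Ls (D : ℕ → ℝ) : Prop := ∀ ε : ℝ, 0 < ε → ∃ N₀ : ℕ, ∀ N : ℕ, N₀ ≤ N →
  ∑ X ∈ Icc 1 N, 1 / (X : ℝ) ^ 2 * D X ≤ ε * Real.log N

lemma Ls.mono {D E : ℕ → ℝ} (h : ∀ X, D X ≤ E X) (hE : Ls E) : Ls D := by
  intro ε hε
  obtain ⟨N₀, hN₀⟩ := hE ε hε
  refine ⟨N₀, fun N hN => (sum_le_sum fun X _ => ?_).trans (hN₀ N hN)⟩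
  exact mul_le_mul_of_nonneg_left (h X) (by positivity)

lemma Ls.zero : Ls (fun _ => 0) := by
  intro ε hε
  refine ⟨1, fun N hN => ?_⟩
  have : (1 : ℝ) ≤ N := by exact_mod_cast hN
  have := Real.log_nonneg this
  simp only [mul_zero, sum_const_zero]
  positivity

lemma Ls.add {D E : ℕ → ℝ} (hD : Ls D) (hE : Ls E) : Ls (fun X => D X + E X) := by
  intro ε hε
  obtain ⟨N₁, h1⟩ := hD (ε / 2) (by positivity)
  obtain ⟨N₂, h2⟩ := hE (ε / 2) (by positivity)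
  refine ⟨max N₁ N₂, fun N hN => ?_⟩
  have a1 := h1 N ((le_max_left _ _).trans hN)
  have a2 := h2 N ((le_max_right _ _).trans hN)
  simp only [mul_add, sum_add_distrib]
  linarith

lemma Ls.sum {ι : Type*} (I : Finset ι) {D : ι → ℕ → ℝ} (h : ∀ i ∈ I, Ls (D i)) :
    Ls (fun X => ∑ i ∈ I, D i X) := by
  classical
  induction I using Finset.induction_on with
  | empty =>
    simp only [sum_empty]
    exact Ls.zero
  | insert a s ha ih =>
    simp only [sum_insert ha]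
    exact (h a (mem_insert_self a s)).add (ih fun i hi => h i (mem_insert_of_mem hi))

lemma Ls.smul {D : ℕ → ℝ} (hD : Ls D) {c : ℝ} (hc : 0 < c) : Ls (fun X => c * D X) := by
  intro ε hε
  obtain ⟨N₀, h⟩ := hD (ε / c) (by positivity)
  refine ⟨N₀, fun N hN => ?_⟩
  have h1 := h N hN
  have e : ∑ X ∈ Icc 1 N, 1 / (X : ℝ) ^ 2 * (c * D X) =
      c * ∑ X ∈ Icc 1 N, 1 / (X : ℝ) ^ 2 * D X := by
    rw [mul_sum]
    exact sum_congr rfl fun X _ => by ring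
  rw [e]
  calc c * ∑ X ∈ Icc 1 N, 1 / (X : ℝ) ^ 2 * D X ≤ c * (ε / c * Real.log N) :=
        mul_le_mul_of_nonneg_left h1 hc.le
    _ = ε * Real.log N := by field_simp

/-! ### the number of the pairs -/

/-- every primitive vector is the second vector of a pair of the region -/
lemma Rg_surj {X : ℕ} {y : Gi} (hy : prim y) (hX : nm y ≤ X) : ∃ q ∈ Rg X, q.2 = y := by
  obtain ⟨a, b, hab⟩ := Int.isCoprime_iff_gcd_eq_one.2 hy
  have hn : (nm y : ℤ) = y.re ^ 2 + y.im ^ 2 := Pool.Agent.W714.EC.nmZ y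
  have hpos : (0 : ℤ) < nm y := by
    rcases Nat.eq_zero_or_pos (nm y) with h0 | h0
    · exfalso
      rw [h0] at hn
      push_cast at hn
      have h1 : y.re = 0 := by nlinarith [sq_nonneg y.re, sq_nonneg y.im]
      have h2 : y.im = 0 := by nlinarith [sq_nonneg y.re, sq_nonneg y.im]
      rw [h1, h2] at hab
      simp at hab
    · exact_mod_cast h0
  obtain ⟨z, hz⟩ : ∃ z : Gi, z = ⟨b, -a⟩ := ⟨_, rfl⟩
  obtain ⟨r, hr⟩ : ∃ r : ℤ, r = ip z y / nm y := ⟨_, rfl⟩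
  obtain ⟨x, hx⟩ : ∃ x : Gi, x = ⟨z.re - r * y.re, z.im - r * y.im⟩ := ⟨_, rfl⟩
  have hdt : dt x y = 1 := by
    rw [hx, hz]
    unfold dt
    simp only
    linear_combination hab
  have hip : ip x y = ip z y % nm y := by
    have h1 : ip x y = ip z y - r * nm y := by
      rw [hx, hn]
      unfold ip
      simp only
      ring
    rw [h1, hr, Int.emod_def]
    ring
  refine ⟨(x, y), mem_Rg.2 ⟨hdt, hX, ?_, ?_⟩, rfl⟩
  · simp only
    rw [hip]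
    exact Int.emod_nonneg _ hpos.ne'
  · simp only
    rw [hip]
    exact Int.emod_lt_of_pos _ hpos

lemma card_DD (X : ℕ) : (Rg X).card = 4 * (DD X).card := by
  have h := rg_sum X (fun _ _ => (1 : ℕ))
  simpa using h

lemma DD_low : ∃ c : ℝ, 0 < c ∧ ∃ X₀ : ℕ, ∀ X : ℕ, X₀ ≤ X → c * X ≤ ((DD X).card : ℝ) := by
  classical
  obtain ⟨c, Y₀, hc, h⟩ := Pool.Agent.W899.EC.pball_lower
  refine ⟨c / 4, by positivity, ⌈Y₀⌉₊, fun X hX => ?_⟩
  have h1 := h X ((Nat.le_ceil _).trans (by exact_mod_cast hX))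
  have h2 : (pball 0 1 (X : ℝ) : Finset Gi).card ≤ (Rg X).card := by
    have h3 : (pball 0 1 (X : ℝ) : Finset Gi) ⊆ (Rg X).image Prod.snd := by
      intro y hy
      rw [mem_pball hD01] at hy
      obtain ⟨q, hq, hqy⟩ := Rg_surj hy.1 (by exact_mod_cast hy.2 : nm y ≤ X)
      exact mem_image.2 ⟨q, hq, hqy⟩
    exact (card_le_card h3).trans card_image_le
  rw [card_DD] at h2
  have h4 : ((pball 0 1 (X : ℝ) : Finset Gi).card : ℝ) ≤ 4 * ((DD X).card : ℝ) := by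
    exact_mod_cast h2
  linarith

lemma null_dd {D : ℕ → ℝ} (hD0 : ∀ X, 0 ≤ D X) (h : Ls D) {ε : ℝ} (hε : 0 < ε) :
    LogNull (fun X => ε * ((DD X).card : ℝ) < D X) := by
  obtain ⟨c, hc, X₀, hX₀⟩ := DD_low
  refine LogNull.of_ev X₀ ?_ (null_of D hD0 h (ε * c) (by positivity))
  intro X hX h1
  have h2 := hX₀ X hX
  have h3 : ε * (c * X) ≤ ε * ((DD X).card : ℝ) := mul_le_mul_of_nonneg_left h2 hε.le
  linarith

/-! ### the correlations -/

/-- the correlation of `b₁^u` and `b₂^v` -/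
noncomputable def Sg (b₁ b₂ : ℂ) (u v : ℕ × ℕ → ℕ) (X : ℕ) : ℂ := ∑ p ∈ DD X, b₁ ^ u p * b₂ ^ v p

/-- the correlations of `u` and `v` modulo `k` are small -/
def Sml (k : ℕ) (u v : ℕ × ℕ → ℕ) : Prop := ∀ b₁ b₂ : ℂ, b₁ ^ k = 1 → b₂ ^ k = 1 →
  (b₁ ≠ 1 ∨ b₂ ≠ 1) → Ls (fun X => ‖Sg b₁ b₂ u v X‖)

lemma Sml.symm {k : ℕ} {u v : ℕ × ℕ → ℕ} (h : Sml k u v) : Sml k v u := by
  intro b₁ b₂ h1 h2 h3
  have h4 := h b₂ b₁ h2 h1 h3.symm
  have e : (fun X => ‖Sg b₁ b₂ v u X‖) = fun X => ‖Sg b₂ b₁ u v X‖ := by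
    funext X
    unfold Sg
    congr 1
    exact sum_congr rfl fun p _ => mul_comm _ _
  rw [e]
  exact h4

/-- the value at `t` -/
def mt (t : ℕ) (p : ℕ × ℕ) : ℕ := ((p.2 + t * p.1) ^ 2 + 1) / p.1

/-- number of prime factors of the value at `t` -/
def Om (t : ℕ) (p : ℕ × ℕ) : ℕ := cardFactors (mt t p)

lemma SRg_eq (t h : ℕ) (b₁ b₂ : ℂ) (X : ℕ) :
    SRg t h (bO b₁) (bO b₂) X = 4 * Sg b₁ b₂ (Om t) (Om (t + h)) X := by
  have h1 := rg_sum X (fun d n => b₁ ^ Om t (d, n) * b₂ ^ Om (t + h) (d, n))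
  unfold SRg Sg
  rw [nsmul_eq_mul] at h1
  push_cast at h1
  rw [← h1]
  refine sum_congr rfl fun q hq => ?_
  unfold bO Om mt
  rw [nm_pv hq t, nm_pv hq (t + h)]

theorem sml_add {k : ℕ} (hk : 1 ≤ k) (t : ℕ) {h : ℕ} (hh : 1 ≤ h) : Sml k (Om t) (Om (t + h)) := by
  intro b₁ b₂ h1 h2 h3
  have h4 : Ls (fun X => ‖SRg t h (bO b₁) (bO b₂) X‖) := rgh hk h1 h2 h3 t hh
  refine Ls.mono (fun X => ?_) h4
  rw [SRg_eq, norm_mul]
  have : ‖(4 : ℂ)‖ = 4 := by norm_num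
  rw [this]
  linarith [norm_nonneg (Sg b₁ b₂ (Om t) (Om (t + h)) X)]

/-- the correlations of the values at `t ≠ s` -/
theorem sml_mt {k : ℕ} (hk : 1 ≤ k) {t s : ℕ} (hts : t ≠ s) : Sml k (Om t) (Om s) := by
  rcases Nat.lt_or_gt_of_ne hts with h | h
  · obtain ⟨e, rfl⟩ := Nat.exists_eq_add_of_lt h
    rw [show t + e + 1 = t + (e + 1) by ring]
    exact sml_add hk t (by omega)
  · obtain ⟨e, rfl⟩ := Nat.exists_eq_add_of_lt h
    rw [show s + e + 1 = s + (e + 1) by ring]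
    exact (sml_add hk s (by omega)).symm

/-! ### the joint law -/

theorem joint_le {k : ℕ} (hk : 1 ≤ k) {ζ : ℂ} (hζ : IsPrimitiveRoot ζ k) (u v : ℕ × ℕ → ℕ)
    (i j X : ℕ) :
    |(((DD X).filter (fun p => u p ≡ i [MOD k] ∧ v p ≡ j [MOD k])).card : ℝ) -
      (DD X).card / (k : ℝ) ^ 2| ≤
      ∑ e ∈ (range k ×ˢ range k).erase (0, 0), ‖Sg (ζ ^ e.1) (ζ ^ e.2) u v X‖ := by
  classical
  obtain ⟨c, hc⟩ : ∃ c : ℕ × ℕ → ℂ, c = fun e =>
      (ζ ^ e.1) ^ ((k - 1) * i) * (ζ ^ e.2) ^ ((k - 1) * j) := ⟨_, rfl⟩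
  have hn : ‖ζ‖ = 1 := hζ.norm'_eq_one (by omega)
  have hcn : ∀ e, ‖c e‖ = 1 := by
    intro e
    rw [hc]
    simp only [norm_mul, norm_pow, hn, one_pow, mul_one]
  have hk2 : (1 : ℝ) ≤ (k : ℝ) ^ 2 := by
    have : (1 : ℝ) ≤ k := by exact_mod_cast hk
    nlinarith
  have key : (((((DD X).filter (fun p => u p ≡ i [MOD k] ∧ v p ≡ j [MOD k])).card : ℝ) : ℝ) : ℂ) =
      1 / (k : ℂ) ^ 2 * ∑ e ∈ range k ×ˢ range k, c e * Sg (ζ ^ e.1) (ζ ^ e.2) u v X := by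
    have h3 : ∑ e ∈ range k ×ˢ range k, c e * Sg (ζ ^ e.1) (ζ ^ e.2) u v X =
        ∑ p ∈ DD X, ∑ e ∈ range k ×ˢ range k, c e *
          ((ζ ^ e.1) ^ u p * (ζ ^ e.2) ^ v p / 1) := by
      rw [sum_comm]
      refine sum_congr rfl fun e _ => ?_
      unfold Sg
      rw [mul_sum]
      exact sum_congr rfl fun p _ => by rw [div_one]
    rw [h3, mul_sum, card_filter]
    push_cast
    refine sum_congr rfl fun p _ => ?_
    rw [hc, ← ind_eq hk hζ i j (u p) (v p) 1]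
    split_ifs <;> simp
  have hz : ((0 : ℕ), (0 : ℕ)) ∈ range k ×ˢ range k := by
    rw [mem_product, mem_range]
    exact ⟨by omega, by omega⟩
  have h0 : c (0, 0) * Sg (ζ ^ (0, 0).1) (ζ ^ (0, 0).2) u v X = (DD X).card := by
    rw [hc]
    unfold Sg
    simp
  rw [← add_sum_erase _ _ hz, h0] at key
  have e1 : (((((DD X).filter (fun p => u p ≡ i [MOD k] ∧ v p ≡ j [MOD k])).card : ℝ) -
      (DD X).card / (k : ℝ) ^ 2 : ℝ) : ℂ) =
      1 / (k : ℂ) ^ 2 * ∑ e ∈ (range k ×ˢ range k).erase (0, 0),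
        c e * Sg (ζ ^ e.1) (ζ ^ e.2) u v X := by
    push_cast
    push_cast at key
    rw [key]
    ring
  have h5 : |(((DD X).filter (fun p => u p ≡ i [MOD k] ∧ v p ≡ j [MOD k])).card : ℝ) -
      (DD X).card / (k : ℝ) ^ 2| =
      ‖(((((DD X).filter (fun p => u p ≡ i [MOD k] ∧ v p ≡ j [MOD k])).card : ℝ) -
      (DD X).card / (k : ℝ) ^ 2 : ℝ) : ℂ)‖ := by
    rw [Complex.norm_real, Real.norm_eq_abs]
  rw [h5, e1, norm_mul]
  have h4 : ‖(1 : ℂ) / (k : ℂ) ^ 2‖ ≤ 1 := by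
    rw [norm_div, norm_one, norm_pow, Complex.norm_natCast]
    rw [div_le_one (by linarith)]
    exact hk2
  calc ‖(1 : ℂ) / (k : ℂ) ^ 2‖ * ‖∑ e ∈ (range k ×ˢ range k).erase (0, 0),
        c e * Sg (ζ ^ e.1) (ζ ^ e.2) u v X‖ ≤ 1 * ‖∑ e ∈ (range k ×ˢ range k).erase (0, 0),
        c e * Sg (ζ ^ e.1) (ζ ^ e.2) u v X‖ := mul_le_mul_of_nonneg_right h4 (norm_nonneg _)
    _ ≤ ∑ e ∈ (range k ×ˢ range k).erase (0, 0), ‖Sg (ζ ^ e.1) (ζ ^ e.2) u v X‖ := by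
        rw [one_mul]
        refine (norm_sum_le _ _).trans (sum_le_sum fun e _ => ?_)
        rw [norm_mul, hcn, one_mul]

theorem joint_law {k : ℕ} (hk : 1 ≤ k) {u v : ℕ × ℕ → ℕ} (h : Sml k u v) (i j : ℕ) {ε : ℝ}
    (hε : 0 < ε) : LogNull (fun X => ε * ((DD X).card : ℝ) <
      |(((DD X).filter (fun p => u p ≡ i [MOD k] ∧ v p ≡ j [MOD k])).card : ℝ) -
      (DD X).card / (k : ℝ) ^ 2|) := by
  obtain ⟨ζ, hζ⟩ : ∃ ζ : ℂ, IsPrimitiveRoot ζ k :=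
    ⟨_, Complex.isPrimitiveRoot_exp k (by omega)⟩
  have hζk : ∀ l, (ζ ^ l) ^ k = 1 := fun l => by
    rw [← pow_mul, mul_comm, pow_mul, hζ.pow_eq_one, one_pow]
  have hL : Ls (fun X => ∑ e ∈ (range k ×ˢ range k).erase (0, 0),
      ‖Sg (ζ ^ e.1) (ζ ^ e.2) u v X‖) := by
    refine Ls.sum _ fun e he => h _ _ (hζk _) (hζk _) ?_
    rw [mem_erase, mem_product, mem_range, mem_range] at he
    obtain ⟨h1, h2, h3⟩ := he
    by_contra hcon
    push Not at hcon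
    obtain ⟨h4, h5⟩ := hcon
    apply h1
    refine Prod.ext ?_ ?_
    · exact Nat.eq_zero_of_dvd_of_lt ((hζ.pow_eq_one_iff_dvd _).1 h4) h2
    · exact Nat.eq_zero_of_dvd_of_lt ((hζ.pow_eq_one_iff_dvd _).1 h5) h3
  refine LogNull.of_ev 0 ?_ (null_dd (fun X => sum_nonneg fun e _ => norm_nonneg _) hL hε)
  intro X _ h1
  exact h1.trans_le (joint_le hk hζ u v i j X)

/-! ### almost all progressions -/

/-- the mean square of a sum of powers -/
theorem var_le {k : ℕ} (hk : 1 ≤ k) {b : ℂ} (hb : b ^ k = 1) (S : Finset ℕ)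
    (x : ℕ → ℕ × ℕ → ℕ) (X : ℕ) :
    ∑ p ∈ DD X, ‖∑ t ∈ S, b ^ x t p‖ ^ 2 ≤ (S.card : ℝ) * (DD X).card +
      ∑ e ∈ S.offDiag, ‖Sg b (b ^ (k - 1)) (x e.1) (x e.2) X‖ := by
  classical
  have hn : ‖b‖ = 1 := norm_root hk hb
  have hconj : (starRingEnd ℂ) b = b ^ (k - 1) := by
    have h1 : b * (starRingEnd ℂ) b = 1 := by
      rw [Complex.mul_conj, Complex.normSq_eq_norm_sq, hn]
      norm_num
    have h2 : b * b ^ (k - 1) = 1 := by
      rw [← pow_succ', Nat.sub_add_cancel hk, hb]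
    have hb0 : b ≠ 0 := by
      rintro rfl
      simp at hn
    exact mul_left_cancel₀ hb0 (h1.trans h2.symm)
  have h1 : ∀ p : ℕ × ℕ, ((‖∑ t ∈ S, b ^ x t p‖ ^ 2 : ℝ) : ℂ) =
      (S.card : ℂ) + ∑ e ∈ S.offDiag, b ^ x e.1 p * (b ^ (k - 1)) ^ x e.2 p := by
    intro p
    have h2 : ((‖∑ t ∈ S, b ^ x t p‖ ^ 2 : ℝ) : ℂ) = ∑ e ∈ S ×ˢ S,
        b ^ x e.1 p * (b ^ (k - 1)) ^ x e.2 p := by
      rw [← Complex.normSq_eq_norm_sq, ← Complex.mul_conj, map_sum, sum_mul_sum, ← sum_product']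
      refine sum_congr rfl fun e _ => ?_
      rw [map_pow, hconj]
    rw [h2, ← diag_union_offDiag, sum_union (disjoint_diag_offDiag S)]
    congr 1
    have h3 : ∀ e ∈ S.diag, b ^ x e.1 p * (b ^ (k - 1)) ^ x e.2 p = 1 := by
      intro e he
      rw [mem_diag] at he
      rw [← he.2, ← mul_pow, ← pow_succ', Nat.sub_add_cancel hk, hb, one_pow]
    rw [sum_congr rfl h3, sum_const, nsmul_eq_mul, mul_one, diag_card]
  have h2 : ((∑ p ∈ DD X, ‖∑ t ∈ S, b ^ x t p‖ ^ 2 : ℝ) : ℂ) =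
      (S.card : ℂ) * (DD X).card + ∑ e ∈ S.offDiag, Sg b (b ^ (k - 1)) (x e.1) (x e.2) X := by
    rw [Complex.ofReal_sum, sum_congr rfl fun p _ => h1 p, sum_add_distrib, sum_const,
      nsmul_eq_mul, mul_comm, sum_comm]
    rfl
  have h3 : (0 : ℝ) ≤ ∑ p ∈ DD X, ‖∑ t ∈ S, b ^ x t p‖ ^ 2 := sum_nonneg fun p _ => by positivity
  have h4 : ∑ p ∈ DD X, ‖∑ t ∈ S, b ^ x t p‖ ^ 2 =
      ‖((∑ p ∈ DD X, ‖∑ t ∈ S, b ^ x t p‖ ^ 2 : ℝ) : ℂ)‖ := by
    rw [Complex.norm_real, Real.norm_of_nonneg h3]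
  rw [h4, h2]
  refine (norm_add_le _ _).trans (add_le_add (le_of_eq ?_) (norm_sum_le _ _))
  rw [norm_mul, Complex.norm_natCast, Complex.norm_natCast]

/-- equidistribution from small sums -/
lemma equi_of {k : ℕ} (hk : 1 ≤ k) {ζ : ℂ} (hζ : IsPrimitiveRoot ζ k) (S : Finset ℕ) (y : ℕ → ℕ)
    (j : ℕ) {B : ℝ} (hB0 : 0 ≤ B) (hB : ∀ e ∈ (range k).erase 0, ‖∑ t ∈ S, (ζ ^ e) ^ y t‖ ≤ B) :
    |((S.filter (fun t => y t ≡ j [MOD k])).card : ℝ) - (S.card : ℝ) / k| ≤ B := by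
  classical
  have hkR : (0 : ℝ) < k := by exact_mod_cast (by omega : 0 < k)
  have hk0 : (k : ℂ) ≠ 0 := by
    have : k ≠ 0 := by omega
    exact_mod_cast this
  have hn : ‖ζ‖ = 1 := hζ.norm'_eq_one (by omega)
  have h1 : (k : ℂ) * ((S.filter (fun t => y t ≡ j [MOD k])).card : ℂ) =
      ∑ e ∈ range k, (ζ ^ e) ^ ((k - 1) * j) * ∑ t ∈ S, (ζ ^ e) ^ y t := by
    have h2 : ∑ e ∈ range k, (ζ ^ e) ^ ((k - 1) * j) * ∑ t ∈ S, (ζ ^ e) ^ y t =
        ∑ t ∈ S, ∑ e ∈ range k, (ζ ^ e) ^ (y t + (k - 1) * j) := by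
      rw [sum_comm]
      refine sum_congr rfl fun e _ => ?_
      rw [mul_sum]
      exact sum_congr rfl fun t _ => by rw [pow_add]; ring
    rw [h2, card_filter]
    push_cast
    rw [mul_sum]
    refine sum_congr rfl fun t _ => ?_
    rw [orth hζ]
    by_cases h3 : y t ≡ j [MOD k]
    · rw [if_pos h3, if_pos ((modEq_iff_dvd hk _ _).1 h3), mul_one]
    · rw [if_neg h3, if_neg fun h4 => h3 ((modEq_iff_dvd hk _ _).2 h4), mul_zero]
  have hz : (0 : ℕ) ∈ range k := by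
    rw [mem_range]
    omega
  have h0 : (ζ ^ 0) ^ ((k - 1) * j) * ∑ t ∈ S, (ζ ^ 0) ^ y t = (S.card : ℂ) := by simp
  rw [← add_sum_erase _ _ hz, h0] at h1
  have h2 : ‖(k : ℂ) * ((((S.filter (fun t => y t ≡ j [MOD k])).card : ℝ) -
      (S.card : ℝ) / k : ℝ) : ℂ)‖ ≤ (k - 1 : ℕ) * B := by
    have e1 : (k : ℂ) * ((((S.filter (fun t => y t ≡ j [MOD k])).card : ℝ) -
      (S.card : ℝ) / k : ℝ) : ℂ) = ∑ e ∈ (range k).erase 0,
        (ζ ^ e) ^ ((k - 1) * j) * ∑ t ∈ S, (ζ ^ e) ^ y t := by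
      push_cast
      rw [mul_sub, h1]
      field_simp
      ring
    rw [e1]
    refine (norm_sum_le _ _).trans ?_
    have h3 : ∀ e ∈ (range k).erase 0, ‖(ζ ^ e) ^ ((k - 1) * j) * ∑ t ∈ S, (ζ ^ e) ^ y t‖ ≤ B := by
      intro e he
      rw [norm_mul, norm_pow, norm_pow, hn, one_pow, one_pow, one_mul]
      exact hB e he
    refine (sum_le_sum h3).trans ?_
    rw [sum_const, card_erase_of_mem hz, card_range, nsmul_eq_mul]
  rw [norm_mul, Complex.norm_natCast, Complex.norm_real, Real.norm_eq_abs] at h2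
  have h3 : ((k - 1 : ℕ) : ℝ) * B ≤ k * B := by
    apply mul_le_mul_of_nonneg_right _ hB0
    exact_mod_cast Nat.sub_le k 1
  exact le_of_mul_le_mul_left (h2.trans h3) hkR

open scoped Classical in
/-- almost all progressions -/
theorem aa {k : ℕ} (hk : 1 ≤ k) (S : Finset ℕ) (a : ℕ × ℕ → ℕ) (x : ℕ → ℕ × ℕ → ℕ)
    (hx : ∀ t ∈ S, ∀ s ∈ S, t ≠ s → Sml k (x t) (x s)) {ε : ℝ} (hε : 0 < ε)
    (hS : 2 * k / ε ^ 3 ≤ (S.card : ℝ)) :
    LogNull (fun X => ε * ((DD X).card : ℝ) < (((DD X).filter (fun p => ∃ j : ℕ,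
      ε * S.card < |((S.filter (fun t => a p + x t p ≡ j [MOD k])).card : ℝ) -
        (S.card : ℝ) / k|)).card : ℝ)) := by
  classical
  obtain ⟨ζ, hζ⟩ : ∃ ζ : ℂ, IsPrimitiveRoot ζ k :=
    ⟨_, Complex.isPrimitiveRoot_exp k (by omega)⟩
  have hζk : ∀ l, (ζ ^ l) ^ k = 1 := fun l => by
    rw [← pow_mul, mul_comm, pow_mul, hζ.pow_eq_one, one_pow]
  have hn : ‖ζ‖ = 1 := hζ.norm'_eq_one (by omega)
  have hkR : (1 : ℝ) ≤ k := by exact_mod_cast hk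
  have hSR : (0 : ℝ) < S.card := by
    have : (0 : ℝ) < 2 * k / ε ^ 3 := by positivity
    linarith
  obtain ⟨D, hD⟩ : ∃ D : ℕ → ℝ, D = fun X => ∑ e ∈ (range k).erase 0, ∑ f ∈ S.offDiag,
      ‖Sg (ζ ^ e) ((ζ ^ e) ^ (k - 1)) (x f.1) (x f.2) X‖ := ⟨_, rfl⟩
  have hL : Ls D := by
    rw [hD]
    refine Ls.sum _ fun e he => Ls.sum _ fun f hf => ?_
    rw [mem_offDiag] at hf
    refine hx f.1 hf.1 f.2 hf.2.1 hf.2.2 _ _ (hζk _) ?_ (Or.inl ?_)
    · rw [← pow_mul, mul_comm (k - 1) k, pow_mul, hζk, one_pow]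
    · rw [mem_erase, mem_range] at he
      intro h4
      exact he.1 (Nat.eq_zero_of_dvd_of_lt ((hζ.pow_eq_one_iff_dvd _).1 h4) he.2)
  have hD0 : ∀ X, 0 ≤ D X := by
    intro X
    rw [hD]
    exact sum_nonneg fun e _ => sum_nonneg fun f _ => norm_nonneg _
  refine LogNull.of_ev 0 ?_ (null_dd hD0 hL (ε := ε / 2 * (ε * S.card) ^ 2) (by positivity))
  intro X _ h1
  -- Chebyshev
  have h2 : (((DD X).filter (fun p => ∃ j : ℕ,
      ε * S.card < |((S.filter (fun t => a p + x t p ≡ j [MOD k])).card : ℝ) -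
        (S.card : ℝ) / k|)).card : ℝ) ≤ ∑ e ∈ (range k).erase 0,
      (((DD X).filter (fun p => ε * S.card < ‖∑ t ∈ S, (ζ ^ e) ^ x t p‖)).card : ℝ) := by
    have hsub : (DD X).filter (fun p => ∃ j : ℕ,
        ε * S.card < |((S.filter (fun t => a p + x t p ≡ j [MOD k])).card : ℝ) -
        (S.card : ℝ) / k|) ⊆ ((range k).erase 0).biUnion (fun e =>
        (DD X).filter (fun p => ε * S.card < ‖∑ t ∈ S, (ζ ^ e) ^ x t p‖)) := by
      intro p hp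
      rw [mem_filter] at hp
      obtain ⟨hp1, j, hj⟩ := hp
      rw [mem_biUnion]
      by_contra hcon
      push Not at hcon
      have h3 := equi_of hk hζ S (fun t => a p + x t p) j (B := ε * S.card) (by positivity) (by
        intro e he
        have h4 := hcon e he
        rw [mem_filter, not_and, not_lt] at h4
        have h5 := h4 hp1
        have e1 : ∑ t ∈ S, (ζ ^ e) ^ (a p + x t p) = (ζ ^ e) ^ a p * ∑ t ∈ S, (ζ ^ e) ^ x t p := by
          rw [mul_sum]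
          exact sum_congr rfl fun t _ => pow_add _ _ _
        rw [e1, norm_mul, norm_pow, norm_pow, hn, one_pow, one_pow, one_mul]
        exact h5)
      linarith
    have h3 := (card_le_card hsub).trans card_biUnion_le
    exact_mod_cast h3
  have h3 : ∀ e ∈ (range k).erase 0,
      (((DD X).filter (fun p => ε * S.card < ‖∑ t ∈ S, (ζ ^ e) ^ x t p‖)).card : ℝ) *
        (ε * S.card) ^ 2 ≤ (S.card : ℝ) * (DD X).card + ∑ f ∈ S.offDiag,
      ‖Sg (ζ ^ e) ((ζ ^ e) ^ (k - 1)) (x f.1) (x f.2) X‖ := by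
    intro e _
    refine le_trans ?_ (var_le hk (hζk e) S x X)
    rw [← nsmul_eq_mul, ← sum_const]
    refine (sum_le_sum ?_).trans (sum_le_sum_of_subset_of_nonneg (filter_subset _ _) ?_)
    · intro p hp
      rw [mem_filter] at hp
      exact pow_le_pow_left₀ (by positivity) hp.2.le 2
    · intro p _ _
      positivity
  have h4 := sum_le_sum h3
  rw [← sum_mul, sum_add_distrib, sum_const, card_erase_of_mem (mem_range.2 (by omega)),
    card_range, nsmul_eq_mul] at h4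
  have h5 : (((DD X).filter (fun p => ∃ j : ℕ,
      ε * S.card < |((S.filter (fun t => a p + x t p ≡ j [MOD k])).card : ℝ) -
        (S.card : ℝ) / k|)).card : ℝ) * (ε * S.card) ^ 2 ≤
      ((k - 1 : ℕ) : ℝ) * ((S.card : ℝ) * (DD X).card) + D X := by
    refine (mul_le_mul_of_nonneg_right h2 (by positivity)).trans ?_
    rw [hD]
    exact h4
  have h6 : ((k - 1 : ℕ) : ℝ) ≤ k := by exact_mod_cast Nat.sub_le k 1
  have h7 : (k : ℝ) ≤ ε ^ 3 / 2 * S.card := by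
    rw [div_le_iff₀ (by positivity)] at hS
    linarith
  have h8 : ((k - 1 : ℕ) : ℝ) * ((S.card : ℝ) * (DD X).card) ≤
      ε / 2 * (ε * S.card) ^ 2 * (DD X).card := by
    have h9 : (0 : ℝ) ≤ (S.card : ℝ) * (DD X).card := by positivity
    calc ((k - 1 : ℕ) : ℝ) * ((S.card : ℝ) * (DD X).card) ≤
        (ε ^ 3 / 2 * S.card) * ((S.card : ℝ) * (DD X).card) :=
          mul_le_mul_of_nonneg_right (h6.trans h7) h9
      _ = _ := by ring
  have h10 : ε * ((DD X).card : ℝ) * (ε * S.card) ^ 2 < (((DD X).filter (fun p => ∃ j : ℕ,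
      ε * S.card < |((S.filter (fun t => a p + x t p ≡ j [MOD k])).card : ℝ) -
        (S.card : ℝ) / k|)).card : ℝ) * (ε * S.card) ^ 2 :=
    mul_lt_mul_of_pos_right h1 (by positivity)
  nlinarith

end Pool.Agent.T2H34.Dh
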