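import Pool.Agent.T2H34.DhPer
import Pool.Agent.W251.EX.AllC

/-!
Pairs of determinant `ℓ`, congruent modulo `ℓ`: few of them do not lie in the cone over a good edge.
-/

set_option autoImplicit false

namespace Pool.Agent.T2H34.Dh

open Finset Filter
open Pool.Agent.W78.GA
open Pool.Agent.W78.EC (Gi cone cw PQ th good TT res av InG Tr)
open Pool.Agent.W714.EC (hD01 nmZ mem_cone mem_edge edge_unique dt_mul)
open Pool.Agent.W490.EX (PQ_mem good_edge)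

/-- residue class -/
def rcl (ℓ : ℕ) (z : Gi) : ZMod ℓ × ZMod ℓ := ((z.re : ZMod ℓ), (z.im : ZMod ℓ))

lemma rcl_eq {ℓ : ℕ} {v w : Gi} : rcl ℓ v = rcl ℓ w ↔
    (ℓ : ℤ) ∣ w.re - v.re ∧ (ℓ : ℤ) ∣ w.im - v.im := by
  unfold rcl
  rw [Prod.mk.injEq, ZMod.intCast_eq_intCast_iff_dvd_sub, ZMod.intCast_eq_intCast_iff_dvd_sub]

/-- the points of the segment between two congruent vectors -/
lemma seg {ℓ : ℕ} (hℓ : 1 ≤ ℓ) {v w : Gi} (h : rcl ℓ v = rcl ℓ w) (hd : dt v w = ℓ) :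
    ∃ z : Gi, w = v + (ℓ : Gi) * z ∧ dt v z = 1 := by
  rw [rcl_eq] at h
  obtain ⟨⟨a, ha⟩, ⟨b, hb⟩⟩ := h
  have hℓ' : (ℓ : ℤ) ≠ 0 := by exact_mod_cast (by omega : ℓ ≠ 0)
  refine ⟨⟨a, b⟩, ?_, ?_⟩
  · apply QuadraticAlgebra.ext
    · simp only [QuadraticAlgebra.re_add, QuadraticAlgebra.re_mul, QuadraticAlgebra.re_natCast,
        QuadraticAlgebra.im_natCast]
      linear_combination ha
    · simp only [QuadraticAlgebra.im_add, QuadraticAlgebra.im_mul, QuadraticAlgebra.re_natCast,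
        QuadraticAlgebra.im_natCast]
      linear_combination hb
  · apply mul_left_cancel₀ hℓ'
    unfold dt at hd ⊢
    simp only
    linear_combination hd - v.re * hb + v.im * ha

/-- intermediate points -/
lemma mid {ℓ : ℕ} (hℓ : 1 ≤ ℓ) {v z : Gi} {Y s : ℝ} (hY : 0 ≤ s * Y)
    (hip : 0 < ip v (v + (ℓ : Gi) * z)) (h1 : s * Y < (nm v : ℝ)) (h2 : (nm v : ℝ) ≤ Y)
    (h3 : s * Y < (nm (v + (ℓ : Gi) * z) : ℝ)) (h4 : (nm (v + (ℓ : Gi) * z) : ℝ) ≤ Y) {j : ℕ}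
    (hj : j ≤ ℓ) : s / 2 * Y < (nm (v + (j : Gi) * z) : ℝ) ∧ (nm (v + (j : Gi) * z) : ℝ) ≤ Y := by
  obtain ⟨w, hw⟩ : ∃ w : Gi, w = v + (ℓ : Gi) * z := ⟨_, rfl⟩
  have hr : w.re = v.re + ℓ * z.re := by
    rw [hw]
    simp only [QuadraticAlgebra.re_add, QuadraticAlgebra.re_mul, QuadraticAlgebra.re_natCast,
        QuadraticAlgebra.im_natCast]
    ring
  have hi : w.im = v.im + ℓ * z.im := by
    rw [hw]
    simp only [QuadraticAlgebra.im_add, QuadraticAlgebra.im_mul, QuadraticAlgebra.re_natCast,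
        QuadraticAlgebra.im_natCast]
    ring
  rw [← hw] at hip h3 h4
  have e1 : ((ℓ : ℤ) ^ 2) * (nm (v + (j : Gi) * z) : ℤ) = ((ℓ : ℤ) - j) ^ 2 * nm v +
      (j : ℤ) ^ 2 * nm w + 2 * (j * ((ℓ : ℤ) - j)) * ip v w := by
    rw [nmZ, nmZ, nmZ]
    unfold ip
    simp only [QuadraticAlgebra.re_add, QuadraticAlgebra.re_mul, QuadraticAlgebra.re_natCast,
        QuadraticAlgebra.im_natCast, QuadraticAlgebra.im_add, QuadraticAlgebra.im_mul]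
    rw [hr, hi]
    ring
  have e2 : 2 * ip v w ≤ nm v + nm w := by
    rw [nmZ, nmZ]
    unfold ip
    nlinarith [sq_nonneg (v.re - w.re), sq_nonneg (v.im - w.im)]
  have hjz : (j : ℤ) ≤ ℓ := by exact_mod_cast hj
  have hj0 : (0 : ℤ) ≤ j := by positivity
  have hl0 : (0 : ℤ) < ℓ := by exact_mod_cast (by omega : 0 < ℓ)
  have c0 : (0 : ℤ) ≤ j * ((ℓ : ℤ) - j) := mul_nonneg hj0 (by linarith)
  have lo : ((ℓ : ℤ) - j) ^ 2 * nm v + (j : ℤ) ^ 2 * nm w ≤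
      ((ℓ : ℤ) ^ 2) * (nm (v + (j : Gi) * z) : ℤ) := by
    rw [e1]
    nlinarith [mul_nonneg c0 hip.le]
  have hi' : ((ℓ : ℤ) ^ 2) * (nm (v + (j : Gi) * z) : ℤ) ≤
      ((ℓ : ℤ) - j) * ℓ * nm v + (j : ℤ) * ℓ * nm w := by
    rw [e1]
    nlinarith [mul_le_mul_of_nonneg_left e2 c0]
  have lo' : ((ℓ : ℝ) - j) ^ 2 * nm v + (j : ℝ) ^ 2 * nm w ≤
      ((ℓ : ℝ) ^ 2) * (nm (v + (j : Gi) * z) : ℝ) := by exact_mod_cast lo
  have hi'' : ((ℓ : ℝ) ^ 2) * (nm (v + (j : Gi) * z) : ℝ) ≤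
      ((ℓ : ℝ) - j) * ℓ * nm v + (j : ℝ) * ℓ * nm w := by exact_mod_cast hi'
  have hjR : (j : ℝ) ≤ ℓ := by exact_mod_cast hj
  have hjR0 : (0 : ℝ) ≤ j := by positivity
  have hlR : (0 : ℝ) < ℓ := by exact_mod_cast (by omega : 0 < ℓ)
  constructor
  · have f1 : (ℓ : ℝ) ^ 2 * (s / 2 * Y) ≤ (((ℓ : ℝ) - j) ^ 2 + (j : ℝ) ^ 2) * (s * Y) := by
      nlinarith [mul_nonneg (sq_nonneg ((ℓ : ℝ) - 2 * j)) hY]
    have f2 : (((ℓ : ℝ) - j) ^ 2 + (j : ℝ) ^ 2) * (s * Y) <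
        ((ℓ : ℝ) - j) ^ 2 * nm v + (j : ℝ) ^ 2 * nm w := by
      have g1 := mul_le_mul_of_nonneg_left h1.le (sq_nonneg ((ℓ : ℝ) - j))
      have g2 := mul_le_mul_of_nonneg_left h3.le (sq_nonneg (j : ℝ))
      rcases eq_or_lt_of_le hjR0 with h0 | h0
      · rw [← h0] at g1 g2 ⊢
        have g3 := mul_lt_mul_of_pos_left h1 (by positivity : 0 < ((ℓ : ℝ) - 0) ^ 2)
        linarith
      · have g3 := mul_lt_mul_of_pos_left h3 (by positivity : 0 < (j : ℝ) ^ 2)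
        linarith
    exact lt_of_mul_lt_mul_left (lt_of_le_of_lt f1 (lt_of_lt_of_le f2 lo')) (by positivity)
  · have g1 := mul_le_mul_of_nonneg_left h2 (mul_nonneg (sub_nonneg.2 hjR) hlR.le)
    have g2 := mul_le_mul_of_nonneg_left h4 (mul_nonneg hjR0 hlR.le)
    have f1 : (ℓ : ℝ) ^ 2 * (nm (v + (j : Gi) * z) : ℝ) ≤ (ℓ : ℝ) ^ 2 * Y := by
      calc _ ≤ _ := hi''
        _ ≤ ((ℓ : ℝ) - j) * ℓ * Y + (j : ℝ) * ℓ * Y := add_le_add g1 g2
        _ = _ := by ring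
    exact le_of_mul_le_mul_left f1 (by positivity)

/-- positivity of the inner products of intermediate points -/
lemma mid_ip {ℓ : ℕ} (hℓ : 1 ≤ ℓ) {v z : Gi} (hv : 0 < nm v) (hw : 0 < nm (v + (ℓ : Gi) * z))
    (hip : 0 < ip v (v + (ℓ : Gi) * z)) {j : ℕ} (hj : j < ℓ) :
    0 < ip (v + (j : Gi) * z) (v + ((j + 1 : ℕ) : Gi) * z) := by
  obtain ⟨w, hw'⟩ : ∃ w : Gi, w = v + (ℓ : Gi) * z := ⟨_, rfl⟩
  have hr : w.re = v.re + ℓ * z.re := by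
    rw [hw']
    simp only [QuadraticAlgebra.re_add, QuadraticAlgebra.re_mul, QuadraticAlgebra.re_natCast,
        QuadraticAlgebra.im_natCast]
    ring
  have hi : w.im = v.im + ℓ * z.im := by
    rw [hw']
    simp only [QuadraticAlgebra.im_add, QuadraticAlgebra.im_mul, QuadraticAlgebra.re_natCast,
        QuadraticAlgebra.im_natCast]
    ring
  rw [← hw'] at hip hw
  have e1 : ((ℓ : ℤ) ^ 2) * ip (v + (j : Gi) * z) (v + ((j + 1 : ℕ) : Gi) * z) =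
      ((ℓ : ℤ) - j) * ((ℓ : ℤ) - (j + 1)) * nm v + (j : ℤ) * (j + 1) * nm w +
      (j * ((ℓ : ℤ) - (j + 1)) + (j + 1) * ((ℓ : ℤ) - j)) * ip v w := by
    rw [nmZ, nmZ]
    unfold ip
    simp only [QuadraticAlgebra.re_add, QuadraticAlgebra.re_mul, QuadraticAlgebra.re_natCast,
        QuadraticAlgebra.im_natCast, QuadraticAlgebra.im_add, QuadraticAlgebra.im_mul]
    rw [hr, hi]
    push_cast
    ring
  have hjz : (j : ℤ) + 1 ≤ ℓ := by exact_mod_cast hj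
  have hj0 : (0 : ℤ) ≤ j := by positivity
  have hl0 : (0 : ℤ) < ℓ := by exact_mod_cast (by omega : 0 < ℓ)
  have hvz : (0 : ℤ) < nm v := by exact_mod_cast hv
  have hwz : (0 : ℤ) < nm w := by exact_mod_cast hw
  have c1 : (0 : ℤ) ≤ ((ℓ : ℤ) - j) * ((ℓ : ℤ) - (j + 1)) * nm v :=
    mul_nonneg (mul_nonneg (by linarith) (by linarith)) hvz.le
  have c2 : (0 : ℤ) ≤ (j : ℤ) * (j + 1) * nm w := mul_nonneg (mul_nonneg hj0 (by linarith)) hwz.le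
  have c3 : (0 : ℤ) < (j * ((ℓ : ℤ) - (j + 1)) + (j + 1) * ((ℓ : ℤ) - j)) * ip v w := by
    apply mul_pos _ hip
    have : (0 : ℤ) ≤ j * ((ℓ : ℤ) - (j + 1)) := mul_nonneg hj0 (by linarith)
    have : (0 : ℤ) < (j + 1) * ((ℓ : ℤ) - j) := mul_pos (by linarith) (by linarith)
    linarith
  have c4 : 0 < ((ℓ : ℤ) ^ 2) * ip (v + (j : Gi) * z) (v + ((j + 1 : ℕ) : Gi) * z) := by
    rw [e1]; linarith
  exact (mul_pos_iff_of_pos_left (by positivity)).1 c4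

open scoped Classical in
/-- few pairs do not lie in the cones -/
theorem lossh {ℓ : ℕ} (hℓ : 1 ≤ ℓ) : ∀ s ε : ℝ, 0 < s → 0 < ε → ∃ K₀ : ℕ, ∀ K : ℕ, K₀ ≤ K →
  ∃ κ₀ : ℝ, 0 < κ₀ ∧ ∀ κ : ℝ, 0 < κ → κ ≤ κ₀ → ∃ Q₀ : ℕ, ∀ Q : ℕ, Q₀ ≤ Q → ∃ X₀ : ℝ,
    ∀ X : ℝ, X₀ ≤ X → ∀ p ∈ PQ Q, ∀ π : Gi, nm π = p →
    (((dedgeh ℓ (X / p)).filter (fun e => rcl ℓ e.1 = rcl ℓ e.2 ∧ 0 < ip e.1 e.2 ∧
      s * (X / p) < (nm e.1 : ℝ) ∧ s * (X / p) < (nm e.2 : ℝ) ∧ ¬ InG K κ Q X π e)).card : ℝ) ≤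
      ε * (X / p) := by
  intro s ε hs hε
  have hℓR : (0 : ℝ) < ℓ := by exact_mod_cast (by omega : 0 < ℓ)
  obtain ⟨K₀, hK₀⟩ := Pool.Agent.W721.ECL.loss (s / 2) (ε / ℓ) (by positivity) (by positivity)
  refine ⟨K₀, fun K hK => ?_⟩
  obtain ⟨κ₀, hκ₀, hκ⟩ := hK₀ K hK
  refine ⟨κ₀, hκ₀, fun κ hκ1 hκ2 => ?_⟩
  obtain ⟨Q₀, hQ₀⟩ := hκ κ hκ1 hκ2
  refine ⟨Q₀, fun Q hQ => ?_⟩
  obtain ⟨X₀, hX₀⟩ := hQ₀ Q hQ
  refine ⟨max X₀ 0, fun X hX p hp π hπ => ?_⟩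
  have hXa : X₀ ≤ X := (le_max_left _ _).trans hX
  have hXb : 0 ≤ X := (le_max_right _ _).trans hX
  have hbase := hX₀ X hXa p hp π hπ
  have hpp := (PQ_mem hp).2.2.1
  have hp0 : (0 : ℝ) < p := by exact_mod_cast hpp.pos
  obtain ⟨Y, hY⟩ : ∃ Y : ℝ, Y = X / p := ⟨_, rfl⟩
  have hY0 : 0 ≤ Y := by rw [hY]; positivity
  rw [← hY] at hbase ⊢
  obtain ⟨A, hA⟩ : ∃ A : Finset (Gi × Gi), A = (dedgeh ℓ Y).filter (fun e => rcl ℓ e.1 = rcl ℓ e.2 ∧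
    0 < ip e.1 e.2 ∧ s * Y < (nm e.1 : ℝ) ∧ s * Y < (nm e.2 : ℝ) ∧ ¬ InG K κ Q X π e) := ⟨_, rfl⟩
  obtain ⟨B, hB⟩ : ∃ B : Finset (Gi × Gi), B = (dedge 0 1 Y).filter (fun e => 0 < ip e.1 e.2 ∧
    s / 2 * Y < (nm e.1 : ℝ) ∧ s / 2 * Y < (nm e.2 : ℝ) ∧ ¬ InG K κ Q X π e) := ⟨_, rfl⟩
  rw [← hA]
  rw [← hB] at hbase
  -- the segments
  have hseg : ∀ e ∈ A, ∃ z : Gi, e.2 = e.1 + (ℓ : Gi) * z ∧ dt e.1 z = 1 := by
    intro e he
    rw [hA, mem_filter, mem_dedgeh] at he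
    exact seg hℓ he.2.1 he.1.2.2
  choose! Z hZ using hseg
  have hcov : ∀ e ∈ A, ∃ j ∈ range ℓ, (e.1 + (j : Gi) * Z e, e.1 + ((j + 1 : ℕ) : Gi) * Z e) ∈ B := by
    intro e he
    obtain ⟨z1, z2⟩ := hZ e he
    rw [hA, mem_filter, mem_dedgeh] at he
    obtain ⟨⟨⟨p1, n1⟩, ⟨p2, n2⟩, -⟩, -, hip, m1, m2, hnot⟩ := he
    obtain ⟨v, hv⟩ : ∃ v : Gi, v = e.1 := ⟨_, rfl⟩
    obtain ⟨z, hz⟩ : ∃ z : Gi, z = Z e := ⟨_, rfl⟩
    rw [← hv, ← hz] at z1 z2 ⊢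
    have hsY : 0 ≤ s * Y := by positivity
    rw [z1, ← hv] at hip
    rw [← hv] at m1 n1 p1
    rw [z1] at m2 n2
    have hnv : 0 < nm v := by
      have : (0 : ℝ) < nm v := lt_of_le_of_lt hsY m1
      exact_mod_cast this
    have hnw : 0 < nm (v + (ℓ : Gi) * z) := by
      have : (0 : ℝ) < nm (v + (ℓ : Gi) * z) := lt_of_le_of_lt hsY m2
      exact_mod_cast this
    have hdt : ∀ j : ℕ, dt (v + (j : Gi) * z) (v + ((j + 1 : ℕ) : Gi) * z) = 1 := by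
      intro j
      refine Eq.trans ?_ z2
      unfold dt
      simp only [QuadraticAlgebra.re_add, QuadraticAlgebra.re_mul, QuadraticAlgebra.re_natCast,
        QuadraticAlgebra.im_natCast, QuadraticAlgebra.im_add, QuadraticAlgebra.im_mul]
      push_cast
      ring
    by_contra hcon
    push Not at hcon
    -- all consecutive pairs are in the cones
    have hprim : ∀ j : ℕ, prim (v + (j : Gi) * z) := by
      intro j
      unfold prim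
      rw [← Int.isCoprime_iff_gcd_eq_one]
      have h := hdt j
      unfold dt at h
      refine ⟨(v + ((j + 1 : ℕ) : Gi) * z).im, -(v + ((j + 1 : ℕ) : Gi) * z).re, ?_⟩
      linear_combination h
    have hall : ∀ j < ℓ, InG K κ Q X π (v + (j : Gi) * z, v + ((j + 1 : ℕ) : Gi) * z) := by
      intro j hj
      by_contra hng
      apply hcon j (mem_range.2 hj)
      have b1 := mid hℓ hsY hip m1 n1 m2 n2 hj.le
      have b2 := mid hℓ hsY hip m1 n1 m2 n2 (j := j + 1) hj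
      rw [hB, mem_filter]
      refine ⟨?_, mid_ip hℓ hnv hnw hip hj, b1.1, b2.1, hng⟩
      unfold dedge
      rw [mem_filter, mem_product, mem_pball hD01, mem_pball hD01]
      exact ⟨⟨⟨hprim j, b1.2⟩, ⟨hprim (j + 1), b2.2⟩⟩, hdt j⟩
    obtain ⟨f, hf, hf1, hf2⟩ := hall 0 (by omega)
    have hstep : ∀ j : ℕ, j < ℓ → π * (v + ((j + 1 : ℕ) : Gi) * z) ∈ cone X f.1 f.2 := by
      intro j
      induction j with
      | zero => intro _; exact hf2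
      | succ j ih =>
        intro hj
        obtain ⟨f', hf', hf1', hf2'⟩ := hall (j + 1) hj
        have h6 := mem_cone.1 (ih (by omega))
        have h7 := mem_cone.1 hf1'
        have h8 : f = f' := edge_unique (good_edge hf) (good_edge hf') h6.2.1 h6.2.2 h7.2.1 h7.2.2
        rw [h8]
        exact hf2'
    apply hnot
    refine ⟨f, hf, ?_, ?_⟩
    · have e0 : π * (v + ((0 : ℕ) : Gi) * z) = π * e.1 := by
        rw [← hv, Nat.cast_zero, zero_mul, add_zero]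
      rw [← e0]
      exact hf1
    · rw [z1]
      have h9 := hstep (ℓ - 1) (by omega)
      have e1 : ℓ - 1 + 1 = ℓ := by omega
      rw [e1] at h9
      exact h9
  choose! J hJ using hcov
  -- counting
  have hcard : A.card ≤ ((range ℓ) ×ˢ B).card := by
    refine card_le_card_of_injOn (fun e => (J e, (e.1 + (J e : Gi) * Z e,
      e.1 + ((J e + 1 : ℕ) : Gi) * Z e))) ?_ ?_
    · intro e he
      rw [mem_coe] at he
      rw [mem_coe, mem_product]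
      exact hJ e he
    · intro e he e' he' heq
      rw [mem_coe] at he he'
      simp only [Prod.mk.injEq] at heq
      obtain ⟨q1, q2, q3⟩ := heq
      have q4 : Z e = Z e' := by
        have r1 : Z e = (e.1 + ((J e + 1 : ℕ) : Gi) * Z e) - (e.1 + (J e : Gi) * Z e) := by
          push_cast
          ring
        have r2 : Z e' = (e'.1 + ((J e' + 1 : ℕ) : Gi) * Z e') - (e'.1 + (J e' : Gi) * Z e') := by
          push_cast
          ring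
        rw [r1, r2, q2, q3]
      have q5 : e.1 = e'.1 := by
        rw [q1, q4] at q2
        exact add_right_cancel q2
      refine Prod.ext q5 ?_
      rw [(hZ e he).1, (hZ e' he').1, q5, q4]
  rw [card_product, card_range] at hcard
  calc (A.card : ℝ) ≤ (ℓ : ℝ) * B.card := by exact_mod_cast hcard
    _ ≤ ℓ * (ε / ℓ * Y) := by
        apply mul_le_mul_of_nonneg_left _ hℓR.le
        exact hbase
    _ = ε * Y := by field_simp

end Pool.Agent.T2H34.Dh
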