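import Pool.Agent.T2H34.DhReg

/-!
Pairs of determinant `ℓ`, congruent modulo `ℓ`: the correlations are small at almost all scales.
-/

set_option autoImplicit false

namespace Pool.Agent.T2H34.Dh

open Finset Filter
open Pool.Agent.W78.GA (Qd nm prim dt ip lat ball pball edge nm_mul prim_ne_zero)
open Pool.Agent.W78.EC (Gi cone cw PQ th good InG TT res av Tr)
open Pool.Agent.W251.EX
open Pool.Agent.W78.EC.Fx
open Pool.Agent.W540.EC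
open Pool.Agent.W214.EX (Vs wF norm_Vs)
open Pool.Agent.W460.EX (aa aa_of sv_aa)
open Pool.Agent.T2H34 (normV)

open scoped Classical in
theorem Th_eq (ℓ : ℕ) (F₁ F₂ : Gi → ℂ) (s₁ s₂ s₃ s₄ X : ℝ) :
    Th ℓ F₁ F₂ s₁ s₂ s₃ s₄ X = AGw ℓ (fun e => if rcl ℓ e.1 = rcl ℓ e.2 then F₁ e.1 * F₂ e.2
      else 0) s₁ s₂ s₃ s₄ X := by
  unfold Th AGw FFw
  rw [← filter_filter, sum_filter (s := (dedgeh ℓ X).filter (fun e => 0 < ip e.1 e.2))]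
  refine sum_congr rfl fun e _ => ?_
  unfold Gh Pool.Agent.W214.EX.wF
  have hiff : (s₁ * X < (nm e.1 : ℝ) ∧ (nm e.1 : ℝ) ≤ s₂ * X ∧ s₃ * X < (nm e.2 : ℝ) ∧
      (nm e.2 : ℝ) ≤ s₄ * X) ↔ ((s₁ * X < (nm e.1 : ℝ) ∧ (nm e.1 : ℝ) ≤ s₂ * X) ∧
      (s₃ * X < (nm e.2 : ℝ) ∧ (nm e.2 : ℝ) ≤ s₄ * X)) := by tauto
  simp only [hiff]
  by_cases h0 : rcl ℓ e.1 = rcl ℓ e.2
  · simp only [if_pos h0]
    by_cases h1 : s₁ * X < (nm e.1 : ℝ) ∧ (nm e.1 : ℝ) ≤ s₂ * X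
    · by_cases h2 : s₃ * X < (nm e.2 : ℝ) ∧ (nm e.2 : ℝ) ≤ s₄ * X
      · simp only [if_pos h1, if_pos h2, if_pos (And.intro h1 h2)]
      · have h3 : ¬ ((s₁ * X < (nm e.1 : ℝ) ∧ (nm e.1 : ℝ) ≤ s₂ * X) ∧
          (s₃ * X < (nm e.2 : ℝ) ∧ (nm e.2 : ℝ) ≤ s₄ * X)) := fun h => h2 h.2
        simp only [if_neg h2, if_neg h3, mul_zero]
    · have h3 : ¬ ((s₁ * X < (nm e.1 : ℝ) ∧ (nm e.1 : ℝ) ≤ s₂ * X) ∧
          (s₃ * X < (nm e.2 : ℝ) ∧ (nm e.2 : ℝ) ≤ s₄ * X)) := fun h => h1 h.1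
      simp only [if_neg h1, if_neg h3, zero_mul]
  · simp only [if_neg h0, ite_self]

/-- from averages over primes to almost all scales, compare `Pool.Agent.T2H34.main3` -/
theorem main_gen (T : ℝ → ℂ) {C : ℝ} (hC0 : 0 < C) (hb : ∀ X : ℝ, 0 < X → ‖T X‖ ≤ C * X)
    (hr : ∀ δ : ℝ, 0 < δ → δ ≤ 1 → ∃ X₀ : ℝ, ∀ X X' : ℝ, X₀ ≤ X → X ≤ X' →
      X' ≤ (1 + δ) * X → ‖T X' - T X‖ ≤ C * δ * X)
    (hav : ∀ ε : ℝ, 0 < ε → ∀ Q₁ : ℕ, ∃ Q₂ N₀ : ℕ, ∀ N' : ℕ, N₀ ≤ N' →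
      ∃ Q : ℕ, Q₁ ≤ Q ∧ Q ≤ Q₂ ∧ ∑ X ∈ Icc 1 N', 1 / (X : ℝ) ^ 2 *
      ‖∑ p ∈ PQ Q, ((Real.log p * ((p : ℝ) + 1) : ℝ) : ℂ) * T ((X : ℝ) / p)‖ ≤
        ε * Q * Real.log N') (ε : ℝ) (hε : 0 < ε) :
    ∃ N₀ : ℕ, ∀ N' : ℕ, N₀ ≤ N' → ∑ X ∈ Icc 1 N', 1 / (X : ℝ) ^ 2 * ‖T X‖ ≤
      ε * Real.log N' := by
  have hSv := sv_aa hC0 hb hr
  obtain ⟨c', C', hc', Q₀, hQ₀⟩ := Pool.Agent.W899.EC.pcnt
  have hmain := Pool.Agent.W588.EX.dcv pw (aa T) (2 * C) hSv ?_ ε hε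
  · obtain ⟨N₀, hN₀⟩ := hmain
    refine ⟨N₀, fun N' hN' => ?_⟩
    refine le_trans (le_of_eq ?_) (hN₀ N' hN')
    refine Finset.sum_congr rfl fun X hX => ?_
    have hX1 : (0 : ℝ) < X := by
      have := (Finset.mem_Icc.1 hX).1
      exact_mod_cast this
    rw [aa_of hX1, norm_div, Complex.norm_real, Real.norm_of_nonneg hX1.le]
    field_simp
  · intro η hη Q₁
    obtain ⟨T', hT'⟩ : ∃ T' : ℕ, 4 * (C * |C'|) / η ≤ T' := exists_nat_ge _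
    obtain ⟨Q₂, N₀, hN₀⟩ := hav (η / 2) (by positivity) (max (max Q₁ Q₀) (max T' 1))
    refine ⟨Q₂, max N₀ 3, fun N' hN' => ?_⟩
    obtain ⟨Q, hQ1, hQ2, hQ3⟩ := hN₀ N' ((le_max_left _ _).trans hN')
    have hN3 : 3 ≤ N' := (le_max_right _ _).trans hN'
    have ha : Q₁ ≤ Q := (le_max_left _ _).trans ((le_max_left _ _).trans hQ1)
    have hb' : Q₀ ≤ Q := (le_max_right _ _).trans ((le_max_left _ _).trans hQ1)
    have hc'' : T' ≤ Q := (le_max_left _ _).trans ((le_max_right _ _).trans hQ1)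
    have hd : 1 ≤ Q := (le_max_right _ _).trans ((le_max_right _ _).trans hQ1)
    have hQpos : (0 : ℝ) < Q := by exact_mod_cast hd
    refine ⟨Q, ha, hQ2, ?_⟩
    have hlog : 1 ≤ Real.log N' := by
      rw [← Real.log_exp 1]
      apply Real.log_le_log (Real.exp_pos 1)
      have h4 := Real.exp_one_lt_d9
      have h5 : (3 : ℝ) ≤ N' := by exact_mod_cast hN3
      linarith
    have hmem : ∀ p ∈ PQ Q, Q < p := fun p hp => (PQ_mem hp).1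
    have hlogp : ∀ p ∈ PQ Q, 0 ≤ Real.log p := fun p _ => Real.log_natCast_nonneg p
    -- the error term
    have hsum : ∀ X : ℕ, 1 ≤ X → 1 / (X : ℝ) * ‖∑ p ∈ PQ Q, (Real.log p : ℂ) *
        aa T ((X : ℝ) / p)‖ ≤ 1 / (X : ℝ) ^ 2 *
          ‖∑ p ∈ PQ Q, ((Real.log p * ((p : ℝ) + 1) : ℝ) : ℂ) * T ((X : ℝ) / p)‖ +
            C * |C'| * (1 / (X : ℝ)) := by
      intro X hX
      have hX1 : (0 : ℝ) < X := by exact_mod_cast hX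
      have hXc : (X : ℂ) ≠ 0 := by
        have : X ≠ 0 := by omega
        exact_mod_cast this
      have e1 : ∑ p ∈ PQ Q, (Real.log p : ℂ) * aa T ((X : ℝ) / p) = (1 / (X : ℂ)) *
          (∑ p ∈ PQ Q, ((Real.log p * ((p : ℝ) + 1) : ℝ) : ℂ) * T ((X : ℝ) / p) -
            ∑ p ∈ PQ Q, (Real.log p : ℂ) * T ((X : ℝ) / p)) := by
        rw [← Finset.sum_sub_distrib, Finset.mul_sum]
        refine Finset.sum_congr rfl fun p hp => ?_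
        have hp1 : 0 < p := by
          have := hmem p hp
          omega
        have hp2 : (0 : ℝ) < p := by exact_mod_cast hp1
        have hp3 : (p : ℂ) ≠ 0 := by
          have : p ≠ 0 := by omega
          exact_mod_cast this
        rw [aa_of (div_pos hX1 hp2)]
        push_cast
        field_simp
        ring
      have e2 : ‖∑ p ∈ PQ Q, (Real.log p : ℂ) * T ((X : ℝ) / p)‖ ≤ C * |C'| * X := by
        calc ‖∑ p ∈ PQ Q, (Real.log p : ℂ) * T ((X : ℝ) / p)‖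
            ≤ ∑ p ∈ PQ Q, ‖(Real.log p : ℂ) * T ((X : ℝ) / p)‖ := norm_sum_le _ _
          _ ≤ ∑ p ∈ PQ Q, Real.log p * (C * (X / Q)) := by
              refine Finset.sum_le_sum fun p hp => ?_
              have hp1 := hmem p hp
              have hp2 : (Q : ℝ) ≤ p := by exact_mod_cast hp1.le
              have hp3 : (0 : ℝ) < p := lt_of_lt_of_le hQpos hp2
              rw [norm_mul, Complex.norm_real, Real.norm_of_nonneg (hlogp p hp)]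
              refine mul_le_mul_of_nonneg_left ((hb _ (div_pos hX1 hp3)).trans ?_) (hlogp p hp)
              gcongr
          _ = (∑ p ∈ PQ Q, Real.log p) * (C * (X / Q)) := by rw [Finset.sum_mul]
          _ ≤ (|C'| * Q) * (C * (X / Q)) := by
              refine mul_le_mul_of_nonneg_right ?_ (by positivity)
              refine ((hQ₀ Q hb').2.2.2).trans ?_
              exact mul_le_mul_of_nonneg_right (le_abs_self _) hQpos.le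
          _ = C * |C'| * X := by field_simp
      rw [e1, norm_mul, norm_div, norm_one, Complex.norm_natCast]
      have e3 := norm_sub_le
        (∑ p ∈ PQ Q, ((Real.log p * ((p : ℝ) + 1) : ℝ) : ℂ) * T ((X : ℝ) / p))
        (∑ p ∈ PQ Q, (Real.log p : ℂ) * T ((X : ℝ) / p))
      have e4 : 1 / (X : ℝ) * (1 / (X : ℝ) *
          ‖∑ p ∈ PQ Q, ((Real.log p * ((p : ℝ) + 1) : ℝ) : ℂ) * T ((X : ℝ) / p) -
            ∑ p ∈ PQ Q, (Real.log p : ℂ) * T ((X : ℝ) / p)‖) ≤ 1 / (X : ℝ) * (1 / (X : ℝ) *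
          (‖∑ p ∈ PQ Q, ((Real.log p * ((p : ℝ) + 1) : ℝ) : ℂ) * T ((X : ℝ) / p)‖ +
            C * |C'| * X)) := by
        have h0 : 0 ≤ 1 / (X : ℝ) := by positivity
        exact mul_le_mul_of_nonneg_left (mul_le_mul_of_nonneg_left (e3.trans (by linarith)) h0) h0
      refine e4.trans (le_of_eq ?_)
      field_simp
    calc ∑ X ∈ Icc 1 N', 1 / (X : ℝ) * ‖∑ p ∈ PQ Q, (Real.log p : ℂ) * aa T ((X : ℝ) / p)‖
        ≤ ∑ X ∈ Icc 1 N', (1 / (X : ℝ) ^ 2 *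
          ‖∑ p ∈ PQ Q, ((Real.log p * ((p : ℝ) + 1) : ℝ) : ℂ) * T ((X : ℝ) / p)‖ +
            C * |C'| * (1 / (X : ℝ))) :=
          Finset.sum_le_sum fun X hX => hsum X (Finset.mem_Icc.1 hX).1
      _ = ∑ X ∈ Icc 1 N', 1 / (X : ℝ) ^ 2 *
          ‖∑ p ∈ PQ Q, ((Real.log p * ((p : ℝ) + 1) : ℝ) : ℂ) * T ((X : ℝ) / p)‖ +
            C * |C'| * ∑ X ∈ Icc 1 N', 1 / (X : ℝ) := by
          rw [Finset.sum_add_distrib, ← Finset.mul_sum]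
      _ ≤ η / 2 * Q * Real.log N' + C * |C'| * (1 + Real.log N') := by
          have h0 : 0 ≤ C * |C'| := by positivity
          exact add_le_add hQ3 (mul_le_mul_of_nonneg_left (Pool.Agent.W460.EX.harm_le N') h0)
      _ ≤ η * Q * Real.log N' := by
          have h0 : 0 ≤ C * |C'| := by positivity
          have h4 : 4 * (C * |C'|) ≤ η * Q := by
            rw [div_le_iff₀ hη] at hT'
            have h5 : (T' : ℝ) ≤ Q := by exact_mod_cast hc''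
            calc 4 * (C * |C'|) ≤ T' * η := hT'
              _ ≤ Q * η := by gcongr
              _ = η * Q := mul_comm _ _
          have h5 : C * |C'| * (1 + Real.log N') ≤ C * |C'| * (2 * Real.log N') := by
            apply mul_le_mul_of_nonneg_left _ h0
            linarith
          have h6 : 4 * (C * |C'|) * Real.log N' ≤ η * Q * Real.log N' := by
            apply mul_le_mul_of_nonneg_right h4
            linarith
          linarith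

/-- the correlations are small at almost all scales -/
theorem mainh {N : ℕ} (hN : 1 ≤ N) {ℓ : ℕ} [NeZero ℓ] {F₁ F₂ : Gi → ℂ} (h1 : ∀ z, F₁ z ∈ Vs N)
    (h2 : ∀ z, F₂ z ∈ Vs N) {τ₁ τ₂ : ℂ} (ht1 : ‖τ₁‖ = 1) (ht2 : ‖τ₂‖ = 1)
    (hm1 : ∀ π z : Gi, (nm π).Prime → z ≠ 0 → F₁ (π * z) = τ₁ * F₁ z)
    (hm2 : ∀ π z : Gi, (nm π).Prime → z ≠ 0 → F₂ (π * z) = τ₂ * F₂ z)
    (hM1 : Mrs (fun z => (F₂ z).re)) (hM2 : Mrs (fun z => (F₂ z).im))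
    {s₁ s₂ s₃ s₄ : ℝ} (hs₁ : 0 < s₁) (hs₁₂ : s₁ < s₂) (hs₂ : s₂ ≤ 1) (hs₃ : 0 < s₃)
    (hs₃₄ : s₃ < s₄) (hs₄ : s₄ ≤ 1) (ε : ℝ) (hε : 0 < ε) :
    ∃ N₀ : ℕ, ∀ N' : ℕ, N₀ ≤ N' → ∑ X ∈ Icc 1 N', 1 / (X : ℝ) ^ 2 *
      ‖Th ℓ F₁ F₂ s₁ s₂ s₃ s₄ X‖ ≤ ε * Real.log N' := by
  classical
  obtain ⟨g, hg⟩ : ∃ g : Gi × Gi → ℂ, g = fun e => if rcl ℓ e.1 = rcl ℓ e.2 then F₁ e.1 * F₂ e.2
      else 0 := ⟨_, rfl⟩
  have hg1 : ∀ e, ‖g e‖ ≤ 1 := fun e => by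
    rw [hg]
    simp only
    split_ifs
    · rw [norm_mul]
      exact mul_le_one₀ (normV hN (h1 _)) (norm_nonneg _) (normV hN (h2 _))
    · rw [norm_zero]; exact zero_le_one
  obtain ⟨C, hC, hb, hr⟩ := regxw ℓ g hg1 s₁ s₂ s₃ s₄ hs₁ hs₁₂ hs₂ hs₃ hs₃₄ hs₄
  have hTeq : ∀ x, Th ℓ F₁ F₂ s₁ s₂ s₃ s₄ x = AGw ℓ g s₁ s₂ s₃ s₄ x := by
    intro x
    rw [hg, Th_eq]
  refine main_gen (Th ℓ F₁ F₂ s₁ s₂ s₃ s₄) hC ?_ ?_ ?_ ε hε
  · intro X hX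
    rw [hTeq]
    exact hb X hX
  · intro δ hδ hδ1
    obtain ⟨X₀, hX₀⟩ := hr δ hδ hδ1
    refine ⟨X₀, fun X X' a b c => ?_⟩
    rw [hTeq, hTeq]
    exact hX₀ X X' a b c
  · exact avxh hN h1 h2 ht1 ht2 hm1 hm2 hM1 hM2 hs₁ hs₃ hs₃₄ hs₄

end Pool.Agent.T2H34.Dh
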