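import Pool.Agent.T2H34.DhPat3

/-!
Patterns of any length for almost all tuples of shifts.
-/

set_option autoImplicit false

namespace Pool.Agent.T2H34.Dh

open Finset Filter
open ArithmeticFunction (cardFactors)
open Pool.Agent.TH890.DV (LogNull)
open Pool.Agent.W397.EX (orth modEq_iff_dvd)

/-- the correlation of order `r` -/
noncomputable def Cr {r : ℕ} (b : Fin r → ℂ) (x : ℕ → ℕ × ℕ → ℕ) (t : Fin r → ℕ) (X : ℕ) : ℂ :=
  ∑ p ∈ DD X, ∏ j, b j ^ x (t j) p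

/-- correlation of two sequences -/
noncomputable def Yc (b : ℂ) (x : ℕ → ℕ × ℕ → ℕ) (S : Finset ℕ) (p p' : ℕ × ℕ) : ℂ :=
  ∑ t ∈ S, b ^ x t p * (starRingEnd ℂ) (b ^ x t p')

lemma conj_root {k : ℕ} (hk : 1 ≤ k) {b : ℂ} (hb : b ^ k = 1) : (starRingEnd ℂ) b = b ^ (k - 1) := by
  have hn : ‖b‖ = 1 := norm_root hk hb
  have h1 : b * (starRingEnd ℂ) b = 1 := by
    rw [Complex.mul_conj, Complex.normSq_eq_norm_sq, hn]
    norm_num
  have h2 : b * b ^ (k - 1) = 1 := by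
    rw [← pow_succ', Nat.sub_add_cancel hk, hb]
  have hb0 : b ≠ 0 := by
    rintro rfl
    simp at hn
  exact mul_left_cancel₀ hb0 (h1.trans h2.symm)

lemma Yc_le {b : ℂ} (hb : ‖b‖ = 1) (x : ℕ → ℕ × ℕ → ℕ) (S : Finset ℕ) (p p' : ℕ × ℕ) :
    ‖Yc b x S p p'‖ ≤ S.card := by
  unfold Yc
  refine (norm_sum_le _ _).trans ?_
  have : ∀ t ∈ S, ‖b ^ x t p * (starRingEnd ℂ) (b ^ x t p')‖ ≤ 1 := by
    intro t _
    rw [norm_mul, RCLike.norm_conj, norm_pow, norm_pow, hb, one_pow, one_pow, one_mul]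
  refine (sum_le_sum this).trans ?_
  rw [sum_const, nsmul_eq_mul, mul_one]

/-- second moment over the tuples -/
lemma mom_eq {r : ℕ} (b : Fin r → ℂ) (x : ℕ → ℕ × ℕ → ℕ) (S : Finset ℕ) (X : ℕ) :
    ((∑ t ∈ Fintype.piFinset (fun _ : Fin r => S), ‖Cr b x t X‖ ^ 2 : ℝ) : ℂ) =
      ∑ q ∈ DD X ×ˢ DD X, ∏ j, Yc (b j) x S q.1 q.2 := by
  have h1 : ∀ t : Fin r → ℕ, ((‖Cr b x t X‖ ^ 2 : ℝ) : ℂ) = ∑ q ∈ DD X ×ˢ DD X,
      ∏ j, (b j ^ x (t j) q.1 * (starRingEnd ℂ) (b j ^ x (t j) q.2)) := by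
    intro t
    rw [← Complex.normSq_eq_norm_sq, ← Complex.mul_conj]
    unfold Cr
    rw [map_sum, sum_mul_sum, ← sum_product']
    refine sum_congr rfl fun q _ => ?_
    rw [map_prod, ← prod_mul_distrib]
  rw [Complex.ofReal_sum, sum_congr rfl fun t _ => h1 t, sum_comm]
  refine sum_congr rfl fun q _ => ?_
  unfold Yc
  rw [prod_univ_sum]

/-- the mean square of `Yc` -/
lemma Yc_sq {k : ℕ} (hk : 1 ≤ k) {b : ℂ} (hb : b ^ k = 1) (x : ℕ → ℕ × ℕ → ℕ) (S : Finset ℕ)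
    (X : ℕ) : ∑ q ∈ DD X ×ˢ DD X, ‖Yc b x S q.1 q.2‖ ^ 2 ≤ (S.card : ℝ) * ((DD X).card : ℝ) ^ 2 +
      ((DD X).card : ℝ) * ∑ e ∈ S.offDiag, ‖Sg b (b ^ (k - 1)) (x e.1) (x e.2) X‖ := by
  classical
  have hn : ‖b‖ = 1 := norm_root hk hb
  have hconj := conj_root hk hb
  have h1 : ((∑ q ∈ DD X ×ˢ DD X, ‖Yc b x S q.1 q.2‖ ^ 2 : ℝ) : ℂ) =
      ((∑ e ∈ S ×ˢ S, ‖Sg b (b ^ (k - 1)) (x e.1) (x e.2) X‖ ^ 2 : ℝ) : ℂ) := by
    have h2 : ∀ q : (ℕ × ℕ) × (ℕ × ℕ), ((‖Yc b x S q.1 q.2‖ ^ 2 : ℝ) : ℂ) = ∑ e ∈ S ×ˢ S,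
        (b ^ x e.1 q.1 * (b ^ (k - 1)) ^ x e.2 q.1) *
          (starRingEnd ℂ) (b ^ x e.1 q.2 * (b ^ (k - 1)) ^ x e.2 q.2) := by
      intro q
      rw [← Complex.normSq_eq_norm_sq, ← Complex.mul_conj]
      unfold Yc
      rw [map_sum, sum_mul_sum, ← sum_product']
      refine sum_congr rfl fun e _ => ?_
      rw [← hconj]
      simp only [map_mul, map_pow, Complex.conj_conj]
      ring
    have h3 : ∀ e : ℕ × ℕ, ((‖Sg b (b ^ (k - 1)) (x e.1) (x e.2) X‖ ^ 2 : ℝ) : ℂ) =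
        ∑ q ∈ DD X ×ˢ DD X, (b ^ x e.1 q.1 * (b ^ (k - 1)) ^ x e.2 q.1) *
          (starRingEnd ℂ) (b ^ x e.1 q.2 * (b ^ (k - 1)) ^ x e.2 q.2) := by
      intro e
      rw [← Complex.normSq_eq_norm_sq, ← Complex.mul_conj]
      unfold Sg
      rw [map_sum, sum_mul_sum, ← sum_product']
    rw [Complex.ofReal_sum, Complex.ofReal_sum, sum_congr rfl fun q _ => h2 q,
      sum_congr rfl fun e _ => h3 e, sum_comm]
  have h2 : ∑ q ∈ DD X ×ˢ DD X, ‖Yc b x S q.1 q.2‖ ^ 2 =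
      ∑ e ∈ S ×ˢ S, ‖Sg b (b ^ (k - 1)) (x e.1) (x e.2) X‖ ^ 2 := by exact_mod_cast h1
  have htriv : ∀ e : ℕ × ℕ, ‖Sg b (b ^ (k - 1)) (x e.1) (x e.2) X‖ ≤ (DD X).card := by
    intro e
    unfold Sg
    refine (norm_sum_le _ _).trans ?_
    have : ∀ p ∈ DD X, ‖b ^ x e.1 p * (b ^ (k - 1)) ^ x e.2 p‖ ≤ 1 := by
      intro p _
      rw [norm_mul, norm_pow, norm_pow, norm_pow, hn]
      simp
    refine (sum_le_sum this).trans ?_
    rw [sum_const, nsmul_eq_mul, mul_one]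
  rw [h2, ← diag_union_offDiag, sum_union (disjoint_diag_offDiag S)]
  apply add_le_add
  · have : ∀ e ∈ S.diag, ‖Sg b (b ^ (k - 1)) (x e.1) (x e.2) X‖ ^ 2 ≤ ((DD X).card : ℝ) ^ 2 :=
      fun e _ => pow_le_pow_left₀ (norm_nonneg _) (htriv e) 2
    refine (sum_le_sum this).trans ?_
    rw [sum_const, nsmul_eq_mul, diag_card]
  · rw [mul_sum]
    apply sum_le_sum
    intro e _
    rw [sq]
    exact mul_le_mul_of_nonneg_right (htriv e) (norm_nonneg _)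

/-- second moment over the tuples, upper bound -/
lemma mom_le {k : ℕ} (hk : 1 ≤ k) {r : ℕ} (b : Fin r → ℂ) (hb : ∀ j, b j ^ k = 1) (j₀ : Fin r)
    (x : ℕ → ℕ × ℕ → ℕ) (S : Finset ℕ) (hS : 0 < S.card) (X : ℕ)
    (hsm : ∑ e ∈ S.offDiag, ‖Sg (b j₀) ((b j₀) ^ (k - 1)) (x e.1) (x e.2) X‖ ≤ (DD X).card) :
    ∑ t ∈ Fintype.piFinset (fun _ : Fin r => S), ‖Cr b x t X‖ ^ 2 ≤
      (S.card : ℝ) ^ r / Real.sqrt S.card * (2 * ((DD X).card : ℝ) ^ 2) := by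
  classical
  have hSR : (1 : ℝ) ≤ S.card := by exact_mod_cast hS
  have hr : 1 ≤ r := by
    have := j₀.2
    omega
  have h0 : (0 : ℝ) ≤ ∑ t ∈ Fintype.piFinset (fun _ : Fin r => S), ‖Cr b x t X‖ ^ 2 :=
    sum_nonneg fun t _ => by positivity
  have h1 : ∑ t ∈ Fintype.piFinset (fun _ : Fin r => S), ‖Cr b x t X‖ ^ 2 ≤
      ∑ q ∈ DD X ×ˢ DD X, ∏ j, ‖Yc (b j) x S q.1 q.2‖ := by
    have h2 := mom_eq b x S X
    have h3 : ∑ t ∈ Fintype.piFinset (fun _ : Fin r => S), ‖Cr b x t X‖ ^ 2 =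
        ‖∑ q ∈ DD X ×ˢ DD X, ∏ j, Yc (b j) x S q.1 q.2‖ := by
      rw [← h2, Complex.norm_real, Real.norm_of_nonneg h0]
    rw [h3]
    refine (norm_sum_le _ _).trans (le_of_eq ?_)
    exact sum_congr rfl fun q _ => norm_prod _ _
  have h2 : ∀ q : (ℕ × ℕ) × (ℕ × ℕ), ∏ j, ‖Yc (b j) x S q.1 q.2‖ ≤
      ‖Yc (b j₀) x S q.1 q.2‖ * (S.card : ℝ) ^ (r - 1) := by
    intro q
    rw [← mul_prod_erase univ _ (mem_univ j₀)]
    apply mul_le_mul_of_nonneg_left _ (norm_nonneg _)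
    have h3 : ∏ j ∈ univ.erase j₀, ‖Yc (b j) x S q.1 q.2‖ ≤ ∏ _j ∈ univ.erase j₀, (S.card : ℝ) :=
      prod_le_prod (fun j _ => norm_nonneg _) fun j _ => Yc_le (norm_root hk (hb j)) x S _ _
    refine h3.trans (le_of_eq ?_)
    rw [prod_const, card_erase_of_mem (mem_univ _), card_univ, Fintype.card_fin]
  have h3 : ∑ q ∈ DD X ×ˢ DD X, ‖Yc (b j₀) x S q.1 q.2‖ ≤
      Real.sqrt (2 * S.card) * ((DD X).card : ℝ) ^ 2 := by
    have h4 := Yc_sq hk (hb j₀) x S X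
    have h5 : ∑ q ∈ DD X ×ˢ DD X, ‖Yc (b j₀) x S q.1 q.2‖ ^ 2 ≤
        2 * (S.card : ℝ) * ((DD X).card : ℝ) ^ 2 := by
      have h6 : ((DD X).card : ℝ) * ∑ e ∈ S.offDiag,
          ‖Sg (b j₀) ((b j₀) ^ (k - 1)) (x e.1) (x e.2) X‖ ≤ ((DD X).card : ℝ) * (DD X).card :=
        mul_le_mul_of_nonneg_left hsm (Nat.cast_nonneg _)
      have h7 : (1 : ℝ) * ((DD X).card : ℝ) ^ 2 ≤ S.card * ((DD X).card : ℝ) ^ 2 :=
        mul_le_mul_of_nonneg_right hSR (by positivity)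
      nlinarith
    have h6 := sq_sum_le_card_mul_sum_sq (s := DD X ×ˢ DD X)
      (f := fun q => ‖Yc (b j₀) x S q.1 q.2‖)
    rw [card_product] at h6
    push_cast at h6
    have h7 : (∑ q ∈ DD X ×ˢ DD X, ‖Yc (b j₀) x S q.1 q.2‖) ^ 2 ≤
        (Real.sqrt (2 * S.card) * ((DD X).card : ℝ) ^ 2) ^ 2 := by
      rw [mul_pow, Real.sq_sqrt (by positivity)]
      calc _ ≤ ((DD X).card : ℝ) * (DD X).card * ∑ q ∈ DD X ×ˢ DD X,
            ‖Yc (b j₀) x S q.1 q.2‖ ^ 2 := h6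
        _ ≤ ((DD X).card : ℝ) * (DD X).card * (2 * (S.card : ℝ) * ((DD X).card : ℝ) ^ 2) :=
            mul_le_mul_of_nonneg_left h5 (by positivity)
        _ = _ := by ring
    exact (pow_le_pow_iff_left₀ (sum_nonneg fun q _ => norm_nonneg _) (by positivity)
      two_ne_zero).1 h7
  refine h1.trans ((sum_le_sum fun q _ => h2 q).trans ?_)
  rw [← sum_mul]
  refine (mul_le_mul_of_nonneg_right h3 (by positivity)).trans ?_
  have hs0 : 0 < Real.sqrt S.card := Real.sqrt_pos.2 (by linarith)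
  have e1 : (S.card : ℝ) ^ r = (S.card : ℝ) ^ (r - 1) * (Real.sqrt S.card * Real.sqrt S.card) := by
    rw [Real.mul_self_sqrt (by linarith), ← pow_succ, Nat.sub_add_cancel hr]
  rw [e1, Real.sqrt_mul (by norm_num)]
  have hs2 : Real.sqrt 2 ≤ 2 := by
    rw [Real.sqrt_le_left (by norm_num)]
    norm_num
  have e2 : (S.card : ℝ) ^ (r - 1) * (Real.sqrt S.card * Real.sqrt S.card) / Real.sqrt S.card =
      (S.card : ℝ) ^ (r - 1) * Real.sqrt S.card := by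
    field_simp
  rw [e2]
  calc Real.sqrt 2 * Real.sqrt S.card * ((DD X).card : ℝ) ^ 2 * (S.card : ℝ) ^ (r - 1) =
        Real.sqrt 2 * (Real.sqrt S.card * ((DD X).card : ℝ) ^ 2 * (S.card : ℝ) ^ (r - 1)) := by ring
    _ ≤ 2 * (Real.sqrt S.card * ((DD X).card : ℝ) ^ 2 * (S.card : ℝ) ^ (r - 1)) :=
        mul_le_mul_of_nonneg_right hs2 (by positivity)
    _ = _ := by ring

/-- the number of the pairs with a pattern -/
lemma cntr {k : ℕ} (hk : 1 ≤ k) {ζ : ℂ} (hζ : IsPrimitiveRoot ζ k) {r : ℕ} (x : ℕ → ℕ × ℕ → ℕ)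
    (t i : Fin r → ℕ) (X : ℕ) {B : ℝ} (hB0 : 0 ≤ B)
    (hB : ∀ e ∈ Fintype.piFinset (fun _ : Fin r => range k), e ≠ 0 →
      ‖Cr (fun j => ζ ^ e j) x t X‖ ≤ B) :
    |(((DD X).filter (fun p => ∀ j, x (t j) p ≡ i j [MOD k])).card : ℝ) -
      (DD X).card / (k : ℝ) ^ r| ≤ B := by
  classical
  have hkR : (0 : ℝ) < k := by exact_mod_cast (by omega : 0 < k)
  have hk0 : (k : ℂ) ≠ 0 := by
    have : k ≠ 0 := by omega
    exact_mod_cast this
  have hn : ‖ζ‖ = 1 := hζ.norm'_eq_one (by omega)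
  have h1 : (k : ℂ) ^ r * (((DD X).filter (fun p => ∀ j, x (t j) p ≡ i j [MOD k])).card : ℂ) =
      ∑ e ∈ Fintype.piFinset (fun _ : Fin r => range k), (∏ j, (ζ ^ e j) ^ ((k - 1) * i j)) *
        Cr (fun j => ζ ^ e j) x t X := by
    have h2 : ∀ p : ℕ × ℕ, (k : ℂ) ^ r * (if ∀ j, x (t j) p ≡ i j [MOD k] then (1 : ℂ) else 0) =
        ∑ e ∈ Fintype.piFinset (fun _ : Fin r => range k), ∏ j,
          (ζ ^ e j) ^ (x (t j) p + (k - 1) * i j) := by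
      intro p
      rw [← prod_univ_sum (fun _ : Fin r => range k)
        (fun j l => (ζ ^ l) ^ (x (t j) p + (k - 1) * i j))]
      simp only [orth hζ]
      by_cases h : ∀ j, x (t j) p ≡ i j [MOD k]
      · rw [if_pos h, mul_one]
        rw [prod_congr rfl fun j _ => if_pos ((modEq_iff_dvd hk _ _).1 (h j)), prod_const, card_univ,
          Fintype.card_fin]
      · rw [if_neg h, mul_zero]
        push Not at h
        obtain ⟨j, hj⟩ := h
        symm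
        apply prod_eq_zero (mem_univ j)
        rw [if_neg fun h4 => hj ((modEq_iff_dvd hk _ _).2 h4)]
    rw [card_filter]
    push_cast
    rw [mul_sum, sum_congr rfl fun p _ => h2 p, sum_comm]
    refine sum_congr rfl fun e _ => ?_
    unfold Cr
    rw [mul_sum]
    refine sum_congr rfl fun p _ => ?_
    rw [← prod_mul_distrib]
    exact prod_congr rfl fun j _ => by rw [pow_add]; ring
  have hz : (0 : Fin r → ℕ) ∈ Fintype.piFinset (fun _ : Fin r => range k) := by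
    rw [Fintype.mem_piFinset]
    intro j
    rw [mem_range]
    exact hk
  have h0 : (∏ j, (ζ ^ (0 : Fin r → ℕ) j) ^ ((k - 1) * i j)) *
        Cr (fun j => ζ ^ (0 : Fin r → ℕ) j) x t X = (DD X).card := by
    unfold Cr
    simp
  rw [← add_sum_erase _ _ hz, h0] at h1
  have h2 : ‖(k : ℂ) ^ r * ((((((DD X).filter (fun p => ∀ j, x (t j) p ≡ i j [MOD k])).card : ℝ) -
      (DD X).card / (k : ℝ) ^ r : ℝ)) : ℂ)‖ ≤ (k : ℝ) ^ r * B := by
    have e1 : (k : ℂ) ^ r * ((((((DD X).filter (fun p => ∀ j, x (t j) p ≡ i j [MOD k])).card : ℝ) -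
        (DD X).card / (k : ℝ) ^ r : ℝ)) : ℂ) =
        ∑ e ∈ (Fintype.piFinset (fun _ : Fin r => range k)).erase 0,
          (∏ j, (ζ ^ e j) ^ ((k - 1) * i j)) * Cr (fun j => ζ ^ e j) x t X := by
      push_cast
      rw [mul_sub, h1]
      field_simp
      ring
    rw [e1]
    refine (norm_sum_le _ _).trans ?_
    have h3 : ∀ e ∈ (Fintype.piFinset (fun _ : Fin r => range k)).erase 0,
        ‖(∏ j, (ζ ^ e j) ^ ((k - 1) * i j)) * Cr (fun j => ζ ^ e j) x t X‖ ≤ B := by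
      intro e he
      rw [mem_erase] at he
      rw [norm_mul, norm_prod]
      simp only [norm_pow, hn, one_pow, prod_const_one, one_mul]
      exact hB e he.2 he.1
    refine (sum_le_sum h3).trans ?_
    rw [sum_const, nsmul_eq_mul]
    apply mul_le_mul_of_nonneg_right _ hB0
    have h4 : ((Fintype.piFinset (fun _ : Fin r => range k)).erase 0).card ≤ k ^ r := by
      refine (card_le_card (erase_subset _ _)).trans (le_of_eq ?_)
      rw [Fintype.card_piFinset]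
      simp
    exact_mod_cast h4
  rw [norm_mul, norm_pow, Complex.norm_natCast, Complex.norm_real, Real.norm_eq_abs] at h2
  exact le_of_mul_le_mul_left h2 (by positivity)

open scoped Classical in
/-- patterns of any length for almost all tuples of shifts -/
theorem many {k : ℕ} (hk : 1 ≤ k) (r : ℕ) (S : Finset ℕ) (x : ℕ → ℕ × ℕ → ℕ)
    (hx : ∀ b : ℂ, b ^ k = 1 → b ≠ 1 → ∀ t ∈ S, ∀ s ∈ S, t ≠ s →
      Ls (fun X => ‖Sg b (b ^ (k - 1)) (x t) (x s) X‖)) {δ : ℝ} (hδ : 0 < δ)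
    (hS : 4 * (k : ℝ) ^ (2 * r) / δ ^ 6 ≤ (S.card : ℝ)) :
    LogNull (fun X => δ * (S.card : ℝ) ^ r < (((Fintype.piFinset (fun _ : Fin r => S)).filter
      (fun t => ∃ i : Fin r → ℕ, δ * ((DD X).card : ℝ) <
        |(((DD X).filter (fun p => ∀ j, x (t j) p ≡ i j [MOD k])).card : ℝ) -
        (DD X).card / (k : ℝ) ^ r|)).card : ℝ)) := by
  obtain ⟨ζ, hζ⟩ : ∃ ζ : ℂ, IsPrimitiveRoot ζ k :=
    ⟨_, Complex.isPrimitiveRoot_exp k (by omega)⟩
  have hζk : ∀ l, (ζ ^ l) ^ k = 1 := fun l => by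
    rw [← pow_mul, mul_comm, pow_mul, hζ.pow_eq_one, one_pow]
  have hkR : (1 : ℝ) ≤ k := by exact_mod_cast hk
  have hSR : (0 : ℝ) < S.card := by
    have : (0 : ℝ) < 4 * (k : ℝ) ^ (2 * r) / δ ^ 6 := by positivity
    linarith
  have hS0 : 0 < S.card := by exact_mod_cast hSR
  obtain ⟨D, hD⟩ : ∃ D : ℕ → ℝ, D = fun X => ∑ l ∈ (range k).erase 0, ∑ f ∈ S.offDiag,
      ‖Sg (ζ ^ l) ((ζ ^ l) ^ (k - 1)) (x f.1) (x f.2) X‖ := ⟨_, rfl⟩
  have hL : Ls D := by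
    rw [hD]
    refine Ls.sum _ fun l hl => Ls.sum _ fun f hf => ?_
    rw [mem_offDiag] at hf
    refine hx _ (hζk l) ?_ f.1 hf.1 f.2 hf.2.1 hf.2.2
    rw [mem_erase, mem_range] at hl
    intro h4
    exact hl.1 (Nat.eq_zero_of_dvd_of_lt ((hζ.pow_eq_one_iff_dvd _).1 h4) hl.2)
  have hD0 : ∀ X, 0 ≤ D X := by
    intro X
    rw [hD]
    exact sum_nonneg fun e _ => sum_nonneg fun f _ => norm_nonneg _
  refine LogNull.of_ev 1 ?_ (null_dd hD0 hL (ε := 1) one_pos)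
  intro X hX1 h1
  by_contra hcon
  push Not at hcon
  rw [one_mul] at hcon
  -- there is a pair
  have hDD0 : (0 : ℝ) < (DD X).card := by
    have : (1, 0) ∈ DD X := by
      rw [mem_DD]
      exact ⟨le_rfl, hX1, by norm_num, by norm_num⟩
    exact_mod_cast card_pos.2 ⟨_, this⟩
  -- bad tuples
  have hmom : ∀ e ∈ (Fintype.piFinset (fun _ : Fin r => range k)).erase 0,
      (((Fintype.piFinset (fun _ : Fin r => S)).filter (fun t => δ * ((DD X).card : ℝ) <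
        ‖Cr (fun j => ζ ^ e j) x t X‖)).card : ℝ) * (δ * ((DD X).card : ℝ)) ^ 2 ≤
      (S.card : ℝ) ^ r / Real.sqrt S.card * (2 * ((DD X).card : ℝ) ^ 2) := by
    intro e he
    rw [mem_erase, Fintype.mem_piFinset] at he
    obtain ⟨he0, he1⟩ := he
    obtain ⟨j₀, hj₀⟩ : ∃ j, e j ≠ 0 := by
      by_contra hc
      push Not at hc
      exact he0 (funext hc)
    have hsm : ∑ f ∈ S.offDiag, ‖Sg (ζ ^ e j₀) ((ζ ^ e j₀) ^ (k - 1)) (x f.1) (x f.2) X‖ ≤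
        (DD X).card := by
      refine le_trans ?_ hcon
      rw [hD]
      exact single_le_sum (f := fun l => ∑ f ∈ S.offDiag,
        ‖Sg (ζ ^ l) ((ζ ^ l) ^ (k - 1)) (x f.1) (x f.2) X‖)
        (fun l _ => sum_nonneg fun f _ => norm_nonneg _) (mem_erase.2 ⟨hj₀, he1 j₀⟩)
    refine le_trans ?_ (mom_le hk (fun j => ζ ^ e j) (fun j => hζk _) j₀ x S hS0 X hsm)
    rw [← nsmul_eq_mul, ← sum_const]
    refine (sum_le_sum ?_).trans (sum_le_sum_of_subset_of_nonneg (filter_subset _ _) ?_)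
    · intro t ht
      rw [mem_filter] at ht
      exact pow_le_pow_left₀ (by positivity) ht.2.le 2
    · intro t _ _
      positivity
  have hsub : ((Fintype.piFinset (fun _ : Fin r => S)).filter
      (fun t => ∃ i : Fin r → ℕ, δ * ((DD X).card : ℝ) <
        |(((DD X).filter (fun p => ∀ j, x (t j) p ≡ i j [MOD k])).card : ℝ) -
        (DD X).card / (k : ℝ) ^ r|)) ⊆ ((Fintype.piFinset (fun _ : Fin r => range k)).erase 0).biUnion
      (fun e => (Fintype.piFinset (fun _ : Fin r => S)).filter (fun t => δ * ((DD X).card : ℝ) <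
        ‖Cr (fun j => ζ ^ e j) x t X‖)) := by
    intro t ht
    rw [mem_filter] at ht
    obtain ⟨ht1, i, hi⟩ := ht
    rw [mem_biUnion]
    by_contra hc
    push Not at hc
    have h3 := cntr hk hζ x t i X (B := δ * ((DD X).card : ℝ)) (by positivity) (by
      intro e he he0
      have h4 := hc e (mem_erase.2 ⟨he0, he⟩)
      rw [mem_filter, not_and, not_lt] at h4
      exact h4 ht1)
    linarith
  have h3 : (((Fintype.piFinset (fun _ : Fin r => S)).filter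
      (fun t => ∃ i : Fin r → ℕ, δ * ((DD X).card : ℝ) <
        |(((DD X).filter (fun p => ∀ j, x (t j) p ≡ i j [MOD k])).card : ℝ) -
        (DD X).card / (k : ℝ) ^ r|)).card : ℝ) ≤
      ∑ e ∈ (Fintype.piFinset (fun _ : Fin r => range k)).erase 0,
        (((Fintype.piFinset (fun _ : Fin r => S)).filter (fun t => δ * ((DD X).card : ℝ) <
        ‖Cr (fun j => ζ ^ e j) x t X‖)).card : ℝ) := by
    have h4 := (card_le_card hsub).trans card_biUnion_le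
    exact_mod_cast h4
  have h4 := sum_le_sum hmom
  rw [← sum_mul, sum_const, nsmul_eq_mul] at h4
  have h5 : (((Fintype.piFinset (fun _ : Fin r => range k)).erase 0).card : ℝ) ≤ (k : ℝ) ^ r := by
    have h4 : ((Fintype.piFinset (fun _ : Fin r => range k)).erase 0).card ≤ k ^ r := by
      refine (card_le_card (erase_subset _ _)).trans (le_of_eq ?_)
      rw [Fintype.card_piFinset]
      simp
    exact_mod_cast h4
  have hs0 : 0 < Real.sqrt S.card := Real.sqrt_pos.2 hSR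
  have h6 : δ * (S.card : ℝ) ^ r * (δ * ((DD X).card : ℝ)) ^ 2 <
      (k : ℝ) ^ r * ((S.card : ℝ) ^ r / Real.sqrt S.card * (2 * ((DD X).card : ℝ) ^ 2)) := by
    calc δ * (S.card : ℝ) ^ r * (δ * ((DD X).card : ℝ)) ^ 2 < _ * (δ * ((DD X).card : ℝ)) ^ 2 :=
          mul_lt_mul_of_pos_right (h1.trans_le h3) (by positivity)
      _ ≤ _ := h4
      _ ≤ _ := mul_le_mul_of_nonneg_right h5 (by positivity)
  -- contradiction with the size of `S`
  have h7 : 2 * (k : ℝ) ^ r / δ ^ 3 ≤ Real.sqrt S.card := by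
    apply Real.le_sqrt_of_sq_le
    rw [div_pow, mul_pow]
    have e0 : (2 : ℝ) ^ 2 * ((k : ℝ) ^ r) ^ 2 / (δ ^ 3) ^ 2 = 4 * (k : ℝ) ^ (2 * r) / δ ^ 6 := by
      rw [← pow_mul, ← pow_mul, mul_comm r 2]
      norm_num
    rw [e0]
    exact hS
  rw [div_le_iff₀ (by positivity)] at h7
  have e1 : (k : ℝ) ^ r * ((S.card : ℝ) ^ r / Real.sqrt S.card * (2 * ((DD X).card : ℝ) ^ 2)) =
      (2 * (k : ℝ) ^ r) / Real.sqrt S.card * ((S.card : ℝ) ^ r * ((DD X).card : ℝ) ^ 2) := by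
    field_simp
  rw [e1] at h6
  have h8 : (2 * (k : ℝ) ^ r) / Real.sqrt S.card ≤ δ ^ 3 := by
    rw [div_le_iff₀ hs0]
    linarith
  have h9 : (2 * (k : ℝ) ^ r) / Real.sqrt S.card * ((S.card : ℝ) ^ r * ((DD X).card : ℝ) ^ 2) ≤
      δ ^ 3 * ((S.card : ℝ) ^ r * ((DD X).card : ℝ) ^ 2) :=
    mul_le_mul_of_nonneg_right h8 (by positivity)
  have e2 : δ * (S.card : ℝ) ^ r * (δ * ((DD X).card : ℝ)) ^ 2 =
      δ ^ 3 * ((S.card : ℝ) ^ r * ((DD X).card : ℝ) ^ 2) := by ring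
  linarith

/-- the correlations of `b^Ω((n+td)²+1)` and `conj b^Ω((n+sd)²+1)` -/
theorem ls_W {k : ℕ} (hk : 1 ≤ k) {b : ℂ} (hb : b ^ k = 1) (hb1 : b ≠ 1) {t s : ℕ} (hts : t ≠ s) :
    Ls (fun X => ‖Sg b (b ^ (k - 1)) (Wt t) (Wt s) X‖) := by
  have hb' : (b ^ (k - 1)) ^ k = 1 := by rw [← pow_mul, mul_comm, pow_mul, hb, one_pow]
  have h := sml_mt hk hts b (b ^ (k - 1)) hb hb' (Or.inl hb1)
  refine Ls.mono (fun X => le_of_eq ?_) h
  congr 1
  unfold Sg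
  refine sum_congr rfl fun p hp => ?_
  rw [Wt_eq hp, Wt_eq hp, pow_add, pow_add]
  have : b ^ Od p * (b ^ (k - 1)) ^ Od p = 1 := by
    rw [← mul_pow, ← pow_succ', Nat.sub_add_cancel hk, hb, one_pow]
  linear_combination (b ^ Om t p * (b ^ (k - 1)) ^ Om s p) * this

end Pool.Agent.T2H34.Dh
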