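import Pool.Agent.T2H34.DhFin

/-!
Three term sign patterns.
-/

set_option autoImplicit false

namespace Pool.Agent.T2H34.Dh

open Finset Filter
open ArithmeticFunction (cardFactors)
open Pool.Agent.TH890.DV (LogNull)

/-- the sign -/
def sg (n : ℕ) : ℝ := (-1 : ℝ) ^ n

lemma sg_cases (n : ℕ) : sg n = 1 ∨ sg n = -1 := by
  unfold sg
  exact neg_one_pow_eq_or ℝ n

lemma sg_add (m n : ℕ) : sg (m + n) = sg m * sg n := pow_add _ _ _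

lemma sg_even {n : ℕ} (h : Even n) : sg n = 1 := h.neg_one_pow

lemma sg_mul_self (n : ℕ) : sg n * sg n = 1 := by
  rcases sg_cases n with h | h <;> rw [h] <;> norm_num

/-- indicator of a residue modulo `2` -/
lemma ind2 (x i : ℕ) : (if x ≡ i [MOD 2] then (1 : ℝ) else 0) = (1 + sg i * sg x) / 2 := by
  by_cases h : x ≡ i [MOD 2]
  · rw [if_pos h, ← sg_add, sg_even]
    · norm_num
    · have : x % 2 = i % 2 := h
      rw [Nat.even_iff]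
      omega
  · rw [if_neg h, ← sg_add]
    have h1 : Odd (i + x) := by
      have : ¬ (x % 2 = i % 2) := h
      rw [Nat.odd_iff]
      omega
    unfold sg
    rw [h1.neg_one_pow]
    norm_num

lemma norm_Sg2 (u v : ℕ × ℕ → ℕ) (X : ℕ) :
    ‖Sg (-1) (-1) u v X‖ = |∑ p ∈ DD X, sg (u p) * sg (v p)| := by
  have : Sg (-1) (-1) u v X = ((∑ p ∈ DD X, sg (u p) * sg (v p) : ℝ) : ℂ) := by
    unfold Sg sg
    push_cast
    rfl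
  rw [this, Complex.norm_real, Real.norm_eq_abs]

lemma norm_Sg1 (u v : ℕ × ℕ → ℕ) (X : ℕ) :
    ‖Sg (-1) 1 u v X‖ = |∑ p ∈ DD X, sg (u p)| := by
  have : Sg (-1) 1 u v X = ((∑ p ∈ DD X, sg (u p) : ℝ) : ℂ) := by
    unfold Sg sg
    push_cast
    refine sum_congr rfl fun p _ => ?_
    rw [one_pow, mul_one]
  rw [this, Complex.norm_real, Real.norm_eq_abs]

lemma Sml.two {u v : ℕ × ℕ → ℕ} (h : Sml 2 u v) :
    Ls (fun X => |∑ p ∈ DD X, sg (u p) * sg (v p)|) := by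
  have h1 := h (-1) (-1) (by norm_num) (by norm_num) (Or.inl (by norm_num))
  simp only [norm_Sg2] at h1
  exact h1

lemma Sml.one {u v : ℕ × ℕ → ℕ} (h : Sml 2 u v) :
    Ls (fun X => |∑ p ∈ DD X, sg (u p)|) := by
  have h1 := h (-1) 1 (by norm_num) (by norm_num) (Or.inl (by norm_num))
  simp only [norm_Sg1] at h1
  exact h1

/-- the number of the pairs with a pattern -/
lemma cnt3 (x₀ x₁ x₂ : ℕ × ℕ → ℕ) (i₀ i₁ i₂ X : ℕ) :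
    8 * (((DD X).filter (fun p => x₀ p ≡ i₀ [MOD 2] ∧ x₁ p ≡ i₁ [MOD 2] ∧
      x₂ p ≡ i₂ [MOD 2])).card : ℝ) = (DD X).card +
      sg i₀ * ∑ p ∈ DD X, sg (x₀ p) + sg i₁ * ∑ p ∈ DD X, sg (x₁ p) +
      sg i₂ * ∑ p ∈ DD X, sg (x₂ p) +
      sg i₀ * sg i₁ * ∑ p ∈ DD X, sg (x₀ p) * sg (x₁ p) +
      sg i₀ * sg i₂ * ∑ p ∈ DD X, sg (x₀ p) * sg (x₂ p) +
      sg i₁ * sg i₂ * ∑ p ∈ DD X, sg (x₁ p) * sg (x₂ p) +
      sg i₀ * sg i₁ * sg i₂ * ∑ p ∈ DD X, sg (x₀ p) * sg (x₁ p) * sg (x₂ p) := by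
  have h : (((DD X).filter (fun p => x₀ p ≡ i₀ [MOD 2] ∧ x₁ p ≡ i₁ [MOD 2] ∧
      x₂ p ≡ i₂ [MOD 2])).card : ℝ) = ∑ p ∈ DD X, ((1 + sg i₀ * sg (x₀ p)) / 2) *
        ((1 + sg i₁ * sg (x₁ p)) / 2) * ((1 + sg i₂ * sg (x₂ p)) / 2) := by
    rw [card_filter]
    push_cast
    refine sum_congr rfl fun p _ => ?_
    rw [← ind2, ← ind2, ← ind2]
    by_cases a : x₀ p ≡ i₀ [MOD 2] <;> by_cases b : x₁ p ≡ i₁ [MOD 2] <;>
      by_cases c : x₂ p ≡ i₂ [MOD 2] <;> simp [a, b, c]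
  rw [h, mul_sum]
  simp only [mul_sum]
  have hc : ((DD X).card : ℝ) = ∑ _p ∈ DD X, (1 : ℝ) := by simp
  rw [hc]
  simp only [← sum_add_distrib]
  refine sum_congr rfl fun p _ => ?_
  ring

/-- three term patterns at two places -/
theorem three {x₀ x₁ x₂ y₀ y₁ y₂ z w : ℕ × ℕ → ℕ} (a1 : Sml 2 x₀ x₁) (a2 : Sml 2 x₀ x₂)
    (a3 : Sml 2 x₁ x₂) (b1 : Sml 2 y₀ y₁) (b2 : Sml 2 y₀ y₂) (b3 : Sml 2 y₁ y₂) (c : Sml 2 z w)
    (hT : ∀ X : ℕ, ∀ p ∈ DD X,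
      Even (x₀ p + x₁ p + x₂ p + (y₀ p + y₁ p + y₂ p) + (z p + w p))) (i₀ i₁ i₂ : ℕ) {ε : ℝ}
    (hε : 0 < ε) :
    LogNull (fun X => ((((DD X).filter (fun p => x₀ p ≡ i₀ [MOD 2] ∧ x₁ p ≡ i₁ [MOD 2] ∧
      x₂ p ≡ i₂ [MOD 2])).card : ℝ) + (((DD X).filter (fun p => y₀ p ≡ i₀ [MOD 2] ∧
      y₁ p ≡ i₁ [MOD 2] ∧ y₂ p ≡ i₂ [MOD 2])).card : ℝ)) < (1 / 8 - ε) * ((DD X).card : ℝ)) := by
  obtain ⟨D, hD⟩ : ∃ D : ℕ → ℝ, D = fun X =>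
    ((|∑ p ∈ DD X, sg (x₀ p)| + |∑ p ∈ DD X, sg (x₁ p)| + |∑ p ∈ DD X, sg (x₂ p)|) +
    (|∑ p ∈ DD X, sg (x₀ p) * sg (x₁ p)| + |∑ p ∈ DD X, sg (x₀ p) * sg (x₂ p)| +
      |∑ p ∈ DD X, sg (x₁ p) * sg (x₂ p)|)) +
    ((|∑ p ∈ DD X, sg (y₀ p)| + |∑ p ∈ DD X, sg (y₁ p)| + |∑ p ∈ DD X, sg (y₂ p)|) +
    (|∑ p ∈ DD X, sg (y₀ p) * sg (y₁ p)| + |∑ p ∈ DD X, sg (y₀ p) * sg (y₂ p)| +
      |∑ p ∈ DD X, sg (y₁ p) * sg (y₂ p)|)) +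
    |∑ p ∈ DD X, sg (z p) * sg (w p)| := ⟨_, rfl⟩
  have hL : Ls D := by
    rw [hD]
    exact ((((a1.one.add a1.symm.one).add a2.symm.one).add ((a1.two.add a2.two).add a3.two)).add
      (((b1.one.add b1.symm.one).add b2.symm.one).add ((b1.two.add b2.two).add b3.two))).add c.two
  have hD0 : ∀ X, 0 ≤ D X := by
    intro X
    rw [hD]
    positivity
  refine LogNull.of_ev 0 ?_ (null_dd hD0 hL (ε := 8 * ε) (by positivity))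
  intro X _ h1
  have e1 := cnt3 x₀ x₁ x₂ i₀ i₁ i₂ X
  have e2 := cnt3 y₀ y₁ y₂ i₀ i₁ i₂ X
  -- the triple sums
  have key : -((DD X).card : ℝ) - |∑ p ∈ DD X, sg (z p) * sg (w p)| ≤
      sg i₀ * sg i₁ * sg i₂ * (∑ p ∈ DD X, sg (x₀ p) * sg (x₁ p) * sg (x₂ p) +
        ∑ p ∈ DD X, sg (y₀ p) * sg (y₁ p) * sg (y₂ p)) := by
    have h2 : ∑ p ∈ DD X, -(1 + sg (z p) * sg (w p)) ≤
      sg i₀ * sg i₁ * sg i₂ * (∑ p ∈ DD X, sg (x₀ p) * sg (x₁ p) * sg (x₂ p) +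
        ∑ p ∈ DD X, sg (y₀ p) * sg (y₁ p) * sg (y₂ p)) := by
      rw [← sum_add_distrib, mul_sum]
      apply sum_le_sum
      intro p hp
      have h3 := sg_even (hT X p hp)
      simp only [sg_add] at h3
      rcases sg_cases i₀ with g0 | g0 <;> rcases sg_cases i₁ with g1 | g1 <;>
      rcases sg_cases i₂ with g2 | g2 <;>
      rcases sg_cases (x₀ p + x₁ p + x₂ p) with k1 | k1 <;>
      rcases sg_cases (y₀ p + y₁ p + y₂ p) with k2 | k2 <;>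
      · simp only [sg_add] at k1 k2
        rw [k1, k2] at h3
        rw [g0, g1, g2, k1, k2]
        linarith
    have h4 : ∑ p ∈ DD X, -(1 + sg (z p) * sg (w p)) =
        -((DD X).card : ℝ) - ∑ p ∈ DD X, sg (z p) * sg (w p) := by
      rw [sum_neg_distrib, sum_add_distrib]
      simp
      ring
    rw [h4] at h2
    have h5 := le_abs_self (∑ p ∈ DD X, sg (z p) * sg (w p))
    linarith
  have hb : ∀ s a : ℝ, (s = 1 ∨ s = -1) → -|a| ≤ s * a := by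
    rintro s a (rfl | rfl)
    · rw [one_mul]; exact neg_abs_le a
    · rw [neg_one_mul]
      have := le_abs_self a
      linarith
  have hss : ∀ m n : ℕ, sg m * sg n = 1 ∨ sg m * sg n = -1 := by
    intro m n
    rw [← sg_add]
    exact sg_cases _
  have r1 := hb _ (∑ p ∈ DD X, sg (x₀ p)) (sg_cases i₀)
  have r2 := hb _ (∑ p ∈ DD X, sg (x₁ p)) (sg_cases i₁)
  have r3 := hb _ (∑ p ∈ DD X, sg (x₂ p)) (sg_cases i₂)
  have r4 := hb _ (∑ p ∈ DD X, sg (x₀ p) * sg (x₁ p)) (hss i₀ i₁)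
  have r5 := hb _ (∑ p ∈ DD X, sg (x₀ p) * sg (x₂ p)) (hss i₀ i₂)
  have r6 := hb _ (∑ p ∈ DD X, sg (x₁ p) * sg (x₂ p)) (hss i₁ i₂)
  have q1 := hb _ (∑ p ∈ DD X, sg (y₀ p)) (sg_cases i₀)
  have q2 := hb _ (∑ p ∈ DD X, sg (y₁ p)) (sg_cases i₁)
  have q3 := hb _ (∑ p ∈ DD X, sg (y₂ p)) (sg_cases i₂)
  have q4 := hb _ (∑ p ∈ DD X, sg (y₀ p) * sg (y₁ p)) (hss i₀ i₁)
  have q5 := hb _ (∑ p ∈ DD X, sg (y₀ p) * sg (y₂ p)) (hss i₀ i₂)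
  have q6 := hb _ (∑ p ∈ DD X, sg (y₁ p) * sg (y₂ p)) (hss i₁ i₂)
  rw [hD]
  simp only
  rw [mul_add] at key
  nlinarith

end Pool.Agent.T2H34.Dh
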