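import Pool.Agent.W32.EX.ZX
import Pool.Agent.W499.EC.F4
import Pool.Agent.W251.EX.AllB

/-!
Pairs of determinant `ℓ p`: functions on the trees. Port of `W32.EX.zx` and `W499.EC.bdd`.
-/

set_option autoImplicit false

namespace Pool.Agent.T2H34.Dh

open Finset Filter
open Pool.Agent.W78.GA
open Pool.Agent.W78.EC
open Pool.Agent.W540.EC (co co_comb cd_co co_inj dv_res res_mem PQ_mem good_edge co_lt co_bounds)
open Pool.Agent.W499.EC (dvd_cd)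
open Pool.Agent.W32.EX (cplx)

/-- BDD -/
theorem bddh (ℓ : ℕ) (hℓ : 1 ≤ ℓ) : ∀ C₀ : ℕ, ∃ B : ℕ, ∀ (Q p : ℕ) (r : ℤ) (y : ℕ × ℕ × ℕ × ℕ)
  (R : ℕ), p ∈ PQ Q → R ^ 2 ≤ C₀ * Q → y ∈ SL p →
  (((range (R + 1) ×ˢ range (R + 1)) ×ˢ (range (R + 1) ×ˢ range (R + 1))).filter
    (fun q => cd q.1 q.2 = (ℓ : ℤ) * p ∧ dv p r y q.1 ∧ dv p r y q.2)).card ≤ B := by
  intro C₀
  refine ⟨(2 * C₀ + 1) ^ 4, ?_⟩
  intro Q p r y R hp hR hy
  have hpm : p.Prime ∧ Q < p := by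
    unfold PQ at hp
    rw [mem_filter, mem_Ioc] at hp
    exact ⟨hp.2.1, hp.1.1⟩
  obtain ⟨hpp, hQp⟩ := hpm
  set T := (((range (R + 1) ×ˢ range (R + 1)) ×ˢ (range (R + 1) ×ˢ range (R + 1))).filter
    (fun q => cd q.1 q.2 = (ℓ : ℤ) * p ∧ dv p r y q.1 ∧ dv p r y q.2)) with hT
  rcases T.eq_empty_or_nonempty with hE | ⟨q, hq⟩
  · rw [hE]; simp
  have hp0 : (0 : ℤ) < p := by exact_mod_cast hpp.pos
  have hℓp : (0 : ℤ) < (ℓ : ℤ) * p := by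
    have : (0 : ℤ) < ℓ := by exact_mod_cast (by omega : 0 < ℓ)
    positivity
  -- bounds for determinants
  have hb : ∀ x z : ℕ × ℕ, x ∈ range (R + 1) ×ˢ range (R + 1) →
      z ∈ range (R + 1) ×ˢ range (R + 1) → dv p r y x → dv p r y z →
      cd x z / (p : ℤ) ∈ Icc (-(C₀ : ℤ)) C₀ ∧ cd x z = (p : ℤ) * (cd x z / (p : ℤ)) := by
    intro x z hx hz hx' hz'
    have h1 := dvd_cd hpp hy hx' hz'
    have h2 : cd x z = (p : ℤ) * (cd x z / (p : ℤ)) := (Int.mul_ediv_cancel' h1).symm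
    refine ⟨?_, h2⟩
    set s := cd x z / (p : ℤ) with hs
    rw [mem_product, mem_range, mem_range] at hx hz
    have hx1 : (x.1 : ℤ) ≤ R := by exact_mod_cast Nat.lt_succ_iff.1 hx.1
    have hx2 : (x.2 : ℤ) ≤ R := by exact_mod_cast Nat.lt_succ_iff.1 hx.2
    have hz1 : (z.1 : ℤ) ≤ R := by exact_mod_cast Nat.lt_succ_iff.1 hz.1
    have hz2 : (z.2 : ℤ) ≤ R := by exact_mod_cast Nat.lt_succ_iff.1 hz.2
    have hR0 : (0 : ℤ) ≤ R := by positivity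
    have a1 : (x.1 : ℤ) * z.2 ≤ R * R := mul_le_mul hx1 hz2 (by positivity) hR0
    have a2 : (z.1 : ℤ) * x.2 ≤ R * R := mul_le_mul hz1 hx2 (by positivity) hR0
    have a3 : (0 : ℤ) ≤ (x.1 : ℤ) * z.2 := by positivity
    have a4 : (0 : ℤ) ≤ (z.1 : ℤ) * x.2 := by positivity
    have a5 : cd x z ≤ R * R := by unfold cd; linarith
    have a6 : -((R : ℤ) * R) ≤ cd x z := by unfold cd; linarith
    have a7 : (R : ℤ) * R ≤ C₀ * Q := by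
      have : R * R ≤ C₀ * Q := by rw [← sq]; exact hR
      exact_mod_cast this
    have a8 : (C₀ : ℤ) * Q ≤ C₀ * p := by
      have : Q ≤ p := hQp.le
      exact_mod_cast Nat.mul_le_mul_left C₀ this
    rw [mem_Icc]
    constructor
    · by_contra h
      push Not at h
      have : (p : ℤ) * s < (p : ℤ) * (-(C₀ : ℤ)) := mul_lt_mul_of_pos_left h hp0
      nlinarith
    · by_contra h
      push Not at h
      have : (p : ℤ) * (C₀ : ℤ) < (p : ℤ) * s := mul_lt_mul_of_pos_left h hp0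
      nlinarith
  rw [hT, mem_filter, mem_product] at hq
  obtain ⟨⟨hq1, hq2⟩, hq3, hq4, hq5⟩ := hq
  set J : Finset ℤ := Icc (-(C₀ : ℤ)) C₀ with hJ
  have hJc : J.card = 2 * C₀ + 1 := by
    rw [hJ, Int.card_Icc]
    omega
  have hinj : T.card ≤ ((J ×ˢ J) ×ˢ (J ×ˢ J)).card := by
    refine Finset.card_le_card_of_injOn
      (fun w => ((cd w.1 q.2 / (p : ℤ), cd q.1 w.1 / (p : ℤ)),
        (cd w.2 q.2 / (p : ℤ), cd q.1 w.2 / (p : ℤ)))) ?_ ?_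
    · intro w hw
      rw [Finset.mem_coe, hT, mem_filter, mem_product] at hw
      obtain ⟨⟨hw1, hw2⟩, -, hw4, hw5⟩ := hw
      rw [Finset.mem_coe, mem_product, mem_product, mem_product]
      exact ⟨⟨(hb _ _ hw1 hq2 hw4 hq5).1, (hb _ _ hq1 hw1 hq4 hw4).1⟩,
        ⟨(hb _ _ hw2 hq2 hw5 hq5).1, (hb _ _ hq1 hw2 hq4 hw5).1⟩⟩
    · -- injectivity
      have key : ∀ x z : ℕ × ℕ, cd x q.2 = cd z q.2 → cd q.1 x = cd q.1 z → x = z := by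
        intro x z h1 h2
        have e1 : ((ℓ : ℤ) * p) * x.1 = ((ℓ : ℤ) * p) * z.1 := by
          rw [← hq3]
          have g1 : ∀ x : ℕ × ℕ, cd q.1 q.2 * x.1 = cd x q.2 * q.1.1 + cd q.1 x * q.2.1 := by
            intro x; unfold cd; ring
          rw [g1, g1, h1, h2]
        have e2 : ((ℓ : ℤ) * p) * x.2 = ((ℓ : ℤ) * p) * z.2 := by
          rw [← hq3]
          have g1 : ∀ x : ℕ × ℕ, cd q.1 q.2 * x.2 = cd x q.2 * q.1.2 + cd q.1 x * q.2.2 := by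
            intro x; unfold cd; ring
          rw [g1, g1, h1, h2]
        have e3 := mul_left_cancel₀ hℓp.ne' e1
        have e4 := mul_left_cancel₀ hℓp.ne' e2
        exact Prod.ext (by exact_mod_cast e3) (by exact_mod_cast e4)
      intro w hw w' hw' hww
      rw [Finset.mem_coe, hT, mem_filter, mem_product] at hw hw'
      obtain ⟨⟨hw1, hw2⟩, -, hw4, hw5⟩ := hw
      obtain ⟨⟨hw1', hw2'⟩, -, hw4', hw5'⟩ := hw'
      simp only [Prod.mk.injEq] at hww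
      obtain ⟨⟨m1, m2⟩, m3, m4⟩ := hww
      refine Prod.ext (key _ _ ?_ ?_) (key _ _ ?_ ?_)
      · rw [(hb _ _ hw1 hq2 hw4 hq5).2, (hb _ _ hw1' hq2 hw4' hq5).2, m1]
      · rw [(hb _ _ hq1 hw1 hq4 hw4).2, (hb _ _ hq1 hw1' hq4 hw4').2, m2]
      · rw [(hb _ _ hw2 hq2 hw5 hq5).2, (hb _ _ hw2' hq2 hw5' hq5).2, m3]
      · rw [(hb _ _ hq1 hw2 hq4 hw5).2, (hb _ _ hq1 hw2' hq4 hw5').2, m4]
  refine hinj.trans (le_of_eq ?_)
  rw [Finset.card_product, Finset.card_product, hJc]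
  ring

/-- second divisibility -/
theorem dv_secondh {p : ℕ} (hp : p.Prime) {r : ℤ} {y : ℕ × ℕ × ℕ × ℕ} {x x' : ℕ × ℕ}
    (h0 : ¬ p ∣ x.1) (hcd : (p : ℤ) ∣ cd x x') (h : dv p r y x) : dv p r y x' := by
  unfold dv at h ⊢
  unfold cd at hcd
  have h1 : (p : ℤ) ∣ (x.1 : ℤ) * ((x'.1 : ℤ) * (y.1 + r * y.2.1) + x'.2 * (y.2.2.1 + r * y.2.2.2)) := by
    have e1 : (x.1 : ℤ) * ((x'.1 : ℤ) * (y.1 + r * y.2.1) + x'.2 * (y.2.2.1 + r * y.2.2.2)) =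
      x'.1 * (x.1 * (y.1 + r * y.2.1) + x.2 * (y.2.2.1 + r * y.2.2.2)) +
        ((x.1 : ℤ) * x'.2 - x'.1 * x.2) * (y.2.2.1 + r * y.2.2.2) := by
      ring
    rw [e1]
    exact dvd_add (h.mul_left _) (hcd.mul_right _)
  rcases (Nat.prime_iff_prime_int.1 hp).dvd_or_dvd h1 with h2 | h2
  · exact absurd (Int.natCast_dvd_natCast.1 h2) h0
  · exact h2

open scoped Classical in
/-- the number of terms -/
theorem card_pairsh {ℓ : ℕ} (h11 : S_DTB) {K : ℕ} {κ : ℝ} {Q : ℕ} {X : ℝ} (hK : 1 ≤ K) (hκ : 0 < κ)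
    (hQ : (K : ℝ) / κ < Q) (hX : 2 * (K * Q : ℝ) ≤ X) {e : Gi × Gi} (he : e ∈ good K κ Q X)
    {B C₀ : ℕ} (hC₀ : (K : ℝ) / κ ≤ C₀)
    (hB : ∀ (Q p : ℕ) (r : ℤ) (y : ℕ × ℕ × ℕ × ℕ) (R : ℕ), p ∈ PQ Q →
      R ^ 2 ≤ C₀ * Q → y ∈ SL p →
      (((range (R + 1) ×ˢ range (R + 1)) ×ˢ (range (R + 1) ×ˢ range (R + 1))).filter
        (fun q => cd q.1 q.2 = (ℓ : ℤ) * p ∧ dv p r y q.1 ∧ dv p r y q.2)).card ≤ B) {p : ℕ} (hp : p ∈ PQ Q)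
    (r : ℤ) {y : ℕ × ℕ × ℕ × ℕ} (hy : y ∈ SL p) :
    ((cone X e.1 e.2 ×ˢ cone X e.1 e.2).filter (fun q => dt q.1 q.2 = (ℓ : ℤ) * p ∧ dv p r y (co e q.1))).card
      ≤ B := by
  have hK0 : (0 : ℝ) < K := by exact_mod_cast hK
  have hQ0 : (0 : ℝ) < Q := lt_trans (div_pos hK0 hκ) hQ
  have hQ1 : 1 ≤ Q := by exact_mod_cast hQ0
  have hdt := (good_edge he).2
  set R : ℕ := ⌊Real.sqrt (K * Q / κ)⌋₊ with hR
  have hR2 : R ^ 2 ≤ C₀ * Q := by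
    have h1 : (R : ℝ) ≤ Real.sqrt (K * Q / κ) := Nat.floor_le (Real.sqrt_nonneg _)
    have h2 : (R : ℝ) ^ 2 ≤ K * Q / κ := by
      calc (R : ℝ) ^ 2 ≤ Real.sqrt (K * Q / κ) ^ 2 := by
            exact pow_le_pow_left₀ (by positivity) h1 2
        _ = K * Q / κ := Real.sq_sqrt (by positivity)
    have h3 : (K * Q / κ : ℝ) ≤ C₀ * Q := by
      have : (K * Q / κ : ℝ) = K / κ * Q := by ring
      rw [this]
      exact mul_le_mul_of_nonneg_right hC₀ hQ0.le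
    have h4 : ((R ^ 2 : ℕ) : ℝ) ≤ ((C₀ * Q : ℕ) : ℝ) := by
      push_cast
      exact h2.trans h3
    exact_mod_cast h4
  have hle : ∀ x : ℕ, (x : ℝ) ^ 2 ≤ K * Q / κ → x < R + 1 := by
    intro x hx
    have h1 : (x : ℝ) ≤ Real.sqrt (K * Q / κ) := Real.le_sqrt_of_sq_le hx
    exact Nat.lt_succ_of_le (Nat.le_floor h1)
  refine le_trans ?_ (hB Q p r y R hp hR2 hy)
  refine card_le_card_of_injOn (fun q => (co e q.1, co e q.2)) ?_ ?_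
  · intro q hq
    rw [mem_coe, mem_filter, mem_product] at hq
    obtain ⟨⟨hq1, hq2⟩, hq3, hq4⟩ := hq
    obtain ⟨a1, a2, a3, a4⟩ := co_bounds h11 hK hκ hQ1 hX he hq1
    obtain ⟨b1, b2, b3, b4⟩ := co_bounds h11 hK hκ hQ1 hX he hq2
    rw [mem_coe, mem_filter]
    refine ⟨?_, ?_, hq4, ?_⟩
    · simp only [mem_product, mem_range]
      exact ⟨⟨hle _ a3, hle _ a4⟩, hle _ b3, hle _ b4⟩
    · simp only
      rw [cd_co hdt hq1 hq2, hq3]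
    · simp only
      refine dv_secondh (PQ_mem hp).2.2.1 (co_lt h11 hK hκ hQ hX he hq1 hp) ?_ hq4
      rw [cd_co hdt hq1 hq2, hq3]
      exact dvd_mul_left _ _
  · intro q hq q' hq' hqq
    rw [mem_coe, mem_filter, mem_product] at hq hq'
    simp only [Prod.mk.injEq] at hqq
    exact Prod.ext (co_inj hdt hq.1.1 hq'.1.1 hqq.1) (co_inj hdt hq.1.2 hq'.1.2 hqq.2)

section

variable {A : Type}

/-- the function on trees, before the truncation -/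
noncomputable def Y0h (ℓ : ℕ) (G : A → A → ℝ) (Q p : ℕ) (r : ℤ) (T : Tr A) (y : ℕ × ℕ × ℕ × ℕ) : ℝ :=
  ((p : ℝ) + 1) / (2 * Q) * ((pts T (1, 0) (0, 1)).map (fun q1 =>
    ((pts T (1, 0) (0, 1)).map (fun q2 => if cd q1.1 q2.1 = (ℓ : ℤ) * p ∧ dv p r y q1.1 then
      G q1.2 q2.2 else 0)).sum)).sum

/-- the double sum over the cone -/
theorem Y0h_eq (ℓ : ℕ) (h6 : S_PTS) (G : A → A → ℝ) (lab : Gi → A) {Y X : ℝ} (hY : 2 ≤ Y) (hYX : Y ≤ X)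
    {e : Gi × Gi} (he : e ∈ edge 0 1 Y) (Q p : ℕ) (r : ℤ) (y : ℕ × ℕ × ℕ × ℕ) :
    Y0h ℓ G Q p r (TT lab X e) y = ((p : ℝ) + 1) / (2 * Q) *
      ∑ z ∈ cone X e.1 e.2, ∑ w ∈ cone X e.1 e.2,
        if dt z w = (ℓ : ℤ) * p ∧ dv p r y (co e z) then G (lab z) (lab w) else 0 := by
  have hdt : dt e.1 e.2 = 1 := by
    unfold edge at he
    rw [mem_filter] at he
    exact he.2.1
  unfold Y0h
  congr 1
  -- the inner sum
  have h1 : ∀ q1 : (ℕ × ℕ) × A, ((pts (TT lab X e) (1, 0) (0, 1)).map (fun q2 =>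
      if cd q1.1 q2.1 = (ℓ : ℤ) * p ∧ dv p r y q1.1 then G q1.2 q2.2 else 0)).sum =
      ∑ w ∈ cone X e.1 e.2, if cd q1.1 (co e w) = (ℓ : ℤ) * p ∧ dv p r y q1.1 then
        G q1.2 (lab w) else 0 := by
    intro q1
    refine h6 A lab Y X e (fun x l => if cd q1.1 x = (ℓ : ℤ) * p ∧ dv p r y q1.1 then
      G q1.2 l else 0) _ hY hYX he ?_
    intro x
    rw [co_comb hdt]
  have h2 := h6 A lab Y X e (fun x l => ∑ w ∈ cone X e.1 e.2,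
    if cd x (co e w) = (ℓ : ℤ) * p ∧ dv p r y x then G l (lab w) else 0)
    (fun z => ∑ w ∈ cone X e.1 e.2,
      if cd (co e z) (co e w) = (ℓ : ℤ) * p ∧ dv p r y (co e z) then G (lab z) (lab w) else 0) hY hYX he (by
      intro x
      rw [co_comb hdt])
  simp only [h1]
  rw [h2]
  refine sum_congr rfl fun z hz => sum_congr rfl fun w hw => ?_
  rw [cd_co hdt hz hw]

/-- bound of the tree functions -/
theorem Y0h_bound {ℓ : ℕ} (h6 : S_PTS) (h11 : S_DTB) {G : A → A → ℝ} (hG : ∀ a b, |G a b| ≤ 1)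
    (lab : Gi → A) {K : ℕ} {κ : ℝ} {Q : ℕ} {X : ℝ} (hK : 1 ≤ K)
    (hκ : 0 < κ) (hQ : (K : ℝ) / κ < Q) (hX : 2 * (K * Q : ℝ) ≤ X) {e : Gi × Gi}
    (he : e ∈ good K κ Q X) {B C₀ : ℕ} (hC₀ : (K : ℝ) / κ ≤ C₀)
    (hB : ∀ (Q p : ℕ) (r : ℤ) (y : ℕ × ℕ × ℕ × ℕ) (R : ℕ), p ∈ PQ Q →
      R ^ 2 ≤ C₀ * Q → y ∈ SL p →
      (((range (R + 1) ×ˢ range (R + 1)) ×ˢ (range (R + 1) ×ˢ range (R + 1))).filter
        (fun q => cd q.1 q.2 = (ℓ : ℤ) * p ∧ dv p r y q.1 ∧ dv p r y q.2)).card ≤ B) {p : ℕ} (hp : p ∈ PQ Q)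
    (r : ℤ) {y : ℕ × ℕ × ℕ × ℕ} (hy : y ∈ SL p) :
    |Y0h ℓ G Q p r (TT lab X e) y| ≤ 2 * B := by
  have hK0 : (0 : ℝ) < K := by exact_mod_cast hK
  have hK1 : (1 : ℝ) ≤ K := by exact_mod_cast hK
  have hQ0 : (0 : ℝ) < Q := lt_trans (div_pos hK0 hκ) hQ
  have hQ1 : 1 ≤ Q := by exact_mod_cast hQ0
  have hQ1' : (1 : ℝ) ≤ Q := by exact_mod_cast hQ1
  have hKQ : (0 : ℝ) < K * Q := by positivity
  have hY : 2 ≤ X / (K * Q) := by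
    rw [le_div_iff₀ hKQ]
    exact hX
  have hYX : X / (K * Q) ≤ X := by
    have hX0 : 0 ≤ X := le_trans (by positivity) hX
    exact div_le_self hX0 (by nlinarith)
  rw [Y0h_eq ℓ h6 G lab hY hYX (good_edge he).1 Q p r y, abs_mul]
  have h1 : |((p : ℝ) + 1) / (2 * Q)| ≤ 2 := by
    rw [abs_of_nonneg (by positivity), div_le_iff₀ (by positivity)]
    have : (p : ℝ) ≤ 2 * Q := by exact_mod_cast (PQ_mem hp).2.1
    linarith
  have h2 : |∑ z ∈ cone X e.1 e.2, ∑ w ∈ cone X e.1 e.2,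
        if dt z w = (ℓ : ℤ) * p ∧ dv p r y (co e z) then G (lab z) (lab w) else 0| ≤ B := by
    rw [← sum_product']
    refine (abs_sum_le_sum_abs _ _).trans ?_
    have h3 : ∀ q ∈ cone X e.1 e.2 ×ˢ cone X e.1 e.2,
        |if dt q.1 q.2 = (ℓ : ℤ) * p ∧ dv p r y (co e q.1) then G (lab q.1) (lab q.2) else 0| ≤
        if dt q.1 q.2 = (ℓ : ℤ) * p ∧ dv p r y (co e q.1) then 1 else 0 := by
      intro q _
      split_ifs
      · exact hG _ _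
      · simp
    refine (sum_le_sum h3).trans ?_
    rw [sum_boole]
    exact_mod_cast card_pairsh h11 hK hκ hQ hX he hC₀ hB hp r hy
  calc |((p : ℝ) + 1) / (2 * Q)| * _ ≤ 2 * B := mul_le_mul h1 h2 (abs_nonneg _) (by norm_num)

/-- average of the tree functions -/
theorem Y0h_avg (ℓ : ℕ) (h6 : S_PTS) (h7 : S_AVG) (h11 : S_DTB) (G : A → A → ℝ)
    (lab : Gi → A) {K : ℕ} {κ : ℝ} {Q : ℕ} {X : ℝ} (hK : 1 ≤ K)
    (hκ : 0 < κ) (hQ : (K : ℝ) / κ < Q) (hX : 2 * (K * Q : ℝ) ≤ X) {e : Gi × Gi}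
    (he : e ∈ good K κ Q X) {p : ℕ} (hp : p ∈ PQ Q) (r : ℤ) :
    (∑ y ∈ SL p, Y0h ℓ G Q p r (TT lab X e) y) / ((SL p).card : ℝ) =
      1 / (2 * Q) * ∑ z ∈ cone X e.1 e.2, ∑ w ∈ cone X e.1 e.2,
        if dt z w = (ℓ : ℤ) * p then G (lab z) (lab w) else 0 := by
  have hK0 : (0 : ℝ) < K := by exact_mod_cast hK
  have hK1 : (1 : ℝ) ≤ K := by exact_mod_cast hK
  have hQ0 : (0 : ℝ) < Q := lt_trans (div_pos hK0 hκ) hQ
  have hQ1 : 1 ≤ Q := by exact_mod_cast hQ0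
  have hQ1' : (1 : ℝ) ≤ Q := by exact_mod_cast hQ1
  have hKQ : (0 : ℝ) < K * Q := by positivity
  have hY : 2 ≤ X / (K * Q) := by
    rw [le_div_iff₀ hKQ]
    exact hX
  have hYX : X / (K * Q) ≤ X := by
    have hX0 : 0 ≤ X := le_trans (by positivity) hX
    exact div_le_self hX0 (by nlinarith)
  have hp1 : (0 : ℝ) < (p : ℝ) + 1 := by positivity
  have h1 : ∀ y ∈ SL p, Y0h ℓ G Q p r (TT lab X e) y = ((p : ℝ) + 1) / (2 * Q) *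
      ∑ z ∈ cone X e.1 e.2, ∑ w ∈ cone X e.1 e.2,
        (if dt z w = (ℓ : ℤ) * p then G (lab z) (lab w) else 0) *
          (if dv p r y (co e z) then 1 else 0) := by
    intro y _
    rw [Y0h_eq ℓ h6 G lab hY hYX (good_edge he).1 Q p r y]
    congr 1
    refine sum_congr rfl fun z _ => sum_congr rfl fun w _ => ?_
    by_cases ha : dt z w = (ℓ : ℤ) * p <;> by_cases hb : dv p r y (co e z) <;> simp [ha, hb]
  rw [sum_congr rfl h1, ← mul_sum, mul_div_assoc]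
  have h2 : (∑ y ∈ SL p, ∑ z ∈ cone X e.1 e.2, ∑ w ∈ cone X e.1 e.2,
        (if dt z w = (ℓ : ℤ) * p then G (lab z) (lab w) else 0) *
          (if dv p r y (co e z) then (1 : ℝ) else 0)) /
        ((SL p).card : ℝ) = ∑ z ∈ cone X e.1 e.2, ∑ w ∈ cone X e.1 e.2,
        (if dt z w = (ℓ : ℤ) * p then G (lab z) (lab w) else 0) * (1 / ((p : ℝ) + 1)) := by
    rw [sum_comm, sum_div]
    refine sum_congr rfl fun z hz => ?_
    rw [sum_comm, sum_div]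
    refine sum_congr rfl fun w _ => ?_
    rw [← mul_sum, mul_div_assoc]
    congr 1
    exact h7 p r (co e z) (PQ_mem hp).2.2.1 (fun h => co_lt h11 hK hκ hQ hX he hz hp h.1)
  rw [h2]
  simp only [← sum_mul]
  field_simp

/-- the truncated functions -/
noncomputable def YYh (ℓ : ℕ) (G : A → A → ℝ) (B Q p : ℕ) (r : ℤ) (T : Tr A) (y : ℕ × ℕ × ℕ × ℕ) : ℝ :=
  if |Y0h ℓ G Q p r T y| ≤ 2 * B then Y0h ℓ G Q p r T y else 0

theorem YYh_le (ℓ : ℕ) (G : A → A → ℝ) (B Q p : ℕ) (r : ℤ) (T : Tr A) (y : ℕ × ℕ × ℕ × ℕ) :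
    |YYh ℓ G B Q p r T y| ≤ 2 * B := by
  unfold YYh
  split_ifs with h
  · exact h
  · simp

open scoped Classical in
/-- the value at the residues -/
theorem YYh_res {ℓ : ℕ} (h6 : S_PTS) (h11 : S_DTB) {G : A → A → ℝ} (hG : ∀ a b, |G a b| ≤ 1)
    (lab : Gi → A) {K : ℕ} {κ : ℝ} {Q : ℕ} {X : ℝ} {B C₀ : ℕ} (hK : 1 ≤ K)
    (hκ : 0 < κ) (hQ : (K : ℝ) / κ < Q) (hX : 2 * (K * Q : ℝ) ≤ X) {e : Gi × Gi}
    (he : e ∈ good K κ Q X) (hC₀ : (K : ℝ) / κ ≤ C₀)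
    (hB : ∀ (Q p : ℕ) (r : ℤ) (y : ℕ × ℕ × ℕ × ℕ) (R : ℕ), p ∈ PQ Q →
      R ^ 2 ≤ C₀ * Q → y ∈ SL p →
      (((range (R + 1) ×ˢ range (R + 1)) ×ˢ (range (R + 1) ×ˢ range (R + 1))).filter
        (fun q => cd q.1 q.2 = (ℓ : ℤ) * p ∧ dv p r y q.1 ∧ dv p r y q.2)).card ≤ B) {p : ℕ} (hp : p ∈ PQ Q)
    (r : ℤ) : YYh ℓ G B Q p r (TT lab X e) (res p e) = ((p : ℝ) + 1) / (2 * Q) *
      ∑ z ∈ cone X e.1 e.2, ∑ w ∈ cone X e.1 e.2,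
        if dt z w = (ℓ : ℤ) * p ∧ lat p r z then G (lab z) (lab w) else 0 := by
  have hK0 : (0 : ℝ) < K := by exact_mod_cast hK
  have hK1 : (1 : ℝ) ≤ K := by exact_mod_cast hK
  have hQ0 : (0 : ℝ) < Q := lt_trans (div_pos hK0 hκ) hQ
  have hQ1 : 1 ≤ Q := by exact_mod_cast hQ0
  have hQ1' : (1 : ℝ) ≤ Q := by exact_mod_cast hQ1
  have hKQ : (0 : ℝ) < K * Q := by positivity
  have hY : 2 ≤ X / (K * Q) := by
    rw [le_div_iff₀ hKQ]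
    exact hX
  have hYX : X / (K * Q) ≤ X := by
    have hX0 : 0 ≤ X := le_trans (by positivity) hX
    exact div_le_self hX0 (by nlinarith)
  have hdt := (good_edge he).2
  have hp0 := (PQ_mem hp).2.2.1.pos
  have hbd := Y0h_bound h6 h11 hG lab hK hκ hQ hX he hC₀
    (by
      intro Q' p' r' y' R' h1 h2 h3
      exact hB Q' p' r' y' R' h1 h2 h3) hp r (res_mem hdt hp0)
  unfold YYh
  rw [if_pos hbd, Y0h_eq ℓ h6 G lab hY hYX (good_edge he).1 Q p r (res p e)]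
  congr 1
  refine sum_congr rfl fun z hz => sum_congr rfl fun w _ => ?_
  refine if_congr ?_ rfl rfl
  rw [dv_res hdt hp0 r hz]

/-- the average -/
theorem YYh_av {ℓ : ℕ} (h6 : S_PTS) (h7 : S_AVG) (h11 : S_DTB) {G : A → A → ℝ} (hG : ∀ a b, |G a b| ≤ 1)
    (lab : Gi → A) {K : ℕ} {κ : ℝ} {Q : ℕ} {X : ℝ} {B C₀ : ℕ} (hK : 1 ≤ K)
    (hκ : 0 < κ) (hQ : (K : ℝ) / κ < Q) (hX : 2 * (K * Q : ℝ) ≤ X) {e : Gi × Gi}
    (he : e ∈ good K κ Q X) (hC₀ : (K : ℝ) / κ ≤ C₀)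
    (hB : ∀ (Q p : ℕ) (r : ℤ) (y : ℕ × ℕ × ℕ × ℕ) (R : ℕ), p ∈ PQ Q →
      R ^ 2 ≤ C₀ * Q → y ∈ SL p →
      (((range (R + 1) ×ˢ range (R + 1)) ×ˢ (range (R + 1) ×ˢ range (R + 1))).filter
        (fun q => cd q.1 q.2 = (ℓ : ℤ) * p ∧ dv p r y q.1 ∧ dv p r y q.2)).card ≤ B) {p : ℕ} (hp : p ∈ PQ Q)
    (r : ℤ) : av p (YYh ℓ G B Q p r) (TT lab X e) = 1 / (2 * Q) *
      ∑ z ∈ cone X e.1 e.2, ∑ w ∈ cone X e.1 e.2,
        if dt z w = (ℓ : ℤ) * p then G (lab z) (lab w) else 0 := by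
  unfold av
  rw [← Y0h_avg ℓ h6 h7 h11 G lab hK hκ hQ hX he hp r]
  congr 1
  refine sum_congr rfl fun y hy => ?_
  unfold YYh
  rw [if_pos (Y0h_bound h6 h11 hG lab hK hκ hQ hX he hC₀ hB hp r hy)]

end

/-- the functions on the trees for pairs of determinant `ℓ p` -/
theorem zxh (ℓ : ℕ) (hℓ : 1 ≤ ℓ) : ∀ (K : ℕ) (κ : ℝ), 1 ≤ K → 0 < κ → ∃ B : ℝ, ∀ Q : ℕ,
  (K : ℝ) / κ < Q →
  ∀ (A : Type) (d₁ d₂ : A → ℂ), (∀ a, ‖d₁ a‖ ≤ 1) → (∀ a, ‖d₂ a‖ ≤ 1) → ∀ r : ℕ → ℤ,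
  ∃ ζ₁ ζ₂ : ℕ → Tr A → ℕ × ℕ × ℕ × ℕ → ℝ, (∀ p T y, |ζ₁ p T y| ≤ B ∧ |ζ₂ p T y| ≤ B) ∧
  ∀ (lab : Gi → A) (X : ℝ), 2 * (K * Q : ℝ) ≤ X → ∀ e ∈ good K κ Q X, ∀ p ∈ PQ Q,
  (((ζ₁ p (TT lab X e) (res p e) : ℝ) : ℂ) + Complex.I * ((ζ₂ p (TT lab X e) (res p e) : ℝ) : ℂ) =
    (((p : ℝ) + 1) / (2 * Q) : ℝ) * ∑ z ∈ cone X e.1 e.2, ∑ w ∈ cone X e.1 e.2,
      (open scoped Classical in
        if dt z w = (ℓ : ℤ) * p ∧ lat p (r p) z then d₁ (lab z) * d₂ (lab w) else 0)) ∧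
  (((av p (ζ₁ p) (TT lab X e) : ℝ) : ℂ) + Complex.I * ((av p (ζ₂ p) (TT lab X e) : ℝ) : ℂ) =
    (1 / (2 * (Q : ℝ)) : ℝ) * ∑ z ∈ cone X e.1 e.2, ∑ w ∈ cone X e.1 e.2,
      (if dt z w = (ℓ : ℤ) * p then d₁ (lab z) * d₂ (lab w) else 0)) := by
  have h6 : S_PTS := Pool.Agent.W174.EC.ptsT
  have h7 : S_AVG := Pool.Agent.W499.EC.avg
  have h11 : S_DTB := Pool.Agent.W395.EC.dtb
  intro K κ hK hκ
  obtain ⟨B, hB⟩ := bddh ℓ hℓ ⌈(K : ℝ) / κ⌉₊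
  have hC₀ : (K : ℝ) / κ ≤ (⌈(K : ℝ) / κ⌉₊ : ℕ) := Nat.le_ceil _
  refine ⟨2 * B, fun Q hQ A d₁ d₂ hd₁ hd₂ r => ?_⟩
  have hG1 : ∀ a b : A, |(d₁ a * d₂ b).re| ≤ 1 := by
    intro a b
    refine (Complex.abs_re_le_norm _).trans ?_
    rw [norm_mul]
    exact mul_le_one₀ (hd₁ a) (norm_nonneg _) (hd₂ b)
  have hG2 : ∀ a b : A, |(d₁ a * d₂ b).im| ≤ 1 := by
    intro a b
    refine (Complex.abs_im_le_norm _).trans ?_
    rw [norm_mul]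
    exact mul_le_one₀ (hd₁ a) (norm_nonneg _) (hd₂ b)
  refine ⟨fun p => YYh ℓ (fun a b => (d₁ a * d₂ b).re) B Q p (r p),
    fun p => YYh ℓ (fun a b => (d₁ a * d₂ b).im) B Q p (r p),
    fun p T y => ⟨YYh_le _ _ _ _ _ _ _ _, YYh_le _ _ _ _ _ _ _ _⟩, ?_⟩
  intro lab X hX e he p hp
  constructor
  · apply cplx
    · refine (YYh_res h6 h11 hG1 lab hK hκ hQ hX he hC₀ hB hp (r p)).trans ?_
      refine congrArg _ (sum_congr rfl fun z _ => sum_congr rfl fun w _ => ?_)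
      split_ifs <;> simp
    · refine (YYh_res h6 h11 hG2 lab hK hκ hQ hX he hC₀ hB hp (r p)).trans ?_
      refine congrArg _ (sum_congr rfl fun z _ => sum_congr rfl fun w _ => ?_)
      split_ifs <;> simp
  · apply cplx
    · refine (YYh_av h6 h7 h11 hG1 lab hK hκ hQ hX he hC₀ hB hp (r p)).trans ?_
      refine congrArg _ (sum_congr rfl fun z _ => sum_congr rfl fun w _ => ?_)
      split_ifs <;> simp
    · refine (YYh_av h6 h7 h11 hG2 lab hK hκ hQ hX he hC₀ hB hp (r p)).trans ?_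
      refine congrArg _ (sum_congr rfl fun z _ => sum_congr rfl fun w _ => ?_)
      split_ifs <;> simp

end Pool.Agent.T2H34.Dh
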