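import Pool.Agent.T2H34.DhDefs
import Pool.Agent.T2H34.DhZx
import Pool.Agent.W714.EC.Bij
import Pool.Agent.W490.EX.Perx

/-!
Pairs of determinant `ℓ`: dilation by prime elements, for fixed `X`. Port of `W714.EC.bij` and
`W490.EX.perx`.
-/

set_option autoImplicit false

namespace Pool.Agent.T2H34.Dh

open Finset Filter
open Pool.Agent.W78.GA
open Pool.Agent.W78.EC (Gi cone cw PQ th good TT res av InG Tr)
open Pool.Agent.W714.EC (hD01 mem_cone mem_edge edge_unique dt_mul qd qd_mul mul_qd lat_of_dt)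
open Pool.Agent.W490.EX (PQ_mem good_edge mul_parts ite_parts)

/-- pairs of primitive vectors of determinant `ℓ` -/
noncomputable def dedgeh (ℓ : ℕ) (X : ℝ) : Finset (Gi × Gi) :=
  (pball 0 1 X ×ˢ pball 0 1 X).filter (fun e => dt e.1 e.2 = (ℓ : ℤ))

lemma mem_dedgeh {ℓ : ℕ} {X : ℝ} {e : Gi × Gi} : e ∈ dedgeh ℓ X ↔
    (prim e.1 ∧ (nm e.1 : ℝ) ≤ X) ∧ (prim e.2 ∧ (nm e.2 : ℝ) ≤ X) ∧ dt e.1 e.2 = (ℓ : ℤ) := by
  unfold dedgeh
  rw [mem_filter, mem_product, mem_pball hD01, mem_pball hD01]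
  tauto

theorem th_sumh {ℓ : ℕ} (hℓ : 1 ≤ ℓ) (Q : ℕ) (d : ℤ) :
    ∑ p ∈ PQ Q, Real.log p * (if d = (ℓ : ℤ) * p then (1 : ℝ) else 0) = thh ℓ Q d := by
  have hℓ' : (ℓ : ℤ) ≠ 0 := by exact_mod_cast (by omega : ℓ ≠ 0)
  by_cases hd : (ℓ : ℤ) ∣ d
  · obtain ⟨k, rfl⟩ := hd
    rw [thh_mul hℓ, ← Pool.Agent.W490.EX.th_sum]
    refine sum_congr rfl fun p _ => ?_
    congr 1
    refine if_congr ?_ rfl rfl
    constructor
    · intro h
      exact mul_left_cancel₀ hℓ' h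
    · intro h
      rw [h]
  · unfold thh
    rw [if_neg hd]
    refine sum_eq_zero fun p _ => ?_
    rw [if_neg, mul_zero]
    intro h
    exact hd ⟨p, h⟩

open scoped Classical in
theorem bijh {ℓ : ℕ} (K : ℕ) (κ : ℝ) (Q : ℕ) (X : ℝ) (p : ℕ) (π : Gi) (r : ℤ)
    (u v : Gi → ℝ) (hpQ : p ∈ PQ Q) (hπ : nm π = p) (hlπ : lat p r π)
    (hr : (p : ℤ) ∣ r ^ 2 + 1) :
    ∑ e ∈ good K κ Q X, ∑ v' ∈ cone X e.1 e.2, ∑ w' ∈ cone X e.1 e.2,
      (if dt v' w' = (ℓ : ℤ) * p ∧ lat p r v' then u v' * v w' else 0) =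
    ∑ e ∈ (dedgeh ℓ (X / p)).filter (InG K κ Q X π), u (π * e.1) * v (π * e.2) := by
  have hp : p.Prime := by
    unfold PQ at hpQ
    rw [mem_filter] at hpQ
    exact hpQ.2.1
  have hp0 : p ≠ 0 := hp.ne_zero
  have hpR : (0 : ℝ) < p := by exact_mod_cast hp.pos
  have hr' : (p : ℤ) ∣ r ^ 2 - 0 * r + 1 := by simpa using hr
  -- left side as a sum over a sigma type
  have hL : ∑ e ∈ good K κ Q X, ∑ v' ∈ cone X e.1 e.2, ∑ w' ∈ cone X e.1 e.2,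
      (if dt v' w' = (ℓ : ℤ) * p ∧ lat p r v' then u v' * v w' else 0) =
      ∑ s ∈ ((good K κ Q X).sigma (fun e => cone X e.1 e.2 ×ˢ cone X e.1 e.2)).filter
        (fun s => dt s.2.1 s.2.2 = (ℓ : ℤ) * p ∧ lat p r s.2.1), u s.2.1 * v s.2.2 := by
    rw [sum_filter, sum_sigma]
    refine sum_congr rfl fun e _ => ?_
    rw [sum_product]
  rw [hL]
  refine sum_nbij (fun s => (qd p π s.2.1, qd p π s.2.2)) ?_ ?_ ?_ ?_
  · -- maps to
    rintro ⟨e, v', w'⟩ hs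
    rw [mem_filter, mem_sigma, mem_product] at hs
    obtain ⟨⟨he, hv, hw⟩, hdt, hl⟩ := hs
    simp only at he hv hw hdt hl
    have hv1 := mem_cone.1 hv
    have hw1 := mem_cone.1 hw
    have hlw : lat p r w' := lat_of_dt hp hv1.1.1 hl (by rw [hdt]; exact dvd_mul_left _ _)
    have ev := mul_qd hp0 hπ hlπ hr hl
    have ew := mul_qd hp0 hπ hlπ hr hlw
    rw [mem_filter]
    refine ⟨?_, e, he, ?_, ?_⟩
    · rw [mem_dedgeh]
      refine ⟨⟨?_, ?_⟩, ⟨?_, ?_⟩, ?_⟩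
      · exact prim_of_dvd (u := v') hv1.1.1 ⟨π, by rw [mul_comm]; exact ev.symm⟩
      · rw [le_div_iff₀ hpR]
        have : nm v' = p * nm (qd p π v') := by rw [← hπ, ← nm_mul, hπ, ev]
        have h2 := hv1.1.2
        rw [this] at h2
        push_cast at h2
        linarith
      · exact prim_of_dvd (u := w') hw1.1.1 ⟨π, by rw [mul_comm]; exact ew.symm⟩
      · rw [le_div_iff₀ hpR]
        have : nm w' = p * nm (qd p π w') := by rw [← hπ, ← nm_mul, hπ, ew]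
        have h2 := hw1.1.2
        rw [this] at h2
        push_cast at h2
        linarith
      · have h3 : dt (π * qd p π v') (π * qd p π w') = nm π * dt (qd p π v') (qd p π w') :=
          dt_mul _ _ _
        rw [ev, ew, hdt, hπ] at h3
        have hp' : (p : ℤ) ≠ 0 := by exact_mod_cast hp0
        have h4 : (p : ℤ) * ℓ = p * dt (qd p π v') (qd p π w') := by rw [mul_comm]; exact h3
        exact (mul_left_cancel₀ hp' h4).symm
    · simp only [ev]; exact hv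
    · simp only [ew]; exact hw
  · -- injective
    rintro ⟨e, v', w'⟩ hs ⟨e2, v2, w2⟩ hs2 heq
    rw [mem_coe, mem_filter, mem_sigma, mem_product] at hs hs2
    obtain ⟨⟨he, hv, hw⟩, hdt, hl⟩ := hs
    obtain ⟨⟨he2, hv2, hw2⟩, hdt2, hl2⟩ := hs2
    simp only at he hv hw hdt hl he2 hv2 hw2 hdt2 hl2
    have hv1 := mem_cone.1 hv
    have hv21 := mem_cone.1 hv2
    have hlw : lat p r w' := lat_of_dt hp hv1.1.1 hl (by rw [hdt]; exact dvd_mul_left _ _)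
    have hlw2 : lat p r w2 := lat_of_dt hp hv21.1.1 hl2 (by rw [hdt2]; exact dvd_mul_left _ _)
    simp only [Prod.mk.injEq] at heq
    have e1 : v' = v2 := by
      rw [← mul_qd hp0 hπ hlπ hr hl, ← mul_qd hp0 hπ hlπ hr hl2, heq.1]
    have e2' : w' = w2 := by
      rw [← mul_qd hp0 hπ hlπ hr hlw, ← mul_qd hp0 hπ hlπ hr hlw2, heq.2]
    subst e1 e2'
    have he' : e ∈ edge 0 1 (X / (K * Q)) := by
      unfold good at he; exact (mem_filter.1 he).1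
    have he2' : e2 ∈ edge 0 1 (X / (K * Q)) := by
      unfold good at he2; exact (mem_filter.1 he2).1
    have := edge_unique he' he2' hv1.2.1 hv1.2.2 hv21.2.1 hv21.2.2
    subst this
    rfl
  · -- surjective
    rintro ⟨a, b⟩ hab
    rw [mem_coe, mem_filter] at hab
    obtain ⟨hd, f, hf, hfa, hfb⟩ := hab
    rw [mem_dedgeh] at hd
    refine ⟨⟨f, (π * a, π * b)⟩, ?_, ?_⟩
    · rw [mem_coe, mem_filter, mem_sigma, mem_product]
      refine ⟨⟨hf, hfa, hfb⟩, ?_, ?_⟩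
      · simp only
        have h1 : dt a b = ℓ := hd.2.2
        rw [dt_mul, hπ, h1, mul_comm]
      · simp only
        exact lat_mul_left hr' a hlπ
    · simp only
      rw [qd_mul hp0 hπ, qd_mul hp0 hπ]
  · rintro ⟨e, v', w'⟩ hs
    rw [mem_filter, mem_sigma, mem_product] at hs
    obtain ⟨⟨he, hv, hw⟩, hdt, hl⟩ := hs
    simp only at he hv hw hdt hl
    have hv1 := mem_cone.1 hv
    have hlw : lat p r w' := lat_of_dt hp hv1.1.1 hl (by rw [hdt]; exact dvd_mul_left _ _)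
    simp only
    rw [mul_qd hp0 hπ hlπ hr hl, mul_qd hp0 hπ hlπ hr hlw]

open scoped Classical in
/-- the bijection for complex functions -/
theorem bijCh {ℓ : ℕ} (K : ℕ) (κ : ℝ) (Q : ℕ) (X : ℝ) (p : ℕ) (π : Gi) (r : ℤ)
    (u v : Gi → ℂ)
    (hp : p ∈ PQ Q) (h1 : nm π = p) (h2 : lat p r π) (h3 : (p : ℤ) ∣ r ^ 2 + 1) :
    ∑ e ∈ good K κ Q X, ∑ v' ∈ cone X e.1 e.2, ∑ w' ∈ cone X e.1 e.2,
      (if dt v' w' = (ℓ : ℤ) * p ∧ lat p r v' then u v' * v w' else 0) =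
    ∑ e ∈ (dedgeh ℓ (X / p)).filter (InG K κ Q X π), u (π * e.1) * v (π * e.2) := by
  have e1 := bijh (ℓ := ℓ) K κ Q X p π r (fun z => (u z).re) (fun z => (v z).re) hp h1 h2 h3
  have e2 := bijh (ℓ := ℓ) K κ Q X p π r (fun z => (u z).im) (fun z => (v z).im) hp h1 h2 h3
  have e3 := bijh (ℓ := ℓ) K κ Q X p π r (fun z => (u z).re) (fun z => (v z).im) hp h1 h2 h3
  have e4 := bijh (ℓ := ℓ) K κ Q X p π r (fun z => (u z).im) (fun z => (v z).re) hp h1 h2 h3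
  simp only [ite_parts, sum_add_distrib, sum_sub_distrib, ← mul_sum, ← Complex.ofReal_sum]
  rw [e1, e2, e3, e4]
  have e5 : ∀ e : Gi × Gi, u (π * e.1) * v (π * e.2) =
      (((u (π * e.1)).re * (v (π * e.2)).re : ℝ) : ℂ) -
      (((u (π * e.1)).im * (v (π * e.2)).im : ℝ) : ℂ) +
      Complex.I * ((((u (π * e.1)).re * (v (π * e.2)).im : ℝ) : ℂ) +
        (((u (π * e.1)).im * (v (π * e.2)).re : ℝ) : ℂ)) := fun e => mul_parts _ _
  rw [sum_congr rfl fun e _ => e5 e]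
  rw [sum_add_distrib, sum_sub_distrib, ← mul_sum, sum_add_distrib]
  push_cast
  rfl

open scoped Classical in
/-- PERX: the estimate for fixed `X` -/
theorem perxh {ℓ : ℕ} (hℓ : 1 ≤ ℓ) (K : ℕ) (κ : ℝ) (Q : ℕ) (X : ℝ) (A : Type) (d₁ d₂ : A → ℂ)
  (lab : Gi → A) (ϖ : ℕ → Gi) (r : ℕ → ℤ) (ζ₁ ζ₂ : ℕ → Tr A → ℕ × ℕ × ℕ × ℕ → ℝ) (hQ : 1 ≤ Q)
  (hϖ : ∀ p ∈ PQ Q, nm (ϖ p) = p ∧ lat p (r p) (ϖ p) ∧ (p : ℤ) ∣ r p ^ 2 + 1)
  (hζ : ∀ e ∈ good K κ Q X, ∀ p ∈ PQ Q,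
    (((ζ₁ p (TT lab X e) (res p e) : ℝ) : ℂ) + Complex.I * ((ζ₂ p (TT lab X e) (res p e) : ℝ) : ℂ) =
      (((p : ℝ) + 1) / (2 * Q) : ℝ) * ∑ z ∈ cone X e.1 e.2, ∑ w ∈ cone X e.1 e.2,
        (if dt z w = (ℓ : ℤ) * p ∧ lat p (r p) z then d₁ (lab z) * d₂ (lab w) else 0)) ∧
    (((av p (ζ₁ p) (TT lab X e) : ℝ) : ℂ) + Complex.I * ((av p (ζ₂ p) (TT lab X e) : ℝ) : ℂ) =
      (1 / (2 * (Q : ℝ)) : ℝ) * ∑ z ∈ cone X e.1 e.2, ∑ w ∈ cone X e.1 e.2,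
        (if dt z w = (ℓ : ℤ) * p then d₁ (lab z) * d₂ (lab w) else 0))) :
  ‖∑ p ∈ PQ Q, ((Real.log p * ((p : ℝ) + 1) : ℝ) : ℂ) *
      ∑ e ∈ (dedgeh ℓ (X / p)).filter (InG K κ Q X (ϖ p)),
        d₁ (lab (ϖ p * e.1)) * d₂ (lab (ϖ p * e.2))‖ ≤
    2 * Q * ∑ e ∈ edge 0 1 (X / (K * Q)),
      (|∑ p ∈ PQ Q, Real.log p * (ζ₁ p (TT lab X e) (res p e) - av p (ζ₁ p) (TT lab X e))| +
        |∑ p ∈ PQ Q, Real.log p * (ζ₂ p (TT lab X e) (res p e) - av p (ζ₂ p) (TT lab X e))|) +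
    ‖∑ e ∈ good K κ Q X, ∑ v ∈ cone X e.1 e.2, ∑ w ∈ cone X e.1 e.2,
      d₁ (lab v) * d₂ (lab w) * (thh ℓ Q (dt v w) : ℂ)‖ := by
  have hQ0 : (0 : ℝ) < Q := by exact_mod_cast hQ
  have hQC : (Q : ℂ) ≠ 0 := by
    have : Q ≠ 0 := by omega
    exact_mod_cast this
  set F : ℕ → ℂ := fun p => ∑ e ∈ (dedgeh ℓ (X / p)).filter (InG K κ Q X (ϖ p)),
    d₁ (lab (ϖ p * e.1)) * d₂ (lab (ϖ p * e.2)) with hF
  set Z : ℕ → Gi × Gi → ℂ := fun p e => ((ζ₁ p (TT lab X e) (res p e) : ℝ) : ℂ) +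
    Complex.I * ((ζ₂ p (TT lab X e) (res p e) : ℝ) : ℂ) with hZ
  set V : ℕ → Gi × Gi → ℂ := fun p e => ((av p (ζ₁ p) (TT lab X e) : ℝ) : ℂ) +
    Complex.I * ((av p (ζ₂ p) (TT lab X e) : ℝ) : ℂ) with hV
  -- step a
  have hA : ∀ p ∈ PQ Q, ((p : ℂ) + 1) * F p = 2 * Q * ∑ e ∈ good K κ Q X, Z p e := by
    intro p hp
    obtain ⟨a1, a2, a3⟩ := hϖ p hp
    have h1 := bijCh (ℓ := ℓ) K κ Q X p (ϖ p) (r p) (fun z => d₁ (lab z)) (fun z => d₂ (lab z))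
      hp a1 a2 a3
    rw [hF]
    simp only
    rw [← h1, sum_congr rfl fun e he => (hζ e he p hp).1, ← mul_sum, ← mul_assoc]
    congr 1
    push_cast
    field_simp
  -- step b
  have hBB : 2 * (Q : ℂ) * ∑ e ∈ good K κ Q X, ∑ p ∈ PQ Q, (Real.log p : ℂ) * V p e =
      ∑ e ∈ good K κ Q X, ∑ v ∈ cone X e.1 e.2, ∑ w ∈ cone X e.1 e.2,
        d₁ (lab v) * d₂ (lab w) * (thh ℓ Q (dt v w) : ℂ) := by
    rw [mul_sum]
    refine sum_congr rfl fun e he => ?_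
    have h1 : ∀ p ∈ PQ Q, (Real.log p : ℂ) * V p e =
        1 / (2 * Q) * ∑ z ∈ cone X e.1 e.2, ∑ w ∈ cone X e.1 e.2,
          (d₁ (lab z) * d₂ (lab w)) *
            (((Real.log p * if dt z w = (ℓ : ℤ) * p then (1 : ℝ) else 0 : ℝ)) : ℂ) := by
      intro p hp
      have h2 : V p e = _ := (hζ e he p hp).2
      rw [h2, mul_left_comm]
      push_cast
      congr 1
      rw [mul_sum]
      refine sum_congr rfl fun z _ => ?_
      rw [mul_sum]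
      refine sum_congr rfl fun w _ => ?_
      split_ifs <;> push_cast <;> ring
    rw [sum_congr rfl h1, ← mul_sum, ← mul_assoc, mul_one_div_cancel (by
      exact mul_ne_zero two_ne_zero hQC), one_mul, sum_comm]
    refine sum_congr rfl fun z _ => ?_
    rw [sum_comm]
    refine sum_congr rfl fun w _ => ?_
    rw [← mul_sum, ← Complex.ofReal_sum, th_sumh hℓ]
  -- decomposition
  set D : ℕ → Gi × Gi → ℂ := fun p e => Z p e - V p e with hD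
  have hdec : ∑ p ∈ PQ Q, ((Real.log p * ((p : ℝ) + 1) : ℝ) : ℂ) * F p =
      2 * Q * ∑ e ∈ good K κ Q X, ∑ p ∈ PQ Q, (Real.log p : ℂ) * D p e +
      2 * Q * ∑ e ∈ good K κ Q X, ∑ p ∈ PQ Q, (Real.log p : ℂ) * V p e := by
    rw [← mul_add, ← sum_add_distrib]
    have h1 : ∀ e ∈ good K κ Q X, (∑ p ∈ PQ Q, (Real.log p : ℂ) * D p e +
        ∑ p ∈ PQ Q, (Real.log p : ℂ) * V p e) = ∑ p ∈ PQ Q, (Real.log p : ℂ) * Z p e := by
      intro e _
      rw [← sum_add_distrib]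
      refine sum_congr rfl fun p _ => ?_
      rw [hD]
      ring
    rw [sum_congr rfl h1, sum_comm, mul_sum]
    refine sum_congr rfl fun p hp => ?_
    rw [← mul_sum]
    have h2 := hA p hp
    push_cast
    rw [mul_assoc, h2]
    ring
  rw [hdec, hBB]
  refine (norm_add_le _ _).trans (add_le_add ?_ le_rfl)
  rw [norm_mul]
  have h2Q : ‖(2 * (Q : ℂ))‖ = 2 * Q := by
    rw [norm_mul, Complex.norm_natCast]
    simp
  rw [h2Q]
  refine mul_le_mul_of_nonneg_left ?_ (by positivity)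
  refine (norm_sum_le _ _).trans ?_
  refine le_trans (sum_le_sum fun e _ => ?_) (sum_le_sum_of_subset_of_nonneg
    (fun e he => good_edge he) (fun _ _ _ => add_nonneg (abs_nonneg _) (abs_nonneg _)))
  have h3 : ∑ p ∈ PQ Q, (Real.log p : ℂ) * D p e =
      ((∑ p ∈ PQ Q, Real.log p * (ζ₁ p (TT lab X e) (res p e) - av p (ζ₁ p) (TT lab X e)) : ℝ) : ℂ) +
      Complex.I * ((∑ p ∈ PQ Q, Real.log p *
        (ζ₂ p (TT lab X e) (res p e) - av p (ζ₂ p) (TT lab X e)) : ℝ) : ℂ) := by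
    rw [Complex.ofReal_sum, Complex.ofReal_sum, mul_sum, ← sum_add_distrib]
    refine sum_congr rfl fun p _ => ?_
    rw [hD, hZ, hV]
    push_cast
    ring
  rw [h3]
  refine (norm_add_le _ _).trans ?_
  rw [norm_mul, Complex.norm_I, one_mul, Complex.norm_real, Complex.norm_real, Real.norm_eq_abs,
    Real.norm_eq_abs]

end Pool.Agent.T2H34.Dh
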