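import Pool.Agent.T2H34.Dil

/-!
The means over the pairs at almost all scales.
-/

set_option autoImplicit false

namespace Pool.Agent.T2H34

open Finset Filter
open Pool.Agent.W78.GA (Qd nm prim dt ip lat ball pball edge dedge mem_ball mem_pball nm_mul
  one_le_nm star_mul_self' nm_dvd prim_ne_zero nm_zero nm_posR)
open Pool.Agent.W78.EC (Gi cone cw PQ SP th good InG TT res av Tr)
open Pool.Agent.W251.EX
open Pool.Agent.W78.EC.Fx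
open Pool.Agent.W540.EC hiding hD
open Pool.Agent.W991.EC (hD mul_inj card_ball)
open Pool.Agent.W214.EX (Vs wF norm_Vs)
open Pool.Agent.W78.EC.Dl (mem_dedge' dedge_card)
open Pool.Agent.W460.EX (aa aa_of sv_aa)

open scoped Classical in
/-- the sum over the pairs -/
noncomputable def TP (F₁ F₂ : Gi → ℂ) (m : ℝ → ℝ) (s₁ s₂ s₃ s₄ x : ℝ) : ℂ :=
  ∑ e ∈ (dedge 0 1 x).filter (fun e => 0 < ip e.1 e.2), G3 F₁ F₂ (m x) s₁ s₂ s₃ s₄ x e.1 e.2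

open scoped Classical in
theorem AG_if (g : Gi × Gi → ℂ) (s₁ s₂ s₃ s₄ X : ℝ) :
    AG g s₁ s₂ s₃ s₄ X = ∑ e ∈ (dedge 0 1 X).filter (fun e => 0 < ip e.1 e.2),
      if (s₁ * X < (nm e.1 : ℝ) ∧ (nm e.1 : ℝ) ≤ s₂ * X) ∧ (s₃ * X < (nm e.2 : ℝ) ∧
        (nm e.2 : ℝ) ≤ s₄ * X) then g e else 0 := by
  rw [← sum_filter, filter_filter]
  unfold AG
  refine sum_congr ?_ fun _ _ => rfl
  refine filter_congr fun e _ => ?_
  tauto

theorem TP_eq (F₁ F₂ : Gi → ℂ) (m : ℝ → ℝ) (s₁ s₂ s₃ s₄ x : ℝ) :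
    TP F₁ F₂ m s₁ s₂ s₃ s₄ x = AG (fun e => F₁ e.1 * F₂ e.2) s₁ s₂ s₃ s₄ x -
      (m x : ℂ) * AG (fun e => F₁ e.1) s₁ s₂ s₃ s₄ x := by
  classical
  rw [AG_if, AG_if, mul_sum, ← sum_sub_distrib]
  unfold TP
  refine sum_congr rfl fun e _ => ?_
  unfold G3 wF
  by_cases h1 : s₁ * x < (nm e.1 : ℝ) ∧ (nm e.1 : ℝ) ≤ s₂ * x <;>
  by_cases h2 : s₃ * x < (nm e.2 : ℝ) ∧ (nm e.2 : ℝ) ≤ s₄ * x
  · simp only [if_pos h1, if_pos h2, if_pos (And.intro h1 h2)]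
    ring
  · have h3 : ¬((s₁ * x < (nm e.1 : ℝ) ∧ (nm e.1 : ℝ) ≤ s₂ * x) ∧ (s₃ * x < (nm e.2 : ℝ) ∧
      (nm e.2 : ℝ) ≤ s₄ * x)) := fun h => h2 h.2
    simp only [if_pos h1, if_neg h2, if_neg h3]
    ring
  · have h3 : ¬((s₁ * x < (nm e.1 : ℝ) ∧ (nm e.1 : ℝ) ≤ s₂ * x) ∧ (s₃ * x < (nm e.2 : ℝ) ∧
      (nm e.2 : ℝ) ≤ s₄ * x)) := fun h => h1 h.1
    simp only [if_neg h1, if_pos h2, if_neg h3]
    ring
  · have h3 : ¬((s₁ * x < (nm e.1 : ℝ) ∧ (nm e.1 : ℝ) ≤ s₂ * x) ∧ (s₃ * x < (nm e.2 : ℝ) ∧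
      (nm e.2 : ℝ) ≤ s₄ * x)) := fun h => h1 h.1
    simp only [if_neg h1, if_neg h2, if_neg h3]
    ring

open scoped Classical in
/-- almost invariance under multiplication by small elements -/
def VD (F : Gi → ℂ) (τ : ℂ) : Prop := ∀ s : ℝ, 0 < s → ∀ (Q : ℕ) (ε : ℝ), 0 < ε →
  ∃ X₀ : ℝ, ∀ X : ℝ, X₀ ≤ X → ∀ p ∈ PQ Q, ∀ π : Gi, nm π = p →
    (((ball 0 1 (X / p)).filter (fun z => s * (X / p) < (nm z : ℝ) ∧
      F (π * z) ≠ τ * F z)).card : ℝ) ≤ ε * (X / p)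

/-- slowly varying functions -/
def Slow (m : ℝ → ℝ) : Prop := ∀ σ ε : ℝ, 0 < σ → σ ≤ 1 → 0 < ε → ∃ R : ℝ, 1 ≤ R ∧
  ∀ x x' : ℝ, R ≤ x → σ * x ≤ x' → x' ≤ x → |m x - m x'| ≤ ε

open scoped Classical in
theorem hT_of {N : ℕ} (hN : 1 ≤ N) {F₁ F₂ : Gi → ℂ} (h1 : ∀ z, F₁ z ∈ Vs N)
    (h2 : ∀ z, F₂ z ∈ Vs N) {τ₁ τ₂ : ℂ} (ht1 : ‖τ₁‖ = 1) (ht2 : ‖τ₂‖ = 1) (hv1 : VD F₁ τ₁)
    (hv2 : VD F₂ τ₂) {m : ℝ → ℝ} (hm : ∀ x, |m x| ≤ 1) (hmτ : ∀ x, τ₂ * (m x : ℂ) = (m x : ℂ))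
    (hms : Slow m) {s₁ s₂ s₃ s₄ : ℝ} (hs₁ : 0 < s₁) (hs₃ : 0 < s₃) (Q : ℕ) (ε : ℝ) (hε : 0 < ε) :
    ∃ X₀ : ℝ, ∀ X : ℝ, X₀ ≤ X → ∀ p ∈ PQ Q, ∀ π : Gi, nm π = p →
      ‖(τ₁ * τ₂) * TP F₁ F₂ m s₁ s₂ s₃ s₄ (X / p) -
        ∑ e ∈ (dedge 0 1 (X / p)).filter (fun e => 0 < ip e.1 e.2),
        G3 F₁ F₂ (m X) s₁ s₂ s₃ s₄ X (π * e.1) (π * e.2)‖ ≤ ε * (X / p) := by
  obtain ⟨s, hs⟩ : ∃ s : ℝ, s = min s₁ s₃ := ⟨_, rfl⟩
  have hs0 : 0 < s := by rw [hs]; exact lt_min hs₁ hs₃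
  have hss1 : s ≤ s₁ := by rw [hs]; exact min_le_left _ _
  have hss3 : s ≤ s₃ := by rw [hs]; exact min_le_right _ _
  obtain ⟨C, hC0, hC⟩ := pair_cnt s hs0
  obtain ⟨ε₁, hε₁⟩ : ∃ ε₁ : ℝ, ε₁ = ε / (16 * (C + 1)) := ⟨_, rfl⟩
  have hε₁0 : 0 < ε₁ := by rw [hε₁]; positivity
  obtain ⟨ε₂, hε₂⟩ : ∃ ε₂ : ℝ, ε₂ = ε / 288 := ⟨_, rfl⟩
  have hε₂0 : 0 < ε₂ := by rw [hε₂]; positivity
  obtain ⟨X₁, hX₁⟩ := hv1 s hs0 Q ε₁ hε₁0
  obtain ⟨X₂, hX₂⟩ := hv2 s hs0 Q ε₁ hε₁0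
  obtain ⟨Q', hQ'⟩ : ∃ Q' : ℝ, Q' = 2 * Q + 1 := ⟨_, rfl⟩
  have hQ0 : (0 : ℝ) ≤ Q := Nat.cast_nonneg _
  have hQ'1 : 1 ≤ Q' := by rw [hQ']; linarith
  obtain ⟨R, hR1, hR⟩ := hms (1 / Q') ε₂ (by positivity) (by rw [div_le_one (by linarith)]; exact hQ'1)
    hε₂0
  refine ⟨max (max X₁ X₂) (R + Q'), fun X hX p hp π hπ => ?_⟩
  have hXa : X₁ ≤ X := (le_max_left _ _).trans ((le_max_left _ _).trans hX)
  have hXb : X₂ ≤ X := (le_max_right _ _).trans ((le_max_left _ _).trans hX)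
  have hXc : R + Q' ≤ X := (le_max_right _ _).trans hX
  obtain ⟨hp1, hp2, hpp, hp4⟩ := PQ_mem hp
  have hX0 : 0 < X := by linarith
  have hp0 : (0 : ℝ) < p := by exact_mod_cast hpp.pos
  have hpQ : (p : ℝ) ≤ Q' := by
    have : (p : ℝ) ≤ 2 * Q := by exact_mod_cast hp2
    rw [hQ']; linarith
  have hp1' : (1 : ℝ) ≤ p := by exact_mod_cast hpp.one_lt.le
  obtain ⟨x, hx⟩ : ∃ x : ℝ, x = X / p := ⟨_, rfl⟩
  have hx0 : 0 < x := by rw [hx]; positivity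
  have hx1 : 1 ≤ x := by
    rw [hx, le_div_iff₀ hp0]
    linarith
  have hxX : x ≤ X := by rw [hx]; exact div_le_self hX0.le hp1'
  have hmm : |m x - m X| ≤ ε₂ := by
    rw [abs_sub_comm]
    refine hR X x (by linarith) ?_ hxX
    rw [hx, one_div, inv_mul_eq_div]
    exact div_le_div_of_nonneg_left hX0.le hp0 hpQ
  have hV1 := hX₁ X hXa p hp π hπ
  have hV2 := hX₂ X hXb p hp π hπ
  rw [← hx] at hV1 hV2 ⊢
  obtain ⟨V₁, hV₁⟩ : ∃ V₁ : Finset Gi, V₁ = (ball 0 1 x).filter (fun z => s * x < (nm z : ℝ) ∧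
      F₁ (π * z) ≠ τ₁ * F₁ z) := ⟨_, rfl⟩
  obtain ⟨V₂, hV₂⟩ : ∃ V₂ : Finset Gi, V₂ = (ball 0 1 x).filter (fun z => s * x < (nm z : ℝ) ∧
      F₂ (π * z) ≠ τ₂ * F₂ z) := ⟨_, rfl⟩
  rw [← hV₁] at hV1
  rw [← hV₂] at hV2
  have hc1 := (hC x hx1 V₁ (fun v hv => by rw [hV₁, mem_filter] at hv; exact hv.2.1)).1
  have hc2 := (hC x hx1 V₂ (fun v hv => by rw [hV₂, mem_filter] at hv; exact hv.2.1)).2
  have hnm : ∀ z : Gi, (nm (π * z) : ℝ) = p * nm z := by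
    intro z
    rw [nm_mul, hπ]
    push_cast
    ring
  have hwin : ∀ (t t' : ℝ) (z : Gi), (t * X < (nm (π * z) : ℝ) ∧ (nm (π * z) : ℝ) ≤ t' * X) ↔
      (t * x < (nm z : ℝ) ∧ (nm z : ℝ) ≤ t' * x) := by
    intro t t' z
    rw [hnm, hx, ← mul_div_assoc, ← mul_div_assoc, div_lt_iff₀ hp0, le_div_iff₀ hp0,
      mul_comm (p : ℝ)]
  have hpt : ∀ e ∈ (dedge 0 1 x).filter (fun e => 0 < ip e.1 e.2),
      ‖(τ₁ * τ₂) * G3 F₁ F₂ (m x) s₁ s₂ s₃ s₄ x e.1 e.2 -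
        G3 F₁ F₂ (m X) s₁ s₂ s₃ s₄ X (π * e.1) (π * e.2)‖ ≤
      ε₂ + ((if e.1 ∈ V₁ then 4 else 0) + (if e.2 ∈ V₂ then 4 else 0)) := by
    intro e he
    rw [mem_filter, mem_dedge'] at he
    obtain ⟨⟨⟨hp1, hn1⟩, ⟨hp2, hn2⟩, hdt⟩, -⟩ := he
    have i1 : (0 : ℝ) ≤ (if e.1 ∈ V₁ then 4 else 0) := by split_ifs <;> norm_num
    have i2 : (0 : ℝ) ≤ (if e.2 ∈ V₂ then 4 else 0) := by split_ifs <;> norm_num
    have htriv : ‖(τ₁ * τ₂) * G3 F₁ F₂ (m x) s₁ s₂ s₃ s₄ x e.1 e.2 -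
        G3 F₁ F₂ (m X) s₁ s₂ s₃ s₄ X (π * e.1) (π * e.2)‖ ≤ 4 := by
      refine (norm_sub_le _ _).trans ?_
      rw [norm_mul, norm_mul, ht1, ht2, one_mul, one_mul]
      have b1 := G3_le hN h1 h2 (hm x) s₁ s₂ s₃ s₄ x e.1 e.2
      have b2 := G3_le hN h1 h2 (hm X) s₁ s₂ s₃ s₄ X (π * e.1) (π * e.2)
      linarith
    by_cases hv1 : e.1 ∈ V₁
    · rw [if_pos hv1]
      linarith
    by_cases hv2 : e.2 ∈ V₂
    · rw [if_pos hv2]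
      linarith
    rw [if_neg hv1, if_neg hv2]
    unfold G3 wF
    simp only [hwin]
    by_cases c1 : s₁ * x < (nm e.1 : ℝ) ∧ (nm e.1 : ℝ) ≤ s₂ * x
    · by_cases c2 : s₃ * x < (nm e.2 : ℝ) ∧ (nm e.2 : ℝ) ≤ s₄ * x
      · simp only [if_pos c1, if_pos c2]
        have hb1 : e.1 ∈ ball 0 1 x := by
          rw [mem_ball hD]
          exact ⟨(one_le_nm hD).2 (prim_ne_zero hp1), hn1⟩
        have hb2 : e.2 ∈ ball 0 1 x := by
          rw [mem_ball hD]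
          exact ⟨(one_le_nm hD).2 (prim_ne_zero hp2), hn2⟩
        have d1 : F₁ (π * e.1) = τ₁ * F₁ e.1 := by
          by_contra hne
          apply hv1
          rw [hV₁, mem_filter]
          refine ⟨hb1, ?_, hne⟩
          have := mul_le_mul_of_nonneg_right hss1 hx0.le
          linarith [c1.1]
        have d2 : F₂ (π * e.2) = τ₂ * F₂ e.2 := by
          by_contra hne
          apply hv2
          rw [hV₂, mem_filter]
          refine ⟨hb2, ?_, hne⟩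
          have := mul_le_mul_of_nonneg_right hss3 hx0.le
          linarith [c2.1]
        rw [d1, d2]
        have e3 : τ₁ * τ₂ * (F₁ e.1 * (F₂ e.2 - (m x : ℂ) * 1)) -
            τ₁ * F₁ e.1 * (τ₂ * F₂ e.2 - (m X : ℂ) * 1) =
            -(τ₁ * F₁ e.1 * (((m x - m X : ℝ) : ℂ))) := by
          push_cast
          linear_combination (-(τ₁ * F₁ e.1)) * hmτ x
        rw [e3, norm_neg, norm_mul, norm_mul, ht1, one_mul, Complex.norm_real, Real.norm_eq_abs]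
        have f1 := normV hN (h1 e.1)
        calc ‖F₁ e.1‖ * |m x - m X| ≤ 1 * ε₂ := mul_le_mul f1 hmm (abs_nonneg _) zero_le_one
          _ = ε₂ + (0 + 0) := by ring
      · simp only [if_neg c2]
        simp only [mul_zero, sub_self, norm_zero, add_zero]
        exact hε₂0.le
    · simp only [if_neg c1]
      simp only [mul_zero, sub_self, norm_zero, add_zero, zero_mul]
      exact hε₂0.le
  unfold TP
  rw [mul_sum, ← sum_sub_distrib]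
  refine (norm_sum_le _ _).trans ((sum_le_sum hpt).trans ?_)
  have hsub : (dedge 0 1 x).filter (fun e => 0 < ip e.1 e.2) ⊆ dedge 0 1 x :=
    Finset.filter_subset _ _
  refine (Finset.sum_le_sum_of_subset_of_nonneg hsub fun e _ _ => by positivity).trans ?_
  rw [sum_add_distrib, sum_add_distrib, ← sum_filter, ← sum_filter, sum_const, sum_const,
    sum_const, nsmul_eq_mul, nsmul_eq_mul, nsmul_eq_mul]
  have hd := dedge_card hx0.le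
  have f1 : ((dedge 0 1 x).card : ℝ) * ε₂ ≤ ε / 2 * x := by
    calc ((dedge 0 1 x).card : ℝ) * ε₂ ≤ 144 * x * ε₂ := mul_le_mul_of_nonneg_right hd hε₂0.le
      _ = ε / 2 * x := by rw [hε₂]; ring
  have f2 : C * V₁.card ≤ C * (ε₁ * x) := mul_le_mul_of_nonneg_left hV1 hC0
  have f3 : C * V₂.card ≤ C * (ε₁ * x) := mul_le_mul_of_nonneg_left hV2 hC0
  have f4 : C * (ε₁ * x) ≤ ε / 16 * x := by
    have : C * ε₁ ≤ ε / 16 := by
      rw [hε₁, mul_div_assoc', div_le_div_iff₀ (by positivity) (by norm_num)]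
      nlinarith
    calc C * (ε₁ * x) = C * ε₁ * x := by ring
      _ ≤ _ := mul_le_mul_of_nonneg_right this hx0.le
  linarith

theorem th_le {Q : ℕ} (hQ : 1 ≤ Q) (n : ℤ) : |th Q n| ≤ Real.log (2 * Q) := by
  have hQ1 : (1 : ℝ) ≤ Q := by exact_mod_cast hQ
  unfold th
  split_ifs with h
  · have h1 := (PQ_mem h.2)
    have h2 : ((n.toNat : ℕ) : ℤ) = n := Int.toNat_of_nonneg h.1.le
    have h3 : (n : ℝ) = (n.toNat : ℝ) := by
      have := congrArg (fun k : ℤ => (k : ℝ)) h2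
      simp only [Int.cast_natCast] at this
      exact this.symm
    rw [h3]
    have h4 : (1 : ℝ) ≤ (n.toNat : ℝ) := by exact_mod_cast h1.2.2.1.one_lt.le
    have h5 : (n.toNat : ℝ) ≤ 2 * Q := by exact_mod_cast h1.2.1
    rw [abs_of_nonneg (Real.log_nonneg h4)]
    exact Real.log_le_log (by linarith) h5
  · rw [abs_zero]
    exact Real.log_nonneg (by linarith)

/-- the trivial bound -/
theorem triv_bd (K : ℕ) (κ : ℝ) (Q : ℕ) (hK : 1 ≤ K) (hκ : 0 < κ) (hQ : 1 ≤ Q) :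
    ∃ C : ℝ, 0 ≤ C ∧ ∃ X₀ : ℝ, ∀ X : ℝ, X₀ ≤ X → ∀ (δ s₃ s₄ : ℝ) (f : Gi → Gi → ℝ), 0 ≤ δ →
      (∀ v w, s₃ * X < (nm w : ℝ) → (nm w : ℝ) ≤ s₄ * X → |f v w| ≤ δ) →
      |∑ e ∈ good K κ Q X, ∑ v ∈ cone X e.1 e.2, ∑ w ∈ cw X s₃ s₄ e.1 e.2,
        f v w * th Q (dt v w)| ≤ C * δ * X := by
  classical
  obtain ⟨c, CE, Y₀, hc, hE⟩ := Pool.Agent.W899.EC.ecnt
  have hK1 : (1 : ℝ) ≤ K := by exact_mod_cast hK
  have hQ1 : (1 : ℝ) ≤ Q := by exact_mod_cast hQ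
  have hKQ : (0 : ℝ) < K * Q := by positivity
  have hlog : 0 ≤ Real.log (2 * Q) := Real.log_nonneg (by linarith)
  obtain ⟨B, hB⟩ : ∃ B : ℝ, B = 4 * (K * Q / κ + 1) := ⟨_, rfl⟩
  have hB0 : 0 ≤ B := by rw [hB]; positivity
  refine ⟨|CE| / (K * Q) * (B * (B * Real.log (2 * Q))), by positivity,
    max (max (K * Q * Y₀) (2 * (K * Q))) 1, fun X hX δ s₃ s₄ f hδ hf => ?_⟩
  have hXa : K * Q * Y₀ ≤ X := (le_max_left _ _).trans ((le_max_left _ _).trans hX)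
  have hXb : 2 * (K * Q : ℝ) ≤ X := (le_max_right _ _).trans ((le_max_left _ _).trans hX)
  have hX1 : 1 ≤ X := (le_max_right _ _).trans hX
  have hX0 : 0 < X := by linarith
  have hY : Y₀ ≤ X / (K * Q) := by
    rw [le_div_iff₀ hKQ]
    linarith
  have hcard : ((good K κ Q X).card : ℝ) ≤ |CE| * (X / (K * Q)) := by
    have h1 : ((good K κ Q X).card : ℝ) ≤ ((edge 0 1 (X / (K * Q))).card : ℝ) := by
      unfold good
      exact_mod_cast Finset.card_filter_le _ _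
    refine h1.trans ((hE _ hY).2.trans ?_)
    exact mul_le_mul_of_nonneg_right (le_abs_self _) (by positivity)
  have hterm : ∀ e ∈ good K κ Q X, |∑ v ∈ cone X e.1 e.2, ∑ w ∈ cw X s₃ s₄ e.1 e.2,
      f v w * th Q (dt v w)| ≤ B * (B * (δ * Real.log (2 * Q))) := by
    intro e he
    have hcone : ((cone X e.1 e.2).card : ℝ) ≤ B := by
      rw [hB]
      exact (Pool.Agent.W395.EC.dtb K κ Q X hK hκ hQ hXb e he).1
    have hcw : ((cw X s₃ s₄ e.1 e.2).card : ℝ) ≤ B := by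
      refine le_trans ?_ hcone
      unfold cw
      exact_mod_cast Finset.card_filter_le _ _
    refine (Finset.abs_sum_le_sum_abs _ _).trans ?_
    have h1 : ∀ v ∈ cone X e.1 e.2, |∑ w ∈ cw X s₃ s₄ e.1 e.2, f v w * th Q (dt v w)| ≤
        B * (δ * Real.log (2 * Q)) := by
      intro v _
      refine (Finset.abs_sum_le_sum_abs _ _).trans ?_
      have h2 : ∀ w ∈ cw X s₃ s₄ e.1 e.2, |f v w * th Q (dt v w)| ≤ δ * Real.log (2 * Q) := by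
        intro w hw
        unfold cw at hw
        rw [mem_filter] at hw
        rw [abs_mul]
        exact mul_le_mul (hf v w hw.2.1 hw.2.2) (th_le hQ _) (abs_nonneg _) hδ
      refine (Finset.sum_le_card_nsmul _ _ _ h2).trans ?_
      rw [nsmul_eq_mul]
      exact mul_le_mul_of_nonneg_right hcw (by positivity)
    refine (Finset.sum_le_card_nsmul _ _ _ h1).trans ?_
    rw [nsmul_eq_mul]
    exact mul_le_mul_of_nonneg_right hcone (by positivity)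
  refine (Finset.abs_sum_le_sum_abs _ _).trans ?_
  refine (Finset.sum_le_card_nsmul _ _ _ hterm).trans ?_
  rw [nsmul_eq_mul]
  calc ((good K κ Q X).card : ℝ) * (B * (B * (δ * Real.log (2 * Q)))) ≤
        |CE| * (X / (K * Q)) * (B * (B * (δ * Real.log (2 * Q)))) :=
        mul_le_mul_of_nonneg_right hcard (by positivity)
    _ = |CE| / (K * Q) * (B * (B * Real.log (2 * Q))) * δ * X := by ring

theorem hB_of {A : Gi → ℝ} {m : ℝ → ℝ} (hbt : Bt (fun z => A z - m (nm z))) (hms : Slow m)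
    {s₁ s₃ s₄ : ℝ} (hs₁ : 0 < s₁) (hs₃ : 0 < s₃) (hs₃₄ : s₃ < s₄) (hs₄ : s₄ ≤ 1) :
    ∀ (K : ℕ) (κ ε : ℝ), 1 ≤ K → 0 < κ → 0 < ε → ∃ Q₀ : ℕ, ∀ Q : ℕ, Q₀ ≤ Q → ∃ X₀ : ℝ,
      ∀ X : ℝ, X₀ ≤ X → ∀ α : Gi → ℝ, (∀ z, |α z| ≤ 1) → (∀ z, α z ≠ 0 → s₁ * X < (nm z : ℝ)) →
      |∑ e ∈ good K κ Q X, ∑ v ∈ cone X e.1 e.2, ∑ w ∈ cw X s₃ s₄ e.1 e.2,
        α v * (A w - m X) * th Q (dt v w)| ≤ ε * X * Q := by
  intro K κ ε hK hκ hε
  obtain ⟨Q₀, hQ₀⟩ := hbt K κ s₁ s₃ s₄ (ε / 2) hK hκ hs₁ hs₃ hs₃₄ hs₄ (by positivity)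
  refine ⟨max Q₀ 1, fun Q hQ => ?_⟩
  have hQ1 : 1 ≤ Q := (le_max_right _ _).trans hQ
  have hQR : (1 : ℝ) ≤ Q := by exact_mod_cast hQ1
  obtain ⟨X₁, hX₁⟩ := hQ₀ Q ((le_max_left _ _).trans hQ)
  obtain ⟨C, hC, X₂, hX₂⟩ := triv_bd K κ Q hK hκ hQ1
  obtain ⟨δ, hδ⟩ : ∃ δ : ℝ, δ = ε * Q / (2 * (C + 1)) := ⟨_, rfl⟩
  have hδ0 : 0 < δ := by rw [hδ]; positivity
  obtain ⟨R, hR1, hR⟩ := hms s₃ δ hs₃ (by linarith) hδ0
  refine ⟨max (max X₁ X₂) R, fun X hX α ha1 ha2 => ?_⟩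
  have hXa : X₁ ≤ X := (le_max_left _ _).trans ((le_max_left _ _).trans hX)
  have hXb : X₂ ≤ X := (le_max_right _ _).trans ((le_max_left _ _).trans hX)
  have hXc : R ≤ X := (le_max_right _ _).trans hX
  have hX0 : 0 < X := by linarith
  have e1 := hX₁ X hXa α ha1 ha2
  have e2 := hX₂ X hXb δ s₃ s₄ (fun v w => α v * (m (nm w) - m X)) hδ0.le (by
    intro v w hw1 hw2
    have hw3 : (nm w : ℝ) ≤ X := by nlinarith
    have h3 := hR X (nm w) hXc hw1.le hw3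
    rw [abs_mul, abs_sub_comm (m (nm w))]
    calc |α v| * |m X - m (nm w)| ≤ 1 * δ := mul_le_mul (ha1 v) h3 (abs_nonneg _) zero_le_one
      _ = δ := one_mul δ)
  have e3 : ∑ e ∈ good K κ Q X, ∑ v ∈ cone X e.1 e.2, ∑ w ∈ cw X s₃ s₄ e.1 e.2,
        α v * (A w - m X) * th Q (dt v w) =
      ∑ e ∈ good K κ Q X, ∑ v ∈ cone X e.1 e.2, ∑ w ∈ cw X s₃ s₄ e.1 e.2,
        α v * (A w - m (nm w)) * th Q (dt v w) +
      ∑ e ∈ good K κ Q X, ∑ v ∈ cone X e.1 e.2, ∑ w ∈ cw X s₃ s₄ e.1 e.2,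
        α v * (m (nm w) - m X) * th Q (dt v w) := by
    rw [← sum_add_distrib]
    refine sum_congr rfl fun e _ => ?_
    rw [← sum_add_distrib]
    refine sum_congr rfl fun v _ => ?_
    rw [← sum_add_distrib]
    refine sum_congr rfl fun w _ => ?_
    ring
  rw [e3]
  refine (abs_add_le _ _).trans ?_
  have e4 : C * δ * X ≤ ε / 2 * X * Q := by
    have : C * δ ≤ ε / 2 * Q := by
      rw [hδ, mul_div_assoc', div_le_iff₀ (by positivity)]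
      have h0 : 0 ≤ ε * Q := by positivity
      nlinarith
    calc C * δ * X ≤ ε / 2 * Q * X := mul_le_mul_of_nonneg_right this hX0.le
      _ = ε / 2 * X * Q := by ring
  linarith

/-- the means over the pairs are small at almost all scales -/
theorem main3 {N : ℕ} (hN : 1 ≤ N) {F₁ F₂ : Gi → ℂ} (h1 : ∀ z, F₁ z ∈ Vs N)
    (h2 : ∀ z, F₂ z ∈ Vs N) {τ₁ τ₂ : ℂ} (ht1 : ‖τ₁‖ = 1) (ht2 : ‖τ₂‖ = 1) (hv1 : VD F₁ τ₁)
    (hv2 : VD F₂ τ₂) {m : ℝ → ℝ} (hm : ∀ x, |m x| ≤ 1) (hmτ : ∀ x, τ₂ * (m x : ℂ) = (m x : ℂ))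
    (hms : Slow m) (hbr : Bt (fun z => (F₂ z).re - m (nm z))) (hbi : Bt (fun z => (F₂ z).im))
    {s₁ s₂ s₃ s₄ : ℝ} (hs₁ : 0 < s₁) (hs₁₂ : s₁ < s₂) (hs₂ : s₂ ≤ 1) (hs₃ : 0 < s₃)
    (hs₃₄ : s₃ < s₄) (hs₄ : s₄ ≤ 1) (ε : ℝ) (hε : 0 < ε) :
    ∃ N₀ : ℕ, ∀ N' : ℕ, N₀ ≤ N' → ∑ X ∈ Icc 1 N', 1 / (X : ℝ) ^ 2 *
      ‖AG (fun e => F₁ e.1 * F₂ e.2) s₁ s₂ s₃ s₄ X -
        (m X : ℂ) * AG (fun e => F₁ e.1) s₁ s₂ s₃ s₄ X‖ ≤ ε * Real.log N' := by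
  obtain ⟨T, hT⟩ : ∃ T : ℝ → ℂ, T = TP F₁ F₂ m s₁ s₂ s₃ s₄ := ⟨_, rfl⟩
  have hτ : ‖τ₁ * τ₂‖ = 1 := by rw [norm_mul, ht1, ht2, one_mul]
  have hslow0 : Slow (fun _ => (0 : ℝ)) := fun σ ε _ _ hε => ⟨1, le_rfl, fun x x' _ _ _ => by
    rw [sub_self, abs_zero]; exact hε.le⟩
  have hav := avx3 hN h1 h2 hm hτ T (s₁ := s₁) (s₂ := s₂) (s₃ := s₃) (s₄ := s₄) hs₁ hs₃
    (hB_of hbr hms hs₁ hs₃ hs₃₄ hs₄) (by
      have h3 := hB_of (A := fun z => (F₂ z).im) (m := fun _ => 0) (s₁ := s₁) (s₃ := s₃)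
        (s₄ := s₄) (by simpa using hbi) hslow0 hs₁ hs₃ hs₃₄ hs₄
      simpa using h3) (by
      intro Q ε hε
      rw [hT]
      exact hT_of hN h1 h2 ht1 ht2 hv1 hv2 hm hmτ hms hs₁ hs₃ Q ε hε)
  -- regularity
  obtain ⟨g, hg⟩ : ∃ g : Gi × Gi → ℂ, g = fun e => F₁ e.1 * F₂ e.2 := ⟨_, rfl⟩
  obtain ⟨g', hg'⟩ : ∃ g' : Gi × Gi → ℂ, g' = fun e => F₁ e.1 := ⟨_, rfl⟩
  have hg1 : ∀ e, ‖g e‖ ≤ 1 := fun e => by
    rw [hg]
    simp only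
    rw [norm_mul]
    exact mul_le_one₀ (normV hN (h1 _)) (norm_nonneg _) (normV hN (h2 _))
  have hg1' : ∀ e, ‖g' e‖ ≤ 1 := fun e => by
    rw [hg']
    exact normV hN (h1 _)
  obtain ⟨C₁, hC₁, hb1, hr1⟩ := Pool.Agent.W108.EX.regx g hg1 s₁ s₂ s₃ s₄ hs₁ hs₁₂ hs₂ hs₃ hs₃₄ hs₄
  obtain ⟨C₂, hC₂, hb2, hr2⟩ := Pool.Agent.W108.EX.regx g' hg1' s₁ s₂ s₃ s₄ hs₁ hs₁₂ hs₂ hs₃ hs₃₄
    hs₄
  have hTeq : ∀ x, T x = AG g s₁ s₂ s₃ s₄ x - (m x : ℂ) * AG g' s₁ s₂ s₃ s₄ x := by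
    intro x
    rw [hT, hg, hg', TP_eq]
  obtain ⟨C, hC⟩ : ∃ C : ℝ, C = C₁ + 2 * C₂ := ⟨_, rfl⟩
  have hC0 : 0 < C := by rw [hC]; positivity
  have hmn : ∀ x, ‖(m x : ℂ)‖ ≤ 1 := fun x => by
    rw [Complex.norm_real, Real.norm_eq_abs]; exact hm x
  have hb : ∀ X : ℝ, 0 < X → ‖T X‖ ≤ C * X := by
    intro X hX
    rw [hTeq]
    refine (norm_sub_le _ _).trans ?_
    rw [norm_mul]
    have i1 := hb1 X hX
    have i2 := hb2 X hX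
    have i3 : ‖(m X : ℂ)‖ * ‖AG g' s₁ s₂ s₃ s₄ X‖ ≤ 1 * (C₂ * X) :=
      mul_le_mul (hmn X) i2 (norm_nonneg _) zero_le_one
    have i4 : 0 ≤ C₂ * X := by positivity
    rw [hC]
    linarith
  have hr : ∀ δ : ℝ, 0 < δ → δ ≤ 1 → ∃ X₀ : ℝ, ∀ X X' : ℝ, X₀ ≤ X → X ≤ X' →
      X' ≤ (1 + δ) * X → ‖T X' - T X‖ ≤ C * δ * X := by
    intro δ hδ hδ1
    obtain ⟨X₁, hX₁⟩ := hr1 δ hδ hδ1
    obtain ⟨X₂, hX₂⟩ := hr2 δ hδ hδ1
    obtain ⟨R, hR1, hR⟩ := hms (1 / 2) δ (by norm_num) (by norm_num) hδ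
    refine ⟨max (max X₁ X₂) R, fun X X' hX hXX hX' => ?_⟩
    have hXa : X₁ ≤ X := (le_max_left _ _).trans ((le_max_left _ _).trans hX)
    have hXb : X₂ ≤ X := (le_max_right _ _).trans ((le_max_left _ _).trans hX)
    have hXc : R ≤ X := (le_max_right _ _).trans hX
    have hX0 : 0 < X := by linarith
    have i1 := hX₁ X X' hXa hXX hX'
    have i2 := hX₂ X X' hXb hXX hX'
    have i3 := hR X' X (by linarith) (by nlinarith) hXX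
    have i4 := hb2 X hX0
    have e1 : T X' - T X = (AG g s₁ s₂ s₃ s₄ X' - AG g s₁ s₂ s₃ s₄ X) -
        (m X' : ℂ) * (AG g' s₁ s₂ s₃ s₄ X' - AG g' s₁ s₂ s₃ s₄ X) -
        (((m X' - m X : ℝ) : ℂ)) * AG g' s₁ s₂ s₃ s₄ X := by
      rw [hTeq, hTeq]
      push_cast
      ring
    rw [e1]
    refine (norm_sub_le _ _).trans ?_
    have j1 := norm_sub_le (AG g s₁ s₂ s₃ s₄ X' - AG g s₁ s₂ s₃ s₄ X)
      ((m X' : ℂ) * (AG g' s₁ s₂ s₃ s₄ X' - AG g' s₁ s₂ s₃ s₄ X))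
    rw [norm_mul] at j1 ⊢
    have j2 : ‖(m X' : ℂ)‖ * ‖AG g' s₁ s₂ s₃ s₄ X' - AG g' s₁ s₂ s₃ s₄ X‖ ≤
        1 * (C₂ * δ * X) := mul_le_mul (hmn X') i2 (norm_nonneg _) zero_le_one
    have j3 : ‖((m X' - m X : ℝ) : ℂ)‖ * ‖AG g' s₁ s₂ s₃ s₄ X‖ ≤ δ * (C₂ * X) := by
      rw [Complex.norm_real, Real.norm_eq_abs]
      exact mul_le_mul i3 i4 (norm_nonneg _) hδ.le
    rw [hC]
    linarith
  have hSv := sv_aa hC0 hb hr
  obtain ⟨c', C', hc', Q₀, hQ₀⟩ := Pool.Agent.W899.EC.pcnt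
  have hmain := Pool.Agent.W588.EX.dcv pw (aa T) (2 * C) hSv ?_ ε hε
  · obtain ⟨N₀, hN₀⟩ := hmain
    refine ⟨N₀, fun N' hN' => ?_⟩
    refine le_trans (le_of_eq ?_) (hN₀ N' hN')
    refine Finset.sum_congr rfl fun X hX => ?_
    have hX1 : (0 : ℝ) < X := by
      have := (Finset.mem_Icc.1 hX).1
      exact_mod_cast this
    rw [aa_of hX1, hTeq, hg, hg', norm_div, Complex.norm_real, Real.norm_of_nonneg hX1.le]
    field_simp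
  · intro η hη Q₁
    obtain ⟨T', hT'⟩ : ∃ T' : ℕ, 4 * (C * |C'|) / η ≤ T' := exists_nat_ge _
    obtain ⟨Q₂, N₀, hN₀⟩ := hav (η / 2) (by positivity) (max (max Q₁ Q₀) (max T' 1))
    refine ⟨Q₂, max N₀ 3, fun N' hN' => ?_⟩
    obtain ⟨Q, hQ1, hQ2, hQ3⟩ := hN₀ N' ((le_max_left _ _).trans hN')
    have hN3 : 3 ≤ N' := (le_max_right _ _).trans hN'
    have ha : Q₁ ≤ Q := (le_max_left _ _).trans ((le_max_left _ _).trans hQ1)
    have hb' : Q₀ ≤ Q := (le_max_right _ _).trans ((le_max_left _ _).trans hQ1)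
    have hc'' : T' ≤ Q := (le_max_left _ _).trans ((le_max_right _ _).trans hQ1)
    have hd : 1 ≤ Q := (le_max_right _ _).trans ((le_max_right _ _).trans hQ1)
    have hQpos : (0 : ℝ) < Q := by exact_mod_cast hd
    refine ⟨Q, ha, hQ2, ?_⟩
    have hlog : 1 ≤ Real.log N' := by
      rw [← Real.log_exp 1]
      apply Real.log_le_log (Real.exp_pos 1)
      have h4 := Real.exp_one_lt_d9
      have h5 : (3 : ℝ) ≤ N' := by exact_mod_cast hN3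
      linarith
    have hmem : ∀ p ∈ PQ Q, Q < p := fun p hp => (PQ_mem hp).1
    have hlogp : ∀ p ∈ PQ Q, 0 ≤ Real.log p := fun p _ => Real.log_natCast_nonneg p
    -- the error term
    have hsum : ∀ X : ℕ, 1 ≤ X → 1 / (X : ℝ) * ‖∑ p ∈ PQ Q, (Real.log p : ℂ) *
        aa T ((X : ℝ) / p)‖ ≤ 1 / (X : ℝ) ^ 2 *
          ‖∑ p ∈ PQ Q, ((Real.log p * ((p : ℝ) + 1) : ℝ) : ℂ) * T ((X : ℝ) / p)‖ +
            C * |C'| * (1 / (X : ℝ)) := by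
      intro X hX
      have hX1 : (0 : ℝ) < X := by exact_mod_cast hX
      have hXc : (X : ℂ) ≠ 0 := by
        have : X ≠ 0 := by omega
        exact_mod_cast this
      have e1 : ∑ p ∈ PQ Q, (Real.log p : ℂ) * aa T ((X : ℝ) / p) = (1 / (X : ℂ)) *
          (∑ p ∈ PQ Q, ((Real.log p * ((p : ℝ) + 1) : ℝ) : ℂ) * T ((X : ℝ) / p) -
            ∑ p ∈ PQ Q, (Real.log p : ℂ) * T ((X : ℝ) / p)) := by
        rw [← Finset.sum_sub_distrib, Finset.mul_sum]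
        refine Finset.sum_congr rfl fun p hp => ?_
        have hp1 : 0 < p := by
          have := hmem p hp
          omega
        have hp2 : (0 : ℝ) < p := by exact_mod_cast hp1
        have hp3 : (p : ℂ) ≠ 0 := by
          have : p ≠ 0 := by omega
          exact_mod_cast this
        rw [aa_of (div_pos hX1 hp2)]
        push_cast
        field_simp
        ring
      have e2 : ‖∑ p ∈ PQ Q, (Real.log p : ℂ) * T ((X : ℝ) / p)‖ ≤ C * |C'| * X := by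
        calc ‖∑ p ∈ PQ Q, (Real.log p : ℂ) * T ((X : ℝ) / p)‖
            ≤ ∑ p ∈ PQ Q, ‖(Real.log p : ℂ) * T ((X : ℝ) / p)‖ := norm_sum_le _ _
          _ ≤ ∑ p ∈ PQ Q, Real.log p * (C * (X / Q)) := by
              refine Finset.sum_le_sum fun p hp => ?_
              have hp1 := hmem p hp
              have hp2 : (Q : ℝ) ≤ p := by exact_mod_cast hp1.le
              have hp3 : (0 : ℝ) < p := lt_of_lt_of_le hQpos hp2
              rw [norm_mul, Complex.norm_real, Real.norm_of_nonneg (hlogp p hp)]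
              refine mul_le_mul_of_nonneg_left ((hb _ (div_pos hX1 hp3)).trans ?_) (hlogp p hp)
              gcongr
          _ = (∑ p ∈ PQ Q, Real.log p) * (C * (X / Q)) := by rw [Finset.sum_mul]
          _ ≤ (|C'| * Q) * (C * (X / Q)) := by
              refine mul_le_mul_of_nonneg_right ?_ (by positivity)
              refine ((hQ₀ Q hb').2.2.2).trans ?_
              exact mul_le_mul_of_nonneg_right (le_abs_self _) hQpos.le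
          _ = C * |C'| * X := by field_simp
      rw [e1, norm_mul, norm_div, norm_one, Complex.norm_natCast]
      have e3 := norm_sub_le
        (∑ p ∈ PQ Q, ((Real.log p * ((p : ℝ) + 1) : ℝ) : ℂ) * T ((X : ℝ) / p))
        (∑ p ∈ PQ Q, (Real.log p : ℂ) * T ((X : ℝ) / p))
      have e4 : 1 / (X : ℝ) * (1 / (X : ℝ) *
          ‖∑ p ∈ PQ Q, ((Real.log p * ((p : ℝ) + 1) : ℝ) : ℂ) * T ((X : ℝ) / p) -
            ∑ p ∈ PQ Q, (Real.log p : ℂ) * T ((X : ℝ) / p)‖) ≤ 1 / (X : ℝ) * (1 / (X : ℝ) *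
          (‖∑ p ∈ PQ Q, ((Real.log p * ((p : ℝ) + 1) : ℝ) : ℂ) * T ((X : ℝ) / p)‖ +
            C * |C'| * X)) := by
        have h0 : 0 ≤ 1 / (X : ℝ) := by positivity
        exact mul_le_mul_of_nonneg_left (mul_le_mul_of_nonneg_left (e3.trans (by linarith)) h0) h0
      refine e4.trans (le_of_eq ?_)
      field_simp
    calc ∑ X ∈ Icc 1 N', 1 / (X : ℝ) * ‖∑ p ∈ PQ Q, (Real.log p : ℂ) * aa T ((X : ℝ) / p)‖
        ≤ ∑ X ∈ Icc 1 N', (1 / (X : ℝ) ^ 2 *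
          ‖∑ p ∈ PQ Q, ((Real.log p * ((p : ℝ) + 1) : ℝ) : ℂ) * T ((X : ℝ) / p)‖ +
            C * |C'| * (1 / (X : ℝ))) :=
          Finset.sum_le_sum fun X hX => hsum X (Finset.mem_Icc.1 hX).1
      _ = ∑ X ∈ Icc 1 N', 1 / (X : ℝ) ^ 2 *
          ‖∑ p ∈ PQ Q, ((Real.log p * ((p : ℝ) + 1) : ℝ) : ℂ) * T ((X : ℝ) / p)‖ +
            C * |C'| * ∑ X ∈ Icc 1 N', 1 / (X : ℝ) := by
          rw [Finset.sum_add_distrib, ← Finset.mul_sum]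
      _ ≤ η / 2 * Q * Real.log N' + C * |C'| * (1 + Real.log N') := by
          have h0 : 0 ≤ C * |C'| := by positivity
          exact add_le_add hQ3 (mul_le_mul_of_nonneg_left (Pool.Agent.W460.EX.harm_le N') h0)
      _ ≤ η * Q * Real.log N' := by
          have h0 : 0 ≤ C * |C'| := by positivity
          have h4 : 4 * (C * |C'|) ≤ η * Q := by
            rw [div_le_iff₀ hη] at hT'
            have h5 : (T' : ℝ) ≤ Q := by exact_mod_cast hc''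
            calc 4 * (C * |C'|) ≤ T' * η := hT'
              _ ≤ Q * η := by gcongr
              _ = η * Q := mul_comm _ _
          have h5 : C * |C'| * (1 + Real.log N') ≤ C * |C'| * (2 * Real.log N') := by
            apply mul_le_mul_of_nonneg_left _ h0
            linarith
          have h6 : 4 * (C * |C'|) * Real.log N' ≤ η * Q * Real.log N' := by
            apply mul_le_mul_of_nonneg_right h4
            linarith
          linarith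

end Pool.Agent.T2H34
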