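import Pool.Agent.T2H34.DhAvx
import Pool.Agent.T2H34.Mn
import Pool.Agent.W108.EX.Regx

/-!
Pairs of determinant `ℓ`: the sums vary slowly. Port of `W108.EX.regx`.
-/

set_option autoImplicit false

namespace Pool.Agent.T2H34.Dh

open Finset
open Pool.Agent.W78.GA
open Pool.Agent.W78.EC (Gi)
open Pool.Agent.W395.EC (hD)
open Pool.Agent.W108.EX (cntb thin mem_thin thin_card nsl)

/-- pairs of determinant one whose first entry lies in a given set -/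
noncomputable def P1h (ℓ : ℕ) (T : Finset Gi) (X : ℝ) : Finset (Gi × Gi) :=
  (T ×ˢ ball 0 1 (4 * X)).filter (fun e => dt e.1 e.2 = (ℓ : ℤ))

/-- pairs of determinant one whose second entry lies in a given set -/
noncomputable def P2h (ℓ : ℕ) (T : Finset Gi) (X : ℝ) : Finset (Gi × Gi) :=
  (ball 0 1 (4 * X) ×ˢ T).filter (fun e => dt e.1 e.2 = (ℓ : ℤ))

lemma pairsh (ℓ : ℕ) (s : ℝ) (hs : 0 < s) : ∃ C : ℕ, ∀ X : ℝ, 1 ≤ X → ∀ T : Finset Gi,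
    (∀ z ∈ T, prim z ∧ s * X < (nm z : ℝ)) →
      (P1h ℓ T X).card ≤ C * T.card ∧ (P2h ℓ T X).card ≤ C * T.card := by
  obtain ⟨C, hC⟩ := Pool.Agent.W395.EC.ln s hs
  refine ⟨C, fun X hX T hT => ⟨?_, ?_⟩⟩
  · refine card_le_mul_card_image_of_maps_to (f := Prod.fst) (t := T) ?_ C ?_
    · intro e he
      unfold P1h at he
      rw [mem_filter, mem_product] at he
      exact he.1.1
    · intro v hv
      refine le_trans ?_ (hC X v (ℓ : ℤ) hX (hT v hv).1 (hT v hv).2)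
      refine card_le_card_of_injOn Prod.snd ?_ ?_
      · intro e he
        unfold P1h at he
        rw [mem_coe, mem_filter, mem_filter, mem_product] at he
        rw [mem_coe, mem_filter]
        obtain ⟨⟨⟨-, h2⟩, h3⟩, h4⟩ := he
        refine ⟨h2, ?_⟩
        rw [← h4]
        exact h3
      · intro e he e' he' hee
        rw [mem_coe, mem_filter] at he he'
        exact Prod.ext (he.2.trans he'.2.symm) hee
  · refine card_le_mul_card_image_of_maps_to (f := Prod.snd) (t := T) ?_ C ?_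
    · intro e he
      unfold P2h at he
      rw [mem_filter, mem_product] at he
      exact he.1.2
    · intro v hv
      refine le_trans ?_ (hC X v (-(ℓ : ℤ)) hX (hT v hv).1 (hT v hv).2)
      refine card_le_card_of_injOn Prod.fst ?_ ?_
      · intro e he
        unfold P2h at he
        rw [mem_coe, mem_filter, mem_filter, mem_product] at he
        rw [mem_coe, mem_filter]
        obtain ⟨⟨⟨h1, -⟩, h3⟩, h4⟩ := he
        refine ⟨h1, ?_⟩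
        rw [← h4]
        unfold dt at h3 ⊢
        linarith
      · intro e he e' he' hee
        rw [mem_coe, mem_filter] at he he'
        exact Prod.ext hee (he.2.trans he'.2.symm)

/-- the pairs in the windows -/
noncomputable def FFw (ℓ : ℕ) (s₁ s₂ s₃ s₄ X : ℝ) : Finset (Gi × Gi) := by
  classical
  exact (dedgeh ℓ X).filter (fun e => 0 < ip e.1 e.2 ∧ s₁ * X < (nm e.1 : ℝ) ∧
    (nm e.1 : ℝ) ≤ s₂ * X ∧ s₃ * X < (nm e.2 : ℝ) ∧ (nm e.2 : ℝ) ≤ s₄ * X)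

lemma mem_FFw {ℓ : ℕ} {s₁ s₂ s₃ s₄ X : ℝ} {e : Gi × Gi} : e ∈ FFw ℓ s₁ s₂ s₃ s₄ X ↔
    (((prim e.1 ∧ (nm e.1 : ℝ) ≤ X) ∧ (prim e.2 ∧ (nm e.2 : ℝ) ≤ X)) ∧
      dt e.1 e.2 = (ℓ : ℤ)) ∧
      0 < ip e.1 e.2 ∧ s₁ * X < (nm e.1 : ℝ) ∧
    (nm e.1 : ℝ) ≤ s₂ * X ∧ s₃ * X < (nm e.2 : ℝ) ∧ (nm e.2 : ℝ) ≤ s₄ * X := by
  classical
  unfold FFw dedgeh
  rw [mem_filter, mem_filter, mem_product, mem_pball hD, mem_pball hD]

/-- sum over the pairs in the windows -/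
noncomputable def AGw (ℓ : ℕ) (g : Gi × Gi → ℂ) (s₁ s₂ s₃ s₄ X : ℝ) : ℂ :=
  ∑ e ∈ FFw ℓ s₁ s₂ s₃ s₄ X, g e

lemma one_le_nmw {s X : ℝ} {z : Gi} (hs : 0 < s * X) (h : s * X < (nm z : ℝ)) : 1 ≤ nm z := by
  have : (0 : ℝ) < nm z := hs.trans h
  exact_mod_cast this

theorem regxw (ℓ : ℕ) (g : Gi × Gi → ℂ) (hg : ∀ e, ‖g e‖ ≤ 1) (s₁ s₂ s₃ s₄ : ℝ) (h1 : 0 < s₁)
    (h12 : s₁ < s₂) (h2 : s₂ ≤ 1) (h3 : 0 < s₃) (h34 : s₃ < s₄) (h4 : s₄ ≤ 1) :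
    ∃ C : ℝ, 0 < C ∧ (∀ X : ℝ, 0 < X → ‖AGw ℓ g s₁ s₂ s₃ s₄ X‖ ≤ C * X) ∧
      ∀ δ : ℝ, 0 < δ → δ ≤ 1 → ∃ X₀ : ℝ, ∀ X X' : ℝ, X₀ ≤ X → X ≤ X' → X' ≤ (1 + δ) * X →
        ‖AGw ℓ g s₁ s₂ s₃ s₄ X' - AGw ℓ g s₁ s₂ s₃ s₄ X‖ ≤ C * δ * X := by
  obtain ⟨s, hs, hs1, hs2, hs3, hs4⟩ : ∃ s : ℝ, 0 < s ∧ s ≤ s₁ ∧ s ≤ s₂ ∧ s ≤ s₃ ∧ s ≤ s₄ :=
    ⟨min s₁ s₃, lt_min h1 h3, min_le_left _ _, (min_le_left _ _).trans h12.le, min_le_right _ _,
      (min_le_right _ _).trans h34.le⟩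
  obtain ⟨K, C₀, hK, hC₀, hcnt⟩ := cntb
  obtain ⟨C₁, hC₁, hthin⟩ := thin_card
  obtain ⟨C₂, hpair⟩ := pairsh ℓ s hs
  refine ⟨C₂ * (K + C₀) + 4 * (C₂ * C₁) + 1, by positivity, ?_, ?_⟩
  · intro X hX
    unfold AGw
    refine (nsl hg _).trans ?_
    rcases lt_or_ge X 1 with hX1 | hX1
    · have : FFw ℓ s₁ s₂ s₃ s₄ X = ∅ := by
        rw [eq_empty_iff_forall_notMem]
        intro e he
        rw [mem_FFw] at he
        have h5 : 1 ≤ nm e.1 := one_le_nmw (by positivity) he.2.2.1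
        have h6 : (1 : ℝ) ≤ nm e.1 := by exact_mod_cast h5
        linarith [he.1.1.1.2]
      rw [this, card_empty, Nat.cast_zero]
      positivity
    · obtain ⟨T, hT⟩ : ∃ T : Finset Gi, T = thin (s * X) X := ⟨_, rfl⟩
      have hsub : FFw ℓ s₁ s₂ s₃ s₄ X ⊆ P1h ℓ T X := by
        intro e he
        rw [mem_FFw] at he
        obtain ⟨⟨⟨⟨a1, a2⟩, a3, a4⟩, a5⟩, a6, a7, a8, a9, a10⟩ := he
        unfold P1h
        rw [mem_filter, mem_product, mem_ball hD, hT, mem_thin]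
        refine ⟨⟨⟨⟨a1, a2⟩, ?_⟩, one_le_nmw (by positivity) a9, by linarith⟩, a5⟩
        exact lt_of_le_of_lt (by gcongr) a7
      have hp := (hpair X hX1 T (fun z hz => by
        rw [hT, mem_thin] at hz
        exact ⟨hz.1.1, hz.2⟩)).1
      have hTb : T ⊆ ball 0 1 X := by
        intro z hz
        rw [hT, mem_thin] at hz
        rw [mem_ball hD]
        exact ⟨one_le_nmw (by positivity) hz.2, hz.1.2⟩
      have hb := (abs_le.1 (hcnt X hX1)).2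
      have hsq : Real.sqrt X ≤ X := by
        rw [Real.sqrt_le_left (by linarith)]
        nlinarith
      have c1 : ((FFw ℓ s₁ s₂ s₃ s₄ X).card : ℝ) ≤ C₂ * (T.card : ℝ) := by
        exact_mod_cast (card_le_card hsub).trans hp
      have c2 : (T.card : ℝ) ≤ ((ball 0 1 X : Finset Gi).card : ℝ) := by
        exact_mod_cast card_le_card hTb
      have c3 : C₀ * Real.sqrt X ≤ C₀ * X := by gcongr
      have c4 : (T.card : ℝ) ≤ (K + C₀) * X := by linarith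
      have c5 : (C₂ : ℝ) * (T.card : ℝ) ≤ C₂ * ((K + C₀) * X) := by gcongr
      have c6 : 0 ≤ (4 * ((C₂ : ℝ) * C₁) + 1) * X := by positivity
      calc ((FFw ℓ s₁ s₂ s₃ s₄ X).card : ℝ) ≤ C₂ * ((K + C₀) * X) := c1.trans c5
        _ ≤ C₂ * ((K + C₀) * X) + (4 * ((C₂ : ℝ) * C₁) + 1) * X := by linarith
        _ = _ := by ring
  · intro δ hδ hδ1
    obtain ⟨Y₁, hY₁⟩ := hthin s₁ h1 (by linarith) δ hδ hδ1
    obtain ⟨Y₂, hY₂⟩ := hthin s₂ (h1.trans h12) h2 δ hδ hδ1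
    obtain ⟨Y₃, hY₃⟩ := hthin s₃ h3 (by linarith) δ hδ hδ1
    obtain ⟨Y₄, hY₄⟩ := hthin s₄ (h3.trans h34) h4 δ hδ hδ1
    refine ⟨max 1 (max (max Y₁ Y₂) (max Y₃ Y₄)), ?_⟩
    intro X X' hX hXX hX'
    have hX1 : 1 ≤ X := (le_max_left _ _).trans hX
    have hXm : max (max Y₁ Y₂) (max Y₃ Y₄) ≤ X := (le_max_right _ _).trans hX
    have y1 : Y₁ ≤ X := ((le_max_left _ _).trans (le_max_left _ _)).trans hXm
    have y2 : Y₂ ≤ X := ((le_max_right _ _).trans (le_max_left _ _)).trans hXm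
    have y3 : Y₃ ≤ X := ((le_max_left _ _).trans (le_max_right _ _)).trans hXm
    have y4 : Y₄ ≤ X := ((le_max_right _ _).trans (le_max_right _ _)).trans hXm
    have t1 := hY₁ X X' y1 hXX hX'
    have t2 := hY₂ X X' y2 hXX hX'
    have t3 := hY₃ X X' y3 hXX hX'
    have t4 := hY₄ X X' y4 hXX hX'
    have hX0 : 0 < X := by linarith
    have hX'0 : 0 < X' := by linarith
    have h2X : X' ≤ 2 * X := by nlinarith
    classical
    have key : ∀ (σ : ℝ), s ≤ σ → ∀ z ∈ thin (σ * X) (σ * X'), prim z ∧ s * X < (nm z : ℝ) := by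
      intro σ hσ z hz
      rw [mem_thin] at hz
      exact ⟨hz.1.1, lt_of_le_of_lt (by gcongr) hz.2⟩
    have p1 := (hpair X hX1 (thin (s₁ * X) (s₁ * X')) (key s₁ hs1)).1
    have p2 := (hpair X hX1 (thin (s₂ * X) (s₂ * X')) (key s₂ hs2)).1
    have p3 := (hpair X hX1 (thin (s₃ * X) (s₃ * X')) (key s₃ hs3)).2
    have p4 := (hpair X hX1 (thin (s₄ * X) (s₄ * X')) (key s₄ hs4)).2
    have i1 : s₁ * X ≤ s₁ * X' := by gcongr
    have i2 : s₂ * X ≤ s₂ * X' := mul_le_mul_of_nonneg_left hXX (by linarith)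
    have i3 : s₃ * X ≤ s₃ * X' := by gcongr
    have i4 : s₄ * X ≤ s₄ * X' := mul_le_mul_of_nonneg_left hXX (by linarith)
    have j2 : s₂ * X ≤ X := by nlinarith
    have j4 : s₄ * X ≤ X := by nlinarith
    have hsubA : FFw ℓ s₁ s₂ s₃ s₄ X' \ FFw ℓ s₁ s₂ s₃ s₄ X ⊆
        P1h ℓ (thin (s₂ * X) (s₂ * X')) X ∪ P2h ℓ (thin (s₄ * X) (s₄ * X')) X := by
      intro e he
      rw [mem_sdiff, mem_FFw, mem_FFw] at he
      obtain ⟨⟨⟨⟨⟨a1, a2⟩, a3, a4⟩, a5⟩, a6, a7, a8, a9, a10⟩, hn⟩ := he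
      have b1 : 1 ≤ nm e.1 := one_le_nmw (by positivity) a7
      have b2 : 1 ≤ nm e.2 := one_le_nmw (by positivity) a9
      rw [mem_union]
      unfold P1h P2h
      rw [mem_filter, mem_product, mem_ball hD, mem_thin, mem_filter, mem_product, mem_ball hD,
        mem_thin]
      by_contra hc
      push Not at hc
      apply hn
      have k1 : (nm e.1 : ℝ) ≤ s₂ * X := by
        by_contra hk
        push Not at hk
        exact hc.1 ⟨⟨⟨a1, a8⟩, hk⟩, b2, by linarith⟩ a5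
      have k2 : (nm e.2 : ℝ) ≤ s₄ * X := by
        by_contra hk
        push Not at hk
        exact hc.2 ⟨⟨b1, by linarith⟩, ⟨a3, a10⟩, hk⟩ a5
      exact ⟨⟨⟨⟨a1, k1.trans j2⟩, a3, k2.trans j4⟩, a5⟩, a6, i1.trans_lt a7, k1, i3.trans_lt a9, k2⟩
    have hsubB : FFw ℓ s₁ s₂ s₃ s₄ X \ FFw ℓ s₁ s₂ s₃ s₄ X' ⊆
        P1h ℓ (thin (s₁ * X) (s₁ * X')) X ∪ P2h ℓ (thin (s₃ * X) (s₃ * X')) X := by
      intro e he
      rw [mem_sdiff, mem_FFw, mem_FFw] at he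
      obtain ⟨⟨⟨⟨⟨a1, a2⟩, a3, a4⟩, a5⟩, a6, a7, a8, a9, a10⟩, hn⟩ := he
      have b1 : 1 ≤ nm e.1 := one_le_nmw (by positivity) a7
      have b2 : 1 ≤ nm e.2 := one_le_nmw (by positivity) a9
      rw [mem_union]
      unfold P1h P2h
      rw [mem_filter, mem_product, mem_ball hD, mem_thin, mem_filter, mem_product, mem_ball hD,
        mem_thin]
      by_contra hc
      push Not at hc
      apply hn
      have k1 : s₁ * X' < (nm e.1 : ℝ) := by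
        by_contra hk
        push Not at hk
        exact hc.1 ⟨⟨⟨a1, hk⟩, a7⟩, b2, by linarith⟩ a5
      have k2 : s₃ * X' < (nm e.2 : ℝ) := by
        by_contra hk
        push Not at hk
        exact hc.2 ⟨⟨b1, by linarith⟩, ⟨a3, hk⟩, a9⟩ a5
      exact ⟨⟨⟨⟨a1, a2.trans hXX⟩, a3, a4.trans hXX⟩, a5⟩, a6, k1, a8.trans i2, k2, a10.trans i4⟩
    have cA : ((FFw ℓ s₁ s₂ s₃ s₄ X' \ FFw ℓ s₁ s₂ s₃ s₄ X).card : ℝ) ≤
        C₂ * ((thin (s₂ * X) (s₂ * X')).card : ℝ) + C₂ * ((thin (s₄ * X) (s₄ * X')).card : ℝ) := by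
      exact_mod_cast ((card_le_card hsubA).trans (card_union_le _ _)).trans (add_le_add p2 p4)
    have cB : ((FFw ℓ s₁ s₂ s₃ s₄ X \ FFw ℓ s₁ s₂ s₃ s₄ X').card : ℝ) ≤
        C₂ * ((thin (s₁ * X) (s₁ * X')).card : ℝ) + C₂ * ((thin (s₃ * X) (s₃ * X')).card : ℝ) := by
      exact_mod_cast ((card_le_card hsubB).trans (card_union_le _ _)).trans (add_le_add p1 p3)
    have u1 : (C₂ : ℝ) * ((thin (s₁ * X) (s₁ * X')).card : ℝ) ≤ C₂ * (C₁ * δ * X) := by gcongr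
    have u2 : (C₂ : ℝ) * ((thin (s₂ * X) (s₂ * X')).card : ℝ) ≤ C₂ * (C₁ * δ * X) := by gcongr
    have u3 : (C₂ : ℝ) * ((thin (s₃ * X) (s₃ * X')).card : ℝ) ≤ C₂ * (C₁ * δ * X) := by gcongr
    have u4 : (C₂ : ℝ) * ((thin (s₄ * X) (s₄ * X')).card : ℝ) ≤ C₂ * (C₁ * δ * X) := by gcongr
    unfold AGw
    rw [← sum_sdiff_sub_sum_sdiff]
    refine (norm_sub_le _ _).trans ?_
    have v1 := nsl hg (FFw ℓ s₁ s₂ s₃ s₄ X' \ FFw ℓ s₁ s₂ s₃ s₄ X)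
    have v2 := nsl hg (FFw ℓ s₁ s₂ s₃ s₄ X \ FFw ℓ s₁ s₂ s₃ s₄ X')
    have c6 : 0 ≤ ((C₂ : ℝ) * (K + C₀) + 1) * (δ * X) := by positivity
    calc _ ≤ 4 * (C₂ * (C₁ * δ * X)) := by linarith
      _ ≤ 4 * (C₂ * (C₁ * δ * X)) + ((C₂ : ℝ) * (K + C₀) + 1) * (δ * X) := by linarith
      _ = _ := by ring

end Pool.Agent.T2H34.Dh
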