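import Pool.Agent.T2H34.Ind
import Pool.Agent.TH890.DV.C1

/-!
The independence law for the large prime factors of `d` and `d'`, jointly with the residues of the
numbers of prime factors.
-/

set_option autoImplicit false

namespace Pool.Agent.T2H34

open Finset Filter
open Pool.Agent.W78.GA (Qd nm prim dt ip lat ball pball edge dedge mem_ball mem_pball nm_mul
  one_le_nm star_mul_self' nm_dvd prim_ne_zero nm_zero nm_posR)
open Pool.Agent.W78.EC (Gi SP)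
open Pool.Agent.W588.EX (norm_one_of)
open Pool.Agent.W397.EX (ind_eq)
open Pool.Agent.TH890.DV (LogNull tendsto_logN)

open scoped Classical in
/-- the deviation from independence -/
noncomputable def dv (k i j : ℕ) (u₁ u₂ : ℕ → ℝ) (X : ℕ) : ℝ :=
  |(((SP X).filter (fun p => u₁ p.1 = 1 ∧ u₂ p.2 = 1 ∧
      ArithmeticFunction.cardFactors p.1 ≡ i [MOD k] ∧
      ArithmeticFunction.cardFactors p.2 ≡ j [MOD k])).card : ℝ) -
    1 / (k : ℝ) ^ 2 * (av u₁ X * av u₂ X * (SP X).card)|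

/-- the deviation of the character sums -/
noncomputable def ch (ζ : ℂ) (u₁ u₂ : ℕ → ℝ) (e : ℕ × ℕ) (X : ℕ) : ℂ :=
  SS (bu (ζ ^ e.1) u₁) (bu (ζ ^ e.2) u₂) X -
    ((Mm (ζ ^ e.1) u₁ X * Mm (ζ ^ e.2) u₂ X * (SP X).card : ℝ) : ℂ)

theorem dv_le {k : ℕ} (hk : 1 ≤ k) {ζ : ℂ} (hζ : IsPrimitiveRoot ζ k) {u₁ u₂ : ℕ → ℝ} (h1 : Ad u₁)
    (h2 : Ad u₂) (i j X : ℕ) :
    dv k i j u₁ u₂ X ≤ ∑ e ∈ range k ×ˢ range k, ‖ch ζ u₁ u₂ e X‖ := by
  classical
  obtain ⟨c, hc⟩ : ∃ c : ℕ × ℕ → ℂ, c = fun e =>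
      (ζ ^ e.1) ^ ((k - 1) * i) * (ζ ^ e.2) ^ ((k - 1) * j) := ⟨_, rfl⟩
  have hn : ‖ζ‖ = 1 := hζ.norm'_eq_one (by omega)
  have hcn : ∀ e, ‖c e‖ = 1 := by
    intro e
    rw [hc]
    simp only [norm_mul, norm_pow, hn, one_pow, mul_one]
  have hk2 : (1 : ℝ) ≤ (k : ℝ) ^ 2 := by
    have : (1 : ℝ) ≤ k := by exact_mod_cast hk
    nlinarith
  -- the number of the pairs
  have key : (((((SP X).filter (fun p => u₁ p.1 = 1 ∧ u₂ p.2 = 1 ∧
      ArithmeticFunction.cardFactors p.1 ≡ i [MOD k] ∧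
      ArithmeticFunction.cardFactors p.2 ≡ j [MOD k])).card : ℝ) : ℝ) : ℂ) =
      1 / (k : ℂ) ^ 2 * ∑ e ∈ range k ×ˢ range k, c e * SS (bu (ζ ^ e.1) u₁) (bu (ζ ^ e.2) u₂) X := by
    have h3 : ∑ e ∈ range k ×ˢ range k, c e * SS (bu (ζ ^ e.1) u₁) (bu (ζ ^ e.2) u₂) X =
        ∑ p ∈ SP X, ((u₁ p.1 * u₂ p.2 : ℝ) : ℂ) * ∑ e ∈ range k ×ˢ range k, c e *
          ((ζ ^ e.1) ^ ArithmeticFunction.cardFactors p.1 *
            (ζ ^ e.2) ^ ArithmeticFunction.cardFactors p.2 / 1) := by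
      have h4 : ∀ e ∈ range k ×ˢ range k, c e * SS (bu (ζ ^ e.1) u₁) (bu (ζ ^ e.2) u₂) X =
          ∑ p ∈ SP X, ((u₁ p.1 * u₂ p.2 : ℝ) : ℂ) * (c e *
          ((ζ ^ e.1) ^ ArithmeticFunction.cardFactors p.1 *
            (ζ ^ e.2) ^ ArithmeticFunction.cardFactors p.2 / 1)) := by
        intro e _
        unfold SS bu
        rw [mul_sum]
        refine sum_congr rfl fun p _ => ?_
        push_cast
        ring
      rw [sum_congr rfl h4, sum_comm]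
      refine sum_congr rfl fun p _ => ?_
      rw [mul_sum]
    rw [h3, mul_sum, card_filter, Nat.cast_sum, Complex.ofReal_sum]
    refine sum_congr rfl fun p _ => ?_
    have h5 : 1 / (k : ℂ) ^ 2 * (((u₁ p.1 * u₂ p.2 : ℝ) : ℂ) * ∑ e ∈ range k ×ˢ range k, c e *
          ((ζ ^ e.1) ^ ArithmeticFunction.cardFactors p.1 *
            (ζ ^ e.2) ^ ArithmeticFunction.cardFactors p.2 / 1)) =
        ((u₁ p.1 * u₂ p.2 : ℝ) : ℂ) * (if ArithmeticFunction.cardFactors p.1 ≡ i [MOD k] ∧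
          ArithmeticFunction.cardFactors p.2 ≡ j [MOD k] then 1 / 1 else 0) := by
      rw [ind_eq hk hζ, hc]
      ring
    rw [h5]
    rcases h1.bin p.1 with hu1 | hu1
    · rw [if_neg (by rw [hu1]; rintro ⟨h, -⟩; exact zero_ne_one h), hu1]
      simp
    rcases h2.bin p.2 with hu2 | hu2
    · rw [if_neg (by rw [hu2]; rintro ⟨-, h, -⟩; exact zero_ne_one h), hu2]
      simp
    by_cases h6 : ArithmeticFunction.cardFactors p.1 ≡ i [MOD k] ∧
        ArithmeticFunction.cardFactors p.2 ≡ j [MOD k]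
    · rw [if_pos ⟨hu1, hu2, h6.1, h6.2⟩, if_pos h6, hu1, hu2]
      simp
    · rw [if_neg (fun h => h6 h.2.2), if_neg h6]
      simp
  have h00 : ((0, 0) : ℕ × ℕ) ∈ range k ×ˢ range k := by
    rw [Finset.mem_product]
    exact ⟨Finset.mem_range.2 (by omega), Finset.mem_range.2 (by omega)⟩
  have hmain : ((av u₁ X * av u₂ X * (SP X).card : ℝ) : ℂ) = ∑ e ∈ range k ×ˢ range k, c e *
      ((Mm (ζ ^ e.1) u₁ X * Mm (ζ ^ e.2) u₂ X * (SP X).card : ℝ) : ℂ) := by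
    rw [← Finset.add_sum_erase _ _ h00]
    have h3 : ∑ e ∈ (range k ×ˢ range k).erase (0, 0), c e *
      ((Mm (ζ ^ e.1) u₁ X * Mm (ζ ^ e.2) u₂ X * (SP X).card : ℝ) : ℂ) = 0 := by
      refine sum_eq_zero fun e he => ?_
      obtain ⟨he1, he2⟩ := Finset.mem_erase.1 he
      obtain ⟨he3, he4⟩ := Finset.mem_product.1 he2
      have hne : ζ ^ e.1 ≠ 1 ∨ ζ ^ e.2 ≠ 1 := by
        by_contra hno
        push Not at hno
        apply he1
        have e1 : e.1 = 0 := by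
          by_contra h5
          exact hζ.pow_ne_one_of_pos_of_lt h5 (Finset.mem_range.1 he3) hno.1
        have e2 : e.2 = 0 := by
          by_contra h5
          exact hζ.pow_ne_one_of_pos_of_lt h5 (Finset.mem_range.1 he4) hno.2
        exact Prod.ext e1 e2
      unfold Mm
      rcases hne with h | h
      · rw [if_neg h, zero_mul, zero_mul, Complex.ofReal_zero, mul_zero]
      · rw [if_neg h, mul_zero, zero_mul, Complex.ofReal_zero, mul_zero]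
    rw [h3, add_zero, hc]
    unfold Mm
    simp
  have hdiff : ((((((SP X).filter (fun p => u₁ p.1 = 1 ∧ u₂ p.2 = 1 ∧
      ArithmeticFunction.cardFactors p.1 ≡ i [MOD k] ∧
      ArithmeticFunction.cardFactors p.2 ≡ j [MOD k])).card : ℝ) -
      1 / (k : ℝ) ^ 2 * (av u₁ X * av u₂ X * (SP X).card) : ℝ)) : ℂ) =
      1 / (k : ℂ) ^ 2 * ∑ e ∈ range k ×ˢ range k, c e * ch ζ u₁ u₂ e X := by
    rw [Complex.ofReal_sub, key, Complex.ofReal_mul, hmain]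
    have h3 : ∑ e ∈ range k ×ˢ range k, c e * ch ζ u₁ u₂ e X =
        ∑ e ∈ range k ×ˢ range k, c e * SS (bu (ζ ^ e.1) u₁) (bu (ζ ^ e.2) u₂) X -
        ∑ e ∈ range k ×ˢ range k, c e *
          ((Mm (ζ ^ e.1) u₁ X * Mm (ζ ^ e.2) u₂ X * (SP X).card : ℝ) : ℂ) := by
      rw [← sum_sub_distrib]
      refine sum_congr rfl fun e _ => ?_
      unfold ch
      ring
    rw [h3]
    push_cast
    ring
  unfold dv
  rw [← Real.norm_eq_abs, ← Complex.norm_real, hdiff, norm_mul]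
  have h4 : ‖(1 : ℂ) / (k : ℂ) ^ 2‖ ≤ 1 := by
    rw [norm_div, norm_one, norm_pow, Complex.norm_natCast]
    exact (div_le_one (by linarith)).2 hk2
  calc ‖(1 : ℂ) / (k : ℂ) ^ 2‖ * ‖∑ e ∈ range k ×ˢ range k, c e * ch ζ u₁ u₂ e X‖
      ≤ 1 * ‖∑ e ∈ range k ×ˢ range k, c e * ch ζ u₁ u₂ e X‖ :=
        mul_le_mul_of_nonneg_right h4 (norm_nonneg _)
    _ ≤ ∑ e ∈ range k ×ˢ range k, ‖ch ζ u₁ u₂ e X‖ := by
        rw [one_mul]
        refine (norm_sum_le _ _).trans (Finset.sum_le_sum fun e _ => ?_)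
        rw [norm_mul, hcn, one_mul]

/-- Markov's inequality -/
theorem null_of (D : ℕ → ℝ) (hD0 : ∀ X, 0 ≤ D X) (h : ∀ ε : ℝ, 0 < ε → ∃ N₀ : ℕ, ∀ N : ℕ, N₀ ≤ N →
    ∑ X ∈ Icc 1 N, 1 / (X : ℝ) ^ 2 * D X ≤ ε * Real.log N) (ε : ℝ) (hε : 0 < ε) :
    LogNull (fun X => ε * X < D X) := by
  classical
  unfold LogNull
  rw [Metric.tendsto_atTop]
  intro δ hδ
  obtain ⟨N₀, hN₀⟩ := h (ε * δ / 2) (by positivity)
  refine ⟨max N₀ 3, fun N hN => ?_⟩
  have hN3 : 3 ≤ N := (le_max_right _ _).trans hN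
  have hlog : 0 < Real.log N := Real.log_pos (by
    have : (3 : ℝ) ≤ N := by exact_mod_cast hN3
    linarith)
  have hS0 : 0 ≤ ∑ X ∈ (Icc 1 N).filter (fun X : ℕ => ε * X < D X), 1 / (X : ℝ) :=
    Finset.sum_nonneg fun X _ => by positivity
  rw [Real.dist_eq, sub_zero, abs_of_nonneg (div_nonneg hS0 hlog.le), div_lt_iff₀ hlog]
  have h1 : ∑ X ∈ (Icc 1 N).filter (fun X : ℕ => ε * X < D X), 1 / (X : ℝ) ≤
      ∑ X ∈ Icc 1 N, 1 / ε * (1 / (X : ℝ) ^ 2 * D X) := by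
    calc ∑ X ∈ (Icc 1 N).filter (fun X : ℕ => ε * X < D X), 1 / (X : ℝ)
        ≤ ∑ X ∈ (Icc 1 N).filter (fun X : ℕ => ε * X < D X),
          1 / ε * (1 / (X : ℝ) ^ 2 * D X) := by
          refine Finset.sum_le_sum fun X hX => ?_
          obtain ⟨hX1, hX2⟩ := Finset.mem_filter.1 hX
          have hX0 : (0 : ℝ) < X := by
            have := (Finset.mem_Icc.1 hX1).1
            exact_mod_cast this
          have e1 : 1 / (X : ℝ) = 1 / ε * (1 / (X : ℝ) ^ 2 * (ε * X)) := by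
            field_simp
          rw [e1]
          refine mul_le_mul_of_nonneg_left ?_ (by positivity)
          exact mul_le_mul_of_nonneg_left hX2.le (by positivity)
      _ ≤ ∑ X ∈ Icc 1 N, 1 / ε * (1 / (X : ℝ) ^ 2 * D X) := by
          refine Finset.sum_le_sum_of_subset_of_nonneg (Finset.filter_subset _ _) fun X _ _ => ?_
          have := hD0 X
          positivity
  have h2 := hN₀ N ((le_max_left _ _).trans hN)
  calc ∑ X ∈ (Icc 1 N).filter (fun X : ℕ => ε * X < D X), 1 / (X : ℝ)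
      ≤ 1 / ε * ∑ X ∈ Icc 1 N, 1 / (X : ℝ) ^ 2 * D X := by rw [Finset.mul_sum]; exact h1
    _ ≤ 1 / ε * (ε * δ / 2 * Real.log N) := mul_le_mul_of_nonneg_left h2 (by positivity)
    _ = δ * Real.log N / 2 := by field_simp
    _ < δ * Real.log N := by
        have := mul_pos hδ hlog
        linarith

/-- **the independence law** -/
theorem law {k : ℕ} (hk : 1 ≤ k) {u₁ u₂ : ℕ → ℝ} (h1 : Ad u₁) (h2 : Ad u₂) (i j : ℕ) (ε : ℝ)
    (hε : 0 < ε) : LogNull (fun X => ε * X < dv k i j u₁ u₂ X) := by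
  classical
  obtain ⟨ζ, hζ⟩ : ∃ ζ : ℂ, IsPrimitiveRoot ζ k :=
    ⟨_, Complex.isPrimitiveRoot_exp k (by omega)⟩
  have hζk : ∀ l, (ζ ^ l) ^ k = 1 := fun l => by
    rw [← pow_mul, mul_comm, pow_mul, hζ.pow_eq_one, one_pow]
  refine null_of _ (fun X => abs_nonneg _) ?_ ε hε
  intro ε hε
  set E := range k ×ˢ range k with hE
  obtain ⟨ε', hε'⟩ : ∃ ε' : ℝ, ε' = ε / (E.card + 1) := ⟨_, rfl⟩
  have hε'0 : 0 < ε' := by rw [hε']; positivity
  have hN0 : ∀ e : ℕ × ℕ, ∃ N₀ : ℕ, ∀ N : ℕ, N₀ ≤ N →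
      ∑ X ∈ Icc 1 N, 1 / (X : ℝ) ^ 2 * ‖ch ζ u₁ u₂ e X‖ ≤ ε' * Real.log N :=
    fun e => ind2 hk (hζk _) (hζk _) h1 h2 ε' hε'0
  choose N₀ hN₀ using hN0
  refine ⟨max (E.sup N₀) 3, fun N hN => ?_⟩
  have hlog : 0 ≤ Real.log N := Real.log_natCast_nonneg N
  calc ∑ X ∈ Icc 1 N, 1 / (X : ℝ) ^ 2 * dv k i j u₁ u₂ X
      ≤ ∑ X ∈ Icc 1 N, 1 / (X : ℝ) ^ 2 * ∑ e ∈ E, ‖ch ζ u₁ u₂ e X‖ :=
        Finset.sum_le_sum fun X _ =>
          mul_le_mul_of_nonneg_left (dv_le hk hζ h1 h2 i j X) (by positivity)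
    _ = ∑ e ∈ E, ∑ X ∈ Icc 1 N, 1 / (X : ℝ) ^ 2 * ‖ch ζ u₁ u₂ e X‖ := by
        simp_rw [Finset.mul_sum]
        rw [Finset.sum_comm]
    _ ≤ ∑ _e ∈ E, ε' * Real.log N := by
        refine Finset.sum_le_sum fun e he => hN₀ e N ?_
        exact (Finset.le_sup he).trans ((le_max_left _ _).trans hN)
    _ = E.card * ε' * Real.log N := by rw [Finset.sum_const, nsmul_eq_mul, mul_assoc]
    _ ≤ ε * Real.log N := by
        refine mul_le_mul_of_nonneg_right ?_ hlog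
        rw [hε', mul_div_assoc', div_le_iff₀ (by positivity)]
        nlinarith

end Pool.Agent.T2H34
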