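import Pool.Agent.T2H34.DhCn
import Pool.Agent.T2H34.Law

/-!
The correlations along `x + t y`, `x + (t + h) y` over the region.
-/

set_option autoImplicit false

namespace Pool.Agent.T2H34.Dh

open Finset Filter
open Pool.Agent.W78.GA (Qd nm prim dt ip lat ball pball edge dedge)
open Pool.Agent.W78.EC (Gi)
open Pool.Agent.W681.EC (sum_inv_le)
open Pool.Agent.W251.EX (bO)

/-- the sum over the region -/
noncomputable def SRg (t h : ℕ) (F₁ F₂ : Gi → ℂ) (X : ℕ) : ℂ :=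
  ∑ q ∈ Rg X, F₁ (pv t q) * F₂ (pv (t + h) q)

/-- the sum over a cell -/
noncomputable def Tc (h J : ℕ) (F₁ F₂ : Gi → ℂ) (c : ℕ × ℕ) (x : ℝ) : ℂ :=
  Th h F₁ F₂ (((c.1 : ℝ) / J) ^ 2) ((((c.1 : ℝ) + 1) / J) ^ 2) (((c.2 : ℝ) / J) ^ 2)
      ((((c.2 : ℝ) + 1) / J) ^ 2) x

open scoped Classical in
lemma SRg_le {t h H J X : ℕ} (P : Pm t h H J X) {F₁ F₂ : Gi → ℂ} (hF₁ : ∀ z, ‖F₁ z‖ ≤ 1)
    (hF₂ : ∀ z, ‖F₂ z‖ ≤ 1) : ‖SRg t h F₁ F₂ X‖ ≤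
      ∑ c ∈ Gd t h H J, ‖Tc h J F₁ F₂ c ((H ^ 2 * X : ℕ) : ℝ)‖ +
      ((((Rg X).filter (fun q => (1 - 4 * (H : ℝ) / J) * X < (nm q.2 : ℝ))).card : ℝ) +
      (((Rg X).filter (fun q => (nm q.1 : ℝ) ≤ 9 * (H : ℝ) ^ 2 * (sd H J X) ^ 2)).card : ℝ) +
      (((Rg X).filter (fun q => (nm (q.2 - q.1) : ℝ) ≤ 9 * (H : ℝ) ^ 2 * (sd H J X) ^ 2)).card :
        ℝ)) := by
  obtain ⟨cf, hcf⟩ : ∃ cf : Gi × Gi → ℕ × ℕ, cf = fun q =>
    (cix H J X (pv t q), cix H J X (pv (t + h) q)) := ⟨_, rfl⟩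
  obtain ⟨f, hf⟩ : ∃ f : Gi × Gi → ℂ, f = fun q => F₁ (pv t q) * F₂ (pv (t + h) q) := ⟨_, rfl⟩
  have hfb : ∀ q, ‖f q‖ ≤ 1 := by
    intro q
    rw [hf]
    simp only [norm_mul]
    exact mul_le_one₀ (hF₁ _) (norm_nonneg _) (hF₂ _)
  have e1 : SRg t h F₁ F₂ X = ∑ q ∈ (Rg X).filter (fun q => cf q ∈ Gd t h H J), f q +
      ∑ q ∈ (Rg X).filter (fun q => cf q ∉ Gd t h H J), f q := by
    rw [sum_filter_add_sum_filter_not, hf]
    rfl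
  have e2 : ∑ q ∈ (Rg X).filter (fun q => cf q ∈ Gd t h H J), f q =
      ∑ c ∈ Gd t h H J, Tc h J F₁ F₂ c ((H ^ 2 * X : ℕ) : ℝ) := by
    rw [← sum_fiberwise_of_maps_to (s := (Rg X).filter (fun q => cf q ∈ Gd t h H J))
      (t := Gd t h H J) (g := cf) (fun q hq => (mem_filter.1 hq).2)]
    refine sum_congr rfl fun c hc => ?_
    unfold Tc
    rw [cell_sum P F₁ F₂ hc, filter_filter, hcf, hf]
    refine sum_congr ?_ fun _ _ => rfl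
    apply filter_congr
    intro q _
    constructor
    · rintro ⟨-, h2⟩
      exact h2
    · intro h2
      refine ⟨?_, h2⟩
      simp only at h2 ⊢
      rw [h2]
      exact hc
  have e3 : ‖∑ q ∈ (Rg X).filter (fun q => cf q ∉ Gd t h H J), f q‖ ≤
      (((Rg X).filter (fun q => cf q ∉ Gd t h H J)).card : ℝ) := by
    refine (norm_sum_le _ _).trans ?_
    refine (sum_le_sum (fun q _ => hfb q)).trans ?_
    rw [sum_const, nsmul_eq_mul, mul_one]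
  have e4 : (((Rg X).filter (fun q => cf q ∉ Gd t h H J)).card : ℝ) ≤
      ((((Rg X).filter (fun q => (1 - 4 * (H : ℝ) / J) * X < (nm q.2 : ℝ))).card : ℝ) +
      (((Rg X).filter (fun q => (nm q.1 : ℝ) ≤ 9 * (H : ℝ) ^ 2 * (sd H J X) ^ 2)).card : ℝ) +
      (((Rg X).filter (fun q => (nm (q.2 - q.1) : ℝ) ≤ 9 * (H : ℝ) ^ 2 * (sd H J X) ^ 2)).card :
        ℝ)) := by
    have hsub : (Rg X).filter (fun q => cf q ∉ Gd t h H J) ⊆
        (Rg X).filter (fun q => (1 - 4 * (H : ℝ) / J) * X < (nm q.2 : ℝ)) ∪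
        (Rg X).filter (fun q => (nm q.1 : ℝ) ≤ 9 * (H : ℝ) ^ 2 * (sd H J X) ^ 2) ∪
        (Rg X).filter (fun q => (nm (q.2 - q.1) : ℝ) ≤ 9 * (H : ℝ) ^ 2 * (sd H J X) ^ 2) := by
      intro q hq
      rw [mem_filter] at hq
      rw [mem_union, mem_union, mem_filter, mem_filter, mem_filter]
      have h2 := hq.2
      rw [hcf] at h2
      rcases bad_mem P hq.1 h2 with h3 | h3 | h3
      · exact Or.inl (Or.inl ⟨hq.1, h3⟩)
      · exact Or.inl (Or.inr ⟨hq.1, h3⟩)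
      · exact Or.inr ⟨hq.1, h3⟩
    have h5 := (card_le_card hsub).trans (card_union_le _ _)
    have h6 := h5.trans (Nat.add_le_add_right (card_union_le _ _) _)
    exact_mod_cast h6
  rw [e1, e2]
  refine (norm_add_le _ _).trans (add_le_add ?_ (e3.trans e4))
  exact norm_sum_le _ _

/-- the pairs outside the cells -/
lemma bad_card (t h H : ℕ) (hh : 1 ≤ h) (hH : t + h + 1 ≤ H) : ∃ K : ℝ, 0 < K ∧ ∀ J : ℕ,
    8 * H ≤ J → 3 * H ^ 2 ≤ J → ∃ X₀ : ℕ, ∀ X : ℕ, X₀ ≤ X → Pm t h H J X ∧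
      ∀ {F₁ F₂ : Gi → ℂ}, (∀ z, ‖F₁ z‖ ≤ 1) → (∀ z, ‖F₂ z‖ ≤ 1) →
      ‖SRg t h F₁ F₂ X‖ ≤ ∑ c ∈ Gd t h H J, ‖Tc h J F₁ F₂ c ((H ^ 2 * X : ℕ) : ℝ)‖ + K / J * X := by
  classical
  obtain ⟨C₁, hC₁, h1⟩ := b1_card
  obtain ⟨C₂, hC₂, h2⟩ := b2_card
  have hHR : (1 : ℝ) ≤ H := by exact_mod_cast (by omega : 1 ≤ H)
  refine ⟨4 * C₁ * H + 6 * C₂ * H ^ 2, by positivity, fun J hJ1 hJ2 => ?_⟩
  have hJ1R : 8 * (H : ℝ) ≤ J := by exact_mod_cast hJ1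
  have hJ2R : 3 * (H : ℝ) ^ 2 ≤ J := by exact_mod_cast hJ2
  have hJ0 : (0 : ℝ) < J := by linarith
  obtain ⟨X₁, hX₁⟩ := h1 (4 * (H : ℝ) / J) (by positivity) (by
    rw [div_le_iff₀ hJ0]
    linarith)
  refine ⟨max X₁ (19 * J ^ 2 + 1), fun X hX => ?_⟩
  have hXa : X₁ ≤ X := (le_max_left _ _).trans hX
  have hXb : 19 * J ^ 2 + 1 ≤ X := (le_max_right _ _).trans hX
  have P : Pm t h H J X := ⟨hh, hH, by omega, hXb⟩
  refine ⟨P, fun hF₁ hF₂ => ?_⟩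
  refine (SRg_le P hF₁ hF₂).trans (add_le_add le_rfl ?_)
  have hXR : 19 * (J : ℝ) ^ 2 + 1 ≤ X := by exact_mod_cast hXb
  have hX0 : (0 : ℝ) < X := by nlinarith
  have b1 := hX₁ X hXa
  have hδ0 : (0 : ℝ) < 9 * (H : ℝ) ^ 4 / (J : ℝ) ^ 2 := by positivity
  have hδ1 : 9 * (H : ℝ) ^ 4 / (J : ℝ) ^ 2 ≤ 1 := by
    rw [div_le_one (by positivity)]
    calc 9 * (H : ℝ) ^ 4 = (3 * (H : ℝ) ^ 2) ^ 2 := by ring
      _ ≤ (J : ℝ) ^ 2 := pow_le_pow_left₀ (by positivity) hJ2R 2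
  have e1 : 9 * (H : ℝ) ^ 2 * (sd H J X) ^ 2 = 9 * (H : ℝ) ^ 4 / (J : ℝ) ^ 2 * X := by
    unfold sd
    rw [div_pow, mul_pow, Real.sq_sqrt hX0.le]
    ring
  have hδX : 1 ≤ 9 * (H : ℝ) ^ 4 / (J : ℝ) ^ 2 * X := by
    rw [div_mul_eq_mul_div, le_div_iff₀ (by positivity)]
    have : (1 : ℝ) ≤ (H : ℝ) ^ 4 := one_le_pow₀ hHR
    nlinarith
  obtain ⟨b2, b3⟩ := h2 _ hδ0 hδ1 X hδX
  have hsq : Real.sqrt (9 * (H : ℝ) ^ 4 / (J : ℝ) ^ 2) = 3 * (H : ℝ) ^ 2 / J := by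
    rw [show 9 * (H : ℝ) ^ 4 / (J : ℝ) ^ 2 = (3 * (H : ℝ) ^ 2 / J) ^ 2 by
      rw [div_pow]
      ring]
    exact Real.sqrt_sq (by positivity)
  rw [hsq] at b2 b3
  rw [e1]
  have e2 : (4 * C₁ * H + 6 * C₂ * H ^ 2) / J * X = C₁ * (4 * (H : ℝ) / J) * X +
      C₂ * (3 * (H : ℝ) ^ 2 / J) * X + C₂ * (3 * (H : ℝ) ^ 2 / J) * X := by
    field_simp
    ring
  rw [e2]
  linarith

/-- dilation of the scales -/
lemma scale_sum (H N : ℕ) (hH : 1 ≤ H) (T : ℝ → ℝ) (hT : ∀ x, 0 ≤ T x) :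
    ∑ X ∈ Icc 1 N, 1 / (X : ℝ) ^ 2 * T ((H ^ 2 * X : ℕ) : ℝ) ≤
      (H : ℝ) ^ 4 * ∑ X ∈ Icc 1 (H ^ 2 * N), 1 / (X : ℝ) ^ 2 * T (X : ℝ) := by
  have hHR : (1 : ℝ) ≤ H := by exact_mod_cast hH
  have e1 : ∑ X ∈ Icc 1 N, 1 / (X : ℝ) ^ 2 * T ((H ^ 2 * X : ℕ) : ℝ) =
      ∑ X ∈ Icc 1 N, (H : ℝ) ^ 4 * (1 / (((H ^ 2 * X : ℕ)) : ℝ) ^ 2 * T ((H ^ 2 * X : ℕ) : ℝ)) := by
    refine sum_congr rfl fun X hX => ?_
    rw [mem_Icc] at hX
    have : (0 : ℝ) < X := by exact_mod_cast (by omega : 0 < X)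
    push_cast
    field_simp
  rw [e1, ← mul_sum]
  apply mul_le_mul_of_nonneg_left _ (by positivity)
  have hinj : Function.Injective (fun X : ℕ => H ^ 2 * X) := by
    intro a b hab
    exact Nat.eq_of_mul_eq_mul_left (by positivity) hab
  have e2 : ∑ X ∈ Icc 1 N, (1 / (((H ^ 2 * X : ℕ)) : ℝ) ^ 2 * T ((H ^ 2 * X : ℕ) : ℝ)) =
      ∑ X ∈ (Icc 1 N).map ⟨fun X : ℕ => H ^ 2 * X, hinj⟩, 1 / (X : ℝ) ^ 2 * T (X : ℝ) := by
    rw [sum_map]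
    rfl
  rw [e2]
  apply sum_le_sum_of_subset_of_nonneg
  · intro X hX
    rw [Finset.mem_map] at hX
    obtain ⟨Y, hY, rfl⟩ := hX
    rw [mem_Icc] at hY ⊢
    simp only [Function.Embedding.coeFn_mk]
    have h1 : 0 < H ^ 2 := by positivity
    exact ⟨Nat.mul_pos h1 (by omega), Nat.mul_le_mul_left _ hY.2⟩
  · intro X _ _
    have := hT (X : ℝ)
    positivity

/-- the correlations over the region are small at almost all scales -/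
theorem rgh {k : ℕ} (hk : 1 ≤ k) {b₁ b₂ : ℂ} (hb₁ : b₁ ^ k = 1) (hb₂ : b₂ ^ k = 1)
    (hne : b₁ ≠ 1 ∨ b₂ ≠ 1) (t : ℕ) {h : ℕ} (hh : 1 ≤ h) (ε : ℝ) (hε : 0 < ε) :
    ∃ N₀ : ℕ, ∀ N : ℕ, N₀ ≤ N → ∑ X ∈ Icc 1 N, 1 / (X : ℝ) ^ 2 *
      ‖SRg t h (bO b₁) (bO b₂) X‖ ≤ ε * Real.log N := by
  classical
  obtain ⟨H, hH⟩ : ∃ H, H = t + h + 1 := ⟨_, rfl⟩
  have hH1 : 1 ≤ H := by omega
  have hHR : (1 : ℝ) ≤ H := by exact_mod_cast hH1
  obtain ⟨K, hK, hbad⟩ := bad_card t h H hh (by omega)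
  obtain ⟨J, hJ⟩ : ∃ J, J = 8 * H + 3 * H ^ 2 + ⌈8 * K / ε⌉₊ := ⟨_, rfl⟩
  obtain ⟨X₀, hX₀⟩ := hbad J (by omega) (by omega)
  have hJ1 : 1 ≤ J := by omega
  have hJR : (1 : ℝ) ≤ J := by exact_mod_cast hJ1
  have hJε : K / J ≤ ε / 8 := by
    rw [div_le_div_iff₀ (by positivity) (by norm_num)]
    have h1 : 8 * K / ε ≤ J := by
      refine (Nat.le_ceil _).trans ?_
      exact_mod_cast (by omega : ⌈8 * K / ε⌉₊ ≤ J)
    rw [div_le_iff₀ hε] at h1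
    linarith
  have hF₁ : ∀ z, ‖bO b₁ z‖ ≤ 1 := fun z => by
    unfold bO
    rw [norm_pow, norm_root hk hb₁, one_pow]
  have hF₂ : ∀ z, ‖bO b₂ z‖ ≤ 1 := fun z => by
    unfold bO
    rw [norm_pow, norm_root hk hb₂, one_pow]
  obtain ⟨ε', hε'⟩ : ∃ ε' : ℝ, ε' = ε / (8 * (H : ℝ) ^ 4 * (((Gd t h H J).card : ℝ) + 1)) := ⟨_, rfl⟩
  have hε'0 : 0 < ε' := by rw [hε']; positivity
  have hcell : ∀ c ∈ Gd t h H J, ∀ᶠ N' : ℕ in atTop, ∑ X ∈ Icc 1 N', 1 / (X : ℝ) ^ 2 *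
      ‖Tc h J (bO b₁) (bO b₂) c X‖ ≤ ε' * Real.log N' := by
    intro c hc
    obtain ⟨⟨g1, g2⟩, g3, g4, -⟩ := mem_Gd.1 hc
    have c1 : 1 ≤ c.1 := by
      rcases Nat.eq_zero_or_pos c.1 with h0 | h0
      · rw [h0] at g3
        omega
      · exact h0
    have c2 : 1 ≤ c.2 := by
      rcases Nat.eq_zero_or_pos c.2 with h0 | h0
      · rw [h0] at g4
        omega
      · exact h0
    have c1R : (1 : ℝ) ≤ c.1 := by exact_mod_cast c1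
    have c2R : (1 : ℝ) ≤ c.2 := by exact_mod_cast c2
    have g1R : (c.1 : ℝ) + 1 ≤ J := by exact_mod_cast g1
    have g2R : (c.2 : ℝ) + 1 ≤ J := by exact_mod_cast g2
    have hlt : ∀ u : ℝ, 1 ≤ u → (u / J) ^ 2 < ((u + 1) / J) ^ 2 := by
      intro u hu
      apply pow_lt_pow_left₀ _ (by positivity) two_ne_zero
      exact div_lt_div_of_pos_right (by linarith) (by linarith)
    have hle : ∀ u : ℝ, 0 ≤ u → u ≤ J → (u / J) ^ 2 ≤ 1 := by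
      intro u hu hu2
      apply pow_le_one₀ (by positivity)
      rw [div_le_one (by linarith)]
      exact hu2
    obtain ⟨N₀, hN₀⟩ := corh hk hb₁ hb₂ hne hh (s₁ := ((c.1 : ℝ) / J) ^ 2)
      (s₂ := (((c.1 : ℝ) + 1) / J) ^ 2) (s₃ := ((c.2 : ℝ) / J) ^ 2)
      (s₄ := (((c.2 : ℝ) + 1) / J) ^ 2) (by positivity) (hlt _ c1R) (hle _ (by linarith) g1R)
      (by positivity) (hlt _ c2R) (hle _ (by linarith) g2R) ε' hε'0
    rw [eventually_atTop]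
    exact ⟨N₀, fun N' hN' => hN₀ N' hN'⟩
  have hall := (Finset.eventually_all (Gd t h H J)).2 hcell
  obtain ⟨N₁, hN₁⟩ := eventually_atTop.1 hall
  obtain ⟨A, hA⟩ : ∃ A : ℝ, A = ∑ X ∈ Icc 1 X₀, 1 / (X : ℝ) ^ 2 *
      ‖SRg t h (bO b₁) (bO b₂) X‖ := ⟨_, rfl⟩
  have hA0 : 0 ≤ A := by
    rw [hA]
    exact sum_nonneg fun X _ => by positivity
  refine ⟨max (max N₁ 3) (max (H ^ 2) (⌈Real.exp (4 * A / ε)⌉₊)), fun N hN => ?_⟩
  have hNa : N₁ ≤ N := ((le_max_left _ _).trans (le_max_left _ _)).trans hN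
  have hNb : 3 ≤ N := ((le_max_right _ _).trans (le_max_left _ _)).trans hN
  have hNc : H ^ 2 ≤ N := ((le_max_left _ _).trans (le_max_right _ _)).trans hN
  have hNd : ⌈Real.exp (4 * A / ε)⌉₊ ≤ N := ((le_max_right _ _).trans (le_max_right _ _)).trans hN
  have hN0 : (0 : ℝ) < N := by exact_mod_cast (by omega : 0 < N)
  have hlog1 : 1 ≤ Real.log N := by
    rw [Real.le_log_iff_exp_le hN0]
    have : (3 : ℝ) ≤ N := by exact_mod_cast hNb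
    linarith [Real.exp_one_lt_d9]
  have hlogA : A ≤ ε / 4 * Real.log N := by
    have h1 : 4 * A / ε ≤ Real.log N := by
      rw [Real.le_log_iff_exp_le hN0]
      exact (Nat.le_ceil _).trans (by exact_mod_cast hNd)
    rw [div_le_iff₀ hε] at h1
    linarith
  have hlogH : Real.log ((H ^ 2 * N : ℕ) : ℝ) ≤ 2 * Real.log N := by
    push_cast
    rw [Real.log_mul (by positivity) hN0.ne']
    have : Real.log ((H : ℝ) ^ 2) ≤ Real.log N := by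
      apply Real.log_le_log (by positivity)
      exact_mod_cast hNc
    linarith
  -- splitting
  have hstep : ∑ X ∈ Icc 1 N, 1 / (X : ℝ) ^ 2 * ‖SRg t h (bO b₁) (bO b₂) X‖ ≤ A +
      ∑ X ∈ Icc 1 N, (1 / (X : ℝ) ^ 2 * (∑ c ∈ Gd t h H J,
        ‖Tc h J (bO b₁) (bO b₂) c ((H ^ 2 * X : ℕ) : ℝ)‖) + K / J * (1 / (X : ℝ))) := by
    rw [← sum_filter_add_sum_filter_not (Icc 1 N) (fun X => X ≤ X₀)]
    apply add_le_add
    · rw [hA]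
      apply sum_le_sum_of_subset_of_nonneg
      · intro X hX
        rw [mem_filter, mem_Icc] at hX
        rw [mem_Icc]
        exact ⟨hX.1.1, hX.2⟩
      · intro X _ _
        positivity
    · refine (sum_le_sum ?_).trans (sum_le_sum_of_subset_of_nonneg (filter_subset _ _) ?_)
      · intro X hX
        rw [mem_filter, mem_Icc] at hX
        obtain ⟨P, h3⟩ := hX₀ X (by omega)
        have h4 := h3 hF₁ hF₂
        have hXpos : (0 : ℝ) < X := by exact_mod_cast (by omega : 0 < X)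
        calc 1 / (X : ℝ) ^ 2 * ‖SRg t h (bO b₁) (bO b₂) X‖ ≤ 1 / (X : ℝ) ^ 2 *
            (∑ c ∈ Gd t h H J, ‖Tc h J (bO b₁) (bO b₂) c ((H ^ 2 * X : ℕ) : ℝ)‖ + K / J * X) :=
              mul_le_mul_of_nonneg_left h4 (by positivity)
          _ = _ := by
              rw [mul_add]
              congr 1
              field_simp
      · intro X _ _
        have : 0 ≤ ∑ c ∈ Gd t h H J, ‖Tc h J (bO b₁) (bO b₂) c ((H ^ 2 * X : ℕ) : ℝ)‖ :=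
          sum_nonneg fun c _ => norm_nonneg _
        positivity
  refine hstep.trans ?_
  rw [sum_add_distrib, ← mul_sum]
  have h5 : ∑ X ∈ Icc 1 N, 1 / (X : ℝ) ^ 2 * (∑ c ∈ Gd t h H J,
      ‖Tc h J (bO b₁) (bO b₂) c ((H ^ 2 * X : ℕ) : ℝ)‖) ≤ ε / 4 * Real.log N := by
    have h6 : ∑ X ∈ Icc 1 N, 1 / (X : ℝ) ^ 2 * (∑ c ∈ Gd t h H J,
        ‖Tc h J (bO b₁) (bO b₂) c ((H ^ 2 * X : ℕ) : ℝ)‖) = ∑ c ∈ Gd t h H J,
        ∑ X ∈ Icc 1 N, 1 / (X : ℝ) ^ 2 *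
          ‖Tc h J (bO b₁) (bO b₂) c ((H ^ 2 * X : ℕ) : ℝ)‖ := by
      rw [sum_comm]
      exact sum_congr rfl fun X _ => mul_sum _ _ _
    rw [h6]
    have h7 : ∀ c ∈ Gd t h H J, ∑ X ∈ Icc 1 N, 1 / (X : ℝ) ^ 2 *
          ‖Tc h J (bO b₁) (bO b₂) c ((H ^ 2 * X : ℕ) : ℝ)‖ ≤
          (H : ℝ) ^ 4 * (ε' * (2 * Real.log N)) := by
      intro c hc
      refine (scale_sum H N hH1 (fun x => ‖Tc h J (bO b₁) (bO b₂) c x‖)
        (fun x => norm_nonneg _)).trans ?_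
      apply mul_le_mul_of_nonneg_left _ (by positivity)
      have hbig : N₁ ≤ H ^ 2 * N := by
        have : 1 * N ≤ H ^ 2 * N := Nat.mul_le_mul_right _ (by nlinarith)
        omega
      refine (hN₁ (H ^ 2 * N) hbig c hc).trans ?_
      exact mul_le_mul_of_nonneg_left hlogH hε'0.le
    refine (sum_le_sum h7).trans ?_
    rw [sum_const, nsmul_eq_mul, hε']
    have hG : (0 : ℝ) ≤ ((Gd t h H J).card : ℝ) := Nat.cast_nonneg _
    have e5 : ((Gd t h H J).card : ℝ) * ((H : ℝ) ^ 4 *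
        (ε / (8 * (H : ℝ) ^ 4 * (((Gd t h H J).card : ℝ) + 1)) * (2 * Real.log N))) =
        (((Gd t h H J).card : ℝ) / (((Gd t h H J).card : ℝ) + 1)) * (ε / 4 * Real.log N) := by
      field_simp
      ring
    rw [e5]
    have h8 : ((Gd t h H J).card : ℝ) / (((Gd t h H J).card : ℝ) + 1) ≤ 1 := by
      rw [div_le_one (by positivity)]
      linarith
    have h9 : 0 ≤ ε / 4 * Real.log N := by positivity
    nlinarith
  have h10 : K / J * ∑ X ∈ Icc 1 N, 1 / (X : ℝ) ≤ ε / 4 * Real.log N := by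
    calc K / J * ∑ X ∈ Icc 1 N, 1 / (X : ℝ) ≤ ε / 8 * (1 + Real.log N) :=
          mul_le_mul hJε (sum_inv_le N) (sum_nonneg fun X _ => by positivity) (by positivity)
      _ ≤ ε / 4 * Real.log N := by nlinarith
  have h11 : 0 ≤ ε * Real.log N := by positivity
  linarith

end Pool.Agent.T2H34.Dh
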