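import Pool.Agent.T2H34.Dl
import Pool.Agent.W251.EX.Defs

/-!
The centred function has mean zero in residue classes; the frequency `0`.
-/

set_option autoImplicit false

namespace Pool.Agent.T2H34

open Finset
open Pool.Agent.W78.GA
open Pool.Agent.W78.EC (Gi Rw)
open Pool.Agent.W991.EC (hD mul_inj card_ball g_le tele)
open Pool.Agent.W251.EX (GW FS Per)

open scoped Classical in
/-- the indicator function for a fixed threshold -/
noncomputable def uu (y : ℝ) (z : Gi) : ℝ := if lg y z then 0 else 1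

theorem uu_le (y : ℝ) (z : Gi) : |uu y z| ≤ 1 := by
  unfold uu
  split_ifs <;> norm_num

theorem uu_mem (y : ℝ) (z : Gi) : 0 ≤ uu y z ∧ uu y z ≤ 1 := by
  unfold uu
  split_ifs <;> norm_num

open scoped Classical in
/-- the sum of `uu - D` over the primitive elements of a union of residue classes -/
theorem small_uu {M : ℕ} {S : Gi → Prop} (hM : 1 ≤ M) (hS : Per M S) (ε : ℝ) (hε : 0 < ε) :
    ∃ R : ℝ, 1 ≤ R ∧ ∀ y X : ℝ, R ≤ y → R ≤ X →
      |∑ z ∈ (pball 0 1 X).filter S, (uu y z - DD y X)| ≤ ε * X := by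
  have hk := kp_pos
  obtain ⟨B, hB⟩ : ∃ B : ℝ, B = 1 + 10 / kp := ⟨_, rfl⟩
  have hB0 : 0 < B := by rw [hB]; positivity
  have hB1 : 1 ≤ B := by
    have : 0 < 10 / kp := by positivity
    rw [hB]; linarith
  obtain ⟨W, hW⟩ := exists_nat_ge (18 * B / ε + 1)
  have hW1 : (1 : ℝ) ≤ W := by
    have : 0 < 18 * B / ε := by positivity
    linarith
  have hW1' : 1 ≤ W := by exact_mod_cast hW1
  have hW0 : (0 : ℝ) < W := by linarith
  obtain ⟨M', hM'⟩ : ∃ M' : ℕ, M' = M * W.factorial := ⟨_, rfl⟩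
  have hM'1 : 1 ≤ M' := by
    rw [hM']
    exact Nat.mul_pos hM (Nat.factorial_pos W)
  have hM'0 : (0 : ℝ) < M' := by exact_mod_cast hM'1
  obtain ⟨ε₁, hε₁⟩ : ∃ ε₁ : ℝ, ε₁ = ε / (2 * (M' : ℝ) ^ 2 * (2 * B)) := ⟨_, rfl⟩
  have hε₁0 : 0 < ε₁ := by rw [hε₁]; positivity
  obtain ⟨R₁, hR₁1, hR₁⟩ := cls_ind hM'1 ε₁ hε₁0
  obtain ⟨C, hC, hcls⟩ := cls hM'1
  obtain ⟨R₄, hR₄1, hR₄⟩ := DD_bd
  refine ⟨R₁ + R₄ + (C / ε₁) ^ 2 + 1, by nlinarith [sq_nonneg (C / ε₁)], fun y X hy hX => ?_⟩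
  have hsq : 0 ≤ (C / ε₁) ^ 2 := sq_nonneg _
  have hX0 : 0 < X := by linarith
  have hD1 := hR₄ y X (by linarith) (by linarith)
  obtain ⟨D, hDd⟩ : ∃ D : ℝ, D = DD y X := ⟨_, rfl⟩
  rw [← hDd] at hD1 ⊢
  have hCs : C * Real.sqrt X ≤ ε₁ * X := by
    have h2 : C / ε₁ ≤ Real.sqrt X := Real.le_sqrt_of_sq_le (by linarith)
    rw [div_le_iff₀ hε₁0] at h2
    have h4 : Real.sqrt X * Real.sqrt X = X := Real.mul_self_sqrt (by linarith)
    have h5 : 0 ≤ Real.sqrt X := Real.sqrt_nonneg _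
    nlinarith
  -- periodicity
  have hSg : ∀ z z' : Gi, (M' : Gi) ∣ z - z' → (S z ↔ S z') := by
    intro z z' h
    have h1 : (M : Gi) ∣ z - z' := by
      refine dvd_trans ?_ h
      rw [hM']
      push_cast
      exact dvd_mul_right _ _
    rw [natCast_dvd] at h1
    exact hS z z' h1.1 h1.2
  obtain ⟨P, hPd⟩ : ∃ P : Gi → Prop, P = fun z => S z ∧ nd W z := ⟨_, rfl⟩
  have hPz : ∀ z, P z ↔ S z ∧ nd W z := fun z => by rw [hPd]
  have hP : ∀ z z' : Gi, (M' : Gi) ∣ z - z' → (P z ↔ P z') := by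
    intro z z' h
    rw [hPz, hPz]
    exact and_congr (hSg z z' h) (nd_per (M := M) (by rw [← hM']; exact h))
  -- the sum over the residue classes
  have hsum1 : |∑ z ∈ (ball 0 1 X).filter P, (uu y z - D)| ≤ ε / 2 * X := by
    rw [sum_cb hM'1 X P hP]
    refine (Finset.abs_sum_le_sum_abs _ _).trans ?_
    have hterm : ∀ s ∈ (range M' ×ˢ range M').filter (fun s => P (gz s)),
        |∑ z ∈ cb M' X (gz s), (uu y z - D)| ≤ ε₁ * X * (2 * B) := by
      intro s _
      have e1 : ∑ z ∈ cb M' X (gz s), (uu y z - D) = (TL M' y X (gz s) : ℝ) -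
          ((cb M' X (gz s)).card : ℝ) * D := by
        rw [sum_sub_distrib, sum_const, nsmul_eq_mul]
        congr 1
        unfold TL uu
        rw [Finset.card_filter, Nat.cast_sum]
        refine sum_congr rfl fun z _ => ?_
        by_cases h : lg y z
        · rw [if_pos h, if_neg (not_not.2 h)]; simp
        · rw [if_neg h, if_pos h]; simp
      rw [e1]
      have e2 := hR₁ y X (by linarith) (by linarith) (gz s)
      rw [← hDd] at e2
      have e3 := hcls X (by linarith) (gz s)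
      have e4 : (TL M' y X (gz s) : ℝ) - ((cb M' X (gz s)).card : ℝ) * D =
          ((TL M' y X (gz s) : ℝ) - kp * X / (M' : ℝ) ^ 2 * D) -
          (((cb M' X (gz s)).card : ℝ) - kp * X / (M' : ℝ) ^ 2) * D := by ring
      rw [e4]
      refine (abs_sub _ _).trans ?_
      rw [abs_mul]
      have e5 : |((cb M' X (gz s)).card : ℝ) - kp * X / (M' : ℝ) ^ 2| * |D| ≤
          ε₁ * X * (10 / kp) :=
        mul_le_mul (e3.trans hCs) hD1 (abs_nonneg _) (by positivity)
      have e6 : ε₁ * X * (2 * B) = 2 * (ε₁ * X) + 2 * (ε₁ * X * (10 / kp)) := by rw [hB]; ring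
      have e7 : 0 ≤ ε₁ * X * (10 / kp) := by positivity
      have e8 : 0 ≤ ε₁ * X := by positivity
      rw [e6]
      linarith
    refine (sum_le_sum hterm).trans ?_
    rw [sum_const, nsmul_eq_mul]
    have hcard : (((range M' ×ˢ range M').filter (fun s => P (gz s))).card : ℝ) ≤
        (M' : ℝ) ^ 2 := by
      have h1 := Finset.card_filter_le (range M' ×ˢ range M') (fun s => P (gz s))
      rw [card_product, card_range] at h1
      have h2 : (((range M' ×ˢ range M').filter (fun s => P (gz s))).card : ℝ) ≤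
        ((M' * M' : ℕ) : ℝ) := by exact_mod_cast h1
      refine h2.trans (le_of_eq ?_)
      push_cast
      ring
    calc _ ≤ (M' : ℝ) ^ 2 * (ε₁ * X * (2 * B)) :=
          mul_le_mul_of_nonneg_right hcard (by positivity)
      _ = ε / 2 * X := by rw [hε₁]; field_simp
  -- the non-primitive elements
  have hsplit : ∑ z ∈ (pball 0 1 X).filter S, (uu y z - D) =
      ∑ z ∈ (ball 0 1 X).filter P, (uu y z - D) -
      ∑ z ∈ ((ball 0 1 X).filter P).filter (fun z => ¬ prim z),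
        (uu y z - D) := by
    rw [← sum_filter_add_sum_filter_not ((ball 0 1 X).filter P)
      (fun z => prim z)]
    rw [add_sub_cancel_right]
    refine sum_congr ?_ fun _ _ => rfl
    ext z
    unfold pball
    simp only [mem_filter, hPz]
    constructor
    · rintro ⟨⟨h1, h2⟩, h3⟩
      exact ⟨⟨h1, h3, fun p hp _ => (prim_iff.1 h2) p hp⟩, h2⟩
    · rintro ⟨⟨h1, h3, -⟩, h2⟩
      exact ⟨⟨h1, h2⟩, h3⟩
  rw [hsplit]
  refine (abs_sub _ _).trans ?_
  have hsum2 : |∑ z ∈ ((ball 0 1 X).filter P).filter (fun z => ¬ prim z),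
        (uu y z - D)| ≤ ε / 2 * X := by
    refine (Finset.abs_sum_le_sum_abs _ _).trans ?_
    have hpt : ∀ z ∈ ((ball 0 1 X).filter P).filter (fun z => ¬ prim z),
        |uu y z - D| ≤ B := by
      intro z _
      refine (abs_sub _ _).trans ?_
      rw [hB]
      exact add_le_add (uu_le y z) hD1
    refine (Finset.sum_le_card_nsmul _ _ _ hpt).trans ?_
    rw [nsmul_eq_mul]
    have hc1 : ((((ball 0 1 X).filter P).filter
        (fun z => ¬ prim z)).card : ℝ) ≤
        (((ball 0 1 X).filter (fun z => nd W z ∧ ¬ prim z)).card : ℝ) := by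
      refine Nat.cast_le.2 (Finset.card_le_card ?_)
      intro z hz
      rw [mem_filter, mem_filter, hPz] at hz
      exact mem_filter.2 ⟨hz.1.1, hz.1.2.2, hz.2⟩
    have hc2 := nonprim_cnt W hW1' hX0.le
    calc _ ≤ 9 * X / W * B := mul_le_mul_of_nonneg_right (hc1.trans hc2) hB0.le
      _ = (9 * B / W) * X := by ring
      _ ≤ ε / 2 * X := by
        refine mul_le_mul_of_nonneg_right ?_ hX0.le
        rw [div_le_div_iff₀ hW0 (by norm_num)]
        have h1 : 18 * B / ε ≤ W := by linarith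
        rw [div_le_iff₀ hε] at h1
        linarith
  linarith

open scoped Classical in
/-- comparison of the centred function with the function for a fixed threshold -/
theorem cmp (a σ ε : ℝ) (ha0 : 0 < a) (hσ : 0 < σ) (hσ1 : σ ≤ 1) (hε : 0 < ε) :
    ∃ R : ℝ, 1 ≤ R ∧ ∀ X : ℝ, R ≤ X → ∃ E : Finset Gi, E ⊆ ball 0 1 X ∧ (E.card : ℝ) ≤ ε * X ∧
      ∀ z ∈ ball 0 1 X, σ * X ≤ (nm z : ℝ) → z ∉ E → ha a z = uu (X ^ a) z ∧
        |Aa a z - (uu (X ^ a) z - DD (X ^ a) X)| ≤ ε := by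
  have hc : 1 ≤ (1 / σ) ^ a := Real.one_le_rpow (by rw [one_le_div hσ]; exact hσ1) ha0.le
  obtain ⟨R₁, hR₁1, hR₁⟩ := TL_thr ((1 / σ) ^ a) ε hc hε
  obtain ⟨R₂, hR₂1, hR₂⟩ := dl_slow a σ ε ha0 hσ hσ1 hε
  obtain ⟨X₁, hX₁1, hX₁R, hX₁⟩ := rpow_ge ha0 (R₁ + R₂) (by linarith)
  refine ⟨X₁ / σ, by rw [le_div_iff₀ hσ]; nlinarith, fun X hX => ?_⟩
  have hX0 : 0 < X := lt_of_lt_of_le (by positivity) hX
  have hXσ : X₁ ≤ σ * X := by
    rw [div_le_iff₀ hσ] at hX
    linarith
  have hXX : σ * X ≤ X := by nlinarith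
  refine ⟨(ball 0 1 X).filter (fun z => ∃ p : ℕ, G4 p ∧ (σ * X) ^ a < (p : ℝ) ∧
    (p : ℝ) ≤ X ^ a ∧ p ∣ nm z), Finset.filter_subset _ _, ?_, ?_⟩
  · refine hR₁ ((σ * X) ^ a) (X ^ a) X ?_ (rpow_ratio ha0 hσ hX0 le_rfl) hX0.le
    have := hX₁ (σ * X) hXσ
    linarith
  · intro z hz hzσ hzE
    have hz' := (mem_ball hD).1 hz
    have hnz : (0 : ℝ) < nm z := by exact_mod_cast hz'.1
    have h1 : (σ * X) ^ a ≤ (nm z : ℝ) ^ a := Real.rpow_le_rpow (by positivity) hzσ ha0.le
    have h2 : (nm z : ℝ) ^ a ≤ X ^ a := Real.rpow_le_rpow hnz.le hz'.2 ha0.le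
    have hiff : lg ((nm z : ℝ) ^ a) z ↔ lg (X ^ a) z := by
      constructor
      · rintro ⟨p, hp, h3, h4⟩
        refine ⟨p, hp, ?_, h4⟩
        by_contra h5
        exact hzE (mem_filter.2 ⟨hz, p, hp, lt_of_le_of_lt h1 h3, not_lt.1 h5, h4⟩)
      · rintro ⟨p, hp, h3, h4⟩
        exact ⟨p, hp, lt_of_le_of_lt h2 h3, h4⟩
    have h3 : ha a z = uu (X ^ a) z := by
      unfold ha uu
      by_cases h : lg (X ^ a) z
      · rw [if_pos h, if_pos (hiff.2 h)]
      · rw [if_neg h, if_neg (fun h' => h (hiff.1 h'))]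
    refine ⟨h3, ?_⟩
    unfold Aa
    rw [h3]
    have h4 := hR₂ X (nm z) (by linarith) hzσ hz'.2
    have e : uu (X ^ a) z - dl a (nm z) - (uu (X ^ a) z - DD (X ^ a) X) =
        DD (X ^ a) X - dl a (nm z) := by ring
    rw [e]
    exact h4

open scoped Classical in
/-- mean value zero in residue classes -/
theorem smallA {a : ℝ} (ha0 : 0 < a) {M : ℕ} {S : Gi → Prop} (hM : 1 ≤ M) (hS : Per M S) (ε : ℝ)
    (hε : 0 < ε) : ∃ X₀ : ℝ, 0 ≤ X₀ ∧ ∀ X : ℝ, X₀ ≤ X →
      |∑ z ∈ (pball 0 1 X).filter S, Aa a z| ≤ ε * X := by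
  have hk := kp_pos
  obtain ⟨B, hB⟩ : ∃ B : ℝ, B = 2 + 10 / kp := ⟨_, rfl⟩
  have hB0 : 0 < B := by rw [hB]; positivity
  have hB1 : 1 ≤ B := by
    have : 0 < 10 / kp := by positivity
    rw [hB]; linarith
  obtain ⟨σ, hσd⟩ : ∃ σ : ℝ, σ = min 1 (ε / (36 * B)) := ⟨_, rfl⟩
  have hσ : 0 < σ := by rw [hσd]; exact lt_min one_pos (by positivity)
  have hσ1 : σ ≤ 1 := by rw [hσd]; exact min_le_left _ _
  have hσ2 : B * (9 * σ) ≤ ε / 4 := by
    have : σ ≤ ε / (36 * B) := by rw [hσd]; exact min_le_right _ _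
    rw [le_div_iff₀ (by positivity)] at this
    linarith
  obtain ⟨ε₂, hε₂⟩ : ∃ ε₂ : ℝ, ε₂ = ε / (4 * (B + 9)) := ⟨_, rfl⟩
  have hε₂0 : 0 < ε₂ := by rw [hε₂]; positivity
  obtain ⟨R₁, hR₁1, hR₁⟩ := small_uu hM hS (ε / 4) (by positivity)
  obtain ⟨R₂, hR₂1, hR₂⟩ := cmp a σ ε₂ ha0 hσ hσ1 hε₂0
  obtain ⟨R₄, hR₄1, hR₄⟩ := DD_bd
  obtain ⟨X₁, hX₁1, hX₁R, hX₁⟩ := rpow_ge ha0 (R₁ + R₂ + R₄) (by linarith)
  refine ⟨X₁, by linarith, fun X hX => ?_⟩
  have hX0 : 0 < X := by linarith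
  have hya := hX₁ X hX
  obtain ⟨E, hE1, hE2, hE3⟩ := hR₂ X (by linarith)
  have h1 := hR₁ (X ^ a) X (by linarith) (by linarith)
  have hDb := hR₄ (X ^ a) X (by linarith) (by linarith)
  obtain ⟨D, hDd⟩ : ∃ D : ℝ, D = DD (X ^ a) X := ⟨_, rfl⟩
  rw [← hDd] at h1 hE3 hDb
  have e1 : ∑ z ∈ (pball 0 1 X).filter S, Aa a z =
      ∑ z ∈ (pball 0 1 X).filter S, (uu (X ^ a) z - D) +
      ∑ z ∈ (pball 0 1 X).filter S, (Aa a z - (uu (X ^ a) z - D)) := by
    rw [← sum_add_distrib]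
    exact sum_congr rfl fun z _ => by ring
  rw [e1]
  refine (abs_add_le _ _).trans ?_
  have h2 : |∑ z ∈ (pball 0 1 X).filter S, (Aa a z - (uu (X ^ a) z - D))| ≤
      B * (9 * σ * X) + (B * (ε₂ * X) + ε₂ * (9 * X)) := by
    refine (Finset.abs_sum_le_sum_abs _ _).trans ?_
    have hsub : (pball 0 1 X).filter S ⊆ ball 0 1 X := by
      intro z hz
      exact (mem_filter.1 (mem_filter.1 hz).1).1
    refine (Finset.sum_le_sum_of_subset_of_nonneg hsub fun _ _ _ => abs_nonneg _).trans ?_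
    have hpt : ∀ z ∈ ball 0 1 X, |Aa a z - (uu (X ^ a) z - D)| ≤
        (if z ∈ ball 0 1 (σ * X) then B else 0) + ((if z ∈ E then B else 0) + ε₂) := by
      intro z hz
      have hz' := (mem_ball hD).1 hz
      have htriv : |Aa a z - (uu (X ^ a) z - D)| ≤ B := by
        have e2 : Aa a z - (uu (X ^ a) z - D) = (ha a z - uu (X ^ a) z) - (dl a (nm z) - D) := by
          unfold Aa; ring
        rw [e2]
        refine (abs_sub _ _).trans ?_
        have e3 : |ha a z - uu (X ^ a) z| ≤ 1 := by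
          have h3 := ha_mem a z
          have h4 := uu_mem (X ^ a) z
          rw [abs_le]
          constructor <;> linarith [h3.1, h3.2, h4.1, h4.2]
        have e4 : |dl a (nm z) - D| ≤ 1 + 10 / kp := by
          refine (abs_sub _ _).trans (add_le_add ?_ hDb)
          rw [abs_of_nonneg (dl_nonneg _ _)]
          exact dl_le _ _
        rw [hB]
        linarith
      by_cases h3 : z ∈ ball 0 1 (σ * X)
      · rw [if_pos h3]
        have : 0 ≤ (if z ∈ E then B else 0) := by split_ifs <;> linarith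
        linarith
      · rw [if_neg h3]
        by_cases h4 : z ∈ E
        · rw [if_pos h4]
          linarith
        · rw [if_neg h4]
          have h5 : σ * X ≤ nm z := by
            by_contra h6
            exact h3 ((mem_ball hD).2 ⟨hz'.1, (not_le.1 h6).le⟩)
          have := (hE3 z hz h5 h4).2
          linarith
    refine (sum_le_sum hpt).trans ?_
    rw [sum_add_distrib, sum_add_distrib, ← sum_filter, ← sum_filter, sum_const, sum_const,
      sum_const, nsmul_eq_mul, nsmul_eq_mul, nsmul_eq_mul]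
    have c1 : (((ball 0 1 X).filter (fun z => z ∈ ball 0 1 (σ * X))).card : ℝ) ≤ 9 * σ * X := by
      have h3 : (((ball 0 1 X).filter (fun z => z ∈ ball 0 1 (σ * X))).card : ℝ) ≤
          ((ball 0 1 (σ * X)).card : ℝ) :=
        Nat.cast_le.2 (Finset.card_le_card fun z hz => (mem_filter.1 hz).2)
      have h4 := card_ball (X := σ * X) (by positivity)
      linarith
    have c2 : (((ball 0 1 X).filter (fun z => z ∈ E)).card : ℝ) ≤ ε₂ * X := by
      refine le_trans ?_ hE2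
      exact Nat.cast_le.2 (Finset.card_le_card fun z hz => (mem_filter.1 hz).2)
    have c3 := card_ball hX0.le
    have d1 := mul_le_mul_of_nonneg_right c1 hB0.le
    have d2 := mul_le_mul_of_nonneg_right c2 hB0.le
    have d3 := mul_le_mul_of_nonneg_right c3 hε₂0.le
    linarith
  have h3 : B * (9 * σ * X) ≤ ε / 4 * X := by
    have := mul_le_mul_of_nonneg_right hσ2 hX0.le
    linarith
  have h4 : B * (ε₂ * X) + ε₂ * (9 * X) = ε / 4 * X := by
    have : (B + 9) * ε₂ = ε / 4 := by rw [hε₂]; field_simp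
    calc B * (ε₂ * X) + ε₂ * (9 * X) = (B + 9) * ε₂ * X := by ring
      _ = ε / 4 * X := by rw [this]
  have h5 : 0 ≤ ε * X := by positivity
  linarith

open scoped Classical in
/-- partial summation: the frequency `0` -/
theorem freq0 {A : Gi → ℝ} {S : Gi → Prop}
    (hsm' : ∀ ε : ℝ, 0 < ε → ∃ X₀ : ℝ, 0 ≤ X₀ ∧ ∀ X : ℝ, X₀ ≤ X →
      |∑ z ∈ (pball 0 1 X).filter S, A z| ≤ ε * X) {Λ : ℝ} {wt : ℝ → ℝ} (hwt : Rw Λ wt) (η : ℝ)
    (hη : 0 < η) : ∃ Y₀ : ℝ, ∀ Y : ℝ, Y₀ ≤ Y → ‖GW wt (FS S (fun z => (A z : ℂ))) Y 0‖ ≤ η := by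
  have hΛ : 0 ≤ Λ := by
    have := hwt.lip 1 0
    have h2 := abs_nonneg (wt 1 - wt 0)
    norm_num at this
    linarith
  set E := Real.exp 1 with hE
  have hE0 : 0 < E := Real.exp_pos 1
  have hE1 : 1 < E := by rw [hE]; exact Real.one_lt_exp_iff.2 one_pos
  set ε := η / ((Λ + 1) * E ^ 2) with hε
  have hε0 : 0 < ε := by positivity
  obtain ⟨X₀, hX₀, hsm0⟩ := hsm' ε hε0
  obtain ⟨F, hF⟩ : ∃ F : Gi → ℂ, F = fun z => (A z : ℂ) := ⟨_, rfl⟩
  rw [← hF]
  have hsm : ∀ X : ℝ, X₀ ≤ X → ‖∑ z ∈ (pball 0 1 X).filter S, F z‖ ≤ ε * X := by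
    intro X hX
    have e : ∑ z ∈ (pball 0 1 X).filter S, F z =
        ((∑ z ∈ (pball 0 1 X).filter S, A z : ℝ) : ℂ) := by
      rw [hF]
      push_cast
      rfl
    rw [e, Complex.norm_real]
    exact hsm0 X hX
  refine ⟨E * (X₀ + 1) + 1, fun Y hY => ?_⟩
  have hY0 : 0 < Y := by
    have : 0 ≤ E * (X₀ + 1) := by positivity
    linarith
  set φ : ℕ → ℝ := fun n => wt (Real.log n - Real.log Y) / n with hφ
  set A' : ℕ → ℂ := fun n => ∑ z ∈ (pball 0 1 (n:ℝ)).filter S, F z with hA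
  set N := ⌊E * Y⌋₊ + 1 with hN
  have hEY : 0 ≤ E * Y := by positivity
  have hNE : E * Y < N := by rw [hN]; push_cast; exact Nat.lt_floor_add_one _
  have hφN : φ N = 0 := by
    have h1 : (1:ℝ) ≤ Real.log N - Real.log Y := by
      have h2 : Real.log (E * Y) ≤ Real.log N := Real.log_le_log (by positivity) hNE.le
      rw [Real.log_mul hE0.ne' hY0.ne', hE, Real.log_exp] at h2
      linarith
    simp only [hφ]
    rw [hwt.supp _ (le_trans h1 (le_abs_self _)), zero_div]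
  -- the identity
  have hid : GW wt (FS S F) Y 0 = ∑ n ∈ Ico 1 N, ((φ n - φ (n + 1) : ℝ) : ℂ) * A' n := by
    have e1 : GW wt (FS S F) Y 0 = ∑ z ∈ (pball 0 1 (E * Y)).filter S, F z * (φ (nm z) : ℂ) := by
      unfold GW DPG
      rw [Finset.sum_filter]
      refine Finset.sum_congr rfl fun z _ => ?_
      rw [ps_zero, mul_one]
      simp only [hφ, FS]
      split_ifs with hz
      · rfl
      · simp
    rw [e1]
    have e2 : ∀ z ∈ (pball 0 1 (E * Y)).filter S, F z * (φ (nm z) : ℂ) =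
        ∑ n ∈ Ico 1 N, if nm z ≤ n then ((φ n - φ (n + 1) : ℝ) : ℂ) * F z else 0 := by
      intro z hz
      rw [Finset.mem_filter, mem_pball hD] at hz
      have h1 : nm z ≤ N := by
        have : nm z ≤ ⌊E * Y⌋₊ := Nat.le_floor hz.1.2
        omega
      have h2 : 1 ≤ nm z := (one_le_nm hD).2 (prim_ne_zero hz.1.1)
      have h3 := tele φ h1
      rw [hφN, sub_zero] at h3
      rw [← h3, ← Finset.sum_filter]
      have h4 : (Ico 1 N).filter (fun n => nm z ≤ n) = Ico (nm z) N := by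
        ext n
        rw [Finset.mem_filter, Finset.mem_Ico, Finset.mem_Ico]
        omega
      rw [h4, Complex.ofReal_sum, Finset.mul_sum]
      exact Finset.sum_congr rfl fun n _ => mul_comm _ _
    rw [Finset.sum_congr rfl e2, Finset.sum_comm]
    refine Finset.sum_congr rfl fun n hn => ?_
    rw [Finset.mem_Ico] at hn
    simp only [hA]
    rw [← Finset.sum_filter, Finset.mul_sum]
    have h5 : ((pball 0 1 (E * Y)).filter S).filter (fun z => nm z ≤ n) =
        (pball 0 1 (n:ℝ)).filter S := by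
      ext z
      rw [Finset.mem_filter, Finset.mem_filter, Finset.mem_filter, mem_pball hD, mem_pball hD]
      have h6 : (n:ℝ) ≤ E * Y := by
        have h7 : n ≤ ⌊E * Y⌋₊ := by omega
        exact le_trans (by exact_mod_cast h7) (Nat.floor_le hEY)
      constructor
      · rintro ⟨⟨⟨a1, a2⟩, a3⟩, a4⟩
        exact ⟨⟨a1, by exact_mod_cast a4⟩, a3⟩
      · rintro ⟨⟨a1, a2⟩, a3⟩
        exact ⟨⟨⟨a1, le_trans a2 h6⟩, a3⟩, by exact_mod_cast a2⟩
    rw [h5]
  rw [hid]
  -- the bound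
  have hterm : ∀ n ∈ Ico 1 N, ‖((φ n - φ (n + 1) : ℝ) : ℂ) * A' n‖ ≤ ε * (Λ + 1) * (E / Y) := by
    intro n hn
    rw [Finset.mem_Ico] at hn
    have hn1 : (1:ℝ) ≤ n := by exact_mod_cast hn.1
    have hn0 : (0:ℝ) < n := by linarith
    rcases le_or_gt ((n:ℝ) + 1) (Y / E) with hle | hgt
    · have hz : ∀ m : ℕ, 1 ≤ m → (m:ℝ) ≤ Y / E → φ m = 0 := by
        intro m hm hmY
        have hm0 : (0:ℝ) < m := by exact_mod_cast hm
        have h1 : Real.log m - Real.log Y ≤ -1 := by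
          have h2 : Real.log m ≤ Real.log (Y / E) := Real.log_le_log hm0 hmY
          rw [Real.log_div hY0.ne' hE0.ne', hE, Real.log_exp] at h2
          linarith
        simp only [hφ]
        rw [hwt.supp _ (by rw [le_abs]; right; linarith), zero_div]
      rw [hz n hn.1 (by linarith), hz (n + 1) (by omega) (by push_cast; exact hle)]
      simp only [sub_self, Complex.ofReal_zero, zero_mul, norm_zero]
      positivity
    · have hXn : X₀ ≤ (n:ℝ) := by
        have h1 : E * (X₀ + 1) ≤ Y := by linarith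
        have h2 : X₀ + 1 ≤ Y / E := by rw [le_div_iff₀ hE0]; linarith
        linarith
      have hAn : ‖A' n‖ ≤ ε * n := hsm n hXn
      have hdiff : |φ n - φ (n + 1)| ≤ (Λ + 1) / (n * (n + 1)) := by
        have hlog : |(Real.log ((n + 1 : ℕ) : ℝ) - Real.log Y) - (Real.log n - Real.log Y)| ≤ 1 / n := by
          have h1 : (Real.log ((n + 1 : ℕ) : ℝ) - Real.log Y) - (Real.log n - Real.log Y) =
              Real.log (1 + 1 / n) := by
            rw [show (1:ℝ) + 1 / n = ((n + 1 : ℕ) : ℝ) / n by push_cast; field_simp,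
              Real.log_div (by positivity) hn0.ne']
            ring
          rw [h1, abs_of_nonneg (Real.log_nonneg (by
            have : (0:ℝ) ≤ 1 / n := by positivity
            linarith))]
          have := Real.log_le_sub_one_of_pos (x := 1 + 1 / n) (by positivity)
          linarith
        have h1 : φ n - φ (n + 1) = wt (Real.log n - Real.log Y) * (1 / (n * (n + 1))) -
            (wt (Real.log ((n + 1 : ℕ) : ℝ) - Real.log Y) - wt (Real.log n - Real.log Y)) / (n + 1) := by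
          simp only [hφ]
          push_cast
          field_simp
          ring
        rw [h1]
        refine le_trans (abs_sub _ _) ?_
        have h2 : |wt (Real.log n - Real.log Y) * (1 / ((n:ℝ) * (n + 1)))| ≤ 1 / (n * (n + 1)) := by
          rw [abs_mul, abs_of_nonneg (by positivity : (0:ℝ) ≤ 1 / ((n:ℝ) * (n + 1)))]
          exact mul_le_of_le_one_left (by positivity) (hwt.bd _)
        have h3 : |(wt (Real.log ((n + 1 : ℕ) : ℝ) - Real.log Y) - wt (Real.log n - Real.log Y)) / ((n:ℝ) + 1)| ≤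
            Λ * (1 / n) / (n + 1) := by
          rw [abs_div, abs_of_nonneg (by positivity : (0:ℝ) ≤ (n:ℝ) + 1)]
          refine div_le_div_of_nonneg_right ?_ (by positivity)
          exact le_trans (hwt.lip _ _) (mul_le_mul_of_nonneg_left hlog hΛ)
        have h4 : (Λ + 1) / ((n:ℝ) * (n + 1)) = 1 / (n * (n + 1)) + Λ * (1 / n) / (n + 1) := by
          field_simp
          ring
        rw [h4]
        exact add_le_add h2 h3
      rw [norm_mul, Complex.norm_real, Real.norm_eq_abs]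
      calc |φ n - φ (n + 1)| * ‖A' n‖ ≤ (Λ + 1) / (n * (n + 1)) * (ε * n) :=
            mul_le_mul hdiff hAn (norm_nonneg _) (by positivity)
        _ = ε * (Λ + 1) * (1 / (n + 1)) := by field_simp
        _ ≤ ε * (Λ + 1) * (E / Y) := by
            refine mul_le_mul_of_nonneg_left ?_ (by positivity)
            have h1 : E / Y = 1 / (Y / E) := by field_simp
            rw [h1]
            exact one_div_le_one_div_of_le (by positivity) hgt.le
  refine le_trans (norm_sum_le _ _) (le_trans (Finset.sum_le_card_nsmul _ _ _ hterm) ?_)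
  rw [Nat.card_Ico, nsmul_eq_mul]
  have h1 : ((N - 1 : ℕ) : ℝ) ≤ E * Y := by
    rw [hN, Nat.add_sub_cancel]
    exact Nat.floor_le hEY
  calc ((N - 1 : ℕ) : ℝ) * (ε * (Λ + 1) * (E / Y)) ≤ E * Y * (ε * (Λ + 1) * (E / Y)) :=
        mul_le_mul_of_nonneg_right h1 (by positivity)
    _ = η := by rw [hε]; field_simp

end Pool.Agent.T2H34
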