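import Pool.Agent.T2H34.Gdl
import Pool.Agent.T2H34.Small

/-!
Mean values of the centred functions and of the twisted functions in residue classes.
-/

set_option autoImplicit false

namespace Pool.Agent.T2H34

open Finset
open Pool.Agent.W78.GA
open Pool.Agent.W78.EC (Gi Rw)
open Pool.Agent.W991.EC (hD mul_inj card_ball g_le tele)
open Pool.Agent.W251.EX (GW FS Per Apd)

open scoped Classical in
/-- from residue classes to primitive elements -/
theorem prim_cls {M : ℕ} {S : Gi → Prop} (hM : 1 ≤ M) (hS : Per M S) {W : ℕ} (hW : 1 ≤ W) {X : ℝ}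
    (hX : 0 ≤ X) (f : Gi → ℂ) {B δ : ℝ} (hB0 : 0 ≤ B) (hB : ∀ z, ‖f z‖ ≤ B)
    (hδ : ∀ r : Gi, ‖∑ z ∈ cb (M * W.factorial) X r, f z‖ ≤ δ) :
    ‖∑ z ∈ (pball 0 1 X).filter S, f z‖ ≤
      ((M * W.factorial : ℕ) : ℝ) ^ 2 * δ + B * (9 * X / W) := by
  obtain ⟨M', hM'⟩ : ∃ M' : ℕ, M' = M * W.factorial := ⟨_, rfl⟩
  have hM'1 : 1 ≤ M' := by
    rw [hM']
    exact Nat.mul_pos hM (Nat.factorial_pos W)
  rw [← hM'] at hδ ⊢
  have hδ0 : 0 ≤ δ := (norm_nonneg _).trans (hδ 0)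
  have hSg : ∀ z z' : Gi, (M' : Gi) ∣ z - z' → (S z ↔ S z') := by
    intro z z' h
    have h1 : (M : Gi) ∣ z - z' := by
      refine dvd_trans ?_ h
      rw [hM']
      push_cast
      exact dvd_mul_right _ _
    rw [natCast_dvd] at h1
    exact hS z z' h1.1 h1.2
  obtain ⟨P, hPd⟩ : ∃ P : Gi → Prop, P = fun z => S z ∧ nd W z := ⟨_, rfl⟩
  have hPz : ∀ z, P z ↔ S z ∧ nd W z := fun z => by rw [hPd]
  have hP : ∀ z z' : Gi, (M' : Gi) ∣ z - z' → (P z ↔ P z') := by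
    intro z z' h
    rw [hPz, hPz]
    exact and_congr (hSg z z' h) (nd_per (M := M) (by rw [← hM']; exact h))
  have hsum1 : ‖∑ z ∈ (ball 0 1 X).filter P, f z‖ ≤ (M' : ℝ) ^ 2 * δ := by
    rw [sum_cb hM'1 X P hP]
    refine (norm_sum_le _ _).trans ((sum_le_sum fun s _ => hδ (gz s)).trans ?_)
    rw [sum_const, nsmul_eq_mul]
    refine mul_le_mul_of_nonneg_right ?_ hδ0
    have h1 := Finset.card_filter_le (range M' ×ˢ range M') (fun s => P (gz s))
    rw [card_product, card_range] at h1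
    have h2 : (((range M' ×ˢ range M').filter (fun s => P (gz s))).card : ℝ) ≤
      ((M' * M' : ℕ) : ℝ) := by exact_mod_cast h1
    refine h2.trans (le_of_eq ?_)
    push_cast
    ring
  have hsplit : ∑ z ∈ (pball 0 1 X).filter S, f z =
      ∑ z ∈ (ball 0 1 X).filter P, f z -
      ∑ z ∈ ((ball 0 1 X).filter P).filter (fun z => ¬ prim z), f z := by
    rw [← sum_filter_add_sum_filter_not ((ball 0 1 X).filter P) (fun z => prim z)]
    rw [add_sub_cancel_right]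
    refine sum_congr ?_ fun _ _ => rfl
    ext z
    unfold pball
    simp only [mem_filter, hPz]
    constructor
    · rintro ⟨⟨h1, h2⟩, h3⟩
      exact ⟨⟨h1, h3, fun p hp _ => (prim_iff.1 h2) p hp⟩, h2⟩
    · rintro ⟨⟨h1, h3, -⟩, h2⟩
      exact ⟨⟨h1, h2⟩, h3⟩
  rw [hsplit]
  refine (norm_sub_le _ _).trans (add_le_add hsum1 ?_)
  refine (norm_sum_le _ _).trans ((Finset.sum_le_card_nsmul _ _ _ fun z _ => hB z).trans ?_)
  rw [nsmul_eq_mul, mul_comm]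
  refine mul_le_mul_of_nonneg_left ?_ hB0
  refine le_trans ?_ (nonprim_cnt W hW hX)
  refine Nat.cast_le.2 (Finset.card_le_card ?_)
  intro z hz
  rw [mem_filter, mem_filter, hPz] at hz
  exact mem_filter.2 ⟨hz.1.1, hz.1.2.2, hz.2⟩

open scoped Classical in
/-- the function for a fixed scale minus its mean -/
theorem small_g {M : ℕ} {S : Gi → Prop} (hM : 1 ≤ M) (hS : Per M S) (k : ℕ) (ε : ℝ) (hε : 0 < ε) :
    ∃ R : ℝ, 1 ≤ R ∧ ∀ y X : ℝ, R ≤ y → R ≤ X → X ≤ y ^ k → ∀ g : ℕ → ℝ, (∀ n, |g n| ≤ 1) →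
      |∑ z ∈ (pball 0 1 X).filter S, (g (gN (Sz y X z)) - DG g y X)| ≤ ε * X := by
  have hk := kp_pos
  obtain ⟨C, hC1, hDGle⟩ := DG_le
  obtain ⟨B, hB⟩ : ∃ B : ℝ, B = 1 + C * 4 ^ k := ⟨_, rfl⟩
  have hB1 : 1 ≤ B := by
    have : 0 < C * 4 ^ k := by positivity
    rw [hB]; linarith
  have hB0 : 0 < B := by linarith
  obtain ⟨W, hW⟩ := exists_nat_ge (18 * B / ε + 1)
  have hW1 : (1 : ℝ) ≤ W := by
    have : 0 < 18 * B / ε := by positivity
    linarith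
  have hW1' : 1 ≤ W := by exact_mod_cast hW1
  have hW0 : (0 : ℝ) < W := by linarith
  obtain ⟨M', hM'⟩ : ∃ M' : ℕ, M' = M * W.factorial := ⟨_, rfl⟩
  have hM'1 : 1 ≤ M' := by
    rw [hM']
    exact Nat.mul_pos hM (Nat.factorial_pos W)
  have hM'0 : (0 : ℝ) < M' := by exact_mod_cast hM'1
  obtain ⟨ε₁, hε₁⟩ : ∃ ε₁ : ℝ, ε₁ = ε / (2 * (M' : ℝ) ^ 2 * (2 * B)) := ⟨_, rfl⟩
  have hε₁0 : 0 < ε₁ := by rw [hε₁]; positivity
  obtain ⟨R₁, hR₁1, hR₁⟩ := cls_g hM'1 k ε₁ hε₁0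
  obtain ⟨C', hC', hcls⟩ := cls hM'1
  refine ⟨R₁ + (C' / ε₁) ^ 2 + 1, by nlinarith [sq_nonneg (C' / ε₁)],
    fun y X hy hX hXy g hg => ?_⟩
  have hsq : 0 ≤ (C' / ε₁) ^ 2 := sq_nonneg _
  have hX0 : 0 < X := by linarith
  have hD1 := hDGle k g hg y X (by linarith) (by linarith) hXy
  obtain ⟨D, hDd⟩ : ∃ D : ℝ, D = DG g y X := ⟨_, rfl⟩
  rw [← hDd] at hD1 ⊢
  have hCs : C' * Real.sqrt X ≤ ε₁ * X := by
    have h2 : C' / ε₁ ≤ Real.sqrt X := Real.le_sqrt_of_sq_le (by linarith)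
    rw [div_le_iff₀ hε₁0] at h2
    have h4 : Real.sqrt X * Real.sqrt X = X := Real.mul_self_sqrt (by linarith)
    have h5 : 0 ≤ Real.sqrt X := Real.sqrt_nonneg _
    nlinarith
  have hmain := prim_cls hM hS hW1' hX0.le (fun z => ((g (gN (Sz y X z)) - D : ℝ) : ℂ))
    (B := B) (δ := ε₁ * X * (2 * B)) hB0.le (by
      intro z
      rw [Complex.norm_real, Real.norm_eq_abs]
      refine (abs_sub _ _).trans ?_
      rw [hB]
      exact add_le_add (hg _) hD1) (by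
      intro r
      rw [← hM', ← Complex.ofReal_sum, Complex.norm_real, Real.norm_eq_abs]
      have e1 : ∑ z ∈ cb M' X r, (g (gN (Sz y X z)) - D) =
          ∑ z ∈ cb M' X r, g (gN (Sz y X z)) - ((cb M' X r).card : ℝ) * D := by
        rw [sum_sub_distrib, sum_const, nsmul_eq_mul]
      rw [e1]
      have e2 := hR₁ y X (by linarith) (by linarith) hXy g hg r
      rw [← hDd] at e2
      have e3 := hcls X (by linarith) r
      have e4 : ∑ z ∈ cb M' X r, g (gN (Sz y X z)) - ((cb M' X r).card : ℝ) * D =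
          (∑ z ∈ cb M' X r, g (gN (Sz y X z)) - kp * X / (M' : ℝ) ^ 2 * D) -
          (((cb M' X r).card : ℝ) - kp * X / (M' : ℝ) ^ 2) * D := by ring
      rw [e4]
      refine (abs_sub _ _).trans ?_
      rw [abs_mul]
      have e5 : |((cb M' X r).card : ℝ) - kp * X / (M' : ℝ) ^ 2| * |D| ≤
          ε₁ * X * (C * 4 ^ k) :=
        mul_le_mul (e3.trans hCs) hD1 (abs_nonneg _) (by positivity)
      have e6 : ε₁ * X * (2 * B) = 2 * (ε₁ * X) + 2 * (ε₁ * X * (C * 4 ^ k)) := by rw [hB]; ring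
      have e7 : 0 ≤ ε₁ * X * (C * 4 ^ k) := by positivity
      have e8 : 0 ≤ ε₁ * X := by positivity
      rw [e6]
      linarith)
  rw [← hM', ← Complex.ofReal_sum, Complex.norm_real, Real.norm_eq_abs] at hmain
  refine hmain.trans ?_
  have h1 : (M' : ℝ) ^ 2 * (ε₁ * X * (2 * B)) = ε / 2 * X := by rw [hε₁]; field_simp
  have h2 : B * (9 * X / W) ≤ ε / 2 * X := by
    have e : B * (9 * X / W) = (9 * B / W) * X := by ring
    rw [e]
    refine mul_le_mul_of_nonneg_right ?_ hX0.le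
    rw [div_le_div_iff₀ hW0 (by norm_num)]
    have h1 : 18 * B / ε ≤ W := by linarith
    rw [div_le_iff₀ hε] at h1
    linarith
  linarith

open scoped Classical in
/-- the twisted function for a fixed scale -/
theorem small_t {M : ℕ} {S : Gi → Prop} (hM : 1 ≤ M) (hS : Per M S) {N : ℕ} {F : Gi → ℂ}
    (hF : Apd N F) (k : ℕ) (ε : ℝ) (hε : 0 < ε) :
    ∃ R : ℝ, 1 ≤ R ∧ ∀ y X : ℝ, R ≤ y → R ≤ X → X ≤ y ^ k → ∀ g : ℕ → ℝ, (∀ n, |g n| ≤ 1) →
      ‖∑ z ∈ (pball 0 1 X).filter S, F z * (g (gN (Sz y X z)) : ℂ)‖ ≤ ε * X := by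
  have hFn : ∀ z, ‖F z‖ = 1 := fun z =>
    Complex.norm_eq_one_of_pow_eq_one (hF.cm.pow z) (by have := hF.cm.pos; omega)
  obtain ⟨W, hW⟩ := exists_nat_ge (18 / ε + 1)
  have hW1 : (1 : ℝ) ≤ W := by
    have : 0 < 18 / ε := by positivity
    linarith
  have hW1' : 1 ≤ W := by exact_mod_cast hW1
  have hW0 : (0 : ℝ) < W := by linarith
  obtain ⟨M', hM'⟩ : ∃ M' : ℕ, M' = M * W.factorial := ⟨_, rfl⟩
  have hM'1 : 1 ≤ M' := by
    rw [hM']
    exact Nat.mul_pos hM (Nat.factorial_pos W)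
  have hM'0 : (0 : ℝ) < M' := by exact_mod_cast hM'1
  obtain ⟨R₁, hR₁1, hR₁⟩ := cls_t hM'1 hF k (ε / (2 * (M' : ℝ) ^ 2)) (by positivity)
  refine ⟨R₁, hR₁1, fun y X hy hX hXy g hg => ?_⟩
  have hX0 : 0 < X := by linarith
  have hmain := prim_cls hM hS hW1' hX0.le (fun z => F z * (g (gN (Sz y X z)) : ℂ))
    (B := 1) (δ := ε / (2 * (M' : ℝ) ^ 2) * X) zero_le_one (by
      intro z
      rw [norm_mul, hFn, one_mul, Complex.norm_real, Real.norm_eq_abs]
      exact hg _) (by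
      intro r
      rw [← hM']
      exact hR₁ y X hy hX hXy g hg r)
  refine hmain.trans ?_
  rw [← hM']
  have h1 : (M' : ℝ) ^ 2 * (ε / (2 * (M' : ℝ) ^ 2) * X) = ε / 2 * X := by field_simp
  have h2 : 1 * (9 * X / W) ≤ ε / 2 * X := by
    have e : 1 * (9 * X / W) = (9 / W) * X := by ring
    rw [e]
    refine mul_le_mul_of_nonneg_right ?_ hX0.le
    rw [div_le_div_iff₀ hW0 (by norm_num)]
    have h1 : 18 / ε ≤ W := by linarith
    rw [div_le_iff₀ hε] at h1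
    linarith
  linarith

variable {a : ℝ} {G : ℝ → ℕ → ℝ} {U : Gi → ℝ}

open scoped Classical in
/-- the error of the comparison -/
theorem cmp_sum (h : Adm a G U) (ε : ℝ) (hε : 0 < ε) : ∃ R : ℝ, 1 ≤ R ∧ ∀ X : ℝ, R ≤ X →
    ∀ T : Finset Gi, T ⊆ ball 0 1 X →
    ∑ z ∈ T, |U z - G X (gN (Sz (X ^ a) X z))| ≤ ε * X ∧
    ∑ z ∈ T, |avg U (nm z) - DG (G X) (X ^ a) X| ≤ ε * X := by
  have ha := h.pos
  obtain ⟨k, hk1⟩ := exists_nat_ge (1 / a)
  obtain ⟨C, hC1, hDGle⟩ := DG_le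
  obtain ⟨B, hB⟩ : ∃ B : ℝ, B = 2 + C * 4 ^ k := ⟨_, rfl⟩
  have hBp : 0 < C * 4 ^ k := by positivity
  have hB2 : 2 ≤ B := by rw [hB]; linarith
  have hB0 : 0 < B := by linarith
  obtain ⟨σ, hσd⟩ : ∃ σ : ℝ, σ = min 1 (ε / (18 * B)) := ⟨_, rfl⟩
  have hσ : 0 < σ := by rw [hσd]; exact lt_min one_pos (by positivity)
  have hσ1 : σ ≤ 1 := by rw [hσd]; exact min_le_left _ _
  have hσ2 : B * (9 * σ) ≤ ε / 2 := by
    have : σ ≤ ε / (18 * B) := by rw [hσd]; exact min_le_right _ _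
    rw [le_div_iff₀ (by positivity)] at this
    linarith
  obtain ⟨ε₂, hε₂⟩ : ∃ ε₂ : ℝ, ε₂ = ε / (2 * (B + 9)) := ⟨_, rfl⟩
  have hε₂0 : 0 < ε₂ := by rw [hε₂]; positivity
  obtain ⟨R₂, hR₂1, hR₂⟩ := cmpG h σ ε₂ hσ hσ1 hε₂0
  obtain ⟨X₁, hX₁1, hX₁R, hX₁⟩ := rpow_ge ha (R₂ + 1) (by linarith)
  refine ⟨X₁, hX₁1, fun X hX T hT => ?_⟩
  have hX0 : 0 < X := by linarith
  have hya := hX₁ X hX
  obtain ⟨E, hE1, hE2, hE3⟩ := hR₂ X (by linarith)
  have hDb := hDGle k (G X) (h.gb X) (X ^ a) X (by linarith) (by linarith)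
    (le_pow_k ha hk1 (by linarith))
  obtain ⟨D, hDd⟩ : ∃ D : ℝ, D = DG (G X) (X ^ a) X := ⟨_, rfl⟩
  rw [← hDd] at hE3 hDb ⊢
  have c1 : ((T.filter (fun z => z ∈ ball 0 1 (σ * X))).card : ℝ) ≤ 9 * σ * X := by
    have h3 : ((T.filter (fun z => z ∈ ball 0 1 (σ * X))).card : ℝ) ≤
        ((ball 0 1 (σ * X)).card : ℝ) :=
      Nat.cast_le.2 (Finset.card_le_card fun z hz => (mem_filter.1 hz).2)
    have h4 := card_ball (X := σ * X) (by positivity)
    linarith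
  have c2 : ((T.filter (fun z => z ∈ E)).card : ℝ) ≤ ε₂ * X := by
    refine le_trans ?_ hE2
    exact Nat.cast_le.2 (Finset.card_le_card fun z hz => (mem_filter.1 hz).2)
  have c3 : (T.card : ℝ) ≤ 9 * X := by
    refine le_trans ?_ (card_ball hX0.le)
    exact_mod_cast Finset.card_le_card hT
  have key : ∀ f : Gi → ℝ, (∀ z, |f z| ≤ B) → (∀ z ∈ ball 0 1 X, σ * X ≤ (nm z : ℝ) → z ∉ E →
      |f z| ≤ ε₂) → ∑ z ∈ T, |f z| ≤ ε * X := by
    intro f hf1 hf2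
    have hpt : ∀ z ∈ T, |f z| ≤
        (if z ∈ ball 0 1 (σ * X) then B else 0) + ((if z ∈ E then B else 0) + ε₂) := by
      intro z hzT
      have hz := hT hzT
      have hz' := (mem_ball hD).1 hz
      have htriv := hf1 z
      by_cases h3 : z ∈ ball 0 1 (σ * X)
      · rw [if_pos h3]
        have : 0 ≤ (if z ∈ E then B else 0) := by split_ifs <;> linarith
        linarith
      · rw [if_neg h3]
        by_cases h4 : z ∈ E
        · rw [if_pos h4]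
          linarith
        · rw [if_neg h4]
          have h5 : σ * X ≤ nm z := by
            by_contra h6
            exact h3 ((mem_ball hD).2 ⟨hz'.1, (not_le.1 h6).le⟩)
          have := hf2 z hz h5 h4
          linarith
    refine (sum_le_sum hpt).trans ?_
    rw [sum_add_distrib, sum_add_distrib, ← sum_filter, ← sum_filter, sum_const, sum_const,
      sum_const, nsmul_eq_mul, nsmul_eq_mul, nsmul_eq_mul]
    have d1 := mul_le_mul_of_nonneg_right c1 hB0.le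
    have d2 := mul_le_mul_of_nonneg_right c2 hB0.le
    have d3 := mul_le_mul_of_nonneg_right c3 hε₂0.le
    have h3 : B * (9 * σ * X) ≤ ε / 2 * X := by
      have := mul_le_mul_of_nonneg_right hσ2 hX0.le
      linarith
    have h4 : B * (ε₂ * X) + ε₂ * (9 * X) = ε / 2 * X := by
      have : (B + 9) * ε₂ = ε / 2 := by rw [hε₂]; field_simp
      calc B * (ε₂ * X) + ε₂ * (9 * X) = (B + 9) * ε₂ * X := by ring
        _ = ε / 2 * X := by rw [this]
    linarith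
  constructor
  · refine key _ ?_ ?_
    · intro z
      refine (abs_sub _ _).trans ?_
      have f1 := h.gb X (gN (Sz (X ^ a) X z))
      have f2 : |U z| ≤ 1 := by rw [abs_of_nonneg (h.u0 z)]; exact h.u1 z
      linarith
    · intro z hz h1 h2
      rw [(hE3 z hz h1).1 h2, sub_self, abs_zero]
      exact hε₂0.le
  · refine key _ ?_ ?_
    · intro z
      refine (abs_sub _ _).trans ?_
      have f2 : |avg U (nm z)| ≤ 1 := by
        rw [abs_of_nonneg (avg_nonneg h.u0 _)]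
        exact avg_le h.u1 _
      rw [hB]
      linarith
    · intro z hz h1 _
      exact (hE3 z hz h1).2

open scoped Classical in
/-- mean value zero of the centred function in residue classes -/
theorem smallU (h : Adm a G U) {M : ℕ} {S : Gi → Prop} (hM : 1 ≤ M) (hS : Per M S) (ε : ℝ)
    (hε : 0 < ε) : ∃ X₀ : ℝ, 0 ≤ X₀ ∧ ∀ X : ℝ, X₀ ≤ X →
      |∑ z ∈ (pball 0 1 X).filter S, (U z - avg U (nm z))| ≤ ε * X := by
  have ha := h.pos
  obtain ⟨k, hk1⟩ := exists_nat_ge (1 / a)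
  obtain ⟨R₁, hR₁1, hR₁⟩ := small_g hM hS k (ε / 3) (by positivity)
  obtain ⟨R₂, hR₂1, hR₂⟩ := cmp_sum h (ε / 3) (by positivity)
  obtain ⟨X₁, hX₁1, hX₁R, hX₁⟩ := rpow_ge ha (R₁ + R₂) (by linarith)
  refine ⟨X₁, by linarith, fun X hX => ?_⟩
  have hX0 : 0 < X := by linarith
  have hya := hX₁ X hX
  have h1 := hR₁ (X ^ a) X (by linarith) (by linarith) (le_pow_k ha hk1 (by linarith)) (G X)
    (h.gb X)
  have hsub : (pball 0 1 X).filter S ⊆ ball 0 1 X := by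
    intro z hz
    exact (mem_filter.1 (mem_filter.1 hz).1).1
  obtain ⟨h2, h3⟩ := hR₂ X (by linarith) _ hsub
  have e1 : ∑ z ∈ (pball 0 1 X).filter S, (U z - avg U (nm z)) =
      ∑ z ∈ (pball 0 1 X).filter S, (G X (gN (Sz (X ^ a) X z)) - DG (G X) (X ^ a) X) +
      ∑ z ∈ (pball 0 1 X).filter S, (U z - G X (gN (Sz (X ^ a) X z))) -
      ∑ z ∈ (pball 0 1 X).filter S, (avg U (nm z) - DG (G X) (X ^ a) X) := by
    rw [← sum_add_distrib, ← sum_sub_distrib]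
    exact sum_congr rfl fun z _ => by ring
  rw [e1]
  refine (abs_sub _ _).trans ?_
  have h4 := abs_add_le
    (∑ z ∈ (pball 0 1 X).filter S, (G X (gN (Sz (X ^ a) X z)) - DG (G X) (X ^ a) X))
    (∑ z ∈ (pball 0 1 X).filter S, (U z - G X (gN (Sz (X ^ a) X z))))
  have h5 := (Finset.abs_sum_le_sum_abs
    (fun z => U z - G X (gN (Sz (X ^ a) X z))) ((pball 0 1 X).filter S)).trans h2
  have h6 := (Finset.abs_sum_le_sum_abs
    (fun z => avg U (nm z) - DG (G X) (X ^ a) X) ((pball 0 1 X).filter S)).trans h3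
  linarith

open scoped Classical in
/-- mean value zero of the twisted function in residue classes -/
theorem smallT (h : Adm a G U) {N : ℕ} {F : Gi → ℂ} (hF : Apd N F) {M : ℕ} {S : Gi → Prop}
    (hM : 1 ≤ M) (hS : Per M S) (ε : ℝ) (hε : 0 < ε) :
    ∃ X₀ : ℝ, 0 ≤ X₀ ∧ ∀ X : ℝ, X₀ ≤ X →
      ‖∑ z ∈ (pball 0 1 X).filter S, F z * (U z : ℂ)‖ ≤ ε * X := by
  have hFn : ∀ z, ‖F z‖ = 1 := fun z =>
    Complex.norm_eq_one_of_pow_eq_one (hF.cm.pow z) (by have := hF.cm.pos; omega)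
  have ha := h.pos
  obtain ⟨k, hk1⟩ := exists_nat_ge (1 / a)
  obtain ⟨R₁, hR₁1, hR₁⟩ := small_t hM hS hF k (ε / 2) (by positivity)
  obtain ⟨R₂, hR₂1, hR₂⟩ := cmp_sum h (ε / 2) (by positivity)
  obtain ⟨X₁, hX₁1, hX₁R, hX₁⟩ := rpow_ge ha (R₁ + R₂) (by linarith)
  refine ⟨X₁, by linarith, fun X hX => ?_⟩
  have hX0 : 0 < X := by linarith
  have hya := hX₁ X hX
  have h1 := hR₁ (X ^ a) X (by linarith) (by linarith) (le_pow_k ha hk1 (by linarith)) (G X)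
    (h.gb X)
  have hsub : (pball 0 1 X).filter S ⊆ ball 0 1 X := by
    intro z hz
    exact (mem_filter.1 (mem_filter.1 hz).1).1
  obtain ⟨h2, -⟩ := hR₂ X (by linarith) _ hsub
  have e1 : ∑ z ∈ (pball 0 1 X).filter S, F z * (U z : ℂ) =
      ∑ z ∈ (pball 0 1 X).filter S, F z * (G X (gN (Sz (X ^ a) X z)) : ℂ) +
      ∑ z ∈ (pball 0 1 X).filter S, F z * ((U z - G X (gN (Sz (X ^ a) X z)) : ℝ) : ℂ) := by
    rw [← sum_add_distrib]
    refine sum_congr rfl fun z _ => ?_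
    push_cast
    ring
  rw [e1]
  refine (norm_add_le _ _).trans ?_
  have h3 : ‖∑ z ∈ (pball 0 1 X).filter S, F z * ((U z - G X (gN (Sz (X ^ a) X z)) : ℝ) : ℂ)‖ ≤
      ε / 2 * X := by
    refine (norm_sum_le _ _).trans (le_trans (le_of_eq ?_) h2)
    refine sum_congr rfl fun z _ => ?_
    rw [norm_mul, hFn, one_mul, Complex.norm_real, Real.norm_eq_abs]
  linarith

end Pool.Agent.T2H34
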