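import Pool.Agent.T2H34.HA
import Pool.Agent.T2H34.Uni2
import Pool.Agent.T2H34.Gsm

/-!
The Matomaki-Radziwill theorem and the bilinear estimate for admissible functions, with a completely
multiplicative twist.
-/

set_option autoImplicit false

namespace Pool.Agent.T2H34

open Finset
open Pool.Agent.H376R2.MR (FK)
open Pool.Agent.W78.GA hiding S_DEC S_MOM0 S_MOMP S_MOM S_MR S_PAIR S_BETW GG PE
open Pool.Agent.W78.EC (Gi Rw)
open Pool.Agent.W84.FP (c1)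
open Pool.Agent.W991.EC (hD mul_inj card_ball)
open Pool.Agent.W251.EX (GW FS Per S_MRG Mrs Bt Apd)
open Pool.Agent.W251.GX (Cm)

open scoped Classical in
/-- few elements are divisible by a large integer -/
theorem big_cnt (W : ℕ) (hW : 1 ≤ W) {x : ℝ} (hx : 0 ≤ x) :
    (((ball 0 1 x).filter (fun z => ∃ g : ℕ, W < g ∧ (g : Gi) ∣ z)).card : ℝ) ≤ 9 * x / W := by
  have hW0 : (0 : ℝ) < W := by exact_mod_cast hW
  have hsub : (ball 0 1 x).filter (fun z => ∃ g : ℕ, W < g ∧ (g : Gi) ∣ z) ⊆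
      (Ioc W (max W ⌊x⌋₊)).biUnion (fun g => (ball 0 1 x).filter (fun z => True ∧ (g : Gi) ∣ z)) := by
    intro z hz
    rw [mem_filter] at hz
    obtain ⟨h1, g, h2, h3⟩ := hz
    rw [mem_biUnion]
    refine ⟨g, ?_, mem_filter.2 ⟨h1, trivial, h3⟩⟩
    rw [mem_Ioc]
    exact ⟨h2, le_max_of_le_right (Pool.Agent.W991.EC.g_le h1 h3).2⟩
  have h1 : (((ball 0 1 x).filter (fun z => ∃ g : ℕ, W < g ∧ (g : Gi) ∣ z)).card : ℝ) ≤
      ∑ g ∈ Ioc W (max W ⌊x⌋₊), (((ball 0 1 x).filter (fun z => True ∧ (g : Gi) ∣ z)).card : ℝ) := by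
    exact_mod_cast (Finset.card_le_card hsub).trans Finset.card_biUnion_le
  refine h1.trans ?_
  have h2 : ∀ g ∈ Ioc W (max W ⌊x⌋₊), (((ball 0 1 x).filter (fun z => True ∧ (g : Gi) ∣ z)).card : ℝ) ≤
      9 * x * ((g : ℝ) ^ 2)⁻¹ := by
    intro g hg
    rw [mem_Ioc] at hg
    have hg0 : 0 < g := by omega
    have hgne : (g : Gi) ≠ 0 := by
      intro h0
      have h2 := congrArg QuadraticAlgebra.re h0
      simp only [QuadraticAlgebra.re_natCast, QuadraticAlgebra.re_zero] at h2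
      omega
    have e := card_mult hgne x (fun _ => True)
    rw [nm_natCast] at e
    have e2 : ((ball 0 1 x).filter (fun z => True ∧ (g : Gi) ∣ z)).card ≤
        (ball 0 1 (x / ((g ^ 2 : ℕ) : ℝ))).card := by
      refine le_trans (le_of_eq ?_) (Finset.card_filter_le (ball 0 1 (x / ((g ^ 2 : ℕ) : ℝ)))
        (fun _ => True))
      convert e
    have e3 := card_ball (X := x / ((g ^ 2 : ℕ) : ℝ)) (by positivity)
    refine le_trans (by exact_mod_cast e2) (e3.trans (le_of_eq ?_))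
    push_cast
    ring
  refine (sum_le_sum h2).trans ?_
  rw [← mul_sum]
  have h3 := sum_Ioc_inv_sq_le_sub (α := ℝ) (k := W) (n := max W ⌊x⌋₊) (by omega) (le_max_left _ _)
  have h4 : (0:ℝ) ≤ ((max W ⌊x⌋₊ : ℕ) : ℝ)⁻¹ := by positivity
  have h5 : ∑ i ∈ Ioc W (max W ⌊x⌋₊), ((i:ℝ) ^ 2)⁻¹ ≤ (W:ℝ)⁻¹ := by linarith
  calc 9 * x * ∑ i ∈ Ioc W (max W ⌊x⌋₊), ((i:ℝ) ^ 2)⁻¹ ≤ 9 * x * (W:ℝ)⁻¹ :=
        mul_le_mul_of_nonneg_left h5 (by positivity)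
    _ = 9 * x / W := by rw [div_eq_mul_inv]

open scoped Classical in
/-- the product of the large primes dividing `n` -/
noncomputable def rr (y x : ℝ) (n : ℕ) : ℕ := ∏ p ∈ (PS y x).filter (fun p => p ∣ n), p

theorem mem_PS {y x : ℝ} {p : ℕ} : p ∈ PS y x ↔ G4 p ∧ y < (p : ℝ) ∧ p ≤ ⌊x⌋₊ := by
  classical
  unfold PS
  rw [mem_filter, mem_Icc]
  constructor
  · rintro ⟨⟨-, h1⟩, h2, h3⟩
    exact ⟨h2, h3, h1⟩
  · rintro ⟨h1, h2, h3⟩
    exact ⟨⟨h1.1.one_lt.le, h3⟩, h1, h2⟩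

theorem gN_Sz {y x : ℝ} {z : Gi} (hz : z ∈ ball 0 1 x)
    (h : ∀ p : ℕ, G4 p → y < (p : ℝ) → ¬ (p : Gi) ∣ z) : gN (Sz y x z) = rr y x (nm z) := by
  classical
  have hz' := (mem_ball hD).1 hz
  unfold gN rr
  refine Finset.prod_nbij (fun i => i.1) ?_ ?_ ?_ ?_
  · intro i hi
    have h1 := mem_II.1 (Sz_sub hi)
    unfold Sz at hi
    rw [mem_filter] at hi
    rw [mem_filter, mem_PS]
    refine ⟨⟨h1.1, h1.2.1, h1.2.2⟩, ?_⟩
    have h2 := nm_dvd hi.2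
    rwa [nm_gp h1.1] at h2
  · intro i hi j hj hij
    simp only at hij
    have h1 := mem_II.1 (Sz_sub (mem_coe.1 hi))
    rw [mem_coe] at hi hj
    unfold Sz at hi hj
    rw [mem_filter] at hi hj
    by_contra hne
    obtain ⟨p, b⟩ := i
    obtain ⟨q, c⟩ := j
    simp only at hij h1
    subst hij
    have hbc : b ≠ c := fun hbc => hne (by rw [hbc])
    have h2 : gp (p, true) ∣ z ∧ gp (p, false) ∣ z := by
      cases b <;> cases c
      · exact absurd rfl hbc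
      · exact ⟨hj.2, hi.2⟩
      · exact ⟨hi.2, hj.2⟩
      · exact absurd rfl hbc
    apply h p h1.1 h1.2.1
    have h3 : gp (p, true) * gp (p, false) ∣ z :=
      (gp_cop (i := (p, true)) (j := (p, false)) h1.1 h1.1 (by simp)).mul_dvd h2.1 h2.2
    have h4 : gp (p, true) * gp (p, false) = (p : Gi) := by
      unfold gp
      simp only [if_true, Bool.false_eq_true, if_false]
      rw [mul_star_self' hD, nm_gq h1.1]
    rwa [h4] at h3
  · intro p hp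
    rw [mem_coe, mem_filter, mem_PS] at hp
    obtain ⟨b, hb⟩ := (dvd_iff hp.1.1).1 hp.2
    refine ⟨(p, b), ?_, rfl⟩
    rw [mem_coe]
    unfold Sz
    rw [mem_filter, mem_II]
    exact ⟨⟨hp.1.1, hp.1.2.1, hp.1.2.2⟩, hb⟩
  · intro i _
    rfl

theorem rr_fr {y x : ℝ} {P : ℕ → Prop} {n : ℕ} (hn : n ≠ 0)
    (h : ∀ p ∈ PS y x, P p → ¬ p ∣ n) : rr y x (fr P n) = rr y x n := by
  classical
  unfold rr
  refine prod_congr ?_ fun _ _ => rfl
  refine filter_congr fun p hp => ?_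
  rw [dvd_fr P hn (mem_PS.1 hp).1.1]
  constructor
  · exact fun h1 => h1.1
  · exact fun h1 => ⟨h1, fun h2 => h p hp h2 h1⟩

variable {a : ℝ} {G : ℝ → ℕ → ℝ} {U : Gi → ℝ}

open scoped Classical in
/-- the nonzero frequencies -/
theorem mrG (hmrg : S_MRG 0 1) (hU : Adm a G U) {N : ℕ} {F : Gi → ℂ} (hF : Cm N F)
    (μ : ℕ → ℝ) (DX : ℝ → ℝ) (B₀ : ℝ) (hμ1 : ∀ n, |μ n| ≤ 1)
    (hDb : ∃ R : ℝ, 1 ≤ R ∧ ∀ X : ℝ, R ≤ X → |DX X| ≤ B₀)
    (hμD : ∀ σ ε : ℝ, 0 < σ → σ ≤ 1 → 0 < ε → ∃ R : ℝ, 1 ≤ R ∧ ∀ X : ℝ, R ≤ X → ∀ n : ℕ,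
      σ * X ≤ n → n ≤ X → |μ n - DX X| ≤ ε)
    {M : ℕ} {S : Gi → Prop} (hM : 1 ≤ M)
    (hS : Per M S) {Λ : ℝ} {wt : ℝ → ℝ} (hw : Rw Λ wt) (η : ℝ) (hη : 0 < η) :
    ∃ h : ℝ, 1 ≤ h ∧ ∃ Y₀ : ℝ, ∀ Y : ℝ, Y₀ ≤ Y →
      ∑ k ∈ (FK ⌊Y / h⌋₊).erase 0,
        ‖GW wt (FS S (fun z => F z * ((U z - μ (nm z) : ℝ) : ℂ))) Y k‖ ^ 2 ≤ η := by
  have ha0 := hU.pos
  have hFn : ∀ z, ‖F z‖ = 1 := fun z =>
    Complex.norm_eq_one_of_pow_eq_one (hF.pow z) (by have := hF.pos; omega)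
  have he0 : 0 < Real.exp 1 := Real.exp_pos 1
  have he1 : 1 ≤ Real.exp 1 := Real.one_le_exp zero_le_one
  obtain ⟨B, hB⟩ : ∃ B : ℝ, B = 3 + |B₀| := ⟨_, rfl⟩
  have hB1 : 3 ≤ B := by rw [hB]; linarith [abs_nonneg B₀]
  have hB0 : 0 < B := by linarith
  obtain ⟨CL, hCL, hls⟩ := ls_small
  obtain ⟨ε, hεd⟩ : ∃ ε : ℝ, ε = min 1 (η / (4 * CL * B ^ 2)) := ⟨_, rfl⟩
  have hε : 0 < ε := by rw [hεd]; exact lt_min one_pos (by positivity)
  have hε1 : ε ≤ 1 := by rw [hεd]; exact min_le_left _ _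
  have hε2 : CL * B ^ 2 * ε ≤ η / 4 := by
    have : ε ≤ η / (4 * CL * B ^ 2) := by rw [hεd]; exact min_le_right _ _
    rw [le_div_iff₀ (by positivity)] at this
    linarith
  obtain ⟨σ, hσd⟩ : ∃ σ : ℝ, σ = 1 / Real.exp 1 ^ 2 := ⟨_, rfl⟩
  have hσ : 0 < σ := by rw [hσd]; positivity
  have hσ1 : σ ≤ 1 := by
    rw [hσd, div_le_one (by positivity)]
    exact one_le_pow₀ he1
  obtain ⟨ε', hε'⟩ : ∃ ε' : ℝ, ε' = ε / (3 * Real.exp 1) := ⟨_, rfl⟩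
  have hε'0 : 0 < ε' := by rw [hε']; positivity
  have hε'ε : ε' ≤ ε := by
    rw [hε']
    exact div_le_self hε.le (by linarith)
  obtain ⟨R₁, hR₁1, hR₁⟩ := hU.ap σ ε' hσ hσ1 hε'0
  obtain ⟨R₂, hR₂1, hR₂⟩ := hμD σ ε' hσ hσ1 hε'0
  obtain ⟨R₄, hR₄1, hR₄⟩ := hDb
  obtain ⟨X₁, hX₁1, hX₁R, hX₁⟩ := rpow_ge ha0 (9 / ε' + 2) (by
    have : 0 < 9 / ε' := by positivity
    linarith)
  -- the sparse system
  obtain ⟨m, hm⟩ := pow_unbounded_of_one_lt (4 / a) (by norm_num : (1 : ℝ) < 2)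
  obtain ⟨w₁, hw₁⟩ : ∃ w₁ : ℝ, w₁ = ε' / (36 * ((m : ℝ) + 1)) := ⟨_, rfl⟩
  have hw₁0 : 0 < w₁ := by rw [hw₁]; positivity
  obtain ⟨Ap, Bp, M', E₀, ρ, ϖ, hE, hp, hc, hspa⟩ := eleq2 (4 * M) (by omega) (Dvd.intro _ rfl)
    w₁ hw₁0
  obtain ⟨P, hPd⟩ : ∃ P : ℕ → Prop, P = fun p => Ap p ∨ Bp p := ⟨_, rfl⟩
  have hP4 : ∀ p, P p → G4 p := by
    intro p h
    rw [hPd] at h
    refine ⟨?_, (hp p h).2⟩
    rcases h with h | h
    · exact (hE.prA p h).1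
    · exact (hE.prB p h).1
  obtain ⟨h, hh, Y₀, hY₀⟩ := mru3 hmrg hM hS hE hp hc hF hw (η / (4 * B ^ 2)) (by positivity)
  rw [← hPd] at hY₀ hspa
  refine ⟨h, hh, max (max Y₀ X₁) (max (R₁ + R₂) (max R₄ (Real.exp (3 + 1 / a)))), fun Y hY => ?_⟩
  have hYa : Y₀ ≤ Y := (le_max_left _ _).trans ((le_max_left _ _).trans hY)
  have hYb : X₁ ≤ Y := (le_max_right _ _).trans ((le_max_left _ _).trans hY)
  have hY' := (le_max_right _ _).trans hY
  have hYc : R₁ + R₂ ≤ Y := (le_max_left _ _).trans hY'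
  have hY'' := (le_max_right _ _).trans hY'
  have hYd : R₄ ≤ Y := (le_max_left _ _).trans hY''
  have hYe : Real.exp (3 + 1 / a) ≤ Y := (le_max_right _ _).trans hY''
  have hY1 : 1 ≤ Y := hX₁1.trans hYb
  have hY0 : 0 < Y := by linarith
  obtain ⟨X, hX⟩ : ∃ X : ℝ, X = Real.exp 1 * Y := ⟨_, rfl⟩
  have hYX : Y ≤ X := by rw [hX]; nlinarith
  have hX0 : 0 < X := by linarith
  have hσX : σ * X = Y / Real.exp 1 := by
    rw [hσd, hX]
    field_simp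
  obtain ⟨E, hEd⟩ : ∃ E : Finset Gi, E = (ball 0 1 X).filter (fun z => σ * X ≤ (nm z : ℝ) ∧
      U z ≠ G X (gN (Sz (X ^ a) X z))) := ⟨_, rfl⟩
  have hE2 := hR₁ X (by linarith)
  rw [← hEd] at hE2
  have hDb' := hR₄ X (by linarith)
  obtain ⟨D, hDd⟩ : ∃ D : ℝ, D = DX X := ⟨_, rfl⟩
  have hμX := hR₂ X (by linarith)
  rw [← hDd] at hDb' hμX
  have hya := hX₁ X (hYb.trans hYX)
  -- the elements divisible by large integers
  obtain ⟨W, hW⟩ : ∃ W : ℕ, W = ⌊X ^ a⌋₊ := ⟨_, rfl⟩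
  have hi9 : 0 < 9 / ε' := by positivity
  have hW1 : 9 / ε' ≤ W := by
    have : X ^ a < W + 1 := by rw [hW]; exact Nat.lt_floor_add_one _
    linarith
  have hWX : (W : ℝ) ≤ X ^ a := by rw [hW]; exact Nat.floor_le (by linarith)
  have hW0 : (0 : ℝ) < W := by linarith
  have hW1' : 1 ≤ W := by exact_mod_cast hW0
  have hE''c := big_cnt W hW1' hX0.le
  obtain ⟨E'', hE''⟩ : ∃ E'' : Finset Gi, E'' = (ball 0 1 X).filter
      (fun z => ∃ g : ℕ, W < g ∧ (g : Gi) ∣ z) := ⟨_, rfl⟩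
  rw [← hE''] at hE''c
  have hE''c2 : (E''.card : ℝ) ≤ ε' * X := by
    refine hE''c.trans ?_
    rw [div_le_iff₀ hW0]
    rw [div_le_iff₀ hε'0] at hW1
    nlinarith
  -- the primes of the system
  obtain ⟨P₂, hP₂⟩ : ∃ P₂ : Finset ℕ, P₂ = (Icc 1 ⌊X⌋₊).filter
      (fun p => P p ∧ X ^ a < (p : ℝ)) := ⟨_, rfl⟩
  have hP₂m : ∀ p ∈ P₂, P p ∧ X ^ a < (p : ℝ) ∧ (p : ℝ) ≤ X := by
    intro p hp
    rw [hP₂, mem_filter, mem_Icc] at hp
    exact ⟨hp.2.1, hp.2.2, (Nat.le_floor_iff hX0.le).1 hp.1.2⟩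
  have hlogX : 3 + 1 / a ≤ Real.log X := by
    rw [Real.le_log_iff_exp_le hX0]
    exact hYe.trans hYX
  have hsumP : ∑ p ∈ P₂, 1 / (p : ℝ) ≤ ((m : ℝ) + 1) * (2 * w₁) := by
    refine spa_sum hspa ha0 hm.le hlogX P₂ ?_
    intro p hp
    obtain ⟨h1, h2, h3⟩ := hP₂m p hp
    have hp0 : (0 : ℝ) < p := by exact_mod_cast (hP4 p h1).1.pos
    refine ⟨h1, ?_, ?_⟩
    · have h4 : Real.log (X ^ a) < Real.log p := Real.log_lt_log (by positivity) h2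
      rw [Real.log_rpow hX0] at h4
      have h5 : a * (Real.log X - 1) = a * Real.log X - a := by ring
      rw [h5]
      linarith
    · have h4 := Real.log_le_log hp0 h3
      linarith
  have hE'c := cnt_P P₂ (fun p hp => hP4 p (hP₂m p hp).1) hX0.le
  obtain ⟨E', hE'⟩ : ∃ E' : Finset Gi, E' = (ball 0 1 X).filter (fun z => ∃ p ∈ P₂, p ∣ nm z) :=
    ⟨_, rfl⟩
  rw [← hE'] at hE'c
  have hE'c2 : (E'.card : ℝ) ≤ ε' * X := by
    refine hE'c.trans ?_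
    have h1 := mul_le_mul_of_nonneg_left hsumP hX0.le
    have h2 : X * (((m : ℝ) + 1) * (2 * w₁)) * 18 = ε' * X := by
      rw [hw₁]
      field_simp
      norm_num
    linarith
  have hEc : ((E ∪ (E' ∪ E'')).card : ℝ) ≤ ε * Y := by
    have h1 : ((E ∪ (E' ∪ E'')).card : ℝ) ≤ (E.card : ℝ) + (E'.card + E''.card) := by
      exact_mod_cast (Finset.card_union_le _ _).trans
        (Nat.add_le_add_left (Finset.card_union_le _ _) _)
    have h2 : ε' * X + (ε' * X + ε' * X) = ε * Y := by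
      rw [hε', hX]
      field_simp
      norm_num
    linarith
  -- the function
  obtain ⟨g₀, hg₀⟩ : ∃ g₀ : ℕ → ℝ, g₀ = fun n => G X (rr (X ^ a) X n) := ⟨_, rfl⟩
  have hg₀b : ∀ n, |g₀ n| ≤ 1 := by
    intro n
    rw [hg₀]
    exact hU.gb X _
  have hg₀z : ∀ z ∈ ball 0 1 X, z ∉ E' → z ∉ E'' →
      g₀ (fr P (nm z)) = G X (gN (Sz (X ^ a) X z)) := by
    intro z hz hzE hzE''
    have hz' := (mem_ball hD).1 hz
    have hnz : nm z ≠ 0 := by omega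
    rw [hg₀]
    simp only
    rw [rr_fr hnz, gN_Sz hz]
    · intro p hp hyp hd
      apply hzE''
      rw [hE'', mem_filter]
      refine ⟨hz, p, ?_, hd⟩
      have : (W : ℝ) < p := lt_of_le_of_lt hWX hyp
      exact_mod_cast this
    · intro p hpS hPp hd
      obtain ⟨h1, h2, h3⟩ := mem_PS.1 hpS
      apply hzE
      rw [hE', mem_filter]
      refine ⟨hz, p, ?_, hd⟩
      rw [hP₂, mem_filter, mem_Icc]
      exact ⟨⟨h1.1.one_lt.le, h3⟩, hPp, h2⟩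
  obtain ⟨g, hg⟩ : ∃ g : ℕ → ℂ, g = fun n => (((g₀ n - D) / B : ℝ) : ℂ) := ⟨_, rfl⟩
  have hB₀' : B₀ ≤ |B₀| := le_abs_self _
  have hgb : ∀ n, ‖g n‖ ≤ 1 := by
    intro n
    rw [hg]
    simp only
    rw [Complex.norm_real, Real.norm_eq_abs, abs_div, abs_of_pos hB0, div_le_one hB0]
    refine (abs_sub _ _).trans ?_
    have := hg₀b n
    rw [hB]
    linarith
  obtain ⟨w, hwd⟩ : ∃ w : Gi → ℂ, w = FS S (fun z =>
      F z * ((U z - μ (nm z) - (g₀ (fr P (nm z)) - D) : ℝ) : ℂ)) := ⟨_, rfl⟩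
  have hUa : ∀ z, |U z| ≤ 1 := fun z => by rw [abs_of_nonneg (hU.u0 z)]; exact hU.u1 z
  have hwB : ∀ z, ‖w z‖ ≤ B := by
    intro z
    rw [hwd]
    unfold FS
    split_ifs
    · rw [norm_mul, hFn, one_mul, Complex.norm_real, Real.norm_eq_abs]
      have h1 := hUa z
      have h2 := abs_sub (g₀ (fr P (nm z))) D
      have h3 := hg₀b (fr P (nm z))
      have h4 := hμ1 (nm z)
      have h5 := abs_sub (U z) (μ (nm z))
      have h6 := abs_sub (U z - μ (nm z)) (g₀ (fr P (nm z)) - D)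
      rw [hB]
      linarith
    · rw [norm_zero]; linarith
  have hwE : ∀ z ∈ ball 0 1 (Real.exp 1 * Y), Y / Real.exp 1 ≤ (nm z : ℝ) →
      z ∉ E ∪ (E' ∪ E'') → ‖w z‖ ≤ ε := by
    intro z hz hz2 hz3
    rw [← hX] at hz
    rw [mem_union, mem_union, not_or, not_or] at hz3
    rw [← hσX] at hz2
    have h1 : U z = G X (gN (Sz (X ^ a) X z)) := by
      by_contra h2
      apply hz3.1
      rw [hEd, mem_filter]
      exact ⟨hz, hz2, h2⟩
    have h2 := hg₀z z hz hz3.2.1 hz3.2.2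
    have h3 := hμX (nm z) hz2 ((mem_ball hD).1 hz).2
    rw [hwd]
    unfold FS
    split_ifs
    · rw [norm_mul, hFn, one_mul, Complex.norm_real, Real.norm_eq_abs, h2, ← h1]
      have e : U z - μ (nm z) - (U z - D) = -(μ (nm z) - D) := by ring
      rw [e, abs_neg]
      exact h3.trans hε'ε
    · rw [norm_zero]; exact hε.le
  have hh0 : 0 < h := by linarith
  have hKY : ((⌊Y / h⌋₊ : ℕ) : ℝ) ≤ Y := by
    refine (Nat.floor_le (by positivity)).trans ?_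
    exact div_le_self hY0.le hh
  have hs1 := hls Λ wt hw w B ε Y (E ∪ (E' ∪ E'')) ⌊Y / h⌋₊ (by linarith) hε hε1 hY1 hKY hwB
    hEc hwE
  have hs2 := hY₀ g hgb Y hYa
  -- decomposition
  have hdec : ∀ k, GW wt (FS S (fun z => F z * ((U z - μ (nm z) : ℝ) : ℂ))) Y k =
      (B : ℂ) * GW wt (FS S (fun z => F z * g (fr P (nm z)))) Y k + GW wt w Y k := by
    intro k
    unfold GW DPG
    rw [mul_sum, ← sum_add_distrib]
    refine sum_congr rfl fun z _ => ?_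
    rw [hwd, hg]
    unfold FS
    by_cases hz : S z
    · simp only [hz, if_true]
      have hB' : (B : ℂ) ≠ 0 := by exact_mod_cast hB0.ne'
      push_cast
      field_simp
      ring
    · simp only [hz, if_false]
      ring
  have hpt : ∀ k, ‖GW wt (FS S (fun z => F z * ((U z - μ (nm z) : ℝ) : ℂ))) Y k‖ ^ 2 ≤
      2 * B ^ 2 * ‖GW wt (FS S (fun z => F z * g (fr P (nm z)))) Y k‖ ^ 2 +
        2 * ‖GW wt w Y k‖ ^ 2 := by
    intro k
    rw [hdec]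
    have h1 := norm_add_le ((B : ℂ) * GW wt (FS S (fun z => F z * g (fr P (nm z)))) Y k)
      (GW wt w Y k)
    rw [norm_mul, Complex.norm_real, Real.norm_eq_abs, abs_of_pos hB0] at h1
    have h2 := pow_le_pow_left₀ (norm_nonneg _) h1 2
    refine h2.trans ?_
    exact two_sq _ _ _
  refine (sum_le_sum fun k _ => hpt k).trans ?_
  rw [sum_add_distrib, ← mul_sum, ← mul_sum]
  have h1 : 2 * B ^ 2 * ∑ k ∈ (FK ⌊Y / h⌋₊).erase 0,
      ‖GW wt (FS S (fun z => F z * g (fr P (nm z)))) Y k‖ ^ 2 ≤ η / 2 := by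
    calc _ ≤ 2 * B ^ 2 * (η / (4 * B ^ 2)) := mul_le_mul_of_nonneg_left hs2 (by positivity)
      _ = η / 2 := by field_simp; norm_num
  have h2 : ∑ k ∈ (FK ⌊Y / h⌋₊).erase 0, ‖GW wt w Y k‖ ^ 2 ≤ η / 4 := by
    refine (Finset.sum_le_sum_of_subset_of_nonneg (Finset.erase_subset _ _)
      fun _ _ _ => by positivity).trans (hs1.trans hε2)
  linarith

/-- the bilinear estimate from the estimate for thin sectors -/
theorem bt_of {A : Gi → ℝ} (h1 : ∀ z, |A z| ≤ 1) (h2 : Mrs A) : Bt A :=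
  Pool.Agent.W940.EX.btx Pool.Agent.W78.EC.gg0All Pool.Agent.W395.EC.ln
      Pool.Agent.W395.EC.dtb _ h1
    (Pool.Agent.W672.EX.btmx Pool.Agent.W683.EC.jb Pool.Agent.W683.EC.jv
      Pool.Agent.W395.EC.ln Pool.Agent.W395.EC.dtb _ h1 h2)

theorem cU_le (hU : Adm a G U) (z : Gi) : |U z - avg U (nm z)| ≤ 1 := by
  have h1 := hU.u0 z
  have h2 := hU.u1 z
  have h3 := avg_nonneg hU.u0 (nm z)
  have h4 := avg_le hU.u1 (nm z)
  rw [abs_le]
  constructor <;> linarith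

/-- the centred function -/
theorem bt_U (hU : Adm a G U) : Bt (fun z => U z - avg U (nm z)) := by
  refine bt_of (cU_le hU) (Pool.Agent.W915.EX.mrsA ?_)
  have ha := hU.pos
  obtain ⟨k, hk1⟩ := exists_nat_ge (1 / a)
  obtain ⟨C, hC1, hDGle⟩ := DG_le
  refine
    { bd := cU_le hU
      mr := fun M S hM hS Λ wt hw η hη => ?_
      m0 := fun M S hM hS Λ wt hw η hη => freq0 (fun ε hε => smallU hU hM hS ε hε) hw η hη }
  have h1 := mrG Pool.Agent.W251.EX.mrgA hU cm_triv (fun n => avg U n)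
    (fun X => DG (G X) (X ^ a) X) (C * 4 ^ k) (fun n => by
      rw [abs_of_nonneg (avg_nonneg hU.u0 _)]
      exact avg_le hU.u1 _) (by
      obtain ⟨X₁, hX₁1, hX₁R, hX₁⟩ := rpow_ge ha 2 (by norm_num)
      refine ⟨X₁, hX₁1, fun X hX => ?_⟩
      have := hX₁ X hX
      exact hDGle k (G X) (hU.gb X) (X ^ a) X (by linarith) (by linarith)
        (le_pow_k ha hk1 (by linarith))) (by
      intro σ ε hσ hσ1 hε
      obtain ⟨R, hR1, hR⟩ := avg_DG hU σ ε hσ hσ1 hε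
      refine ⟨R, hR1, fun X hX n h1 h2 => ?_⟩
      rw [abs_sub_comm]
      exact hR X n hX h1 h2) hM hS hw η hη
  obtain ⟨h, hh, Y₀, hY₀⟩ := h1
  refine ⟨h, hh, Y₀, fun Y hY => ?_⟩
  refine le_trans (le_of_eq ?_) (hY₀ Y hY)
  refine sum_congr rfl fun k _ => ?_
  simp only [one_mul]

theorem cm_star {N : ℕ} {F : Gi → ℂ} (hF : Cm N F) : Cm N (fun z => star (F z)) where
  pos := hF.pos
  mul z w hz hw := by
    rw [hF.mul z w hz hw, star_mul, mul_comm]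
  pow z := by
    rw [← star_pow, hF.pow, star_one]

theorem GW_comb {wt : ℝ → ℝ} {S : Gi → Prop} (c₁ c₂ : ℂ) (f g h : Gi → ℂ)
    (hfg : ∀ z, h z = c₁ * f z + c₂ * g z) (Y : ℝ) (k : ℤ) :
    GW wt (FS S h) Y k = c₁ * GW wt (FS S f) Y k + c₂ * GW wt (FS S g) Y k := by
  classical
  unfold GW DPG
  rw [mul_sum, mul_sum, ← sum_add_distrib]
  refine sum_congr rfl fun z _ => ?_
  unfold FS
  by_cases hz : S z
  · simp only [hz, if_true, hfg]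
    ring
  · simp only [hz, if_false]
    ring

open scoped Classical in
theorem mr_comb {wt : ℝ → ℝ} {S : Gi → Prop} {f g h : Gi → ℂ} {c₁ c₂ : ℂ} (hc₁ : ‖c₁‖ = 1 / 2)
    (hc₂ : ‖c₂‖ = 1 / 2) (hfg : ∀ z, h z = c₁ * f z + c₂ * g z) {η : ℝ}
    (hf : ∃ h : ℝ, 1 ≤ h ∧ ∃ Y₀ : ℝ, ∀ Y : ℝ, Y₀ ≤ Y →
      ∑ k ∈ (FK ⌊Y / h⌋₊).erase 0, ‖GW wt (FS S f) Y k‖ ^ 2 ≤ η)
    (hg : ∃ h : ℝ, 1 ≤ h ∧ ∃ Y₀ : ℝ, ∀ Y : ℝ, Y₀ ≤ Y →
      ∑ k ∈ (FK ⌊Y / h⌋₊).erase 0, ‖GW wt (FS S g) Y k‖ ^ 2 ≤ η) :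
    ∃ h' : ℝ, 1 ≤ h' ∧ ∃ Y₀ : ℝ, ∀ Y : ℝ, Y₀ ≤ Y →
      ∑ k ∈ (FK ⌊Y / h'⌋₊).erase 0, ‖GW wt (FS S h) Y k‖ ^ 2 ≤ η := by
  obtain ⟨h₁, hh₁, Y₁, hY₁⟩ := hf
  obtain ⟨h₂, hh₂, Y₂, hY₂⟩ := hg
  refine ⟨max h₁ h₂, le_max_of_le_left hh₁, max (max Y₁ Y₂) 0, fun Y hY => ?_⟩
  have hYa : Y₁ ≤ Y := (le_max_left _ _).trans ((le_max_left _ _).trans hY)
  have hYb : Y₂ ≤ Y := (le_max_right _ _).trans ((le_max_left _ _).trans hY)
  have hY0 : 0 ≤ Y := (le_max_right _ _).trans hY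
  have hpt : ∀ k, ‖GW wt (FS S h) Y k‖ ^ 2 ≤ 1 / 2 * ‖GW wt (FS S f) Y k‖ ^ 2 +
      1 / 2 * ‖GW wt (FS S g) Y k‖ ^ 2 := by
    intro k
    rw [GW_comb c₁ c₂ f g h hfg]
    have h1 := norm_add_le (c₁ * GW wt (FS S f) Y k) (c₂ * GW wt (FS S g) Y k)
    rw [norm_mul, norm_mul, hc₁, hc₂] at h1
    have h2 := pow_le_pow_left₀ (norm_nonneg _) h1 2
    refine h2.trans ?_
    nlinarith [sq_nonneg (‖GW wt (FS S f) Y k‖ - ‖GW wt (FS S g) Y k‖)]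
  refine (sum_le_sum fun k _ => hpt k).trans ?_
  rw [sum_add_distrib, ← mul_sum, ← mul_sum]
  have e1 : ∑ k ∈ (FK ⌊Y / max h₁ h₂⌋₊).erase 0, ‖GW wt (FS S f) Y k‖ ^ 2 ≤ η := by
    refine (Finset.sum_le_sum_of_subset_of_nonneg ?_ fun _ _ _ => by positivity).trans (hY₁ Y hYa)
    exact FKe hY0 (by linarith) (le_max_left _ _)
  have e2 : ∑ k ∈ (FK ⌊Y / max h₁ h₂⌋₊).erase 0, ‖GW wt (FS S g) Y k‖ ^ 2 ≤ η := by
    refine (Finset.sum_le_sum_of_subset_of_nonneg ?_ fun _ _ _ => by positivity).trans (hY₂ Y hYb)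
    exact FKe hY0 (by linarith) (le_max_right _ _)
  linarith

/-- the twisted function -/
theorem bt_T (hU : Adm a G U) {N : ℕ} {F : Gi → ℂ} (hF : Apd N F) :
    Bt (fun z => (F z).re * U z) ∧ Bt (fun z => (F z).im * U z) := by
  have hFn : ∀ z, ‖F z‖ = 1 := fun z =>
    Complex.norm_eq_one_of_pow_eq_one (hF.cm.pow z) (by have := hF.cm.pos; omega)
  have hUa : ∀ z, |U z| ≤ 1 := fun z => by rw [abs_of_nonneg (hU.u0 z)]; exact hU.u1 z
  have hmr : ∀ (f : Gi → ℂ), Cm N f → ∀ (M : ℕ) (S : Gi → Prop), 1 ≤ M → Per M S →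
      ∀ (Λ : ℝ) (wt : ℝ → ℝ), Rw Λ wt → ∀ η : ℝ, 0 < η → ∃ h : ℝ, 1 ≤ h ∧ ∃ Y₀ : ℝ, ∀ Y : ℝ,
      Y₀ ≤ Y → ∑ k ∈ (FK ⌊Y / h⌋₊).erase 0,
        ‖GW wt (FS S (fun z => f z * (U z : ℂ))) Y k‖ ^ 2 ≤ η := by
    intro f hf M S hM hS Λ wt hw η hη
    have h1 := mrG Pool.Agent.W251.EX.mrgA hU hf (fun _ => 0) (fun _ => 0) 0
      (fun _ => by rw [abs_zero]; norm_num) ⟨1, le_rfl, fun _ _ => by rw [abs_zero]⟩
      (fun σ ε hσ hσ1 hε => ⟨1, le_rfl, fun X _ n _ _ => by rw [sub_self, abs_zero]; exact hε.le⟩)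
      hM hS hw η hη
    obtain ⟨h, hh, Y₀, hY₀⟩ := h1
    refine ⟨h, hh, Y₀, fun Y hY => ?_⟩
    refine le_trans (le_of_eq ?_) (hY₀ Y hY)
    refine sum_congr rfl fun k _ => ?_
    simp only [sub_zero]
  have hbd : ∀ x u : ℝ, |x| ≤ 1 → |u| ≤ 1 → |x * u| ≤ 1 := by
    intro x u hx hu
    rw [abs_mul]
    exact mul_le_one₀ hx (abs_nonneg _) hu
  have hre : ∀ z, |(F z).re * U z| ≤ 1 := fun z =>
    hbd _ _ ((Complex.abs_re_le_norm _).trans (hFn z).le) (hUa z)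
  have him : ∀ z, |(F z).im * U z| ≤ 1 := fun z =>
    hbd _ _ ((Complex.abs_im_le_norm _).trans (hFn z).le) (hUa z)
  constructor
  · refine bt_of hre (Pool.Agent.W915.EX.mrsA ?_)
    refine
      { bd := hre
        mr := fun M S hM hS Λ wt hw η hη => ?_
        m0 := fun M S hM hS Λ wt hw η hη => freq0 (fun ε hε => ?_) hw η hη }
    · refine mr_comb (c₁ := 1 / 2) (c₂ := 1 / 2) (by norm_num) (by norm_num) ?_
        (hmr F hF.cm M S hM hS Λ wt hw η hη) (hmr _ (cm_star hF.cm) M S hM hS Λ wt hw η hη)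
      intro z
      have h1 : ((F z).re : ℂ) = (F z + star (F z)) / 2 := by
        rw [Complex.re_eq_add_conj]
        rfl
      push_cast
      rw [h1]
      ring
    · obtain ⟨X₀, hX₀, h⟩ := smallT hU hF hM hS ε hε
      refine ⟨X₀, hX₀, fun X hX => ?_⟩
      refine le_trans ?_ (h X hX)
      refine le_trans (le_of_eq ?_) (Complex.abs_re_le_norm _)
      congr 1
      rw [Complex.re_sum]
      refine sum_congr rfl fun z _ => ?_
      simp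
  · refine bt_of him (Pool.Agent.W915.EX.mrsA ?_)
    refine
      { bd := him
        mr := fun M S hM hS Λ wt hw η hη => ?_
        m0 := fun M S hM hS Λ wt hw η hη => freq0 (fun ε hε => ?_) hw η hη }
    · refine mr_comb (c₁ := -Complex.I / 2) (c₂ := Complex.I / 2) (by norm_num) (by norm_num) ?_
        (hmr F hF.cm M S hM hS Λ wt hw η hη) (hmr _ (cm_star hF.cm) M S hM hS Λ wt hw η hη)
      intro z
      have h1 : ((F z).im : ℂ) = (F z - star (F z)) / (2 * Complex.I) := by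
        rw [Complex.im_eq_sub_conj]
        rfl
      push_cast
      rw [h1]
      field_simp
      linear_combination ((F z - star (F z)) * (U z : ℂ)) * (Complex.I_sq)
    · obtain ⟨X₀, hX₀, h⟩ := smallT hU hF hM hS ε hε
      refine ⟨X₀, hX₀, fun X hX => ?_⟩
      refine le_trans ?_ (h X hX)
      refine le_trans (le_of_eq ?_) (Complex.abs_im_le_norm _)
      congr 1
      rw [Complex.im_sum]
      refine sum_congr rfl fun z _ => ?_
      simp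

end Pool.Agent.T2H34
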