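import Pool.Agent.T2H34.Ent2
import Pool.Agent.T2H34.Gha
import Pool.Agent.W78.EC.Dil2

/-!
Dilation by elements of prime norm.
-/

set_option autoImplicit false

namespace Pool.Agent.T2H34

open Finset Filter
open Pool.Agent.W78.GA (Qd nm prim dt ip lat ball pball edge dedge mem_ball mem_pball nm_mul
  one_le_nm star_mul_self' nm_dvd prim_ne_zero nm_zero nm_posR)
open Pool.Agent.W78.EC (Gi cone cw PQ SP th good InG TT res av Tr)
open Pool.Agent.W251.EX
open Pool.Agent.W78.EC.Fx
open Pool.Agent.W540.EC hiding hD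
open Pool.Agent.W991.EC (hD mul_inj card_ball)
open Pool.Agent.W214.EX (Vs wF norm_Vs)
open Pool.Agent.W78.EC.Dl (mem_dedge' dedge_card)

theorem gp_pi {i : ℕ × Bool} (hi : G4 i.1) {p : ℕ} (hp : p.Prime) (hpi : p < i.1) {π : Gi}
    (hπ : nm π = p) (z : Gi) : gp i ∣ π * z ↔ gp i ∣ z := by
  constructor
  · intro h
    have h1 : IsCoprime (i.1 : ℤ) (p : ℤ) := by
      rw [Nat.isCoprime_iff_coprime]
      exact (Nat.coprime_primes hi.1 hp).2 hpi.ne'
    obtain ⟨u, v, huv⟩ := h1
    have e1 : star (gp i) * gp i = ((i.1 : ℤ) : Gi) := by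
      rw [star_mul_self' hD, nm_gp hi]
      norm_cast
    have e2 : star π * π = ((p : ℤ) : Gi) := by
      rw [star_mul_self' hD, hπ]
      norm_cast
    have hc : IsCoprime (gp i) π := by
      refine ⟨(u : Gi) * star (gp i), (v : Gi) * star π, ?_⟩
      rw [mul_assoc, mul_assoc, e1, e2]
      exact_mod_cast congrArg (fun n : ℤ => (n : Gi)) huv
    exact hc.dvd_of_dvd_mul_left h
  · intro h
    exact h.mul_left π

theorem Sz_mul {y x : ℝ} {p : ℕ} (hp : p.Prime) (hpy : (p : ℝ) ≤ y) {π : Gi} (hπ : nm π = p)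
    (z : Gi) : Sz y x (π * z) = Sz y x z := by
  classical
  unfold Sz
  refine filter_congr fun i hi => ?_
  have h := mem_II.1 hi
  refine gp_pi h.1 hp ?_ hπ z
  have : (p : ℝ) < i.1 := lt_of_le_of_lt hpy h.2.1
  exact_mod_cast this

variable {a : ℝ} {G : ℝ → ℕ → ℝ} {U : Gi → ℝ}

open scoped Classical in
/-- admissible functions are almost invariant under multiplication by small elements -/
theorem vdil (hU : Adm a G U) (s : ℝ) (hs : 0 < s) (Q : ℕ) (ε : ℝ) (hε : 0 < ε) :
    ∃ X₀ : ℝ, ∀ X : ℝ, X₀ ≤ X → ∀ p ∈ PQ Q, ∀ π : Gi, nm π = p →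
      (((ball 0 1 (X / p)).filter (fun z => s * (X / p) < (nm z : ℝ) ∧ U (π * z) ≠ U z)).card : ℝ) ≤
        ε * (X / p) := by
  obtain ⟨Q', hQ'⟩ : ∃ Q' : ℝ, Q' = 2 * Q + 1 := ⟨_, rfl⟩
  have hQ0 : (0 : ℝ) ≤ Q := Nat.cast_nonneg _
  have hQ'1 : 1 ≤ Q' := by rw [hQ']; linarith
  obtain ⟨σ, hσd⟩ : ∃ σ : ℝ, σ = min 1 (s / Q') := ⟨_, rfl⟩
  have hσ : 0 < σ := by rw [hσd]; exact lt_min one_pos (by positivity)
  have hσ1 : σ ≤ 1 := by rw [hσd]; exact min_le_left _ _
  have hσ2 : σ * Q' ≤ s := by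
    have : σ ≤ s / Q' := by rw [hσd]; exact min_le_right _ _
    rwa [le_div_iff₀ (by linarith)] at this
  obtain ⟨R, hR1, hR⟩ := hU.ap σ (ε / (2 * Q')) hσ hσ1 (by positivity)
  obtain ⟨X₁, hX₁1, hX₁R, hX₁⟩ := rpow_ge hU.pos (R + Q') (by linarith)
  refine ⟨X₁, fun X hX p hp π hπ => ?_⟩
  obtain ⟨hp1, hp2, hpp, hp4⟩ := PQ_mem hp
  have hX0 : 0 < X := by linarith
  have hp0 : (0 : ℝ) < p := by exact_mod_cast hpp.pos
  have hpQ : (p : ℝ) ≤ Q' := by
    have : (p : ℝ) ≤ 2 * Q := by exact_mod_cast hp2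
    rw [hQ']; linarith
  have hp1' : (1 : ℝ) ≤ p := by exact_mod_cast hpp.one_lt.le
  have hXp : X / p ≤ X := div_le_self hX0.le hp1'
  have hya := hX₁ X hX
  obtain ⟨E, hE⟩ : ∃ E : Finset Gi, E = (ball 0 1 X).filter (fun z => σ * X ≤ (nm z : ℝ) ∧
      U z ≠ G X (gN (Sz (X ^ a) X z))) := ⟨_, rfl⟩
  have hEc := hR X (by linarith)
  rw [← hE] at hEc
  have hπ0 : π ≠ 0 := by
    rintro rfl
    rw [nm_zero] at hπ
    exact hpp.ne_zero hπ.symm
  have hnm : ∀ z : Gi, (nm (π * z) : ℝ) = p * nm z := by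
    intro z
    rw [nm_mul, hπ]
    push_cast
    ring
  have hsub : (ball 0 1 (X / p)).filter (fun z => s * (X / p) < (nm z : ℝ) ∧ U (π * z) ≠ U z) ⊆
      E ∪ (ball 0 1 (X / p)).filter (fun z => π * z ∈ E) := by
    intro z hz
    rw [mem_filter, mem_ball hD] at hz
    obtain ⟨⟨hz1, hz2⟩, hz3, hz4⟩ := hz
    rw [mem_union, mem_filter, mem_ball hD]
    by_contra hcon
    push Not at hcon
    obtain ⟨hc1, hc2⟩ := hcon
    have hc2' := hc2 ⟨hz1, hz2⟩
    apply hz4
    have hzσ : σ * X ≤ nm z := by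
      have h1 : σ * X ≤ s * (X / p) := by
        rw [mul_div_assoc', le_div_iff₀ hp0]
        have h2 : σ * p ≤ s := (mul_le_mul_of_nonneg_left hpQ hσ.le).trans hσ2
        calc σ * X * p = σ * p * X := by ring
          _ ≤ s * X := mul_le_mul_of_nonneg_right h2 hX0.le
      linarith
    have h1 : U z = G X (gN (Sz (X ^ a) X z)) := by
      by_contra h2
      apply hc1
      rw [hE, mem_filter, mem_ball hD]
      exact ⟨⟨hz1, hz2.trans hXp⟩, hzσ, h2⟩
    have h2 : U (π * z) = G X (gN (Sz (X ^ a) X (π * z))) := by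
      by_contra h3
      apply hc2'
      rw [hE, mem_filter, mem_ball hD, hnm]
      refine ⟨⟨?_, ?_⟩, ?_, h3⟩
      · rw [nm_mul, hπ]
        exact Nat.mul_pos hpp.pos hz1
      · rw [le_div_iff₀ hp0] at hz2
        linarith
      · have : (nm z : ℝ) ≤ p * nm z := le_mul_of_one_le_left (Nat.cast_nonneg _) hp1'
        linarith
    rw [h1, h2, Sz_mul hpp (by linarith) hπ]
  have hc : (((ball 0 1 (X / p)).filter (fun z => π * z ∈ E)).card : ℝ) ≤ (E.card : ℝ) := by
    refine Nat.cast_le.2 (Finset.card_le_card_of_injOn (fun z => π * z) ?_ ?_)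
    · intro z hz
      exact (mem_filter.1 hz).2
    · intro z _ w _ hzw
      exact gi_cancel hπ0 hzw
  have hc2 : (((ball 0 1 (X / p)).filter (fun z => s * (X / p) < (nm z : ℝ) ∧
      U (π * z) ≠ U z)).card : ℝ) ≤ (E.card : ℝ) + E.card := by
    have h1 := (Finset.card_le_card hsub).trans (Finset.card_union_le _ _)
    have h2 : (((ball 0 1 (X / p)).filter (fun z => s * (X / p) < (nm z : ℝ) ∧
      U (π * z) ≠ U z)).card : ℝ) ≤ (E.card : ℝ) +
        (((ball 0 1 (X / p)).filter (fun z => π * z ∈ E)).card : ℝ) := by exact_mod_cast h1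
    linarith
  refine hc2.trans ?_
  have h3 : (E.card : ℝ) + E.card ≤ ε / Q' * X := by
    have : ε / (2 * Q') * X + ε / (2 * Q') * X = ε / Q' * X := by field_simp; ring
    linarith
  refine h3.trans ?_
  rw [div_mul_eq_mul_div, ← mul_div_assoc]
  exact div_le_div_of_nonneg_left (by positivity) hp0 hpQ

open scoped Classical in
/-- pairs with one vertex in a given set -/
theorem pair_cnt (s : ℝ) (hs : 0 < s) : ∃ C : ℝ, 0 ≤ C ∧ ∀ x : ℝ, 1 ≤ x → ∀ V : Finset Gi,
    (∀ v ∈ V, s * x < (nm v : ℝ)) →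
    (((dedge 0 1 x).filter (fun e => e.1 ∈ V)).card : ℝ) ≤ C * V.card ∧
    (((dedge 0 1 x).filter (fun e => e.2 ∈ V)).card : ℝ) ≤ C * V.card := by
  obtain ⟨C, hC⟩ := Pool.Agent.W395.EC.ln s hs
  refine ⟨C, Nat.cast_nonneg _, fun x hx V hV => ?_⟩
  have hx0 : 0 ≤ x := by linarith
  constructor
  · have h1 : ((dedge 0 1 x).filter (fun e => e.1 ∈ V)).card ≤ V.card * C := by
      rw [mul_comm]
      refine Finset.card_le_mul_card_image_of_maps_to (f := fun e : Gi × Gi => e.1)
        (s := (dedge 0 1 x).filter (fun e => e.1 ∈ V)) (t := V)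
        (fun e he => (mem_filter.1 he).2) C ?_
      intro v hv
      by_cases hne : (((dedge 0 1 x).filter (fun e => e.1 ∈ V)).filter (fun e => e.1 = v)).Nonempty
      · obtain ⟨e₀, he₀⟩ := hne
        rw [mem_filter, mem_filter, mem_dedge'] at he₀
        have hvp : prim v := by rw [← he₀.2]; exact he₀.1.1.1.1
        refine le_trans ?_ (hC x v 1 hx hvp (hV v hv))
        refine Finset.card_le_card_of_injOn (fun e => e.2) ?_ ?_
        · intro e he
          rw [mem_coe, mem_filter, mem_filter, mem_dedge'] at he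
          rw [mem_coe, mem_filter, mem_ball hD]
          obtain ⟨⟨⟨h1, h2, h3⟩, -⟩, h4⟩ := he
          rw [h4] at h3
          refine ⟨⟨(one_le_nm hD).2 (prim_ne_zero h2.1), ?_⟩, h3⟩
          linarith [h2.2]
        · intro e he e' he' hee
          rw [mem_coe, mem_filter] at he he'
          exact Prod.ext (he.2.trans he'.2.symm) hee
      · rw [Finset.not_nonempty_iff_eq_empty.1 hne, card_empty]
        exact Nat.zero_le _
    calc (((dedge 0 1 x).filter (fun e => e.1 ∈ V)).card : ℝ) ≤ ((V.card * C : ℕ) : ℝ) := by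
          exact_mod_cast h1
      _ = C * V.card := by push_cast; ring
  · have h1 : ((dedge 0 1 x).filter (fun e => e.2 ∈ V)).card ≤ V.card * C := by
      rw [mul_comm]
      refine Finset.card_le_mul_card_image_of_maps_to (f := fun e : Gi × Gi => e.2)
        (s := (dedge 0 1 x).filter (fun e => e.2 ∈ V)) (t := V)
        (fun e he => (mem_filter.1 he).2) C ?_
      intro v hv
      by_cases hne : (((dedge 0 1 x).filter (fun e => e.2 ∈ V)).filter (fun e => e.2 = v)).Nonempty
      · obtain ⟨e₀, he₀⟩ := hne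
        rw [mem_filter, mem_filter, mem_dedge'] at he₀
        have hvp : prim v := by rw [← he₀.2]; exact he₀.1.1.2.1.1
        refine le_trans ?_ (hC x v (-1) hx hvp (hV v hv))
        refine Finset.card_le_card_of_injOn (fun e => e.1) ?_ ?_
        · intro e he
          rw [mem_coe, mem_filter, mem_filter, mem_dedge'] at he
          rw [mem_coe, mem_filter, mem_ball hD]
          obtain ⟨⟨⟨h1, h2, h3⟩, -⟩, h4⟩ := he
          rw [h4] at h3
          refine ⟨⟨(one_le_nm hD).2 (prim_ne_zero h1.1), ?_⟩, ?_⟩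
          · linarith [h1.2]
          · unfold dt at h3 ⊢
            linarith
        · intro e he e' he' hee
          rw [mem_coe, mem_filter] at he he'
          exact Prod.ext hee (he.2.trans he'.2.symm)
      · rw [Finset.not_nonempty_iff_eq_empty.1 hne, card_empty]
        exact Nat.zero_le _
    calc (((dedge 0 1 x).filter (fun e => e.2 ∈ V)).card : ℝ) ≤ ((V.card * C : ℕ) : ℝ) := by
          exact_mod_cast h1
      _ = C * V.card := by push_cast; ring

end Pool.Agent.T2H34
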