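import Pool.Agent.T2H34.Sv

/-!
The proportion of elements without large prime factors; primitive elements in residue classes.
-/

set_option autoImplicit false

namespace Pool.Agent.T2H34

open Finset
open Pool.Agent.W78.GA
open Pool.Agent.W78.EC (Gi)
open Pool.Agent.W991.EC (hD mul_inj card_ball)

/-- the proportion -/
noncomputable def dl (a x : ℝ) : ℝ := (TL 1 (x ^ a) x 0 : ℝ) / ((ball 0 1 x).card : ℝ)

open scoped Classical in
/-- the indicator function of the elements without large prime factors -/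
noncomputable def ha (a : ℝ) (z : Gi) : ℝ := if lg ((nm z : ℝ) ^ a) z then 0 else 1

/-- the centred function -/
noncomputable def Aa (a : ℝ) (z : Gi) : ℝ := ha a z - dl a (nm z)

theorem cb_one (x : ℝ) (r : Gi) : cb 1 x r = ball 0 1 x := by
  classical
  unfold cb
  rw [Finset.filter_true_of_mem]
  intro z _
  rw [Nat.cast_one]
  exact one_dvd _

theorem TL_one_le (y x : ℝ) : TL 1 y x 0 ≤ (ball 0 1 x).card := by
  classical
  unfold TL
  rw [cb_one]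
  exact Finset.card_filter_le _ _

theorem dl_nonneg (a x : ℝ) : 0 ≤ dl a x := by
  unfold dl
  positivity

theorem dl_le (a x : ℝ) : dl a x ≤ 1 := by
  unfold dl
  exact div_le_one_of_le₀ (by exact_mod_cast TL_one_le _ _) (Nat.cast_nonneg _)

theorem ha_mem (a : ℝ) (z : Gi) : 0 ≤ ha a z ∧ ha a z ≤ 1 := by
  unfold ha
  split_ifs <;> norm_num

theorem Aa_le (a : ℝ) (z : Gi) : |Aa a z| ≤ 1 := by
  unfold Aa
  have h1 := ha_mem a z
  have h2 := dl_nonneg a (nm z)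
  have h3 := dl_le a (nm z)
  rw [abs_le]
  constructor <;> linarith [h1.1, h1.2]

theorem ball_lo : ∃ R : ℝ, 1 ≤ R ∧ ∀ x : ℝ, R ≤ x → kp * x / 2 ≤ ((ball 0 1 x).card : ℝ) := by
  obtain ⟨C, hC, h⟩ := ball_cnt
  have hk := kp_pos
  refine ⟨max 1 ((2 * C / kp) ^ 2), le_max_left _ _, fun x hx => ?_⟩
  have hx1 : 1 ≤ x := (le_max_left _ _).trans hx
  have hx2 : (2 * C / kp) ^ 2 ≤ x := (le_max_right _ _).trans hx
  have h1 := (abs_le.1 (h x hx1)).1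
  have h2 : 2 * C / kp ≤ Real.sqrt x := Real.le_sqrt_of_sq_le hx2
  have h3 : C * Real.sqrt x ≤ kp * x / 2 := by
    rw [div_le_iff₀ hk] at h2
    have h4 : Real.sqrt x * Real.sqrt x = x := Real.mul_self_sqrt (by linarith)
    have h5 : 0 ≤ Real.sqrt x := Real.sqrt_nonneg _
    nlinarith
  linarith

theorem ball_eps (ε : ℝ) (hε : 0 < ε) : ∃ R : ℝ, 1 ≤ R ∧ ∀ x : ℝ, R ≤ x →
    |((ball 0 1 x).card : ℝ) - kp * x| ≤ ε * x := by
  obtain ⟨C, hC, h⟩ := ball_cnt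
  refine ⟨max 1 ((C / ε) ^ 2), le_max_left _ _, fun x hx => ?_⟩
  have hx1 : 1 ≤ x := (le_max_left _ _).trans hx
  have hx2 : (C / ε) ^ 2 ≤ x := (le_max_right _ _).trans hx
  refine (h x hx1).trans ?_
  have h2 : C / ε ≤ Real.sqrt x := Real.le_sqrt_of_sq_le hx2
  rw [div_le_iff₀ hε] at h2
  have h4 : Real.sqrt x * Real.sqrt x = x := Real.mul_self_sqrt (by linarith)
  have h5 : 0 ≤ Real.sqrt x := Real.sqrt_nonneg _
  nlinarith

theorem DD_bd : ∃ R : ℝ, 1 ≤ R ∧ ∀ y x : ℝ, R ≤ y → R ≤ x → |DD y x| ≤ 10 / kp := by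
  obtain ⟨R, hR1, hR⟩ := cls_ind (M := 1) le_rfl 1 one_pos
  have hk := kp_pos
  refine ⟨R, hR1, fun y x hy hx => ?_⟩
  have hx0 : 0 < x := by linarith
  have h1 := hR y x hy hx 0
  rw [Nat.cast_one, one_pow, div_one] at h1
  have h2 : (TL 1 y x 0 : ℝ) ≤ 9 * x := le_trans (by exact_mod_cast TL_one_le _ _)
    (card_ball hx0.le)
  have h3 : (0 : ℝ) ≤ (TL 1 y x 0 : ℝ) := Nat.cast_nonneg _
  have h4 : |kp * x * DD y x| ≤ 10 * x := by
    rw [abs_le] at h1 ⊢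
    constructor <;> linarith [h1.1, h1.2]
  rw [abs_mul, abs_of_pos (by positivity : 0 < kp * x)] at h4
  rw [le_div_iff₀ hk]
  have h5 : x * (|DD y x| * kp) ≤ x * 10 := by linarith
  exact le_of_mul_le_mul_left h5 hx0

theorem dl_DD (ε : ℝ) (hε : 0 < ε) : ∃ R : ℝ, 1 ≤ R ∧ ∀ y x : ℝ, R ≤ y → R ≤ x →
    |(TL 1 y x 0 : ℝ) / ((ball 0 1 x).card : ℝ) - DD y x| ≤ ε := by
  have hk := kp_pos
  obtain ⟨ε₁, hε₁⟩ : ∃ ε₁ : ℝ, ε₁ = ε * kp / (2 * (1 + 10 / kp)) := ⟨_, rfl⟩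
  have hε₁0 : 0 < ε₁ := by rw [hε₁]; positivity
  obtain ⟨R₁, hR₁1, hR₁⟩ := cls_ind (M := 1) le_rfl ε₁ hε₁0
  obtain ⟨R₂, hR₂1, hR₂⟩ := ball_eps ε₁ hε₁0
  obtain ⟨R₃, hR₃1, hR₃⟩ := ball_lo
  obtain ⟨R₄, hR₄1, hR₄⟩ := DD_bd
  refine ⟨R₁ + R₂ + R₃ + R₄, by linarith, fun y x hy hx => ?_⟩
  have hx0 : 0 < x := by linarith
  have h1 := hR₁ y x (by linarith) (by linarith) 0
  have h2 := hR₂ x (by linarith)
  have h3 := hR₃ x (by linarith)
  have h4 := hR₄ y x (by linarith) (by linarith)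
  rw [Nat.cast_one, one_pow, div_one] at h1
  obtain ⟨T, hT⟩ : ∃ T : ℝ, T = (TL 1 y x 0 : ℝ) := ⟨_, rfl⟩
  obtain ⟨B, hB⟩ : ∃ B : ℝ, B = ((ball 0 1 x).card : ℝ) := ⟨_, rfl⟩
  rw [← hT] at h1 ⊢
  rw [← hB] at h2 h3 ⊢
  have hB0 : 0 < B := lt_of_lt_of_le (by positivity) h3
  have e : T / B - DD y x = ((T - kp * x * DD y x) - (B - kp * x) * DD y x) / B := by
    field_simp
    ring
  rw [e, abs_div, abs_of_pos hB0, div_le_iff₀ hB0]
  have h5 : |(T - kp * x * DD y x) - (B - kp * x) * DD y x| ≤ ε₁ * x + ε₁ * x * (10 / kp) := by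
    refine (abs_sub _ _).trans (add_le_add h1 ?_)
    rw [abs_mul]
    exact mul_le_mul h2 h4 (abs_nonneg _) (by positivity)
  refine h5.trans ?_
  calc ε₁ * x + ε₁ * x * (10 / kp) = ε₁ * (1 + 10 / kp) * x := by ring
    _ = ε * (kp * x / 2) := by rw [hε₁]; field_simp
    _ ≤ ε * B := mul_le_mul_of_nonneg_left h3 hε.le

/-- powers tend to infinity -/
theorem rpow_ge {a : ℝ} (ha : 0 < a) (R : ℝ) (hR : 1 ≤ R) :
    ∃ X : ℝ, 1 ≤ X ∧ R ≤ X ∧ ∀ x : ℝ, X ≤ x → R ≤ x ^ a := by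
  refine ⟨max R (R ^ (1 / a)), le_max_of_le_left hR, le_max_left _ _, fun x hx => ?_⟩
  have h1 : R ^ (1 / a) ≤ x := (le_max_right _ _).trans hx
  have hR0 : 0 ≤ R := by linarith
  have h2 := Real.rpow_le_rpow (Real.rpow_nonneg hR0 _) h1 ha.le
  rw [← Real.rpow_mul hR0, one_div_mul_cancel ha.ne', Real.rpow_one] at h2
  exact h2

open scoped Classical in
theorem TL_mono_diff {y' y x : ℝ} (hy : y' ≤ y) :
    |(TL 1 y x 0 : ℝ) - TL 1 y' x 0| ≤ (((ball 0 1 x).filter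
      (fun z => ∃ p : ℕ, G4 p ∧ y' < (p : ℝ) ∧ (p : ℝ) ≤ y ∧ p ∣ nm z)).card : ℝ) := by
  unfold TL
  rw [cb_one]
  have hsub : (ball 0 1 x).filter (fun z => ¬ lg y' z) ⊆ (ball 0 1 x).filter (fun z => ¬ lg y z) := by
    intro z hz
    rw [mem_filter] at hz ⊢
    refine ⟨hz.1, fun h => hz.2 ?_⟩
    obtain ⟨p, h1, h2, h3⟩ := h
    exact ⟨p, h1, lt_of_le_of_lt hy h2, h3⟩
  have hsub2 : (ball 0 1 x).filter (fun z => ¬ lg y z) ⊆
      ((ball 0 1 x).filter (fun z => ¬ lg y' z)) ∪ ((ball 0 1 x).filter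
      (fun z => ∃ p : ℕ, G4 p ∧ y' < (p : ℝ) ∧ (p : ℝ) ≤ y ∧ p ∣ nm z)) := by
    intro z hz
    rw [mem_filter] at hz
    rw [mem_union, mem_filter, mem_filter]
    by_cases h : lg y' z
    · right
      obtain ⟨p, h1, h2, h3⟩ := h
      refine ⟨hz.1, p, h1, h2, ?_, h3⟩
      by_contra h4
      exact hz.2 ⟨p, h1, not_le.1 h4, h3⟩
    · left
      exact ⟨hz.1, h⟩
  have h1 := Finset.card_le_card hsub
  have h2 := (Finset.card_le_card hsub2).trans (Finset.card_union_le _ _)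
  have h1' : (((ball 0 1 x).filter (fun z => ¬ lg y' z)).card : ℝ) ≤
    (((ball 0 1 x).filter (fun z => ¬ lg y z)).card : ℝ) := by exact_mod_cast h1
  have h2' : (((ball 0 1 x).filter (fun z => ¬ lg y z)).card : ℝ) ≤
    (((ball 0 1 x).filter (fun z => ¬ lg y' z)).card : ℝ) + (((ball 0 1 x).filter
      (fun z => ∃ p : ℕ, G4 p ∧ y' < (p : ℝ) ∧ (p : ℝ) ≤ y ∧ p ∣ nm z)).card : ℝ) := by
    exact_mod_cast h2
  rw [abs_le]
  constructor
  · have : (0 : ℝ) ≤ (((ball 0 1 x).filter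
      (fun z => ∃ p : ℕ, G4 p ∧ y' < (p : ℝ) ∧ (p : ℝ) ≤ y ∧ p ∣ nm z)).card : ℝ) :=
      Nat.cast_nonneg _
    linarith
  · linarith

theorem rpow_ratio {a σ x x' : ℝ} (ha : 0 < a) (hσ : 0 < σ) (hx : 0 < x) (h1 : σ * x ≤ x') :
    x ^ a ≤ (1 / σ) ^ a * x' ^ a := by
  have hx' : 0 < x' := lt_of_lt_of_le (by positivity) h1
  rw [← Real.mul_rpow (by positivity) hx'.le]
  refine Real.rpow_le_rpow hx.le ?_ ha.le
  rw [one_div, inv_mul_eq_div, le_div_iff₀ hσ]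
  linarith

/-- slow variation of the proportion -/
theorem dl_slow (a σ ε : ℝ) (ha : 0 < a) (hσ : 0 < σ) (hσ1 : σ ≤ 1) (hε : 0 < ε) :
    ∃ R : ℝ, 1 ≤ R ∧ ∀ x x' : ℝ, R ≤ x → σ * x ≤ x' → x' ≤ x →
      |DD (x ^ a) x - dl a x'| ≤ ε := by
  have hk := kp_pos
  obtain ⟨R₁, hR₁1, hR₁⟩ := dl_DD (ε / 4) (by positivity)
  obtain ⟨R₂, hR₂1, hR₂⟩ := DD_slow σ (ε / 4) hσ (by positivity)
  obtain ⟨R₃, hR₃1, hR₃⟩ := ball_lo
  have hc : 1 ≤ (1 / σ) ^ a := Real.one_le_rpow (by rw [one_le_div hσ]; exact hσ1) ha.le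
  obtain ⟨R₄, hR₄1, hR₄⟩ := TL_thr ((1 / σ) ^ a) (ε / 4 * (kp / 2)) hc (by positivity)
  obtain ⟨X, hX1, hXR, hX⟩ := rpow_ge ha (R₁ + R₂ + R₃ + R₄) (by linarith)
  refine ⟨X / σ, by rw [le_div_iff₀ hσ]; nlinarith, fun x x' hx h1 h2 => ?_⟩
  have hx0 : 0 < x := lt_of_lt_of_le (by positivity) hx
  rw [div_le_iff₀ hσ] at hx
  have hx'X : X ≤ x' := by linarith
  have hxX : X ≤ x := hx'X.trans h2
  have hx'0 : 0 < x' := by linarith
  have hya := hX x hxX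
  have hy'a := hX x' hx'X
  have hyy : x' ^ a ≤ x ^ a := Real.rpow_le_rpow hx'0.le h2 ha.le
  have e1 := hR₂ (x ^ a) x x' (by linarith) (by linarith) h1 h2
  have e2 := hR₁ (x ^ a) x' (by linarith) (by linarith)
  have e3 : |(TL 1 (x ^ a) x' 0 : ℝ) / ((ball 0 1 x').card : ℝ) - dl a x'| ≤ ε / 4 := by
    unfold dl
    have hb := hR₃ x' (by linarith)
    have hb0 : 0 < ((ball 0 1 x').card : ℝ) := lt_of_lt_of_le (by positivity) hb
    rw [← sub_div, abs_div, abs_of_pos hb0, div_le_iff₀ hb0]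
    refine (TL_mono_diff hyy).trans ?_
    refine (hR₄ (x' ^ a) (x ^ a) x' (by linarith) (rpow_ratio ha hσ hx0 h1) hx'0.le).trans ?_
    calc ε / 4 * (kp / 2) * x' = ε / 4 * (kp * x' / 2) := by ring
      _ ≤ _ := mul_le_mul_of_nonneg_left hb (by positivity)
  have e4 : DD (x ^ a) x - dl a x' = (DD (x ^ a) x - DD (x ^ a) x') -
      ((TL 1 (x ^ a) x' 0 : ℝ) / ((ball 0 1 x').card : ℝ) - DD (x ^ a) x') +
      ((TL 1 (x ^ a) x' 0 : ℝ) / ((ball 0 1 x').card : ℝ) - dl a x') := by ring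
  rw [e4]
  refine (abs_add_le _ _).trans ?_
  have e5 := abs_sub (DD (x ^ a) x - DD (x ^ a) x')
    ((TL 1 (x ^ a) x' 0 : ℝ) / ((ball 0 1 x').card : ℝ) - DD (x ^ a) x')
  linarith

theorem dl_slow2 (a σ ε : ℝ) (ha : 0 < a) (hσ : 0 < σ) (hσ1 : σ ≤ 1) (hε : 0 < ε) :
    ∃ R : ℝ, 1 ≤ R ∧ ∀ x x' : ℝ, R ≤ x → σ * x ≤ x' → x' ≤ x → |dl a x - dl a x'| ≤ ε := by
  obtain ⟨R, hR1, hR⟩ := dl_slow a σ (ε / 2) ha hσ hσ1 (by positivity)
  refine ⟨R, hR1, fun x x' hx h1 h2 => ?_⟩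
  have e1 := hR x x' hx h1 h2
  have e2 := hR x x hx (by nlinarith) le_rfl
  have e3 : dl a x - dl a x' = (DD (x ^ a) x - dl a x') - (DD (x ^ a) x - dl a x) := by ring
  rw [e3]
  refine (abs_sub _ _).trans ?_
  linarith

/-! ### primitive elements -/

/-- no prime up to `W` divides `z` -/
def nd (W : ℕ) (z : Gi) : Prop := ∀ p : ℕ, p.Prime → p ≤ W → ¬ (p : Gi) ∣ z

theorem nd_per {W M : ℕ} {z z' : Gi} (h : ((M * W.factorial : ℕ) : Gi) ∣ z - z') :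
    nd W z ↔ nd W z' := by
  have key : ∀ {z z' : Gi}, ((M * W.factorial : ℕ) : Gi) ∣ z - z' → nd W z → nd W z' := by
    intro z z' h h1 p hp hpW hd
    apply h1 p hp hpW
    have h2 : (p : Gi) ∣ z - z' := by
      refine dvd_trans ?_ h
      have h3 : p ∣ M * W.factorial := (Nat.dvd_factorial hp.pos hpW).mul_left M
      obtain ⟨k, hk⟩ := h3
      exact ⟨(k : Gi), by rw [hk]; push_cast; rfl⟩
    have e : z = (z - z') + z' := by ring
    rw [e]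
    exact dvd_add h2 hd
  refine ⟨key h, key ?_⟩
  have e : z' - z = -(z - z') := by ring
  rw [e]
  exact (dvd_neg).2 h

open scoped Classical in
/-- few elements are divisible by a large integer -/
theorem nonprim_cnt (W : ℕ) (hW : 1 ≤ W) {x : ℝ} (hx : 0 ≤ x) :
    (((ball 0 1 x).filter (fun z => nd W z ∧ ¬ prim z)).card : ℝ) ≤ 9 * x / W := by
  have hW0 : (0 : ℝ) < W := by exact_mod_cast hW
  have hsub : (ball 0 1 x).filter (fun z => nd W z ∧ ¬ prim z) ⊆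
      (Ioc W (max W ⌊x⌋₊)).biUnion (fun g => (ball 0 1 x).filter (fun z => True ∧ (g : Gi) ∣ z)) := by
    intro z hz
    rw [mem_filter] at hz
    obtain ⟨h1, h2, h3⟩ := hz
    rw [prim_iff] at h3
    push Not at h3
    obtain ⟨p, hp, hpz⟩ := h3
    rw [mem_biUnion]
    refine ⟨p, ?_, mem_filter.2 ⟨h1, trivial, hpz⟩⟩
    rw [mem_Ioc]
    constructor
    · by_contra h4
      exact h2 p hp (not_lt.1 h4) hpz
    · exact le_max_of_le_right (Pool.Agent.W991.EC.g_le h1 hpz).2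
  have h1 : (((ball 0 1 x).filter (fun z => nd W z ∧ ¬ prim z)).card : ℝ) ≤
      ∑ g ∈ Ioc W (max W ⌊x⌋₊), (((ball 0 1 x).filter (fun z => True ∧ (g : Gi) ∣ z)).card : ℝ) := by
    exact_mod_cast (Finset.card_le_card hsub).trans Finset.card_biUnion_le
  refine h1.trans ?_
  have h2 : ∀ g ∈ Ioc W (max W ⌊x⌋₊), (((ball 0 1 x).filter (fun z => True ∧ (g : Gi) ∣ z)).card : ℝ) ≤
      9 * x * ((g : ℝ) ^ 2)⁻¹ := by
    intro g hg
    rw [mem_Ioc] at hg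
    have hg0 : 0 < g := by omega
    have hgne : (g : Gi) ≠ 0 := by
      intro h0
      have h2 := congrArg QuadraticAlgebra.re h0
      simp only [QuadraticAlgebra.re_natCast, QuadraticAlgebra.re_zero] at h2
      omega
    have e := card_mult hgne x (fun _ => True)
    rw [nm_natCast] at e
    have e2 : ((ball 0 1 x).filter (fun z => True ∧ (g : Gi) ∣ z)).card ≤
        (ball 0 1 (x / ((g ^ 2 : ℕ) : ℝ))).card := by
      refine le_trans (le_of_eq ?_) (Finset.card_filter_le (ball 0 1 (x / ((g ^ 2 : ℕ) : ℝ)))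
        (fun _ => True))
      convert e
    have e3 := card_ball (X := x / ((g ^ 2 : ℕ) : ℝ)) (by positivity)
    refine le_trans (by exact_mod_cast e2) (e3.trans (le_of_eq ?_))
    push_cast
    ring
  refine (sum_le_sum h2).trans ?_
  rw [← mul_sum]
  have h3 := sum_Ioc_inv_sq_le_sub (α := ℝ) (k := W) (n := max W ⌊x⌋₊) (by omega) (le_max_left _ _)
  have h4 : (0:ℝ) ≤ ((max W ⌊x⌋₊ : ℕ) : ℝ)⁻¹ := by positivity
  have h5 : ∑ i ∈ Ioc W (max W ⌊x⌋₊), ((i:ℝ) ^ 2)⁻¹ ≤ (W:ℝ)⁻¹ := by linarith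
  calc 9 * x * ∑ i ∈ Ioc W (max W ⌊x⌋₊), ((i:ℝ) ^ 2)⁻¹ ≤ 9 * x * (W:ℝ)⁻¹ :=
        mul_le_mul_of_nonneg_left h5 (by positivity)
    _ = 9 * x / W := by rw [div_eq_mul_inv]

open scoped Classical in
/-- sums over residue classes -/
theorem sum_cb {A : Type} [AddCommMonoid A] {M : ℕ} (hM : 1 ≤ M) (X : ℝ) (P : Gi → Prop)
    (hP : ∀ z z' : Gi, (M : Gi) ∣ z - z' → (P z ↔ P z')) (f : Gi → A) :
    ∑ z ∈ (ball 0 1 X).filter P, f z =
      ∑ s ∈ (range M ×ˢ range M).filter (fun s => P (gz s)), ∑ z ∈ cb M X (gz s), f z := by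
  have hM0 : (0:ℤ) < M := by omega
  have hmap : ∀ z ∈ (ball 0 1 X).filter P, (fun z : Gi => ((z.re % M).toNat, (z.im % M).toNat)) z ∈
      (range M ×ˢ range M).filter (fun s => P (gz s)) := by
    intro z hz
    rw [mem_filter] at hz
    have h1 := Int.emod_nonneg z.re hM0.ne'
    have h2 := Int.emod_lt_of_pos z.re hM0
    have h3 := Int.emod_nonneg z.im hM0.ne'
    have h4 := Int.emod_lt_of_pos z.im hM0
    rw [mem_filter, mem_product, mem_range, mem_range]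
    refine ⟨⟨by simp only; omega, by simp only; omega⟩, ?_⟩
    refine (hP z _ ?_).1 hz.2
    rw [natCast_dvd]
    constructor
    · simp only [QuadraticAlgebra.re_sub, gz]
      rw [Int.toNat_of_nonneg h1]
      exact Int.dvd_self_sub_emod
    · simp only [QuadraticAlgebra.im_sub, gz]
      rw [Int.toNat_of_nonneg h3]
      exact Int.dvd_self_sub_emod
  rw [← Finset.sum_fiberwise_of_maps_to hmap]
  refine sum_congr rfl fun s hs => sum_congr ?_ fun _ _ => rfl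
  rw [mem_filter, mem_product, mem_range, mem_range] at hs
  ext z
  unfold cb
  rw [mem_filter, mem_filter, mem_filter]
  have key : ∀ (x : ℤ) (s : ℕ), s < M → ((x % M).toNat = s ↔ (M : ℤ) ∣ x - s) := by
    intro x s hs
    have hs' : ((s:ℤ) % M) = s := Int.emod_eq_of_lt (by omega) (by exact_mod_cast hs)
    constructor
    · intro h2
      have h3 : x % M = s := by
        have := Int.emod_nonneg x hM0.ne'
        omega
      exact Int.dvd_of_emod_eq_zero (Int.emod_eq_emod_iff_emod_sub_eq_zero.1 (by rw [h3, hs']))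
    · intro h2
      have h3 : x % M = (s:ℤ) % M := (Int.emod_eq_emod_iff_emod_sub_eq_zero).2
        (Int.emod_eq_zero_of_dvd h2)
      rw [h3, hs']
      simp
  have hiff : (((z.re % M).toNat, (z.im % M).toNat) = s) ↔ (M : Gi) ∣ z - gz s := by
    rw [natCast_dvd]
    obtain ⟨s1, s2⟩ := s
    rw [Prod.mk.injEq, key _ _ hs.1.1, key _ _ hs.1.2]
    rfl
  constructor
  · rintro ⟨⟨h1, -⟩, h2⟩
    exact ⟨h1, hiff.1 h2⟩
  · rintro ⟨h1, h2⟩
    exact ⟨⟨h1, (hP _ _ h2).2 hs.2⟩, hiff.2 h2⟩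

end Pool.Agent.T2H34
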