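import Pool.Agent.W573.GA.Ele3
import Pool.Agent.W84.FP.Defs

/-!
Sparse systems of elements: `Pool.Agent.W573.GA.ele` with few primes.
-/

set_option autoImplicit false

namespace Pool.Agent.T2H34

open Finset
open Pool.Agent.W78.GA Pool.Agent.W573.GA
open Pool.Agent.H970R2.X (P1 rich_ap mmp)

/-- the set `P` is sparse: in every block the sum of the reciprocals is at most `w` -/
def Spa (P : ℕ → Prop) (w : ℝ) : Prop := ∀ (j : ℕ) (s : Finset ℕ),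
  (∀ p ∈ s, P p ∧ (2 : ℝ) ^ j ≤ Real.log p ∧ Real.log p < (2 : ℝ) ^ (j + 1)) →
  ∑ p ∈ s, 1 / (p : ℝ) ≤ w

lemma prune (f : ℕ → ℝ) (w : ℝ) (hw : 0 < w) (S : Finset ℕ)
    (hf : ∀ x ∈ S, 0 ≤ f x ∧ f x ≤ w) : w ≤ ∑ x ∈ S, f x →
    ∃ A ⊆ S, w ≤ ∑ x ∈ A, f x ∧ ∑ x ∈ A, f x ≤ 2 * w := by
  induction S using Finset.induction_on with
  | empty =>
    intro h
    rw [sum_empty] at h
    linarith
  | insert x S hx ih =>
    intro h
    have hfx := hf x (mem_insert_self x S)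
    by_cases hS : w ≤ ∑ y ∈ S, f y
    · obtain ⟨A, hA, h1, h2⟩ := ih (fun y hy => hf y (mem_insert_of_mem hy)) hS
      exact ⟨A, hA.trans (subset_insert x S), h1, h2⟩
    · refine ⟨insert x S, subset_rfl, h, ?_⟩
      rw [sum_insert hx]
      push Not at hS
      linarith

lemma block2 {T : Type*} [DecidableEq T] (P : ℕ → Prop) (c : ℝ) (hc : 0 < c) (v₀ : ℕ)
    (h : ∀ v : ℕ, v₀ ≤ v → c / v ≤ mmp P 1 v) (B₀ : ℕ) (τ : ℕ → T) (U : Finset T)
    (hU : ∀ p : ℕ, p.Prime → P p → B₀ < p → τ p ∈ U) (w₁ : ℝ) (hw₁ : 0 < w₁) :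
    ∃ w : ℝ, 0 < w ∧ ∃ j₀ : ℕ, ∀ j : ℕ, j₀ ≤ j → ∃ A B : Finset ℕ,
      (∀ p : ℕ, p ∈ A ∨ p ∈ B → p.Prime ∧ P p ∧ B₀ < p ∧ (2 : ℝ) ^ j ≤ Real.log p ∧
        Real.log p < (2 : ℝ) ^ (j + 1)) ∧ Disjoint A B ∧ (∀ p ∈ A, ∀ q ∈ B, τ p = τ q) ∧
      w ≤ ∑ p ∈ A, 1 / (p : ℝ) ∧ w ≤ ∑ p ∈ B, 1 / (p : ℝ) ∧
      ∑ p ∈ A, 1 / (p : ℝ) ≤ w₁ ∧ ∑ p ∈ B, 1 / (p : ℝ) ≤ w₁ := by
  obtain ⟨w, hw, j₀, hj₀⟩ := block P c hc v₀ h B₀ τ U hU
  set w' := min w (w₁ / 2) with hw'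
  have hw'0 : 0 < w' := lt_min hw (by positivity)
  obtain ⟨j₁, hj₁⟩ := exists_nat_gt (1 / w')
  refine ⟨w', hw'0, j₀ + j₁, fun j hj => ?_⟩
  obtain ⟨A, B, h1, h2, h3, h4, h5⟩ := hj₀ j (by omega)
  have hjpow : j < 2 ^ j := Nat.lt_two_pow_self
  have hjR : (j : ℝ) < 2 ^ j := by exact_mod_cast hjpow
  have hsmall : ∀ p : ℕ, p ∈ A ∨ p ∈ B → 0 ≤ 1 / (p : ℝ) ∧ 1 / (p : ℝ) ≤ w' := by
    intro p hp
    obtain ⟨g1, -, -, g4, -⟩ := h1 p hp
    have hp0 : (0 : ℝ) < p := by exact_mod_cast g1.pos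
    refine ⟨by positivity, ?_⟩
    have h7 : Real.log p ≤ p := (Real.log_le_sub_one_of_pos hp0).trans (by linarith)
    have h8 : (j₁ : ℝ) ≤ j := by exact_mod_cast (by omega : j₁ ≤ j)
    have h9 : 1 / w' ≤ p := by linarith
    rw [div_le_iff₀ hw'0] at h9
    rw [div_le_iff₀ hp0]
    linarith
  obtain ⟨A', hA', a1, a2⟩ := prune (fun p => 1 / (p : ℝ)) w' hw'0 A
    (fun p hp => hsmall p (Or.inl hp)) ((min_le_left _ _).trans h4)
  obtain ⟨B', hB', b1, b2⟩ := prune (fun p => 1 / (p : ℝ)) w' hw'0 B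
    (fun p hp => hsmall p (Or.inr hp)) ((min_le_left _ _).trans h5)
  have hle : 2 * w' ≤ w₁ := by
    have : w' ≤ w₁ / 2 := min_le_right _ _
    linarith
  refine ⟨A', B', ?_, ?_, ?_, a1, b1, a2.trans hle, b2.trans hle⟩
  · rintro p (hp | hp)
    · exact h1 p (Or.inl (hA' hp))
    · exact h1 p (Or.inr (hB' hp))
  · exact Finset.disjoint_of_subset_left hA' (Finset.disjoint_of_subset_right hB' h2)
  · intro p hp q hq
    exact h3 p (hA' hp) q (hB' hq)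

variable {t c : ℤ}

theorem ele2 (hD : t ^ 2 < 4 * c) (w₁ : ℝ) (hw₁ : 0 < w₁) :
    ∃ (Ap Bp M : ℕ → Prop) (E : ℕ) (ρ : ℕ → ℤ) (ϖ : ℕ → Qd t c), Ele t c Ap Bp M E ρ ϖ ∧
      Spa (fun p => Ap p ∨ Bp p) (2 * w₁) := by
  classical
  set Dn := (t ^ 2 - 4 * c).natAbs with hDn
  set B₀ := 1 + t.natAbs + c.natAbs with hB₀
  have hDn1 : 1 ≤ Dn := by
    rw [hDn]
    have : t ^ 2 - 4 * c ≠ 0 := by omega
    exact Int.natAbs_pos.2 this
  obtain ⟨cc, hcc, -, hR⟩ := rich_ap (4 * Dn) (by omega)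
  obtain ⟨v₀, hv₀⟩ := hR 1 le_rfl
  have hP1 : ∀ p : ℕ, P1 (4 * Dn) p → p % (4 * Dn) = 1 := by
    intro p hp
    unfold P1 at hp
    rw [hp]
    exact Nat.mod_eq_of_lt (by omega)
  have hdata : ∀ p : ℕ, ∃ (r : ℤ) (z : Qd t c) (a : ℕ), p.Prime → P1 (4 * Dn) p →
      ((p : ℤ) ∣ r ^ 2 - t * r + c ∧ lat p r z ∧ nm z = p * a ∧ 1 ≤ a ∧ a ≤ B₀) := by
    intro p
    by_cases hp : p.Prime ∧ P1 (4 * Dn) p
    · obtain ⟨r, hr⟩ := root_exists hD hp.1 (hP1 p hp.2)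
      obtain ⟨z, a, h1, h2, h3, h4⟩ := zp_exists hD hp.1 hr
      exact ⟨r, z, a, fun _ _ => ⟨hr, h1, h2, h3, h4⟩⟩
    · exact ⟨0, 0, 0, fun h1 h2 => absurd ⟨h1, h2⟩ hp⟩
  choose r z a hrza using hdata
  obtain ⟨w, hw, j₀, hblock⟩ := block2 (P1 (4 * Dn)) cc hcc v₀ hv₀ (max B₀ (4 * Dn))
    (fun p => (a p, ((z p).re % (a p : ℤ)).toNat, ((z p).im % (a p : ℤ)).toNat))
    (range (B₀ + 1) ×ˢ range (B₀ + 1) ×ˢ range (B₀ + 1)) (by
      intro p hp hp1 _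
      obtain ⟨-, -, -, h1, h2⟩ := hrza p hp hp1
      have ha0 : (0 : ℤ) < a p := by exact_mod_cast h1
      have hh : ∀ x : ℤ, (x % (a p : ℤ)).toNat < B₀ + 1 := by
        intro x
        have h3 := Int.emod_lt_of_pos x ha0
        have h4 := Int.emod_nonneg x ha0.ne'
        omega
      rw [mem_product, mem_product, mem_range, mem_range, mem_range]
      exact ⟨Nat.lt_succ_of_le h2, hh _, hh _⟩) w₁ hw₁
  choose! A B hAB hdisj htype hAw hBw hAu hBu using hblock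
  -- facts on the primes in the blocks
  have hfacts : ∀ j, j₀ ≤ j → ∀ p : ℕ, p ∈ A j ∨ p ∈ B j → p.Prime ∧ 5 ≤ p ∧
      ¬ (p : ℤ) ∣ t ^ 2 - 4 * c ∧ Nat.Coprime p (a p) ∧ 1 ≤ a p ∧
      (p : ℤ) ∣ r p ^ 2 - t * r p + c ∧ lat p (r p) (z p) ∧ nm (z p) = p * a p := by
    intro j hj p hp
    obtain ⟨h1, h2, h3, -, -⟩ := hAB j hj p hp
    obtain ⟨g1, g2, g3, g4, g5⟩ := hrza p h1 h2
    have h4 : 4 * Dn < p := lt_of_le_of_lt (le_max_right _ _) h3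
    have h5 : B₀ < p := lt_of_le_of_lt (le_max_left _ _) h3
    refine ⟨h1, by omega, ?_, ?_, g4, g1, g2, g3⟩
    · intro h
      have h6 : p ∣ Dn := by
        rw [hDn]
        exact Int.natCast_dvd.1 h
      have := Nat.le_of_dvd (by omega) h6
      omega
    · rw [Nat.Prime.coprime_iff_not_dvd h1]
      intro h
      have := Nat.le_of_dvd (by omega) h
      omega
  have hjeq : ∀ j k : ℕ, j₀ ≤ j → j₀ ≤ k → ∀ p : ℕ, (p ∈ A j ∨ p ∈ B j) → (p ∈ A k ∨ p ∈ B k) →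
      j = k := by
    intro j k hj hk p hp hp'
    obtain ⟨-, -, -, h1, h2⟩ := hAB j hj p hp
    obtain ⟨-, -, -, h3, h4⟩ := hAB k hk p hp'
    have h5 : (2 : ℝ) ^ j < 2 ^ (k + 1) := by linarith
    have h6 : (2 : ℝ) ^ k < 2 ^ (j + 1) := by linarith
    have h7 : j < k + 1 := (pow_lt_pow_iff_right₀ (by norm_num : (1:ℝ) < 2)).1 h5
    have h8 : k < j + 1 := (pow_lt_pow_iff_right₀ (by norm_num : (1:ℝ) < 2)).1 h6
    omega
  set Ap : ℕ → Prop := fun p => ∃ j, j₀ ≤ j ∧ p ∈ A j with hAp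
  set Bp : ℕ → Prop := fun p => ∃ j, j₀ ≤ j ∧ p ∈ B j with hBp
  set M : ℕ → Prop := fun m => ∃ j, j₀ ≤ j ∧ ∃ p ∈ A j, ∃ q ∈ B j, m = p * q with hM
  have hdisjAB : ∀ p, Ap p → ¬ Bp p := by
    rintro p ⟨j, hj, hp⟩ ⟨k, hk, hp'⟩
    have := hjeq j k hj hk p (Or.inl hp) (Or.inr hp')
    subst this
    exact Finset.disjoint_left.1 (hdisj j hj) hp hp'
  set ρ₀ : ℕ → ℤ := fun p => if Ap p then r p else t - r p with hρ₀
  have hQ : ∀ p : ℕ, (Ap p ∨ Bp p) → p.Prime ∧ (p : ℤ) ∣ ρ₀ p ^ 2 - t * ρ₀ p + c ∧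
      ¬ (p : ℤ) ∣ t ^ 2 - 4 * c := by
    intro p hp
    have key : ∃ j, j₀ ≤ j ∧ (p ∈ A j ∨ p ∈ B j) := by
      rcases hp with ⟨j, hj, h⟩ | ⟨j, hj, h⟩
      · exact ⟨j, hj, Or.inl h⟩
      · exact ⟨j, hj, Or.inr h⟩
    obtain ⟨j, hj, h⟩ := key
    obtain ⟨h1, -, h3, -, -, h6, -, -⟩ := hfacts j hj p h
    refine ⟨h1, ?_, h3⟩
    simp only [hρ₀]
    split_ifs
    · exact h6
    · exact root_conj h6
  have hex := rho_exists ρ₀ (fun p => Ap p ∨ Bp p) hQ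
  set ρ : ℕ → ℤ := fun d => if h : Sm Ap Bp d then (hex d h.1 h.2).choose else 0 with hρ
  have hρ1 : ∀ d, Sm Ap Bp d → (d : ℤ) ∣ ρ d ^ 2 - t * ρ d + c ∧
      ∀ p : ℕ, p.Prime → p ∣ d → (p : ℤ) ∣ ρ d - ρ₀ p := by
    intro d h
    have e : ρ d = (hex d h.1 h.2).choose := by simp only [hρ]; rw [dif_pos h]
    rw [e]
    exact (hex d h.1 h.2).choose_spec
  have hvex : ∀ m, ∃ v : Qd t c, M m → nm v = m ∧ lat m (ρ m) v := by
    intro m
    by_cases hm : M m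
    swap
    · exact ⟨0, fun h => absurd h hm⟩
    obtain ⟨j, hj, p, hp, q, hq, rfl⟩ := hm
    obtain ⟨p1, p2, p3, p4, p5, p6, p7, p8⟩ := hfacts j hj p (Or.inl hp)
    obtain ⟨q1, q2, q3, q4, q5, q6, q7, q8⟩ := hfacts j hj q (Or.inr hq)
    have hty := htype j hj p hp q hq
    simp only [Prod.mk.injEq] at hty
    obtain ⟨t1, t2, t3⟩ := hty
    have ha0 : (0 : ℤ) < a p := by exact_mod_cast p5
    rw [← t1] at t2 t3 q4 q8
    have d1 : (a p : ℤ) ∣ (z p).re - (z q).re := by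
      have h1 := Int.emod_nonneg (z p).re ha0.ne'
      have h2 := Int.emod_nonneg (z q).re ha0.ne'
      have h3 : (z p).re % (a p : ℤ) = (z q).re % (a p : ℤ) := by omega
      exact Int.ModEq.dvd (show (z q).re ≡ (z p).re [ZMOD (a p : ℤ)] from h3.symm)
    have d2 : (a p : ℤ) ∣ (z p).im - (z q).im := by
      have h1 := Int.emod_nonneg (z p).im ha0.ne'
      have h2 := Int.emod_nonneg (z q).im ha0.ne'
      have h3 : (z p).im % (a p : ℤ) = (z q).im % (a p : ℤ) := by omega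
      exact Int.ModEq.dvd (show (z q).im ≡ (z p).im [ZMOD (a p : ℤ)] from h3.symm)
    obtain ⟨v, hv1, hv2, hv3⟩ := prod_elem hD p5 p4 q4 p6 q6 p7 q7 p8 q8 d1 d2
    refine ⟨v, fun _ => ⟨hv1, ?_⟩⟩
    have hAq : Ap p := ⟨j, hj, hp⟩
    have hBq : Bp q := ⟨j, hj, hq⟩
    have hSm : Sm Ap Bp (p * q) := by
      refine ⟨Nat.mul_ne_zero p1.ne_zero q1.ne_zero, ?_⟩
      intro l hl hld
      rcases (Nat.Prime.dvd_mul hl).1 hld with h | h
      · rw [(Nat.prime_dvd_prime_iff_eq hl p1).1 h]; exact Or.inl hAq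
      · rw [(Nat.prime_dvd_prime_iff_eq hl q1).1 h]; exact Or.inr hBq
    obtain ⟨-, hr2⟩ := hρ1 _ hSm
    have e1 := hr2 p p1 (dvd_mul_right p q)
    have e2 := hr2 q q1 (dvd_mul_left q p)
    have e3 : ρ₀ p = r p := by simp only [hρ₀]; rw [if_pos hAq]
    have e4 : ρ₀ q = t - r q := by
      simp only [hρ₀]; rw [if_neg (fun h => hdisjAB q h hBq)]
    rw [e3] at e1
    rw [e4] at e2
    have f1 : (p : ℤ) ∣ v.re + ρ (p * q) * v.im := by
      have : v.re + ρ (p * q) * v.im = (v.re + r p * v.im) + (ρ (p * q) - r p) * v.im := by ring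
      rw [this]
      exact dvd_add hv2 (e1.mul_right _)
    have f2 : (q : ℤ) ∣ v.re + ρ (p * q) * v.im := by
      have : v.re + ρ (p * q) * v.im = (v.re + (t - r q) * v.im) +
        (ρ (p * q) - (t - r q)) * v.im := by ring
      rw [this]
      exact dvd_add hv3 (e2.mul_right _)
    have hne : p ≠ q := by
      rintro rfl
      exact hdisjAB p hAq hBq
    have hcop : IsCoprime (p : ℤ) (q : ℤ) := by
      rw [Nat.isCoprime_iff_coprime]
      exact (Nat.coprime_primes p1 q1).2 hne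
    show ((p * q : ℕ) : ℤ) ∣ v.re + ρ (p * q) * v.im
    push_cast
    exact hcop.mul_dvd f1 f2
  choose ϖ hϖ using hvex
  refine ⟨Ap, Bp, M, 2, ρ, ϖ, ?_, ?_⟩
  swap
  · intro j s hs
    have hsub : s ⊆ if j₀ ≤ j then A j ∪ B j else ∅ := by
      intro p hp
      obtain ⟨h1, h2, h3⟩ := hs p hp
      have key : ∃ k, j₀ ≤ k ∧ (p ∈ A k ∨ p ∈ B k) := by
        rcases h1 with ⟨k, hk, h⟩ | ⟨k, hk, h⟩
        · exact ⟨k, hk, Or.inl h⟩
        · exact ⟨k, hk, Or.inr h⟩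
      obtain ⟨k, hk, h⟩ := key
      obtain ⟨-, -, -, g4, g5⟩ := hAB k hk p h
      have h5 : (2 : ℝ) ^ j < 2 ^ (k + 1) := by linarith
      have h6 : (2 : ℝ) ^ k < 2 ^ (j + 1) := by linarith
      have h7 : j < k + 1 := (pow_lt_pow_iff_right₀ (by norm_num : (1:ℝ) < 2)).1 h5
      have h8 : k < j + 1 := (pow_lt_pow_iff_right₀ (by norm_num : (1:ℝ) < 2)).1 h6
      have h9 : k = j := by omega
      subst h9
      rw [if_pos hk, mem_union]
      exact h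
    by_cases hj : j₀ ≤ j
    · rw [if_pos hj] at hsub
      have e1 := sum_le_sum_of_subset_of_nonneg (f := fun p : ℕ => 1 / (p : ℝ)) hsub
        (fun _ _ _ => by positivity)
      have e2 : ∑ p ∈ A j ∪ B j, 1 / (p : ℝ) = ∑ p ∈ A j, 1 / (p : ℝ) + ∑ p ∈ B j, 1 / (p : ℝ) :=
        sum_union (hdisj j hj)
      have e3 := hAu j hj
      have e4 := hBu j hj
      rw [e2] at e1
      linarith
    · rw [if_neg hj] at hsub
      rw [subset_empty.1 hsub, sum_empty]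
      positivity
  refine
    { pos := by norm_num
      prA := ?_
      prB := ?_
      disj := hdisjAB
      fac := ?_
      root := fun d hd => (hρ1 d hd).1
      compat := ?_
      elt := hϖ
      rich := ?_ }
  · rintro p ⟨j, hj, hp⟩
    obtain ⟨h1, h2, h3, -⟩ := hfacts j hj p (Or.inl hp)
    exact ⟨h1, h2, h3⟩
  · rintro p ⟨j, hj, hp⟩
    obtain ⟨h1, h2, h3, -⟩ := hfacts j hj p (Or.inr hp)
    exact ⟨h1, h2, h3⟩
  · rintro m ⟨j, hj, p, hp, q, hq, rfl⟩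
    refine ⟨p, q, ⟨j, hj, hp⟩, ⟨j, hj, hq⟩, rfl, ?_, ?_⟩
    · obtain ⟨h1, -, -, h4, h5⟩ := hAB j hj p (Or.inl hp)
      obtain ⟨g1, -, -, g4, g5⟩ := hAB j hj q (Or.inr hq)
      have hp0 : (0 : ℝ) < p := by exact_mod_cast h1.pos
      have hq0 : (0 : ℝ) < q := by exact_mod_cast g1.pos
      have : Real.log p ≤ Real.log ((q : ℝ) ^ 2) := by
        rw [Real.log_pow]
        push_cast
        rw [pow_succ] at h5
        linarith
      have := (Real.log_le_log_iff hp0 (by positivity)).1 this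
      exact_mod_cast this
    · obtain ⟨h1, -, -, h4, h5⟩ := hAB j hj p (Or.inl hp)
      obtain ⟨g1, -, -, g4, g5⟩ := hAB j hj q (Or.inr hq)
      have hp0 : (0 : ℝ) < p := by exact_mod_cast h1.pos
      have hq0 : (0 : ℝ) < q := by exact_mod_cast g1.pos
      have : Real.log q ≤ Real.log ((p : ℝ) ^ 2) := by
        rw [Real.log_pow]
        push_cast
        rw [pow_succ] at g5
        linarith
      have := (Real.log_le_log_iff hq0 (by positivity)).1 this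
      exact_mod_cast this
  · intro d e he hde
    have hd : Sm Ap Bp d := by
      refine ⟨fun h => he.1 (by rw [h] at hde; exact Nat.eq_zero_of_zero_dvd hde), ?_⟩
      intro p hp hpd
      exact he.2 p hp (hpd.trans hde)
    obtain ⟨h1, h2⟩ := hρ1 d hd
    obtain ⟨h3, h4⟩ := hρ1 e he
    refine rho_unique ρ₀ (fun p hp hpd => (hQ p (hd.2 p hp hpd)).2) ?_ h1 ?_ h2
    · exact (Int.natCast_dvd_natCast.2 hde).trans h3
    · intro p hp hpd
      exact h4 p hp (hpd.trans hde)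
  · refine rich_of M A B j₀ w hw ?_ hdisj hAw hBw ?_
    · intro j hj p hp
      obtain ⟨h1, -, -, h4, h5⟩ := hAB j hj p hp
      exact ⟨h1, h4, h5⟩
    · intro j hj p hp q hq
      exact ⟨j, hj, p, hp, q, hq, rfl⟩

open Pool.Agent.W84.FP (Gi c1)

theorem eleq2 (q : ℕ) (hq : 1 ≤ q) (h4q : 4 ∣ q) (w₁ : ℝ) (hw₁ : 0 < w₁) :
    ∃ (Ap Bp M : ℕ → Prop) (E : ℕ) (ρ : ℕ → ℤ) (ϖ : ℕ → Gi), Ele 0 1 Ap Bp M E ρ ϖ ∧
    (∀ p, Ap p ∨ Bp p → Nat.Coprime p q ∧ p % 4 = 1) ∧ (∀ m, M m → c1 q (ϖ m)) ∧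
    Spa (fun p => Ap p ∨ Bp p) (2 * w₁) := by
  have hq0 : (0 : ℤ) < q := by exact_mod_cast hq
  obtain ⟨Ap, Bp, M, E, ρ, ϖ, hE, hspa⟩ := ele2 (t := 0) (c := (q : ℤ) ^ 2)
    (by positivity) w₁ hw₁
  -- primes
  have hpr : ∀ p, Ap p ∨ Bp p → p.Prime ∧ 5 ≤ p ∧ Nat.Coprime p q := by
    intro p hp
    have h : p.Prime ∧ 5 ≤ p ∧ ¬ (p : ℤ) ∣ 0 ^ 2 - 4 * (q : ℤ) ^ 2 := by
      rcases hp with h | h
      · exact hE.prA p h
      · exact hE.prB p h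
    refine ⟨h.1, h.2.1, (Nat.Prime.coprime_iff_not_dvd h.1).mpr ?_⟩
    intro h1
    apply h.2.2
    have h2 : (p : ℤ) ∣ (q : ℤ) := by exact_mod_cast h1
    have e : (0 : ℤ) ^ 2 - 4 * (q : ℤ) ^ 2 = q * (-4 * q) := by ring
    rw [e]
    exact h2.mul_right _
  have hcopd : ∀ d, Sm Ap Bp d → Nat.Coprime q d := by
    intro d hd
    rw [Nat.coprime_comm]
    apply Nat.Coprime.symm
    apply Nat.coprime_of_dvd
    intro k hk h1 h2
    have h3 := (hpr k (hd.2 k hk h2)).2.2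
    have := Nat.eq_one_of_dvd_coprimes h3 dvd_rfl h1
    exact hk.one_lt.ne' this
  let inv : ℕ → ℤ := fun d => Nat.gcdA q d
  have hinv : ∀ d, Nat.Coprime q d → (d : ℤ) ∣ q * inv d - 1 := by
    intro d hd
    have h := Nat.gcd_eq_gcd_ab q d
    rw [hd] at h
    refine ⟨-Nat.gcdB q d, ?_⟩
    push_cast at h
    simp only [inv]
    linear_combination -h
  let ρ' : ℕ → ℤ := fun d => ρ d * inv d
  have hρ' : ∀ d, Nat.Coprime q d → (d : ℤ) ∣ q * ρ' d - ρ d := by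
    intro d hd
    have e : (q : ℤ) * ρ' d - ρ d = ρ d * (q * inv d - 1) := by simp only [ρ']; ring
    rw [e]
    exact (hinv d hd).mul_left _
  have hcopZ : ∀ d, Nat.Coprime q d → IsCoprime (d : ℤ) (q : ℤ) := fun d hd =>
    (Nat.isCoprime_iff_coprime.mpr hd).symm
  -- root
  have hroot : ∀ d, Sm Ap Bp d → (d : ℤ) ∣ ρ' d ^ 2 - 0 * ρ' d + 1 := by
    intro d hd
    have hc := hcopd d hd
    have h1 := hE.root d hd
    have h2 : (d : ℤ) ∣ (q : ℤ) ^ 2 * (ρ' d ^ 2 - 0 * ρ' d + 1) := by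
      have e : (q : ℤ) ^ 2 * (ρ' d ^ 2 - 0 * ρ' d + 1) =
          (ρ d ^ 2 - 0 * ρ d + (q : ℤ) ^ 2) + (q * ρ' d - ρ d) * (q * ρ' d + ρ d) := by ring
      rw [e]
      exact dvd_add h1 ((hρ' d hc).mul_right _)
    exact ((hcopZ d hc).pow_right).dvd_of_dvd_mul_left h2
  have hSmdvd : ∀ d e, Sm Ap Bp e → d ∣ e → Sm Ap Bp d := fun d e he hde =>
    ⟨ne_zero_of_dvd_ne_zero he.1 hde, fun p hp hpd => he.2 p hp (hpd.trans hde)⟩
  have hcompat : ∀ d e, Sm Ap Bp e → d ∣ e → (d : ℤ) ∣ ρ' e - ρ' d := by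
    intro d e he hde
    have hd := hSmdvd d e he hde
    have h1 := hE.compat d e he hde
    have h2 : (d : ℤ) ∣ q * ρ' e - ρ e :=
      (Int.natCast_dvd_natCast.mpr hde).trans (hρ' e (hcopd e he))
    have h3 := hρ' d (hcopd d hd)
    have h4 : (d : ℤ) ∣ (q : ℤ) * (ρ' e - ρ' d) := by
      have e1 : (q : ℤ) * (ρ' e - ρ' d) = (q * ρ' e - ρ e) + (ρ e - ρ d) - (q * ρ' d - ρ d) := by
        ring
      rw [e1]
      exact dvd_sub (dvd_add h2 h1) h3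
    exact (hcopZ d (hcopd d hd)).dvd_of_dvd_mul_left h4
  -- the elements
  let s : ℕ → ℤ := fun m => if (ϖ m).re % 4 = 1 then 1 else -1
  have hs : ∀ m, s m * s m = 1 := by
    intro m
    simp only [s]
    split_ifs <;> norm_num
  let ϖ' : ℕ → Gi := fun m => ⟨s m * (ϖ m).re, s m * ((q : ℤ) * (ϖ m).im)⟩
  have hM : ∀ m, M m → Sm Ap Bp m ∧ m % 2 = 1 := by
    intro m hm
    obtain ⟨p, p', hp, hp', rfl, -, -⟩ := hE.fac m hm
    have h1 := hpr p (Or.inl hp)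
    have h2 := hpr p' (Or.inr hp')
    refine ⟨⟨Nat.mul_ne_zero h1.1.ne_zero h2.1.ne_zero, ?_⟩, ?_⟩
    · intro l hl hld
      rcases (Nat.Prime.dvd_mul hl).1 hld with h | h
      · rw [(Nat.prime_dvd_prime_iff_eq hl h1.1).1 h]; exact Or.inl hp
      · rw [(Nat.prime_dvd_prime_iff_eq hl h2.1).1 h]; exact Or.inr hp'
    · have o1 := h1.1.odd_of_ne_two (by omega)
      have o2 := h2.1.odd_of_ne_two (by omega)
      exact Nat.odd_iff.mp (o1.mul o2)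
  have hnm : ∀ m, M m → (ϖ m).re ^ 2 + (q : ℤ) ^ 2 * (ϖ m).im ^ 2 = m := by
    intro m hm
    have h := (hE.elt m hm).1
    unfold nm at h
    have e : (ϖ m).re ^ 2 + 0 * (ϖ m).re * (ϖ m).im + (q : ℤ) ^ 2 * (ϖ m).im ^ 2 =
        (ϖ m).re ^ 2 + (q : ℤ) ^ 2 * (ϖ m).im ^ 2 := by ring
    rw [e] at h
    have h0 : (0 : ℤ) ≤ (ϖ m).re ^ 2 + (q : ℤ) ^ 2 * (ϖ m).im ^ 2 := by positivity
    have h5 : ((((ϖ m).re ^ 2 + (q : ℤ) ^ 2 * (ϖ m).im ^ 2).natAbs : ℕ) : ℤ) = m := by rw [h]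
    rwa [Int.natCast_natAbs, abs_of_nonneg h0] at h5
  have h4s : ∀ m, M m → (4 : ℤ) ∣ s m * (ϖ m).re - 1 := by
    intro m hm
    obtain ⟨k, hk⟩ := h4q
    have h1 := hnm m hm
    have h2 := (hM m hm).2
    have hodd : (ϖ m).re % 2 = 1 := by
      rcases Int.emod_two_eq_zero_or_one (ϖ m).re with h | h
      · exfalso
        obtain ⟨j, hj⟩ : ∃ j, (ϖ m).re = 2 * j := ⟨(ϖ m).re / 2, by omega⟩
        have hkZ : (q : ℤ) = 4 * k := by exact_mod_cast hk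
        have h5 : (m : ℤ) = 2 * (2 * j ^ 2 + 2 * k * q * (ϖ m).im ^ 2) := by
          linear_combination -h1 + (q : ℤ) * (ϖ m).im ^ 2 * hkZ + ((ϖ m).re + 2 * j) * hj
        omega
      · exact h
    simp only [s]
    split_ifs with h
    · omega
    · omega
  refine ⟨Ap, Bp, M, E, ρ', ϖ', ?_, ?_, ?_, hspa⟩
  · refine
      { pos := hE.pos
        prA := ?_
        prB := ?_
        disj := hE.disj
        fac := hE.fac
        root := hroot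
        compat := hcompat
        elt := ?_
        rich := hE.rich }
    · intro p hp
      have h := hpr p (Or.inl hp)
      refine ⟨h.1, h.2.1, ?_⟩
      intro h1
      have h2 : (p : ℤ) ∣ ((4 : ℕ) : ℤ) := by
        have e : (0 : ℤ) ^ 2 - 4 * 1 = -((4 : ℕ) : ℤ) := by norm_num
        rw [e, dvd_neg] at h1
        exact h1
      have h3 := Nat.le_of_dvd (by norm_num) (Int.natCast_dvd_natCast.mp h2)
      omega
    · intro p hp
      have h := hpr p (Or.inr hp)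
      refine ⟨h.1, h.2.1, ?_⟩
      intro h1
      have h2 : (p : ℤ) ∣ ((4 : ℕ) : ℤ) := by
        have e : (0 : ℤ) ^ 2 - 4 * 1 = -((4 : ℕ) : ℤ) := by norm_num
        rw [e, dvd_neg] at h1
        exact h1
      have h3 := Nat.le_of_dvd (by norm_num) (Int.natCast_dvd_natCast.mp h2)
      omega
    · intro m hm
      have h1 := hnm m hm
      constructor
      · unfold nm
        have e : (ϖ' m).re ^ 2 + 0 * (ϖ' m).re * (ϖ' m).im + 1 * (ϖ' m).im ^ 2 = (m : ℤ) := by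
          simp only [ϖ']
          have := hs m
          linear_combination ((ϖ m).re ^ 2 + (q : ℤ) ^ 2 * (ϖ m).im ^ 2) * this + h1
        rw [e]
        exact Int.natAbs_natCast m
      · have h2 := (hE.elt m hm).2
        unfold lat at h2 ⊢
        have e : (ϖ' m).re + ρ' m * (ϖ' m).im = s m * (((ϖ m).re + ρ m * (ϖ m).im) +
            (q * ρ' m - ρ m) * (ϖ m).im) := by
          simp only [ϖ']
          ring
        rw [e]
        exact (dvd_add h2 ((hρ' m (hcopd m (hM m hm).1)).mul_right _)).mul_left _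
  · intro p hp
    have h := hpr p hp
    refine ⟨h.2.2, ?_⟩
    have hSm : Sm Ap Bp p := by
      refine ⟨h.1.ne_zero, fun l hl hld => ?_⟩
      rw [(Nat.prime_dvd_prime_iff_eq hl h.1).1 hld]
      exact hp
    have h1 := hroot p hSm
    have : Fact p.Prime := ⟨h.1⟩
    have h2 : IsSquare (-1 : ZMod p) := by
      have h3 : ((ρ' p ^ 2 - 0 * ρ' p + 1 : ℤ) : ZMod p) = 0 :=
        (ZMod.intCast_zmod_eq_zero_iff_dvd _ _).mpr h1
      push_cast at h3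
      refine ⟨(ρ' p : ZMod p), ?_⟩
      linear_combination -h3
    have h3 := ZMod.exists_sq_eq_neg_one_iff.mp h2
    have h4 := Nat.odd_iff.mp (h.1.odd_of_ne_two (by omega))
    omega
  · intro m hm
    refine ⟨?_, ?_, h4s m hm⟩
    · exact ⟨s m * (ϖ m).im, by simp only [ϖ']; ring⟩
    · have h1 := hnm m hm
      have h2 : IsCoprime (m : ℤ) (q : ℤ) := hcopZ m (hcopd m (hM m hm).1)
      rw [← h1] at h2
      have h3 : IsCoprime ((ϖ m).re ^ 2 + (q : ℤ) * (q * (ϖ m).im ^ 2)) (q : ℤ) := by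
        convert h2 using 1
        ring
      have h4 : IsCoprime ((ϖ m).re ^ 2) (q : ℤ) := IsCoprime.of_add_mul_left_left h3
      have h5 : IsCoprime (ϖ m).re (q : ℤ) := (IsCoprime.pow_left_iff (by norm_num)).mp h4
      change IsCoprime (s m * (ϖ m).re) (q : ℤ)
      refine IsCoprime.mul_left ?_ h5
      exact ⟨s m, 0, by rw [zero_mul, add_zero]; exact hs m⟩

end Pool.Agent.T2H34
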