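import Pool.Agent.W251.EX.AllC

/-!
The averaging over the primes, for functions with values in the roots of unity and `0`, with a
centring which depends on the scale.
-/

set_option autoImplicit false

namespace Pool.Agent.T2H34

open Finset Filter
open Pool.Agent.W78.GA (Qd nm prim dt ip lat ball pball edge dedge)
open Pool.Agent.W78.EC (Gi cone cw PQ SP th good InG TT res av Tr)
open Pool.Agent.W251.EX
open Pool.Agent.W78.EC.Fx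
open Pool.Agent.W540.EC
open Pool.Agent.W214.EX (Vs wF norm_Vs S3 S3_congr S3_add S3_mul S3_real)

/-- labels -/
abbrev Lb (N : ℕ) : Type := ↥(Vs N) × ↥(Vs N) × ↥(Vs N)

theorem zero_memV (N : ℕ) : (0 : ℂ) ∈ Vs N := by
  unfold Vs
  exact mem_insert_self _ _

theorem mem_V {N : ℕ} (hN : 1 ≤ N) {x : ℂ} : x ∈ Vs N ↔ x = 0 ∨ x ^ N = 1 := by
  unfold Vs
  rw [mem_insert, Multiset.mem_toFinset, Polynomial.mem_nthRoots hN]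

theorem one_memV {N : ℕ} (hN : 1 ≤ N) : (1 : ℂ) ∈ Vs N := (mem_V hN).2 (Or.inr (one_pow N))

theorem normV {N : ℕ} (hN : 1 ≤ N) {x : ℂ} (hx : x ∈ Vs N) : ‖x‖ ≤ 1 := norm_Vs hN ⟨x, hx⟩

theorem wF_V {N : ℕ} {F : Gi → ℂ} (hF : ∀ z, F z ∈ Vs N) (s₁ s₂ X : ℝ) (z : Gi) :
    wF F s₁ s₂ X z ∈ Vs N := by
  unfold wF
  split_ifs
  · exact hF z
  · exact zero_memV N

/-- the labelling -/
noncomputable def lb3 {N : ℕ} (hN : 1 ≤ N) {F₁ F₂ : Gi → ℂ} (h1 : ∀ z, F₁ z ∈ Vs N)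
    (h2 : ∀ z, F₂ z ∈ Vs N) (s₁ s₂ s₃ s₄ X : ℝ) (z : Gi) : Lb N :=
  (⟨wF F₁ s₁ s₂ X z, wF_V h1 _ _ _ _⟩, ⟨wF F₂ s₃ s₄ X z, wF_V h2 _ _ _ _⟩,
    ⟨wF (fun _ => 1) s₃ s₄ X z, wF_V (fun _ => one_memV hN) _ _ _ _⟩)

/-- functions of the labels -/
def e1 {N : ℕ} (x : Lb N) : ℂ := (x.1 : ℂ)

def e2 {N : ℕ} (x : Lb N) : ℂ := (x.2.1 : ℂ)

def e3 {N : ℕ} (x : Lb N) : ℂ := (x.2.2 : ℂ)

/-- the function of the pair -/
noncomputable def G3 (F₁ F₂ : Gi → ℂ) (m s₁ s₂ s₃ s₄ X : ℝ) (v w : Gi) : ℂ :=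
  wF F₁ s₁ s₂ X v * (wF F₂ s₃ s₄ X w - (m : ℂ) * wF (fun _ => 1) s₃ s₄ X w)

theorem wF_le {N : ℕ} (hN : 1 ≤ N) {F : Gi → ℂ} (hF : ∀ z, F z ∈ Vs N) (s₁ s₂ X : ℝ) (z : Gi) :
    ‖wF F s₁ s₂ X z‖ ≤ 1 := normV hN (wF_V hF _ _ _ _)

theorem G3_le {N : ℕ} (hN : 1 ≤ N) {F₁ F₂ : Gi → ℂ} (h1 : ∀ z, F₁ z ∈ Vs N)
    (h2 : ∀ z, F₂ z ∈ Vs N) {m : ℝ} (hm : |m| ≤ 1) (s₁ s₂ s₃ s₄ X : ℝ) (v w : Gi) :
    ‖G3 F₁ F₂ m s₁ s₂ s₃ s₄ X v w‖ ≤ 2 := by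
  unfold G3
  rw [norm_mul]
  have a1 := wF_le hN h1 s₁ s₂ X v
  have a2 := wF_le hN h2 s₃ s₄ X w
  have a3 := wF_le hN (F := fun _ => (1 : ℂ)) (fun _ => one_memV hN) s₃ s₄ X w
  have a4 : ‖wF F₂ s₃ s₄ X w - (m : ℂ) * wF (fun _ => 1) s₃ s₄ X w‖ ≤ 2 := by
    refine (norm_sub_le _ _).trans ?_
    rw [norm_mul, Complex.norm_real, Real.norm_eq_abs]
    have a5 : |m| * ‖wF (fun _ => 1) s₃ s₄ X w‖ ≤ 1 * 1 :=
      mul_le_mul hm a3 (norm_nonneg _) zero_le_one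
    linarith
  calc _ ≤ (1 : ℝ) * 2 := mul_le_mul a1 a4 (norm_nonneg _) zero_le_one
    _ = 2 := one_mul 2

/-- the bilinear term -/
theorem bil3 {N : ℕ} (hN : 1 ≤ N) {F₁ F₂ : Gi → ℂ} (h1 : ∀ z, F₁ z ∈ Vs N)
    (h2 : ∀ z, F₂ z ∈ Vs N) (m : ℝ) {K : ℕ} {κ : ℝ} {Q : ℕ} {s₁ s₂ s₃ s₄ X ε₃ : ℝ}
    (hBr : ∀ α : Gi → ℝ, (∀ z, |α z| ≤ 1) → (∀ z, α z ≠ 0 → s₁ * X < (nm z : ℝ)) →
      |∑ e ∈ good K κ Q X, ∑ v ∈ cone X e.1 e.2, ∑ w ∈ cw X s₃ s₄ e.1 e.2,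
        α v * ((F₂ w).re - m) * th Q (dt v w)| ≤ ε₃)
    (hBi : ∀ α : Gi → ℝ, (∀ z, |α z| ≤ 1) → (∀ z, α z ≠ 0 → s₁ * X < (nm z : ℝ)) →
      |∑ e ∈ good K κ Q X, ∑ v ∈ cone X e.1 e.2, ∑ w ∈ cw X s₃ s₄ e.1 e.2,
        α v * (F₂ w).im * th Q (dt v w)| ≤ ε₃) :
    ‖∑ e ∈ good K κ Q X, ∑ v ∈ cone X e.1 e.2, ∑ w ∈ cone X e.1 e.2,
      e1 (lb3 hN h1 h2 s₁ s₂ s₃ s₄ X v) * (e2 (lb3 hN h1 h2 s₁ s₂ s₃ s₄ X w) -
        (m : ℂ) * e3 (lb3 hN h1 h2 s₁ s₂ s₃ s₄ X w)) * (th Q (dt v w) : ℂ)‖ ≤ 4 * ε₃ := by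
  classical
  obtain ⟨D, hD⟩ : ∃ D : Gi → ℂ, D = fun v => wF F₁ s₁ s₂ X v := ⟨_, rfl⟩
  have hDn : ∀ v, ‖D v‖ ≤ 1 := fun v => by rw [hD]; exact wF_le hN h1 _ _ _ _
  have hDw : ∀ v, D v ≠ 0 → s₁ * X < (nm v : ℝ) := by
    intro v hv
    by_contra hcon
    apply hv
    rw [hD]
    unfold wF
    exact if_neg (fun h : s₁ * X < (nm v : ℝ) ∧ (nm v : ℝ) ≤ s₂ * X => hcon h.1)
  obtain ⟨a, ha⟩ : ∃ a : Gi → ℝ, a = fun v => (D v).re := ⟨_, rfl⟩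
  obtain ⟨b, hb⟩ : ∃ b : Gi → ℝ, b = fun v => (D v).im := ⟨_, rfl⟩
  have ha1 : ∀ v, |a v| ≤ 1 := fun v => by
    rw [ha]; exact (Complex.abs_re_le_norm _).trans (hDn v)
  have hb1 : ∀ v, |b v| ≤ 1 := fun v => by
    rw [hb]; exact (Complex.abs_im_le_norm _).trans (hDn v)
  have ha2 : ∀ v, a v ≠ 0 → s₁ * X < (nm v : ℝ) := by
    intro v hv
    refine hDw v (fun h => hv ?_)
    rw [ha]; simp only; rw [h]; rfl
  have hb2 : ∀ v, b v ≠ 0 → s₁ * X < (nm v : ℝ) := by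
    intro v hv
    refine hDw v (fun h => hv ?_)
    rw [hb]; simp only; rw [h]; rfl
  have hDab : ∀ v, D v = (a v : ℂ) + Complex.I * (b v : ℂ) := by
    intro v
    rw [ha, hb]
    simp only
    rw [mul_comm]
    exact (Complex.re_add_im _).symm
  obtain ⟨r, hr⟩ : ∃ r : Gi → ℝ, r = fun z => (F₂ z).re - m := ⟨_, rfl⟩
  obtain ⟨i, hi⟩ : ∃ i : Gi → ℝ, i = fun z => (F₂ z).im := ⟨_, rfl⟩
  have hd2 : ∀ w, e2 (lb3 hN h1 h2 s₁ s₂ s₃ s₄ X w) -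
        (m : ℂ) * e3 (lb3 hN h1 h2 s₁ s₂ s₃ s₄ X w) =
      if s₃ * X < (nm w : ℝ) ∧ (nm w : ℝ) ≤ s₄ * X then (r w : ℂ) + Complex.I * (i w : ℂ)
        else 0 := by
    intro w
    have e0 : e2 (lb3 hN h1 h2 s₁ s₂ s₃ s₄ X w) -
        (m : ℂ) * e3 (lb3 hN h1 h2 s₁ s₂ s₃ s₄ X w) =
        wF F₂ s₃ s₄ X w - (m : ℂ) * wF (fun _ => 1) s₃ s₄ X w := rfl
    rw [e0]
    by_cases hw : s₃ * X < (nm w : ℝ) ∧ (nm w : ℝ) ≤ s₄ * X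
    · rw [if_pos hw]
      have k1 : wF F₂ s₃ s₄ X w = F₂ w := by unfold wF; exact if_pos hw
      have k2 : wF (fun _ => 1) s₃ s₄ X w = 1 := by unfold wF; exact if_pos hw
      rw [k1, k2, hr, hi]
      have k3 := Complex.re_add_im (F₂ w)
      push_cast
      linear_combination -k3
    · rw [if_neg hw]
      have k1 : wF F₂ s₃ s₄ X w = 0 := by unfold wF; exact if_neg hw
      have k2 : wF (fun _ => 1) s₃ s₄ X w = 0 := by unfold wF; exact if_neg hw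
      rw [k1, k2]
      ring
  have hmain : ∑ e ∈ good K κ Q X, ∑ v ∈ cone X e.1 e.2, ∑ w ∈ cone X e.1 e.2,
      e1 (lb3 hN h1 h2 s₁ s₂ s₃ s₄ X v) * (e2 (lb3 hN h1 h2 s₁ s₂ s₃ s₄ X w) -
        (m : ℂ) * e3 (lb3 hN h1 h2 s₁ s₂ s₃ s₄ X w)) * (th Q (dt v w) : ℂ) =
      S3 K κ Q X s₃ s₄ (fun v w => D v * ((r w : ℂ) + Complex.I * (i w : ℂ)) *
        (th Q (dt v w) : ℂ)) := by
    unfold S3
    refine sum_congr rfl fun e _ => sum_congr rfl fun v _ => ?_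
    unfold cw
    rw [sum_filter]
    refine sum_congr rfl fun w _ => ?_
    rw [hd2 w, hD]
    split_ifs with hw
    · rfl
    · simp
  rw [hmain]
  have hexp : S3 K κ Q X s₃ s₄ (fun v w => D v * ((r w : ℂ) + Complex.I * (i w : ℂ)) *
        (th Q (dt v w) : ℂ)) =
      ((S3 K κ Q X s₃ s₄ (fun v w => a v * r w * th Q (dt v w)) : ℝ) : ℂ) +
      (((-1 : ℂ) * ((S3 K κ Q X s₃ s₄ (fun v w => b v * i w * th Q (dt v w)) : ℝ) : ℂ)) +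
      (Complex.I * ((S3 K κ Q X s₃ s₄ (fun v w => a v * i w * th Q (dt v w)) : ℝ) : ℂ) +
      Complex.I * ((S3 K κ Q X s₃ s₄ (fun v w => b v * r w * th Q (dt v w)) : ℝ) : ℂ))) := by
    rw [← S3_real, ← S3_real, ← S3_real, ← S3_real, ← S3_mul, ← S3_mul, ← S3_mul, ← S3_add,
      ← S3_add, ← S3_add]
    refine S3_congr fun v w => ?_
    rw [hDab v]
    push_cast
    linear_combination ((b v : ℂ) * (i w : ℂ) * (th Q (dt v w) : ℂ)) * Complex.I_sq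
  rw [hexp]
  have k1 : ‖((S3 K κ Q X s₃ s₄ (fun v w => a v * r w * th Q (dt v w)) : ℝ) : ℂ)‖ ≤ ε₃ := by
    rw [Complex.norm_real, hr]; exact hBr a ha1 ha2
  have k2 : ‖(-1 : ℂ) * ((S3 K κ Q X s₃ s₄ (fun v w => b v * i w * th Q (dt v w)) : ℝ) : ℂ)‖ ≤
      ε₃ := by
    rw [norm_mul, norm_neg, norm_one, one_mul, Complex.norm_real, hi]; exact hBi b hb1 hb2
  have k3 : ‖Complex.I * ((S3 K κ Q X s₃ s₄ (fun v w => a v * i w * th Q (dt v w)) : ℝ) : ℂ)‖ ≤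
      ε₃ := by
    rw [norm_mul, Complex.norm_I, one_mul, Complex.norm_real, hi]; exact hBi a ha1 ha2
  have k4 : ‖Complex.I * ((S3 K κ Q X s₃ s₄ (fun v w => b v * r w * th Q (dt v w)) : ℝ) : ℂ)‖ ≤
      ε₃ := by
    rw [norm_mul, Complex.norm_I, one_mul, Complex.norm_real, hr]; exact hBr b hb1 hb2
  calc _ ≤ _ := norm_add_le _ _
    _ ≤ ε₃ + (ε₃ + (ε₃ + ε₃)) := add_le_add k1 ((norm_add_le _ _).trans (add_le_add k2
        ((norm_add_le _ _).trans (add_le_add k3 k4))))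
    _ = 4 * ε₃ := by ring

open scoped Classical in
/-- the estimate for fixed `X` -/
theorem per_X3 (hp : S_PERX) {N : ℕ} (hN : 1 ≤ N) {F₁ F₂ : Gi → ℂ} (h1 : ∀ z, F₁ z ∈ Vs N)
    (h2 : ∀ z, F₂ z ∈ Vs N) {K : ℕ} {κ : ℝ} {Q : ℕ}
    {s s₁ s₂ s₃ s₄ X ε₃ ε' ε'' : ℝ} (hs1 : s ≤ s₁) (hs3 : s ≤ s₃)
    (hK : 1 ≤ K) (hκ : 0 < κ) (hQ : 1 ≤ Q) (hX : 2 * (K * Q : ℝ) ≤ X) {m : ℝ} (hm : |m| ≤ 1)
    {τ : ℂ} (hτ : ‖τ‖ = 1) (T : ℝ → ℂ)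
    (ϖ : ℕ → Gi) (rr : ℕ → ℤ) (hϖ : ∀ p ∈ PQ Q, nm (ϖ p) = p ∧ lat p (rr p) (ϖ p) ∧
      (p : ℤ) ∣ rr p ^ 2 + 1)
    (ζ₁ ζ₂ ζ₃ ζ₄ : ℕ → Tr (Lb N) → ℕ × ℕ × ℕ × ℕ → ℝ)
    (hζ : ∀ e ∈ good K κ Q X, ∀ p ∈ PQ Q,
      (((ζ₁ p (TT (lb3 hN h1 h2 s₁ s₂ s₃ s₄ X) X e) (res p e) : ℝ) : ℂ) +
        Complex.I * ((ζ₂ p (TT (lb3 hN h1 h2 s₁ s₂ s₃ s₄ X) X e) (res p e) : ℝ) : ℂ) =
      (((p : ℝ) + 1) / (2 * Q) : ℝ) * ∑ z ∈ cone X e.1 e.2, ∑ w ∈ cone X e.1 e.2,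
        (if dt z w = p ∧ lat p (rr p) z then e1 (lb3 hN h1 h2 s₁ s₂ s₃ s₄ X z) *
          e2 (lb3 hN h1 h2 s₁ s₂ s₃ s₄ X w) else 0)) ∧
      (((av p (ζ₁ p) (TT (lb3 hN h1 h2 s₁ s₂ s₃ s₄ X) X e) : ℝ) : ℂ) +
        Complex.I * ((av p (ζ₂ p) (TT (lb3 hN h1 h2 s₁ s₂ s₃ s₄ X) X e) : ℝ) : ℂ) =
      (1 / (2 * (Q : ℝ)) : ℝ) * ∑ z ∈ cone X e.1 e.2, ∑ w ∈ cone X e.1 e.2,
        (if dt z w = p then e1 (lb3 hN h1 h2 s₁ s₂ s₃ s₄ X z) *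
          e2 (lb3 hN h1 h2 s₁ s₂ s₃ s₄ X w) else 0)))
    (hζ' : ∀ e ∈ good K κ Q X, ∀ p ∈ PQ Q,
      (((ζ₃ p (TT (lb3 hN h1 h2 s₁ s₂ s₃ s₄ X) X e) (res p e) : ℝ) : ℂ) +
        Complex.I * ((ζ₄ p (TT (lb3 hN h1 h2 s₁ s₂ s₃ s₄ X) X e) (res p e) : ℝ) : ℂ) =
      (((p : ℝ) + 1) / (2 * Q) : ℝ) * ∑ z ∈ cone X e.1 e.2, ∑ w ∈ cone X e.1 e.2,
        (if dt z w = p ∧ lat p (rr p) z then e1 (lb3 hN h1 h2 s₁ s₂ s₃ s₄ X z) *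
          e3 (lb3 hN h1 h2 s₁ s₂ s₃ s₄ X w) else 0)) ∧
      (((av p (ζ₃ p) (TT (lb3 hN h1 h2 s₁ s₂ s₃ s₄ X) X e) : ℝ) : ℂ) +
        Complex.I * ((av p (ζ₄ p) (TT (lb3 hN h1 h2 s₁ s₂ s₃ s₄ X) X e) : ℝ) : ℂ) =
      (1 / (2 * (Q : ℝ)) : ℝ) * ∑ z ∈ cone X e.1 e.2, ∑ w ∈ cone X e.1 e.2,
        (if dt z w = p then e1 (lb3 hN h1 h2 s₁ s₂ s₃ s₄ X z) *
          e3 (lb3 hN h1 h2 s₁ s₂ s₃ s₄ X w) else 0)))
    (hBr : ∀ α : Gi → ℝ, (∀ z, |α z| ≤ 1) → (∀ z, α z ≠ 0 → s₁ * X < (nm z : ℝ)) →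
      |∑ e ∈ good K κ Q X, ∑ v ∈ cone X e.1 e.2, ∑ w ∈ cw X s₃ s₄ e.1 e.2,
        α v * ((F₂ w).re - m) * th Q (dt v w)| ≤ ε₃ * X * Q)
    (hBi : ∀ α : Gi → ℝ, (∀ z, |α z| ≤ 1) → (∀ z, α z ≠ 0 → s₁ * X < (nm z : ℝ)) →
      |∑ e ∈ good K κ Q X, ∑ v ∈ cone X e.1 e.2, ∑ w ∈ cw X s₃ s₄ e.1 e.2,
        α v * (F₂ w).im * th Q (dt v w)| ≤ ε₃ * X * Q)
    (hε' : 0 ≤ ε') (hε'' : 0 ≤ ε'')
    (hL : ∀ p ∈ PQ Q, ∀ π : Gi, nm π = p →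
      (((dedge 0 1 (X / p)).filter (fun e => 0 < ip e.1 e.2 ∧ s * (X / p) < (nm e.1 : ℝ) ∧
        s * (X / p) < (nm e.2 : ℝ) ∧ ¬ InG K κ Q X π e)).card : ℝ) ≤ ε' * (X / p))
    (hT : ∀ p ∈ PQ Q, ∀ π : Gi, nm π = p →
      ‖τ * T (X / p) - ∑ e ∈ (dedge 0 1 (X / p)).filter (fun e => 0 < ip e.1 e.2),
        G3 F₁ F₂ m s₁ s₂ s₃ s₄ X (π * e.1) (π * e.2)‖ ≤ ε'' * (X / p)) :
    ‖∑ p ∈ PQ Q, ((Real.log p * ((p : ℝ) + 1) : ℝ) : ℂ) * T (X / p)‖ ≤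
      2 * Q * ∑ e ∈ edge 0 1 (X / (K * Q)),
        ((|∑ p ∈ PQ Q, Real.log p * (ζ₁ p (TT (lb3 hN h1 h2 s₁ s₂ s₃ s₄ X) X e) (res p e) -
          av p (ζ₁ p) (TT (lb3 hN h1 h2 s₁ s₂ s₃ s₄ X) X e))| +
        |∑ p ∈ PQ Q, Real.log p * (ζ₂ p (TT (lb3 hN h1 h2 s₁ s₂ s₃ s₄ X) X e) (res p e) -
          av p (ζ₂ p) (TT (lb3 hN h1 h2 s₁ s₂ s₃ s₄ X) X e))|) +
        (|∑ p ∈ PQ Q, Real.log p * (ζ₃ p (TT (lb3 hN h1 h2 s₁ s₂ s₃ s₄ X) X e) (res p e) -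
          av p (ζ₃ p) (TT (lb3 hN h1 h2 s₁ s₂ s₃ s₄ X) X e))| +
        |∑ p ∈ PQ Q, Real.log p * (ζ₄ p (TT (lb3 hN h1 h2 s₁ s₂ s₃ s₄ X) X e) (res p e) -
          av p (ζ₄ p) (TT (lb3 hN h1 h2 s₁ s₂ s₃ s₄ X) X e))|)) +
      (4 * (ε₃ * X * Q) + (4 * ε' + 2 * ε'') * X * ∑ p ∈ PQ Q, Real.log p) := by
  have hKQ : (0 : ℝ) < K * Q := by
    have h1 : (1 : ℝ) ≤ K := by exact_mod_cast hK
    have h2 : (1 : ℝ) ≤ Q := by exact_mod_cast hQ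
    positivity
  have hX0 : 0 ≤ X := le_trans (by positivity) hX
  obtain ⟨lab, hlab⟩ : ∃ lab : Gi → Lb N, lab = lb3 hN h1 h2 s₁ s₂ s₃ s₄ X := ⟨_, rfl⟩
  have hbil := bil3 hN h1 h2 m (K := K) (κ := κ) (Q := Q) (s₁ := s₁) (s₂ := s₂)
    (s₃ := s₃) (s₄ := s₄) (X := X) hBr hBi
  have hG3 : ∀ v w, G3 F₁ F₂ m s₁ s₂ s₃ s₄ X v w = e1 (lab v) * (e2 (lab w) -
      (m : ℂ) * e3 (lab w)) := fun v w => by rw [hlab]; rfl
  rw [← hlab] at hζ hζ' hbil ⊢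
  -- the combined function
  obtain ⟨η₁, hη₁⟩ : ∃ η₁ : ℕ → Tr (Lb N) → ℕ × ℕ × ℕ × ℕ → ℝ,
    η₁ = fun p T y => ζ₁ p T y - m * ζ₃ p T y := ⟨_, rfl⟩
  obtain ⟨η₂, hη₂⟩ : ∃ η₂ : ℕ → Tr (Lb N) → ℕ × ℕ × ℕ × ℕ → ℝ,
    η₂ = fun p T y => ζ₂ p T y - m * ζ₄ p T y := ⟨_, rfl⟩
  have hav1 : ∀ p T, av p (η₁ p) T = av p (ζ₁ p) T - m * av p (ζ₃ p) T := by
    intro p T
    unfold av
    rw [hη₁]
    simp only
    rw [sum_sub_distrib, ← mul_sum, sub_div, mul_div_assoc]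
  have hav2 : ∀ p T, av p (η₂ p) T = av p (ζ₂ p) T - m * av p (ζ₄ p) T := by
    intro p T
    unfold av
    rw [hη₂]
    simp only
    rw [sum_sub_distrib, ← mul_sum, sub_div, mul_div_assoc]
  have hper := hp K κ Q X (Lb N) e1 (fun x => e2 x - (m : ℂ) * e3 x) lab ϖ rr η₁ η₂ hK hκ hQ hX
    hϖ (by
      intro e he p hpm
      obtain ⟨a1, a2⟩ := hζ e he p hpm
      obtain ⟨b1, b2⟩ := hζ' e he p hpm
      constructor
      · have c1 : ∀ z w : Gi, (if dt z w = p ∧ lat p (rr p) z then e1 (lab z) *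
            (e2 (lab w) - (m : ℂ) * e3 (lab w)) else 0) =
            (if dt z w = p ∧ lat p (rr p) z then e1 (lab z) * e2 (lab w) else 0) -
            (m : ℂ) * (if dt z w = p ∧ lat p (rr p) z then e1 (lab z) * e3 (lab w) else 0) := by
          intro z w
          split_ifs <;> ring
        simp only [c1, sum_sub_distrib, ← mul_sum]
        rw [mul_sub, mul_left_comm, ← a1, ← b1, hη₁, hη₂]
        push_cast
        ring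
      · have c1 : ∀ z w : Gi, (if dt z w = p then e1 (lab z) *
            (e2 (lab w) - (m : ℂ) * e3 (lab w)) else 0) =
            (if dt z w = p then e1 (lab z) * e2 (lab w) else 0) -
            (m : ℂ) * (if dt z w = p then e1 (lab z) * e3 (lab w) else 0) := by
          intro z w
          split_ifs <;> ring
        simp only [c1, sum_sub_distrib, ← mul_sum]
        rw [mul_sub, mul_left_comm, ← a2, ← b2, hav1, hav2]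
        push_cast
        ring)
  -- the sums of the decoupling
  have hdec : ∀ e, |∑ p ∈ PQ Q, Real.log p * (η₁ p (TT lab X e) (res p e) -
        av p (η₁ p) (TT lab X e))| + |∑ p ∈ PQ Q, Real.log p * (η₂ p (TT lab X e) (res p e) -
        av p (η₂ p) (TT lab X e))| ≤
      (|∑ p ∈ PQ Q, Real.log p * (ζ₁ p (TT lab X e) (res p e) - av p (ζ₁ p) (TT lab X e))| +
        |∑ p ∈ PQ Q, Real.log p * (ζ₂ p (TT lab X e) (res p e) - av p (ζ₂ p) (TT lab X e))|) +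
        (|∑ p ∈ PQ Q, Real.log p * (ζ₃ p (TT lab X e) (res p e) - av p (ζ₃ p) (TT lab X e))| +
        |∑ p ∈ PQ Q, Real.log p * (ζ₄ p (TT lab X e) (res p e) -
          av p (ζ₄ p) (TT lab X e))|) := by
    intro e
    have key : ∀ A B : ℝ, |A - m * B| ≤ |A| + |B| := by
      intro A B
      refine (abs_sub _ _).trans ?_
      rw [abs_mul]
      have := mul_le_mul_of_nonneg_right hm (abs_nonneg B)
      linarith
    have c1 : ∑ p ∈ PQ Q, Real.log p * (η₁ p (TT lab X e) (res p e) -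
        av p (η₁ p) (TT lab X e)) =
        ∑ p ∈ PQ Q, Real.log p * (ζ₁ p (TT lab X e) (res p e) - av p (ζ₁ p) (TT lab X e)) -
        m * ∑ p ∈ PQ Q, Real.log p * (ζ₃ p (TT lab X e) (res p e) -
          av p (ζ₃ p) (TT lab X e)) := by
      rw [mul_sum, ← sum_sub_distrib]
      refine sum_congr rfl fun p _ => ?_
      rw [hav1, hη₁]
      ring
    have c2 : ∑ p ∈ PQ Q, Real.log p * (η₂ p (TT lab X e) (res p e) -
        av p (η₂ p) (TT lab X e)) =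
        ∑ p ∈ PQ Q, Real.log p * (ζ₂ p (TT lab X e) (res p e) - av p (ζ₂ p) (TT lab X e)) -
        m * ∑ p ∈ PQ Q, Real.log p * (ζ₄ p (TT lab X e) (res p e) -
          av p (ζ₄ p) (TT lab X e)) := by
      rw [mul_sum, ← sum_sub_distrib]
      refine sum_congr rfl fun p _ => ?_
      rw [hav2, hη₂]
      ring
    rw [c1, c2]
    have k1 := key (∑ p ∈ PQ Q, Real.log p * (ζ₁ p (TT lab X e) (res p e) -
      av p (ζ₁ p) (TT lab X e))) (∑ p ∈ PQ Q, Real.log p * (ζ₃ p (TT lab X e) (res p e) -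
      av p (ζ₃ p) (TT lab X e)))
    have k2 := key (∑ p ∈ PQ Q, Real.log p * (ζ₂ p (TT lab X e) (res p e) -
      av p (ζ₂ p) (TT lab X e))) (∑ p ∈ PQ Q, Real.log p * (ζ₄ p (TT lab X e) (res p e) -
      av p (ζ₄ p) (TT lab X e)))
    linarith
  obtain ⟨S, hS⟩ : ∃ S : ℕ → ℂ, S = fun (p : ℕ) =>
      ∑ e ∈ (dedge 0 1 (X / p)).filter (InG K κ Q X (ϖ p)),
        G3 F₁ F₂ m s₁ s₂ s₃ s₄ X (ϖ p * e.1) (ϖ p * e.2) := ⟨_, rfl⟩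
  have hc1 : ‖∑ p ∈ PQ Q, ((Real.log p * ((p : ℝ) + 1) : ℝ) : ℂ) * S p‖ ≤
      2 * Q * ∑ e ∈ edge 0 1 (X / (K * Q)),
      ((|∑ p ∈ PQ Q, Real.log p * (ζ₁ p (TT lab X e) (res p e) - av p (ζ₁ p) (TT lab X e))| +
        |∑ p ∈ PQ Q, Real.log p * (ζ₂ p (TT lab X e) (res p e) - av p (ζ₂ p) (TT lab X e))|) +
        (|∑ p ∈ PQ Q, Real.log p * (ζ₃ p (TT lab X e) (res p e) - av p (ζ₃ p) (TT lab X e))| +
        |∑ p ∈ PQ Q, Real.log p * (ζ₄ p (TT lab X e) (res p e) -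
          av p (ζ₄ p) (TT lab X e))|)) + 4 * (ε₃ * X * Q) := by
    rw [hS]
    simp only [hG3]
    refine hper.trans (add_le_add ?_ hbil)
    exact mul_le_mul_of_nonneg_left (sum_le_sum fun e _ => hdec e) (by positivity)
  -- the loss
  have hloss : ‖∑ p ∈ PQ Q, ((Real.log p * ((p : ℝ) + 1) : ℝ) : ℂ) * (τ * T (X / p) - S p)‖ ≤
      (4 * ε' + 2 * ε'') * X * ∑ p ∈ PQ Q, Real.log p := by
    rw [mul_sum]
    refine (norm_sum_le _ _).trans (sum_le_sum fun p hpm => ?_)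
    have hpp := (PQ_mem hpm).2.2.1
    have hp0 : (0 : ℝ) < p := by exact_mod_cast hpp.pos
    have hp1 : (1 : ℝ) ≤ p := by exact_mod_cast hpp.one_lt.le
    have hXp : 0 ≤ X / p := by positivity
    have a1 := hT p hpm _ (hϖ p hpm).1
    have a2 : ‖∑ e ∈ (dedge 0 1 (X / p)).filter (fun e => 0 < ip e.1 e.2),
        G3 F₁ F₂ m s₁ s₂ s₃ s₄ X (ϖ p * e.1) (ϖ p * e.2) - S p‖ ≤ 2 * ε' * (X / p) := by
      have hII : (dedge 0 1 (X / p)).filter (InG K κ Q X (ϖ p)) =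
          ((dedge 0 1 (X / p)).filter (fun e => 0 < ip e.1 e.2)).filter
            (InG K κ Q X (ϖ p)) := by
        rw [filter_filter]
        exact filter_congr fun e _ => ⟨fun h => ⟨InG_ip hKQ hX h, h⟩, fun h => h.2⟩
      rw [hS]
      simp only
      rw [hII, ← sum_filter_add_sum_filter_not ((dedge 0 1 (X / p)).filter
        (fun e => 0 < ip e.1 e.2)) (InG K κ Q X (ϖ p)), add_sub_cancel_left]
      refine (norm_sum_le _ _).trans ?_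
      have b1 : ∀ e ∈ ((dedge 0 1 (X / p)).filter (fun e => 0 < ip e.1 e.2)).filter
          (fun e => ¬ InG K κ Q X (ϖ p) e),
          ‖G3 F₁ F₂ m s₁ s₂ s₃ s₄ X (ϖ p * e.1) (ϖ p * e.2)‖ ≤
          2 * if s * (X / p) < (nm e.1 : ℝ) ∧ s * (X / p) < (nm e.2 : ℝ) then (1 : ℝ) else 0 := by
        intro e _
        split_ifs with hc
        · rw [mul_one]
          exact G3_le hN h1 h2 hm _ _ _ _ _ _ _
        · have hnm : ∀ z : Gi, (nm (ϖ p * z) : ℝ) = p * nm z := by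
            intro z
            rw [Pool.Agent.W78.GA.nm_mul, (hϖ p hpm).1]
            push_cast
            ring
          have hz : G3 F₁ F₂ m s₁ s₂ s₃ s₄ X (ϖ p * e.1) (ϖ p * e.2) = 0 := by
            unfold G3 wF
            rw [hnm, hnm]
            by_cases c1 : s₁ * X < p * (nm e.1 : ℝ) ∧ p * (nm e.1 : ℝ) ≤ s₂ * X
            · have c3 : ¬ (s₃ * X < p * (nm e.2 : ℝ) ∧ p * (nm e.2 : ℝ) ≤ s₄ * X) := by
                intro c3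
                apply hc
                have d1 : s * X ≤ s₁ * X := mul_le_mul_of_nonneg_right hs1 hX0
                have d2 : s * X ≤ s₃ * X := mul_le_mul_of_nonneg_right hs3 hX0
                constructor
                · rw [← mul_div_assoc, div_lt_iff₀ hp0]
                  linarith [c1.1]
                · rw [← mul_div_assoc, div_lt_iff₀ hp0]
                  linarith [c3.1]
              rw [if_neg c3, if_neg c3]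
              ring
            · rw [if_neg c1]
              ring
          rw [hz, norm_zero, mul_zero]
      refine (sum_le_sum b1).trans ?_
      rw [← mul_sum, sum_boole, filter_filter, filter_filter, mul_assoc]
      refine mul_le_mul_of_nonneg_left ?_ (by norm_num)
      refine le_trans (le_of_eq ?_) (hL p hpm _ (hϖ p hpm).1)
      congr 2
      refine filter_congr fun e _ => ?_
      tauto
    have a3 : ‖τ * T (X / p) - S p‖ ≤ (2 * ε' + ε'') * (X / p) := by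
      have e : τ * T (X / p) - S p =
          (τ * T (X / p) - ∑ e ∈ (dedge 0 1 (X / p)).filter (fun e => 0 < ip e.1 e.2),
            G3 F₁ F₂ m s₁ s₂ s₃ s₄ X (ϖ p * e.1) (ϖ p * e.2)) +
          (∑ e ∈ (dedge 0 1 (X / p)).filter (fun e => 0 < ip e.1 e.2),
            G3 F₁ F₂ m s₁ s₂ s₃ s₄ X (ϖ p * e.1) (ϖ p * e.2) - S p) := by ring
      rw [e]
      refine (norm_add_le _ _).trans ?_
      linarith
    rw [norm_mul, Complex.norm_real, Real.norm_eq_abs,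
      abs_of_nonneg (mul_nonneg (log_nonneg_PQ hpm) (by positivity))]
    calc Real.log p * ((p : ℝ) + 1) * ‖τ * T (X / p) - S p‖ ≤
          Real.log p * ((p : ℝ) + 1) * ((2 * ε' + ε'') * (X / p)) :=
          mul_le_mul_of_nonneg_left a3 (mul_nonneg (log_nonneg_PQ hpm) (by positivity))
      _ = Real.log p * (2 * ε' + ε'') * X * (((p : ℝ) + 1) / p) := by ring
      _ ≤ Real.log p * (2 * ε' + ε'') * X * 2 := by
          refine mul_le_mul_of_nonneg_left ?_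
            (mul_nonneg (mul_nonneg (log_nonneg_PQ hpm) (by positivity)) hX0)
          rw [div_le_iff₀ hp0]
          linarith
      _ = (4 * ε' + 2 * ε'') * X * Real.log p := by ring
  have hnorm : ‖∑ p ∈ PQ Q, ((Real.log p * ((p : ℝ) + 1) : ℝ) : ℂ) * T (X / p)‖ =
      ‖τ * ∑ p ∈ PQ Q, ((Real.log p * ((p : ℝ) + 1) : ℝ) : ℂ) * T (X / p)‖ := by
    rw [norm_mul, hτ, one_mul]
  have hdecomp : τ * ∑ p ∈ PQ Q, ((Real.log p * ((p : ℝ) + 1) : ℝ) : ℂ) * T (X / p) =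
      ∑ p ∈ PQ Q, ((Real.log p * ((p : ℝ) + 1) : ℝ) : ℂ) * (τ * T (X / p) - S p) +
      ∑ p ∈ PQ Q, ((Real.log p * ((p : ℝ) + 1) : ℝ) : ℂ) * S p := by
    rw [← sum_add_distrib, mul_sum]
    refine sum_congr rfl fun p _ => ?_
    ring
  rw [hnorm, hdecomp]
  refine (norm_add_le _ _).trans ?_
  linarith

end Pool.Agent.T2H34
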