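import Pool.Agent.T2H34.Law

/-!
Events for the large prime factors are admissible.
-/

set_option autoImplicit false

namespace Pool.Agent.T2H34

open Finset Filter
open Pool.Agent.W78.GA (Qd nm prim dt ip lat ball pball edge dedge mem_ball mem_pball nm_mul
  one_le_nm star_mul_self' nm_dvd prim_ne_zero nm_zero nm_posR natCast_dvd)
open Pool.Agent.W78.EC (Gi SP)
open Pool.Agent.W991.EC (hD mul_inj card_ball)

/-- the primes dividing `m` which are larger than `m ^ b` -/
noncomputable def Lf (b : ℝ) (m : ℕ) : Finset ℕ := m.primeFactors.filter (fun p => (m : ℝ) ^ b < p)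

/-- the primes dividing `m` which are larger than `x ^ b` -/
noncomputable def Lx (x b : ℝ) (m : ℕ) : Finset ℕ := m.primeFactors.filter (fun p => x ^ b < (p : ℝ))

open scoped Classical in
/-- the indicator function of the event `E` -/
noncomputable def ev {ι : Type} (b : ι → ℝ) (E : Set (ι → Finset ℕ)) (m : ℕ) : ℝ :=
  if (fun j => Lf (b j) m) ∈ E then 1 else 0

/-- primes `≡ 3 mod 4` divide sums of two squares only if they divide both numbers -/
theorem inert {p : ℕ} (hp : p.Prime) (h3 : p % 4 = 3) {z : Gi} (h : p ∣ nm z) : (p : Gi) ∣ z := by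
  have hF : Fact p.Prime := ⟨hp⟩
  have h1 : ((p : ℕ) : ℤ) ∣ z.re ^ 2 + z.im ^ 2 := by
    rw [← nmZ]
    exact_mod_cast h
  have h2 : ((z.re ^ 2 + z.im ^ 2 : ℤ) : ZMod p) = 0 := (ZMod.intCast_zmod_eq_zero_iff_dvd _ _).2 h1
  push_cast at h2
  have him : ((z.im : ℤ) : ZMod p) = 0 := by
    by_contra hne
    exact ZMod.mod_four_ne_three_of_sq_eq_neg_sq' (x := ((z.re : ℤ) : ZMod p)) hne
      (by linear_combination h2) h3
  have hre : ((z.re : ℤ) : ZMod p) = 0 := by
    rw [him] at h2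
    have : ((z.re : ℤ) : ZMod p) ^ 2 = 0 := by linear_combination h2
    exact pow_eq_zero_iff two_ne_zero |>.1 this
  rw [natCast_dvd]
  exact ⟨(ZMod.intCast_zmod_eq_zero_iff_dvd _ _).1 hre, (ZMod.intCast_zmod_eq_zero_iff_dvd _ _).1 him⟩

theorem exists_low {ι : Type} [Fintype ι] {b : ι → ℝ} (hb : ∀ j, 0 < b j) :
    ∃ a : ℝ, 0 < a ∧ ∀ j, a ≤ b j := by
  by_cases h : (Finset.univ : Finset ι).Nonempty
  · obtain ⟨i, -, hi⟩ := Finset.exists_min_image Finset.univ b h
    exact ⟨b i, hb i, fun j => hi j (Finset.mem_univ j)⟩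
  · exact ⟨1, one_pos, fun j => absurd ⟨j, Finset.mem_univ j⟩ h⟩

theorem exists_unif {ι : Type} [Fintype ι] {P : ι → ℝ → Prop} (h : ∀ j, ∃ R : ℝ, ∀ X : ℝ, R ≤ X → P j X) :
    ∃ R : ℝ, ∀ X : ℝ, R ≤ X → ∀ j, P j X := by
  choose R hR using h
  obtain ⟨B, hB⟩ := (Set.finite_range R).bddAbove
  exact ⟨B, fun X hX j => hR j X (le_trans (hB ⟨j, rfl⟩) hX)⟩

open scoped Classical in
theorem adm_ev {ι : Type} [Fintype ι] {b : ι → ℝ} (hb : ∀ j, 0 < b j) (E : Set (ι → Finset ℕ)) {a : ℝ}
    (ha : 0 < a) (hab : ∀ j, a ≤ b j) :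
    Adm a (fun X n => if (fun j => Lx X (b j) n) ∈ E then 1 else 0) (fun z : Gi => ev b E (nm z)) where
  pos := ha
  gb := fun x n => by split_ifs <;> simp
  u0 := fun z => by unfold ev; split_ifs <;> norm_num
  u1 := fun z => by unfold ev; split_ifs <;> norm_num
  ap := fun σ ε hσ hσ1 hε => by
    obtain ⟨J, hJ⟩ : ∃ J : ℕ, J = Fintype.card ι := ⟨_, rfl⟩
    obtain ⟨W, hW⟩ : ∃ W : ℕ, W = ⌈18 / ε⌉₊ + 1 := ⟨_, rfl⟩
    have hW1 : 1 ≤ W := by omega
    have hWε : 9 / (W : ℝ) ≤ ε / 2 := by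
      have h1 : 18 / ε ≤ W := by
        rw [hW]
        push_cast
        have := Nat.le_ceil (18 / ε)
        linarith
      have hW0 : (0 : ℝ) < W := by exact_mod_cast hW1
      rw [div_le_iff₀ hε] at h1
      rw [div_le_iff₀ hW0]
      linarith
    -- the primes between the thresholds
    have hthr : ∀ j : ι, ∃ R : ℝ, ∀ X : ℝ, R ≤ X → (((ball 0 1 X).filter (fun z : Gi =>
        ∃ p : ℕ, G4 p ∧ (σ * X) ^ b j < (p : ℝ) ∧ (p : ℝ) ≤ X ^ b j ∧ p ∣ nm z)).card : ℝ) ≤
        ε / (2 * (J + 1)) * X := by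
      intro j
      have hc : (1 : ℝ) ≤ (1 / σ) ^ b j := by
        apply Real.one_le_rpow _ (hb j).le
        rw [le_div_iff₀ hσ]
        linarith
      obtain ⟨R, hR1, hR⟩ := TL_thr ((1 / σ) ^ b j) (ε / (2 * (J + 1))) hc (by positivity)
      obtain ⟨X₁, hX₁1, hX₁R, hX₁⟩ := rpow_ge (hb j) R hR1
      refine ⟨X₁ / σ, fun X hX => ?_⟩
      have hX0 : 0 < X := lt_of_lt_of_le (by positivity) hX
      have hXσ : X₁ ≤ σ * X := by
        rw [div_le_iff₀ hσ] at hX
        linarith
      exact hR _ _ X (hX₁ _ hXσ) (rpow_ratio (hb j) hσ hX0 le_rfl) hX0.le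
    obtain ⟨R₁, hR₁⟩ := exists_unif hthr
    obtain ⟨X₂, hX₂1, hX₂R, hX₂⟩ := rpow_ge ha ((W : ℝ) + 3) (by
      have : (0 : ℝ) ≤ W := Nat.cast_nonneg _
      linarith)
    refine ⟨max (max 1 R₁) (X₂ / σ), (le_max_left _ _).trans (le_max_left _ _), fun X hX => ?_⟩
    have hX1 : 1 ≤ X := ((le_max_left _ _).trans (le_max_left _ _)).trans hX
    have hXR : R₁ ≤ X := ((le_max_right _ _).trans (le_max_left _ _)).trans hX
    have hXσ : X₂ ≤ σ * X := by
      have := (le_max_right _ _).trans hX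
      rw [div_le_iff₀ hσ] at this
      linarith
    have hX0 : 0 < X := by linarith
    have hσX : 0 < σ * X := by positivity
    have hthr' := hR₁ X hXR
    have hya := hX₂ (σ * X) hXσ
    have hW0 : (0 : ℝ) ≤ W := Nat.cast_nonneg _
    have hsub : (ball 0 1 X).filter (fun z : Gi => σ * X ≤ (nm z : ℝ) ∧ ev b E (nm z) ≠
        if (fun j => Lx X (b j) (gN (Sz (X ^ a) X z))) ∈ E then 1 else 0) ⊆
        (ball 0 1 X).filter (fun z => ∃ g : ℕ, W < g ∧ (g : Gi) ∣ z) ∪
        (univ : Finset ι).biUnion (fun j => (ball 0 1 X).filter (fun z : Gi =>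
        ∃ p : ℕ, G4 p ∧ (σ * X) ^ b j < (p : ℝ) ∧ (p : ℝ) ≤ X ^ b j ∧ p ∣ nm z)) := by
      intro z hz
      rw [mem_filter] at hz
      obtain ⟨hz1, hz2, hz3⟩ := hz
      by_contra hne
      rw [mem_union, not_or, mem_filter, mem_biUnion] at hne
      obtain ⟨hn1, hn2⟩ := hne
      have hz' := (mem_ball hD).1 hz1
      have hnz : (0 : ℝ) < nm z := by exact_mod_cast hz'.1
      have hI1 : ∀ g : ℕ, (g : Gi) ∣ z → g ≤ W := by
        intro g hg
        by_contra hgW
        exact hn1 ⟨hz1, g, by omega, hg⟩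
      have hI2 : ∀ (j : ι) (p : ℕ), G4 p → p ∣ nm z → (σ * X) ^ b j < (p : ℝ) →
          X ^ b j < (p : ℝ) := by
        intro j p hp hpz hlt
        by_contra hle
        exact hn2 ⟨j, mem_univ j, mem_filter.2 ⟨hz1, p, hp, hlt, not_lt.1 hle, hpz⟩⟩
      apply hz3
      have key : ∀ j, Lf (b j) (nm z) = Lx X (b j) (gN (Sz (X ^ a) X z)) := by
        intro j
        have h1 : (σ * X) ^ b j ≤ (nm z : ℝ) ^ b j := Real.rpow_le_rpow hσX.le hz2 (hb j).le
        have h2 : (nm z : ℝ) ^ b j ≤ X ^ b j := Real.rpow_le_rpow hnz.le hz'.2 (hb j).le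
        have hσX1 : 1 ≤ σ * X := hX₂1.trans hXσ
        have h3 : (σ * X) ^ a ≤ (σ * X) ^ b j := Real.rpow_le_rpow_of_exponent_le hσX1 (hab j)
        have h4 : X ^ a ≤ X ^ b j := Real.rpow_le_rpow_of_exponent_le hX1 (hab j)
        have hSG := II_G4 (Sz_sub (y := X ^ a) (x := X) (z := z))
        ext p
        unfold Lf Lx
        rw [mem_filter, mem_filter, Nat.mem_primeFactors, Nat.mem_primeFactors]
        constructor
        · rintro ⟨⟨hp, hpz, hz0⟩, hlt⟩
          have hpW : (W : ℝ) + 3 < p := by linarith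
          have hp4 : G4 p := by
            refine ⟨hp, ?_⟩
            have hp2 : p ≠ 2 := by
              rintro rfl
              norm_num at hpW
              linarith
            have hodd : p % 2 = 1 := by
              rcases hp.eq_two_or_odd with h | h
              · exact absurd h hp2
              · exact h
            have h3 : p % 4 ≠ 3 := by
              intro h3
              have := hI1 p (inert hp h3 hpz)
              have : (p : ℝ) ≤ W := by exact_mod_cast this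
              linarith
            omega
          have hpX := hI2 j p hp4 hpz (lt_of_le_of_lt h1 hlt)
          obtain ⟨c, hc⟩ := (dvd_iff hp4).1 hpz
          have hmem : (p, c) ∈ Sz (X ^ a) X z := by
            unfold Sz
            rw [mem_filter, mem_II]
            refine ⟨⟨hp4, lt_of_le_of_lt h4 hpX, ?_⟩, hc⟩
            refine Nat.le_floor ?_
            have : (p : ℝ) ≤ nm z := by exact_mod_cast Nat.le_of_dvd (by omega) hpz
            exact this.trans hz'.2
          exact ⟨⟨hp, gN_dvd hmem, (gN_pos hSG).ne'⟩, hpX⟩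
        · rintro ⟨⟨hp, hpg, -⟩, hlt⟩
          obtain ⟨i, hi, rfl⟩ := gN_prime hSG hp hpg
          have hi' := hi
          unfold Sz at hi'
          rw [mem_filter] at hi'
          have h5 := nm_dvd hi'.2
          rw [nm_gp (hSG i hi)] at h5
          exact ⟨⟨hp, h5, by omega⟩, lt_of_le_of_lt h2 hlt⟩
      unfold ev
      simp only [key]
    refine le_trans (Nat.cast_le.2 (Finset.card_le_card hsub)) ?_
    have h1 := big_cnt W hW1 hX0.le
    have h2 : (((univ : Finset ι).biUnion (fun j => (ball 0 1 X).filter (fun z : Gi =>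
        ∃ p : ℕ, G4 p ∧ (σ * X) ^ b j < (p : ℝ) ∧ (p : ℝ) ≤ X ^ b j ∧ p ∣ nm z))).card : ℝ) ≤
        J * (ε / (2 * (J + 1)) * X) := by
      refine le_trans (Nat.cast_le.2 Finset.card_biUnion_le) ?_
      push_cast
      refine (Finset.sum_le_card_nsmul _ _ _ fun j _ => hthr' j).trans ?_
      rw [nsmul_eq_mul, Finset.card_univ, ← hJ]
    have h3 : (J : ℝ) * (ε / (2 * (J + 1)) * X) ≤ ε / 2 * X := by
      have : (J : ℝ) * (ε / (2 * (J + 1))) ≤ ε / 2 := by
        rw [mul_div_assoc', div_le_div_iff₀ (by positivity) (by norm_num)]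
        nlinarith
      calc (J : ℝ) * (ε / (2 * (J + 1)) * X) = (J : ℝ) * (ε / (2 * (J + 1))) * X := by ring
        _ ≤ _ := mul_le_mul_of_nonneg_right this hX0.le
    have h4 : 9 * X / W ≤ ε / 2 * X := by
      calc 9 * X / W = 9 / W * X := by ring
        _ ≤ _ := mul_le_mul_of_nonneg_right hWε hX0.le
    refine le_trans (Nat.cast_le.2 (Finset.card_union_le _ _)) ?_
    push_cast
    linarith

theorem Ad_ev {ι : Type} [Fintype ι] {b : ι → ℝ} (hb : ∀ j, 0 < b j) (E : Set (ι → Finset ℕ)) :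
    Ad (ev b E) where
  bin := fun n => by
    classical
    unfold ev
    split_ifs
    · exact Or.inr rfl
    · exact Or.inl rfl
  ad := by
    classical
    obtain ⟨a, ha, hab⟩ := exists_low hb
    exact ⟨a, _, adm_ev hb E ha hab⟩

end Pool.Agent.T2H34
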