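import Mathlib

/-!
The part of an integer composed of the primes without a property.
-/

set_option autoImplicit false

namespace Pool.Agent.T2H34

open Finset

open scoped Classical in
/-- the part of `n` composed of the primes without the property `P` -/
noncomputable def fr (P : ℕ → Prop) (n : ℕ) : ℕ :=
  n.factorization.prod (fun p k => if P p then 1 else p ^ k)

theorem fr_mul (P : ℕ → Prop) {a b : ℕ} (ha : a ≠ 0) (hb : b ≠ 0) :
    fr P (a * b) = fr P a * fr P b := by
  classical
  unfold fr
  rw [Nat.factorization_mul ha hb]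
  refine Finsupp.prod_add_index' ?_ ?_
  · intro p
    split_ifs
    · rfl
    · exact pow_zero p
  · intro p k l
    split_ifs
    · rfl
    · exact pow_add p k l

theorem fr_one (P : ℕ → Prop) {a : ℕ} (h : ∀ p : ℕ, p.Prime → p ∣ a → P p) : fr P a = 1 := by
  classical
  unfold fr Finsupp.prod
  refine Finset.prod_eq_one fun p hp => ?_
  rw [Nat.support_factorization, Nat.mem_primeFactors] at hp
  beta_reduce
  rw [if_pos (h p hp.1 hp.2.1)]

theorem dvd_fr (P : ℕ → Prop) {n q : ℕ} (hn : n ≠ 0) (hq : q.Prime) :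
    q ∣ fr P n ↔ q ∣ n ∧ ¬ P q := by
  classical
  unfold fr Finsupp.prod
  rw [Prime.dvd_finsetProd_iff hq.prime]
  constructor
  · rintro ⟨p, hp, hqp⟩
    rw [Nat.support_factorization, Nat.mem_primeFactors] at hp
    beta_reduce at hqp
    split_ifs at hqp with h
    · exact absurd (Nat.dvd_one.1 hqp) hq.ne_one
    · have h1 := (Nat.prime_dvd_prime_iff_eq hq hp.1).1 (hq.dvd_of_dvd_pow hqp)
      subst h1
      exact ⟨hp.2.1, h⟩
  · rintro ⟨h1, h2⟩
    refine ⟨q, ?_, ?_⟩
    · rw [Nat.support_factorization, Nat.mem_primeFactors]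
      exact ⟨hq, h1, hn⟩
    · beta_reduce
      rw [if_neg h2]
      exact dvd_pow_self q (by
        rw [← Nat.pos_iff_ne_zero]
        exact hq.factorization_pos_of_dvd hn h1)

end Pool.Agent.T2H34
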