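import Pool.Agent.T2H34.Gsv

/-!
Admissible functions and their averages.
-/

set_option autoImplicit false

namespace Pool.Agent.T2H34

open Finset
open Pool.Agent.W78.GA
open Pool.Agent.W78.EC (Gi)
open Pool.Agent.W991.EC (hD mul_inj card_ball)

open scoped Classical in
/-- functions with values in `[0, 1]` which are determined, up to few exceptions, by the large
prime divisors -/
structure Adm (a : ℝ) (G : ℝ → ℕ → ℝ) (U : Gi → ℝ) : Prop where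
  pos : 0 < a
  gb : ∀ x n, |G x n| ≤ 1
  u0 : ∀ z, 0 ≤ U z
  u1 : ∀ z, U z ≤ 1
  ap : ∀ σ ε : ℝ, 0 < σ → σ ≤ 1 → 0 < ε → ∃ R : ℝ, 1 ≤ R ∧ ∀ X : ℝ, R ≤ X →
    (((ball 0 1 X).filter (fun z => σ * X ≤ (nm z : ℝ) ∧
      U z ≠ G X (gN (Sz (X ^ a) X z)))).card : ℝ) ≤ ε * X

/-- the average over a disc -/
noncomputable def avg (U : Gi → ℝ) (x : ℝ) : ℝ := (∑ z ∈ ball 0 1 x, U z) / ((ball 0 1 x).card : ℝ)

theorem avg_nonneg {U : Gi → ℝ} (h : ∀ z, 0 ≤ U z) (x : ℝ) : 0 ≤ avg U x := by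
  unfold avg
  exact div_nonneg (sum_nonneg fun z _ => h z) (Nat.cast_nonneg _)

theorem avg_le {U : Gi → ℝ} (h : ∀ z, U z ≤ 1) (x : ℝ) : avg U x ≤ 1 := by
  unfold avg
  refine div_le_one_of_le₀ ?_ (Nat.cast_nonneg _)
  refine (Finset.sum_le_card_nsmul _ _ 1 fun z _ => h z).trans ?_
  rw [nsmul_eq_mul, mul_one]

theorem Sz_eq {y x x' : ℝ} (hx : x' ≤ x) {z : Gi} (hz : z ∈ ball 0 1 x') :
    Sz y x z = Sz y x' z := by
  classical
  unfold Sz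
  ext i
  rw [mem_filter, mem_filter, mem_II, mem_II]
  constructor
  · rintro ⟨⟨h1, h2, h3⟩, h4⟩
    refine ⟨⟨h1, h2, ?_⟩, h4⟩
    have h5 := nm_dvd h4
    rw [nm_gp h1] at h5
    rw [mem_ball hD] at hz
    refine Nat.le_floor ?_
    have : (i.1 : ℝ) ≤ nm z := by exact_mod_cast Nat.le_of_dvd (by omega) h5
    exact this.trans hz.2
  · rintro ⟨⟨h1, h2, h3⟩, h4⟩
    exact ⟨⟨h1, h2, h3.trans (Nat.floor_le_floor hx)⟩, h4⟩

theorem le_pow_k {a : ℝ} (ha : 0 < a) {k : ℕ} (hk : 1 / a ≤ k) {X : ℝ} (hX : 1 ≤ X) :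
    X ≤ (X ^ a) ^ k := by
  rw [← Real.rpow_natCast, ← Real.rpow_mul (by linarith)]
  have h1 : 1 ≤ a * k := by
    rw [div_le_iff₀ ha] at hk
    linarith
  calc X = X ^ (1 : ℝ) := (Real.rpow_one X).symm
    _ ≤ X ^ (a * k) := Real.rpow_le_rpow_of_exponent_le hX h1

variable {a : ℝ} {G : ℝ → ℕ → ℝ} {U : Gi → ℝ}

/-- the main term and the average -/
theorem avg_DG (h : Adm a G U) (σ ε : ℝ) (hσ : 0 < σ) (hσ1 : σ ≤ 1) (hε : 0 < ε) :
    ∃ R : ℝ, 1 ≤ R ∧ ∀ x x' : ℝ, R ≤ x → σ * x ≤ x' → x' ≤ x →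
      |DG (G x) (x ^ a) x - avg U x'| ≤ ε := by
  classical
  have hk := kp_pos
  have ha := h.pos
  obtain ⟨k, hk1⟩ := exists_nat_ge (1 / a)
  obtain ⟨C, hC1, hDGle⟩ := DG_le
  obtain ⟨B, hB⟩ : ∃ B : ℝ, B = C * 4 ^ k := ⟨_, rfl⟩
  have hB0 : 0 < B := by rw [hB]; positivity
  obtain ⟨e, he⟩ : ∃ e : ℝ, e = ε * kp / 16 := ⟨_, rfl⟩
  have he0 : 0 < e := by rw [he]; positivity
  obtain ⟨σ₂, hσ₂⟩ : ∃ σ₂ : ℝ, σ₂ = min 1 (σ * e / 18) := ⟨_, rfl⟩
  have hσ₂0 : 0 < σ₂ := by rw [hσ₂]; exact lt_min one_pos (by positivity)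
  have hσ₂1 : σ₂ ≤ 1 := by rw [hσ₂]; exact min_le_left _ _
  have hσ₂2 : 18 * σ₂ ≤ σ * e := by
    have : σ₂ ≤ σ * e / 18 := by rw [hσ₂]; exact min_le_right _ _
    linarith
  obtain ⟨R₁, hR₁1, hR₁⟩ := h.ap σ₂ (σ * e / 2) hσ₂0 hσ₂1 (by positivity)
  obtain ⟨R₂, hR₂1, hR₂⟩ := cls_g (M := 1) le_rfl k e he0
  obtain ⟨R₃, hR₃1, hR₃⟩ := ball_eps (e / B) (by positivity)
  obtain ⟨R₄, hR₄1, hR₄⟩ := ball_lo
  obtain ⟨R₅, hR₅1, hR₅⟩ := DG_slow k σ (ε / 2) hσ (by positivity)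
  obtain ⟨X₁, hX₁1, hX₁R, hX₁⟩ := rpow_ge ha (R₁ + R₂ + R₃ + R₄ + R₅) (by linarith)
  refine ⟨X₁ / σ, by rw [le_div_iff₀ hσ]; nlinarith, fun x x' hx h1 h2 => ?_⟩
  have hx0 : 0 < x := lt_of_lt_of_le (by positivity) hx
  rw [div_le_iff₀ hσ] at hx
  have hx'X : X₁ ≤ x' := by linarith
  have hxX : X₁ ≤ x := hx'X.trans h2
  have hx'0 : 0 < x' := by linarith
  have hy := hX₁ x hxX
  obtain ⟨y, hyd⟩ : ∃ y : ℝ, y = x ^ a := ⟨_, rfl⟩
  have hxy : x ≤ y ^ k := by rw [hyd]; exact le_pow_k ha hk1 (by linarith)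
  rw [← hyd] at hy ⊢
  have hgb := h.gb x
  have e5 := hR₅ (G x) hgb y x x' (by linarith) (by linarith) hxy h1 h2
  -- the average over the small disc
  obtain ⟨D, hDd⟩ : ∃ D : ℝ, D = DG (G x) y x' := ⟨_, rfl⟩
  have hDB : |D| ≤ B := by
    rw [hDd, hB]
    exact hDGle k (G x) hgb y x' (by linarith) (by linarith) (h2.trans hxy)
  obtain ⟨N, hN⟩ : ∃ N : ℝ, N = ((ball 0 1 x').card : ℝ) := ⟨_, rfl⟩
  have hN1 := hR₄ x' (by linarith)
  have hN2 := hR₃ x' (by linarith)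
  rw [← hN] at hN1 hN2
  have hN0 : 0 < N := lt_of_lt_of_le (by positivity) hN1
  have e2 := hR₂ y x' (by linarith) (by linarith) (h2.trans hxy) (G x) hgb 0
  rw [Nat.cast_one, one_pow, div_one, ← hDd, cb_one] at e2
  have e1 : |∑ z ∈ ball 0 1 x', U z - ∑ z ∈ ball 0 1 x', G x (gN (Sz y x' z))| ≤
      2 * e * x' := by
    rw [← sum_sub_distrib]
    refine (Finset.abs_sum_le_sum_abs _ _).trans ?_
    have hpt : ∀ z ∈ ball 0 1 x', |U z - G x (gN (Sz y x' z))| ≤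
        (if z ∈ ball 0 1 (σ₂ * x) then 2 else 0) + (if z ∈ (ball 0 1 x).filter
          (fun z => σ₂ * x ≤ (nm z : ℝ) ∧ U z ≠ G x (gN (Sz (x ^ a) x z))) then 2 else 0) := by
      intro z hz
      have hz' := (mem_ball hD).1 hz
      have htriv : |U z - G x (gN (Sz y x' z))| ≤ 2 := by
        refine (abs_sub _ _).trans ?_
        have f1 := hgb (gN (Sz y x' z))
        have f2 : |U z| ≤ 1 := by rw [abs_of_nonneg (h.u0 z)]; exact h.u1 z
        linarith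
      by_cases h3 : z ∈ ball 0 1 (σ₂ * x)
      · rw [if_pos h3]
        have : (0 : ℝ) ≤ (if z ∈ (ball 0 1 x).filter
          (fun z => σ₂ * x ≤ (nm z : ℝ) ∧ U z ≠ G x (gN (Sz (x ^ a) x z))) then 2 else 0) := by
          split_ifs <;> norm_num
        linarith
      · rw [if_neg h3]
        have h4 : σ₂ * x ≤ nm z := by
          by_contra h5
          exact h3 ((mem_ball hD).2 ⟨hz'.1, (not_le.1 h5).le⟩)
        by_cases h5 : U z = G x (gN (Sz (x ^ a) x z))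
        · have h6 : U z - G x (gN (Sz y x' z)) = 0 := by
            rw [h5, ← hyd, Sz_eq h2 hz, sub_self]
          rw [h6, abs_zero]
          have : (0 : ℝ) ≤ (if z ∈ (ball 0 1 x).filter
            (fun z => σ₂ * x ≤ (nm z : ℝ) ∧ U z ≠ G x (gN (Sz (x ^ a) x z))) then 2 else 0) := by
            split_ifs <;> norm_num
          linarith
        · rw [if_pos (mem_filter.2 ⟨ball_mono h2 hz, h4, h5⟩)]
          linarith
    refine (sum_le_sum hpt).trans ?_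
    rw [sum_add_distrib, ← sum_filter, ← sum_filter, sum_const, sum_const, nsmul_eq_mul,
      nsmul_eq_mul]
    have c1 : (((ball 0 1 x').filter (fun z => z ∈ ball 0 1 (σ₂ * x))).card : ℝ) ≤
        9 * (σ₂ * x) := by
      refine le_trans ?_ (card_ball (by positivity))
      exact Nat.cast_le.2 (Finset.card_le_card fun z hz => (mem_filter.1 hz).2)
    have c2 : (((ball 0 1 x').filter (fun z => z ∈ (ball 0 1 x).filter
        (fun z => σ₂ * x ≤ (nm z : ℝ) ∧ U z ≠ G x (gN (Sz (x ^ a) x z))))).card : ℝ) ≤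
        σ * e / 2 * x := by
      refine le_trans ?_ (hR₁ x (by linarith))
      exact Nat.cast_le.2 (Finset.card_le_card fun z hz => (mem_filter.1 hz).2)
    have c3 : 18 * σ₂ * x ≤ σ * e * x := mul_le_mul_of_nonneg_right hσ₂2 hx0.le
    have c4 : e * (σ * x) ≤ e * x' := mul_le_mul_of_nonneg_left h1 he0.le
    linarith
  have e3 : |∑ z ∈ ball 0 1 x', U z - N * D| ≤ 4 * e * x' := by
    have f1 : ∑ z ∈ ball 0 1 x', U z - N * D =
        (∑ z ∈ ball 0 1 x', U z - ∑ z ∈ ball 0 1 x', G x (gN (Sz y x' z))) +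
        (∑ z ∈ ball 0 1 x', G x (gN (Sz y x' z)) - kp * x' * D) - (N - kp * x') * D := by ring
    rw [f1]
    have f2 : |(N - kp * x') * D| ≤ e * x' := by
      rw [abs_mul]
      calc |N - kp * x'| * |D| ≤ e / B * x' * B :=
            mul_le_mul hN2 hDB (abs_nonneg _) (by positivity)
        _ = e * x' := by field_simp
    refine (abs_sub _ _).trans ?_
    have f3 := abs_add_le (∑ z ∈ ball 0 1 x', U z - ∑ z ∈ ball 0 1 x', G x (gN (Sz y x' z)))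
      (∑ z ∈ ball 0 1 x', G x (gN (Sz y x' z)) - kp * x' * D)
    linarith
  have e4 : |avg U x' - D| ≤ ε / 2 := by
    unfold avg
    rw [← hN]
    have f1 : (∑ z ∈ ball 0 1 x', U z) / N - D = (∑ z ∈ ball 0 1 x', U z - N * D) / N := by
      field_simp
    rw [f1, abs_div, abs_of_pos hN0, div_le_iff₀ hN0]
    refine e3.trans ?_
    calc 4 * e * x' = ε / 2 * (kp * x' / 2) := by rw [he]; ring
      _ ≤ ε / 2 * N := mul_le_mul_of_nonneg_left hN1 (by positivity)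
  rw [← hDd] at e5
  have e6 : DG (G x) y x - avg U x' = (DG (G x) y x - D) - (avg U x' - D) := by ring
  rw [e6]
  exact (abs_sub _ _).trans (by linarith)

theorem avg_slow (h : Adm a G U) (σ ε : ℝ) (hσ : 0 < σ) (hσ1 : σ ≤ 1) (hε : 0 < ε) :
    ∃ R : ℝ, 1 ≤ R ∧ ∀ x x' : ℝ, R ≤ x → σ * x ≤ x' → x' ≤ x → |avg U x - avg U x'| ≤ ε := by
  obtain ⟨R, hR1, hR⟩ := avg_DG h σ (ε / 2) hσ hσ1 (by positivity)
  refine ⟨R, hR1, fun x x' hx h1 h2 => ?_⟩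
  have e1 := hR x x' hx h1 h2
  have e2 := hR x x hx (by nlinarith) le_rfl
  have e3 : avg U x - avg U x' = (DG (G x) (x ^ a) x - avg U x') - (DG (G x) (x ^ a) x - avg U x) :=
    by ring
  rw [e3]
  refine (abs_sub _ _).trans ?_
  linarith

open scoped Classical in
/-- comparison with the function for a fixed scale -/
theorem cmpG (h : Adm a G U) (σ ε : ℝ) (hσ : 0 < σ) (hσ1 : σ ≤ 1) (hε : 0 < ε) :
    ∃ R : ℝ, 1 ≤ R ∧ ∀ X : ℝ, R ≤ X → ∃ E : Finset Gi, E ⊆ ball 0 1 X ∧ (E.card : ℝ) ≤ ε * X ∧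
      ∀ z ∈ ball 0 1 X, σ * X ≤ (nm z : ℝ) → (z ∉ E → U z = G X (gN (Sz (X ^ a) X z))) ∧
        |avg U (nm z) - DG (G X) (X ^ a) X| ≤ ε := by
  obtain ⟨R₁, hR₁1, hR₁⟩ := h.ap σ ε hσ hσ1 hε
  obtain ⟨R₂, hR₂1, hR₂⟩ := avg_DG h σ ε hσ hσ1 hε
  refine ⟨R₁ + R₂, by linarith, fun X hX => ?_⟩
  refine ⟨_, Finset.filter_subset _ _, hR₁ X (by linarith), ?_⟩
  intro z hz hzσ
  have hz' := (mem_ball hD).1 hz
  constructor
  · intro hzE
    by_contra h1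
    exact hzE (mem_filter.2 ⟨hz, hzσ, h1⟩)
  · rw [abs_sub_comm]
    exact hR₂ X (nm z) (by linarith) hzσ hz'.2

end Pool.Agent.T2H34
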