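import Pool.Agent.T2H34.Dl
import Pool.Agent.W251.EX.Defs

/-!
Arbitrary functions of the large prime divisors, in residue classes.
-/

set_option autoImplicit false

namespace Pool.Agent.T2H34

open Finset
open Pool.Agent.W78.GA
open Pool.Agent.W78.EC (Gi)
open Pool.Agent.W991.EC (hD mul_inj card_ball)
open Pool.Agent.W251.GX (Cm)

open scoped Classical in
/-- the prime elements dividing `z` -/
noncomputable def Sz (y x : ℝ) (z : Gi) : Finset (ℕ × Bool) := (II y x).filter (fun i => gp i ∣ z)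

/-- the Moebius transform -/
noncomputable def mo (g : ℕ → ℝ) (S : Finset (ℕ × Bool)) : ℝ :=
  ∑ T ∈ S.powerset, (-1 : ℝ) ^ (S \ T).card * g (gN T)

open scoped Classical in
/-- the main term -/
noncomputable def DG (g : ℕ → ℝ) (y x : ℝ) : ℝ :=
  ∑ S ∈ (II y x).powerset.filter (fun S => (gN S : ℝ) ≤ x), mo g S / gN S

theorem alt_sum {U T : Finset (ℕ × Bool)} (hT : T ⊆ U) :
    ∑ S ∈ U.powerset.filter (fun S => T ⊆ S), (-1 : ℝ) ^ (S \ T).card = if T = U then 1 else 0 := by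
  have h1 : ∑ S ∈ U.powerset.filter (fun S => T ⊆ S), (-1 : ℝ) ^ (S \ T).card =
      ∑ R ∈ (U \ T).powerset, (-1 : ℝ) ^ R.card := by
    refine Finset.sum_nbij' (fun S => S \ T) (fun R => R ∪ T) ?_ ?_ ?_ ?_ ?_
    · intro S hS
      rw [mem_filter, mem_powerset] at hS
      rw [mem_powerset]
      exact Finset.sdiff_subset_sdiff hS.1 (subset_refl T)
    · intro R hR
      rw [mem_powerset] at hR
      rw [mem_filter, mem_powerset]
      exact ⟨Finset.union_subset (hR.trans Finset.sdiff_subset) hT, Finset.subset_union_right⟩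
    · intro S hS
      rw [mem_filter, mem_powerset] at hS
      exact Finset.sdiff_union_of_subset hS.2
    · intro R hR
      rw [mem_powerset] at hR
      rw [Finset.union_sdiff_right]
      refine Finset.sdiff_eq_self_of_disjoint ?_
      rw [Finset.disjoint_left]
      intro i hi hiT
      exact (mem_sdiff.1 (hR hi)).2 hiT
    · intro S _
      rfl
  rw [h1]
  have h2 := Finset.sum_powerset_neg_one_pow_card (x := U \ T)
  have h3 : ∑ S ∈ (U \ T).powerset, (-1 : ℝ) ^ S.card = if U \ T = ∅ then 1 else 0 := by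
    exact_mod_cast congrArg (fun n : ℤ => (n : ℝ)) h2
  rw [h3]
  refine if_congr ?_ rfl rfl
  rw [Finset.sdiff_eq_empty_iff_subset]
  exact ⟨fun h => subset_antisymm hT h, fun h => h ▸ subset_refl _⟩

theorem mo_inv (g : ℕ → ℝ) (U : Finset (ℕ × Bool)) : ∑ S ∈ U.powerset, mo g S = g (gN U) := by
  unfold mo
  have h1 : ∑ S ∈ U.powerset, ∑ T ∈ S.powerset, (-1 : ℝ) ^ (S \ T).card * g (gN T) =
      ∑ T ∈ U.powerset, ∑ S ∈ U.powerset.filter (fun S => T ⊆ S),
        (-1 : ℝ) ^ (S \ T).card * g (gN T) := by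
    refine Finset.sum_comm' ?_
    intro S T
    rw [mem_filter, mem_powerset, mem_powerset, mem_powerset]
    constructor
    · rintro ⟨a, b⟩
      exact ⟨⟨a, b⟩, b.trans a⟩
    · rintro ⟨⟨a, b⟩, -⟩
      exact ⟨a, b⟩
  rw [h1]
  have h2 : ∀ T ∈ U.powerset, ∑ S ∈ U.powerset.filter (fun S => T ⊆ S),
      (-1 : ℝ) ^ (S \ T).card * g (gN T) = if T = U then g (gN T) else 0 := by
    intro T hT
    rw [← sum_mul, alt_sum (mem_powerset.1 hT)]
    split_ifs <;> simp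
  rw [sum_congr rfl h2, Finset.sum_ite_eq' U.powerset U (fun T => g (gN T)),
    if_pos (mem_powerset.2 (subset_refl U))]

theorem mo_le {g : ℕ → ℝ} (hg : ∀ n, |g n| ≤ 1) (S : Finset (ℕ × Bool)) : |mo g S| ≤ 2 ^ S.card := by
  unfold mo
  refine (Finset.abs_sum_le_sum_abs _ _).trans ?_
  have h1 : ∀ T ∈ S.powerset, |(-1 : ℝ) ^ (S \ T).card * g (gN T)| ≤ 1 := by
    intro T _
    rw [abs_mul, abs_pow, abs_neg, abs_one, one_pow, one_mul]
    exact hg _
  refine (Finset.sum_le_card_nsmul _ _ _ h1).trans ?_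
  rw [card_powerset, nsmul_eq_mul, mul_one]
  push_cast
  exact le_rfl

theorem card_le_k {y x : ℝ} {k : ℕ} (hy : 1 < y) (hxy : x ≤ y ^ k) {S : Finset (ℕ × Bool)}
    (hS : S ⊆ II y x) (hN : (gN S : ℝ) ≤ x) : S.card ≤ k := by
  have h1 : y ^ S.card ≤ (gN S : ℝ) := by
    unfold gN
    push_cast
    rw [← Finset.prod_const]
    refine Finset.prod_le_prod (fun i _ => by linarith) (fun i hi => ?_)
    exact (mem_II.1 (hS hi)).2.1.le
  exact (pow_le_pow_iff_right₀ hy).1 (h1.trans (hN.trans hxy))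

theorem mo_le' {g : ℕ → ℝ} (hg : ∀ n, |g n| ≤ 1) {y x : ℝ} {k : ℕ} (hy : 1 < y) (hxy : x ≤ y ^ k)
    {S : Finset (ℕ × Bool)} (hS : S ⊆ II y x) (hN : (gN S : ℝ) ≤ x) : |mo g S| ≤ 2 ^ k :=
  (mo_le hg S).trans (pow_le_pow_right₀ (by norm_num) (card_le_k hy hxy hS hN))

theorem Sz_sub {y x : ℝ} {z : Gi} : Sz y x z ⊆ II y x := by
  classical
  unfold Sz
  exact Finset.filter_subset _ _

theorem Sz_dvd {y x : ℝ} {z : Gi} : gP (Sz y x z) ∣ z := by
  classical
  rw [gP_dvd (II_G4 Sz_sub)]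
  intro i hi
  unfold Sz at hi
  exact (mem_filter.1 hi).2

theorem Sz_le {y x : ℝ} {z : Gi} (hz : z ∈ ball 0 1 x) : (gN (Sz y x z) : ℝ) ≤ x := by
  rw [mem_ball hD] at hz
  have h2 := nm_dvd (Sz_dvd (y := y) (x := x) (z := z))
  rw [nm_gP (II_G4 Sz_sub)] at h2
  have h3 : (gN (Sz y x z) : ℝ) ≤ nm z := by exact_mod_cast Nat.le_of_dvd (by omega) h2
  exact h3.trans hz.2

theorem sub_Sz {y x : ℝ} {z : Gi} {S : Finset (ℕ × Bool)} (hS : S ⊆ II y x) :
    S ⊆ Sz y x z ↔ gP S ∣ z := by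
  classical
  rw [gP_dvd (II_G4 hS)]
  unfold Sz
  constructor
  · intro h i hi
    exact (mem_filter.1 (h hi)).2
  · intro h i hi
    exact mem_filter.2 ⟨hS hi, h i hi⟩

/-- lower bound for the number of elements of a disc -/
theorem ball_lo1 : ∃ c : ℝ, 0 < c ∧ ∀ x : ℝ, 1 ≤ x → c * x ≤ ((ball 0 1 x).card : ℝ) := by
  obtain ⟨R, hR1, hR⟩ := ball_lo
  have hk := kp_pos
  have hR0 : 0 < R := by linarith
  refine ⟨min (kp / 2) (1 / R), lt_min (by positivity) (by positivity), fun x hx => ?_⟩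
  rcases le_or_gt R x with h | h
  · refine le_trans ?_ (hR x h)
    have := min_le_left (kp / 2) (1 / R)
    have h1 : min (kp / 2) (1 / R) * x ≤ kp / 2 * x := mul_le_mul_of_nonneg_right this (by linarith)
    linarith
  · have h1 : (1 : Gi) ∈ ball 0 1 x := by
      rw [mem_ball hD, nm_one]
      exact ⟨le_rfl, by push_cast; exact hx⟩
    have h2 : (1 : ℝ) ≤ ((ball 0 1 x).card : ℝ) := by
      exact_mod_cast Finset.card_pos.2 ⟨_, h1⟩
    refine le_trans ?_ h2
    have := min_le_right (kp / 2) (1 / R)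
    calc min (kp / 2) (1 / R) * x ≤ 1 / R * R := mul_le_mul this h.le (by linarith) (by positivity)
      _ = 1 := by field_simp

open scoped Classical in
/-- the sum of the inverses of the products -/
theorem sum_inv : ∃ C : ℝ, 1 ≤ C ∧ ∀ (k : ℕ) (y x : ℝ), 1 < y → 1 ≤ x → x ≤ y ^ k →
    ∑ S ∈ (II y x).powerset.filter (fun S => (gN S : ℝ) ≤ x), 1 / (gN S : ℝ) ≤ C * 2 ^ k := by
  obtain ⟨c, hc, hball⟩ := ball_lo1
  refine ⟨max 1 (9 / c), le_max_left _ _, fun k y x hy hx hxy => ?_⟩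
  have hx0 : 0 < x := by linarith
  obtain ⟨T, hT⟩ : ∃ T : ℝ, T = ∑ S ∈ (II y x).powerset.filter (fun S => (gN S : ℝ) ≤ x),
    1 / (gN S : ℝ) := ⟨_, rfl⟩
  have h1 : c * x * T ≤ ∑ S ∈ (II y x).powerset.filter (fun S => (gN S : ℝ) ≤ x),
      (((ball 0 1 x).filter (fun z => gP S ∣ z)).card : ℝ) := by
    rw [hT, mul_sum]
    refine sum_le_sum fun S hS => ?_
    rw [mem_filter, mem_powerset] at hS
    have hG := II_G4 hS.1
    have hN0 : (0 : ℝ) < gN S := by exact_mod_cast gN_pos hG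
    have e := card_mult (gP_ne hG) x (fun _ => True)
    rw [nm_gP hG] at e
    simp only [true_and, Finset.filter_true] at e
    rw [e]
    have h2 := hball (x / gN S) (by rw [one_le_div hN0]; exact hS.2)
    calc c * x * (1 / (gN S : ℝ)) = c * (x / gN S) := by ring
      _ ≤ _ := h2
  have h2 : ∑ S ∈ (II y x).powerset.filter (fun S => (gN S : ℝ) ≤ x),
      (((ball 0 1 x).filter (fun z => gP S ∣ z)).card : ℝ) ≤ 9 * x * 2 ^ k := by
    have e1 : ∑ S ∈ (II y x).powerset.filter (fun S => (gN S : ℝ) ≤ x),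
      (((ball 0 1 x).filter (fun z => gP S ∣ z)).card : ℝ) =
      ∑ z ∈ ball 0 1 x, (((((II y x).powerset.filter (fun S => (gN S : ℝ) ≤ x)).filter
        (fun S => gP S ∣ z)).card : ℕ) : ℝ) := by
      simp only [Finset.card_filter, Nat.cast_sum]
      exact Finset.sum_comm
    rw [e1]
    have h3 : ∀ z ∈ ball 0 1 x, (((((II y x).powerset.filter (fun S => (gN S : ℝ) ≤ x)).filter
        (fun S => gP S ∣ z)).card : ℕ) : ℝ) ≤ 2 ^ k := by
      intro z hz
      have h4 : ((II y x).powerset.filter (fun S => (gN S : ℝ) ≤ x)).filter (fun S => gP S ∣ z) ⊆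
          (Sz y x z).powerset := by
        intro S hS
        rw [mem_filter, mem_filter, mem_powerset] at hS
        rw [mem_powerset]
        exact (sub_Sz hS.1.1).2 hS.2
      have h5 := Finset.card_le_card h4
      rw [card_powerset] at h5
      have h6 : 2 ^ (Sz y x z).card ≤ 2 ^ k :=
        Nat.pow_le_pow_right (by norm_num) (card_le_k hy hxy Sz_sub (Sz_le hz))
      exact_mod_cast h5.trans h6
    refine (Finset.sum_le_card_nsmul _ _ _ h3).trans ?_
    rw [nsmul_eq_mul]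
    exact mul_le_mul_of_nonneg_right (card_ball hx0.le) (by positivity)
  have h3 : c * T ≤ 9 * 2 ^ k := by
    have h4 : x * (c * T) ≤ x * (9 * 2 ^ k) := by linarith
    exact le_of_mul_le_mul_left h4 hx0
  rw [← hT]
  have h5 : T ≤ 9 / c * 2 ^ k := by
    rw [div_mul_eq_mul_div, le_div_iff₀ hc]
    linarith
  exact h5.trans (mul_le_mul_of_nonneg_right (le_max_right _ _) (by positivity))

/-- the main term is bounded -/
theorem DG_le : ∃ C : ℝ, 1 ≤ C ∧ ∀ (k : ℕ) (g : ℕ → ℝ), (∀ n, |g n| ≤ 1) → ∀ y x : ℝ, 1 < y →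
    1 ≤ x → x ≤ y ^ k → |DG g y x| ≤ C * 4 ^ k := by
  classical
  obtain ⟨C, hC, h⟩ := sum_inv
  refine ⟨C, hC, fun k g hg y x hy hx hxy => ?_⟩
  unfold DG
  refine (Finset.abs_sum_le_sum_abs _ _).trans ?_
  have h1 : ∀ S ∈ (II y x).powerset.filter (fun S => (gN S : ℝ) ≤ x), |mo g S / (gN S : ℝ)| ≤
      2 ^ k * (1 / (gN S : ℝ)) := by
    intro S hS
    rw [mem_filter, mem_powerset] at hS
    have hN0 : (0 : ℝ) < gN S := by exact_mod_cast gN_pos (II_G4 hS.1)
    rw [abs_div, abs_of_pos hN0, ← div_eq_mul_one_div]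
    exact div_le_div_of_nonneg_right (mo_le' hg hy hxy hS.1 hS.2) hN0.le
  refine (sum_le_sum h1).trans ?_
  rw [← mul_sum]
  have h2 := mul_le_mul_of_nonneg_left (h k y x hy hx hxy) (by positivity : (0 : ℝ) ≤ 2 ^ k)
  refine h2.trans (le_of_eq ?_)
  rw [show (4 : ℝ) = 2 * 2 by norm_num, mul_pow]
  ring

open scoped Classical in
theorem sum_cb_mult {M : ℕ} {w : Gi} (hw : w ≠ 0) (h : Nat.Coprime (nm w) M) (x : ℝ) (r : Gi) :
    ∃ r' : Gi, ∀ F : Gi → ℂ, (∀ z v : Gi, z ≠ 0 → v ≠ 0 → F (z * v) = F z * F v) →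
      ∑ z ∈ (cb M x r).filter (fun z => w ∣ z), F z = F w * ∑ z ∈ cb M (x / nm w) r', F z := by
  obtain ⟨v, hv⟩ := inv_mod h
  refine ⟨v * r, fun F hF => ?_⟩
  unfold cb
  rw [filter_filter]
  have e := sum_mult hw x (fun z => (M : Gi) ∣ z - r) F
  rw [e, mul_sum]
  refine sum_congr ?_ fun z hz => ?_
  · refine filter_congr fun u _ => ?_
    exact dvd_inv hv u r
  · rw [mem_filter, mem_ball hD] at hz
    refine hF w z hw ?_
    exact (one_le_nm hD).1 hz.1.1

open scoped Classical in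
/-- the expansion -/
theorem expand {M : ℕ} (hM : 1 ≤ M) {y : ℝ} (hy : (M : ℝ) ≤ y) (x : ℝ) (r : Gi) :
    ∃ r' : Finset (ℕ × Bool) → Gi, ∀ F : Gi → ℂ,
      (∀ z v : Gi, z ≠ 0 → v ≠ 0 → F (z * v) = F z * F v) → ∀ g : ℕ → ℝ,
      ∑ z ∈ cb M x r, F z * (g (gN (Sz y x z)) : ℂ) =
        ∑ S ∈ (II y x).powerset.filter (fun S => (gN S : ℝ) ≤ x),
          (mo g S : ℂ) * (F (gP S) * ∑ w ∈ cb M (x / gN S) (r' S), F w) := by
  have hex : ∀ S : Finset (ℕ × Bool), ∃ r' : Gi, S ⊆ II y x → ∀ F : Gi → ℂ,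
      (∀ z v : Gi, z ≠ 0 → v ≠ 0 → F (z * v) = F z * F v) →
      ∑ z ∈ (cb M x r).filter (fun z => gP S ∣ z), F z =
        F (gP S) * ∑ z ∈ cb M (x / gN S) r', F z := by
    intro S
    by_cases hS : S ⊆ II y x
    · have hG := II_G4 hS
      have hcop : Nat.Coprime (nm (gP S)) M := by
        rw [nm_gP hG]
        refine Nat.Coprime.symm (Nat.coprime_of_dvd ?_)
        intro k hk h2 h3
        obtain ⟨i, hi, rfl⟩ := gN_prime hG hk h3
        have h4 := (mem_II.1 (hS hi)).2.1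
        have h5 : (i.1 : ℝ) ≤ M := by exact_mod_cast Nat.le_of_dvd (by omega) h2
        linarith
      obtain ⟨r', hr'⟩ := sum_cb_mult (gP_ne hG) hcop x r
      rw [nm_gP hG] at hr'
      exact ⟨r', fun _ => hr'⟩
    · exact ⟨0, fun h => absurd h hS⟩
  choose r' hr' using hex
  refine ⟨r', fun F hF g => ?_⟩
  have h1 : ∀ z ∈ cb M x r, F z * (g (gN (Sz y x z)) : ℂ) =
      ∑ S ∈ (II y x).powerset.filter (fun S => (gN S : ℝ) ≤ x),
        if gP S ∣ z then (mo g S : ℂ) * F z else 0 := by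
    intro z hz
    unfold cb at hz
    rw [mem_filter] at hz
    rw [← mo_inv g (Sz y x z), ← sum_filter]
    push_cast
    rw [mul_sum]
    have e1 : (Sz y x z).powerset = ((II y x).powerset.filter (fun S => (gN S : ℝ) ≤ x)).filter
        (fun S => gP S ∣ z) := by
      ext S
      rw [mem_filter, mem_filter, mem_powerset, mem_powerset]
      constructor
      · intro h
        have h2 := h.trans Sz_sub
        have h3 := (sub_Sz h2).1 h
        refine ⟨⟨h2, ?_⟩, h3⟩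
        have h4 := nm_dvd h3
        rw [nm_gP (II_G4 h2)] at h4
        have h5 := (mem_ball hD).1 hz.1
        have h6 : (gN S : ℝ) ≤ nm z := by exact_mod_cast Nat.le_of_dvd (by omega) h4
        exact h6.trans h5.2
      · rintro ⟨⟨h2, -⟩, h3⟩
        exact (sub_Sz h2).2 h3
    rw [e1]
    exact sum_congr rfl fun S _ => mul_comm _ _
  rw [sum_congr rfl h1, sum_comm]
  refine sum_congr rfl fun S hS => ?_
  rw [mem_filter, mem_powerset] at hS
  rw [← sum_filter, ← mul_sum, hr' S hS.1 F hF]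

theorem sum_gP' {y x : ℝ} (f : ℝ → ℝ) (hf : ∀ t, 0 ≤ f t) :
    ∑ S ∈ (open scoped Classical in (II y x).powerset.filter (fun S => (gN S : ℝ) ≤ x)), f (gN S) ≤
      ∑ z ∈ (open scoped Classical in (ball 0 1 x).filter (rgh y)), f (nm z) := by
  classical
  refine sum_gP _ ?_ f hf
  intro S hS
  rw [mem_filter, mem_powerset] at hS
  exact hS

/-- independence of the residue class -/
theorem cls_g {M : ℕ} (hM : 1 ≤ M) (k : ℕ) (ε : ℝ) (hε : 0 < ε) : ∃ R : ℝ, 1 ≤ R ∧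
    ∀ y x : ℝ, R ≤ y → R ≤ x → x ≤ y ^ k → ∀ g : ℕ → ℝ, (∀ n, |g n| ≤ 1) → ∀ r : Gi,
    |∑ z ∈ cb M x r, g (gN (Sz y x z)) - kp * x / (M : ℝ) ^ 2 * DG g y x| ≤ ε * x := by
  classical
  obtain ⟨C, hC, hcls⟩ := cls hM
  obtain ⟨R, hR1, hR⟩ := rough_sum (ε / (2 ^ k * C)) (by positivity)
  refine ⟨max R (M + 1), le_max_of_le_left hR1, fun y x hy hx hxy g hg r => ?_⟩
  have hyR : R ≤ y := (le_max_left _ _).trans hy
  have hyM : (M : ℝ) + 1 ≤ y := (le_max_right _ _).trans hy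
  have hM0 : (1 : ℝ) ≤ M := by exact_mod_cast hM
  have hx1 : 1 ≤ x := hR1.trans ((le_max_left _ _).trans hx)
  obtain ⟨r', hr'⟩ := expand hM (y := y) (by linarith) x r
  have h1 := hr' (fun _ => 1) (fun _ _ _ _ => (one_mul 1).symm) g
  have h2 : ∑ z ∈ cb M x r, g (gN (Sz y x z)) =
      ∑ S ∈ (II y x).powerset.filter (fun S => (gN S : ℝ) ≤ x),
        mo g S * ((cb M (x / gN S) (r' S)).card : ℝ) := by
    have h3 : ((∑ z ∈ cb M x r, g (gN (Sz y x z)) : ℝ) : ℂ) =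
        ((∑ S ∈ (II y x).powerset.filter (fun S => (gN S : ℝ) ≤ x),
        mo g S * ((cb M (x / gN S) (r' S)).card : ℝ) : ℝ) : ℂ) := by
      push_cast
      simpa using h1
    exact_mod_cast h3
  rw [h2]
  unfold DG
  rw [mul_sum, ← sum_sub_distrib]
  have hterm : ∀ S ∈ (II y x).powerset.filter (fun S => (gN S : ℝ) ≤ x),
      |mo g S * ((cb M (x / gN S) (r' S)).card : ℝ) - kp * x / (M : ℝ) ^ 2 * (mo g S / gN S)| ≤
      2 ^ k * C * Real.sqrt (x / gN S) := by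
    intro S hS
    rw [mem_filter, mem_powerset] at hS
    have hG := II_G4 hS.1
    have hN0 : (0 : ℝ) < gN S := by exact_mod_cast gN_pos hG
    have h3 := hcls (x / gN S) (by rw [one_le_div hN0]; exact hS.2) (r' S)
    have e : mo g S * ((cb M (x / gN S) (r' S)).card : ℝ) -
        kp * x / (M : ℝ) ^ 2 * (mo g S / gN S) =
        mo g S * (((cb M (x / gN S) (r' S)).card : ℝ) - kp * (x / gN S) / (M : ℝ) ^ 2) := by ring
    rw [e, abs_mul, mul_assoc]
    exact mul_le_mul (mo_le' hg (by linarith) hxy hS.1 hS.2) h3 (abs_nonneg _) (by positivity)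
  refine (Finset.abs_sum_le_sum_abs _ _).trans ((sum_le_sum hterm).trans ?_)
  rw [← mul_sum]
  have h3 := sum_gP' (y := y) (x := x) (fun t => Real.sqrt (x / t)) (fun t => Real.sqrt_nonneg _)
  have h4 := hR y x hyR ((le_max_left _ _).trans hx)
  refine (mul_le_mul_of_nonneg_left (h3.trans h4) (by positivity)).trans (le_of_eq ?_)
  field_simp

/-- the main term varies slowly -/
theorem DG_slow (k : ℕ) (σ ε : ℝ) (hσ : 0 < σ) (hε : 0 < ε) : ∃ R : ℝ, 1 < R ∧
    ∀ g : ℕ → ℝ, (∀ n, |g n| ≤ 1) → ∀ y x x' : ℝ, R ≤ y → R ≤ x → x ≤ y ^ k → σ * x ≤ x' →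
      x' ≤ x → |DG g y x - DG g y x'| ≤ ε := by
  classical
  obtain ⟨R, hR1, hR⟩ := rough_cnt (ε * σ / 2 ^ k) (by positivity)
  refine ⟨R + 1, by linarith, fun g hg y x x' hy hx hxy h1 h2 => ?_⟩
  have hx0 : 0 < x := by linarith
  have hx'0 : 0 < x' := lt_of_lt_of_le (by positivity) h1
  have e1 : DG g y x' = ∑ S ∈ ((II y x).powerset.filter (fun S => (gN S : ℝ) ≤ x)).filter
      (fun S => (gN S : ℝ) ≤ x'), mo g S / gN S := by
    unfold DG
    refine sum_congr ?_ fun _ _ => rfl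
    ext S
    rw [mem_filter, mem_filter, mem_filter, mem_powerset, mem_powerset]
    constructor
    · rintro ⟨h3, h4⟩
      refine ⟨⟨fun i hi => ?_, h4.trans h2⟩, h4⟩
      have h5 := mem_II.1 (h3 hi)
      rw [mem_II]
      exact ⟨h5.1, h5.2.1, h5.2.2.trans (Nat.floor_le_floor h2)⟩
    · rintro ⟨⟨h3, h4⟩, h5⟩
      refine ⟨fun i hi => ?_, h5⟩
      have h6 := mem_II.1 (h3 hi)
      rw [mem_II]
      refine ⟨h6.1, h6.2.1, Nat.le_floor ?_⟩
      have h7 : (i.1 : ℝ) ≤ gN S := by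
        exact_mod_cast Nat.le_of_dvd (gN_pos (II_G4 h3)) (gN_dvd hi)
      exact h7.trans h5
  have e2 : DG g y x - DG g y x' = ∑ S ∈ ((II y x).powerset.filter
      (fun S => (gN S : ℝ) ≤ x)).filter (fun S => ¬ (gN S : ℝ) ≤ x'), mo g S / gN S := by
    rw [e1]
    unfold DG
    rw [← sum_filter_add_sum_filter_not ((II y x).powerset.filter (fun S => (gN S : ℝ) ≤ x))
      (fun S => (gN S : ℝ) ≤ x')]
    ring
  rw [e2]
  refine (Finset.abs_sum_le_sum_abs _ _).trans ?_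
  have h3 : ∑ S ∈ ((II y x).powerset.filter (fun S => (gN S : ℝ) ≤ x)).filter
      (fun S => ¬ (gN S : ℝ) ≤ x'), |mo g S / gN S| ≤
      ∑ S ∈ ((II y x).powerset.filter (fun S => (gN S : ℝ) ≤ x)).filter
      (fun S => ¬ (gN S : ℝ) ≤ x'), (fun _ : ℝ => 2 ^ k * (1 / x')) (gN S) := by
    refine sum_le_sum fun S hS => ?_
    rw [mem_filter, mem_filter, mem_powerset] at hS
    have h4 : x' < gN S := not_le.1 hS.2
    have hN0 : (0 : ℝ) < gN S := hx'0.trans h4
    rw [abs_div, abs_of_pos hN0, div_eq_mul_one_div]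
    exact mul_le_mul (mo_le' hg (by linarith) hxy hS.1.1 hS.1.2)
      (one_div_le_one_div_of_le hx'0 h4.le) (by positivity) (by positivity)
  refine h3.trans ?_
  refine (sum_gP (y := y) (x := x) _ ?_ (fun _ => 2 ^ k * (1 / x'))
    (fun _ => by positivity)).trans ?_
  · intro S hS
    rw [mem_filter, mem_filter, mem_powerset] at hS
    exact hS.1
  · rw [sum_const, nsmul_eq_mul]
    have h5 := hR y x (by linarith) (by linarith)
    calc _ ≤ ε * σ / 2 ^ k * x * (2 ^ k * (1 / x')) :=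
          mul_le_mul_of_nonneg_right h5 (by positivity)
      _ = ε * (σ * x / x') := by field_simp
      _ ≤ ε * 1 := by
          refine mul_le_mul_of_nonneg_left ?_ hε.le
          rw [div_le_one hx'0]
          exact h1
      _ = ε := mul_one ε

/-- functions with mean value zero in residue classes -/
theorem cls_t {M : ℕ} (hM : 1 ≤ M) {N : ℕ} {F : Gi → ℂ} (hF : Pool.Agent.W251.EX.Apd N F) (k : ℕ)
    (ε : ℝ) (hε : 0 < ε) : ∃ R : ℝ, 1 ≤ R ∧
    ∀ y x : ℝ, R ≤ y → R ≤ x → x ≤ y ^ k → ∀ g : ℕ → ℝ, (∀ n, |g n| ≤ 1) → ∀ r : Gi,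
    ‖∑ z ∈ cb M x r, F z * (g (gN (Sz y x z)) : ℂ)‖ ≤ ε * x := by
  classical
  have hFn : ∀ z, ‖F z‖ = 1 := fun z =>
    Complex.norm_eq_one_of_pow_eq_one (hF.cm.pow z) (by have := hF.cm.pos; omega)
  obtain ⟨C₀, hC₀, hinv⟩ := sum_inv
  obtain ⟨ε₁, hε₁⟩ : ∃ ε₁ : ℝ, ε₁ = ε / (2 * 2 ^ k * (C₀ * 2 ^ k)) := ⟨_, rfl⟩
  have hC₀0 : 0 < C₀ := by linarith
  have hε₁0 : 0 < ε₁ := by rw [hε₁]; positivity
  have hmean : ∀ s : ℕ × ℕ, ∃ X₀ : ℝ, ∀ X : ℝ, X₀ ≤ X → ‖∑ z ∈ cb M X (gz s), F z‖ ≤ ε₁ * X := by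
    intro s
    obtain ⟨X₀, hX₀⟩ := hF.mean M s.1 s.2 hM ε₁ hε₁0
    refine ⟨X₀, fun X hX => ?_⟩
    have h1 := hX₀ X hX
    have e : cb M X (gz s) = (ball 0 1 X).filter
        (fun z => (M : ℤ) ∣ z.re - s.1 ∧ (M : ℤ) ∣ z.im - s.2) := by
      unfold cb
      refine filter_congr fun z _ => ?_
      rw [natCast_dvd]
      exact Iff.rfl
    rw [e]
    convert h1
  choose X₀ hX₀ using hmean
  obtain ⟨XM, hXM⟩ : ∃ XM : ℝ, XM = 1 + ∑ s ∈ range M ×ˢ range M, |X₀ s| := ⟨_, rfl⟩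
  have hXM1 : 1 ≤ XM := by
    rw [hXM]
    have : 0 ≤ ∑ s ∈ range M ×ˢ range M, |X₀ s| := sum_nonneg fun _ _ => abs_nonneg _
    linarith
  have hmean2 : ∀ (r : Gi) (X : ℝ), XM ≤ X → ‖∑ z ∈ cb M X r, F z‖ ≤ ε₁ * X := by
    intro r X hX
    obtain ⟨s, hs, hrs⟩ := red hM r
    rw [cb_congr hrs]
    refine hX₀ s X ?_
    have h1 := single_le_sum (f := fun s => |X₀ s|) (fun _ _ => abs_nonneg _) hs
    have h2 := le_abs_self (X₀ s)
    linarith
  obtain ⟨R, hR1, hR⟩ := rough_cnt (ε / (2 * 2 ^ k * (9 * XM))) (by positivity)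
  refine ⟨max R (M + 1), le_max_of_le_left hR1, fun y x hy hx hxy g hg r => ?_⟩
  have hyR : R ≤ y := (le_max_left _ _).trans hy
  have hyM : (M : ℝ) + 1 ≤ y := (le_max_right _ _).trans hy
  have hM0 : (1 : ℝ) ≤ M := by exact_mod_cast hM
  have hxR : R ≤ x := (le_max_left _ _).trans hx
  have hx1 : 1 ≤ x := hR1.trans hxR
  have hx0 : 0 < x := by linarith
  obtain ⟨r', hr'⟩ := expand hM (y := y) (by linarith) x r
  rw [hr' F hF.cm.mul g]
  have hterm : ∀ S ∈ (II y x).powerset.filter (fun S => (gN S : ℝ) ≤ x),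
      ‖(mo g S : ℂ) * (F (gP S) * ∑ w ∈ cb M (x / gN S) (r' S), F w)‖ ≤
      2 ^ k * (ε₁ * x) * (1 / (gN S : ℝ)) + 2 ^ k * (9 * XM) := by
    intro S hS
    rw [mem_filter, mem_powerset] at hS
    have hG := II_G4 hS.1
    have hN0 : (0 : ℝ) < gN S := by exact_mod_cast gN_pos hG
    rw [norm_mul, norm_mul, hFn, one_mul, Complex.norm_real, Real.norm_eq_abs]
    have h1 := mo_le' hg (by linarith) hxy hS.1 hS.2
    have h2 : ‖∑ w ∈ cb M (x / gN S) (r' S), F w‖ ≤ ε₁ * (x / gN S) + 9 * XM := by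
      rcases le_or_gt XM (x / gN S) with h3 | h3
      · have := hmean2 (r' S) _ h3
        have h4 : 0 ≤ 9 * XM := by positivity
        linarith
      · have h4 : ‖∑ w ∈ cb M (x / gN S) (r' S), F w‖ ≤ ((cb M (x / gN S) (r' S)).card : ℝ) := by
          refine (norm_sum_le _ _).trans ?_
          rw [Finset.sum_congr rfl fun w _ => hFn w, sum_const, nsmul_eq_mul, mul_one]
        have h5 : ((cb M (x / gN S) (r' S)).card : ℝ) ≤ ((ball 0 1 (x / gN S)).card : ℝ) := by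
          unfold cb
          exact_mod_cast Finset.card_filter_le _ _
        have h6 := card_ball (X := x / gN S) (by positivity)
        have h7 : 0 ≤ ε₁ * (x / gN S) := by positivity
        linarith
    calc |mo g S| * ‖∑ w ∈ cb M (x / gN S) (r' S), F w‖ ≤
          2 ^ k * (ε₁ * (x / gN S) + 9 * XM) :=
          mul_le_mul h1 h2 (norm_nonneg _) (by positivity)
      _ = _ := by ring
  refine (norm_sum_le _ _).trans ((sum_le_sum hterm).trans ?_)
  rw [sum_add_distrib, ← mul_sum]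
  have h1 := hinv k y x (by linarith) hx1 hxy
  have h2 : 2 ^ k * (ε₁ * x) * ∑ S ∈ (II y x).powerset.filter (fun S => (gN S : ℝ) ≤ x),
      1 / (gN S : ℝ) ≤ ε / 2 * x := by
    refine (mul_le_mul_of_nonneg_left h1 (by positivity)).trans (le_of_eq ?_)
    rw [hε₁]
    field_simp
  have h3 := sum_gP' (y := y) (x := x) (fun _ => 2 ^ k * (9 * XM)) (fun _ => by positivity)
  rw [sum_const (s := (ball 0 1 x).filter (rgh y)), nsmul_eq_mul] at h3
  have h4 := hR y x hyR hxR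
  have h5 : (((ball 0 1 x).filter (rgh y)).card : ℝ) * (2 ^ k * (9 * XM)) ≤ ε / 2 * x := by
    refine (mul_le_mul_of_nonneg_right h4 (by positivity)).trans (le_of_eq ?_)
    field_simp
  linarith

end Pool.Agent.T2H34
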