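import Pool.Agent.W378.EX.Mrx
import Pool.Agent.W84.FP.Defs
import Pool.Agent.T2H34.Fr
import Pool.Agent.T2H34.Baire

/-!
The Matomaki-Radziwill theorem for arbitrary bounded functions of the part of the norm free of the
primes of a system of elements, uniformly in the function.
-/

set_option autoImplicit false

namespace Pool.Agent.T2H34

open Finset
open Pool.Agent.H376R2.MR (FK)
open Pool.Agent.W78.GA (Qd nm prim Ele DPG pball ps)
open Pool.Agent.W78.EC (Gi Rw)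
open Pool.Agent.W84.FP (c1)
open Pool.Agent.W251.GX (Cm)
open Pool.Agent.W251.EX
open Pool.Agent.W378.EX (iS sc sc_per sc_scal sc_norm F' F'_pow GW_sum per_mul)

theorem cm_triv : Cm 1 (fun _ : Gi => (1 : ℂ)) where
  pos := le_rfl
  mul _ _ _ _ := (one_mul 1).symm
  pow _ := one_pow 1

theorem prim_ne' {z : Gi} (h : prim z) : z ≠ 0 := by
  rintro rfl
  unfold prim at h
  simp at h

theorem tx2 {Q : ℕ} [NeZero Q] {S : Gi → Prop} (hS : Per Q S) {Ap Bp M : ℕ → Prop} {E : ℕ}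
    {ρ : ℕ → ℤ} {ϖ : ℕ → Gi} (hE : Ele 0 1 Ap Bp M E ρ ϖ)
    (hAB : ∀ p, Ap p ∨ Bp p → Nat.Coprime p Q ∧ p % 4 = 1) (hc : ∀ m, M m → c1 Q (ϖ m))
    {g : ℕ → ℂ} (hg : ∀ n, ‖g n‖ ≤ 1) (χ : DirichletCharacter ℂ Q) :
    Tx M ϖ (F' Q (fun _ => 1) χ) (fun n => χ (n : ZMod Q))
      (fun z => sc Q S χ z * g (fr (fun p => Ap p ∨ Bp p) (nm z))) where
  bd := fun z => by
    rw [norm_mul]
    exact mul_le_one₀ (sc_norm χ z) (norm_nonneg _) (hg _)
  bb := fun n => χ.norm_le_one _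
  one := by
    rw [Nat.cast_one, map_one]
  mul := by
    classical
    intro m n u z hm hnm hu hz heq
    obtain ⟨p, p', hp, hp', hmp, _, _⟩ := hE.fac m hm
    have pp := (hE.prA p hp).1
    have pp' := (hE.prB p' hp').1
    have hn : Nat.Coprime n Q ∧ n % 4 = 1 :=
      Pool.Agent.W320.FP.dvd_two pp pp' (hAB p (Or.inl hp)) (hAB p' (Or.inr hp'))
        (by rw [← hmp]; exact hnm)
    obtain ⟨⟨y, hy⟩, hx, hx4⟩ := hc m hm
    have hnm' := (hE.elt m hm).1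
    have hm0 : m ≠ 0 := by rw [hmp]; exact Nat.mul_ne_zero pp.ne_zero pp'.ne_zero
    have hn0 : n ≠ 0 := by
      rintro rfl
      omega
    -- the functions `g`
    have hD : (0 : ℤ) ^ 2 < 4 * 1 := by norm_num
    have hu0 : nm u ≠ 0 := by
      have := (Pool.Agent.W78.GA.one_le_nm hD).2 (prim_ne' hu)
      omega
    have hz0 : nm z ≠ 0 := by
      have := (Pool.Agent.W78.GA.one_le_nm hD).2 (prim_ne' hz)
      omega
    have hPm : ∀ q : ℕ, q.Prime → q ∣ m → Ap q ∨ Bp q := by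
      intro q hq hqm
      rw [hmp] at hqm
      rcases (Nat.Prime.dvd_mul hq).1 hqm with h | h
      · rw [(Nat.prime_dvd_prime_iff_eq hq pp).1 h]; exact Or.inl hp
      · rw [(Nat.prime_dvd_prime_iff_eq hq pp').1 h]; exact Or.inr hp'
    have hnorm : m * nm u = n ^ 2 * nm z := by
      have e := congrArg nm heq
      rw [Pool.Agent.W78.GA.nm_mul, Pool.Agent.W78.GA.nm_mul, hnm',
        Pool.Agent.W78.GA.nm_natCast] at e
      exact e
    have hfr : fr (fun p => Ap p ∨ Bp p) (nm u) = fr (fun p => Ap p ∨ Bp p) (nm z) := by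
      have e1 := fr_mul (fun p => Ap p ∨ Bp p) hm0 hu0
      have e2 := fr_mul (fun p => Ap p ∨ Bp p) (pow_ne_zero 2 hn0) hz0
      rw [fr_one (fun p => Ap p ∨ Bp p) hPm, one_mul] at e1
      rw [fr_one (fun p => Ap p ∨ Bp p) (fun q hq hqn =>
        hPm q hq ((hq.dvd_of_dvd_pow hqn).trans hnm)), one_mul] at e2
      rw [← e1, ← e2, hnorm]
    -- the functions `sc`
    have hxu : IsUnit (((ϖ m).re : ℤ) : ZMod Q) :=
      (ZMod.coe_int_isUnit_iff_isCoprime _ _).2 hx.symm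
    have hnu : IsUnit (((n : ℤ)) : ZMod Q) :=
      (ZMod.coe_int_isUnit_iff_isCoprime _ _).2 (Nat.isCoprime_iff_coprime.2 hn.1).symm
    have e2 : sc Q S χ (ϖ m * u) = χ (((ϖ m).re : ℤ) : ZMod Q) * sc Q S χ u := by
      rw [← sc_scal hS χ hxu u]
      apply sc_per hS
      · refine ⟨-(y * u.im), ?_⟩
        simp only [QuadraticAlgebra.re_mul, QuadraticAlgebra.re_intCast,
          QuadraticAlgebra.im_intCast, Int.cast_id]
        rw [hy]
        ring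
      · refine ⟨y * u.re, ?_⟩
        simp only [QuadraticAlgebra.im_mul, QuadraticAlgebra.re_intCast,
          QuadraticAlgebra.im_intCast, Int.cast_id]
        rw [hy]
        ring
    have e3 : sc Q S χ ((n : Gi) * z) = χ (n : ZMod Q) * sc Q S χ z := by
      have h := sc_scal hS χ hnu z
      rw [Int.cast_natCast, Int.cast_natCast] at h
      exact h
    rw [heq, e3] at e2
    have e4 : F' Q (fun _ => 1) χ (ϖ m) = χ (((ϖ m).re : ℤ) : ZMod Q) := by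
      unfold F'
      rw [if_pos hxu, one_mul]
    rw [e4]
    simp only [hfr]
    linear_combination (-(g (fr (fun p => Ap p ∨ Bp p) (nm z)))) * e2

open scoped Classical in
/-- the pointwise statement -/
theorem mrx2 (h : S_MRG 0 1) {M : ℕ} {S : Gi → Prop} (hM : 1 ≤ M) (hS : Per M S)
    {Ap Bp M' : ℕ → Prop} {E : ℕ} {ρ : ℕ → ℤ} {ϖ : ℕ → Gi} (hE : Ele 0 1 Ap Bp M' E ρ ϖ)
    (hp : ∀ p, Ap p ∨ Bp p → Nat.Coprime p (4 * M) ∧ p % 4 = 1) (hc : ∀ m, M' m → c1 (4 * M) (ϖ m))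
    {g : ℕ → ℂ} (hg : ∀ n, ‖g n‖ ≤ 1) {Λ : ℝ} {wt : ℝ → ℝ} (hw : Rw Λ wt) (η : ℝ) (hη : 0 < η) :
    ∃ h : ℝ, 1 ≤ h ∧ ∃ Y₀ : ℝ, ∀ Y : ℝ, Y₀ ≤ Y → ∑ k ∈ (FK ⌊Y / h⌋₊).erase 0,
      ‖GW wt (FS S (fun z => g (fr (fun p => Ap p ∨ Bp p) (nm z)))) Y k‖ ^ 2 ≤ η := by
  have : NeZero (4 * M) := ⟨by omega⟩
  have hS' : Per (4 * M) S := per_mul hS 4
  obtain ⟨F, hFd⟩ : ∃ F : Gi → ℂ, F = fun z => g (fr (fun p => Ap p ∨ Bp p) (nm z)) := ⟨_, rfl⟩
  rw [← hFd]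
  have hn0 : 0 < Fintype.card (DirichletCharacter ℂ (4 * M)) := Fintype.card_pos
  obtain ⟨n, hn⟩ : ∃ n : ℝ, n = (Fintype.card (DirichletCharacter ℂ (4 * M)) : ℝ) := ⟨_, rfl⟩
  have hnpos : 0 < n := by rw [hn]; exact_mod_cast hn0
  have hpow : 1 ≤ 1 * (4 * M).totient :=
    Nat.mul_pos one_pos (Nat.totient_pos.2 (by omega))
  have key : ∀ χ : DirichletCharacter ℂ (4 * M), ∃ h : ℝ, 1 ≤ h ∧ ∃ Y₀ : ℝ, ∀ Y : ℝ, Y₀ ≤ Y →
      ∑ k ∈ (FK ⌊Y / h⌋₊).erase 0, ‖GW wt (fun z => sc (4 * M) S χ z * F z) Y k‖ ^ 2 ≤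
        η / n ^ 2 := by
    intro χ
    have h1 := h Ap Bp M' E ρ ϖ hE _ (F' (4 * M) (fun _ => 1) χ) _ _ hpow (F'_pow cm_triv χ)
      (tx2 hS' hE hp hc hg χ) Λ wt hw (η / n ^ 2) (by positivity)
    rw [hFd]
    exact h1
  choose hh hh1 Y₀ hY using key
  refine ⟨∑ χ, hh χ, ?_, ∑ χ, |Y₀ χ|, ?_⟩
  · obtain ⟨χ₀⟩ : Nonempty (DirichletCharacter ℂ (4 * M)) := Fintype.card_pos_iff.1 hn0
    exact (hh1 χ₀).trans (Finset.single_le_sum (f := hh)
      (fun χ _ => zero_le_one.trans (hh1 χ)) (Finset.mem_univ χ₀))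
  · intro Y hYY
    have hY0 : 0 ≤ Y := (Finset.sum_nonneg fun χ _ => abs_nonneg (Y₀ χ)).trans hYY
    have hle : ∀ χ, hh χ ≤ ∑ χ, hh χ := fun χ => Finset.single_le_sum (f := hh)
      (fun χ _ => zero_le_one.trans (hh1 χ)) (Finset.mem_univ χ)
    have hYle : ∀ χ, Y₀ χ ≤ Y := fun χ => (le_abs_self _).trans
      ((Finset.single_le_sum (f := fun χ => |Y₀ χ|) (fun χ _ => abs_nonneg _)
        (Finset.mem_univ χ)).trans hYY)
    have h1 : ∀ k : ℤ, ‖GW wt (FS S F) Y k‖ ^ 2 ≤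
        n * ∑ χ : DirichletCharacter ℂ (4 * M),
          ‖GW wt (fun z => sc (4 * M) S χ z * F z) Y k‖ ^ 2 := by
      intro k
      rw [GW_sum wt hS' F Y k]
      refine (pow_le_pow_left₀ (norm_nonneg _) (norm_sum_le _ _) 2).trans ?_
      have := sq_sum_le_card_mul_sum_sq (s := (Finset.univ : Finset (DirichletCharacter ℂ (4 * M))))
        (f := fun χ => ‖GW wt (fun z => sc (4 * M) S χ z * F z) Y k‖)
      rw [Finset.card_univ, ← hn] at this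
      exact this
    calc ∑ k ∈ (FK ⌊Y / ∑ χ, hh χ⌋₊).erase 0, ‖GW wt (FS S F) Y k‖ ^ 2
        ≤ ∑ k ∈ (FK ⌊Y / ∑ χ, hh χ⌋₊).erase 0, n * ∑ χ : DirichletCharacter ℂ (4 * M),
          ‖GW wt (fun z => sc (4 * M) S χ z * F z) Y k‖ ^ 2 :=
          Finset.sum_le_sum fun k _ => h1 k
      _ = n * ∑ χ : DirichletCharacter ℂ (4 * M), ∑ k ∈ (FK ⌊Y / ∑ χ, hh χ⌋₊).erase 0,
          ‖GW wt (fun z => sc (4 * M) S χ z * F z) Y k‖ ^ 2 := by
          rw [← Finset.mul_sum, Finset.sum_comm]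
      _ ≤ n * ∑ χ : DirichletCharacter ℂ (4 * M), η / n ^ 2 := by
          refine mul_le_mul_of_nonneg_left (Finset.sum_le_sum fun χ _ => ?_) hnpos.le
          refine (Finset.sum_le_sum_of_subset_of_nonneg ?_ fun _ _ _ => by positivity).trans
            (hY χ Y (hYle χ))
          exact FKe hY0 (by linarith [hh1 χ]) (hle χ)
      _ = η := by
          rw [Finset.sum_const, Finset.card_univ, nsmul_eq_mul, ← hn]
          field_simp

/-- the uniform statement -/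
theorem mru (h : S_MRG 0 1) {M : ℕ} {S : Gi → Prop} (hM : 1 ≤ M) (hS : Per M S)
    {Ap Bp M' : ℕ → Prop} {E : ℕ} {ρ : ℕ → ℤ} {ϖ : ℕ → Gi} (hE : Ele 0 1 Ap Bp M' E ρ ϖ)
    (hp : ∀ p, Ap p ∨ Bp p → Nat.Coprime p (4 * M) ∧ p % 4 = 1) (hc : ∀ m, M' m → c1 (4 * M) (ϖ m))
    {Λ : ℝ} {wt : ℝ → ℝ} (hw : Rw Λ wt) (η : ℝ) (hη : 0 < η) :
    ∃ h : ℝ, 1 ≤ h ∧ ∃ Y₀ : ℝ, ∀ g : ℕ → ℂ, (∀ n, ‖g n‖ ≤ 1) → ∀ Y : ℝ, Y₀ ≤ Y →
      ∑ k ∈ (FK ⌊Y / h⌋₊).erase 0,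
      ‖GW wt (FS S (fun z => g (fr (fun p => Ap p ∨ Bp p) (nm z)))) Y k‖ ^ 2 ≤ η := by
  classical
  refine baire_uni (fun g Y k => GW wt (FS S (fun z => g (fr (fun p => Ap p ∨ Bp p) (nm z)))) Y k)
    ?_ ?_ ?_ η hη
  · intro a b g g' Y k
    simp only
    unfold GW DPG
    rw [mul_sum, mul_sum, ← sum_add_distrib]
    refine sum_congr rfl fun z _ => ?_
    unfold FS
    by_cases hz : S z
    · simp only [hz, if_true]
      ring
    · simp only [hz, if_false]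
      ring
  · intro Y k
    unfold GW DPG
    refine continuous_finsetSum _ fun z _ => ?_
    unfold FS
    by_cases hz : S z
    · simp only [hz, if_true]
      fun_prop
    · simp only [hz, if_false]
      fun_prop
  · intro g hg η' hη'
    exact mrx2 h hM hS hE hp hc hg hw η' hη'

end Pool.Agent.T2H34
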