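import Pool.Agent.W251.EX.AllA
import Pool.Agent.T2H34.Ele
import Pool.Agent.T2H34.Uni
import Pool.Agent.T2H34.Small

/-!
The Matomaki-Radziwill theorem for the elements without large prime factors, and the bilinear
estimate.
-/

set_option autoImplicit false

namespace Pool.Agent.T2H34

open Finset
open Pool.Agent.H376R2.MR (FK)
open Pool.Agent.W78.GA hiding S_DEC S_MOM0 S_MOMP S_MOM S_MR S_PAIR S_BETW GG PE
open Pool.Agent.W78.EC (Gi Rw)
open Pool.Agent.W84.FP (c1)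
open Pool.Agent.W991.EC (hD mul_inj card_ball)
open Pool.Agent.W251.EX (GW FS Per S_MRG Mrs Bt)

theorem spa_sum {P : ℕ → Prop} {w : ℝ} (hP : Spa P w) {a : ℝ} (ha0 : 0 < a) {m : ℕ}
    (hm : 4 / a ≤ 2 ^ m) {L : ℝ} (hL : 3 + 1 / a ≤ L) (s : Finset ℕ)
    (hs : ∀ p ∈ s, P p ∧ a * (L - 1) < Real.log p ∧ Real.log p ≤ L + 1) :
    ∑ p ∈ s, 1 / (p : ℝ) ≤ ((m : ℝ) + 1) * w := by
  have hia : 0 < 1 / a := by positivity
  have haL : 1 ≤ a * (L - 1) := by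
    have h1 : 1 / a ≤ L - 1 := by linarith
    rw [div_le_iff₀ ha0] at h1
    linarith
  obtain ⟨n₀, hn₀⟩ : ∃ n₀ : ℕ, n₀ = ⌊a * (L - 1)⌋₊ := ⟨_, rfl⟩
  have hn1 : 1 ≤ n₀ := by rw [hn₀]; exact Nat.le_floor (by push_cast; exact haL)
  have hn2 : a * (L - 1) < n₀ + 1 := by rw [hn₀]; exact Nat.lt_floor_add_one _
  obtain ⟨j₀, hj₀⟩ : ∃ j₀ : ℕ, j₀ = Nat.log 2 n₀ := ⟨_, rfl⟩
  have hup : L + 1 < 2 ^ m * n₀ := by
    have h1 : (1 : ℝ) ≤ n₀ := by exact_mod_cast hn1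
    have h2 : a * (L - 1) < 2 * n₀ := by linarith
    have h3 : L + 1 ≤ 2 * (L - 1) := by linarith
    have h4 : L - 1 < 2 * n₀ / a := by
      rw [lt_div_iff₀ ha0]; linarith
    calc L + 1 ≤ 2 * (L - 1) := h3
      _ < 2 * (2 * n₀ / a) := by linarith
      _ = (4 / a) * n₀ := by ring
      _ ≤ 2 ^ m * n₀ := mul_le_mul_of_nonneg_right hm (by linarith)
  have hmap : ∀ p ∈ s, Nat.log 2 ⌊Real.log p⌋₊ ∈ Icc j₀ (j₀ + m) := by
    intro p hp
    obtain ⟨-, h1, h2⟩ := hs p hp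
    rw [mem_Icc]
    constructor
    · rw [hj₀]
      apply Nat.log_mono_right
      rw [hn₀]
      exact Nat.floor_le_floor h1.le
    · have h3 : ⌊Real.log p⌋₊ < 2 ^ (j₀ + m + 1) := by
        have h4 : (⌊Real.log p⌋₊ : ℝ) ≤ Real.log p := Nat.floor_le (by linarith)
        have h5 : (⌊Real.log p⌋₊ : ℝ) < ((2 ^ m * n₀ : ℕ) : ℝ) := by
          push_cast
          linarith
        have h6 : ⌊Real.log p⌋₊ < 2 ^ m * n₀ := by exact_mod_cast h5
        have h7 : n₀ < 2 ^ (j₀ + 1) := by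
          rw [hj₀]
          exact Nat.lt_pow_succ_log_self (by norm_num) _
        calc ⌊Real.log p⌋₊ < 2 ^ m * n₀ := h6
          _ ≤ 2 ^ m * 2 ^ (j₀ + 1) := Nat.mul_le_mul_left _ h7.le
          _ = 2 ^ (j₀ + m + 1) := by rw [← pow_add]; congr 1; omega
      have h4 : Nat.log 2 ⌊Real.log p⌋₊ < j₀ + m + 1 := Nat.log_lt_of_lt_pow (by
        rw [← Nat.pos_iff_ne_zero]
        exact Nat.floor_pos.2 (by linarith)) h3
      omega
  rw [← Finset.sum_fiberwise_of_maps_to hmap]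
  have hterm : ∀ j ∈ Icc j₀ (j₀ + m), ∑ p ∈ s.filter (fun p : ℕ => Nat.log 2 ⌊Real.log p⌋₊ = j),
      1 / (p : ℝ) ≤ w := by
    intro j _
    refine hP j _ ?_
    intro p hp
    rw [mem_filter] at hp
    obtain ⟨h0, h1, h2⟩ := hs p hp.1
    have h3 : ⌊Real.log p⌋₊ ≠ 0 := by
      rw [← Nat.pos_iff_ne_zero]
      exact Nat.floor_pos.2 (by linarith)
    refine ⟨h0, ?_, ?_⟩
    · have h4 : 2 ^ j ≤ ⌊Real.log p⌋₊ := by
        rw [← hp.2]
        exact Nat.pow_log_le_self 2 h3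
      have h5 : ((2 ^ j : ℕ) : ℝ) ≤ (⌊Real.log p⌋₊ : ℝ) := by exact_mod_cast h4
      have h6 : (⌊Real.log p⌋₊ : ℝ) ≤ Real.log p := Nat.floor_le (by linarith)
      push_cast at h5
      linarith
    · have h4 : ⌊Real.log p⌋₊ < 2 ^ (j + 1) := by
        rw [← hp.2]
        exact Nat.lt_pow_succ_log_self (by norm_num) _
      have h5 : ((⌊Real.log p⌋₊ + 1 : ℕ) : ℝ) ≤ ((2 ^ (j + 1) : ℕ) : ℝ) := by exact_mod_cast h4
      have h6 : Real.log p < (⌊Real.log p⌋₊ : ℝ) + 1 := Nat.lt_floor_add_one _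
      push_cast at h5
      linarith
  refine (sum_le_sum hterm).trans ?_
  rw [sum_const, Nat.card_Icc, nsmul_eq_mul]
  have : ((j₀ + m + 1 - j₀ : ℕ) : ℝ) = (m : ℝ) + 1 := by
    have : j₀ + m + 1 - j₀ = m + 1 := by omega
    rw [this]
    push_cast
    rfl
  rw [this]

open scoped Classical in
/-- the large sieve for a function which is small outside a small set -/
theorem ls_small : ∃ C : ℝ, 0 < C ∧ ∀ (Λ : ℝ) (wt : ℝ → ℝ), Rw Λ wt → ∀ (w : Gi → ℂ) (B ε Y : ℝ)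
    (E : Finset Gi) (K : ℕ), 1 ≤ B → 0 < ε → ε ≤ 1 → 1 ≤ Y → (K : ℝ) ≤ Y → (∀ z, ‖w z‖ ≤ B) →
    (E.card : ℝ) ≤ ε * Y →
    (∀ z ∈ ball 0 1 (Real.exp 1 * Y), Y / Real.exp 1 ≤ (nm z : ℝ) → z ∉ E → ‖w z‖ ≤ ε) →
    ∑ k ∈ FK K, ‖GW wt w Y k‖ ^ 2 ≤ C * B ^ 2 * ε := by
  obtain ⟨C, hC, hls⟩ := Pool.Agent.W327.GA.ls hD
  have he0 : 0 < Real.exp 1 := Real.exp_pos 1
  have he1 : 1 ≤ Real.exp 1 := Real.one_le_exp zero_le_one
  refine ⟨C * (2 + Real.exp 1) * (Real.exp 1 ^ 2 * (1 + 9 * Real.exp 1)), by positivity, ?_⟩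
  intro Λ wt hw w B ε Y E K hB hε hε1 hY hK hwB hE hwE
  have hY0 : 0 < Y := by linarith
  have hsub : FK K ⊆ FK (K + 1) := FKm (Nat.le_succ K)
  refine (Finset.sum_le_sum_of_subset_of_nonneg hsub fun _ _ _ => by positivity).trans ?_
  have h1 := hls (Real.exp 1 * Y) (K + 1) (pball 0 1 (Real.exp 1 * Y))
    (fun z => w z * ((wt (Real.log (nm z) - Real.log Y) / nm z : ℝ) : ℂ)) (by nlinarith)
    (by omega) (fun z hz => by rw [mem_pball hD] at hz; exact hz)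
  unfold GW
  refine h1.trans ?_
  have hpt : ∀ z ∈ pball 0 1 (Real.exp 1 * Y),
      ‖w z * ((wt (Real.log (nm z) - Real.log Y) / nm z : ℝ) : ℂ)‖ ^ 2 ≤
      ((if z ∈ E then B ^ 2 else 0) + ε ^ 2) * (Real.exp 1 / Y) ^ 2 := by
    intro z hz
    rw [mem_pball hD] at hz
    have hz0 := prim_ne_zero hz.1
    have hn : (0 : ℝ) < nm z := nm_posR hD hz0
    by_cases hwt : wt (Real.log (nm z) - Real.log Y) = 0
    · have e0 : ‖w z * ((wt (Real.log (nm z) - Real.log Y) / nm z : ℝ) : ℂ)‖ ^ 2 = 0 := by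
        rw [hwt]
        simp
      rw [e0]
      have : 0 ≤ (if z ∈ E then B ^ 2 else 0) := by split_ifs <;> positivity
      positivity
    · have h2 := Pool.Agent.W279.EX.wt_ne hw hY0 hn hwt
      have h3 : 1 / (nm z : ℝ) ≤ Real.exp 1 / Y := by
        rw [div_le_div_iff₀ hn hY0]
        have := h2.1
        rw [div_le_iff₀ he0] at this
        linarith
      have h4 : ‖((wt (Real.log (nm z) - Real.log Y) / nm z : ℝ) : ℂ)‖ ≤ Real.exp 1 / Y := by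
        rw [Complex.norm_real, Real.norm_eq_abs, abs_div, abs_of_pos hn]
        refine le_trans ?_ h3
        exact div_le_div_of_nonneg_right (hw.bd _) hn.le
      have h5 : ‖w z‖ ^ 2 ≤ (if z ∈ E then B ^ 2 else 0) + ε ^ 2 := by
        by_cases h6 : z ∈ E
        · rw [if_pos h6]
          have := pow_le_pow_left₀ (norm_nonneg _) (hwB z) 2
          nlinarith
        · rw [if_neg h6, zero_add]
          refine pow_le_pow_left₀ (norm_nonneg _) (hwE z ?_ h2.1 h6) 2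
          rw [mem_ball hD]
          exact ⟨(one_le_nm hD).2 hz0, hz.2⟩
      rw [norm_mul, mul_pow]
      exact mul_le_mul h5 (pow_le_pow_left₀ (norm_nonneg _) h4 2) (by positivity)
        (by
          have : 0 ≤ (if z ∈ E then B ^ 2 else 0) := by split_ifs <;> positivity
          positivity)
  have h2 : ∑ z ∈ pball 0 1 (Real.exp 1 * Y),
      ‖w z * ((wt (Real.log (nm z) - Real.log Y) / nm z : ℝ) : ℂ)‖ ^ 2 ≤
      (B ^ 2 * (ε * Y) + ε ^ 2 * (9 * (Real.exp 1 * Y))) * (Real.exp 1 / Y) ^ 2 := by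
    refine (sum_le_sum hpt).trans ?_
    rw [← sum_mul, sum_add_distrib, ← sum_filter, sum_const, sum_const, nsmul_eq_mul,
      nsmul_eq_mul]
    refine mul_le_mul_of_nonneg_right ?_ (by positivity)
    have c1 : (((pball 0 1 (Real.exp 1 * Y)).filter (fun z => z ∈ E)).card : ℝ) ≤ ε * Y := by
      refine le_trans ?_ hE
      exact Nat.cast_le.2 (Finset.card_le_card fun z hz => (mem_filter.1 hz).2)
    have c2 : ((pball 0 1 (Real.exp 1 * Y)).card : ℝ) ≤ 9 * (Real.exp 1 * Y) := by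
      refine le_trans ?_ (card_ball (by positivity))
      exact Nat.cast_le.2 (Finset.card_le_card fun z hz => (mem_filter.1 hz).1)
    have d1 := mul_le_mul_of_nonneg_right c1 (by positivity : (0 : ℝ) ≤ B ^ 2)
    have d2 := mul_le_mul_of_nonneg_right c2 (by positivity : (0 : ℝ) ≤ ε ^ 2)
    linarith
  have h3 : (B ^ 2 * (ε * Y) + ε ^ 2 * (9 * (Real.exp 1 * Y))) * (Real.exp 1 / Y) ^ 2 ≤
      Real.exp 1 ^ 2 * (1 + 9 * Real.exp 1) * (B ^ 2 * ε) / Y := by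
    have e1 : (B ^ 2 * (ε * Y) + ε ^ 2 * (9 * (Real.exp 1 * Y))) * (Real.exp 1 / Y) ^ 2 =
        Real.exp 1 ^ 2 * (B ^ 2 * ε + ε ^ 2 * (9 * Real.exp 1)) / Y := by
      field_simp
    rw [e1]
    refine div_le_div_of_nonneg_right ?_ hY0.le
    rw [mul_assoc]
    refine mul_le_mul_of_nonneg_left ?_ (by positivity)
    have e2 : ε ^ 2 ≤ B ^ 2 * ε := by
      have : 1 ≤ B ^ 2 := one_le_pow₀ hB
      nlinarith
    have e3 := mul_le_mul_of_nonneg_right e2 (by positivity : (0 : ℝ) ≤ 9 * Real.exp 1)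
    linarith
  have hKr : (((K + 1 : ℕ) : ℝ) + Real.exp 1 * Y) ≤ (2 + Real.exp 1) * Y := by
    push_cast
    linarith
  calc C * (((K + 1 : ℕ) : ℝ) + Real.exp 1 * Y) * _
      ≤ C * ((2 + Real.exp 1) * Y) *
        (Real.exp 1 ^ 2 * (1 + 9 * Real.exp 1) * (B ^ 2 * ε) / Y) := by
        refine mul_le_mul (mul_le_mul_of_nonneg_left hKr hC.le) (h2.trans h3)
          (sum_nonneg fun _ _ => by positivity) (by positivity)
    _ = C * (2 + Real.exp 1) * (Real.exp 1 ^ 2 * (1 + 9 * Real.exp 1)) * B ^ 2 * ε := by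
        field_simp

theorem two_sq (B p q : ℝ) : (B * p + q) ^ 2 ≤ 2 * B ^ 2 * p ^ 2 + 2 * q ^ 2 := by
  nlinarith [sq_nonneg (B * p - q)]

open scoped Classical in
/-- the nonzero frequencies -/
theorem mrA (hmrg : S_MRG 0 1) {a : ℝ} (ha0 : 0 < a) {M : ℕ} {S : Gi → Prop} (hM : 1 ≤ M)
    (hS : Per M S) {Λ : ℝ} {wt : ℝ → ℝ} (hw : Rw Λ wt) (η : ℝ) (hη : 0 < η) :
    ∃ h : ℝ, 1 ≤ h ∧ ∃ Y₀ : ℝ, ∀ Y : ℝ, Y₀ ≤ Y →
      ∑ k ∈ (FK ⌊Y / h⌋₊).erase 0, ‖GW wt (FS S (fun z => (Aa a z : ℂ))) Y k‖ ^ 2 ≤ η := by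
  have hk := kp_pos
  have he0 : 0 < Real.exp 1 := Real.exp_pos 1
  have he1 : 1 ≤ Real.exp 1 := Real.one_le_exp zero_le_one
  obtain ⟨B, hB⟩ : ∃ B : ℝ, B = 2 + 10 / kp := ⟨_, rfl⟩
  have hkk : 0 < 10 / kp := by positivity
  have hB1 : 1 ≤ B := by rw [hB]; linarith
  have hB0 : 0 < B := by linarith
  obtain ⟨CL, hCL, hls⟩ := ls_small
  obtain ⟨ε, hεd⟩ : ∃ ε : ℝ, ε = min 1 (η / (4 * CL * B ^ 2)) := ⟨_, rfl⟩
  have hε : 0 < ε := by rw [hεd]; exact lt_min one_pos (by positivity)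
  have hε1 : ε ≤ 1 := by rw [hεd]; exact min_le_left _ _
  have hε2 : CL * B ^ 2 * ε ≤ η / 4 := by
    have : ε ≤ η / (4 * CL * B ^ 2) := by rw [hεd]; exact min_le_right _ _
    rw [le_div_iff₀ (by positivity)] at this
    linarith
  obtain ⟨σ, hσd⟩ : ∃ σ : ℝ, σ = 1 / Real.exp 1 ^ 2 := ⟨_, rfl⟩
  have hσ : 0 < σ := by rw [hσd]; positivity
  have hσ1 : σ ≤ 1 := by
    rw [hσd, div_le_one (by positivity)]
    exact one_le_pow₀ he1
  obtain ⟨ε', hε'⟩ : ∃ ε' : ℝ, ε' = ε / (2 * Real.exp 1) := ⟨_, rfl⟩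
  have hε'0 : 0 < ε' := by rw [hε']; positivity
  have hε'ε : ε' ≤ ε := by
    rw [hε']
    exact div_le_self hε.le (by linarith)
  obtain ⟨R₁, hR₁1, hR₁⟩ := cmp a σ ε' ha0 hσ hσ1 hε'0
  obtain ⟨R₄, hR₄1, hR₄⟩ := DD_bd
  obtain ⟨X₁, hX₁1, hX₁R, hX₁⟩ := rpow_ge ha0 R₄ hR₄1
  -- the sparse system
  obtain ⟨m, hm⟩ := pow_unbounded_of_one_lt (4 / a) (by norm_num : (1 : ℝ) < 2)
  obtain ⟨w₁, hw₁⟩ : ∃ w₁ : ℝ, w₁ = ε' / (36 * ((m : ℝ) + 1)) := ⟨_, rfl⟩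
  have hw₁0 : 0 < w₁ := by rw [hw₁]; positivity
  obtain ⟨Ap, Bp, M', E₀, ρ, ϖ, hE, hp, hc, hspa⟩ := eleq2 (4 * M) (by omega) (Dvd.intro _ rfl)
    w₁ hw₁0
  obtain ⟨P, hPd⟩ : ∃ P : ℕ → Prop, P = fun p => Ap p ∨ Bp p := ⟨_, rfl⟩
  have hP4 : ∀ p, P p → G4 p := by
    intro p h
    rw [hPd] at h
    refine ⟨?_, (hp p h).2⟩
    rcases h with h | h
    · exact (hE.prA p h).1
    · exact (hE.prB p h).1
  obtain ⟨h, hh, Y₀, hY₀⟩ := mru hmrg hM hS hE hp hc hw (η / (4 * B ^ 2)) (by positivity)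
  rw [← hPd] at hY₀ hspa
  refine ⟨h, hh, max (max Y₀ X₁) (max R₁ (max R₄ (Real.exp (3 + 1 / a)))), fun Y hY => ?_⟩
  have hYa : Y₀ ≤ Y := (le_max_left _ _).trans ((le_max_left _ _).trans hY)
  have hYb : X₁ ≤ Y := (le_max_right _ _).trans ((le_max_left _ _).trans hY)
  have hY' := (le_max_right _ _).trans hY
  have hYc : R₁ ≤ Y := (le_max_left _ _).trans hY'
  have hY'' := (le_max_right _ _).trans hY'
  have hYd : R₄ ≤ Y := (le_max_left _ _).trans hY''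
  have hYe : Real.exp (3 + 1 / a) ≤ Y := (le_max_right _ _).trans hY''
  have hY1 : 1 ≤ Y := hX₁1.trans hYb
  have hY0 : 0 < Y := by linarith
  obtain ⟨X, hX⟩ : ∃ X : ℝ, X = Real.exp 1 * Y := ⟨_, rfl⟩
  have hYX : Y ≤ X := by rw [hX]; nlinarith
  have hX0 : 0 < X := by linarith
  have hσX : σ * X = Y / Real.exp 1 := by
    rw [hσd, hX]
    field_simp
  obtain ⟨E, hE1, hE2, hE3⟩ := hR₁ X (hYc.trans hYX)
  have hDb := hR₄ (X ^ a) X (hX₁ X (hYb.trans hYX)) (hYd.trans hYX)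
  obtain ⟨D, hDd⟩ : ∃ D : ℝ, D = DD (X ^ a) X := ⟨_, rfl⟩
  rw [← hDd] at hE3 hDb
  -- the primes of the system
  obtain ⟨P₂, hP₂⟩ : ∃ P₂ : Finset ℕ, P₂ = (Icc 1 ⌊X⌋₊).filter
      (fun p => P p ∧ X ^ a < (p : ℝ)) := ⟨_, rfl⟩
  have hP₂m : ∀ p ∈ P₂, P p ∧ X ^ a < (p : ℝ) ∧ (p : ℝ) ≤ X := by
    intro p hp
    rw [hP₂, mem_filter, mem_Icc] at hp
    exact ⟨hp.2.1, hp.2.2, (Nat.le_floor_iff hX0.le).1 hp.1.2⟩
  have hlogX : 3 + 1 / a ≤ Real.log X := by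
    rw [Real.le_log_iff_exp_le hX0]
    exact hYe.trans hYX
  have hsumP : ∑ p ∈ P₂, 1 / (p : ℝ) ≤ ((m : ℝ) + 1) * (2 * w₁) := by
    refine spa_sum hspa ha0 hm.le hlogX P₂ ?_
    intro p hp
    obtain ⟨h1, h2, h3⟩ := hP₂m p hp
    have hp0 : (0 : ℝ) < p := by exact_mod_cast (hP4 p h1).1.pos
    refine ⟨h1, ?_, ?_⟩
    · have h4 : Real.log (X ^ a) < Real.log p := Real.log_lt_log (by positivity) h2
      rw [Real.log_rpow hX0] at h4
      have h5 : a * (Real.log X - 1) = a * Real.log X - a := by ring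
      rw [h5]
      linarith
    · have h4 := Real.log_le_log hp0 h3
      linarith
  have hE'c := cnt_P P₂ (fun p hp => hP4 p (hP₂m p hp).1) hX0.le
  obtain ⟨E', hE'⟩ : ∃ E' : Finset Gi, E' = (ball 0 1 X).filter (fun z => ∃ p ∈ P₂, p ∣ nm z) :=
    ⟨_, rfl⟩
  rw [← hE'] at hE'c
  have hE'c2 : (E'.card : ℝ) ≤ ε' * X := by
    refine hE'c.trans ?_
    have h1 := mul_le_mul_of_nonneg_left hsumP hX0.le
    have h2 : X * (((m : ℝ) + 1) * (2 * w₁)) * 18 = ε' * X := by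
      rw [hw₁]
      field_simp
      norm_num
    linarith
  have hEc : ((E ∪ E').card : ℝ) ≤ ε * Y := by
    have h1 : ((E ∪ E').card : ℝ) ≤ (E.card : ℝ) + E'.card := by
      exact_mod_cast Finset.card_union_le _ _
    have h2 : ε' * X + ε' * X = ε * Y := by
      rw [hε', hX]
      field_simp
      norm_num
    linarith
  -- the function
  obtain ⟨g₀, hg₀⟩ : ∃ g₀ : ℕ → ℝ, g₀ = fun n => if ∃ p : ℕ, G4 p ∧ X ^ a < (p : ℝ) ∧ p ∣ n then
      0 else 1 := ⟨_, rfl⟩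
  have hg₀b : ∀ n, |g₀ n| ≤ 1 := by
    intro n
    rw [hg₀]
    simp only
    split_ifs <;> norm_num
  have hg₀z : ∀ z ∈ ball 0 1 X, z ∉ E' → g₀ (fr P (nm z)) = uu (X ^ a) z := by
    intro z hz hzE
    rw [mem_ball hD] at hz
    have hnz : nm z ≠ 0 := by omega
    rw [hg₀]
    unfold uu
    refine if_congr ?_ rfl rfl
    constructor
    · rintro ⟨p, h1, h2, h3⟩
      exact ⟨p, h1, h2, ((dvd_fr P hnz h1.1).1 h3).1⟩
    · rintro ⟨p, h1, h2, h3⟩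
      refine ⟨p, h1, h2, (dvd_fr P hnz h1.1).2 ⟨h3, fun h4 => ?_⟩⟩
      apply hzE
      rw [hE', mem_filter, mem_ball hD]
      refine ⟨hz, p, ?_, h3⟩
      rw [hP₂, mem_filter, mem_Icc]
      refine ⟨⟨h1.1.one_lt.le, Nat.le_floor ?_⟩, h4, h2⟩
      have : (p : ℝ) ≤ nm z := by exact_mod_cast Nat.le_of_dvd hz.1 h3
      exact this.trans hz.2
  obtain ⟨g, hg⟩ : ∃ g : ℕ → ℂ, g = fun n => (((g₀ n - D) / B : ℝ) : ℂ) := ⟨_, rfl⟩
  have hgb : ∀ n, ‖g n‖ ≤ 1 := by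
    intro n
    rw [hg]
    simp only
    rw [Complex.norm_real, Real.norm_eq_abs, abs_div, abs_of_pos hB0, div_le_one hB0]
    refine (abs_sub _ _).trans ?_
    have := hg₀b n
    rw [hB]
    linarith
  obtain ⟨w, hwd⟩ : ∃ w : Gi → ℂ, w = FS S (fun z =>
      ((Aa a z - (g₀ (fr P (nm z)) - D) : ℝ) : ℂ)) := ⟨_, rfl⟩
  have hwB : ∀ z, ‖w z‖ ≤ B := by
    intro z
    rw [hwd]
    unfold FS
    split_ifs
    · rw [Complex.norm_real, Real.norm_eq_abs]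
      refine (abs_sub _ _).trans ?_
      have h1 := Aa_le a z
      have h2 := abs_sub (g₀ (fr P (nm z))) D
      have h3 := hg₀b (fr P (nm z))
      rw [hB]
      linarith
    · rw [norm_zero]; linarith
  have hwE : ∀ z ∈ ball 0 1 (Real.exp 1 * Y), Y / Real.exp 1 ≤ (nm z : ℝ) → z ∉ E ∪ E' →
      ‖w z‖ ≤ ε := by
    intro z hz hz2 hz3
    rw [← hX] at hz
    rw [mem_union, not_or] at hz3
    rw [← hσX] at hz2
    have h1 := (hE3 z hz hz2 hz3.1).2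
    have h2 := hg₀z z hz hz3.2
    rw [hwd]
    unfold FS
    split_ifs
    · rw [Complex.norm_real, Real.norm_eq_abs, h2]
      exact h1.trans hε'ε
    · rw [norm_zero]; exact hε.le
  have hh0 : 0 < h := by linarith
  have hKY : ((⌊Y / h⌋₊ : ℕ) : ℝ) ≤ Y := by
    refine (Nat.floor_le (by positivity)).trans ?_
    exact div_le_self hY0.le hh
  have hs1 := hls Λ wt hw w B ε Y (E ∪ E') ⌊Y / h⌋₊ hB1 hε hε1 hY1 hKY hwB hEc hwE
  have hs2 := hY₀ g hgb Y hYa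
  -- decomposition
  have hdec : ∀ k, GW wt (FS S (fun z => (Aa a z : ℂ))) Y k =
      (B : ℂ) * GW wt (FS S (fun z => g (fr P (nm z)))) Y k + GW wt w Y k := by
    intro k
    unfold GW DPG
    rw [mul_sum, ← sum_add_distrib]
    refine sum_congr rfl fun z _ => ?_
    rw [hwd, hg]
    unfold FS
    by_cases hz : S z
    · simp only [hz, if_true]
      have hB' : (B : ℂ) ≠ 0 := by exact_mod_cast hB0.ne'
      push_cast
      field_simp
      ring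
    · simp only [hz, if_false]
      ring
  have hpt : ∀ k, ‖GW wt (FS S (fun z => (Aa a z : ℂ))) Y k‖ ^ 2 ≤
      2 * B ^ 2 * ‖GW wt (FS S (fun z => g (fr P (nm z)))) Y k‖ ^ 2 + 2 * ‖GW wt w Y k‖ ^ 2 := by
    intro k
    rw [hdec]
    have h1 := norm_add_le ((B : ℂ) * GW wt (FS S (fun z => g (fr P (nm z)))) Y k) (GW wt w Y k)
    rw [norm_mul, Complex.norm_real, Real.norm_eq_abs, abs_of_pos hB0] at h1
    have h2 := pow_le_pow_left₀ (norm_nonneg _) h1 2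
    refine h2.trans ?_
    exact two_sq _ _ _
  refine (sum_le_sum fun k _ => hpt k).trans ?_
  rw [sum_add_distrib, ← mul_sum, ← mul_sum]
  have h1 : 2 * B ^ 2 * ∑ k ∈ (FK ⌊Y / h⌋₊).erase 0,
      ‖GW wt (FS S (fun z => g (fr P (nm z)))) Y k‖ ^ 2 ≤ η / 2 := by
    calc _ ≤ 2 * B ^ 2 * (η / (4 * B ^ 2)) := mul_le_mul_of_nonneg_left hs2 (by positivity)
      _ = η / 2 := by field_simp; norm_num
  have h2 : ∑ k ∈ (FK ⌊Y / h⌋₊).erase 0, ‖GW wt w Y k‖ ^ 2 ≤ η / 4 := by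
    refine (Finset.sum_le_sum_of_subset_of_nonneg (Finset.erase_subset _ _)
      fun _ _ _ => by positivity).trans (hs1.trans hε2)
  linarith

/-- the centred function has small sums over most pieces of thin sectors -/
theorem mrs_Aa {a : ℝ} (ha0 : 0 < a) : Mrs (Aa a) := by
  refine Pool.Agent.W915.EX.mrsA ?_
  exact
    { bd := Aa_le a
      mr := fun M S hM hS Λ wt hw η hη => mrA Pool.Agent.W251.EX.mrgA ha0 hM hS hw η hη
      m0 := fun M S hM hS Λ wt hw η hη => freq0 (fun ε hε => smallA ha0 hM hS ε hε) hw η hη }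

/-- the bilinear estimate -/
theorem bt_Aa {a : ℝ} (ha0 : 0 < a) : Bt (Aa a) :=
  Pool.Agent.W940.EX.btx Pool.Agent.W78.EC.gg0All Pool.Agent.W395.EC.ln
      Pool.Agent.W395.EC.dtb _ (Aa_le a)
    (Pool.Agent.W672.EX.btmx Pool.Agent.W683.EC.jb Pool.Agent.W683.EC.jv
      Pool.Agent.W395.EC.ln Pool.Agent.W395.EC.dtb _ (Aa_le a) (mrs_Aa ha0))

end Pool.Agent.T2H34
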