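import Pool.Agent.T2H34.Mn

/-!
Asymptotic independence over the pairs `(d, d')`, `d d' = n ^ 2 + 1`, at almost all scales.
-/

set_option autoImplicit false

namespace Pool.Agent.T2H34

open Finset Filter
open Pool.Agent.W78.GA (Qd nm prim dt ip lat ball pball edge dedge mem_ball mem_pball nm_mul
  one_le_nm star_mul_self' nm_dvd prim_ne_zero nm_zero nm_posR)
open Pool.Agent.W78.EC (Gi cone cw PQ SP th good S_CORR S_SCNT)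
open Pool.Agent.W251.EX (AG Bt Apd bO)
open Pool.Agent.W991.EC (hD mul_inj card_ball)
open Pool.Agent.W214.EX (Vs)
open Pool.Agent.W540.EC (PQ_mem)
open Pool.Agent.W681.EC (sum_inv_le sum_inv_sq_le mem_SP)
open Pool.Agent.W692.EX (AG_eq per_scale)
open Pool.Agent.W588.EX (norm_one_of)

theorem AG_lin (g h : Gi × Gi → ℂ) (c d : ℂ) (s₁ s₂ s₃ s₄ X : ℝ) :
    AG (fun e => c * g e + d * h e) s₁ s₂ s₃ s₄ X = c * AG g s₁ s₂ s₃ s₄ X +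
      d * AG h s₁ s₂ s₃ s₄ X := by
  classical
  unfold AG
  rw [mul_sum, mul_sum, ← sum_add_distrib]

/-- the sum over the pairs -/
noncomputable def SS (f₁ f₂ : ℕ → ℂ) (X : ℕ) : ℂ := ∑ p ∈ SP X, f₁ p.1 * f₂ p.2

theorem SS_swap (f₁ f₂ : ℕ → ℂ) (X : ℕ) : SS f₁ f₂ X = SS f₂ f₁ X := by
  classical
  unfold SS
  refine Finset.sum_bij' (fun p _ => (p.2, p.1)) (fun p _ => (p.2, p.1)) ?_ ?_ ?_ ?_ ?_
  · intro p hp
    rw [mem_SP] at hp ⊢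
    obtain ⟨⟨h1, h2⟩, n, hn⟩ := hp
    exact ⟨⟨h2, h1⟩, n, by rw [← hn]; exact mul_comm _ _⟩
  · intro p hp
    rw [mem_SP] at hp ⊢
    obtain ⟨⟨h1, h2⟩, n, hn⟩ := hp
    exact ⟨⟨h2, h1⟩, n, by rw [← hn]; exact mul_comm _ _⟩
  · intro p _; rfl
  · intro p _; rfl
  · intro p _; exact mul_comm _ _

theorem SS_one (X : ℕ) : SS (fun _ => 1) (fun _ => 1) X = ((SP X).card : ℂ) := by
  unfold SS
  rw [sum_congr rfl (fun p _ => mul_one (1 : ℂ)), sum_const, nsmul_eq_mul, mul_one]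

/-- from the Gaussian integers to all pairs, at almost all scales -/
theorem fin3 (f₁ f₂ : ℕ → ℂ) (h1 : ∀ n, ‖f₁ n‖ ≤ 1) (h2 : ∀ n, ‖f₂ n‖ ≤ 1) (m : ℝ → ℝ)
    (hm : ∀ x, |m x| ≤ 1)
    (hyp : ∀ s : ℝ, 0 < s → s < 1 → ∀ ε : ℝ, 0 < ε → ∃ N₀ : ℕ, ∀ N' : ℕ, N₀ ≤ N' →
      ∑ X ∈ Icc 1 N', 1 / (X : ℝ) ^ 2 *
      ‖AG (fun e => f₁ (nm e.1) * f₂ (nm e.2)) s 1 s 1 X -
        (m X : ℂ) * AG (fun e => f₁ (nm e.1)) s 1 s 1 X‖ ≤ ε * Real.log N') (ε : ℝ) (hε : 0 < ε) :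
    ∃ N₀ : ℕ, ∀ N : ℕ, N₀ ≤ N → ∑ X ∈ Icc 1 N, 1 / (X : ℝ) ^ 2 *
      ‖SS f₁ f₂ X - (m X : ℂ) * SS f₁ (fun _ => 1) X‖ ≤ ε * Real.log N := by
  obtain ⟨C, hC⟩ := Pool.Agent.W368.EC.scnt
  have hC0 : 0 ≤ C := by
    have h := hC 1 1 le_rfl le_rfl
    have h4 : (0 : ℝ) ≤ C * Real.sqrt ((1 : ℕ) * (1 : ℕ)) := le_trans (Nat.cast_nonneg _) h
    simpa using h4
  obtain ⟨t, ht⟩ : ∃ t : ℝ, t = min (1 / 2) (ε / (16 * (C + 1))) := ⟨_, rfl⟩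
  have ht0 : 0 < t := by rw [ht]; exact lt_min (by norm_num) (by positivity)
  have hlt : t < 1 := by rw [ht]; exact lt_of_le_of_lt (min_le_left _ _) (by norm_num)
  have ht1 : t ≤ 1 := hlt.le
  have ht2 : 2 * C * t ≤ ε / 8 := by
    have h5 : t ≤ ε / (16 * (C + 1)) := by rw [ht]; exact min_le_right _ _
    rw [le_div_iff₀ (by positivity)] at h5
    nlinarith
  obtain ⟨N₀, hN₀⟩ := hyp (t ^ 2) (by positivity) (pow_lt_one₀ ht0.le hlt (by norm_num)) ε hε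
  have hlim : Tendsto (fun N : ℕ => Real.log N) atTop atTop :=
    Real.tendsto_log_atTop.comp tendsto_natCast_atTop_atTop
  obtain ⟨N₁, hN₁⟩ := (hlim.eventually_gt_atTop
    ((2 + 2 * C * t) * 8 / ε)).exists_forall_of_atTop
  -- one scale
  have hps : ∀ X : ℕ, 1 ≤ X → ‖SS f₁ f₂ X - (m X : ℂ) * SS f₁ (fun _ => 1) X‖ ≤
      2 * (1 + 2 * C * t * X + 1 / 4 * (1 / 2 *
      ‖AG (fun e => f₁ (nm e.1) * f₂ (nm e.2)) (t ^ 2) 1 (t ^ 2) 1 X -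
        (m X : ℂ) * AG (fun e => f₁ (nm e.1)) (t ^ 2) 1 (t ^ 2) 1 X‖)) := by
    intro X hX
    have h3 := per_scale Pool.Agent.W305.EC.corr C hC hC0 t ht0 ht1
      (fun a b => 1 / 2 * (f₁ a * f₂ b) + (-(m X : ℂ) / 2) * f₁ a) (by
        intro a b
        have h4 : ‖(m X : ℂ)‖ ≤ 1 := by rw [Complex.norm_real, Real.norm_eq_abs]; exact hm X
        refine (norm_add_le _ _).trans ?_
        rw [norm_mul, norm_mul, norm_mul, norm_div, norm_div, norm_neg, norm_one]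
        have h5 : ‖(2 : ℂ)‖ = 2 := by norm_num
        rw [h5]
        have h6 : ‖f₁ a‖ * ‖f₂ b‖ ≤ 1 := mul_le_one₀ (h1 a) (norm_nonneg _) (h2 b)
        have h7 : ‖(m X : ℂ)‖ * ‖f₁ a‖ ≤ 1 := mul_le_one₀ h4 (norm_nonneg _) (h1 a)
        have h8 : ‖(m X : ℂ)‖ / 2 * ‖f₁ a‖ = ‖(m X : ℂ)‖ * ‖f₁ a‖ / 2 := by ring
        rw [h8]
        linarith) X hX
    have e1 : ∑ p ∈ SP X, (1 / 2 * (f₁ p.1 * f₂ p.2) + (-(m X : ℂ) / 2) * f₁ p.1) =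
        1 / 2 * (SS f₁ f₂ X - (m X : ℂ) * SS f₁ (fun _ => 1) X) := by
      unfold SS
      rw [mul_sum, ← sum_sub_distrib, mul_sum]
      refine sum_congr rfl fun p _ => ?_
      ring
    have e2 : AG (fun e => 1 / 2 * (f₁ (nm e.1) * f₂ (nm e.2)) + (-(m X : ℂ) / 2) * f₁ (nm e.1))
        (t ^ 2) 1 (t ^ 2) 1 X = 1 / 2 * (AG (fun e => f₁ (nm e.1) * f₂ (nm e.2)) (t ^ 2) 1 (t ^ 2) 1 X -
        (m X : ℂ) * AG (fun e => f₁ (nm e.1)) (t ^ 2) 1 (t ^ 2) 1 X) := by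
      rw [AG_lin]
      ring
    rw [e1, e2, norm_mul, norm_mul] at h3
    have h5 : ‖(1 / 2 : ℂ)‖ = 1 / 2 := by norm_num
    rw [h5] at h3
    linarith
  refine ⟨max (max N₀ N₁) 2, fun N hN => ?_⟩
  have g1 : N₀ ≤ N := le_trans (le_trans (le_max_left _ _) (le_max_left _ _)) hN
  have g2 : N₁ ≤ N := le_trans (le_trans (le_max_right _ _) (le_max_left _ _)) hN
  have g3 : 2 ≤ N := le_trans (le_max_right _ _) hN
  have g4 := hN₁ N g2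
  have g5 := hN₀ N g1
  have hl : 0 < Real.log N := Real.log_pos (by exact_mod_cast g3)
  rw [div_lt_iff₀ hε] at g4
  have k1 : ∑ X ∈ Icc 1 N, 1 / (X : ℝ) ^ 2 * ‖SS f₁ f₂ X - (m X : ℂ) * SS f₁ (fun _ => 1) X‖ ≤
      ∑ X ∈ Icc 1 N, 1 / (X : ℝ) ^ 2 * (2 * (1 + 2 * C * t * X + 1 / 4 * (1 / 2 *
      ‖AG (fun e => f₁ (nm e.1) * f₂ (nm e.2)) (t ^ 2) 1 (t ^ 2) 1 X -
        (m X : ℂ) * AG (fun e => f₁ (nm e.1)) (t ^ 2) 1 (t ^ 2) 1 X‖))) := by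
    apply Finset.sum_le_sum
    intro X hX
    exact mul_le_mul_of_nonneg_left (hps X (mem_Icc.1 hX).1) (by positivity)
  have k2 : ∑ X ∈ Icc 1 N, 1 / (X : ℝ) ^ 2 * (2 * (1 + 2 * C * t * X + 1 / 4 * (1 / 2 *
      ‖AG (fun e => f₁ (nm e.1) * f₂ (nm e.2)) (t ^ 2) 1 (t ^ 2) 1 X -
        (m X : ℂ) * AG (fun e => f₁ (nm e.1)) (t ^ 2) 1 (t ^ 2) 1 X‖))) =
      2 * ∑ X ∈ Icc 1 N, 1 / (X : ℝ) ^ 2 + 2 * (2 * C * t * ∑ X ∈ Icc 1 N, 1 / (X : ℝ)) +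
      1 / 4 * ∑ X ∈ Icc 1 N, 1 / (X : ℝ) ^ 2 *
      ‖AG (fun e => f₁ (nm e.1) * f₂ (nm e.2)) (t ^ 2) 1 (t ^ 2) 1 X -
        (m X : ℂ) * AG (fun e => f₁ (nm e.1)) (t ^ 2) 1 (t ^ 2) 1 X‖ := by
    rw [Finset.mul_sum, Finset.mul_sum, Finset.mul_sum, Finset.mul_sum, ← Finset.sum_add_distrib,
      ← Finset.sum_add_distrib]
    apply Finset.sum_congr rfl
    intro X hX
    have hX0 : (X : ℝ) ≠ 0 := by
      have := (mem_Icc.1 hX).1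
      positivity
    field_simp
  have k3 := sum_inv_sq_le N
  have k4 : 2 * C * t * ∑ X ∈ Icc 1 N, 1 / (X : ℝ) ≤ 2 * C * t * (1 + Real.log N) :=
    mul_le_mul_of_nonneg_left (sum_inv_le N) (by positivity)
  have k5 : 2 * C * t * Real.log N ≤ ε / 8 * Real.log N :=
    mul_le_mul_of_nonneg_right ht2 hl.le
  nlinarith

/-! ### admissible functions of the norm -/

/-- functions on the positive integers with values `0` and `1` which are determined by the large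
prime factors -/
structure Ad (u : ℕ → ℝ) : Prop where
  bin : ∀ n, u n = 0 ∨ u n = 1
  ad : ∃ (a : ℝ) (G : ℝ → ℕ → ℝ), Adm a G (fun z : Gi => u (nm z))

/-- the mean over the disc -/
noncomputable def av (u : ℕ → ℝ) (x : ℝ) : ℝ := avg (fun z : Gi => u (nm z)) x

open scoped Classical in
/-- the expected mean of `b ^ Ω u` -/
noncomputable def Mm (b : ℂ) (u : ℕ → ℝ) (x : ℝ) : ℝ := if b = 1 then av u x else 0

/-- `b ^ Ω u` -/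
noncomputable def bu (b : ℂ) (u : ℕ → ℝ) (n : ℕ) : ℂ :=
  b ^ ArithmeticFunction.cardFactors n * (u n : ℂ)

theorem Ad.u0 {u : ℕ → ℝ} (h : Ad u) (n : ℕ) : 0 ≤ u n := by
  rcases h.bin n with h1 | h1 <;> simp [h1]

theorem Ad.u1 {u : ℕ → ℝ} (h : Ad u) (n : ℕ) : u n ≤ 1 := by
  rcases h.bin n with h1 | h1 <;> simp [h1]

theorem av_mem {u : ℕ → ℝ} (h : Ad u) (x : ℝ) : 0 ≤ av u x ∧ av u x ≤ 1 :=
  ⟨avg_nonneg (fun _ => h.u0 _) x, avg_le (fun _ => h.u1 _) x⟩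

theorem Mm_mem {u : ℕ → ℝ} (h : Ad u) (b : ℂ) (x : ℝ) : 0 ≤ Mm b u x ∧ Mm b u x ≤ 1 := by
  unfold Mm
  split_ifs
  · exact av_mem h x
  · exact ⟨le_rfl, zero_le_one⟩

theorem bu_norm {u : ℕ → ℝ} (h : Ad u) {k : ℕ} (hk : 1 ≤ k) {b : ℂ} (hb : b ^ k = 1) (n : ℕ) :
    ‖bu b u n‖ ≤ 1 := by
  unfold bu
  rw [norm_mul, norm_pow, norm_one_of k b hk hb, one_pow, one_mul, Complex.norm_real,
    Real.norm_of_nonneg (h.u0 n)]
  exact h.u1 n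

theorem bu_V {u : ℕ → ℝ} (h : Ad u) {k : ℕ} (hk : 1 ≤ k) {b : ℂ} (hb : b ^ k = 1) (n : ℕ) :
    bu b u n ∈ Vs k := by
  rw [mem_V hk]
  unfold bu
  rcases h.bin n with h1 | h1
  · left
    rw [h1, Complex.ofReal_zero, mul_zero]
  · right
    rw [h1, Complex.ofReal_one, mul_one, ← pow_mul, mul_comm, pow_mul, hb, one_pow]

open scoped Classical in
theorem bu_VD {u : ℕ → ℝ} (h : Ad u) (b : ℂ) : VD (fun z : Gi => bu b u (nm z)) b := by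
  obtain ⟨a, G, hA⟩ := h.ad
  intro s hs Q ε hε
  obtain ⟨X₀, hX₀⟩ := vdil hA s hs Q ε hε
  refine ⟨X₀, fun X hX p hp π hπ => ?_⟩
  refine le_trans ?_ (hX₀ X hX p hp π hπ)
  obtain ⟨hp1, hp2, hpp, hp4⟩ := PQ_mem hp
  apply Nat.cast_le.2
  apply Finset.card_le_card
  intro z hz
  rw [mem_filter] at hz ⊢
  obtain ⟨hz1, hz2, hz3⟩ := hz
  refine ⟨hz1, hz2, fun he => hz3 ?_⟩
  have hz' := (mem_ball hD).1 hz1
  unfold bu
  beta_reduce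
  rw [nm_mul, hπ, ArithmeticFunction.cardFactors_mul hpp.ne_zero (by omega),
    ArithmeticFunction.cardFactors_apply_prime hpp, pow_add, pow_one]
  have he' : u (p * nm z) = u (nm z) := by
    have := he
    simp only [nm_mul, hπ] at this
    exact this
  rw [he']
  ring

theorem Mm_slow {u : ℕ → ℝ} (h : Ad u) (b : ℂ) : Slow (Mm b u) := by
  classical
  obtain ⟨a, G, hA⟩ := h.ad
  intro σ ε hσ hσ1 hε
  by_cases hb : b = 1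
  · obtain ⟨R, hR1, hR⟩ := avg_slow hA σ ε hσ hσ1 hε
    refine ⟨R, hR1, fun x x' h1 h2 h3 => ?_⟩
    unfold Mm
    rw [if_pos hb, if_pos hb]
    exact hR x x' h1 h2 h3
  · refine ⟨1, le_rfl, fun x x' _ _ _ => ?_⟩
    unfold Mm
    rw [if_neg hb, if_neg hb, sub_self, abs_zero]
    exact hε.le

theorem bt_zero : Bt (fun _ => 0) := by
  intro K κ s s₁ s₂ ε _ _ _ _ _ _ hε
  refine ⟨0, fun Q _ => ⟨0, fun X hX α _ _ => ?_⟩⟩
  simp only [mul_zero, zero_mul, sum_const_zero, abs_zero]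
  positivity

theorem bu_Bt {u : ℕ → ℝ} (h : Ad u) {k : ℕ} (hk : 1 ≤ k) {b : ℂ} (hb : b ^ k = 1) :
    Bt (fun z : Gi => (bu b u (nm z)).re - Mm b u (nm z)) ∧
      Bt (fun z : Gi => (bu b u (nm z)).im) := by
  classical
  obtain ⟨a, G, hA⟩ := h.ad
  by_cases hb1 : b = 1
  · constructor
    · have h1 := bt_U hA
      convert h1 using 2 with z
      unfold bu Mm av
      rw [if_pos hb1, hb1, one_pow, one_mul, Complex.ofReal_re]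
    · have h1 := bt_zero
      convert h1 using 2 with z
      unfold bu
      rw [hb1, one_pow, one_mul, Complex.ofReal_im]
  · obtain ⟨h1, h2⟩ := bt_T hA (Pool.Agent.W251.EX.pntxA k b hk hb hb1)
    constructor
    · convert h1 using 2 with z
      unfold bu Mm bO
      rw [if_neg hb1, sub_zero, Complex.re_mul_ofReal]
    · convert h2 using 2 with z
      unfold bu bO
      rw [Complex.im_mul_ofReal]

theorem Mm_tau {u : ℕ → ℝ} (b : ℂ) (x : ℝ) : b * (Mm b u x : ℂ) = (Mm b u x : ℂ) := by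
  classical
  unfold Mm
  split_ifs with hb
  · rw [hb, one_mul]
  · rw [Complex.ofReal_zero, mul_zero]

/-- one function after the other -/
theorem ind1 {k : ℕ} (hk : 1 ≤ k) {b₁ b₂ : ℂ} (hb₁ : b₁ ^ k = 1) (hb₂ : b₂ ^ k = 1) {u₁ u₂ : ℕ → ℝ}
    (h1 : Ad u₁) (h2 : Ad u₂) (ε : ℝ) (hε : 0 < ε) :
    ∃ N₀ : ℕ, ∀ N : ℕ, N₀ ≤ N → ∑ X ∈ Icc 1 N, 1 / (X : ℝ) ^ 2 *
      ‖SS (bu b₁ u₁) (bu b₂ u₂) X - (Mm b₂ u₂ X : ℂ) * SS (bu b₁ u₁) (fun _ => 1) X‖ ≤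
      ε * Real.log N := by
  have hm : ∀ x, |Mm b₂ u₂ x| ≤ 1 := fun x => by
    rw [abs_of_nonneg (Mm_mem h2 b₂ x).1]; exact (Mm_mem h2 b₂ x).2
  refine fin3 _ _ (bu_norm h1 hk hb₁) (bu_norm h2 hk hb₂) (Mm b₂ u₂) hm ?_ ε hε
  intro s hs hs1 ε hε
  obtain ⟨h3, h4⟩ := bu_Bt h2 hk hb₂
  exact main3 hk (F₁ := fun z : Gi => bu b₁ u₁ (nm z)) (F₂ := fun z : Gi => bu b₂ u₂ (nm z))
    (fun z => bu_V h1 hk hb₁ _) (fun z => bu_V h2 hk hb₂ _) (norm_one_of k b₁ hk hb₁)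
    (norm_one_of k b₂ hk hb₂) (bu_VD h1 b₁) (bu_VD h2 b₂) hm (Mm_tau b₂) (Mm_slow h2 b₂) h3 h4
    hs hs1 le_rfl hs hs1 le_rfl ε hε

theorem Ad_one : Ad (fun _ => 1) where
  bin := fun _ => Or.inr rfl
  ad := ⟨1, fun _ _ => 1,
    { pos := one_pos
      gb := fun _ _ => by rw [abs_one]
      u0 := fun _ => zero_le_one
      u1 := fun _ => le_rfl
      ap := fun σ ε _ _ hε => ⟨1, le_rfl, fun X hX => by
        classical
        have : (ball 0 1 X).filter (fun z : Gi => σ * X ≤ (nm z : ℝ) ∧ (1 : ℝ) ≠ 1) = ∅ := by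
          rw [Finset.filter_eq_empty_iff]
          rintro z - ⟨-, h⟩
          exact h rfl
        rw [this, card_empty, Nat.cast_zero]
        positivity⟩ }⟩

/-- asymptotic independence, with characters -/
theorem ind2 {k : ℕ} (hk : 1 ≤ k) {b₁ b₂ : ℂ} (hb₁ : b₁ ^ k = 1) (hb₂ : b₂ ^ k = 1) {u₁ u₂ : ℕ → ℝ}
    (h1 : Ad u₁) (h2 : Ad u₂) (ε : ℝ) (hε : 0 < ε) :
    ∃ N₀ : ℕ, ∀ N : ℕ, N₀ ≤ N → ∑ X ∈ Icc 1 N, 1 / (X : ℝ) ^ 2 *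
      ‖SS (bu b₁ u₁) (bu b₂ u₂) X - ((Mm b₁ u₁ X * Mm b₂ u₂ X * (SP X).card : ℝ) : ℂ)‖ ≤
      ε * Real.log N := by
  obtain ⟨N₁, hN₁⟩ := ind1 hk hb₁ hb₂ h1 h2 (ε / 2) (by positivity)
  obtain ⟨N₂, hN₂⟩ := ind1 hk (one_pow k) hb₁ Ad_one h1 (ε / 2) (by positivity)
  refine ⟨max N₁ N₂, fun N hN => ?_⟩
  have g1 := hN₁ N ((le_max_left _ _).trans hN)
  have g2 := hN₂ N ((le_max_right _ _).trans hN)
  have hone : bu 1 (fun _ => 1) = fun _ => (1 : ℂ) := by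
    funext n
    unfold bu
    rw [one_pow, one_mul, Complex.ofReal_one]
  rw [hone] at g2
  have hpt : ∀ X : ℕ, ‖SS (bu b₁ u₁) (bu b₂ u₂) X -
      ((Mm b₁ u₁ X * Mm b₂ u₂ X * (SP X).card : ℝ) : ℂ)‖ ≤
      ‖SS (bu b₁ u₁) (bu b₂ u₂) X - (Mm b₂ u₂ X : ℂ) * SS (bu b₁ u₁) (fun _ => 1) X‖ +
      ‖SS (fun _ => 1) (bu b₁ u₁) X - (Mm b₁ u₁ X : ℂ) * SS (fun _ => 1) (fun _ => 1) X‖ := by
    intro X
    have e1 : SS (bu b₁ u₁) (bu b₂ u₂) X - ((Mm b₁ u₁ X * Mm b₂ u₂ X * (SP X).card : ℝ) : ℂ) =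
        (SS (bu b₁ u₁) (bu b₂ u₂) X - (Mm b₂ u₂ X : ℂ) * SS (bu b₁ u₁) (fun _ => 1) X) +
        (Mm b₂ u₂ X : ℂ) * (SS (fun _ => 1) (bu b₁ u₁) X -
          (Mm b₁ u₁ X : ℂ) * SS (fun _ => 1) (fun _ => 1) X) := by
      rw [SS_one, SS_swap (fun _ => 1) (bu b₁ u₁)]
      push_cast
      ring
    rw [e1]
    refine (norm_add_le _ _).trans ?_
    rw [norm_mul]
    have h5 : ‖(Mm b₂ u₂ X : ℂ)‖ ≤ 1 := by
      rw [Complex.norm_real, Real.norm_of_nonneg (Mm_mem h2 b₂ X).1]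
      exact (Mm_mem h2 b₂ X).2
    have h6 := mul_le_mul_of_nonneg_right h5 (norm_nonneg (SS (fun _ => 1) (bu b₁ u₁) X -
          (Mm b₁ u₁ X : ℂ) * SS (fun _ => 1) (fun _ => 1) X))
    linarith
  calc ∑ X ∈ Icc 1 N, 1 / (X : ℝ) ^ 2 *
      ‖SS (bu b₁ u₁) (bu b₂ u₂) X - ((Mm b₁ u₁ X * Mm b₂ u₂ X * (SP X).card : ℝ) : ℂ)‖ ≤
      ∑ X ∈ Icc 1 N, 1 / (X : ℝ) ^ 2 *
        (‖SS (bu b₁ u₁) (bu b₂ u₂) X - (Mm b₂ u₂ X : ℂ) * SS (bu b₁ u₁) (fun _ => 1) X‖ +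
        ‖SS (fun _ => 1) (bu b₁ u₁) X - (Mm b₁ u₁ X : ℂ) * SS (fun _ => 1) (fun _ => 1) X‖) := by
        refine sum_le_sum fun X _ => mul_le_mul_of_nonneg_left (hpt X) (by positivity)
    _ = _ := by
        rw [sum_congr rfl (fun X _ => mul_add _ _ _), sum_add_distrib]
    _ ≤ ε / 2 * Real.log N + ε / 2 * Real.log N := add_le_add g1 g2
    _ = ε * Real.log N := by ring

end Pool.Agent.T2H34
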