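import Pool.Agent.T2H34.Ev

/-!
Lower bounds for the density of the elements with prescribed large prime factors.
-/

set_option autoImplicit false

namespace Pool.Agent.T2H34

open Finset Filter
open Pool.Agent.W78.GA (Qd nm prim dt ip lat ball pball edge dedge mem_ball mem_pball nm_mul
  one_le_nm star_mul_self' nm_dvd prim_ne_zero nm_zero nm_posR natCast_dvd)
open Pool.Agent.W78.EC (Gi SP)
open Pool.Agent.W991.EC (hD mul_inj card_ball)

open scoped Classical in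
/-- the primes `≡ 1 mod 4` of the set `P` between `y` and `x` -/
noncomputable def PT (P : Set ℕ) (y x : ℝ) : Finset ℕ :=
  (Icc 1 ⌊x⌋₊).filter (fun p => p.Prime ∧ p % 4 = 1 ∧ p ∈ P ∧ y < (p : ℝ))

/-- `P` has a positive proportion of the primes `≡ 1 mod 4` between `y` and `y ^ λ`, in the sense of
the sum of the reciprocals -/
def Thick (P : Set ℕ) : Prop := ∀ lam : ℝ, 1 < lam → ∃ c : ℝ, 0 < c ∧ ∃ y₀ : ℝ, ∀ y : ℝ, y₀ ≤ y →
  c ≤ ∑ p ∈ PT P y (y ^ lam), 1 / (p : ℝ)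

theorem mem_PT {P : Set ℕ} {y x : ℝ} {p : ℕ} :
    p ∈ PT P y x ↔ G4 p ∧ p ∈ P ∧ y < (p : ℝ) ∧ p ≤ ⌊x⌋₊ := by
  classical
  unfold PT G4
  rw [mem_filter, mem_Icc]
  constructor
  · rintro ⟨⟨-, h1⟩, h2, h3, h4, h5⟩
    exact ⟨⟨h2, h3⟩, h4, h5, h1⟩
  · rintro ⟨⟨h2, h3⟩, h4, h5, h1⟩
    exact ⟨⟨h2.one_lt.le, h1⟩, h2, h3, h4, h5⟩

theorem le_of_PT {P : Set ℕ} {y x : ℝ} {p : ℕ} (h : p ∈ PT P y x) : (p : ℝ) ≤ x := by
  have h1 := mem_PT.1 h
  have h2 : 1 ≤ ⌊x⌋₊ := h1.1.1.one_lt.le.trans h1.2.2.2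
  exact (Nat.le_floor_iff' h1.1.1.ne_zero).1 h1.2.2.2

/-- the number of large prime factors -/
theorem few_large {y x : ℝ} {k n : ℕ} (hy : 1 < y) (hxy : x ≤ y ^ k) (hn : n ≠ 0) (hnx : (n : ℝ) ≤ x) :
    (n.primeFactors.filter (fun p : ℕ => y < (p : ℝ))).card ≤ k := by
  set D := n.primeFactors.filter (fun p : ℕ => y < (p : ℝ)) with hDd
  have h0 : ∏ p ∈ D, p ∣ n :=
    (Finset.prod_dvd_prod_of_subset _ _ _ (Finset.filter_subset _ _)).trans (Nat.prod_primeFactors_dvd n)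
  have h1 : y ^ D.card ≤ ((∏ p ∈ D, p : ℕ) : ℝ) := by
    push_cast
    rw [← Finset.prod_const]
    refine Finset.prod_le_prod (fun i _ => by linarith) (fun i hi => ?_)
    rw [hDd, mem_filter] at hi
    exact hi.2.le
  have h2 : ((∏ p ∈ D, p : ℕ) : ℝ) ≤ n := by exact_mod_cast Nat.le_of_dvd (by omega) h0
  exact (pow_le_pow_iff_right₀ hy).1 (h1.trans (h2.trans (hnx.trans hxy)))

open scoped Classical in
/-- the elements with prime factors in prescribed ranges -/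
theorem low_cnt {r : ℕ} {u v : Fin r → ℝ} (hu : ∀ i, 0 < u i) (hv : ∑ i, v i ≤ 1)
    (P : Fin r → Set ℕ) (hκ : ∃ κ : ℝ, 0 < κ ∧ ∃ X₀ : ℝ, ∀ X : ℝ, X₀ ≤ X → ∀ i,
      κ ≤ ∑ p ∈ PT (P i) (X ^ u i) (X ^ v i), 1 / (p : ℝ)) :
    ∃ c σ : ℝ, 0 < c ∧ 0 < σ ∧ σ ≤ 1 ∧ ∃ X₁ : ℝ, ∀ X : ℝ, X₁ ≤ X →
      c * X ≤ (((ball 0 1 X).filter (fun z : Gi => σ * X ≤ (nm z : ℝ) ∧ ∃ p : Fin r → ℕ,
        ∀ i, p i ∈ PT (P i) (X ^ u i) (X ^ v i) ∧ p i ∣ nm z)).card : ℝ) := by
  obtain ⟨κ, hκ0, X₀, hκ⟩ := hκ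
  obtain ⟨c₁, hc₁, hlo⟩ := ball_lo1
  obtain ⟨a, ha, hau⟩ := exists_low hu
  obtain ⟨K, hK⟩ : ∃ K : ℕ, 1 / a ≤ K := exists_nat_ge _
  have hK0 : (0 : ℝ) < K := lt_of_lt_of_le (by positivity) hK
  obtain ⟨σ, hσ⟩ : ∃ σ : ℝ, σ = min 1 (c₁ / 18) := ⟨_, rfl⟩
  have hσ0 : 0 < σ := by rw [hσ]; exact lt_min one_pos (by positivity)
  have hσ1 : σ ≤ 1 := by rw [hσ]; exact min_le_left _ _
  have hσ2 : 9 * σ ≤ c₁ / 2 := by
    have : σ ≤ c₁ / 18 := by rw [hσ]; exact min_le_right _ _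
    linarith
  obtain ⟨X₂, hX₂1, -, hX₂⟩ := rpow_ge ha 2 (by norm_num)
  refine ⟨c₁ / 2 * κ ^ r / (K : ℝ) ^ r, σ, by positivity, hσ0, hσ1, max X₀ X₂, fun X hX => ?_⟩
  have hXa : X₀ ≤ X := (le_max_left _ _).trans hX
  have hXb : X₂ ≤ X := (le_max_right _ _).trans hX
  have hX1 : 1 ≤ X := hX₂1.trans hXb
  have hX0 : 0 < X := by linarith
  have hy2 := hX₂ X hXb
  obtain ⟨T, hT⟩ : ∃ T : Finset (Fin r → ℕ), T = Fintype.piFinset
    (fun i => PT (P i) (X ^ u i) (X ^ v i)) := ⟨_, rfl⟩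
  obtain ⟨w, hw⟩ : ∃ w : (Fin r → ℕ) → Gi, w = fun p => ∏ i, gq (p i) := ⟨_, rfl⟩
  have hTm : ∀ p ∈ T, ∀ i, p i ∈ PT (P i) (X ^ u i) (X ^ v i) := by
    intro p hp
    rw [hT, Fintype.mem_piFinset] at hp
    exact hp
  have hnw : ∀ p ∈ T, nm (w p) = ∏ i, p i := by
    intro p hp
    rw [hw]
    have : ∀ s : Finset (Fin r), nm (∏ i ∈ s, gq (p i)) = ∏ i ∈ s, p i := by
      intro s
      induction s using Finset.induction_on with
      | empty => simp
      | insert i s hi ih =>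
        rw [prod_insert hi, prod_insert hi, nm_mul, ih, nm_gq (mem_PT.1 (hTm p hp i)).1]
    exact this univ
  have hpos : ∀ p ∈ T, 0 < ∏ i, p i := by
    intro p hp
    exact Finset.prod_pos fun i _ => (mem_PT.1 (hTm p hp i)).1.1.pos
  have hw0 : ∀ p ∈ T, w p ≠ 0 := by
    intro p hp h0
    have h1 := hnw p hp
    rw [h0, nm_zero] at h1
    have := hpos p hp
    omega
  have hle : ∀ p ∈ T, ((∏ i, p i : ℕ) : ℝ) ≤ X := by
    intro p hp
    push_cast
    calc ∏ i, (p i : ℝ) ≤ ∏ i, X ^ v i := by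
          refine Finset.prod_le_prod (fun i _ => Nat.cast_nonneg _) (fun i _ => ?_)
          exact le_of_PT (hTm p hp i)
      _ = X ^ (∑ i, v i) := by rw [Real.rpow_sum_of_pos hX0]
      _ ≤ X ^ (1 : ℝ) := Real.rpow_le_rpow_of_exponent_le hX1 hv
      _ = X := Real.rpow_one X
  obtain ⟨Z, hZ⟩ : ∃ Z : Finset Gi, Z = (ball 0 1 X).filter (fun z : Gi => σ * X ≤ (nm z : ℝ) ∧
      ∃ p : Fin r → ℕ, ∀ i, p i ∈ PT (P i) (X ^ u i) (X ^ v i) ∧ p i ∣ nm z) := ⟨_, rfl⟩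
  rw [← hZ]
  -- the elements divisible by a product
  have hN : ∀ p ∈ T, c₁ / 2 * X * ∏ i, (1 / (p i : ℝ)) ≤
      ((Z.filter (fun z => w p ∣ z)).card : ℝ) := by
    intro p hp
    obtain ⟨n, hn⟩ : ∃ n : ℕ, n = ∏ i, p i := ⟨_, rfl⟩
    have hn0 : (0 : ℝ) < n := by rw [hn]; exact_mod_cast hpos p hp
    have hnX : (n : ℝ) ≤ X := by rw [hn]; exact hle p hp
    have hXn : 1 ≤ X / n := by rw [le_div_iff₀ hn0]; linarith
    have e1 : Z.filter (fun z => w p ∣ z) = (ball 0 1 X).filter (fun z : Gi =>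
        σ * X ≤ (nm z : ℝ) ∧ w p ∣ z) := by
      rw [hZ, filter_filter]
      refine filter_congr fun z hz => ?_
      constructor
      · rintro ⟨⟨h1, -⟩, h2⟩; exact ⟨h1, h2⟩
      · rintro ⟨h1, h2⟩
        refine ⟨⟨h1, p, fun i => ⟨hTm p hp i, ?_⟩⟩, h2⟩
        have h3 := nm_dvd h2
        rw [hnw p hp] at h3
        exact (Finset.dvd_prod_of_mem _ (mem_univ i)).trans h3
    have e2 := card_mult (hw0 p hp) X (fun z => σ * X ≤ (nm z : ℝ))
    rw [e1, e2, hnw p hp, ← hn]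
    have e3 : ((ball 0 1 (X / n)).card : ℝ) ≤ (((ball 0 1 (X / n)).filter (fun z : Gi =>
        σ * X ≤ (nm (w p * z) : ℝ))).card : ℝ) + ((ball 0 1 (σ * (X / n))).card : ℝ) := by
      have hsub : ball 0 1 (X / n) ⊆ (ball 0 1 (X / n)).filter (fun z : Gi =>
        σ * X ≤ (nm (w p * z) : ℝ)) ∪ ball 0 1 (σ * (X / n)) := by
        intro z hz
        have hz' := (mem_ball hD).1 hz
        rw [mem_union, mem_filter]
        by_cases hc : σ * X ≤ (nm (w p * z) : ℝ)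
        · left; exact ⟨hz, hc⟩
        · right
          rw [mem_ball hD]
          refine ⟨hz'.1, ?_⟩
          rw [not_le, nm_mul, hnw p hp, ← hn] at hc
          push_cast at hc
          rw [← mul_div_assoc, le_div_iff₀ hn0]
          linarith
      exact_mod_cast (Finset.card_le_card hsub).trans (Finset.card_union_le _ _)
    have e4 := hlo (X / n) hXn
    have e5 := card_ball (X := σ * (X / n)) (by positivity)
    have e6 : c₁ / 2 * X * ∏ i, (1 / (p i : ℝ)) = c₁ / 2 * (X / n) := by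
      rw [hn]
      push_cast
      rw [Finset.prod_div_distrib, Finset.prod_const_one]
      ring
    rw [e6]
    have e7 : 9 * (σ * (X / n)) ≤ c₁ / 2 * (X / n) := by
      have : 0 ≤ X / n := by positivity
      nlinarith
    have e8 : (((ball 0 1 (X / n)).filter (fun z : Gi => σ * X ≤ (nm (w p * z) : ℝ))).card : ℝ) =
        (((ball 0 1 (X / n)).filter (fun z : Gi => σ * X ≤ (nm (w p * z) : ℝ))).card : ℝ) := rfl
    linarith
  -- the multiplicity
  have hM : ∀ z ∈ Z, ((T.filter (fun p => w p ∣ z)).card : ℝ) ≤ (K : ℝ) ^ r := by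
    intro z hz
    rw [hZ, mem_filter] at hz
    have hz' := (mem_ball hD).1 hz.1
    have hsub : T.filter (fun p => w p ∣ z) ⊆ Fintype.piFinset
        (fun _ : Fin r => (nm z).primeFactors.filter (fun p : ℕ => X ^ a < (p : ℝ))) := by
      intro p hp
      rw [mem_filter] at hp
      rw [Fintype.mem_piFinset]
      intro i
      have h1 := mem_PT.1 (hTm p hp.1 i)
      rw [mem_filter, Nat.mem_primeFactors]
      have h3 := nm_dvd hp.2
      rw [hnw p hp.1] at h3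
      refine ⟨⟨h1.1.1, (Finset.dvd_prod_of_mem _ (mem_univ i)).trans h3, by omega⟩, ?_⟩
      exact lt_of_le_of_lt (Real.rpow_le_rpow_of_exponent_le hX1 (hau i)) h1.2.2.1
    have h2 := Finset.card_le_card hsub
    rw [Fintype.card_piFinset, Finset.prod_const, Finset.card_univ, Fintype.card_fin] at h2
    have h3 : ((nm z).primeFactors.filter (fun p : ℕ => X ^ a < (p : ℝ))).card ≤ K :=
      few_large (by linarith) (le_pow_k ha hK hX1) (by omega) hz'.2
    have h4 := h2.trans (Nat.pow_le_pow_left h3 r)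
    exact_mod_cast h4
  -- double counting
  have hdc : ∑ p ∈ T, ((Z.filter (fun z => w p ∣ z)).card : ℝ) =
      ∑ z ∈ Z, ((T.filter (fun p => w p ∣ z)).card : ℝ) := by
    have := Finset.sum_card_bipartiteAbove_eq_sum_card_bipartiteBelow (s := T) (t := Z)
      (fun p z => w p ∣ z)
    unfold Finset.bipartiteAbove Finset.bipartiteBelow at this
    exact_mod_cast this
  have h1 : ∑ p ∈ T, c₁ / 2 * X * ∏ i, (1 / (p i : ℝ)) ≤ Z.card * (K : ℝ) ^ r := by
    refine (sum_le_sum hN).trans ?_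
    rw [hdc]
    refine (Finset.sum_le_card_nsmul _ _ _ hM).trans ?_
    rw [nsmul_eq_mul]
  have h2 : κ ^ r ≤ ∑ p ∈ T, ∏ i, (1 / (p i : ℝ)) := by
    have e9 := Finset.prod_univ_sum (fun i => PT (P i) (X ^ u i) (X ^ v i))
      (fun (_ : Fin r) (p : ℕ) => 1 / (p : ℝ))
    rw [hT, ← e9]
    calc κ ^ r = ∏ _i : Fin r, κ := by rw [Finset.prod_const, Finset.card_univ, Fintype.card_fin]
      _ ≤ _ := Finset.prod_le_prod (fun i _ => hκ0.le) (fun i _ => hκ X hXa i)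
  rw [← mul_sum] at h1
  have h3 : c₁ / 2 * X * κ ^ r ≤ Z.card * (K : ℝ) ^ r :=
    (mul_le_mul_of_nonneg_left h2 (by positivity)).trans h1
  rw [div_mul_eq_mul_div, div_le_iff₀ (by positivity)]
  linarith

/-- disjoint subintervals -/
theorem disj_sub {r : ℕ} {u v : Fin r → ℝ} (huv : ∀ i, u i < v i) : ∃ u' v' : Fin r → ℝ,
    (∀ i, u i < u' i ∧ u' i < v' i ∧ v' i < v i) ∧ ∀ i j, i ≠ j → v' i ≤ u' j ∨ v' j ≤ u' i := by
  classical
  have h1 : ∀ i, ∃ t : Finset ℝ, (∀ x ∈ t, u i < x ∧ x < v i) ∧ t.card = r := by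
    intro i
    obtain ⟨t, ht1, ht2⟩ := (Set.Ioo_infinite (huv i)).exists_subset_card_eq r
    exact ⟨t, fun x hx => ht1 hx, ht2⟩
  choose t ht1 ht2 using h1
  obtain ⟨w, hw1, hw2⟩ := (Finset.all_card_le_biUnion_card_iff_exists_injective t).1 (by
    intro s
    by_cases hs : s.Nonempty
    · obtain ⟨i, hi⟩ := hs
      calc s.card ≤ (Finset.univ : Finset (Fin r)).card := Finset.card_le_univ s
        _ = (t i).card := by rw [Finset.card_univ, Fintype.card_fin, ht2]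
        _ ≤ (s.biUnion t).card := Finset.card_le_card (Finset.subset_biUnion_of_mem t hi)
    · rw [Finset.not_nonempty_iff_eq_empty] at hs
      rw [hs]
      simp)
  obtain ⟨δ₁, hδ₁, hδ₁'⟩ := exists_low (ι := Fin r × Fin r)
    (b := fun e => if e.1 = e.2 then 1 else |w e.1 - w e.2|) (by
      intro e
      by_cases he : e.1 = e.2
      · simp only [if_pos he]
        exact one_pos
      · simp only [if_neg he]
        rw [abs_pos, sub_ne_zero]
        exact fun h => he (hw1 h))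
  obtain ⟨δ₂, hδ₂, hδ₂'⟩ := exists_low (ι := Fin r) (b := fun i => (w i - u i) / 2) (by
      intro i
      have := (ht1 i _ (hw2 i)).1
      linarith)
  refine ⟨fun i => w i - min δ₁ δ₂, w, fun i => ⟨?_, ?_, (ht1 i _ (hw2 i)).2⟩, ?_⟩
  · have h3 : min δ₁ δ₂ ≤ (w i - u i) / 2 := (min_le_right _ _).trans (hδ₂' i)
    have := (ht1 i _ (hw2 i)).1
    linarith
  · have : 0 < min δ₁ δ₂ := lt_min hδ₁ hδ₂
    linarith
  · intro i j hij
    have h4 := hδ₁' (i, j)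
    simp only [if_neg hij] at h4
    have h5 : min δ₁ δ₂ ≤ |w i - w j| := (min_le_left _ _).trans h4
    rcases le_total (w i) (w j) with h | h
    · left
      rw [abs_of_nonpos (by linarith)] at h5
      linarith
    · right
      rw [abs_of_nonneg (by linarith)] at h5
      linarith

end Pool.Agent.T2H34
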