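import Pool.Agent.T2H34.Low

/-!
Prescribed patterns of large prime factors.
-/

set_option autoImplicit false

namespace Pool.Agent.T2H34

open Finset Filter
open Pool.Agent.W78.GA (Qd nm prim dt ip lat ball pball edge dedge mem_ball mem_pball nm_mul
  one_le_nm star_mul_self' nm_dvd prim_ne_zero nm_zero nm_posR natCast_dvd)
open Pool.Agent.W78.EC (Gi SP)
open Pool.Agent.W991.EC (hD mul_inj card_ball)
open Pool.Agent.W681.EC (mem_SP)
open Pool.Agent.TH890.DV (LogNull)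

/-- the event: there are different primes `p i` of the sets `P i` in the ranges -/
def Pe {r : ℕ} (P : Fin r → Set ℕ) : Set (Fin r × Bool → Finset ℕ) :=
  {L | ∃ p : Fin r → ℕ, Function.Injective p ∧ ∀ i, p i ∈ P i ∧ p i ∈ L (i, true) ∧
    p i ∉ L (i, false)}

/-- the thresholds -/
def bp {r : ℕ} (u v : Fin r → ℝ) (e : Fin r × Bool) : ℝ := if e.2 then u e.1 else v e.1

/-- the indicator function of the pattern -/
noncomputable def pu {r : ℕ} (u v : Fin r → ℝ) (P : Fin r → Set ℕ) : ℕ → ℝ := ev (bp u v) (Pe P)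

theorem pu_one {r : ℕ} {u v : Fin r → ℝ} {P : Fin r → Set ℕ} {m : ℕ} (hm : m ≠ 0) :
    pu u v P m = 1 ↔ ∃ p : Fin r → ℕ, Function.Injective p ∧ ∀ i, p i ∈ P i ∧ (p i).Prime ∧
      p i ∣ m ∧ (m : ℝ) ^ u i < p i ∧ (p i : ℝ) ≤ (m : ℝ) ^ v i := by
  classical
  unfold pu ev
  have h : (if (fun j => Lf (bp u v j) m) ∈ Pe P then (1 : ℝ) else 0) = 1 ↔
      (fun j => Lf (bp u v j) m) ∈ Pe P := by
    split_ifs with h1
    · exact ⟨fun _ => h1, fun _ => rfl⟩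
    · exact ⟨fun h2 => absurd h2 zero_ne_one, fun h2 => absurd h2 h1⟩
  rw [h]
  unfold Pe Lf bp
  simp only [Set.mem_setOf_eq, if_true, Bool.false_eq_true, if_false, mem_filter,
    Nat.mem_primeFactors, not_and, not_lt]
  constructor
  · rintro ⟨p, hp, h1⟩
    refine ⟨p, hp, fun i => ?_⟩
    obtain ⟨g1, ⟨⟨g2, g3, g4⟩, g5⟩, g6⟩ := h1 i
    exact ⟨g1, g2, g3, g5, g6 ⟨g2, g3, g4⟩⟩
  · rintro ⟨p, hp, h1⟩
    refine ⟨p, hp, fun i => ?_⟩
    obtain ⟨g1, g2, g3, g4, g5⟩ := h1 i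
    exact ⟨g1, ⟨⟨g2, g3, hm⟩, g4⟩, fun _ => g5⟩

theorem pu_Ad {r : ℕ} {u v : Fin r → ℝ} (hu : ∀ i, 0 < u i) (huv : ∀ i, u i < v i)
    (P : Fin r → Set ℕ) : Ad (pu u v P) := by
  refine Ad_ev ?_ _
  rintro ⟨i, b⟩
  unfold bp
  cases b
  · simp only [Bool.false_eq_true, if_false]
    exact (hu i).trans (huv i)
  · simp only [if_true]
    exact hu i

/-- comparison of powers -/
theorem pow_cmp {σ a b : ℝ} (hσ : 0 < σ) (ha : 0 < a) (hab : a < b) : ∃ R : ℝ, 1 ≤ R ∧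
    ∀ X : ℝ, R ≤ X → X ^ a ≤ (σ * X) ^ b := by
  obtain ⟨R, hR1, -, hR⟩ := rpow_ge (a := b - a) (by linarith) (max 1 ((1 / σ) ^ b)) (le_max_left _ _)
  refine ⟨R, hR1, fun X hX => ?_⟩
  have hX0 : 0 < X := by linarith
  have h1 := (le_max_right _ _).trans (hR X hX)
  rw [Real.mul_rpow hσ.le hX0.le]
  have h2 : X ^ b = X ^ a * X ^ (b - a) := by
    rw [← Real.rpow_add hX0]
    congr 1
    ring
  have h3 : 0 < σ ^ b := Real.rpow_pos_of_pos hσ _
  have h4 : σ ^ b * (1 / σ) ^ b = 1 := by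
    rw [← Real.mul_rpow hσ.le (by positivity), mul_one_div, div_self hσ.ne', Real.one_rpow]
  have h5 : 0 < X ^ a := Real.rpow_pos_of_pos hX0 _
  calc X ^ a = X ^ a * (σ ^ b * (1 / σ) ^ b) := by rw [h4, mul_one]
    _ ≤ X ^ a * (σ ^ b * X ^ (b - a)) :=
        mul_le_mul_of_nonneg_left (mul_le_mul_of_nonneg_left h1 h3.le) h5.le
    _ = σ ^ b * X ^ b := by rw [h2]; ring

/-- the patterns have positive density -/
theorem pat_low {r : ℕ} {u v : Fin r → ℝ} (hu : ∀ i, 0 < u i) (huv : ∀ i, u i < v i)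
    (hv : ∑ i, v i ≤ 1) {P : Fin r → Set ℕ} (hP : ∀ i, Thick (P i)) :
    ∃ c : ℝ, 0 < c ∧ ∃ X₁ : ℝ, ∀ X : ℝ, X₁ ≤ X → c ≤ av (pu u v P) X := by
  classical
  obtain ⟨u', v', h1, h2⟩ := disj_sub huv
  have hu' : ∀ i, 0 < u' i := fun i => (hu i).trans (h1 i).1
  have hv' : ∑ i, v' i ≤ 1 := (sum_le_sum fun i _ => (h1 i).2.2.le).trans hv
  have hκ : ∃ κ : ℝ, 0 < κ ∧ ∃ X₀ : ℝ, ∀ X : ℝ, X₀ ≤ X → ∀ i,
      κ ≤ ∑ p ∈ PT (P i) (X ^ u' i) (X ^ v' i), 1 / (p : ℝ) := by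
    have h3 : ∀ i, ∃ c : ℝ, 0 < c ∧ ∃ X₀ : ℝ, ∀ X : ℝ, X₀ ≤ X →
        c ≤ ∑ p ∈ PT (P i) (X ^ u' i) (X ^ v' i), 1 / (p : ℝ) := by
      intro i
      obtain ⟨c, hc, y₀, hy⟩ := hP i (v' i / u' i) (by rw [lt_div_iff₀ (hu' i)]; linarith [(h1 i).2.1])
      obtain ⟨X₁, hX₁1, -, hX₁⟩ := rpow_ge (hu' i) (max 1 y₀) (le_max_left _ _)
      refine ⟨c, hc, X₁, fun X hX => ?_⟩
      have h4 := hy (X ^ u' i) ((le_max_right _ _).trans (hX₁ X hX))
      have hX0 : 0 ≤ X := by linarith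
      have e : u' i * (v' i / u' i) = v' i := by
        have := (hu' i).ne'
        field_simp
      rwa [← Real.rpow_mul hX0, e] at h4
    choose c hc hX using h3
    obtain ⟨κ, hκ, hκ'⟩ := exists_low hc
    obtain ⟨X₀, hX₀⟩ := exists_unif hX
    exact ⟨κ, hκ, X₀, fun X hX' i => (hκ' i).trans (hX₀ X hX' i)⟩
  obtain ⟨c, σ, hc, hσ, hσ1, X₁, hX₁⟩ := low_cnt hu' hv' P hκ
  obtain ⟨X₂, hX₂⟩ := exists_unif (P := fun (i : Fin r) X => 1 ≤ X ∧ X ^ v' i ≤ (σ * X) ^ v i) (by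
    intro i
    obtain ⟨R, hR1, hR⟩ := pow_cmp hσ ((hu' i).trans (h1 i).2.1) (h1 i).2.2
    exact ⟨R, fun X hX => ⟨hR1.trans hX, hR X hX⟩⟩)
  refine ⟨c / 9, by positivity, max (max X₁ X₂) 1, fun X hX => ?_⟩
  have hXa : X₁ ≤ X := ((le_max_left _ _).trans (le_max_left _ _)).trans hX
  have hXb : X₂ ≤ X := ((le_max_right _ _).trans (le_max_left _ _)).trans hX
  have hX1 : 1 ≤ X := (le_max_right _ _).trans hX
  have hX0 : 0 < X := by linarith
  have h3 := hX₁ X hXa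
  have hcb := card_ball (X := X) hX0.le
  obtain ⟨c₁, hc₁, hlo⟩ := ball_lo1
  have hcb0 : (0 : ℝ) < (ball 0 1 X).card := lt_of_lt_of_le (by positivity) (hlo X hX1)
  have h4 : (((ball 0 1 X).filter (fun z : Gi => σ * X ≤ (nm z : ℝ) ∧ ∃ p : Fin r → ℕ,
        ∀ i, p i ∈ PT (P i) (X ^ u' i) (X ^ v' i) ∧ p i ∣ nm z)).card : ℝ) ≤
      ∑ z ∈ ball 0 1 X, pu u v P (nm z) := by
    have hAd := pu_Ad hu huv P
    rw [← nsmul_one ((((ball 0 1 X).filter (fun z : Gi => σ * X ≤ (nm z : ℝ) ∧ ∃ p : Fin r → ℕ,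
        ∀ i, p i ∈ PT (P i) (X ^ u' i) (X ^ v' i) ∧ p i ∣ nm z)).card)), ← sum_const]
    refine (sum_le_sum (g := fun z : Gi => pu u v P (nm z)) fun z hz => ?_).trans
      (Finset.sum_le_sum_of_subset_of_nonneg (Finset.filter_subset _ _) fun z _ _ => hAd.u0 _)
    rw [mem_filter] at hz
    obtain ⟨hz1, hz2, p, hp⟩ := hz
    have hz' := (mem_ball hD).1 hz1
    have hnz : (0 : ℝ) < nm z := by exact_mod_cast hz'.1
    have hnz1 : (1 : ℝ) ≤ nm z := by exact_mod_cast hz'.1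
    have hone : pu u v P (nm z) = 1 := by
      rw [pu_one (by omega)]
      refine ⟨p, ?_, fun i => ?_⟩
      · intro i j hij
        by_contra hne
        have g1 := (mem_PT.1 (hp i).1).2.2.1
        have g2 := le_of_PT (hp i).1
        have g3 := (mem_PT.1 (hp j).1).2.2.1
        have g4 := le_of_PT (hp j).1
        rw [hij] at g1 g2
        rcases h2 i j hne with h | h
        · have := Real.rpow_le_rpow_of_exponent_le hX1 h
          linarith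
        · have := Real.rpow_le_rpow_of_exponent_le hX1 h
          linarith
      · have g1 := mem_PT.1 (hp i).1
        have g2 := le_of_PT (hp i).1
        refine ⟨g1.2.1, g1.1.1, (hp i).2, ?_, ?_⟩
        · refine lt_of_le_of_lt ?_ g1.2.2.1
          calc (nm z : ℝ) ^ u i ≤ (nm z : ℝ) ^ u' i :=
                Real.rpow_le_rpow_of_exponent_le hnz1 (h1 i).1.le
            _ ≤ X ^ u' i := Real.rpow_le_rpow hnz.le hz'.2 (hu' i).le
        · refine g2.trans ?_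
          calc X ^ v' i ≤ (σ * X) ^ v i := (hX₂ X hXb i).2
            _ ≤ (nm z : ℝ) ^ v i := Real.rpow_le_rpow (by positivity) hz2
                ((hu i).trans (huv i)).le
    rw [hone]
  unfold av avg
  rw [le_div_iff₀ hcb0]
  calc c / 9 * (ball 0 1 X).card ≤ c / 9 * (9 * X) := mul_le_mul_of_nonneg_left hcb (by positivity)
    _ = c * X := by ring
    _ ≤ _ := h3.trans h4

/-- good scales exist -/
theorem LogNull.exists_scale {P : ℕ → Prop} (h : LogNull P) {θ : ℝ} (hθ : 0 < θ) (hθ1 : θ < 1) :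
    ∃ X₀ : ℕ, ∀ X : ℕ, X₀ ≤ X → ∃ Y : ℕ, (X : ℝ) ^ θ ≤ Y ∧ Y ≤ X ∧ ¬ P Y := by
  classical
  unfold LogNull at h
  rw [Metric.tendsto_atTop] at h
  obtain ⟨N₀, hN₀⟩ := h ((1 - θ) / 2) (by linarith)
  have hlim : Tendsto (fun N : ℕ => Real.log N) atTop atTop :=
    Real.tendsto_log_atTop.comp tendsto_natCast_atTop_atTop
  obtain ⟨N₁, hN₁⟩ := (hlim.eventually_gt_atTop (4 / (1 - θ))).exists_forall_of_atTop
  refine ⟨max (max N₀ N₁) 3, fun X hX => ?_⟩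
  have g1 : N₀ ≤ X := le_trans (le_trans (le_max_left _ _) (le_max_left _ _)) hX
  have g2 : N₁ ≤ X := le_trans (le_trans (le_max_right _ _) (le_max_left _ _)) hX
  have g3 : 3 ≤ X := le_trans (le_max_right _ _) hX
  have hX3 : (3 : ℝ) ≤ X := by exact_mod_cast g3
  have hX0 : (0 : ℝ) < X := by linarith
  have hl : 0 < Real.log X := Real.log_pos (by linarith)
  by_contra hno
  push Not at hno
  have h1 := hN₀ X g1
  have h2 := hN₁ X g2
  rw [div_lt_iff₀ (by linarith)] at h2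
  have hS0 : 0 ≤ ∑ Y ∈ (Icc 1 X).filter P, 1 / (Y : ℝ) :=
    Finset.sum_nonneg fun Y _ => by positivity
  rw [Real.dist_eq, sub_zero, abs_of_nonneg (div_nonneg hS0 hl.le), div_lt_iff₀ hl] at h1
  obtain ⟨m, hm⟩ : ∃ m : ℕ, m = ⌊(X : ℝ) ^ θ⌋₊ := ⟨_, rfl⟩
  have hpow1 : (1 : ℝ) ≤ (X : ℝ) ^ θ := Real.one_le_rpow (by linarith) hθ.le
  have hm1 : 1 ≤ m := by rw [hm]; exact Nat.le_floor (by simpa using hpow1)
  have hmX : (m : ℝ) ≤ (X : ℝ) ^ θ := by rw [hm]; exact Nat.floor_le (by linarith)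
  have h3 : ∑ Y ∈ Icc 1 X, 1 / (Y : ℝ) ≤ ∑ Y ∈ (Icc 1 X).filter P, 1 / (Y : ℝ) +
      ∑ Y ∈ Icc 1 m, 1 / (Y : ℝ) := by
    have hsub : Icc 1 X ⊆ (Icc 1 X).filter P ∪ Icc 1 m := by
      intro Y hY
      rw [mem_Icc] at hY
      rw [mem_union, mem_filter, mem_Icc, mem_Icc]
      by_cases hYm : Y ≤ m
      · right; exact ⟨hY.1, hYm⟩
      · left
        refine ⟨hY, hno Y ?_ hY.2⟩
        have h4 : (X : ℝ) ^ θ < (m : ℝ) + 1 := by rw [hm]; exact Nat.lt_floor_add_one _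
        have h5 : (m : ℝ) + 1 ≤ Y := by exact_mod_cast (by omega : m + 1 ≤ Y)
        linarith
    refine (sum_le_sum_of_subset_of_nonneg hsub (fun _ _ _ => by positivity)).trans ?_
    have h6 := sum_union_inter (s₁ := (Icc 1 X).filter P) (s₂ := Icc 1 m) (f := fun Y : ℕ => 1 / (Y : ℝ))
    have h7 : (0 : ℝ) ≤ ∑ Y ∈ (Icc 1 X).filter P ∩ Icc 1 m, 1 / (Y : ℝ) :=
      sum_nonneg fun _ _ => by positivity
    linarith
  have h4 : Real.log X ≤ ∑ Y ∈ Icc 1 X, 1 / (Y : ℝ) := by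
    have h5 := log_add_one_le_harmonic X
    rw [harmonic_eq_sum_Icc] at h5
    push_cast at h5
    have h6 : Real.log X ≤ Real.log ((X : ℝ) + 1) := Real.log_le_log hX0 (by linarith)
    simp only [one_div]
    linarith
  have h5 := Pool.Agent.W681.EC.sum_inv_le m
  have h6 : Real.log m ≤ θ * Real.log X := by
    rw [← Real.log_rpow hX0]
    exact Real.log_le_log (by exact_mod_cast hm1) hmX
  nlinarith

end Pool.Agent.T2H34
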