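import Mathlib
import Pool.Agent.T2H34.DhMany

/-!
Products of independent sequences: second moments over products of finite sets.
-/

set_option autoImplicit false

namespace Pool.Agent.T2H34.Prd

open Finset

variable {α : Type*}

/-- the weighted sum of the products -/
noncomputable def Ts {r : ℕ} (u : Fin r → ℕ → α → ℂ) (g : ℕ → ℂ) (S : Finset ℕ) (F : Fin r → α) : ℂ :=
  ∑ t ∈ S, g t * ∏ j, u j t (F j)

/-- the correlation of the sequences of one factor -/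
noncomputable def Cc (u : ℕ → α → ℂ) (A : Finset α) (t s : ℕ) : ℂ :=
  ∑ p ∈ A, u t p * (starRingEnd ℂ) (u s p)

lemma Cc_le {u : ℕ → α → ℂ} (hu : ∀ t p, ‖u t p‖ ≤ 1) (A : Finset α) (t s : ℕ) :
    ‖Cc u A t s‖ ≤ A.card := by
  unfold Cc
  refine (norm_sum_le _ _).trans ?_
  have : ∀ p ∈ A, ‖u t p * (starRingEnd ℂ) (u s p)‖ ≤ 1 := by
    intro p _
    rw [norm_mul, RCLike.norm_conj]
    exact mul_le_one₀ (hu t p) (norm_nonneg _) (hu s p)
  refine (sum_le_sum this).trans ?_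
  rw [sum_const, nsmul_eq_mul, mul_one]

lemma sq_eq {r : ℕ} (u : Fin r → ℕ → α → ℂ) (g : ℕ → ℂ) (S : Finset ℕ) (A : Fin r → Finset α) :
    ((∑ F ∈ Fintype.piFinset A, ‖Ts u g S F‖ ^ 2 : ℝ) : ℂ) =
      ∑ e ∈ S ×ˢ S, (g e.1 * (starRingEnd ℂ) (g e.2)) * ∏ j, Cc (u j) (A j) e.1 e.2 := by
  have h1 : ∀ F : Fin r → α, ((‖Ts u g S F‖ ^ 2 : ℝ) : ℂ) = ∑ e ∈ S ×ˢ S,
      (g e.1 * (starRingEnd ℂ) (g e.2)) *
        ∏ j, (u j e.1 (F j) * (starRingEnd ℂ) (u j e.2 (F j))) := by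
    intro F
    rw [← Complex.normSq_eq_norm_sq, ← Complex.mul_conj]
    unfold Ts
    rw [map_sum, sum_mul_sum, ← sum_product']
    refine sum_congr rfl fun e _ => ?_
    rw [map_mul, map_prod, prod_mul_distrib]
    ring
  rw [Complex.ofReal_sum, sum_congr rfl fun F _ => h1 F, sum_comm]
  refine sum_congr rfl fun e _ => ?_
  rw [← mul_sum]
  unfold Cc
  rw [prod_univ_sum]

/-- the second moment -/
lemma mom {r : ℕ} (u : Fin r → ℕ → α → ℂ) (hu : ∀ j t p, ‖u j t p‖ ≤ 1) (g : ℕ → ℂ)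
    (hg : ∀ t, ‖g t‖ ≤ 1) (S : Finset ℕ) (A : Fin r → Finset α) (j₀ : Fin r)
    (h : ∑ e ∈ S.offDiag, ‖Cc (u j₀) (A j₀) e.1 e.2‖ ≤ (A j₀).card) :
    ∑ F ∈ Fintype.piFinset A, ‖Ts u g S F‖ ^ 2 ≤
      ((S.card : ℝ) + 1) * ∏ j, ((A j).card : ℝ) := by
  classical
  have h0 : (0 : ℝ) ≤ ∑ F ∈ Fintype.piFinset A, ‖Ts u g S F‖ ^ 2 :=
    sum_nonneg fun F _ => by positivity
  have h1 : ∑ F ∈ Fintype.piFinset A, ‖Ts u g S F‖ ^ 2 ≤
      ∑ e ∈ S ×ˢ S, ∏ j, ‖Cc (u j) (A j) e.1 e.2‖ := by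
    have h2 : ∑ F ∈ Fintype.piFinset A, ‖Ts u g S F‖ ^ 2 =
        ‖∑ e ∈ S ×ˢ S, (g e.1 * (starRingEnd ℂ) (g e.2)) * ∏ j, Cc (u j) (A j) e.1 e.2‖ := by
      rw [← sq_eq, Complex.norm_real, Real.norm_of_nonneg h0]
    rw [h2]
    refine (norm_sum_le _ _).trans (sum_le_sum fun e _ => ?_)
    rw [norm_mul, norm_mul, RCLike.norm_conj, norm_prod]
    refine mul_le_of_le_one_left (prod_nonneg fun j _ => norm_nonneg _) ?_
    exact mul_le_one₀ (hg _) (norm_nonneg _) (hg _)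
  have hP0 : (0 : ℝ) ≤ ∏ j ∈ univ.erase j₀, ((A j).card : ℝ) := prod_nonneg fun j _ => by positivity
  have hP : ∏ j, ((A j).card : ℝ) = ((A j₀).card : ℝ) * ∏ j ∈ univ.erase j₀, ((A j).card : ℝ) :=
    (mul_prod_erase univ _ (mem_univ j₀)).symm
  have h3 : ∀ e : ℕ × ℕ, ∏ j, ‖Cc (u j) (A j) e.1 e.2‖ ≤
      ‖Cc (u j₀) (A j₀) e.1 e.2‖ * ∏ j ∈ univ.erase j₀, ((A j).card : ℝ) := by
    intro e
    rw [← mul_prod_erase univ _ (mem_univ j₀)]
    apply mul_le_mul_of_nonneg_left _ (norm_nonneg _)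
    exact prod_le_prod (fun j _ => norm_nonneg _) fun j _ => Cc_le (hu j) _ _ _
  refine h1.trans ((sum_le_sum fun e _ => h3 e).trans ?_)
  rw [← sum_mul, ← diag_union_offDiag, sum_union (disjoint_diag_offDiag S), hP]
  have h4 : ∑ e ∈ S.diag, ‖Cc (u j₀) (A j₀) e.1 e.2‖ ≤ (S.card : ℝ) * (A j₀).card := by
    refine (sum_le_sum fun e _ => Cc_le (hu j₀) _ _ _).trans ?_
    rw [sum_const, nsmul_eq_mul, diag_card]
  calc (∑ e ∈ S.diag, ‖Cc (u j₀) (A j₀) e.1 e.2‖ +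
      ∑ e ∈ S.offDiag, ‖Cc (u j₀) (A j₀) e.1 e.2‖) * ∏ j ∈ univ.erase j₀, ((A j).card : ℝ) ≤
      ((S.card : ℝ) * (A j₀).card + (A j₀).card) * ∏ j ∈ univ.erase j₀, ((A j).card : ℝ) :=
        mul_le_mul_of_nonneg_right (add_le_add h4 h) hP0
    _ = _ := by ring

open scoped Classical in
/-- Chebyshev's inequality -/
lemma cheb {ι : Type*} (I : Finset ι) (V : ι → ℝ) (hV : ∀ F ∈ I, 0 ≤ V F) {B K : ℝ} (hB : 0 < B)
    (hK : ∑ F ∈ I, V F ≤ K) : ((I.filter (fun F => B < V F)).card : ℝ) * B ≤ K := by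
  classical
  refine le_trans ?_ hK
  rw [← nsmul_eq_mul, ← sum_const]
  refine (sum_le_sum ?_).trans (sum_le_sum_of_subset_of_nonneg (filter_subset _ _) ?_)
  · intro F hF
    rw [mem_filter] at hF
    exact hF.2.le
  · intro F hF _
    exact hV F hF

/-- the pair correlations modulo `k` of the sequence `x` over the set `A` are small -/
def Pcs (k : ℕ) (S : Finset ℕ) (x : ℕ → α → ℕ) (A : Finset α) : Prop :=
  ∀ b : ℂ, b ^ k = 1 → b ≠ 1 →
    ∑ e ∈ S.offDiag, ‖∑ p ∈ A, b ^ x e.1 p * (b ^ (k - 1)) ^ x e.2 p‖ ≤ (A.card : ℝ)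

lemma Pcs.cc {k : ℕ} (hk : 1 ≤ k) {S : Finset ℕ} {x : ℕ → α → ℕ} {A : Finset α}
    (h : Pcs k S x A) {b : ℂ} (hb : b ^ k = 1) (hb1 : b ≠ 1) :
    ∑ e ∈ S.offDiag, ‖Cc (fun t p => b ^ x t p) A e.1 e.2‖ ≤ (A.card : ℝ) := by
  refine le_trans (le_of_eq ?_) (h b hb hb1)
  refine sum_congr rfl fun e _ => ?_
  unfold Cc
  congr 1
  refine sum_congr rfl fun p _ => ?_
  rw [map_pow, Pool.Agent.T2H34.Dh.conj_root hk hb]

/-- the second moment for powers of roots of unity -/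
lemma momb {k : ℕ} (hk : 1 ≤ k) {r : ℕ} (b : Fin r → ℂ) (hb : ∀ j, b j ^ k = 1) (hb1 : b ≠ 1)
    (g : ℕ → ℂ) (hg : ∀ t, ‖g t‖ ≤ 1) (S : Finset ℕ) (x : Fin r → ℕ → α → ℕ) (A : Fin r → Finset α)
    (h : ∀ j, Pcs k S (x j) (A j)) :
    ∑ F ∈ Fintype.piFinset A, ‖Ts (fun j t p => b j ^ x j t p) g S F‖ ^ 2 ≤
      ((S.card : ℝ) + 1) * ∏ j, ((A j).card : ℝ) := by
  obtain ⟨j₀, hj₀⟩ : ∃ j, b j ≠ 1 := by
    by_contra hc
    push Not at hc
    exact hb1 (funext hc)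
  refine mom _ (fun j t p => ?_) g hg S A j₀ ((h j₀).cc hk (hb j₀) hj₀)
  rw [norm_pow, Pool.Agent.T2H34.Dh.norm_root hk (hb j), one_pow]

open scoped Classical in
/-- **signs**: for almost all tuples the sums of the products are small -/
theorem signs {k : ℕ} (hk : 1 ≤ k) {r : ℕ} (b : Fin r → ℂ) (hb : ∀ j, b j ^ k = 1) (hb1 : b ≠ 1)
    {M : ℕ} (g : Fin M → ℕ → ℂ) (hg : ∀ m t, ‖g m t‖ ≤ 1) (S : Finset ℕ) (x : Fin r → ℕ → α → ℕ)
    (A : Fin r → Finset α) (h : ∀ j, Pcs k S (x j) (A j)) {δ : ℝ} (hδ : 0 < δ)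
    (hS : 2 * M / δ ^ 3 ≤ (S.card : ℝ)) (hS0 : 0 < S.card) :
    (((Fintype.piFinset A).filter (fun F => ∃ m, δ * S.card <
      ‖Ts (fun j t p => b j ^ x j t p) (g m) S F‖)).card : ℝ) ≤ δ * ∏ j, ((A j).card : ℝ) := by
  have hSR : (1 : ℝ) ≤ S.card := by exact_mod_cast hS0
  have hP0 : (0 : ℝ) ≤ ∏ j, ((A j).card : ℝ) := prod_nonneg fun j _ => by positivity
  have h1 : ∀ m, (((Fintype.piFinset A).filter (fun F => (δ * S.card) ^ 2 <
      ‖Ts (fun j t p => b j ^ x j t p) (g m) S F‖ ^ 2)).card : ℝ) * (δ * S.card) ^ 2 ≤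
      ((S.card : ℝ) + 1) * ∏ j, ((A j).card : ℝ) := fun m =>
    cheb _ _ (fun F _ => by positivity) (by positivity) (momb hk b hb hb1 (g m) (hg m) S x A h)
  have h2 : (((Fintype.piFinset A).filter (fun F => ∃ m, δ * S.card <
      ‖Ts (fun j t p => b j ^ x j t p) (g m) S F‖)).card : ℝ) ≤ ∑ m : Fin M,
      (((Fintype.piFinset A).filter (fun F => (δ * S.card) ^ 2 <
      ‖Ts (fun j t p => b j ^ x j t p) (g m) S F‖ ^ 2)).card : ℝ) := by
    have h3 : ((Fintype.piFinset A).filter (fun F => ∃ m, δ * S.card <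
      ‖Ts (fun j t p => b j ^ x j t p) (g m) S F‖)) ⊆ univ.biUnion (fun m : Fin M =>
      (Fintype.piFinset A).filter (fun F => (δ * S.card) ^ 2 <
      ‖Ts (fun j t p => b j ^ x j t p) (g m) S F‖ ^ 2)) := by
      intro F hF
      rw [mem_filter] at hF
      obtain ⟨hF1, m, hm⟩ := hF
      rw [mem_biUnion]
      exact ⟨m, mem_univ m, mem_filter.2 ⟨hF1, pow_lt_pow_left₀ hm (by positivity) two_ne_zero⟩⟩
    have h4 := (card_le_card h3).trans card_biUnion_le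
    exact_mod_cast h4
  have h3 := mul_le_mul_of_nonneg_right h2 (by positivity : (0 : ℝ) ≤ (δ * S.card) ^ 2)
  rw [sum_mul] at h3
  have h4 := h3.trans (sum_le_sum fun m _ => h1 m)
  rw [sum_const, card_univ, Fintype.card_fin, nsmul_eq_mul] at h4
  have h5 : (M : ℝ) * (((S.card : ℝ) + 1) * ∏ j, ((A j).card : ℝ)) ≤
      δ * (∏ j, ((A j).card : ℝ)) * (δ * S.card) ^ 2 := by
    rw [div_le_iff₀ (by positivity)] at hS
    have h6 : (M : ℝ) * ((S.card : ℝ) + 1) ≤ δ ^ 3 * (S.card : ℝ) ^ 2 := by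
      have hM : (0 : ℝ) ≤ M := Nat.cast_nonneg M
      nlinarith
    calc (M : ℝ) * (((S.card : ℝ) + 1) * ∏ j, ((A j).card : ℝ)) =
        ((M : ℝ) * ((S.card : ℝ) + 1)) * ∏ j, ((A j).card : ℝ) := by ring
      _ ≤ (δ ^ 3 * (S.card : ℝ) ^ 2) * ∏ j, ((A j).card : ℝ) := mul_le_mul_of_nonneg_right h6 hP0
      _ = _ := by ring
  exact le_of_mul_le_mul_right (h4.trans h5) (by positivity)

/-! ### patterns -/

/-- the weighted number of the pattern `i` against its expectation -/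
noncomputable def dev (k : ℕ) {r : ℕ} (g : ℕ → ℂ) (S : Finset ℕ) (x : Fin r → ℕ → α → ℕ)
    (i : Fin r → ℕ) (F : Fin r → α) : ℂ :=
  ∑ t ∈ S.filter (fun t => ∀ j, x j t (F j) ≡ i j [MOD k]), g t - (∑ t ∈ S, g t) / (k : ℂ) ^ r

open Pool.Agent.W397.EX (orth modEq_iff_dvd) in
lemma dev_le {k : ℕ} (hk : 1 ≤ k) {ζ : ℂ} (hζ : IsPrimitiveRoot ζ k) {r : ℕ} (g : ℕ → ℂ)
    (S : Finset ℕ) (x : Fin r → ℕ → α → ℕ) (i : Fin r → ℕ) (F : Fin r → α) :
    ‖dev k g S x i F‖ ^ 2 ≤ (1 / (k : ℝ) ^ r) *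
      ∑ e ∈ (Fintype.piFinset (fun _ : Fin r => range k)).erase 0,
        ‖Ts (fun j t p => (ζ ^ e j) ^ x j t p) g S F‖ ^ 2 := by
  classical
  have hkR : (0 : ℝ) < k := by exact_mod_cast (by omega : 0 < k)
  have hk0 : (k : ℂ) ≠ 0 := by
    have : k ≠ 0 := by omega
    exact_mod_cast this
  have hn : ‖ζ‖ = 1 := hζ.norm'_eq_one (by omega)
  have h1 : (k : ℂ) ^ r * ∑ t ∈ S.filter (fun t => ∀ j, x j t (F j) ≡ i j [MOD k]), g t =
      ∑ e ∈ Fintype.piFinset (fun _ : Fin r => range k), (∏ j, (ζ ^ e j) ^ ((k - 1) * i j)) *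
        Ts (fun j t p => (ζ ^ e j) ^ x j t p) g S F := by
    have h2 : ∀ t : ℕ, (k : ℂ) ^ r * (if ∀ j, x j t (F j) ≡ i j [MOD k] then (1 : ℂ) else 0) =
        ∑ e ∈ Fintype.piFinset (fun _ : Fin r => range k), ∏ j,
          (ζ ^ e j) ^ (x j t (F j) + (k - 1) * i j) := by
      intro t
      rw [← prod_univ_sum (fun _ : Fin r => range k)
        (fun j l => (ζ ^ l) ^ (x j t (F j) + (k - 1) * i j))]
      simp only [orth hζ]
      by_cases h : ∀ j, x j t (F j) ≡ i j [MOD k]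
      · rw [if_pos h, mul_one]
        rw [prod_congr rfl fun j _ => if_pos ((modEq_iff_dvd hk _ _).1 (h j)), prod_const, card_univ,
          Fintype.card_fin]
      · rw [if_neg h, mul_zero]
        push Not at h
        obtain ⟨j, hj⟩ := h
        symm
        apply prod_eq_zero (mem_univ j)
        rw [if_neg fun h4 => hj ((modEq_iff_dvd hk _ _).2 h4)]
    rw [sum_filter, mul_sum]
    have h3 : ∀ t ∈ S, (k : ℂ) ^ r * (if ∀ j, x j t (F j) ≡ i j [MOD k] then g t else 0) =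
        ∑ e ∈ Fintype.piFinset (fun _ : Fin r => range k), g t * ∏ j,
          (ζ ^ e j) ^ (x j t (F j) + (k - 1) * i j) := by
      intro t _
      rw [← mul_sum, ← h2 t]
      split_ifs <;> ring
    rw [sum_congr rfl h3, sum_comm]
    refine sum_congr rfl fun e _ => ?_
    unfold Ts
    rw [mul_sum]
    refine sum_congr rfl fun t _ => ?_
    have : ∏ j, (ζ ^ e j) ^ (x j t (F j) + (k - 1) * i j) =
        (∏ j, (ζ ^ e j) ^ ((k - 1) * i j)) * ∏ j, (ζ ^ e j) ^ x j t (F j) := by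
      rw [← prod_mul_distrib]
      exact prod_congr rfl fun j _ => by rw [pow_add]; ring
    rw [this]
    ring
  have hz : (0 : Fin r → ℕ) ∈ Fintype.piFinset (fun _ : Fin r => range k) := by
    rw [Fintype.mem_piFinset]
    intro j
    rw [mem_range]
    exact hk
  have h0 : (∏ j, (ζ ^ (0 : Fin r → ℕ) j) ^ ((k - 1) * i j)) *
        Ts (fun j t p => (ζ ^ (0 : Fin r → ℕ) j) ^ x j t p) g S F = ∑ t ∈ S, g t := by
    unfold Ts
    simp
  rw [← add_sum_erase _ _ hz, h0] at h1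
  have e1 : (k : ℂ) ^ r * dev k g S x i F =
      ∑ e ∈ (Fintype.piFinset (fun _ : Fin r => range k)).erase 0,
        (∏ j, (ζ ^ e j) ^ ((k - 1) * i j)) * Ts (fun j t p => (ζ ^ e j) ^ x j t p) g S F := by
    unfold dev
    rw [mul_sub, h1]
    field_simp
    ring
  have h2 : (k : ℝ) ^ r * ‖dev k g S x i F‖ ≤
      ∑ e ∈ (Fintype.piFinset (fun _ : Fin r => range k)).erase 0,
        ‖Ts (fun j t p => (ζ ^ e j) ^ x j t p) g S F‖ := by
    have e2 : (k : ℝ) ^ r * ‖dev k g S x i F‖ = ‖(k : ℂ) ^ r * dev k g S x i F‖ := by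
      rw [norm_mul, norm_pow, Complex.norm_natCast]
    rw [e2, e1]
    refine (norm_sum_le _ _).trans (sum_le_sum fun e _ => ?_)
    rw [norm_mul, norm_prod]
    simp only [norm_pow, hn, one_pow, prod_const_one, one_mul]
    exact le_rfl
  have h3 := sq_sum_le_card_mul_sum_sq
    (s := (Fintype.piFinset (fun _ : Fin r => range k)).erase 0)
    (f := fun e => ‖Ts (fun j t p => (ζ ^ e j) ^ x j t p) g S F‖)
  have h4 : (((Fintype.piFinset (fun _ : Fin r => range k)).erase 0).card : ℝ) ≤ (k : ℝ) ^ r := by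
    have h4 : ((Fintype.piFinset (fun _ : Fin r => range k)).erase 0).card ≤ k ^ r := by
      refine (card_le_card (erase_subset _ _)).trans (le_of_eq ?_)
      rw [Fintype.card_piFinset]
      simp
    exact_mod_cast h4
  have hs0 : (0 : ℝ) ≤ ∑ e ∈ (Fintype.piFinset (fun _ : Fin r => range k)).erase 0,
        ‖Ts (fun j t p => (ζ ^ e j) ^ x j t p) g S F‖ ^ 2 := sum_nonneg fun e _ => by positivity
  have h5 : ((k : ℝ) ^ r * ‖dev k g S x i F‖) ^ 2 ≤ (k : ℝ) ^ r *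
      ∑ e ∈ (Fintype.piFinset (fun _ : Fin r => range k)).erase 0,
        ‖Ts (fun j t p => (ζ ^ e j) ^ x j t p) g S F‖ ^ 2 :=
    (pow_le_pow_left₀ (by positivity) h2 2).trans (h3.trans (mul_le_mul_of_nonneg_right h4 hs0))
  have hkr : (0 : ℝ) < (k : ℝ) ^ r := by positivity
  rw [one_div, ← div_eq_inv_mul, le_div_iff₀ hkr]
  rw [mul_pow] at h5
  have h6 : (k : ℝ) ^ r * (‖dev k g S x i F‖ ^ 2 * (k : ℝ) ^ r) ≤ (k : ℝ) ^ r *
      ∑ e ∈ (Fintype.piFinset (fun _ : Fin r => range k)).erase 0,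
        ‖Ts (fun j t p => (ζ ^ e j) ^ x j t p) g S F‖ ^ 2 := by
    calc (k : ℝ) ^ r * (‖dev k g S x i F‖ ^ 2 * (k : ℝ) ^ r) =
        ((k : ℝ) ^ r) ^ 2 * ‖dev k g S x i F‖ ^ 2 := by ring
      _ ≤ _ := h5
  exact le_of_mul_le_mul_left h6 hkr

open scoped Classical in
/-- **patterns**: for almost all tuples all the patterns are equidistributed, with weights -/
theorem patterns {k : ℕ} (hk : 1 ≤ k) {r M : ℕ} (g : Fin M → ℕ → ℂ) (hg : ∀ m t, ‖g m t‖ ≤ 1)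
    (S : Finset ℕ) (x : Fin r → ℕ → α → ℕ) (A : Fin r → Finset α)
    (h : ∀ j, Pcs k S (x j) (A j)) {δ : ℝ} (hδ : 0 < δ)
    (hS : 2 * M / δ ^ 3 ≤ (S.card : ℝ)) (hS0 : 0 < S.card) :
    (((Fintype.piFinset A).filter (fun F => ∃ m, ∃ i : Fin r → ℕ, δ * S.card <
      ‖dev k (g m) S x i F‖)).card : ℝ) ≤ δ * ∏ j, ((A j).card : ℝ) := by
  obtain ⟨ζ, hζ⟩ : ∃ ζ : ℂ, IsPrimitiveRoot ζ k :=
    ⟨_, Complex.isPrimitiveRoot_exp k (by omega)⟩
  have hζk : ∀ l, (ζ ^ l) ^ k = 1 := fun l => by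
    rw [← pow_mul, mul_comm, pow_mul, hζ.pow_eq_one, one_pow]
  have hkR : (0 : ℝ) < k := by exact_mod_cast (by omega : 0 < k)
  have hSR : (1 : ℝ) ≤ S.card := by exact_mod_cast hS0
  have hP0 : (0 : ℝ) ≤ ∏ j, ((A j).card : ℝ) := prod_nonneg fun j _ => by positivity
  obtain ⟨V, hV⟩ : ∃ V : Fin M → (Fin r → α) → ℝ, V = fun m F => (1 / (k : ℝ) ^ r) *
      ∑ e ∈ (Fintype.piFinset (fun _ : Fin r => range k)).erase 0,
        ‖Ts (fun j t p => (ζ ^ e j) ^ x j t p) (g m) S F‖ ^ 2 := ⟨_, rfl⟩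
  have hV0 : ∀ m F, 0 ≤ V m F := by
    intro m F
    rw [hV]
    exact mul_nonneg (by positivity) (sum_nonneg fun e _ => by positivity)
  have hVs : ∀ m, ∑ F ∈ Fintype.piFinset A, V m F ≤ ((S.card : ℝ) + 1) * ∏ j, ((A j).card : ℝ) := by
    intro m
    rw [hV]
    simp only []
    rw [← mul_sum, sum_comm]
    have h1 : ∀ e ∈ (Fintype.piFinset (fun _ : Fin r => range k)).erase 0,
        ∑ F ∈ Fintype.piFinset A, ‖Ts (fun j t p => (ζ ^ e j) ^ x j t p) (g m) S F‖ ^ 2 ≤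
        ((S.card : ℝ) + 1) * ∏ j, ((A j).card : ℝ) := by
      intro e he
      rw [mem_erase, Fintype.mem_piFinset] at he
      refine momb hk (fun j => ζ ^ e j) (fun j => hζk _) (fun h2 => he.1 (funext fun j => ?_)) (g m)
        (hg m) S x A h
      have h3 := congrFun h2 j
      exact Nat.eq_zero_of_dvd_of_lt ((hζ.pow_eq_one_iff_dvd _).1 h3) (mem_range.1 (he.2 j))
    have h2 := sum_le_sum h1
    rw [sum_const, nsmul_eq_mul] at h2
    have h4 : (((Fintype.piFinset (fun _ : Fin r => range k)).erase 0).card : ℝ) ≤ (k : ℝ) ^ r := by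
      have h4 : ((Fintype.piFinset (fun _ : Fin r => range k)).erase 0).card ≤ k ^ r := by
        refine (card_le_card (erase_subset _ _)).trans (le_of_eq ?_)
        rw [Fintype.card_piFinset]
        simp
      exact_mod_cast h4
    have h5 : (1 / (k : ℝ) ^ r) * ((((Fintype.piFinset (fun _ : Fin r => range k)).erase 0).card : ℝ) *
        (((S.card : ℝ) + 1) * ∏ j, ((A j).card : ℝ))) ≤ (1 / (k : ℝ) ^ r) * ((k : ℝ) ^ r *
        (((S.card : ℝ) + 1) * ∏ j, ((A j).card : ℝ))) := by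
      apply mul_le_mul_of_nonneg_left _ (by positivity)
      exact mul_le_mul_of_nonneg_right h4 (by positivity)
    refine (mul_le_mul_of_nonneg_left h2 (by positivity)).trans (h5.trans (le_of_eq ?_))
    field_simp
  have h1 : ∀ m, (((Fintype.piFinset A).filter (fun F => (δ * S.card) ^ 2 < V m F)).card : ℝ) *
      (δ * S.card) ^ 2 ≤ ((S.card : ℝ) + 1) * ∏ j, ((A j).card : ℝ) := fun m =>
    cheb _ _ (fun F _ => hV0 m F) (by positivity) (hVs m)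
  have h2 : (((Fintype.piFinset A).filter (fun F => ∃ m, ∃ i : Fin r → ℕ, δ * S.card <
      ‖dev k (g m) S x i F‖)).card : ℝ) ≤ ∑ m : Fin M,
      (((Fintype.piFinset A).filter (fun F => (δ * S.card) ^ 2 < V m F)).card : ℝ) := by
    have h3 : ((Fintype.piFinset A).filter (fun F => ∃ m, ∃ i : Fin r → ℕ, δ * S.card <
      ‖dev k (g m) S x i F‖)) ⊆ univ.biUnion (fun m : Fin M =>
      (Fintype.piFinset A).filter (fun F => (δ * S.card) ^ 2 < V m F)) := by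
      intro F hF
      rw [mem_filter] at hF
      obtain ⟨hF1, m, i, hm⟩ := hF
      rw [mem_biUnion]
      refine ⟨m, mem_univ m, mem_filter.2 ⟨hF1, ?_⟩⟩
      refine (pow_lt_pow_left₀ hm (by positivity) two_ne_zero).trans_le ?_
      rw [hV]
      exact dev_le hk hζ (g m) S x i F
    have h4 := (card_le_card h3).trans card_biUnion_le
    exact_mod_cast h4
  have h3 := mul_le_mul_of_nonneg_right h2 (by positivity : (0 : ℝ) ≤ (δ * S.card) ^ 2)
  rw [sum_mul] at h3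
  have h4 := h3.trans (sum_le_sum fun m _ => h1 m)
  rw [sum_const, card_univ, Fintype.card_fin, nsmul_eq_mul] at h4
  have h5 : (M : ℝ) * (((S.card : ℝ) + 1) * ∏ j, ((A j).card : ℝ)) ≤
      δ * (∏ j, ((A j).card : ℝ)) * (δ * S.card) ^ 2 := by
    rw [div_le_iff₀ (by positivity)] at hS
    have h6 : (M : ℝ) * ((S.card : ℝ) + 1) ≤ δ ^ 3 * (S.card : ℝ) ^ 2 := by
      have hM : (0 : ℝ) ≤ M := Nat.cast_nonneg M
      nlinarith
    calc (M : ℝ) * (((S.card : ℝ) + 1) * ∏ j, ((A j).card : ℝ)) =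
        ((M : ℝ) * ((S.card : ℝ) + 1)) * ∏ j, ((A j).card : ℝ) := by ring
      _ ≤ (δ ^ 3 * (S.card : ℝ) ^ 2) * ∏ j, ((A j).card : ℝ) := mul_le_mul_of_nonneg_right h6 hP0
      _ = _ := by ring
  exact le_of_mul_le_mul_right (h4.trans h5) (by positivity)

end Pool.Agent.T2H34.Prd
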