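import Pool.Agent.W573.GA.Ele
import Pool.Agent.W999.GA.TK
import Pool.Agent.W322.GA.Red
import Pool.Agent.W322.GA.LatI
import Pool.Agent.T2H34.Cls

/-!
Rough elements are rare.
-/

set_option autoImplicit false

namespace Pool.Agent.T2H34

open Finset
open Pool.Agent.W78.GA
open Pool.Agent.W78.EC (Gi)
open Pool.Agent.W991.EC (hD mul_inj card_ball)

/-- all prime factors of the norm are greater than `y` -/
def rgh (y : ℝ) (z : Gi) : Prop := ∀ p : ℕ, p.Prime → p ∣ nm z → y < p

theorem cell_disj (M : ℕ → Prop) (v₀ v₁ : ℕ) :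
    Set.PairwiseDisjoint ((Ico v₀ v₁ : Finset ℕ) : Set ℕ) (fun v => cellM M 1 v) := by
  intro v _ v' _ hne
  rw [Function.onFun, Finset.disjoint_left]
  intro m hm hm'
  simp only [cellM, mem_filter, mem_range] at hm hm'
  apply hne
  have h1 : (v : ℝ) / ((1 : ℕ) : ℝ) < ((v' : ℝ) + 1) / ((1 : ℕ) : ℝ) :=
    lt_of_le_of_lt hm.2.2.1 hm'.2.2.2
  have h2 : (v' : ℝ) / ((1 : ℕ) : ℝ) < ((v : ℝ) + 1) / ((1 : ℕ) : ℝ) :=
    lt_of_le_of_lt hm'.2.2.1 hm.2.2.2
  rw [Nat.cast_one, div_one, div_one] at h1 h2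
  have h3 : v < v' + 1 := by exact_mod_cast h1
  have h4 : v' < v + 1 := by exact_mod_cast h2
  omega

open scoped Classical in
theorem rough_win (ε : ℝ) (hε : 0 < ε) : ∃ R : ℝ, 1 ≤ R ∧ ∀ y Y : ℝ, R ≤ y → R ≤ Y →
    ∑ z ∈ (win 0 1 Y).filter (rgh y), 1 / (nm z : ℝ) ≤ ε := by
  obtain ⟨Ap, Bp, M, E, ρ, ϖ, hE⟩ := Pool.Agent.W573.GA.ele (t := 0) (c := 1) hD
  have hlat := Pool.Agent.W45.GA.lat hD
  obtain ⟨C, hC, hTK⟩ := Pool.Agent.W999.GA.tk_of hD hlat (Pool.Agent.W322.GA.lati_of hD hlat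
    (Pool.Agent.W322.GA.red hD)) Ap Bp M E ρ ϖ hE
  obtain ⟨c₀, hc₀, C₀, hrich⟩ := hE.rich
  obtain ⟨W₀, hW₀⟩ : ∃ W₀ : ℝ, W₀ = max 1 (C / ε) := ⟨_, rfl⟩
  obtain ⟨n, hn⟩ := exists_nat_gt (Real.exp ((W₀ + C₀) / c₀))
  obtain ⟨S, hS⟩ : ∃ S : Finset ℕ, S = (Ico 1 (n + 1)).biUnion (fun v => cellM M 1 v) := ⟨_, rfl⟩
  have hSM : ∀ m ∈ S, M m := by
    intro m hm
    rw [hS, mem_biUnion] at hm
    obtain ⟨v, -, hv⟩ := hm
    simp only [cellM, mem_filter] at hv
    exact hv.2.1
  obtain ⟨W, hW⟩ : ∃ W : ℝ, W = ∑ m ∈ S, 1 / (m : ℝ) := ⟨_, rfl⟩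
  have hWge : W₀ ≤ W := by
    have h1 := hrich 1 1 (n + 1) le_rfl le_rfl (by omega)
    have h2 : ∑ v ∈ Ico 1 (n + 1), mE M 1 v = W := by
      rw [hW, hS, sum_biUnion (cell_disj M 1 (n + 1))]
      rfl
    rw [h2] at h1
    have h3 : (W₀ + C₀) / c₀ ≤ Real.log (((n + 1 : ℕ) : ℝ) / ((1 : ℕ) : ℝ)) := by
      rw [Nat.cast_one, div_one, Real.le_log_iff_exp_le (by positivity)]
      push_cast
      linarith
    rw [div_le_iff₀ hc₀] at h3
    linarith
  have hW1 : 1 ≤ W := le_trans (by rw [hW₀]; exact le_max_left _ _) hWge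
  obtain ⟨R₀, hR₀⟩ : ∃ R₀ : ℝ, R₀ = 1 + ∑ m ∈ S, (m : ℝ) := ⟨_, rfl⟩
  have hsum0 : 0 ≤ ∑ m ∈ S, (m : ℝ) := sum_nonneg fun _ _ => Nat.cast_nonneg _
  have hR1 : 1 ≤ R₀ := by rw [hR₀]; linarith
  have hRm : ∀ m ∈ S, (m : ℝ) ≤ R₀ := by
    intro m hm
    have := single_le_sum (f := fun m : ℕ => (m : ℝ)) (fun _ _ => Nat.cast_nonneg _) hm
    rw [hR₀]
    linarith
  refine ⟨R₀ ^ 4, one_le_pow₀ hR1, fun y Y hy hY => ?_⟩
  have hRy : R₀ ≤ y := by
    refine le_trans ?_ hy
    exact le_self_pow₀ hR1 (by norm_num)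
  have h1 := hTK S R₀ Y (fun m hm => ⟨hSM m hm, hRm m hm⟩) (by rw [← hW]; exact hW1) hY
  rw [← hW] at h1
  have h2 : ∑ z ∈ (win 0 1 Y).filter (rgh y), W ^ 2 / (nm z : ℝ) ≤ C * W := by
    refine le_trans ?_ h1
    refine le_trans ?_ (Finset.sum_le_sum_of_subset_of_nonneg (Finset.filter_subset (rgh y) _)
      (fun z _ _ => by positivity))
    refine Finset.sum_le_sum fun z hz => ?_
    rw [mem_filter] at hz
    have h3 : S.filter (fun m => ϖ m ∣ z) = ∅ := by
      rw [Finset.filter_eq_empty_iff]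
      intro m hm hdvd
      have h4 := nm_dvd hdvd
      rw [(hE.elt m (hSM m hm)).1] at h4
      obtain ⟨p, q, hp, -, hmpq, -, -⟩ := hE.fac m (hSM m hm)
      have hpp := (hE.prA p hp).1
      have hqm : p ∣ m := ⟨q, hmpq⟩
      have h5 := hz.2 p hpp (hqm.trans h4)
      have hm0 : 0 < m := by
        rw [Nat.pos_iff_ne_zero]
        rintro rfl
        rw [zero_dvd_iff] at h4
        rw [mem_win hD] at hz
        omega
      have h6 : (p : ℝ) ≤ m := by exact_mod_cast Nat.le_of_dvd hm0 hqm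
      have := hRm m hm
      linarith
    rw [h3, card_empty, Nat.cast_zero, zero_sub, neg_sq]
  have h3 : W * (W * ∑ z ∈ (win 0 1 Y).filter (rgh y), 1 / (nm z : ℝ)) ≤ W * C := by
    have : W * (W * ∑ z ∈ (win 0 1 Y).filter (rgh y), 1 / (nm z : ℝ)) =
        ∑ z ∈ (win 0 1 Y).filter (rgh y), W ^ 2 / (nm z : ℝ) := by
      rw [mul_sum, mul_sum]
      refine sum_congr rfl fun z _ => ?_
      ring
    rw [this]
    linarith
  have hW0 : 0 < W := by linarith
  have h4 := le_of_mul_le_mul_left h3 hW0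
  have h5 : C / ε ≤ W := le_trans (by rw [hW₀]; exact le_max_right _ _) hWge
  rw [div_le_iff₀ hε] at h5
  have h6 : W * ∑ z ∈ (win 0 1 Y).filter (rgh y), 1 / (nm z : ℝ) ≤ W * ε := by linarith
  exact le_of_mul_le_mul_left h6 hW0

open scoped Classical in
theorem rough_cnt (ε : ℝ) (hε : 0 < ε) : ∃ R : ℝ, 1 ≤ R ∧ ∀ y x : ℝ, R ≤ y → R ≤ x →
    (((ball 0 1 x).filter (rgh y)).card : ℝ) ≤ ε * x := by
  obtain ⟨n, hn⟩ : ∃ n : ℕ, 9 * Real.exp (-(4 * (n : ℝ))) ≤ ε / 2 := by
    obtain ⟨n, hn⟩ := exists_nat_gt (18 / ε)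
    refine ⟨n, ?_⟩
    have h1 : (n : ℝ) < Real.exp (4 * n) := by
      have := Real.add_one_le_exp (4 * (n : ℝ))
      have h0 : (0 : ℝ) ≤ n := Nat.cast_nonneg n
      linarith
    rw [Real.exp_neg]
    have h2 : 18 / ε < Real.exp (4 * n) := hn.trans h1
    rw [div_lt_iff₀ hε] at h2
    rw [← div_eq_mul_inv, div_le_iff₀ (Real.exp_pos _)]
    linarith
  obtain ⟨R, hR1, hR⟩ := rough_win (ε / (2 * (n + 1))) (by positivity)
  have key : ∀ k : ℕ, ∀ y x : ℝ, R ≤ y → R * Real.exp (4 * (k + 1)) ≤ x →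
      (((ball 0 1 x).filter (rgh y)).card : ℝ) ≤ k * (ε / (2 * (n + 1))) * x +
        9 * Real.exp (-(4 * (k : ℝ))) * x := by
    intro k
    induction k with
    | zero =>
      intro y x hy hx
      have hx0 : 0 ≤ x := le_trans (by positivity) hx
      have h1 : (((ball 0 1 x).filter (rgh y)).card : ℝ) ≤ ((ball 0 1 x).card : ℝ) := by
        exact_mod_cast Finset.card_filter_le _ _
      have h2 := card_ball hx0
      simp only [Nat.cast_zero, zero_mul, mul_zero, neg_zero, Real.exp_zero, mul_one, zero_add]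
      linarith
    | succ k ih =>
      intro y x hy hx
      have hx0 : 0 ≤ x := le_trans (by positivity) hx
      have he4 : Real.exp 4 * Real.exp (-4) = 1 := by
        rw [← Real.exp_add]; norm_num
      have h1 : R * Real.exp (4 * (k + 1)) ≤ x * Real.exp (-4) := by
        have e : Real.exp (4 * (((k + 1 : ℕ) : ℝ) + 1)) = Real.exp (4 * (k + 1)) * Real.exp 4 := by
          rw [← Real.exp_add]
          congr 1
          push_cast
          ring
        rw [e] at hx
        have h2 := mul_le_mul_of_nonneg_right hx (Real.exp_pos (-4)).le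
        calc R * Real.exp (4 * (k + 1)) = R * (Real.exp (4 * (k + 1)) * Real.exp 4) *
              Real.exp (-4) := by rw [mul_assoc, mul_assoc, he4, mul_one]
          _ ≤ _ := h2
      have h2 := ih y (x * Real.exp (-4)) hy h1
      have hY : R ≤ x * Real.exp (-2) := by
        have e1 : x * Real.exp (-4) ≤ x * Real.exp (-2) :=
          mul_le_mul_of_nonneg_left (Real.exp_le_exp.2 (by norm_num)) hx0
        have e2 : R ≤ R * Real.exp (4 * (k + 1)) := le_mul_of_one_le_right (by linarith)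
          (Real.one_le_exp (by positivity))
        linarith
      have h3 := hR y (x * Real.exp (-2)) hy hY
      -- the window
      have hsub : (ball 0 1 x).filter (rgh y) ⊆ ((win 0 1 (x * Real.exp (-2))).filter (rgh y)) ∪
          ((ball 0 1 (x * Real.exp (-4))).filter (rgh y)) := by
        intro z hz
        rw [mem_filter, mem_ball hD] at hz
        rw [mem_union, mem_filter, mem_filter, mem_win hD, mem_ball hD]
        by_cases h4 : (nm z : ℝ) ≤ x * Real.exp (-4)
        · right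
          exact ⟨⟨hz.1.1, h4⟩, hz.2⟩
        · left
          push Not at h4
          refine ⟨⟨hz.1.1, ?_, ?_⟩, hz.2⟩
          · rw [div_le_iff₀ (Real.exp_pos 2)]
            have e : x * Real.exp (-2) = x * Real.exp (-4) * Real.exp 2 := by
              rw [mul_assoc, ← Real.exp_add]; norm_num
            rw [e]
            exact mul_le_mul_of_nonneg_right h4.le (Real.exp_pos 2).le
          · have e : Real.exp 2 * (x * Real.exp (-2)) = x := by
              rw [mul_left_comm, ← Real.exp_add]; norm_num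
            rw [e]
            exact hz.1.2
      have h4 : (((ball 0 1 x).filter (rgh y)).card : ℝ) ≤
          (((win 0 1 (x * Real.exp (-2))).filter (rgh y)).card : ℝ) +
          (((ball 0 1 (x * Real.exp (-4))).filter (rgh y)).card : ℝ) := by
        exact_mod_cast (Finset.card_le_card hsub).trans (Finset.card_union_le _ _)
      have h5 : (((win 0 1 (x * Real.exp (-2))).filter (rgh y)).card : ℝ) ≤
          x * (ε / (2 * (n + 1))) := by
        refine le_trans ?_ (mul_le_mul_of_nonneg_left h3 hx0)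
        rw [mul_sum, Finset.card_eq_sum_ones, Nat.cast_sum]
        refine sum_le_sum fun z hz => ?_
        rw [mem_filter, mem_win hD] at hz
        have hz0 : (0 : ℝ) < nm z := by exact_mod_cast hz.1.1
        rw [Nat.cast_one, mul_one_div, one_le_div hz0]
        have h6 := hz.1.2.2
        have e : Real.exp 2 * (x * Real.exp (-2)) = x := by
          rw [mul_left_comm, ← Real.exp_add]; norm_num
        rw [e] at h6
        exact h6
      have h6 : (k : ℝ) * (ε / (2 * (n + 1))) * (x * Real.exp (-4)) ≤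
          k * (ε / (2 * (n + 1))) * x := by
        refine mul_le_mul_of_nonneg_left ?_ (by positivity)
        exact mul_le_of_le_one_right hx0 (Real.exp_le_one_iff.2 (by norm_num))
      have h7 : 9 * Real.exp (-(4 * (k : ℝ))) * (x * Real.exp (-4)) =
          9 * Real.exp (-(4 * ((k + 1 : ℕ) : ℝ))) * x := by
        have : Real.exp (-(4 * ((k + 1 : ℕ) : ℝ))) = Real.exp (-(4 * (k : ℝ))) * Real.exp (-4) := by
          rw [← Real.exp_add]
          congr 1
          push_cast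
          ring
        rw [this]
        ring
      push_cast at h7 ⊢
      linarith
  refine ⟨R * Real.exp (4 * (n + 1)), ?_, fun y x hy hx => ?_⟩
  · have : 1 ≤ Real.exp (4 * ((n : ℝ) + 1)) := Real.one_le_exp (by positivity)
    nlinarith
  · have hRy : R ≤ y := by
      have : 1 ≤ Real.exp (4 * ((n : ℝ) + 1)) := Real.one_le_exp (by positivity)
      nlinarith
    have hx0 : 0 ≤ x := le_trans (by positivity) hx
    have h1 := key n y x hRy hx
    have h2 : (n : ℝ) * (ε / (2 * (n + 1))) ≤ ε / 2 := by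
      rw [mul_div_assoc', div_le_div_iff₀ (by positivity) (by norm_num)]
      nlinarith
    have h3 := mul_le_mul_of_nonneg_right h2 hx0
    have h4 := mul_le_mul_of_nonneg_right hn hx0
    linarith

theorem sum_isqrt (n : ℕ) : ∀ x : ℝ, 0 ≤ x → x < 4 ^ n →
    ∑ z ∈ ball 0 1 x, 1 / Real.sqrt (nm z) ≤ 36 * Real.sqrt x := by
  classical
  induction n with
  | zero =>
    intro x hx hx1
    rw [pow_zero] at hx1
    rw [ball_empty hx1, sum_empty]
    positivity
  | succ n ih =>
    intro x hx hx1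
    have h1 := ih (x / 4) (by positivity) (by rw [pow_succ] at hx1; linarith)
    have hs : Real.sqrt (x / 4) = Real.sqrt x / 2 := by
      rw [Real.sqrt_div hx]
      congr 1
      rw [show (4 : ℝ) = 2 ^ 2 by norm_num]
      exact Real.sqrt_sq (by norm_num)
    rw [hs] at h1
    have hsub : ball 0 1 (x / 4) ⊆ ball 0 1 x := ball_mono (by linarith)
    rw [← Finset.sum_sdiff hsub]
    rcases eq_or_lt_of_le hx with h0 | h0
    · rw [← h0, ball_empty (by norm_num : (0 : ℝ) < 1)]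
      simp only [empty_sdiff, sum_empty, zero_div]
      rw [ball_empty (by norm_num : (0 : ℝ) < 1)]
      simp
    have hs0 : 0 < Real.sqrt x := Real.sqrt_pos.2 h0
    have h2 : ∑ z ∈ ball 0 1 x \ ball 0 1 (x / 4), 1 / Real.sqrt (nm z) ≤ 18 * Real.sqrt x := by
      have h3 : ∀ z ∈ ball 0 1 x \ ball 0 1 (x / 4), 1 / Real.sqrt (nm z) ≤ 2 / Real.sqrt x := by
        intro z hz
        rw [mem_sdiff, mem_ball hD, mem_ball hD] at hz
        have h4 : x / 4 < nm z := by
          by_contra h5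
          exact hz.2 ⟨hz.1.1, not_lt.1 h5⟩
        have h5 : Real.sqrt x / 2 ≤ Real.sqrt (nm z) := by
          rw [← hs]
          exact Real.sqrt_le_sqrt h4.le
        calc 1 / Real.sqrt (nm z) ≤ 1 / (Real.sqrt x / 2) :=
              one_div_le_one_div_of_le (by positivity) h5
          _ = 2 / Real.sqrt x := by field_simp
      refine (Finset.sum_le_card_nsmul _ _ _ h3).trans ?_
      rw [nsmul_eq_mul]
      have h4 : ((ball 0 1 x \ ball 0 1 (x / 4)).card : ℝ) ≤ 9 * x := by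
        refine le_trans ?_ (card_ball hx)
        exact_mod_cast Finset.card_le_card (Finset.sdiff_subset)
      calc ((ball 0 1 x \ ball 0 1 (x / 4)).card : ℝ) * (2 / Real.sqrt x)
          ≤ 9 * x * (2 / Real.sqrt x) := mul_le_mul_of_nonneg_right h4 (by positivity)
        _ = 18 * (x / Real.sqrt x) := by ring
        _ = 18 * Real.sqrt x := by rw [Real.div_sqrt]
    linarith

theorem sum_isqrt' (x : ℝ) (hx : 0 ≤ x) :
    ∑ z ∈ ball 0 1 x, 1 / Real.sqrt (nm z) ≤ 36 * Real.sqrt x := by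
  obtain ⟨n, hn⟩ := pow_unbounded_of_one_lt x (by norm_num : (1 : ℝ) < 4)
  exact sum_isqrt n x hx hn

open scoped Classical in
theorem rough_sum (ε : ℝ) (hε : 0 < ε) : ∃ R : ℝ, 1 ≤ R ∧ ∀ y x : ℝ, R ≤ y → R ≤ x →
    ∑ z ∈ (ball 0 1 x).filter (rgh y), Real.sqrt (x / nm z) ≤ ε * x := by
  obtain ⟨T, hT⟩ : ∃ T : ℝ, T = 72 / ε + 1 := ⟨_, rfl⟩
  have hT1 : 1 ≤ T := by
    have : 0 < 72 / ε := by positivity
    linarith
  obtain ⟨R, hR1, hR⟩ := rough_cnt (ε / (2 * T)) (by positivity)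
  refine ⟨R, hR1, fun y x hy hx => ?_⟩
  have hx0 : 0 < x := by linarith
  have hT0 : 0 < T := by linarith
  have hpt : ∀ z ∈ (ball 0 1 x).filter (rgh y), Real.sqrt (x / nm z) ≤
      T + (if (nm z : ℝ) ≤ x / T ^ 2 then Real.sqrt x * (1 / Real.sqrt (nm z)) else 0) := by
    intro z hz
    rw [mem_filter, mem_ball hD] at hz
    have hz0 : (0 : ℝ) < nm z := by exact_mod_cast hz.1.1
    split_ifs with h
    · rw [Real.sqrt_div hx0.le]
      have : 0 ≤ T := by linarith
      rw [mul_one_div]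
      linarith
    · push Not at h
      rw [add_zero]
      apply Real.sqrt_le_iff.2
      refine ⟨by linarith, ?_⟩
      rw [div_le_iff₀ hz0]
      rw [div_lt_iff₀ (by positivity)] at h
      linarith
  refine (sum_le_sum hpt).trans ?_
  rw [sum_add_distrib, sum_const, nsmul_eq_mul, ← sum_filter]
  have h1 := hR y x hy hx
  have h2 : (((ball 0 1 x).filter (rgh y)).card : ℝ) * T ≤ ε / 2 * x := by
    calc (((ball 0 1 x).filter (rgh y)).card : ℝ) * T ≤ ε / (2 * T) * x * T :=
          mul_le_mul_of_nonneg_right h1 hT0.le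
      _ = ε / 2 * x := by field_simp
  have h3 : ∑ z ∈ ((ball 0 1 x).filter (rgh y)).filter (fun z => (nm z : ℝ) ≤ x / T ^ 2),
      Real.sqrt x * (1 / Real.sqrt (nm z)) ≤ ε / 2 * x := by
    have h4 : ((ball 0 1 x).filter (rgh y)).filter (fun z => (nm z : ℝ) ≤ x / T ^ 2) ⊆
        ball 0 1 (x / T ^ 2) := by
      intro z hz
      rw [mem_filter, mem_filter, mem_ball hD] at hz
      rw [mem_ball hD]
      exact ⟨hz.1.1.1, hz.2⟩
    refine (Finset.sum_le_sum_of_subset_of_nonneg h4 (fun _ _ _ => by positivity)).trans ?_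
    rw [← mul_sum]
    have h5 := sum_isqrt' (x / T ^ 2) (by positivity)
    have h6 : Real.sqrt (x / T ^ 2) = Real.sqrt x / T := by
      rw [Real.sqrt_div hx0.le, Real.sqrt_sq hT0.le]
    rw [h6] at h5
    calc Real.sqrt x * ∑ z ∈ ball 0 1 (x / T ^ 2), 1 / Real.sqrt (nm z)
        ≤ Real.sqrt x * (36 * (Real.sqrt x / T)) :=
          mul_le_mul_of_nonneg_left h5 (Real.sqrt_nonneg _)
      _ = 36 / T * (Real.sqrt x * Real.sqrt x) := by ring
      _ = 36 / T * x := by rw [Real.mul_self_sqrt hx0.le]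
      _ ≤ ε / 2 * x := by
          refine mul_le_mul_of_nonneg_right ?_ hx0.le
          rw [div_le_iff₀ hT0, hT]
          have : ε / 2 * (72 / ε + 1) = 36 + ε / 2 := by field_simp; norm_num
          rw [this]
          linarith
  linarith

/-- short intervals contain few primes -/
theorem prime_short (c ε : ℝ) (hc : 1 ≤ c) (hε : 0 < ε) : ∃ u₀ : ℝ, 1 ≤ u₀ ∧ ∀ u : ℝ, u₀ ≤ u →
    ∀ P : Finset ℕ, (∀ p ∈ P, G4 p ∧ u < (p : ℝ) ∧ (p : ℝ) ≤ c * u) →
      ∑ p ∈ P, 1 / (p : ℝ) ≤ ε := by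
  classical
  obtain ⟨R, hR1, hR⟩ := rough_cnt (ε / c) (by positivity)
  refine ⟨R, hR1, fun u hu P hP => ?_⟩
  have hu0 : 0 < u := by linarith
  have h1 := hR u (c * u) hu (by nlinarith)
  have h2 : P.card ≤ ((ball 0 1 (c * u)).filter (rgh u)).card := by
    refine Finset.card_le_card_of_injOn gq ?_ ?_
    · intro p hp
      obtain ⟨g1, g2, g3⟩ := hP p hp
      rw [mem_coe, mem_filter, mem_ball hD, nm_gq g1]
      refine ⟨⟨g1.1.one_lt.le, g3⟩, ?_⟩
      intro q hq hqp
      rw [nm_gq g1] at hqp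
      rw [(Nat.prime_dvd_prime_iff_eq hq g1.1).1 hqp]
      exact g2
    · intro p hp q hq hpq
      have h3 := congrArg nm hpq
      rw [nm_gq (hP p hp).1, nm_gq (hP q hq).1] at h3
      exact h3
  have h3 : (P.card : ℝ) ≤ ε / c * (c * u) := le_trans (by exact_mod_cast h2) h1
  have h4 : ∀ p ∈ P, 1 / (p : ℝ) ≤ 1 / u := fun p hp =>
    one_div_le_one_div_of_le hu0 (hP p hp).2.1.le
  refine (Finset.sum_le_card_nsmul _ _ _ h4).trans ?_
  rw [nsmul_eq_mul, mul_one_div, div_le_iff₀ hu0]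
  refine h3.trans (le_of_eq ?_)
  field_simp

open scoped Classical in
/-- the elements whose norm is divisible by a given prime -/
theorem cnt_p {p : ℕ} (hp : G4 p) {x : ℝ} (hx : 0 ≤ x) :
    (((ball 0 1 x).filter (fun z => p ∣ nm z)).card : ℝ) ≤ 18 * (x * (1 / (p : ℝ))) := by
  have hp0 : (0 : ℝ) < p := by exact_mod_cast hp.1.pos
  have hsub : (ball 0 1 x).filter (fun z => p ∣ nm z) ⊆
      ((ball 0 1 x).filter (fun z => True ∧ gp (p, true) ∣ z)) ∪
      ((ball 0 1 x).filter (fun z => True ∧ gp (p, false) ∣ z)) := by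
    intro z hz
    rw [mem_filter] at hz
    rw [mem_union, mem_filter, mem_filter]
    rcases gp_dvd hp hz.2 with h | h
    · left; exact ⟨hz.1, trivial, h⟩
    · right; exact ⟨hz.1, trivial, h⟩
  have h1 : ∀ b : Bool, (((ball 0 1 x).filter (fun z => True ∧ gp (p, b) ∣ z)).card : ℝ) ≤
      9 * (x * (1 / (p : ℝ))) := by
    intro b
    have e := card_mult (gp_ne (i := (p, b)) hp) x (fun _ => True)
    rw [nm_gp (i := (p, b)) hp] at e
    have e2 : ((ball 0 1 x).filter (fun z => True ∧ gp (p, b) ∣ z)).card ≤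
        (ball 0 1 (x / p)).card := by
      refine le_trans (le_of_eq ?_) (Finset.card_filter_le (ball 0 1 (x / p)) (fun _ => True))
      convert e
    have h2 := card_ball (X := x / p) (by positivity)
    rw [mul_one_div]
    exact le_trans (by exact_mod_cast e2) h2
  have h2 : (((ball 0 1 x).filter (fun z => p ∣ nm z)).card : ℝ) ≤
      (((ball 0 1 x).filter (fun z => True ∧ gp (p, true) ∣ z)).card : ℝ) +
      (((ball 0 1 x).filter (fun z => True ∧ gp (p, false) ∣ z)).card : ℝ) := by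
    exact_mod_cast (Finset.card_le_card hsub).trans (Finset.card_union_le _ _)
  linarith [h1 true, h1 false]

open scoped Classical in
/-- the elements whose norm is divisible by a prime of a set -/
theorem cnt_P (P : Finset ℕ) (hP : ∀ p ∈ P, G4 p) {x : ℝ} (hx : 0 ≤ x) :
    (((ball 0 1 x).filter (fun z => ∃ p ∈ P, p ∣ nm z)).card : ℝ) ≤
      18 * (x * ∑ p ∈ P, 1 / (p : ℝ)) := by
  have hsub : (ball 0 1 x).filter (fun z => ∃ p ∈ P, p ∣ nm z) ⊆
      P.biUnion (fun p => (ball 0 1 x).filter (fun z => p ∣ nm z)) := by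
    intro z hz
    rw [mem_filter] at hz
    obtain ⟨h1, p, hp, h2⟩ := hz
    rw [mem_biUnion]
    exact ⟨p, hp, mem_filter.2 ⟨h1, h2⟩⟩
  have h1 : (((ball 0 1 x).filter (fun z => ∃ p ∈ P, p ∣ nm z)).card : ℝ) ≤
      ∑ p ∈ P, (((ball 0 1 x).filter (fun z => p ∣ nm z)).card : ℝ) := by
    exact_mod_cast (Finset.card_le_card hsub).trans Finset.card_biUnion_le
  refine h1.trans ?_
  rw [mul_sum, mul_sum]
  exact sum_le_sum fun p hp => cnt_p (hP p hp) hx

end Pool.Agent.T2H34
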