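import Pool.Agent.T2H34.Rgh

/-!
The elements without large prime factors in residue classes.
-/

set_option autoImplicit false

namespace Pool.Agent.T2H34

open Finset
open Pool.Agent.W78.GA
open Pool.Agent.W78.EC (Gi)
open Pool.Agent.W991.EC (hD mul_inj card_ball)

open scoped Classical in
/-- the primes in question -/
noncomputable def PS (y x : ℝ) : Finset ℕ := (Icc 1 ⌊x⌋₊).filter (fun p => G4 p ∧ y < (p : ℝ))

/-- the prime elements in question -/
noncomputable def II (y x : ℝ) : Finset (ℕ × Bool) := PS y x ×ˢ univ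

/-- the norm has a prime factor greater than `y` -/
def lg (y : ℝ) (z : Gi) : Prop := ∃ p : ℕ, G4 p ∧ y < (p : ℝ) ∧ p ∣ nm z

open scoped Classical in
/-- the number of elements in a residue class without large prime factors -/
noncomputable def TL (M : ℕ) (y x : ℝ) (r : Gi) : ℕ := ((cb M x r).filter (fun z => ¬ lg y z)).card

open scoped Classical in
/-- the main term -/
noncomputable def DD (y x : ℝ) : ℝ :=
  ∑ S ∈ (II y x).powerset.filter (fun S => (gN S : ℝ) ≤ x), (-1 : ℝ) ^ S.card / gN S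

theorem mem_II {y x : ℝ} {i : ℕ × Bool} : i ∈ II y x ↔ G4 i.1 ∧ y < (i.1 : ℝ) ∧ i.1 ≤ ⌊x⌋₊ := by
  classical
  unfold II PS
  rw [mem_product, mem_filter, mem_Icc]
  constructor
  · rintro ⟨⟨⟨-, h1⟩, h2, h3⟩, -⟩
    exact ⟨h2, h3, h1⟩
  · rintro ⟨h1, h2, h3⟩
    exact ⟨⟨⟨h1.1.one_lt.le, h3⟩, h1, h2⟩, mem_univ _⟩

theorem II_G4 {y x : ℝ} {S : Finset (ℕ × Bool)} (hS : S ⊆ II y x) : ∀ i ∈ S, G4 i.1 :=
  fun _ hi => (mem_II.1 (hS hi)).1

open scoped Classical in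
theorem sieve_pt {y x : ℝ} {z : Gi} (hz : z ∈ ball 0 1 x) :
    (if ¬ lg y z then (1 : ℝ) else 0) =
      ∑ S ∈ (II y x).powerset, if gP S ∣ z then (-1 : ℝ) ^ S.card else 0 := by
  rw [mem_ball hD] at hz
  have hx0 : 0 ≤ x := (Nat.cast_nonneg _).trans hz.2
  have hn : nm z ≠ 0 := by omega
  have h1 : (II y x).powerset.filter (fun S => gP S ∣ z) =
      ((II y x).filter (fun i => gp i ∣ z)).powerset := by
    ext S
    rw [mem_filter, mem_powerset, mem_powerset]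
    constructor
    · rintro ⟨h2, h3⟩ i hi
      exact mem_filter.2 ⟨h2 hi, (gP_dvd (II_G4 h2)).1 h3 i hi⟩
    · intro h2
      have h3 : S ⊆ II y x := fun i hi => (mem_filter.1 (h2 hi)).1
      exact ⟨h3, (gP_dvd (II_G4 h3)).2 fun i hi => (mem_filter.1 (h2 hi)).2⟩
  rw [← sum_filter, h1]
  have h2 := Finset.sum_powerset_neg_one_pow_card (x := (II y x).filter (fun i => gp i ∣ z))
  have h3 : ∑ S ∈ ((II y x).filter (fun i => gp i ∣ z)).powerset, (-1 : ℝ) ^ S.card =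
      if (II y x).filter (fun i => gp i ∣ z) = ∅ then 1 else 0 := by
    exact_mod_cast congrArg (fun n : ℤ => (n : ℝ)) h2
  rw [h3]
  refine if_congr ?_ rfl rfl
  rw [Finset.filter_eq_empty_iff]
  constructor
  · intro h4 i hi h5
    apply h4
    rw [mem_II] at hi
    refine ⟨i.1, hi.1, hi.2.1, ?_⟩
    have := nm_dvd h5
    rwa [nm_gp hi.1] at this
  · rintro h4 ⟨p, hp, hy, hd⟩
    obtain ⟨b, hb⟩ := (dvd_iff hp).1 hd
    refine h4 (x := (p, b)) ?_ hb
    rw [mem_II]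
    refine ⟨hp, hy, ?_⟩
    refine Nat.le_floor ?_
    have : (p : ℝ) ≤ nm z := by exact_mod_cast Nat.le_of_dvd (Nat.pos_of_ne_zero hn) hd
    exact this.trans hz.2

theorem inv_mod {M : ℕ} {w : Gi} (h : Nat.Coprime (nm w) M) : ∃ v : Gi, (M : Gi) ∣ v * w - 1 := by
  have h1 : IsCoprime ((nm w : ℕ) : ℤ) (M : ℤ) := Nat.isCoprime_iff_coprime.2 h
  obtain ⟨u, v, huv⟩ := h1
  refine ⟨(u : Gi) * star w, -(v : Gi), ?_⟩
  rw [mul_assoc, star_mul_self' hD]
  have h2 : ((u * (nm w : ℕ) + v * M : ℤ) : Gi) = 1 := by rw [huv]; exact Int.cast_one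
  push_cast at h2
  linear_combination h2

theorem dvd_inv {M : ℕ} {v w : Gi} (h : (M : Gi) ∣ v * w - 1) (u r : Gi) :
    (M : Gi) ∣ w * u - r ↔ (M : Gi) ∣ u - v * r := by
  constructor
  · intro h1
    have e : u - v * r = v * (w * u - r) - (v * w - 1) * u := by ring
    rw [e]
    exact dvd_sub (h1.mul_left _) (h.mul_right _)
  · intro h1
    have e : w * u - r = w * (u - v * r) + (v * w - 1) * r := by ring
    rw [e]
    exact dvd_add (h1.mul_left _) (h.mul_right _)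

open scoped Classical in
theorem card_cb_mult {M : ℕ} {w : Gi} (hw : w ≠ 0) (h : Nat.Coprime (nm w) M) (x : ℝ) (r : Gi) :
    ∃ r' : Gi, ((cb M x r).filter (fun z => w ∣ z)).card = (cb M (x / nm w) r').card := by
  obtain ⟨v, hv⟩ := inv_mod h
  refine ⟨v * r, ?_⟩
  unfold cb
  rw [filter_filter]
  have e := card_mult hw x (fun z => (M : Gi) ∣ z - r)
  rw [e]
  congr 1
  refine filter_congr fun u _ => ?_
  exact dvd_inv hv u r

theorem gN_dvd {S : Finset (ℕ × Bool)} {i : ℕ × Bool} (hi : i ∈ S) : i.1 ∣ gN S :=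
  Finset.dvd_prod_of_mem _ hi

theorem gN_prime {S : Finset (ℕ × Bool)} (hS : ∀ i ∈ S, G4 i.1) {p : ℕ} (hp : p.Prime)
    (h : p ∣ gN S) : ∃ i ∈ S, p = i.1 := by
  unfold gN at h
  obtain ⟨i, hi, h1⟩ := (Prime.dvd_finsetProd_iff hp.prime _).1 h
  exact ⟨i, hi, (Nat.prime_dvd_prime_iff_eq hp (hS i hi).1).1 h1⟩

open scoped Classical in
/-- sums over products are bounded by sums over rough elements -/
theorem sum_gP {y x : ℝ} (U : Finset (Finset (ℕ × Bool)))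
    (hU : ∀ S ∈ U, S ⊆ II y x ∧ (gN S : ℝ) ≤ x) (f : ℝ → ℝ) (hf : ∀ t, 0 ≤ f t) :
    ∑ S ∈ U, f (gN S) ≤ ∑ z ∈ (ball 0 1 x).filter (rgh y), f (nm z) := by
  have h1 : ∑ S ∈ U, f (gN S) = ∑ z ∈ U.image gP, f (nm z) := by
    rw [sum_image]
    · refine sum_congr rfl fun S hS => ?_
      rw [nm_gP (II_G4 (hU S hS).1)]
    · intro S hS T hT h
      exact gP_inj (II_G4 (hU S hS).1) (II_G4 (hU T hT).1) h
  rw [h1]
  refine Finset.sum_le_sum_of_subset_of_nonneg ?_ fun _ _ _ => hf _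
  intro z hz
  rw [mem_image] at hz
  obtain ⟨S, hS, rfl⟩ := hz
  have hG := II_G4 (hU S hS).1
  rw [mem_filter, mem_ball hD, nm_gP hG]
  refine ⟨⟨gN_pos hG, (hU S hS).2⟩, ?_⟩
  intro p hp hpd
  rw [nm_gP hG] at hpd
  obtain ⟨i, hi, rfl⟩ := gN_prime hG hp hpd
  exact (mem_II.1 ((hU S hS).1 hi)).2.1

open scoped Classical in
theorem sieve {M : ℕ} (hM : 1 ≤ M) : ∃ C : ℝ, 0 < C ∧ ∀ y x : ℝ, (M : ℝ) ≤ y → 1 ≤ x → ∀ r : Gi,
    |(TL M y x r : ℝ) - kp * x / (M : ℝ) ^ 2 * DD y x| ≤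
      C * ∑ z ∈ (ball 0 1 x).filter (rgh y), Real.sqrt (x / nm z) := by
  obtain ⟨C, hC, hcls⟩ := cls hM
  refine ⟨C, hC, fun y x hy hx r => ?_⟩
  have hx0 : 0 < x := by linarith
  have h1 : (TL M y x r : ℝ) = ∑ S ∈ (II y x).powerset,
      (-1 : ℝ) ^ S.card * (((cb M x r).filter (fun z => gP S ∣ z)).card : ℝ) := by
    unfold TL
    rw [Finset.card_filter, Nat.cast_sum]
    have e : ∀ z ∈ cb M x r, (((if ¬ lg y z then 1 else 0 : ℕ)) : ℝ) =
        ∑ S ∈ (II y x).powerset, if gP S ∣ z then (-1 : ℝ) ^ S.card else 0 := by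
      intro z hz
      unfold cb at hz
      rw [← sieve_pt (mem_filter.1 hz).1]
      push_cast
      rfl
    rw [sum_congr rfl e, sum_comm]
    refine sum_congr rfl fun S _ => ?_
    rw [← sum_filter, sum_const, nsmul_eq_mul, mul_comm]
  have hcard : ∀ S ∈ (II y x).powerset, ¬ ((gN S : ℝ) ≤ x) →
      (-1 : ℝ) ^ S.card * (((cb M x r).filter (fun z => gP S ∣ z)).card : ℝ) = 0 := by
    intro S hS hN
    rw [mem_powerset] at hS
    have : (cb M x r).filter (fun z => gP S ∣ z) = ∅ := by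
      rw [Finset.filter_eq_empty_iff]
      intro z hz hd
      unfold cb at hz
      rw [mem_filter, mem_ball hD] at hz
      have h2 := nm_dvd hd
      rw [nm_gP (II_G4 hS)] at h2
      have h3 : (gN S : ℝ) ≤ nm z := by exact_mod_cast Nat.le_of_dvd (by omega) h2
      exact hN (h3.trans hz.1.2)
    rw [this, card_empty, Nat.cast_zero, mul_zero]
  rw [h1, ← sum_filter_of_ne (p := fun S => (gN S : ℝ) ≤ x) (fun S hS hne => by
    by_contra hc
    exact hne (hcard S hS hc))]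
  unfold DD
  rw [mul_sum, ← sum_sub_distrib]
  have hterm : ∀ S ∈ (II y x).powerset.filter (fun S => (gN S : ℝ) ≤ x),
      |(-1 : ℝ) ^ S.card * (((cb M x r).filter (fun z => gP S ∣ z)).card : ℝ) -
        kp * x / (M : ℝ) ^ 2 * ((-1 : ℝ) ^ S.card / gN S)| ≤ C * Real.sqrt (x / gN S) := by
    intro S hS
    rw [mem_filter, mem_powerset] at hS
    have hG := II_G4 hS.1
    have hN0 : (0 : ℝ) < gN S := by exact_mod_cast gN_pos hG
    have hcop : Nat.Coprime (nm (gP S)) M := by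
      rw [nm_gP hG]
      refine Nat.Coprime.symm (Nat.coprime_of_dvd ?_)
      intro k hk h2 h3
      obtain ⟨i, hi, rfl⟩ := gN_prime hG hk h3
      have h4 := (mem_II.1 (hS.1 hi)).2.1
      have h5 : (i.1 : ℝ) ≤ M := by exact_mod_cast Nat.le_of_dvd (by omega) h2
      linarith
    obtain ⟨r', hr'⟩ := card_cb_mult (gP_ne hG) hcop x r
    rw [hr', nm_gP hG]
    have h2 := hcls (x / gN S) (by rw [one_le_div hN0]; exact hS.2) r'
    have e : (-1 : ℝ) ^ S.card * ((cb M (x / gN S) r').card : ℝ) -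
        kp * x / (M : ℝ) ^ 2 * ((-1 : ℝ) ^ S.card / gN S) =
        (-1 : ℝ) ^ S.card * (((cb M (x / gN S) r').card : ℝ) - kp * (x / gN S) / (M : ℝ) ^ 2) := by
      ring
    rw [e, abs_mul, abs_pow, abs_neg, abs_one, one_pow, one_mul]
    exact h2
  refine (Finset.abs_sum_le_sum_abs _ _).trans ((sum_le_sum hterm).trans ?_)
  rw [← mul_sum]
  refine mul_le_mul_of_nonneg_left ?_ hC.le
  refine sum_gP _ ?_ (fun t => Real.sqrt (x / t)) (fun t => Real.sqrt_nonneg _)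
  intro S hS
  rw [mem_filter, mem_powerset] at hS
  exact hS

/-- class independence -/
theorem cls_ind {M : ℕ} (hM : 1 ≤ M) (ε : ℝ) (hε : 0 < ε) : ∃ R : ℝ, 1 ≤ R ∧ ∀ y x : ℝ, R ≤ y →
    R ≤ x → ∀ r : Gi, |(TL M y x r : ℝ) - kp * x / (M : ℝ) ^ 2 * DD y x| ≤ ε * x := by
  obtain ⟨C, hC, h⟩ := sieve hM
  obtain ⟨R, hR1, hR⟩ := rough_sum (ε / C) (by positivity)
  refine ⟨max R M, le_max_of_le_left hR1, fun y x hy hx r => ?_⟩
  have h1 := h y x ((le_max_right _ _).trans hy) (hR1.trans ((le_max_left _ _).trans hx)) r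
  have h2 := hR y x ((le_max_left _ _).trans hy) ((le_max_left _ _).trans hx)
  refine h1.trans ((mul_le_mul_of_nonneg_left h2 hC.le).trans (le_of_eq ?_))
  field_simp

/-- the main term varies slowly -/
theorem DD_slow (σ ε : ℝ) (hσ : 0 < σ) (hε : 0 < ε) : ∃ R : ℝ, 1 ≤ R ∧ ∀ y x x' : ℝ, R ≤ y →
    R ≤ x → σ * x ≤ x' → x' ≤ x → |DD y x - DD y x'| ≤ ε := by
  classical
  obtain ⟨R, hR1, hR⟩ := rough_cnt (ε * σ) (by positivity)
  refine ⟨R, hR1, fun y x x' hy hx h1 h2 => ?_⟩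
  have hx0 : 0 < x := by linarith
  have hx'0 : 0 < x' := lt_of_lt_of_le (by positivity) h1
  have e1 : DD y x' = ∑ S ∈ ((II y x).powerset.filter (fun S => (gN S : ℝ) ≤ x)).filter
      (fun S => (gN S : ℝ) ≤ x'), (-1 : ℝ) ^ S.card / gN S := by
    unfold DD
    refine sum_congr ?_ fun _ _ => rfl
    ext S
    rw [mem_filter, mem_filter, mem_filter, mem_powerset, mem_powerset]
    constructor
    · rintro ⟨h3, h4⟩
      refine ⟨⟨fun i hi => ?_, h4.trans h2⟩, h4⟩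
      have h5 := mem_II.1 (h3 hi)
      rw [mem_II]
      exact ⟨h5.1, h5.2.1, h5.2.2.trans (Nat.floor_le_floor h2)⟩
    · rintro ⟨⟨h3, h4⟩, h5⟩
      refine ⟨fun i hi => ?_, h5⟩
      have h6 := mem_II.1 (h3 hi)
      rw [mem_II]
      refine ⟨h6.1, h6.2.1, Nat.le_floor ?_⟩
      have h7 : (i.1 : ℝ) ≤ gN S := by
        exact_mod_cast Nat.le_of_dvd (gN_pos (II_G4 h3)) (gN_dvd hi)
      exact h7.trans h5
  have e2 : DD y x - DD y x' = ∑ S ∈ ((II y x).powerset.filter (fun S => (gN S : ℝ) ≤ x)).filter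
      (fun S => ¬ (gN S : ℝ) ≤ x'), (-1 : ℝ) ^ S.card / gN S := by
    rw [e1]
    unfold DD
    rw [← sum_filter_add_sum_filter_not ((II y x).powerset.filter (fun S => (gN S : ℝ) ≤ x))
      (fun S => (gN S : ℝ) ≤ x')]
    ring
  rw [e2]
  refine (Finset.abs_sum_le_sum_abs _ _).trans ?_
  have h3 : ∑ S ∈ ((II y x).powerset.filter (fun S => (gN S : ℝ) ≤ x)).filter
      (fun S => ¬ (gN S : ℝ) ≤ x'), |(-1 : ℝ) ^ S.card / gN S| ≤
      ∑ S ∈ ((II y x).powerset.filter (fun S => (gN S : ℝ) ≤ x)).filter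
      (fun S => ¬ (gN S : ℝ) ≤ x'), (fun _ : ℝ => 1 / x') (gN S) := by
    refine sum_le_sum fun S hS => ?_
    rw [mem_filter, mem_filter, mem_powerset] at hS
    have h4 : x' < gN S := not_le.1 hS.2
    have hN0 : (0 : ℝ) < gN S := hx'0.trans h4
    rw [abs_div, abs_pow, abs_neg, abs_one, one_pow, abs_of_pos hN0]
    exact one_div_le_one_div_of_le hx'0 h4.le
  refine h3.trans ?_
  refine (sum_gP (y := y) (x := x) _ ?_ (fun _ => 1 / x') (fun _ => by positivity)).trans ?_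
  · intro S hS
    rw [mem_filter, mem_filter, mem_powerset] at hS
    exact hS.1
  · rw [sum_const, nsmul_eq_mul, mul_one_div, div_le_iff₀ hx'0]
    refine (hR y x hy hx).trans ?_
    calc ε * σ * x = ε * (σ * x) := by ring
      _ ≤ ε * x' := mul_le_mul_of_nonneg_left h1 hε.le

open scoped Classical in
/-- changing the threshold -/
theorem TL_thr (c ε : ℝ) (hc : 1 ≤ c) (hε : 0 < ε) : ∃ R : ℝ, 1 ≤ R ∧ ∀ y' y x : ℝ, R ≤ y' →
    y ≤ c * y' → 0 ≤ x →
    (((ball 0 1 x).filter (fun z => ∃ p : ℕ, G4 p ∧ y' < (p : ℝ) ∧ (p : ℝ) ≤ y ∧ p ∣ nm z)).card : ℝ) ≤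
      ε * x := by
  obtain ⟨u₀, hu1, hu⟩ := prime_short c (ε / 18) hc (by positivity)
  refine ⟨u₀, hu1, fun y' y x hy' hy hx => ?_⟩
  have hy0 : 0 < y' := by linarith
  obtain ⟨P, hP⟩ : ∃ P : Finset ℕ, P = (Icc 1 ⌊c * y'⌋₊).filter
      (fun p => G4 p ∧ y' < (p : ℝ)) := ⟨_, rfl⟩
  have hPm : ∀ p ∈ P, G4 p ∧ y' < (p : ℝ) ∧ (p : ℝ) ≤ c * y' := by
    intro p hp
    rw [hP, mem_filter, mem_Icc] at hp
    refine ⟨hp.2.1, hp.2.2, ?_⟩
    exact (Nat.le_floor_iff (by positivity)).1 hp.1.2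
  have h1 := hu y' hy' P hPm
  have h2 := cnt_P P (fun p hp => (hPm p hp).1) hx
  have h3 : (((ball 0 1 x).filter (fun z => ∃ p : ℕ, G4 p ∧ y' < (p : ℝ) ∧ (p : ℝ) ≤ y ∧
      p ∣ nm z)).card : ℝ) ≤ (((ball 0 1 x).filter (fun z => ∃ p ∈ P, p ∣ nm z)).card : ℝ) := by
    refine Nat.cast_le.2 (Finset.card_le_card ?_)
    intro z hz
    rw [mem_filter] at hz ⊢
    obtain ⟨h4, p, h5, h6, h7, h8⟩ := hz
    refine ⟨h4, p, ?_, h8⟩
    rw [hP, mem_filter, mem_Icc]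
    refine ⟨⟨h5.1.one_lt.le, Nat.le_floor (h7.trans hy)⟩, h5, h6⟩
  refine h3.trans (h2.trans ?_)
  have h4 := mul_le_mul_of_nonneg_left h1 hx
  linarith

end Pool.Agent.T2H34
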